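import Pool.Agent.Lib.MP_f80667_ag.Cu.CycF

/-! Fibres of a family of zero-cycles over the affine line are rationally equivalent. -/

open Polynomial
open scoped LinearAlgebra.Projectivization

namespace Cu

open ZC

universe u

variable {k M : Type u} (Ω : Type u) [Field k] [Field M] [Field Ω] [Algebra k M] [Algebra k Ω]
  [FiniteDimensional k M] {n : ℕ}

/-- The point of a vector. -/
noncomputable def pt {Ω : Type u} [Field Ω] {n : ℕ} (v : Fin n → Ω) : ℙ Ω (Fin n → Ω) →₀ ℤ :=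
  open Classical in
  if hv : v = 0 then 0 else Finsupp.single (Projectivization.mk Ω v hv) 1

/-- The cycle of the points `ψ(η)`, `η` a zero of `h`. -/
noncomputable def secC (k : Type u) [Field k] [Algebra k M] [Algebra k Ω] [FiniteDimensional k M]
    (h : M[X]) (ψ : Fin n → M[X]) : ℙ Ω (Fin n → Ω) →₀ ℤ :=
  ∑ ι : M →ₐ[k] Ω, ((h.map (ι : M →+* Ω)).roots.map fun η =>
    pt (fun j => (ψ j).eval₂ (ι : M →+* Ω) η)).sum

variable {Ω}

/-- `secC` as a sum. -/
theorem secC_eq (h : M[X]) (hs : h.Separable)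
    (ψ : Fin n → M[X]) (hψ : ∀ t : Zs k Ω h, (fun j => (ψ j).eval₂ (t.1 : M →+* Ω) t.2.1) ≠ 0) :
    secC Ω k h ψ = ∑ t : Zs k Ω h, Finsupp.single (Projectivization.mk Ω _ (hψ t)) 1 := by
  classical
  rw [Fintype.sum_sigma, secC]
  refine Finset.sum_congr rfl fun ι _ => ?_
  have hnd : ((h.map (ι : M →+* Ω)).roots).Nodup := nodup_roots (hs.map)
  have e1 : ((h.map (ι : M →+* Ω)).roots.map fun η =>
      (pt (fun j => (ψ j).eval₂ (ι : M →+* Ω) η) : ℙ Ω (Fin n → Ω) →₀ ℤ)).sum =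
      ∑ η ∈ ((h.map (ι : M →+* Ω)).roots).toFinset, pt (fun j => (ψ j).eval₂ (ι : M →+* Ω) η) := by
    rw [Finset.sum, Multiset.toFinset_val, Multiset.dedup_eq_self.2 hnd]
  rw [e1, ← Finset.sum_coe_sort]
  refine Finset.sum_congr rfl fun η _ => ?_
  rw [pt, dif_neg (hψ ⟨ι, η⟩)]

variable (Ω)

theorem res_congr {E : Type u} [Field E] [Algebra k E] {w w' : Place k E Ω} (h : w = w') {x : E}
    (hx : x ∈ w.V) (hx' : x ∈ w'.V) : w.res ⟨x, hx⟩ = w'.res ⟨x, hx'⟩ := by
  subst h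
  rfl

/-- Proof. `g` is irreducible (`Monic.irreducible_of_irreducible_map`), `B = M[X][X] / (g)` is a
noetherian domain, `E = Frac B` is a function field over `k` (finite over `M(λ)`), `λ` = image of
`C X`, `Y` = image of `X`. For `a = 0, 1`, `ι : M →ₐ[k] Ω` and a zero `η` of `ι(g(a, Y))` let `q` be
the kernel of `B → Ω`, `λ ↦ ι a`, `Y ↦ η`. As `η` is a simple zero, the maximal ideal of `B_q` is
generated by `λ - a` (if `h` is the minimal polynomial over `M` of the residue of `Y`, then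
`g(a, Y) = h r`, `r(η) ≠ 0`, `g(λ, Y) = 0` so `h ∈ (λ - a) B_q`), so `B_q` is a discrete valuation
ring; with the residue map to `Ω` it is a place `w(ι, η)`. Every place `w` with `λ - a` in the
maximal ideal is one of these: `Y` is integral over `M[λ]`, so `B ⊆ w.V`, and `B_q ⊆ w.V ≠ E`.
The function `λ / (λ - 1)` has order `1` at the places over `0`, order `-1` at the places over `1`
and is a unit at all others (at the places with `1/λ` in the maximal ideal it is
`1 / (1 - 1/λ)`). The value of `ψ(λ, Y)` at `w(ι, η)` is the point of `ψ(a, η)`. -/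
theorem cyc_fam [CharZero k] [IsAlgClosure k Ω] {ι' : Type} (f : ι' → MvPolynomial (Fin n) k)
    (g : M[X][X]) (ψ : Fin n → M[X][X]) (hg : g.Monic) (hirr : Irreducible (fib 1 g))
    (hsep : (fib 0 g).Separable) (hdvd : ∀ i, g ∣ MvPolynomial.aeval ψ (f i))
    (hne : ∀ a : M, a = 0 ∨ a = 1 → ∀ (L : Type u) [Field L] [Algebra M L] (η : L),
      aeval η (fib a g) = 0 → (fun j => aeval η (fib a (ψ j))) ≠ 0) :
    secC Ω k (fib 0 g) (fun j => fib 0 (ψ j)) - secC Ω k (fib 1 g) (fun j => fib 1 (ψ j)) ∈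
      ratEq Ω f := by
  classical
  have hcM : CharZero M := charZero_of_injective_algebraMap (algebraMap k M).injective
  have : IsAlgClosed Ω := IsAlgClosure.isAlgClosed k
  have hirr' : Irreducible (g.map (evalRingHom (1 : M))) := hirr
  have hgi : Irreducible g := Polynomial.Monic.irreducible_of_irreducible_map _ g hg hirr'
  have hs1 : (fib 1 g).Separable := hirr.separable
  obtain ⟨E, _, _, _, _, φ, hff, H⟩ := exists_ff (k := k) g hg hgi
  have hsep' : ∀ a : M, a = 0 ∨ a = 1 → (fib a g).Separable := by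
    rintro a (rfl | rfl)
    · exact hsep
    · exact hs1
  -- values
  have hval : ∀ a : M, a = 0 ∨ a = 1 → ∀ t : Zs k Ω (fib a g),
      (fun j => (fib a (ψ j)).eval₂ (t.1 : M →+* Ω) t.2.1) ≠ 0 := by
    intro a ha t
    let _ : Algebra M Ω := (t.1 : M →+* Ω).toAlgebra
    exact hne a ha Ω t.2.1 t.eval
  -- places
  have hpl : ∀ a : M, a = 0 ∨ a = 1 → ∀ t : Zs k Ω (fib a g), ∃ w : Place k E Ω,
      (∀ x : E, x ∈ w.V ↔ ∃ b s : M[X][X], ev (t.1 : M →+* Ω) a t.2.1 s ≠ 0 ∧ x * φ s = φ b) ∧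
      (∀ x : E, x ∈ w.V.nonunits ↔ x / φ (C (X - C a)) ∈ w.V) ∧
      ∀ (p : M[X][X]) (hp : φ p ∈ w.V), w.res ⟨φ p, hp⟩ = ev (t.1 : M →+* Ω) a t.2.1 p := by
    intro a ha t
    exact H.exists_place t.1 a t.2.1 t.eval
      ((hsep' a ha).eval₂_derivative_ne_zero _ t.eval)
  choose W hW1 hW2 hW3 using hpl
  have hmem : ∀ (a : M) (ha : a = 0 ∨ a = 1) (t : Zs k Ω (fib a g)) (p : M[X][X]),
      φ p ∈ (W a ha t).V := by
    intro a ha t p
    rw [hW1]
    exact ⟨p, 1, by simp, by simp⟩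
  have hWinj : ∀ (a : M) (ha : a = 0 ∨ a = 1) (t : Zs k Ω (fib a g)) (a' : M)
      (ha' : a' = 0 ∨ a' = 1) (t' : Zs k Ω (fib a' g)), W a ha t = W a' ha' t' →
      t.1 = t'.1 ∧ a = a' ∧ t.2.1 = t'.2.1 := by
    intro a ha t a' ha' t' h
    apply ev_inj
    intro p
    have h1 := hW3 a ha t p (hmem a ha t p)
    have h2 := hW3 a' ha' t' p (hmem a' ha' t' p)
    rw [← h1, ← h2]
    exact res_congr Ω h _ _
  have h00 : (0 : M) = 0 ∨ (0 : M) = 1 := Or.inl rfl
  have h11 : (1 : M) = 0 ∨ (1 : M) = 1 := Or.inr rfl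
  set T := Zs k Ω (fib 0 g) ⊕ Zs k Ω (fib 1 g) with hT
  set Wt : T → Place k E Ω := Sum.elim (W 0 h00) (W 1 h11) with hWt
  have hWt_inj : Function.Injective Wt := by
    rintro (⟨ι, η⟩ | ⟨ι, η⟩) (⟨ι', η'⟩ | ⟨ι', η'⟩) h
    · obtain ⟨h1, -, h3⟩ := hWinj 0 h00 _ 0 h00 _ h
      dsimp only at h1 h3
      subst h1
      rw [Subtype.ext h3]
    · obtain ⟨-, h2, -⟩ := hWinj 0 h00 _ 1 h11 _ h
      exact absurd h2 zero_ne_one
    · obtain ⟨-, h2, -⟩ := hWinj 1 h11 _ 0 h00 _ h
      exact absurd h2 one_ne_zero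
    · obtain ⟨h1, -, h3⟩ := hWinj 1 h11 _ 1 h11 _ h
      dsimp only at h1 h3
      subst h1
      rw [Subtype.ext h3]
  -- every place over 0 or 1 is one of these
  have hcov : ∀ (a : M) (ha : a = 0 ∨ a = 1) (w : Place k E Ω),
      φ (C (X - C a)) ∈ w.V.nonunits → ∃ t, W a ha t = w := by
    intro a ha w hw
    obtain ⟨ι, η, h1, h2, h3⟩ := H.over hg w a hw
    have hne0 : fib a g ≠ 0 := (hg.map _).ne_zero
    have hroot : η ∈ (((fib a g).map (ι : M →+* Ω)).roots).toFinset := by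
      rw [Multiset.mem_toFinset, mem_roots (map_ne_zero hne0), IsRoot, eval_map]
      exact h1
    refine ⟨⟨ι, η, ?_⟩, ?_⟩
    · convert hroot
    · exact H.place_eq (ι : M →+* Ω) a η _ _ (hW1 a ha _) (hW3 a ha _) h2 h3
  -- the function
  set s : E := φ (C X) with hs
  have hsX : φ (C (X - C 0)) = s := by rw [C_0, sub_zero]
  have hsX1 : φ (C (X - C 1)) = s - 1 := by
    rw [C_1, C_sub, map_sub, C_1, map_one]
  have hnd : ∀ a : M, φ (C (X - C a)) ≠ 0 := by
    intro a h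
    rw [H.ker] at h
    obtain ⟨q, hq⟩ := h
    have h1 := congrArg natDegree hq
    have hq0 : q ≠ 0 := by
      rintro rfl
      rw [mul_zero] at hq
      exact X_sub_C_ne_zero a (C_eq_zero.1 hq)
    rw [natDegree_C, hg.natDegree_mul' hq0] at h1
    have h2 : 0 < (fib 1 g).natDegree := hirr.natDegree_pos
    have h3 : (fib 1 g).natDegree = g.natDegree := hg.natDegree_map _
    omega
  have hs0 : s ≠ 0 := by
    rw [← hsX]
    exact hnd 0
  have hs10 : s - 1 ≠ 0 := by
    rw [← hsX1]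
    exact hnd 1
  set p : Fin n → E := fun j => φ (ψ j) with hp
  have hpV : ∀ (a : M) (ha : a = 0 ∨ a = 1) (t : Zs k Ω (fib a g)),
      (W a ha t).IsVal p (Projectivization.mk Ω _ (hval a ha t)) := by
    intro a ha t
    have hm : ∀ i, 1 * p i ∈ (W a ha t).V := by
      intro i
      rw [one_mul]
      exact hmem a ha t _
    have hr : (fun i => (W a ha t).res ⟨1 * p i, hm i⟩) =
        fun j => (fib a (ψ j)).eval₂ (t.1 : M →+* Ω) t.2.1 := by
      funext i
      have e : (⟨1 * p i, hm i⟩ : (W a ha t).V) = ⟨φ (ψ i), hmem a ha t _⟩ := by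
        ext
        exact one_mul _
      rw [e, hW3 a ha t]
      rfl
    refine ⟨1, hm, ?_, ?_⟩
    · rw [hr]
      exact hval a ha t
    · congr 1
      exact hr.symm
  have hord0 : ∀ t : Zs k Ω (fib 0 g), (W 0 h00 t).IsOrd (s / (s - 1)) 1 := by
    intro t
    refine ⟨s, (s - 1)⁻¹, hs0, ?_, ?_, ?_, inv_ne_zero hs10, ?_⟩
    · intro x
      rw [hW2, hsX]
    · rw [hW1]
      refine ⟨1, C (X - C 1), ?_, ?_⟩
      · rw [C_sub, map_sub, ev_CX, ev_CC, map_zero, map_one, zero_sub]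
        exact neg_ne_zero.2 one_ne_zero
      · rw [hsX1, map_one, inv_mul_cancel₀ hs10]
    · rw [inv_inv, ← hsX1]
      exact hmem 0 h00 t _
    · rw [zpow_one, div_eq_mul_inv, mul_comm]
  have hord1 : ∀ t : Zs k Ω (fib 1 g), (W 1 h11 t).IsOrd (s / (s - 1)) (-1) := by
    intro t
    refine ⟨s - 1, s, hs10, ?_, ?_, ?_, hs0, ?_⟩
    · intro x
      rw [hW2, hsX1]
    · exact hmem 1 h11 t _
    · rw [hW1]
      refine ⟨1, C X, ?_, ?_⟩
      · rw [ev_CX, map_one]
        exact one_ne_zero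
      · rw [← hs, map_one, inv_mul_cancel₀ hs0]
    · rw [zpow_neg_one, div_eq_mul_inv]
  -- a zero of the fibre over 1
  have hT1 : Nonempty (Zs k Ω (fib 1 g)) := by
    have h1 : ∀ x : M, IsAlgebraic k x := Algebra.IsAlgebraic.isAlgebraic
    let ι : M →ₐ[k] Ω := IsAlgClosed.lift
    have h2 : ((fib 1 g).map (ι : M →+* Ω)).degree ≠ 0 := by
      rw [degree_map]
      exact (natDegree_pos_iff_degree_pos.1 hirr.natDegree_pos).ne'
    obtain ⟨η, hη⟩ := IsAlgClosed.exists_root _ h2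
    refine ⟨⟨ι, η, ?_⟩⟩
    rw [Multiset.mem_toFinset, mem_roots (map_ne_zero hirr.ne_zero)]
    exact hη
  have hT0 : Nonempty T := ⟨Sum.inr hT1.some⟩
  have hp0 : p ≠ 0 := by
    intro h
    obtain ⟨t⟩ := hT1
    apply hval 1 h11 t
    funext j
    have h1 : φ (ψ j) = 0 := congrFun h j
    rw [H.ker] at h1
    obtain ⟨q, hq⟩ := h1
    have h2 : fib 1 (ψ j) = fib 1 g * fib 1 q := by
      rw [hq]
      exact Polynomial.map_mul _
    rw [h2, eval₂_mul, t.eval, zero_mul]
    rfl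
  have hz : Zer f E p := by
    intro i
    let Φ : M[X][X] →ₐ[k] E :=
      { φ with
        commutes' := by
          intro c
          have h1 : algebraMap k M[X][X] c = C (C (algebraMap k M c)) := rfl
          show φ (algebraMap k M[X][X] c) = _
          rw [h1, H.base, ← IsScalarTower.algebraMap_apply] }
    have h1 : Φ (MvPolynomial.aeval ψ (f i)) = 0 := (H.ker _).2 (hdvd i)
    rw [MvPolynomial.comp_aeval_apply] at h1
    exact h1
  have key := push_of_family Wt hWt_inj (s / (s - 1)) p (Sum.elim (fun _ => 1) (fun _ => -1))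
    (Sum.elim (fun t => Projectivization.mk Ω _ (hval 0 h00 t))
      (fun t => Projectivization.mk Ω _ (hval 1 h11 t))) ?_ ?_
  · rw [Fintype.sum_sum_type] at key
    simp only [Sum.elim_inl, Sum.elim_inr] at key
    rw [secC_eq (fib 0 g) hsep _ (hval 0 h00), secC_eq (fib 1 g) hs1 _ (hval 1 h11),
      sub_eq_add_neg, ← Finset.sum_neg_distrib]
    simp only [← Finsupp.single_neg]
    exact AddSubgroup.subset_closure ⟨E, inferInstance, inferInstance, hff, s / (s - 1), p,
      div_ne_zero hs0 hs10, hp0, hz, key⟩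
  · intro w hw
    apply unit_or w hs0 hs10
    · intro h
      rw [← hsX] at h
      obtain ⟨t, ht⟩ := hcov 0 h00 w h
      exact hw (Sum.inl t) ht
    · intro h
      rw [← hsX1] at h
      obtain ⟨t, ht⟩ := hcov 1 h11 w h
      exact hw (Sum.inr t) ht
  · rintro (t | t)
    · exact ⟨hord0 t, hpV 0 h00 t⟩
    · exact ⟨hord1 t, hpV 1 h11 t⟩

end Cu
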