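import Pool.Agent.Lib.MP_f80667_ag.ZC.Tr
import Pool.Agent.Lib.MP_f80667_ag.ZC.Orb
import Pool.Agent.Lib.MP_f80667_ag.Cu.Cyc

open Polynomial
open scoped LinearAlgebra.Projectivization

/-! The classes of zero-cycles on a cubic hypersurface satisfy the axioms `Th`. -/

namespace Cu

open ZC

universe u

variable {k : Type u} [Field k] {n : ℕ}

private theorem deg_three (m : Fin n →₀ ℕ) (hm : ∑ i, m i = 3) :
    ∃ i j l, m = Finsupp.single i 1 + Finsupp.single j 1 + Finsupp.single l 1 := by
  have key : ∀ (d : ℕ) (m : Fin n →₀ ℕ), ∑ i, m i = d + 1 →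
      ∃ (i : Fin n) (m' : Fin n →₀ ℕ), m = m' + Finsupp.single i 1 ∧ ∑ i, m' i = d := by
    intro d m hm
    obtain ⟨i, hi⟩ : ∃ i, m i ≠ 0 := by
      by_contra hcon
      push Not at hcon
      rw [Finset.sum_eq_zero fun i _ => hcon i] at hm
      omega
    have h1 : Finsupp.single i 1 ≤ m := by
      rw [Finsupp.single_le_iff]
      omega
    refine ⟨i, m - Finsupp.single i 1, (tsub_add_cancel_of_le h1).symm, ?_⟩
    have h2 : ∑ a, m a = ∑ a, (m - Finsupp.single i 1 : Fin n →₀ ℕ) a + ∑ a, (Finsupp.single i 1 : Fin n →₀ ℕ) a := by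
      rw [← Finset.sum_add_distrib]
      refine Finset.sum_congr rfl fun a _ => ?_
      rw [← Finsupp.add_apply, tsub_add_cancel_of_le h1]
    have h3 : ∑ a, (Finsupp.single i 1 : Fin n →₀ ℕ) a = 1 := by
      simp [Finsupp.single_apply]
    omega
  obtain ⟨l, m2, e1, h1⟩ := key 2 m hm
  obtain ⟨j, m1, e2, h2⟩ := key 1 m2 h1
  obtain ⟨i, m0, e3, h3⟩ := key 0 m1 h2
  have h4 : m0 = 0 := by
    ext a
    exact (Finset.sum_eq_zero_iff.1 h3) a (Finset.mem_univ a)
  exact ⟨i, j, l, by rw [e1, e2, e3, h4, zero_add]⟩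

/-- Every homogeneous polynomial of degree `3` comes from a tensor (`T i j l` = coefficient of
`X_i X_j X_l` for `i ≤ j ≤ l`, `0` otherwise). -/
theorem exists_tensor (f : MvPolynomial (Fin n) k) (hf : f.IsHomogeneous 3) :
    ∃ T : Tn k n, ∀ (R : Type u) [CommRing R] [Algebra k R] (x : Fin n → R),
      MvPolynomial.aeval x f = (ex T R).f x := by
  classical
  have key : ∀ s : Finset (Fin n →₀ ℕ), (∀ m ∈ s, ∑ i, m i = 3) →
      ∃ T : Tn k n, ∀ (R : Type u) [CommRing R] [Algebra k R] (x : Fin n → R),
        MvPolynomial.aeval x (∑ m ∈ s, MvPolynomial.monomial m (f.coeff m)) = (ex T R).f x := by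
    intro s
    induction s using Finset.induction_on with
    | empty =>
      intro _
      refine ⟨fun _ _ _ => 0, fun R _ _ x => ?_⟩
      rw [Finset.sum_empty, map_zero]
      simp [ex, cb, Tn.map]
    | insert m s hm ih =>
      intro hs
      obtain ⟨T, hT⟩ := ih fun m' hm' => hs m' (Finset.mem_insert_of_mem hm')
      obtain ⟨i, j, l, e⟩ := deg_three m (hs m (Finset.mem_insert_self m s))
      refine ⟨fun a b c => T a b c + if a = i ∧ b = j ∧ c = l then f.coeff m else 0,
        fun R _ _ x => ?_⟩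
      rw [Finset.sum_insert hm, map_add, hT, add_comm]
      have h1 : ((ex (fun a b c => T a b c + if a = i ∧ b = j ∧ c = l then f.coeff m else 0) R).f x)
          = (ex T R).f x + ∑ a, ∑ b, ∑ c, (if a = i ∧ b = j ∧ c = l then
            algebraMap k R (f.coeff m) * (x a * x b * x c) else 0) := by
        simp only [ex, cb, Tn.map, ← Finset.sum_add_distrib]
        refine Finset.sum_congr rfl fun a _ => Finset.sum_congr rfl fun b _ =>
          Finset.sum_congr rfl fun c _ => ?_
        split_ifs
        · rw [map_add, add_mul]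
        · rw [add_zero, add_zero]
      rw [h1]
      congr 1
      rw [Finset.sum_eq_single i, Finset.sum_eq_single j, Finset.sum_eq_single l, if_pos ⟨rfl, rfl, rfl⟩]
      · rw [MvPolynomial.aeval_monomial, e]
        congr 1
        rw [Finsupp.prod_add_index' (fun _ => pow_zero _) (fun _ _ _ => pow_add _ _ _),
          Finsupp.prod_add_index' (fun _ => pow_zero _) (fun _ _ _ => pow_add _ _ _)]
        have h2 : ∀ a : Fin n, (Finsupp.single a 1).prod (fun i e => x i ^ e) = x a := fun a => by
          exact (Finsupp.prod_single_index (h := fun i e => x i ^ e) (pow_zero _)).trans (pow_one _)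
        exact congrArg₂ (· * ·) (congrArg₂ (· * ·) (h2 i) (h2 j)) (h2 l)
      · intro c _ hc
        rw [if_neg fun h => hc h.2.2]
      · intro h; exact absurd (Finset.mem_univ _) h
      · intro b _ hb
        exact Finset.sum_eq_zero fun c _ => if_neg fun h => hb h.2.1
      · intro h; exact absurd (Finset.mem_univ _) h
      · intro a _ ha
        exact Finset.sum_eq_zero fun b _ => Finset.sum_eq_zero fun c _ => if_neg fun h => ha h.1
      · intro h; exact absurd (Finset.mem_univ _) h
  obtain ⟨T, hT⟩ := key f.support (fun m hm => by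
    have h1 := hf (MvPolynomial.mem_support_iff.1 hm)
    rw [← h1, Finsupp.weight_apply, Finsupp.sum_fintype]
    · simp
    · intro i; simp)
  exact ⟨T, fun R _ _ x => by rw [← hT, ← MvPolynomial.as_sum f]⟩

/-- the expansion of `g (x + X y)` -/
private theorem expand (R : Type u) [CommRing R] [Algebra k R] (x y : Fin n → R)
    (g : MvPolynomial (Fin n) k) :
    (MvPolynomial.aeval (fun i => C (x i) + X * C (y i) : Fin n → R[X]) g).coeff 0 =
        MvPolynomial.aeval x g ∧
      (MvPolynomial.aeval (fun i => C (x i) + X * C (y i) : Fin n → R[X]) g).coeff 1 =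
        ∑ i, MvPolynomial.aeval x (MvPolynomial.pderiv i g) * y i := by
  classical
  induction g using MvPolynomial.induction_on with
  | C a =>
    rw [MvPolynomial.aeval_C, MvPolynomial.aeval_C]
    have h1 : algebraMap k R[X] a = C (algebraMap k R a) := rfl
    rw [h1]
    constructor
    · simp
    · rw [coeff_C, if_neg one_ne_zero]
      symm
      refine Finset.sum_eq_zero fun i _ => ?_
      rw [MvPolynomial.pderiv_C, map_zero, zero_mul]
  | add p q hp hq =>
    constructor
    · rw [map_add, coeff_add, hp.1, hq.1, map_add]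
    · rw [map_add, coeff_add, hp.2, hq.2, ← Finset.sum_add_distrib]
      refine Finset.sum_congr rfl fun i _ => ?_
      rw [map_add, map_add, add_mul]
  | mul_X p i hp =>
    rw [map_mul, map_mul, MvPolynomial.aeval_X, MvPolynomial.aeval_X]
    constructor
    · rw [mul_coeff_zero, hp.1]
      simp
    · have h1 : ∀ P : R[X], (P * (C (x i) + X * C (y i))).coeff 1 =
          P.coeff 1 * x i + P.coeff 0 * y i := by
        intro P
        rw [mul_add, coeff_add, coeff_mul_C, ← mul_assoc, coeff_mul_C]
        congr 2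
        rw [show (1 : ℕ) = 0 + 1 by rfl, coeff_mul_X]
      rw [h1, hp.1, hp.2]
      have h2 : ∀ j, MvPolynomial.aeval x (MvPolynomial.pderiv j (p * MvPolynomial.X i)) * y j =
          MvPolynomial.aeval x (MvPolynomial.pderiv j p) * y j * x i +
            (if i = j then MvPolynomial.aeval x p * y i else 0) := by
        intro j
        rw [MvPolynomial.pderiv_mul, map_add, map_mul, map_mul, MvPolynomial.aeval_X,
          MvPolynomial.pderiv_X]
        split_ifs with h
        · subst h
          rw [Pi.single_eq_same, map_one]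
          ring
        · rw [Pi.single_eq_of_ne h, map_zero]
          ring
      rw [Finset.sum_congr rfl fun j _ => h2 j, Finset.sum_add_distrib, Finset.sum_ite_eq,
        if_pos (Finset.mem_univ i), Finset.sum_mul]

/-- The derivatives of `f` in terms of the tensor. -/
theorem tensor_D (f : MvPolynomial (Fin n) k) (T : Tn k n)
    (h : ∀ (R : Type u) [CommRing R] [Algebra k R] (x : Fin n → R),
      MvPolynomial.aeval x f = (ex T R).f x) (R : Type u) [Field R] [CharZero R] [Algebra k R]
    (x y : Fin n → R) :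
    (ex T R).D x y = ∑ i, MvPolynomial.aeval x (MvPolynomial.pderiv i f) * y i := by
  rw [← (expand R x y f).2, h]
  have h1 : (fun i => C (x i) + X * C (y i) : Fin n → R[X]) = up R[X] x + (X : R[X]) • up R[X] y := rfl
  rw [h1, (ex T R[X]).f_add, (ex T R[X]).D_smul, (ex T R[X]).smul_D, (ex T R[X]).f_smul, ex_f, ex_f,
    ex_D, ex_D, coeff_add, coeff_add, coeff_add]
  have h2 : ∀ a : R, algebraMap R R[X] a = C a := fun a => rfl
  rw [h2, h2, h2, h2, mul_comm X, coeff_C_mul, coeff_X_one, mul_one, mul_comm (X ^ 2), coeff_C_mul,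
    coeff_X_pow, mul_comm (X ^ 3), coeff_C_mul, coeff_X_pow, coeff_C, if_neg one_ne_zero]
  norm_num

variable (Ω : Type u) [Field Ω] [Algebra k Ω]

/-- Zero-cycles modulo rational equivalence. -/
abbrev CHf (f : MvPolynomial (Fin n) k) : Type u :=
  (ℙ Ω (Fin n → Ω) →₀ ℤ) ⧸ ratEq Ω (fun _ : Unit => f)

/-- The class of a point (`trPt` of the point of the vector `A`). -/
noncomputable def clZ (f : MvPolynomial (Fin n) k) (M : Type u) [Field M] [Algebra k M]
    [FiniteDimensional k M] (A : Fin n → M) : CHf Ω f :=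
  open Classical in
  if h : A = 0 then 0 else QuotientAddGroup.mk (trPt k Ω (Projectivization.mk M A h))

private theorem pt_zero : pt (fun _ => 0 : Fin n → Ω) = 0 := by
  unfold pt
  exact dif_pos rfl

private theorem pt_ne {v : Fin n → Ω} (hv : v ≠ 0) :
    pt v = Finsupp.single (Projectivization.mk Ω v hv) 1 := by
  unfold pt
  rw [dif_neg hv]

private theorem clZ_eq (f : MvPolynomial (Fin n) k) (M : Type u) [Field M] [Algebra k M]
    [FiniteDimensional k M] (A : Fin n → M) :
    clZ Ω f M A = QuotientAddGroup.mk (∑ ι : M →ₐ[k] Ω, pt fun j => ι (A j)) := by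
  unfold clZ
  split_ifs with h
  · subst h
    rw [Finset.sum_eq_zero]
    · rfl
    · intro ι _
      have h1 : (fun j : Fin n => ι ((0 : Fin n → M) j)) = fun _ => 0 := by
        funext j
        exact map_zero ι
      rw [h1, pt_zero]
  · congr 1
    unfold trPt
    refine Finset.sum_congr rfl fun ι _ => ?_
    rw [ZC.mapPt_mk, ← pt_ne]
    rfl

/-- the zeros of `h` and the embeddings of `L = M(θ)` -/
private theorem sum_irr [CharZero k] [IsAlgClosure k Ω] (M L : Type u) [Field M] [Field L]
    [Algebra k M] [Algebra k L] [Algebra M L] [IsScalarTower k M L] [FiniteDimensional k M]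
    [FiniteDimensional k L] (h : M[X]) (θ : L) (hm : h.Monic) (hirr : Irreducible h)
    (hθ : aeval θ h = 0) (hd : Module.finrank M L = h.natDegree) {G : Type u} [AddCommMonoid G]
    (g : (M →ₐ[k] Ω) → Ω → G) :
    ∑ ι : M →ₐ[k] Ω, ((h.map (ι : M →+* Ω)).roots.map fun η => g ι η).sum =
      ∑ κ : L →ₐ[k] Ω, g (κ.comp (IsScalarTower.toAlgHom k M L)) (κ θ) := by
  classical
  have : FiniteDimensional M L := FiniteDimensional.right k M L
  have : CharZero M := charZero_of_injective_algebraMap (algebraMap k M).injective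
  have hac : IsAlgClosed Ω := IsAlgClosure.isAlgClosed k
  have hmin : h = minpoly M θ := minpoly.eq_of_irreducible_of_monic hirr hθ hm
  have hint : IsIntegral M θ := IsIntegral.of_finite M θ
  have htop : IntermediateField.adjoin M {θ} = ⊤ := by
    rw [Field.primitive_element_iff_minpoly_natDegree_eq, ← hmin, hd]
  have htop' : Algebra.adjoin M {θ} = ⊤ := by
    have h1 := IntermediateField.adjoin_simple_toSubalgebra_of_isAlgebraic hint.isAlgebraic
    rw [← h1, htop]
    rfl
  obtain ⟨pb, hpb⟩ : ∃ pb : PowerBasis M L, pb.gen = θ :=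
    ⟨PowerBasis.ofAdjoinEqTop hint htop', PowerBasis.ofAdjoinEqTop_gen hint htop'⟩
  -- for one embedding of `M`
  have key : ∀ ι : M →ₐ[k] Ω, ((h.map (ι : M →+* Ω)).roots.map fun η => g ι η).sum =
      ∑ κ ∈ Finset.univ.filter
        (fun κ : L →ₐ[k] Ω => κ.comp (IsScalarTower.toAlgHom k M L) = ι), g ι (κ θ) := by
    intro ι
    let _ : Algebra M Ω := ι.toRingHom.toAlgebra
    have _ : IsScalarTower k M Ω := IsScalarTower.of_algebraMap_eq fun x => (ι.commutes x).symm
    have hsep : (minpoly M θ).Separable := Algebra.IsSeparable.isSeparable M θ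
    have hroots : (h.map (ι : M →+* Ω)).roots = (minpoly M pb.gen).aroots Ω := by
      rw [hpb, ← hmin]
      rfl
    have hnd : ((minpoly M pb.gen).aroots Ω).Nodup := by
      rw [hpb]
      exact nodup_roots hsep.map
    have e1 : ((h.map (ι : M →+* Ω)).roots.map fun η => g ι η).sum =
        ∑ y : {y : Ω // y ∈ (minpoly M pb.gen).aroots Ω}, g ι y := by
      rw [hroots, Finset.sum_mem_multiset _ _ (fun y : Ω => g ι y) (fun _ => rfl),
        Finset.sum_eq_multiset_sum, Multiset.toFinset_val, Multiset.dedup_eq_self.2 hnd]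
    rw [e1, ← Equiv.sum_comp pb.liftEquiv'
      fun y : {y : Ω // y ∈ (minpoly M pb.gen).aroots Ω} => g ι (y : Ω)]
    refine Finset.sum_bij (fun σ _ => (σ.restrictScalars k : L →ₐ[k] Ω)) ?_ ?_ ?_ ?_
    · intro σ _
      rw [Finset.mem_filter]
      refine ⟨Finset.mem_univ _, ?_⟩
      ext x
      exact σ.commutes x
    · intro σ _ σ' _ e
      ext x
      exact DFunLike.congr_fun e x
    · intro κ hκ
      have h1 := (Finset.mem_filter.1 hκ).2
      refine ⟨{ toRingHom := κ.toRingHom
                commutes' := fun x => DFunLike.congr_fun h1 x }, Finset.mem_univ _, ?_⟩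
      ext x
      rfl
    · intro σ _
      rw [PowerBasis.liftEquiv'_apply_coe, hpb]
      rfl
  rw [Finset.sum_congr rfl fun ι _ => key ι]
  rw [← Finset.sum_fiberwise (Finset.univ : Finset (L →ₐ[k] Ω))
    (fun κ => κ.comp (IsScalarTower.toAlgHom k M L))]
  refine Finset.sum_congr rfl fun ι _ => Finset.sum_congr rfl fun κ hκ => ?_
  rw [(Finset.mem_filter.1 hκ).2]

/-- Proof of the axioms: `smul`: equality of points; `ext`: `trPt_tower`; `curve`: `rel_curve`
(a polynomial with infinitely many zeros is `0`; if `N = 0` there is nothing to prove);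
`sec_lin`, `sec_mul` (`roots_mul`), `sec_irr` (embeddings of `L = M(θ)` = pairs of an embedding `ι`
of `M` and a zero of `ι(h)`); `sec_congr`: the points are equal (use `L = Ω` with the algebra
structure `ι`); `fam` = `cyc_fam`. -/
theorem exists_th [CharZero k] [IsAlgClosure k Ω] (f : MvPolynomial (Fin n) k) (T : Tn k n)
    (h : ∀ (R : Type u) [CommRing R] [Algebra k R] (x : Fin n → R),
      MvPolynomial.aeval x f = (ex T R).f x) :
    ∃ C : Th k T (CHf Ω f), ∀ (M : Type u) [Field M] [Algebra k M] [FiniteDimensional k M]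
      (A : Fin n → M), C.cl M A = clZ Ω f M A := by
  classical
  have hac : IsAlgClosed Ω := IsAlgClosure.isAlgClosed k
  refine ⟨⟨fun M _ _ _ A => clZ Ω f M A, fun M _ _ _ g ψ => QuotientAddGroup.mk (secC Ω k g ψ),
    ?_, ?_, ?_, ?_, ?_, ?_, ?_, ?_⟩, fun M _ _ _ A => rfl⟩
  · -- smul
    intro M _ _ _ a A ha
    unfold clZ
    by_cases hA : A = 0
    · rw [dif_pos hA, dif_pos (by rw [hA, smul_zero])]
    · have hA' : a • A ≠ 0 := smul_ne_zero ha hA
      rw [dif_neg hA, dif_neg hA']
      congr 2
      rw [Projectivization.mk_eq_mk_iff']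
      exact ⟨a, rfl⟩
  · -- ext
    intro M L _ _ _ _ _ _ _ _ A
    unfold clZ
    by_cases hA : A = 0
    · have hA' : up L A = 0 := by
        funext i
        unfold up
        rw [hA, Pi.zero_apply, map_zero]
        rfl
      rw [dif_pos hA, dif_pos hA', smul_zero]
    · have hA' : up L A ≠ 0 := comp_ne (algebraMap M L) hA
      rw [dif_neg hA, dif_neg hA']
      have h1 := trPt_tower (k := k) (Ω := Ω) (K := M) (M := L) (Projectivization.mk M A hA)
      rw [ZC.mapPt_mk] at h1
      have h2 : Projectivization.mk L (up L A) hA' = Projectivization.mk L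
        (fun i => algebraMap M L (A i)) (comp_ne (algebraMap M L) hA) := rfl
      rw [h2, h1]
      rfl
  · -- curve
    intro M _ _ _ N c h0 hN hz
    have hM0 : CharZero M := charZero_of_injective_algebraMap (algebraMap k M).injective
    have hinf : Infinite M := inferInstance
    unfold clZ
    rw [dif_neg h0, dif_neg hN]
    have h1 := rel_curve (k := k) (Ω := Ω) (fun _ : Unit => f) N c h0 hN (fun _ => by
      apply Polynomial.funext
      intro s
      rw [eval_zero, ← hz s, ← h]
      have h2 : ∀ p : M[X], eval s p = (Polynomial.aeval s : M[X] →ₐ[M] M).restrictScalars k p :=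
        fun p => (Polynomial.coe_aeval_eq_eval s ▸ rfl)
      rw [h2, MvPolynomial.comp_aeval_apply]
      congr 1
      congr 1
      funext j
      rw [← h2, eval_finsetSum, Finset.sum_apply]
      refine Finset.sum_congr rfl fun a _ => ?_
      rw [eval_mul, eval_pow, eval_X, eval_C, Pi.smul_apply, smul_eq_mul])
    rw [QuotientAddGroup.eq, neg_add_eq_sub]
    have h3 := (ratEq Ω fun _ : Unit => f).neg_mem h1
    rwa [neg_sub] at h3
  · -- sec_lin
    intro M _ _ _ a ψ
    rw [clZ_eq]
    congr 1
    unfold secC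
    refine Finset.sum_congr rfl fun ι _ => ?_
    rw [Polynomial.map_sub, Polynomial.map_X, Polynomial.map_C, roots_X_sub_C,
      Multiset.map_singleton, Multiset.sum_singleton]
    congr 1
    funext j
    exact Polynomial.eval₂_at_apply (ι : M →+* Ω) a
  · -- sec_mul
    intro M _ _ _ h₁ h₂ ψ hm₁ hm₂ _
    rw [← QuotientAddGroup.mk_add]
    congr 1
    unfold secC
    rw [← Finset.sum_add_distrib]
    refine Finset.sum_congr rfl fun ι _ => ?_
    rw [Polynomial.map_mul, roots_mul (mul_ne_zero (hm₁.map _).ne_zero (hm₂.map _).ne_zero),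
      Multiset.map_add, Multiset.sum_add]
  · -- sec_irr
    intro M L _ _ _ _ _ _ _ _ g ψ θ hm hirr hθ hd
    rw [clZ_eq]
    congr 1
    unfold secC
    rw [sum_irr Ω M L g θ hm hirr hθ hd
      fun ι η => (pt (fun j => (ψ j).eval₂ (ι : M →+* Ω) η) : ℙ Ω (Fin n → Ω) →₀ ℤ)]
    refine Finset.sum_congr rfl fun κ _ => ?_
    congr 1
    funext j
    rw [aeval_def]
    exact (Polynomial.hom_eval₂ (ψ j) (algebraMap M L) (κ : L →+* Ω) θ).symm
  · -- sec_congr
    intro M _ _ _ g ψ ψ' hm hc
    congr 1
    unfold secC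
    refine Finset.sum_congr rfl fun ι _ => ?_
    congr 1
    refine Multiset.map_congr rfl fun η hη => ?_
    let _ : Algebra M Ω := (ι : M →+* Ω).toAlgebra
    obtain ⟨a, ha, he⟩ := hc Ω η (by
      have h1 := (mem_roots'.mp hη).2
      rw [IsRoot, eval_map] at h1
      exact h1)
    have h2 : (fun j => (ψ j).eval₂ (ι : M →+* Ω) η) =
        a • (fun j => (ψ' j).eval₂ (ι : M →+* Ω) η) := by
      funext j
      exact he j
    rw [h2]
    by_cases h0 : (fun j => (ψ' j).eval₂ (ι : M →+* Ω) η) = 0
    · rw [h0, smul_zero]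
    · rw [pt_ne Ω h0, pt_ne Ω (smul_ne_zero ha h0)]
      congr 1
      rw [Projectivization.mk_eq_mk_iff']
      exact ⟨a, rfl⟩
  · -- fam
    intro M _ _ _ g ψ hg hirr hsep hdvd hne
    have h1 := cyc_fam (k := k) Ω (fun _ : Unit => f) g ψ hg hirr hsep (fun _ => by
      rw [h]; exact hdvd) hne
    rw [QuotientAddGroup.eq, neg_add_eq_sub]
    have h3 := (ratEq Ω fun _ : Unit => f).neg_mem h1
    rwa [neg_sub] at h3

section orbit

variable {Ω} [IsAlgClosure k Ω] {f : MvPolynomial (Fin n) k}

omit [IsAlgClosure k Ω] in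
private theorem zer_iff {d : ℕ} (hf : f.IsHomogeneous d) {M : Type u} [Field M] [Algebra k M]
    (φ : M →ₐ[k] Ω) (y : ℙ M (Fin n → M)) :
    Zer (fun _ : Unit => f) Ω (mapPt (φ : M →+* Ω) y).rep ↔ Zer (fun _ : Unit => f) M y.rep := by
  obtain ⟨c, hc, h⟩ := mapPt_rep (φ : M →+* Ω) y
  rw [h, ← zer_comp φ]
  have key : ∀ (c : Ω) (x : Fin n → Ω), Zer (fun _ : Unit => f) Ω x →
      Zer (fun _ : Unit => f) Ω (c • x) := fun c x hx =>
    ZCTr.zer_smul (fun _ => ⟨d, hf⟩) c hx
  constructor
  · intro h1
    have := key c⁻¹ _ h1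
    rwa [smul_smul, inv_mul_cancel₀ hc, one_smul] at this
  · intro h1
    exact key c _ h1

omit [IsAlgClosure k Ω] in
private theorem trPt_eq_tr {M : Type u} [Field M] [Algebra k M] [FiniteDimensional k M]
    (y : ℙ M (Fin n → M)) : trPt k Ω y = ZCTr.tr k Ω y := rfl

/-- Every zero-cycle is an integral combination of traces of points over finite extensions. -/
private theorem mem_closure_tr' {d : ℕ} (hf : f.IsHomogeneous d) (z : ℙ Ω (Fin n → Ω) →₀ ℤ)
    (hz : z ∈ cyc Ω (fun _ : Unit => f)) : z ∈ AddSubgroup.closure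
      {t | ∃ (K : IntermediateField k Ω) (_ : FiniteDimensional k K) (y : ℙ K (Fin n → K)),
        Zer (fun _ : Unit => f) K y.rep ∧ t = trPt k Ω y} := by
  classical
  induction h : z.support.card using Nat.strong_induction_on generalizing z with
  | _ N ih =>
    by_cases hz0 : z = 0
    · rw [hz0]; exact zero_mem _
    obtain ⟨x, hx⟩ : z.support.Nonempty := Finsupp.support_nonempty_iff.2 hz0
    obtain ⟨K, hfd, y, hy, huniq⟩ := exists_min_field (k := k) x
    have hyz : Zer (fun _ : Unit => f) K y.rep := by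
      rw [← zer_iff hf K.val, hy]
      exact hz.1 x hx
    have htc : trPt k Ω y ∈ cyc Ω (fun _ : Unit => f) := by
      rw [trPt_eq_tr]
      exact ZCTr.tr_mem_cyc Ω (fun _ => ⟨d, hf⟩) hyz
    have htx : trPt k Ω y x = 1 := by
      rw [trPt_apply, Finset.sum_eq_single K.val]
      · rw [if_pos hy]
      · intro ι _ hι
        rw [if_neg]
        intro h1
        exact hι (huniq ι h1)
      · intro h1; exact absurd (Finset.mem_univ _) h1
    have htw : ∀ w, z w = 0 → trPt k Ω y w = 0 := by
      intro w hw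
      rw [trPt_apply]
      apply Finset.sum_eq_zero
      intro ι _
      rw [if_neg]
      intro h1
      obtain ⟨σ, hσ⟩ := ZC.exists_lift K ι
      have h2 : mapPt (σ : Ω →+* Ω) x = w := by
        rw [← hy, mapPt_mapPt, ← h1]
        congr 1
        ext a
        exact hσ a
      have h3 := hz.2 σ x
      rw [h2, hw] at h3
      exact Finsupp.mem_support_iff.1 hx h3.symm
    set z' := z - z x • trPt k Ω y with hz'
    have hz'c : z' ∈ cyc Ω (fun _ : Unit => f) := sub_mem hz (zsmul_mem htc _)
    have hsub : z'.support ⊆ z.support.erase x := by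
      intro w hw
      rw [Finsupp.mem_support_iff] at hw
      rw [Finset.mem_erase, Finsupp.mem_support_iff]
      constructor
      · rintro rfl
        apply hw
        rw [hz', Finsupp.sub_apply, Finsupp.smul_apply, htx]
        simp
      · intro hw0
        apply hw
        rw [hz', Finsupp.sub_apply, Finsupp.smul_apply, htw w hw0, hw0]
        simp
    have hlt : z'.support.card < N := by
      rw [← h]
      exact lt_of_le_of_lt (Finset.card_le_card hsub) (Finset.card_erase_lt_of_mem hx)
    have h1 := ih _ hlt z' hz'c rfl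
    have h2 : z = z' + z x • trPt k Ω y := by rw [hz']; abel
    rw [h2]
    refine add_mem h1 (zsmul_mem (AddSubgroup.subset_closure ?_) _)
    exact ⟨K, hfd, y, hyz, rfl⟩

end orbit

/-- From the classes of points to all zero-cycles. -/
theorem f1_of_gamma [CharZero k] [IsAlgClosure k Ω] (f : MvPolynomial (Fin n) k)
    (hf : f.IsHomogeneous 3) (I : ℕ) (hI : I ≠ 0) (γ : CHf Ω f)
    (hγ : ∀ (M : Type u) [Field M] [Algebra k M] [FiniteDimensional k M] (A : Fin n → M),
      A ≠ 0 → MvPolynomial.aeval A f = 0 → I ∣ Module.finrank k M ∧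
        clZ Ω f M A = (Module.finrank k M / I) • γ) :
    Subsingleton (F1 Ω (fun _ : Unit => f)) := by
  classical
  have hac : IsAlgClosed Ω := IsAlgClosure.isAlgClosed k
  -- all zero-cycles
  have key : ∀ z ∈ cyc Ω (fun _ : Unit => f), ∃ m : ℤ, deg Ω z = m * I ∧
      (QuotientAddGroup.mk z : CHf Ω f) = m • γ := by
    intro z hz
    have h1 := mem_closure_tr' hf z hz
    clear hz
    induction h1 using AddSubgroup.closure_induction with
    | mem t ht =>
      obtain ⟨K, hfd, y, hy, rfl⟩ := ht
      obtain ⟨h1, h2⟩ := hγ K y.rep y.rep_nonzero (hy ())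
      refine ⟨(Module.finrank k K / I : ℕ), ?_, ?_⟩
      · rw [trPt_eq_tr, ZCTr.deg_tr]
        exact_mod_cast (Nat.div_mul_cancel h1).symm
      · rw [natCast_zsmul, ← h2]
        unfold clZ
        rw [dif_neg y.rep_nonzero, Projectivization.mk_rep]
    | zero => exact ⟨0, by rw [map_zero, zero_mul], by rw [zero_zsmul]; rfl⟩
    | add a b _ _ ha hb =>
      obtain ⟨m, h1, h2⟩ := ha
      obtain ⟨m', h1', h2'⟩ := hb
      refine ⟨m + m', by rw [map_add, h1, h1', add_mul], ?_⟩
      rw [QuotientAddGroup.mk_add, h2, h2', add_zsmul]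
    | neg a _ ha =>
      obtain ⟨m, h1, h2⟩ := ha
      refine ⟨-m, by rw [map_neg, h1, neg_mul], ?_⟩
      rw [QuotientAddGroup.mk_neg, h2, neg_zsmul]
  have hall : ∀ z ∈ cyc0 Ω (fun _ : Unit => f), z ∈ ratEq Ω (fun _ : Unit => f) := by
    intro z hz
    obtain ⟨m, h1, h2⟩ := key z hz.1
    have h3 : deg Ω z = 0 := hz.2
    rw [h3] at h1
    have h4 : m = 0 := by
      rcases mul_eq_zero.1 h1.symm with h | h
      · exact h
      · exact absurd (by exact_mod_cast h) hI
    rw [h4, zero_zsmul] at h2
    exact (QuotientAddGroup.eq_zero_iff z).1 h2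
  refine ⟨fun a b => ?_⟩
  obtain ⟨x, rfl⟩ := QuotientAddGroup.mk_surjective a
  obtain ⟨y, rfl⟩ := QuotientAddGroup.mk_surjective b
  rw [QuotientAddGroup.eq]
  exact AddSubgroup.mem_addSubgroupOf.2 (hall _ (-x + y).2)

end Cu
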