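import Pool.Agent.Lib.MP_f80667_ag.Cu.Glob

/-! Zero-cycles of degree `0` on smooth cubic hypersurfaces over local fields. -/

open Polynomial IsLocalRing Pool.Agent.Lib.MP_f80667_ag.LF ZC IsDedekindDomain NumberField

namespace Cu

universe u

section transfer

/-- Polynomials without a common zero `≠ 0` over an algebraically closed field have no common zero
`≠ 0` over any reduced ring (Nullstellensatz). -/
theorem zero_transfer {F E R : Type*} [Field F] [Field E] [Algebra F E] [IsAlgClosed E]
    [CommRing R] [IsReduced R] [Algebra F R] {n : ℕ} {ι : Type*} (p : ι → MvPolynomial (Fin n) F)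
    (hs : ∀ x : Fin n → E, (∀ i, MvPolynomial.aeval x (p i) = 0) → x = 0) (x : Fin n → R)
    (hx : ∀ i, MvPolynomial.aeval x (p i) = 0) : x = 0 := by
  funext j
  have h1 : MvPolynomial.X j ∈ MvPolynomial.vanishingIdeal F
      (MvPolynomial.zeroLocus E (Ideal.span (Set.range p))) := by
    rw [MvPolynomial.mem_vanishingIdeal_iff]
    intro y hy
    rw [MvPolynomial.zeroLocus_span] at hy
    have h2 := hs y fun i => hy (p i) ⟨i, rfl⟩
    rw [MvPolynomial.aeval_X, h2, Pi.zero_apply]
  rw [MvPolynomial.vanishingIdeal_zeroLocus_eq_radical] at h1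
  obtain ⟨N, hN⟩ := h1
  have h3 : Ideal.span (Set.range p) ≤ RingHom.ker (MvPolynomial.aeval (R := F) x).toRingHom := by
    rw [Ideal.span_le]
    rintro _ ⟨i, rfl⟩
    exact hx i
  have h4 : MvPolynomial.aeval x (MvPolynomial.X (R := F) j ^ N) = 0 := h3 hN
  rw [map_pow, MvPolynomial.aeval_X] at h4
  exact eq_zero_of_pow_eq_zero h4

end transfer

variable {k : Type u} [NontriviallyNormedField k] [IsUltrametricDist k] [ProperSpace k]
  [CharZero k] {n : ℕ}

/-- The theorem over a local field. -/
theorem F1_cubic_local (Ω : Type u) [Field Ω] [Algebra k Ω] [IsAlgClosure k Ω]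
    (f : MvPolynomial (Fin n) k) (hf : f.IsHomogeneous 3) (h8 : 8 ≤ n)
    (hs : ∀ x : Fin n → Ω, x ≠ 0 → ∃ i, MvPolynomial.aeval x (MvPolynomial.pderiv i f) ≠ 0) :
    Subsingleton (F1 Ω (fun _ : Unit => f)) := by
  obtain ⟨T, hT⟩ := exists_tensor f hf
  obtain ⟨C, hC⟩ := exists_th Ω f T hT
  have hac : IsAlgClosed Ω := IsAlgClosure.isAlgClosed k
  have hsm : Sm T := by
    intro M _ _ _ x hx
    have : CharZero M := charZero_of_injective_algebraMap (algebraMap k M).injective
    let φ : M →ₐ[k] Ω := IsAlgClosed.lift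
    have hx' : (fun j => φ (x j)) ≠ 0 := by
      intro h
      apply hx
      funext j
      exact φ.injective ((congrFun h j).trans (map_zero φ).symm)
    obtain ⟨i, hi⟩ := hs _ hx'
    refine ⟨Pi.single i 1, ?_⟩
    rw [tensor_D f T hT]
    rw [Finset.sum_eq_single i (fun j _ hj => by rw [Pi.single_eq_of_ne hj, mul_zero])
      (fun h => absurd (Finset.mem_univ i) h), Pi.single_eq_same, mul_one]
    intro h
    apply hi
    have h1 := MvPolynomial.comp_aeval_apply x φ (MvPolynomial.pderiv i f)
    rw [h, map_zero] at h1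
    exact h1.symm
  obtain ⟨I, γ, hI, hγ⟩ := exists_gamma C hsm h8
  refine f1_of_gamma Ω f hf I hI γ fun M _ _ _ A hA fA => ?_
  rw [hT] at fA
  rw [← hC]
  exact hγ M A hA fA

open scoped Valued in
/-- The theorem for the completions of a number field. -/
theorem F1_cubic_adic (F : Type) [Field F] [NumberField F] (v : HeightOneSpectrum (𝓞 F))
    (f : MvPolynomial (Fin n) F) (hf : f.IsHomogeneous 3) (h8 : 8 ≤ n)
    (hs : ∀ x : Fin n → AlgebraicClosure F, x ≠ 0 →
      ∃ i, MvPolynomial.aeval x (MvPolynomial.pderiv i f) ≠ 0) :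
    Subsingleton (F1 (AlgebraicClosure (v.adicCompletion F))
      (fun _ : Unit => f.map (algebraMap F (v.adicCompletion F)))) := by
  have hf' : Finite ((𝓞 F) ⧸ v.asIdeal) := finite_quot F v
  let i1 : NontriviallyNormedField (v.adicCompletion F) :=
    Valued.toNontriviallyNormedField (v.adicCompletion F) (WithZero (Multiplicative ℤ))
  have h1 : @ProperSpace (v.adicCompletion F) i1.toNormedField.toMetricSpace.toPseudoMetricSpace := by
    refine Valued.integer.properSpace_iff_completeSpace_and_isDiscreteValuationRing_integer_and_finite_residueField.mpr ?_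
    exact ⟨inferInstance, (inferInstance : IsDiscreteValuationRing (v.adicCompletionIntegers F)),
      finite_residueField F v⟩
  refine @F1_cubic_local (v.adicCompletion F) i1 _ h1 inferInstance n
    (AlgebraicClosure (v.adicCompletion F)) _ _ _ _ (hf.map _) h8 fun x hx => ?_
  by_contra hcon
  push Not at hcon
  apply hx
  refine zero_transfer (F := F) (E := AlgebraicClosure F)
    (fun i => MvPolynomial.pderiv i f) (fun y hy => ?_) x fun i => ?_
  · by_contra h0
    obtain ⟨i, hi⟩ := hs y h0
    exact hi (hy i)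
  · have h2 := hcon i
    rw [MvPolynomial.pderiv_map, MvPolynomial.aeval_map_algebraMap] at h2
    exact h2

end Cu
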