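import Pool.Agent.Lib.MP_f80667_ag.Cu.Norm

/-! Orthogonal bases for an anisotropic cubic form over a local field. -/

open Polynomial IsLocalRing

namespace Cu

/-- `v(f(∑ x_i e_i)) = m` for all `x_i ∈ O` which are not all in the maximal ideal. -/
def Sys {O K V : Type*} [CommRing O] [Field K] [Algebra O K] [AddCommGroup V] [Module K V]
    (c : Cb K V) (π : O) (m : ℤ) {ι : Type*} [Fintype ι] (e : ι → V) : Prop :=
  ∀ x : ι → O, (∃ i, IsUnit (x i)) → Vg π m (c.f (∑ i, algebraMap O K (x i) • e i)) ∧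
    ¬ Vg π (m + 1) (c.f (∑ i, algebraMap O K (x i) • e i))

/-- A cubic form in `4` variables over a finite field has a nontrivial zero (Chevalley - Warning). -/
theorem chev {F : Type*} [Field F] [Finite F] (T : Tn F 4) :
    ∃ x : Fin 4 → F, x ≠ 0 ∧ (cb T).f x = 0 := by
  classical
  have hF : Fintype F := Fintype.ofFinite F
  obtain ⟨p, hp⟩ := CharP.exists F
  have hpp : p.Prime := CharP.char_is_prime F p
  let P : MvPolynomial (Fin 4) F := ∑ i, ∑ j, ∑ l,
    MvPolynomial.C (T i j l) * (MvPolynomial.X i * MvPolynomial.X j * MvPolynomial.X l)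
  have hP : ∀ x, MvPolynomial.eval x P = (cb T).f x := by
    intro x
    simp only [P, cb, map_sum, map_mul, MvPolynomial.eval_C, MvPolynomial.eval_X]
  have hdeg : P.IsHomogeneous 3 := by
    refine MvPolynomial.IsHomogeneous.sum _ _ _ fun i _ => ?_
    refine MvPolynomial.IsHomogeneous.sum _ _ _ fun j _ => ?_
    refine MvPolynomial.IsHomogeneous.sum _ _ _ fun l _ => ?_
    have h1 := (MvPolynomial.isHomogeneous_C (Fin 4) (T i j l)).mul
      (((MvPolynomial.isHomogeneous_X F i).mul (MvPolynomial.isHomogeneous_X F j)).mul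
        (MvPolynomial.isHomogeneous_X F l))
    simpa using h1
  have hdvd := char_dvd_card_solutions (K := F) p (f := P) (lt_of_le_of_lt hdeg.totalDegree_le
    (by rw [Fintype.card_fin]; norm_num))
  by_contra hcon
  push Not at hcon
  have h1 : Fintype.card {x : Fin 4 → F // MvPolynomial.eval x P = 0} = 1 := by
    refine Fintype.card_eq_one_iff.2 ⟨⟨0, by rw [hP]; exact Cb.f_zero _⟩, ?_⟩
    rintro ⟨x, hx⟩
    apply Subtype.ext
    by_contra h2
    rw [hP] at hx
    exact hcon x h2 hx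
  rw [h1] at hdvd
  exact hpp.one_lt.ne' (Nat.dvd_one.1 hdvd)

variable {O K V : Type*} [CommRing O] [IsDomain O] [IsDiscreteValuationRing O]
  [IsAdicComplete (maximalIdeal O) O] [Field K] [Algebra O K] [IsFractionRing O K]
  [AddCommGroup V] [Module K V] {c : Cb K V} {W : Submodule K V} {π : O}

/-! ### the orders -/

omit [IsDomain O] [IsDiscreteValuationRing O] [IsAdicComplete (maximalIdeal O) O]
  [IsFractionRing O K] in
private theorem vg_int_mul {m : ℤ} {x : K} (h : Vg π m x) (a : O) :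
    Vg π m (algebraMap O K a * x) := by
  obtain ⟨b, rfl⟩ := h
  exact ⟨a * b, by rw [map_mul]; ring⟩

omit [IsAdicComplete (maximalIdeal O) O] in
private theorem vg_zpow (hπ : Irreducible π) {m : ℤ} {x : K} (t : ℤ) :
    Vg π (m + t) (algebraMap O K π ^ t * x) ↔ Vg π m x := by
  have h0 := pi_ne (K := K) hπ
  constructor
  · rintro ⟨b, hb⟩
    refine ⟨b, ?_⟩
    rw [zpow_add₀ h0] at hb
    have h1 : algebraMap O K π ^ t ≠ 0 := zpow_ne_zero _ h0
    apply mul_left_cancel₀ h1
    rw [hb]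
    ring
  · rintro ⟨b, rfl⟩
    refine ⟨b, ?_⟩
    rw [zpow_add₀ h0]
    ring

omit [IsAdicComplete (maximalIdeal O) O] in
private theorem vg_f_zpow (hπ : Irreducible π) {m : ℤ} {w : V} (t : ℤ) :
    Vg π (m + 3 * t) (c.f (algebraMap O K π ^ t • w)) ↔ Vg π m (c.f w) := by
  rw [c.f_smul, ← zpow_natCast, ← zpow_mul, mul_comm t, ← vg_zpow hπ (m := m) ((3 : ℕ) * t)]
  rfl

omit [IsDomain O] [IsDiscreteValuationRing O] [IsAdicComplete (maximalIdeal O) O]
  [IsFractionRing O K] in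
private theorem vg_f_smul {m : ℤ} {w : V} (h : Vg π m (c.f w)) (a : O) :
    Vg π m (c.f (algebraMap O K a • w)) := by
  rw [c.f_smul, ← map_pow]
  exact vg_int_mul h _

private theorem vg_f_sum (h : An c W) (hπ : Irreducible π) {m : ℤ} {ι : Type*} (s : Finset ι)
    (e : ι → V) (he : ∀ i, e i ∈ W) (hv : ∀ i, Vg π m (c.f (e i))) (x : ι → O) :
    Vg π m (c.f (∑ i ∈ s, algebraMap O K (x i) • e i)) := by
  classical
  induction s using Finset.induction_on with
  | empty =>
    rw [Finset.sum_empty, Cb.f_zero]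
    exact Vg.zero m
  | insert a s ha ih =>
    rw [Finset.sum_insert ha]
    exact h.f_add hπ (W.smul_mem _ (he a))
      (W.sum_mem fun i _ => W.smul_mem _ (he i)) (vg_f_smul (hv a) _) ih

omit [IsDomain O] [IsDiscreteValuationRing O] [IsAdicComplete (maximalIdeal O) O]
  [IsFractionRing O K] in
private theorem Sys.vg {m : ℤ} {ι : Type*} [Fintype ι] {e : ι → V} (hs : Sys c π m e) (i : ι) :
    Vg π m (c.f (e i)) := by
  classical
  have h1 := (hs (Pi.single i 1) ⟨i, by rw [Pi.single_eq_same]; exact isUnit_one⟩).1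
  rw [Finset.sum_eq_single i] at h1
  · rwa [Pi.single_eq_same, map_one, one_smul] at h1
  · intro j _ hj
    rw [Pi.single_eq_of_ne hj, map_zero, zero_smul]
  · intro hi
    exact absurd (Finset.mem_univ i) hi

omit [IsDomain O] [IsDiscreteValuationRing O] [IsAdicComplete (maximalIdeal O) O]
  [IsFractionRing O K] in
/-- subsystems -/
theorem Sys.comp {m : ℤ} {ι κ : Type*} [Fintype ι] [Fintype κ] {e : ι → V} (hs : Sys c π m e)
    (j : κ → ι) (hj : Function.Injective j) : Sys c π m (e ∘ j) := by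
  intro x ⟨i, hi⟩
  have h1 : ∑ i, algebraMap O K (x i) • (e ∘ j) i =
      ∑ i, algebraMap O K (Function.extend j x 0 i) • e i := by
    refine Fintype.sum_of_injective j hj _ _ ?_ ?_
    · intro i hi
      rw [Function.extend_apply' _ _ _ (fun ⟨a, ha⟩ => hi ⟨a, ha⟩), Pi.zero_apply, map_zero,
        zero_smul]
    · intro i
      rw [hj.extend_apply]
      rfl
  rw [h1]
  exact hs _ ⟨j i, by rwa [hj.extend_apply]⟩

omit [IsAdicComplete (maximalIdeal O) O] in
private theorem exists_scale (hπ : Irreducible π) {ι : Type*} [Fintype ι] (a : ι → K)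
    (ha : ∃ i, a i ≠ 0) : ∃ (t : ℤ) (x : ι → O), (∃ i, IsUnit (x i)) ∧
      ∀ i, a i = algebraMap O K π ^ t * algebraMap O K (x i) := by
  classical
  have h0 := pi_ne (K := K) hπ
  have h1 : ∀ i, ∃ (k : ℤ) (u : O), a i ≠ 0 → IsUnit u ∧
      a i = algebraMap O K π ^ k * algebraMap O K u := by
    intro i
    by_cases hi : a i = 0
    · exact ⟨0, 0, fun h => absurd hi h⟩
    · obtain ⟨k, u, h⟩ := exists_ord hπ hi
      exact ⟨k, u, fun _ => h⟩
  choose k u hu using h1
  obtain ⟨i₀, hi₀, hmin⟩ := Finset.exists_min_image (Finset.univ.filter fun i => a i ≠ 0) k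
    (by
      obtain ⟨i, hi⟩ := ha
      exact ⟨i, Finset.mem_filter.2 ⟨Finset.mem_univ _, hi⟩⟩)
  rw [Finset.mem_filter] at hi₀
  refine ⟨k i₀, fun i => if a i = 0 then 0 else π ^ (k i - k i₀).toNat * u i, ⟨i₀, ?_⟩, ?_⟩
  · show IsUnit (if a i₀ = 0 then (0 : O) else π ^ (k i₀ - k i₀).toNat * u i₀)
    rw [if_neg hi₀.2, sub_self, Int.toNat_zero, pow_zero, one_mul]
    exact (hu i₀ hi₀.2).1
  · intro i
    show a i = _ * algebraMap O K (if a i = 0 then 0 else _)
    by_cases hi : a i = 0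
    · rw [if_pos hi, map_zero, mul_zero, hi]
    · rw [if_neg hi, map_mul, map_pow, ← mul_assoc, ← zpow_natCast, ← zpow_add₀ h0,
        Int.toNat_of_nonneg (sub_nonneg.2 (hmin i (Finset.mem_filter.2 ⟨Finset.mem_univ _, hi⟩))),
        add_sub_cancel]
      exact (hu i hi).2

/-- the exact order -/
private def Exo (π : O) (m : ℤ) (x : K) : Prop := Vg π m x ∧ ¬ Vg π (m + 1) x

omit [IsAdicComplete (maximalIdeal O) O] in
private theorem Exo.unique (hπ : Irreducible π) {i j : ℤ} {x : K} (hi : Exo π i x)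
    (hj : Exo π j x) : i = j := by
  rcases lt_trichotomy i j with h | h | h
  · exact absurd (hj.1.mono hπ (by omega)) hi.2
  · exact h
  · exact absurd (hi.1.mono hπ (by omega)) hj.2

omit [IsAdicComplete (maximalIdeal O) O] in
private theorem exists_exo (hπ : Irreducible π) {x : K} (hx : x ≠ 0) : ∃ m : ℤ, Exo π m x := by
  obtain ⟨k, u, hu, rfl⟩ := exists_ord hπ hx
  exact ⟨k, (vg_iff hπ hu).2 le_rfl, fun h => by
    have := (vg_iff hπ hu).1 h
    omega⟩

omit [IsAdicComplete (maximalIdeal O) O] in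
private theorem Exo.ne {m : ℤ} {x : K} (h : Exo π m x) : x ≠ 0 := by
  rintro rfl
  exact h.2 (Vg.zero _)

omit [IsAdicComplete (maximalIdeal O) O] in
private theorem Exo.neg {m : ℤ} {w : V} (h : Exo π m (c.f w)) : Exo π m (c.f (-w)) := by
  rw [Cb.f_neg]
  refine ⟨h.1.neg, fun h1 => h.2 ?_⟩
  have := h1.neg
  rwa [neg_neg] at this

private theorem Exo.add (h : An c W) (hπ : Irreducible π) {u w : V} (hu : u ∈ W) (hw : w ∈ W)
    {i j : ℤ} (hi : Exo π i (c.f u)) (hj : Exo π j (c.f w)) (hij : i ≠ j) :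
    Exo π i (c.f (u + w)) ∨ Exo π j (c.f (u + w)) := by
  rcases lt_or_gt_of_ne hij with h1 | h1
  · left
    exact ⟨h.f_add hπ hu hw hi.1 (hj.1.mono hπ h1.le),
      h.f_add_lt hπ hu hw hi.1 hi.2 (hj.1.mono hπ (by omega))⟩
  · right
    rw [add_comm]
    exact ⟨h.f_add hπ hw hu hj.1 (hi.1.mono hπ h1.le),
      h.f_add_lt hπ hw hu hj.1 hj.2 (hi.1.mono hπ (by omega))⟩

omit [IsAdicComplete (maximalIdeal O) O] in
private theorem Sys.exo (hπ : Irreducible π) {m : ℤ} {ι : Type*} [Fintype ι] {e : ι → V}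
    (hs : Sys c π m e) (a : ι → K) (ha : ∃ i, a i ≠ 0) :
    ∃ t : ℤ, Exo π (m + 3 * t) (c.f (∑ i, a i • e i)) := by
  obtain ⟨t, x, hx, h1⟩ := exists_scale hπ a ha
  have h2 : ∑ i, a i • e i = algebraMap O K π ^ t • ∑ i, algebraMap O K (x i) • e i := by
    rw [Finset.smul_sum]
    refine Finset.sum_congr rfl fun i _ => ?_
    rw [h1 i, mul_smul]
  have h3 := hs x hx
  refine ⟨t, ?_, ?_⟩
  · rw [h2]
    exact (vg_f_zpow hπ t).2 h3.1
  · rw [h2, show m + 3 * t + 1 = (m + 1) + 3 * t by ring]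
    exact fun h4 => h3.2 ((vg_f_zpow hπ t).1 h4)

omit [IsAdicComplete (maximalIdeal O) O] in
private theorem Sys.indep (hπ : Irreducible π) {m : ℤ} {ι : Type*} [Fintype ι] {e : ι → V}
    (hs : Sys c π m e) (a : ι → K) (h : ∑ i, a i • e i = 0) (i : ι) : a i = 0 := by
  by_contra hi
  obtain ⟨t, ht⟩ := hs.exo hπ a ⟨i, hi⟩
  rw [h, Cb.f_zero] at ht
  exact ht.ne rfl

/-- three classes which are different modulo `3` -/
private theorem three_zero (h : An c W) (hπ : Irreducible π) {w : Fin 3 → V}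
    (hw : ∀ m, w m ∈ W)
    (hm : ∀ m : Fin 3, w m ≠ 0 → ∃ t : ℤ, Exo π (((m : ℕ) : ℤ) + 3 * t) (c.f (w m)))
    (hs : ∑ m, w m = 0) : ∀ m, w m = 0 := by
  rw [Fin.sum_univ_three] at hs
  have two : ∀ (m₁ m₂ : Fin 3), m₁ ≠ m₂ → w m₁ + w m₂ = 0 → w m₁ = 0 ∧ w m₂ = 0 := by
    intro m₁ m₂ h12 h0
    by_cases h1 : w m₁ = 0
    · refine ⟨h1, ?_⟩
      rwa [h1, zero_add] at h0
    · exfalso
      have h2 : w m₂ = -w m₁ := (neg_eq_of_add_eq_zero_right h0).symm
      have h3 : w m₂ ≠ 0 := by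
        rw [h2]
        exact neg_ne_zero.2 h1
      obtain ⟨t₁, e1⟩ := hm m₁ h1
      obtain ⟨t₂, e2⟩ := hm m₂ h3
      rw [h2] at e2
      have h4 := e1.neg.unique hπ e2
      have h5 : (m₁ : ℕ) ≠ (m₂ : ℕ) := fun h => h12 (Fin.ext h)
      omega
  by_cases h0 : w 0 = 0
  · rw [h0, zero_add] at hs
    obtain ⟨h1, h2⟩ := two 1 2 (by decide) hs
    intro m
    fin_cases m
    · exact h0
    · exact h1
    · exact h2
  by_cases h1 : w 1 = 0
  · rw [h1, add_zero] at hs
    obtain ⟨h0, h2⟩ := two 0 2 (by decide) hs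
    intro m
    fin_cases m
    · exact h0
    · exact h1
    · exact h2
  exfalso
  obtain ⟨t₀, e0⟩ := hm 0 h0
  obtain ⟨t₁, e1⟩ := hm 1 h1
  have h01 : ((((0 : Fin 3) : ℕ) : ℤ) + 3 * t₀) ≠ ((((1 : Fin 3) : ℕ) : ℤ) + 3 * t₁) := by
    simp only [Fin.val_zero, Fin.val_one]
    omega
  have h3 := Exo.add h hπ (hw 0) (hw 1) e0 e1 h01
  have h2 : w 2 ≠ 0 := by
    intro h2
    rw [h2, add_zero] at hs
    exact h0 (two 0 1 (by decide) hs).1
  obtain ⟨t₂, e2⟩ := hm 2 h2
  have h4 : w 2 = -(w 0 + w 1) := (neg_eq_of_add_eq_zero_right hs).symm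
  rw [h4] at e2
  have e2' := e2.neg
  rw [neg_neg] at e2'
  rcases h3 with h3 | h3
  · have := h3.unique hπ e2'
    simp only [Fin.val_zero, Fin.val_two] at this
    omega
  · have := h3.unique hπ e2'
    simp only [Fin.val_one, Fin.val_two] at this
    omega

/-! ### at most three vectors in a class -/

/-- the tensor of the form on the span of four vectors -/
private def ten4 (c : Cb K V) (e : Fin 4 → V) : Tn K 4 := fun i j l =>
  if i = j then (if j = l then c.f (e i) else c.D (e i) (e l))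
  else if i < j ∧ j < l then c.E (e i) (e j) (e l) else 0

omit [IsFractionRing O K] in
private theorem ten4_f (c : Cb K V) (e : Fin 4 → V) (x : Fin 4 → K) :
    c.f (∑ i, x i • e i) = (cb (ten4 c e)).f x := by
  simp only [cb, ten4, Fin.sum_univ_four]
  simp only [c.f_add, c.add_D, c.D_add, c.f_smul, c.smul_D, c.D_smul, c.E_smul, c.E_smul1,
    c.E_smul2, c.E_add1]
  simp
  ring

/-- A system of vectors of the same class has at most `3` elements: the form
`π ^ (-m) f(∑ x_i e_i)` has coefficients in `O` by `An.D_le`, `An.E_le`, and its reduction has a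
nontrivial zero by `chev` if there are `4` vectors. -/
theorem Sys.card_le [Finite (ResidueField O)] (h : An c W) (hπ : Irreducible π) {m : ℤ} {d : ℕ}
    {e : Fin d → V} (he : ∀ i, e i ∈ W) (hs : Sys c π m e) : d ≤ 3 := by
  by_contra hd
  push Not at hd
  have h4 : 4 ≤ d := hd
  set e' : Fin 4 → V := e ∘ Fin.castLE h4 with he'
  have hs' : Sys c π m e' := hs.comp _ (Fin.castLE_injective h4)
  have he'' : ∀ i, e' i ∈ W := fun i => he _
  have hv : ∀ i j l, Vg π m (ten4 c e' i j l) := by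
    intro i j l
    unfold ten4
    split_ifs
    · exact hs'.vg i
    · exact h.D_le hπ (he'' i) (he'' l) (hs'.vg i) (hs'.vg l) (by omega)
    · exact h.E_le hπ (he'' i) (he'' j) (he'' l) (hs'.vg i) (hs'.vg j) (hs'.vg l) (by omega)
    · exact Vg.zero m
  choose T hT using hv
  obtain ⟨x, hx, hx0⟩ := chev (F := ResidueField O) (Tn.map (residue O) T)
  have hsur := residue_surjective (R := O)
  choose y hy using fun i => hsur (x i)
  have hxy : x = fun i => residue O (y i) := funext fun i => (hy i).symm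
  obtain ⟨i₀, hi₀⟩ : ∃ i, x i ≠ 0 := by
    by_contra hcon
    push Not at hcon
    exact hx (funext hcon)
  have hu : IsUnit (y i₀) := by
    by_contra h1
    apply hi₀
    rw [← hy i₀]
    exact (residue_eq_zero_iff _).2 ((mem_maximalIdeal _).2 h1)
  have key := (hs' y ⟨i₀, hu⟩).2
  apply key
  rw [hxy, map_f] at hx0
  have hmem : (cb T).f y ∈ maximalIdeal O := (residue_eq_zero_iff _).1 hx0
  rw [hπ.maximalIdeal_eq, Ideal.mem_span_singleton] at hmem
  obtain ⟨b, hb⟩ := hmem
  have h5 : c.f (∑ i, algebraMap O K (y i) • e' i) =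
      algebraMap O K π ^ m * algebraMap O K ((cb T).f y) := by
    rw [ten4_f c e' (fun i => algebraMap O K (y i)), ← map_f]
    simp only [cb, Tn.map, Finset.mul_sum]
    refine Finset.sum_congr rfl fun i _ => Finset.sum_congr rfl fun j _ =>
      Finset.sum_congr rfl fun l _ => ?_
    rw [hT i j l]
    ring
  rw [h5, hb]
  refine ⟨b, ?_⟩
  rw [map_mul, zpow_add₀ (pi_ne hπ), zpow_one]
  ring

/-! ### bases -/

/-- one approximation step in a maximal system -/
private theorem step (h : An c W) (hπ : Irreducible π) {m : ℤ} {k : ℕ} {e : Fin k → V}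
    (he : ∀ i, e i ∈ W) (hs : Sys c π m e)
    (hmax : ∀ e' : Fin (k + 1) → V, (∀ i, e' i ∈ W) → ¬ Sys c π m e') {w : V} (hw : w ∈ W)
    (hv : Vg π m (c.f w)) :
    ∃ y : Fin k → O, Vg π (m + 1) (c.f (w - ∑ i, algebraMap O K (y i) • e i)) := by
  by_cases hw1 : Vg π (m + 1) (c.f w)
  · refine ⟨fun _ => 0, ?_⟩
    simpa using hw1
  have hW : ∀ i, (Fin.cons w e : Fin (k + 1) → V) i ∈ W := by
    intro i
    refine Fin.cases ?_ (fun i => ?_) i
    · rw [Fin.cons_zero]
      exact hw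
    · rw [Fin.cons_succ]
      exact he i
  have hV : ∀ i, Vg π m (c.f ((Fin.cons w e : Fin (k + 1) → V) i)) := by
    intro i
    refine Fin.cases ?_ (fun i => ?_) i
    · rw [Fin.cons_zero]
      exact hv
    · rw [Fin.cons_succ]
      exact hs.vg i
  have h1 := hmax (Fin.cons w e) hW
  unfold Sys at h1
  push Not at h1
  obtain ⟨x, ⟨i, hi⟩, hx⟩ := h1
  have h2 := hx (vg_f_sum h hπ Finset.univ _ hW hV x)
  rw [Fin.sum_univ_succ, Fin.cons_zero] at h2
  simp only [Fin.cons_succ] at h2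
  set S : V := ∑ i : Fin k, algebraMap O K (x i.succ) • e i with hS
  by_cases hx0 : IsUnit (x 0)
  · obtain ⟨a, ha⟩ := hx0.exists_left_inv
    refine ⟨fun i => -(a * x i.succ), ?_⟩
    have h3 : w - ∑ i, algebraMap O K (-(a * x i.succ)) • e i =
        algebraMap O K a • (algebraMap O K (x 0) • w + S) := by
      rw [smul_add, smul_smul, ← map_mul, ha, map_one, one_smul, hS, Finset.smul_sum,
        sub_eq_add_neg, ← Finset.sum_neg_distrib]
      congr 1
      refine Finset.sum_congr rfl fun i _ => ?_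
      rw [smul_smul, ← map_mul, map_neg, neg_smul, neg_neg]
    rw [h3]
    exact vg_f_smul h2 a
  · exfalso
    have hj : ∃ j : Fin k, IsUnit (x j.succ) := by
      revert hi
      refine Fin.cases ?_ (fun j hj => ?_) i
      · intro h3
        exact absurd h3 hx0
      · exact ⟨j, hj⟩
    have h3 := hs (fun i => x i.succ) hj
    have h4 : x 0 ∈ maximalIdeal O := (mem_maximalIdeal _).2 hx0
    rw [hπ.maximalIdeal_eq, Ideal.mem_span_singleton] at h4
    obtain ⟨b, hb⟩ := h4
    have h5 : Vg π (m + 1) (c.f (algebraMap O K (x 0) • w)) := by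
      rw [hb, map_mul, mul_comm, mul_smul]
      refine vg_f_smul ?_ b
      have h6 := (vg_f_zpow (c := c) hπ (m := m) (w := w) 1).2 hv
      rw [zpow_one] at h6
      exact h6.mono hπ (by omega)
    have hSW : S ∈ W := W.sum_mem fun i _ => W.smul_mem _ (he i)
    have h6 := h.f_add_lt hπ hSW (W.smul_mem (algebraMap O K (x 0)) hw) h3.1 h3.2 h5
    rw [add_comm S] at h6
    exact h6 h2

/-- three approximation steps -/
private theorem step3 (h : An c W) (hπ : Irreducible π) {d : Fin 3 → ℕ}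
    {e : (m : Fin 3) → Fin (d m) → V} (he : ∀ m i, e m i ∈ W)
    (hs : ∀ m : Fin 3, Sys c π ((m : ℕ) : ℤ) (e m))
    (hmax : ∀ (m : Fin 3) (e' : Fin (d m + 1) → V), (∀ i, e' i ∈ W) →
      ¬ Sys c π ((m : ℕ) : ℤ) e') (w : V) :
    ∃ (B : (Σ m, Fin (d m)) → O) (w' : V), w ∈ W → Vg π 0 (c.f w) → w' ∈ W ∧ Vg π 0 (c.f w') ∧
      w = ∑ p, algebraMap O K (B p) • e p.1 p.2 + algebraMap O K π • w' := by
  by_cases hw : w ∈ W ∧ Vg π 0 (c.f w)
  swap
  · exact ⟨fun _ => 0, 0, fun h1 h2 => absurd ⟨h1, h2⟩ hw⟩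
  obtain ⟨hw, hv⟩ := hw
  have hsum : ∀ (m : Fin 3) (y : Fin (d m) → O), ∑ i, algebraMap O K (y i) • e m i ∈ W :=
    fun m y => W.sum_mem fun i _ => W.smul_mem _ (he m i)
  obtain ⟨y0, h0⟩ := step h hπ (he 0) (hs 0) (hmax 0) hw hv
  have hw1 := W.sub_mem hw (hsum 0 y0)
  obtain ⟨y1, h1⟩ := step h hπ (he 1) (hs 1) (hmax 1) hw1 (by simpa using h0)
  have hw2 := W.sub_mem hw1 (hsum 1 y1)
  obtain ⟨y2, h2⟩ := step h hπ (he 2) (hs 2) (hmax 2) hw2 (by
    have e1 : (((1 : Fin 3) : ℕ) : ℤ) + 1 = (((2 : Fin 3) : ℕ) : ℤ) := by norm_num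
    rw [← e1]
    exact h1)
  have hw3 := W.sub_mem hw2 (hsum 2 y2)
  set w3 := w - ∑ i, algebraMap O K (y0 i) • e 0 i - ∑ i, algebraMap O K (y1 i) • e 1 i -
    ∑ i, algebraMap O K (y2 i) • e 2 i with hw3def
  have h0' := pi_ne (K := K) hπ
  let y : (m : Fin 3) → Fin (d m) → O := Fin.cons y0 (Fin.cons y1 (Fin.cons y2 finZeroElim))
  refine ⟨fun p => y p.1 p.2, algebraMap O K π ^ (-1 : ℤ) • w3, fun _ _ => ⟨W.smul_mem _ hw3, ?_, ?_⟩⟩
  · have e1 : (0 : ℤ) = 3 + 3 * (-1) := by norm_num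
    rw [e1]
    refine (vg_f_zpow hπ (-1)).2 ?_
    have e2 : (((2 : Fin 3) : ℕ) : ℤ) + 1 = 3 := by norm_num
    rw [← e2]
    exact h2
  · rw [zpow_neg_one, smul_smul, mul_inv_cancel₀ h0', one_smul, Fintype.sum_sigma,
      Fin.sum_univ_three]
    show w = ∑ i, algebraMap O K (y0 i) • e 0 i + ∑ i, algebraMap O K (y1 i) • e 1 i +
      ∑ i, algebraMap O K (y2 i) • e 2 i + w3
    rw [hw3def]
    abel

/-- everything is in the span of maximal systems -/
private theorem mem_span_of_max (h : An c W) (hπ : Irreducible π) {d : Fin 3 → ℕ}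
    {e : (m : Fin 3) → Fin (d m) → V} (he : ∀ m i, e m i ∈ W)
    (hs : ∀ m : Fin 3, Sys c π ((m : ℕ) : ℤ) (e m))
    (hmax : ∀ (m : Fin 3) (e' : Fin (d m + 1) → V), (∀ i, e' i ∈ W) →
      ¬ Sys c π ((m : ℕ) : ℤ) e') (w : V) (hw : w ∈ W) (hv : Vg π 0 (c.f w)) :
    ∃ L : (Σ m, Fin (d m)) → O, w = ∑ p, algebraMap O K (L p) • e p.1 p.2 := by
  choose B w' hB using step3 h hπ he hs hmax
  -- the remainders
  let r : ℕ → V := fun n => (w')^[n] w
  have hr : ∀ n, r n ∈ W ∧ Vg π 0 (c.f (r n)) := by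
    intro n
    induction n with
    | zero => exact ⟨hw, hv⟩
    | succ n ih =>
      have h1 := hB (r n) ih.1 ih.2
      have h2 : r (n + 1) = w' (r n) := Function.iterate_succ_apply' _ _ _
      rw [h2]
      exact ⟨h1.1, h1.2.1⟩
  have hrs : ∀ n, r n = ∑ p, algebraMap O K (B (r n) p) • e p.1 p.2 +
      algebraMap O K π • r (n + 1) := by
    intro n
    have h1 := (hB (r n) (hr n).1 (hr n).2).2.2
    have h2 : r (n + 1) = w' (r n) := Function.iterate_succ_apply' _ _ _
    rw [h2]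
    exact h1
  -- the partial sums
  let S : ℕ → (Σ m, Fin (d m)) → O := fun n p => ∑ j ∈ Finset.range n, π ^ j * B (r j) p
  have hS : ∀ n, w = ∑ p, algebraMap O K (S n p) • e p.1 p.2 +
      algebraMap O K (π ^ n) • r n := by
    intro n
    induction n with
    | zero =>
      simp only [S, Finset.range_zero, Finset.sum_empty, map_zero, zero_smul,
        Finset.sum_const_zero, pow_zero, map_one, one_smul, zero_add]
      rfl
    | succ n ih =>
      rw [hrs n] at ih
      refine ih.trans ?_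
      rw [smul_add, smul_smul, ← map_mul, ← pow_succ, ← add_assoc, Finset.smul_sum,
        ← Finset.sum_add_distrib]
      congr 1
      refine Finset.sum_congr rfl fun p _ => ?_
      rw [smul_smul, ← map_mul, ← add_smul, ← map_add]
      congr 2
      exact (Finset.sum_range_succ _ _).symm
  have hcau : ∀ p {m n : ℕ}, m ≤ n →
      S m p ≡ S n p [SMOD (maximalIdeal O ^ m • (⊤ : Ideal O))] := by
    intro p m n hmn
    rw [SModEq.sub_mem, smul_eq_mul, Ideal.mul_top, hπ.maximalIdeal_eq,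
      Ideal.span_singleton_pow, Ideal.mem_span_singleton]
    obtain ⟨k, rfl⟩ := Nat.exists_eq_add_of_le hmn
    refine ⟨-∑ j ∈ Finset.range k, π ^ j * B (r (m + j)) p, ?_⟩
    show ∑ j ∈ Finset.range m, π ^ j * B (r j) p - ∑ j ∈ Finset.range (m + k), π ^ j * B (r j) p = _
    rw [Finset.sum_range_add, mul_neg, Finset.mul_sum]
    have e1 : ∀ j, π ^ (m + j) * B (r (m + j)) p = π ^ m * (π ^ j * B (r (m + j)) p) := by
      intro j
      rw [pow_add, mul_assoc]
    simp only [e1]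
    ring
  have hprec : IsPrecomplete (maximalIdeal O) O := inferInstance
  have hlim : ∀ p, ∃ l : O, ∀ n, S n p ≡ l [SMOD (maximalIdeal O ^ n • (⊤ : Ideal O))] :=
    fun p => hprec.prec' (fun n => S n p) (hcau p)
  choose L hL using hlim
  refine ⟨L, ?_⟩
  rw [← sub_eq_zero]
  apply h _ (W.sub_mem hw (W.sum_mem fun p _ => W.smul_mem _ (he _ _)))
  by_contra hne
  obtain ⟨N, hN⟩ := exists_exo hπ hne
  apply hN.2
  -- the order is at least `3 n`
  have hbig : ∀ n : ℕ, Vg π (3 * (n : ℤ))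
      (c.f (w - ∑ p, algebraMap O K (L p) • e p.1 p.2)) := by
    intro n
    have h1 : ∀ p, ∃ b : O, S n p - L p = π ^ n * b := by
      intro p
      have h2 := hL p n
      rw [SModEq.sub_mem, smul_eq_mul, Ideal.mul_top, hπ.maximalIdeal_eq,
        Ideal.span_singleton_pow, Ideal.mem_span_singleton] at h2
      exact h2
    choose b hb using h1
    have h2 : w - ∑ p, algebraMap O K (L p) • e p.1 p.2 =
        algebraMap O K π ^ (n : ℤ) • (∑ p, algebraMap O K (b p) • e p.1 p.2 + r n) := by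
      conv_lhs => rw [hS n]
      rw [add_sub_right_comm, ← Finset.sum_sub_distrib, zpow_natCast, smul_add, Finset.smul_sum,
        map_pow]
      congr 1
      refine Finset.sum_congr rfl fun p _ => ?_
      rw [← sub_smul, ← map_sub, hb p, map_mul, map_pow, mul_smul]
    rw [h2]
    have h3 := (vg_f_zpow (c := c) hπ (m := 0) (w := ∑ p, algebraMap O K (b p) • e p.1 p.2 + r n)
      (n : ℤ)).2 ?_
    · rwa [zero_add] at h3
    · refine h.f_add hπ (W.sum_mem fun p _ => W.smul_mem _ (he _ _)) (hr n).1 ?_ (hr n).2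
      refine vg_f_sum h hπ Finset.univ (fun p : (Σ m, Fin (d m)) => e p.1 p.2)
        (fun p => he _ _) (fun p => ?_) b
      exact ((hs p.1).vg p.2).mono hπ (by positivity)
  exact (hbig (N + 1).toNat).mono hπ (by
    have := Int.self_le_toNat (N + 1)
    have h0 : (0 : ℤ) ≤ ((N + 1).toNat : ℤ) := by positivity
    linarith)

/-- Orthogonal bases.
Proof. Call a finite family `(e_i, m_i)` in `W` orthogonal if
`v(f(∑ x_i e_i)) = min (3 v(x_i) + m_i)` for all `x_i ∈ K`. An orthogonal family is linearly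
independent. Induction on the dimension: let `U` be the span of an orthogonal family and `w ∈ W`,
`w ∉ U`. The orders of `f(w - u)`, `u ∈ U`, are bounded: otherwise there are `u_j` with
`v(f(w - u_j)) ≥ j`, so the coordinates of the `u_j` are Cauchy sequences, and `f(w - u) = 0` for the
limit `u ∈ U` (`An.f_add`, completeness of `O`). Take `u` with `v(f(w - u))` maximal and add `w - u`
to the family. Finally multiply the vectors by powers of `π` to have `m_i ∈ {0, 1, 2}` and collect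
the vectors with the same `m_i`. -/
theorem exists_basis [FiniteDimensional K W] (h : An c W) (hπ : Irreducible π) :
    ∃ (d : Fin 3 → ℕ) (e : (m : Fin 3) → Fin (d m) → V), (∀ m i, e m i ∈ W) ∧
      (∑ m, d m = Module.finrank K W) ∧
      (LinearIndependent K fun p : Σ m, Fin (d m) => e p.1 p.2) ∧
      ∀ m : Fin 3, Sys c π ((m : ℕ) : ℤ) (e m) := by
  classical
  -- maximal systems
  have hex : ∀ m : Fin 3, ∃ (k : ℕ) (e : Fin k → V), (∀ i, e i ∈ W) ∧
      Sys c π ((m : ℕ) : ℤ) e ∧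
      ∀ e' : Fin (k + 1) → V, (∀ i, e' i ∈ W) → ¬ Sys c π ((m : ℕ) : ℤ) e' := by
    intro m
    by_contra hcon
    push Not at hcon
    have hall : ∀ k : ℕ, ∃ e : Fin k → V, (∀ i, e i ∈ W) ∧ Sys c π ((m : ℕ) : ℤ) e := by
      intro k
      induction k with
      | zero =>
        exact ⟨fun i => i.elim0, fun i => i.elim0, fun x ⟨i, _⟩ => i.elim0⟩
      | succ k ih =>
        obtain ⟨e, h1, h2⟩ := ih
        exact hcon k e h1 h2
    obtain ⟨e, h1, h2⟩ := hall (Module.finrank K W + 1)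
    have h3 : LinearIndependent K fun i => (⟨e i, h1 i⟩ : W) := by
      rw [Fintype.linearIndependent_iff]
      intro a ha i
      refine h2.indep hπ a ?_ i
      have := congrArg (fun x : W => (x : V)) ha
      simpa using this
    have h4 := h3.fintype_card_le_finrank
    rw [Fintype.card_fin] at h4
    omega
  choose d e he hs hmax using hex
  have hind : LinearIndependent K fun p : Σ m, Fin (d m) => e p.1 p.2 := by
    rw [Fintype.linearIndependent_iff]
    intro a ha p
    rw [Fintype.sum_sigma] at ha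
    have h1 := three_zero h hπ (w := fun m => ∑ i, a ⟨m, i⟩ • e m i)
      (fun m => W.sum_mem fun i _ => W.smul_mem _ (he m i)) (fun m hm => ?_) ha p.1
    · exact (hs p.1).indep hπ (fun i => a ⟨p.1, i⟩) h1 p.2
    · refine (hs m).exo hπ (fun i => a ⟨m, i⟩) ?_
      by_contra hcon
      push Not at hcon
      apply hm
      refine Finset.sum_eq_zero fun i _ => ?_
      rw [hcon i, zero_smul]
  refine ⟨d, e, he, le_antisymm ?_ ?_, hind, hs⟩
  · have h3 : LinearIndependent K fun p : Σ m, Fin (d m) => (⟨e p.1 p.2, he _ _⟩ : W) :=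
      LinearIndependent.of_comp W.subtype hind
    have h4 := h3.fintype_card_le_finrank
    rw [Fintype.card_sigma] at h4
    simpa using h4
  · have hW : W ≤ Submodule.span K (Set.range fun p : Σ m, Fin (d m) => e p.1 p.2) := by
      intro w hw
      by_cases hw0 : w = 0
      · rw [hw0]
        exact Submodule.zero_mem _
      have hf : c.f w ≠ 0 := fun h1 => hw0 (h w hw h1)
      obtain ⟨N, hN⟩ := exists_exo hπ hf
      have h1 : Vg π 0 (c.f (algebraMap O K π ^ (-(N / 3)) • w)) := by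
        have h2 := (vg_f_zpow (c := c) hπ (m := N) (w := w) (-(N / 3))).2 hN.1
        exact h2.mono hπ (by omega)
      obtain ⟨L, hL⟩ := mem_span_of_max h hπ he hs hmax _ (W.smul_mem _ hw) h1
      have h2 : algebraMap O K π ^ (-(N / 3)) • w ∈
          Submodule.span K (Set.range fun p : Σ m, Fin (d m) => e p.1 p.2) := by
        rw [hL]
        exact Submodule.sum_mem _ fun p _ => Submodule.smul_mem _ _
          (Submodule.subset_span ⟨p, rfl⟩)
      have h3 : algebraMap O K π ^ (-(N / 3)) ≠ 0 := zpow_ne_zero _ (pi_ne hπ)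
      exact (Submodule.smul_mem_iff _ h3).1 h2
    have hfd : FiniteDimensional K
        (Submodule.span K (Set.range fun p : Σ m, Fin (d m) => e p.1 p.2)) :=
      FiniteDimensional.span_of_finite K (Set.finite_range _)
    refine (Submodule.finrank_mono hW).trans ((finrank_range_le_card _).trans ?_)
    rw [Fintype.card_sigma]
    simp

/-- If `dim W ≥ 6` there are two classes with two vectors each. -/
theorem exists_two [FiniteDimensional K W] [Finite (ResidueField O)] (h : An c W)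
    (hπ : Irreducible π) (h6 : 6 ≤ Module.finrank K W) :
    ∃ (m₁ m₂ : Fin 3) (e₁ e₂ : Fin 2 → V), m₁ ≠ m₂ ∧ (∀ i, e₁ i ∈ W) ∧ (∀ i, e₂ i ∈ W) ∧
      Sys c π ((m₁ : ℕ) : ℤ) e₁ ∧ Sys c π ((m₂ : ℕ) : ℤ) e₂ ∧
      LinearIndependent K (Sum.elim e₁ e₂) := by
  obtain ⟨d, e, he, hd, hind, hs⟩ := exists_basis (π := π) h hπ
  have h3 : ∀ m, d m ≤ 3 := fun m => (hs m).card_le h hπ (he m)
  have key : ∀ m₁ m₂ : Fin 3, m₁ ≠ m₂ → 2 ≤ d m₁ → 2 ≤ d m₂ →
      ∃ (m₁ m₂ : Fin 3) (e₁ e₂ : Fin 2 → V), m₁ ≠ m₂ ∧ (∀ i, e₁ i ∈ W) ∧ (∀ i, e₂ i ∈ W) ∧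
        Sys c π ((m₁ : ℕ) : ℤ) e₁ ∧ Sys c π ((m₂ : ℕ) : ℤ) e₂ ∧
        LinearIndependent K (Sum.elim e₁ e₂) := by
    intro m₁ m₂ h12 h1 h2
    refine ⟨m₁, m₂, e m₁ ∘ Fin.castLE h1, e m₂ ∘ Fin.castLE h2, h12, fun i => he _ _,
      fun i => he _ _, (hs m₁).comp _ (Fin.castLE_injective h1),
      (hs m₂).comp _ (Fin.castLE_injective h2), ?_⟩
    let φ : Fin 2 ⊕ Fin 2 → Σ m, Fin (d m) :=
      Sum.elim (fun i => ⟨m₁, Fin.castLE h1 i⟩) fun i => ⟨m₂, Fin.castLE h2 i⟩
    have hφ : Function.Injective φ := by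
      rintro (i | i) (j | j) hij
      · simp only [φ, Sum.elim_inl, Sigma.mk.injEq, heq_eq_eq, true_and] at hij
        rw [Fin.castLE_injective h1 hij]
      · simp only [φ, Sum.elim_inl, Sum.elim_inr, Sigma.mk.injEq] at hij
        exact absurd hij.1 h12
      · simp only [φ, Sum.elim_inl, Sum.elim_inr, Sigma.mk.injEq] at hij
        exact absurd hij.1.symm h12
      · simp only [φ, Sum.elim_inr, Sigma.mk.injEq, heq_eq_eq, true_and] at hij
        rw [Fin.castLE_injective h2 hij]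
    have h4 := hind.comp φ hφ
    have h5 : (fun p : Σ m, Fin (d m) => e p.1 p.2) ∘ φ =
        Sum.elim (e m₁ ∘ Fin.castLE h1) (e m₂ ∘ Fin.castLE h2) := by
      funext p
      rcases p with i | i
      · rfl
      · rfl
    rwa [h5] at h4
  rw [Fin.sum_univ_three] at hd
  have a0 := h3 0
  have a1 := h3 1
  have a2 := h3 2
  by_cases c0 : 2 ≤ d 0
  · by_cases c1 : 2 ≤ d 1
    · exact key 0 1 (by decide) c0 c1
    · exact key 0 2 (by decide) c0 (by omega)
  · exact key 1 2 (by decide) (by omega) (by omega)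

/-- If `dim W ≥ 5` and no value of `f` on `W` has order divisible by `3` then the classes `1`, `2`
have `3`, `2` or `2`, `3` vectors. -/
theorem exists_five [FiniteDimensional K W] [Finite (ResidueField O)] (h : An c W)
    (hπ : Irreducible π) (h5 : 5 ≤ Module.finrank K W)
    (h0 : ∀ w ∈ W, w ≠ 0 → ∀ i : ℤ, Vg π (3 * i) (c.f w) → Vg π (3 * i + 1) (c.f w)) :
    ∃ (m₁ m₂ : ℕ) (e₁ : Fin 3 → V) (e₂ : Fin 2 → V), (m₁ = 1 ∧ m₂ = 2 ∨ m₁ = 2 ∧ m₂ = 1) ∧
      (∀ i, e₁ i ∈ W) ∧ (∀ i, e₂ i ∈ W) ∧ Sys c π (m₁ : ℤ) e₁ ∧ Sys c π (m₂ : ℤ) e₂ := by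
  obtain ⟨d, e, he, hd, hind, hs⟩ := exists_basis (π := π) h hπ
  have h3 : ∀ m, d m ≤ 3 := fun m => (hs m).card_le h hπ (he m)
  have hd0 : d 0 = 0 := by
    by_contra hne
    have hpos : 0 < d 0 := Nat.pos_of_ne_zero hne
    let i₀ : Fin (d 0) := ⟨0, hpos⟩
    have h1 : Sys c π (((0 : Fin 3) : ℕ) : ℤ) (e 0 ∘ fun _ : Fin 1 => i₀) :=
      (hs 0).comp _ fun a b _ => Subsingleton.elim a b
    have h2 := h1 (fun _ => 1) ⟨0, isUnit_one⟩
    simp only [map_one, one_smul, Finset.univ_unique, Finset.sum_singleton,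
      Function.comp_apply] at h2
    have h4 : e 0 i₀ ≠ 0 := by
      intro h4
      rw [h4, Cb.f_zero] at h2
      exact h2.2 (Vg.zero _)
    have h5 := h0 _ (he 0 i₀) h4 0 (by simpa using h2.1)
    exact h2.2 (by simpa using h5)
  rw [Fin.sum_univ_three] at hd
  have a1 := h3 1
  have a2 := h3 2
  by_cases c1 : 3 ≤ d 1
  · have c2 : 2 ≤ d 2 := by omega
    refine ⟨1, 2, e 1 ∘ Fin.castLE c1, e 2 ∘ Fin.castLE c2, Or.inl ⟨rfl, rfl⟩, fun i => he _ _,
      fun i => he _ _, ?_, ?_⟩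
    · exact (hs 1).comp _ (Fin.castLE_injective c1)
    · exact (hs 2).comp _ (Fin.castLE_injective c2)
  · have c2 : 3 ≤ d 2 := by omega
    have c1' : 2 ≤ d 1 := by omega
    refine ⟨2, 1, e 2 ∘ Fin.castLE c2, e 1 ∘ Fin.castLE c1', Or.inr ⟨rfl, rfl⟩, fun i => he _ _,
      fun i => he _ _, ?_, ?_⟩
    · exact (hs 2).comp _ (Fin.castLE_injective c2)
    · exact (hs 1).comp _ (Fin.castLE_injective c1')

/-- For an anisotropic form in `n ≥ 8` variables: one class has `3` vectors and the class before it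
at least `2` (`m`, `m + 1` are integers, not residues). -/
theorem exists_eight [FiniteDimensional K W] [Finite (ResidueField O)] (h : An c W)
    (hπ : Irreducible π) (h8 : 8 ≤ Module.finrank K W) :
    ∃ (m : ℤ) (e : Fin 2 → V) (e' : Fin 3 → V), (∀ i, e i ∈ W) ∧ (∀ i, e' i ∈ W) ∧
      Sys c π m e ∧ Sys c π (m + 1) e' := by
  obtain ⟨d, e, he, hd, hind, hs⟩ := exists_basis (π := π) h hπ
  have h3 : ∀ m, d m ≤ 3 := fun m => (hs m).card_le h hπ (he m)
  rw [Fin.sum_univ_three] at hd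
  have a0 := h3 0
  have a1 := h3 1
  have a2 := h3 2
  by_cases c1 : 3 ≤ d 1
  · have c0 : 2 ≤ d 0 := by omega
    refine ⟨0, e 0 ∘ Fin.castLE c0, e 1 ∘ Fin.castLE c1, fun i => he _ _, fun i => he _ _, ?_, ?_⟩
    · exact (hs 0).comp _ (Fin.castLE_injective c0)
    · exact (hs 1).comp _ (Fin.castLE_injective c1)
  · have c2 : 3 ≤ d 2 := by omega
    have c1' : 2 ≤ d 1 := by omega
    refine ⟨1, e 1 ∘ Fin.castLE c1', e 2 ∘ Fin.castLE c2, fun i => he _ _, fun i => he _ _,
      ?_, ?_⟩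
    · exact (hs 1).comp _ (Fin.castLE_injective c1')
    · exact (hs 2).comp _ (Fin.castLE_injective c2)

end Cu
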