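import Mathlib

/-!
An anisotropic binary cubic form over a finite field which contains the cube roots of unity
represents all classes of cubes.
-/

namespace Cu

open Finset

section bin

variable {F : Type*} [Field F]

/-- The binary cubic form. -/
def gb (A B C D : F) (v : F × F) : F :=
  A * v.1 ^ 3 + B * (v.1 ^ 2 * v.2) + C * (v.1 * v.2 ^ 2) + D * v.2 ^ 3

/-- Its polarisation, quadratic in `v` and linear in `w`. -/
def Db (A B C D : F) (v w : F × F) : F :=
  3 * A * v.1 ^ 2 * w.1 + B * (2 * v.1 * v.2 * w.1 + v.1 ^ 2 * w.2) +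
    C * (v.2 ^ 2 * w.1 + 2 * v.1 * v.2 * w.2) + 3 * D * v.2 ^ 2 * w.2

variable {A B C D : F}

theorem gb_add (v w : F × F) :
    gb A B C D (v + w) = gb A B C D v + Db A B C D v w + Db A B C D w v + gb A B C D w := by
  simp only [gb, Db, Prod.fst_add, Prod.snd_add]; ring

theorem gb_smul (s : F) (v : F × F) : gb A B C D (s • v) = s ^ 3 * gb A B C D v := by
  simp only [gb, Prod.smul_fst, Prod.smul_snd, smul_eq_mul]; ring

theorem Db_add (v w w' : F × F) :
    Db A B C D v (w + w') = Db A B C D v w + Db A B C D v w' := by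
  simp only [Db, Prod.fst_add, Prod.snd_add]; ring

theorem Db_smul_right (s : F) (v w : F × F) : Db A B C D v (s • w) = s * Db A B C D v w := by
  simp only [Db, Prod.smul_fst, Prod.smul_snd, smul_eq_mul]; ring

theorem Db_smul_left (s : F) (v w : F × F) : Db A B C D (s • v) w = s ^ 2 * Db A B C D v w := by
  simp only [Db, Prod.smul_fst, Prod.smul_snd, smul_eq_mul]; ring

theorem Db_self (v : F × F) : Db A B C D v v = 3 * gb A B C D v := by
  simp only [gb, Db]; ring

/-- The key identity. -/
theorem gb_key {w : F} (hw : w ^ 2 + w + 1 = 0) (a b : F × F) :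
    gb A B C D (a + b) - gb A B C D (a + w • b) =
      (1 - w) * (Db A B C D a b + (1 + w) * Db A B C D b a) := by
  have h3 : w ^ 3 = 1 := by linear_combination (w - 1) * hw
  rw [gb_add, gb_add, gb_smul, Db_smul_right, Db_smul_left, h3]
  ring

/-- A pair of vectors in diagonal position: `g (x a + y b) = g(a) x^3 + g(b) y^3`. -/
theorem diag_pair (han : ∀ v, gb A B C D v = 0 → v = 0) (h3 : (3 : F) ≠ 0) {a b a' b' : F × F}
    (ha : a ≠ 0) (hb : b ≠ 0) (h1 : Db A B C D a b = 0) (h2 : Db A B C D b a = 0)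
    (ha' : a' ≠ 0) (hb' : b' ≠ 0) (h1' : Db A B C D a' b' = 0) (h2' : Db A B C D b' a' = 0) :
    (∃ s t : F, a' = s • a ∧ b' = t • b) ∨ (∃ s t : F, a' = s • b ∧ b' = t • a) := by
  have hga : gb A B C D a ≠ 0 := fun h => ha (han a h)
  have hgb : gb A B C D b ≠ 0 := fun h => hb (han b h)
  -- the vectors are independent
  have hdet : a.1 * b.2 - a.2 * b.1 ≠ 0 := by
    intro hd
    obtain ⟨s, hs⟩ : ∃ s : F, b = s • a := by
      by_cases h0 : a.1 = 0
      · have h4 : a.2 ≠ 0 := fun h => ha (Prod.ext h0 h)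
        have h5 : b.1 = 0 := by
          rw [h0, zero_mul, zero_sub, neg_eq_zero] at hd
          exact (mul_eq_zero.1 hd).resolve_left h4
        refine ⟨b.2 / a.2, Prod.ext ?_ ?_⟩
        · simp [h0, h5]
        · simp [h4]
      · refine ⟨b.1 / a.1, Prod.ext ?_ ?_⟩
        · simp [h0]
        · simp only [Prod.smul_snd, smul_eq_mul]
          field_simp
          linear_combination hd
    rw [hs, Db_smul_right, Db_self] at h1
    have hs0 : s ≠ 0 := by
      rintro rfl
      exact hb (by rw [hs, zero_smul])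
    exact mul_ne_zero hs0 (mul_ne_zero h3 hga) h1
  have hdec : ∀ v : F × F, ∃ x y : F, v = x • a + y • b := by
    intro v
    refine ⟨(v.1 * b.2 - v.2 * b.1) / (a.1 * b.2 - a.2 * b.1),
      (a.1 * v.2 - a.2 * v.1) / (a.1 * b.2 - a.2 * b.1), Prod.ext ?_ ?_⟩
    · simp only [Prod.fst_add, Prod.smul_fst, smul_eq_mul]
      rw [div_mul_eq_mul_div, div_mul_eq_mul_div, ← add_div, eq_div_iff hdet]
      ring
    · simp only [Prod.snd_add, Prod.smul_snd, smul_eq_mul]
      rw [div_mul_eq_mul_div, div_mul_eq_mul_div, ← add_div, eq_div_iff hdet]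
      ring
  obtain ⟨x, y, hx⟩ := hdec a'
  obtain ⟨z, t, hz⟩ := hdec b'
  -- the form in the new coordinates
  have hg : ∀ x y : F, gb A B C D (x • a + y • b) =
      gb A B C D a * x ^ 3 + gb A B C D b * y ^ 3 := by
    intro x y
    rw [gb_add, gb_smul, gb_smul, Db_smul_left, Db_smul_left, Db_smul_right, Db_smul_right, h1, h2]
    ring
  have hD : ∀ x y z t : F, Db A B C D (x • a + y • b) (z • a + t • b) =
      3 * gb A B C D a * x ^ 2 * z + 3 * gb A B C D b * y ^ 2 * t := by
    intro x y z t
    rw [Db_add, Db_smul_right, Db_smul_right]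
    have e1 : ∀ w : F × F, Db A B C D (x • a + y • b) w = x ^ 2 * Db A B C D a w +
        x * y * (Db A B C D (a + b) w - Db A B C D a w - Db A B C D b w) +
        y ^ 2 * Db A B C D b w := by
      intro w
      simp only [Db, Prod.fst_add, Prod.snd_add, Prod.smul_fst, Prod.smul_snd, smul_eq_mul]
      ring
    have e2 : Db A B C D (a + b) a = Db A B C D a a := by
      have := hg 1 0
      have e3 : Db A B C D (a + b) a - Db A B C D a a - Db A B C D b a =
          2 * Db A B C D a b := by
        simp only [Db, Prod.fst_add, Prod.snd_add]; ring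
      linear_combination e3 + 2 * h1 + h2
    have e4 : Db A B C D (a + b) b = Db A B C D b b := by
      have e3 : Db A B C D (a + b) b - Db A B C D a b - Db A B C D b b =
          2 * Db A B C D b a := by
        simp only [Db, Prod.fst_add, Prod.snd_add]; ring
      linear_combination e3 + 2 * h2 + h1
    rw [e1 a, e1 b, e2, e4, h1, h2, Db_self, Db_self]
    ring
  have k1 : 3 * gb A B C D a * x ^ 2 * z + 3 * gb A B C D b * y ^ 2 * t = 0 := by
    rw [← hD, ← hx, ← hz, h1']
  have k2 : 3 * gb A B C D a * z ^ 2 * x + 3 * gb A B C D b * t ^ 2 * y = 0 := by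
    rw [← hD, ← hx, ← hz, h2']
  have k3 : gb A B C D a * x ^ 2 * z + gb A B C D b * y ^ 2 * t = 0 := by
    apply mul_left_cancel₀ h3
    linear_combination k1
  have k4 : gb A B C D a * z ^ 2 * x + gb A B C D b * t ^ 2 * y = 0 := by
    apply mul_left_cancel₀ h3
    linear_combination k2
  by_cases hx0 : x = 0
  · right
    have hy0 : y ≠ 0 := by
      intro h
      apply ha'
      rw [hx, hx0, h, zero_smul, zero_smul, add_zero]
    have ht0 : t = 0 := by
      rw [hx0] at k3
      have : gb A B C D b * y ^ 2 * t = 0 := by linear_combination k3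
      rcases mul_eq_zero.1 this with h | h
      · exact absurd h (mul_ne_zero hgb (pow_ne_zero 2 hy0))
      · exact h
    exact ⟨y, z, by rw [hx, hx0, zero_smul, zero_add], by rw [hz, ht0, zero_smul, add_zero]⟩
  · by_cases hz0 : z = 0
    · have ht0 : t ≠ 0 := by
        intro h
        apply hb'
        rw [hz, hz0, h, zero_smul, zero_smul, add_zero]
      left
      have hy0 : y = 0 := by
        rw [hz0] at k3
        have : gb A B C D b * t * y ^ 2 = 0 := by linear_combination k3
        rcases mul_eq_zero.1 this with h | h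
        · exact absurd h (mul_ne_zero hgb ht0)
        · exact pow_eq_zero_iff two_ne_zero |>.1 h
      exact ⟨x, t, by rw [hx, hy0, zero_smul, add_zero], by rw [hz, hz0, zero_smul, zero_add]⟩
    · exfalso
      -- all four coordinates are not zero and the vectors are proportional
      have hyt : x * t - z * y = 0 := by
        have e1 : gb A B C D a * x * z * (x * t - z * y) = 0 := by
          linear_combination t * k3 - y * k4
        rcases mul_eq_zero.1 e1 with h | h
        · exact absurd h (mul_ne_zero (mul_ne_zero hga hx0) hz0)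
        · exact h
      have hprop : b' = (z / x) • a' := by
        rw [hx, hz, smul_add, smul_smul, smul_smul]
        congr 1
        · congr 1
          field_simp
        · congr 1
          field_simp
          linear_combination hyt
      rw [hprop, Db_smul_right, Db_self] at h1'
      have hga' : gb A B C D a' ≠ 0 := fun h => ha' (han a' h)
      exact mul_ne_zero (div_ne_zero hz0 hx0) (mul_ne_zero h3 hga') h1'

end bin

section count

variable {F : Type*} [Field F] [Fintype F] [DecidableEq F] {A B C D : F}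

/-- the direction of a vector -/
def dir (v : F × F) : Option F := if v.1 = 0 then none else some (v.2 / v.1)

omit [Fintype F] in
theorem dir_eq {v w : F × F} (hv : v ≠ 0) (hw : w ≠ 0) (h : dir v = dir w) :
    ∃ s : F, s ≠ 0 ∧ w = s • v := by
  unfold dir at h
  by_cases h1 : v.1 = 0
  · rw [if_pos h1] at h
    by_cases h2 : w.1 = 0
    · have h3 : v.2 ≠ 0 := fun h => hv (Prod.ext h1 h)
      have h4 : w.2 ≠ 0 := fun h => hw (Prod.ext h2 h)
      refine ⟨w.2 / v.2, div_ne_zero h4 h3, Prod.ext ?_ ?_⟩
      · simp [h1, h2]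
      · simp [h3]
    · rw [if_neg h2] at h
      exact absurd h (by simp)
  · rw [if_neg h1] at h
    by_cases h2 : w.1 = 0
    · rw [if_pos h2] at h
      exact absurd h (by simp)
    · rw [if_neg h2] at h
      have h3 := Option.some_injective _ h
      rw [div_eq_div_iff h1 h2] at h3
      refine ⟨w.1 / v.1, div_ne_zero h2 h1, Prod.ext ?_ ?_⟩
      · simp [h1]
      · simp only [Prod.smul_snd, smul_eq_mul]
        field_simp
        linear_combination -h3

/-- pairs of vectors which satisfy the key condition, generic part -/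
def W1 (A B C D w : F) : Finset ((F × F) × (F × F)) :=
  univ.filter fun t => t.1 ≠ 0 ∧ t.2 ≠ 0 ∧ Db A B C D t.2 t.1 ≠ 0 ∧
    Db A B C D t.1 t.2 + (1 + w) * Db A B C D t.2 t.1 = 0

/-- pairs of vectors in diagonal position -/
def W0 (A B C D : F) : Finset ((F × F) × (F × F)) :=
  univ.filter fun t => t.1 ≠ 0 ∧ t.2 ≠ 0 ∧ Db A B C D t.1 t.2 = 0 ∧ Db A B C D t.2 t.1 = 0

theorem card_W1 (w : F) (hw : 1 + w ≠ 0) :
    (W1 A B C D w).card ≤ (Fintype.card F ^ 2) * (Fintype.card F + 1) := by
  have h1 : (Fintype.card F ^ 2) * (Fintype.card F + 1) =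
      ((univ : Finset (F × F)) ×ˢ (univ : Finset (Option F))).card := by
    rw [card_product, card_univ, card_univ, Fintype.card_prod, Fintype.card_option, sq]
  rw [h1]
  refine card_le_card_of_injOn (fun t => (t.1, dir t.2)) (fun t _ => mem_coe.2 (by simp)) ?_
  rintro ⟨a, b⟩ ht ⟨a', b'⟩ ht' h
  rw [mem_coe, W1, mem_filter] at ht ht'
  obtain ⟨-, ha, hb, hD, hk⟩ := ht
  obtain ⟨-, ha', hb', hD', hk'⟩ := ht'
  simp only [Prod.mk.injEq] at h ha hb hD hk ha' hb' hD' hk' ⊢
  obtain ⟨rfl, h2⟩ := h
  refine ⟨rfl, ?_⟩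
  obtain ⟨s, hs, rfl⟩ := dir_eq hb hb' h2
  rw [Db_smul_right, Db_smul_left] at hk'
  have e1 : s * (1 + w) * Db A B C D b a * (s - 1) = 0 := by
    linear_combination hk' - s * hk
  rcases mul_eq_zero.1 e1 with h | h
  · exact absurd h (mul_ne_zero (mul_ne_zero hs hw) hD)
  · rw [sub_eq_zero.1 h, one_smul]

theorem card_W0 (han : ∀ v, gb A B C D v = 0 → v = 0) (h3 : (3 : F) ≠ 0) :
    (W0 A B C D).card ≤ 2 * Fintype.card F ^ 2 := by
  rcases (W0 A B C D).eq_empty_or_nonempty with h | ⟨⟨a, b⟩, h⟩
  · rw [h]; simp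
  · rw [W0, mem_filter] at h
    obtain ⟨-, ha, hb, h1, h2⟩ := h
    dsimp only at ha hb h1 h2
    have hsub : W0 A B C D ⊆ (univ.image fun t : F × F => (t.1 • a, t.2 • b)) ∪
        (univ.image fun t : F × F => (t.1 • b, t.2 • a)) := by
      rintro ⟨a', b'⟩ ht
      rw [W0, mem_filter] at ht
      obtain ⟨-, ha', hb', h1', h2'⟩ := ht
      rw [mem_union, mem_image, mem_image]
      rcases diag_pair han h3 ha hb h1 h2 ha' hb' h1' h2' with ⟨s, t, hs, ht⟩ | ⟨s, t, hs, ht⟩
      · exact Or.inl ⟨(s, t), mem_univ _, Prod.ext hs.symm ht.symm⟩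
      · exact Or.inr ⟨(s, t), mem_univ _, Prod.ext hs.symm ht.symm⟩
    have e1 := card_le_card hsub
    have e2 := card_union_le (univ.image fun t : F × F => (t.1 • a, t.2 • b))
      (univ.image fun t : F × F => (t.1 • b, t.2 • a))
    have e3 : (univ.image fun t : F × F => (t.1 • a, t.2 • b)).card ≤ Fintype.card F ^ 2 := by
      refine card_image_le.trans ?_
      rw [card_univ, Fintype.card_prod, sq]
    have e4 : (univ.image fun t : F × F => (t.1 • b, t.2 • a)).card ≤ Fintype.card F ^ 2 := by
      refine card_image_le.trans ?_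
      rw [card_univ, Fintype.card_prod, sq]
    omega

/-- pairs of vectors with the same value -/
def MM (A B C D : F) : Finset ((F × F) × (F × F)) :=
  univ.filter fun t => t.1 ≠ 0 ∧ gb A B C D t.1 = gb A B C D t.2

theorem card_MM (han : ∀ v, gb A B C D v = 0 → v = 0) (h3 : (3 : F) ≠ 0) {w : F}
    (hw : w ^ 2 + w + 1 = 0) :
    (MM A B C D).card ≤ (Fintype.card F ^ 2) * (Fintype.card F + 1) +
      4 * Fintype.card F ^ 2 := by
  have hw1 : w ≠ 1 := by
    rintro rfl
    apply h3
    linear_combination hw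
  have hw2 : 1 + w ≠ 0 := by
    intro h
    have h4 : w = -1 := by linear_combination h
    rw [h4] at hw
    exact one_ne_zero (show (1 : F) = 0 by linear_combination hw)
  have hw3 : 1 - w ≠ 0 := sub_ne_zero.2 hw1.symm
  -- the change of variables
  set Z : Finset ((F × F) × (F × F)) := univ.filter fun t => t.1 = 0 ∨ t.2 = 0 with hZ
  have hZc : Z.card ≤ 2 * Fintype.card F ^ 2 := by
    have hsub : Z ⊆ (univ.image fun v : F × F => ((0 : F × F), v)) ∪
        (univ.image fun v : F × F => (v, (0 : F × F))) := by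
      rintro ⟨a, b⟩ ht
      rw [hZ, mem_filter] at ht
      rw [mem_union, mem_image, mem_image]
      rcases ht.2 with h | h
      · exact Or.inl ⟨b, mem_univ _, Prod.ext h.symm rfl⟩
      · exact Or.inr ⟨a, mem_univ _, Prod.ext rfl h.symm⟩
    have e1 := card_le_card hsub
    have e2 := card_union_le (univ.image fun v : F × F => ((0 : F × F), v))
      (univ.image fun v : F × F => (v, (0 : F × F)))
    have e3 : (univ.image fun v : F × F => ((0 : F × F), v)).card ≤ Fintype.card F ^ 2 := by
      refine card_image_le.trans ?_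
      rw [card_univ, Fintype.card_prod, sq]
    have e4 : (univ.image fun v : F × F => (v, (0 : F × F))).card ≤ Fintype.card F ^ 2 := by
      refine card_image_le.trans ?_
      rw [card_univ, Fintype.card_prod, sq]
    omega
  have h1 : (MM A B C D).card ≤ (W1 A B C D w ∪ W0 A B C D ∪ Z).card := by
    refine card_le_card_of_injOn (fun t : (F × F) × (F × F) =>
      ((1 - w)⁻¹ • (t.2 - w • t.1), (1 - w)⁻¹ • (t.1 - t.2))) ?_ ?_
    · rintro ⟨v, v'⟩ ht
      rw [mem_coe, MM, mem_filter] at ht
      obtain ⟨-, hv, hg⟩ := ht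
      dsimp only at hv hg ⊢
      set a := (1 - w)⁻¹ • (v' - w • v) with ha
      set b := (1 - w)⁻¹ • (v - v') with hb
      have e1 : a + b = v := by
        rw [ha, hb, ← smul_add]
        have : v' - w • v + (v - v') = (1 - w) • v := by
          rw [sub_smul, one_smul]; abel
        rw [this, smul_smul, inv_mul_cancel₀ hw3, one_smul]
      have e2 : a + w • b = v' := by
        rw [ha, hb, smul_comm w, ← smul_add]
        have : v' - w • v + w • (v - v') = (1 - w) • v' := by
          rw [sub_smul, one_smul, smul_sub]; abel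
        rw [this, smul_smul, inv_mul_cancel₀ hw3, one_smul]
      have e3 := gb_key (A := A) (B := B) (C := C) (D := D) hw a b
      rw [e1, e2, hg, sub_self] at e3
      have e4 : Db A B C D a b + (1 + w) * Db A B C D b a = 0 := by
        rcases mul_eq_zero.1 e3.symm with h | h
        · exact absurd h hw3
        · exact h
      rw [mem_coe, mem_union, mem_union]
      by_cases ha0 : a = 0
      · exact Or.inr (mem_filter.2 ⟨mem_univ _, Or.inl ha0⟩)
      · by_cases hb0 : b = 0
        · exact Or.inr (mem_filter.2 ⟨mem_univ _, Or.inr hb0⟩)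
        · by_cases hD : Db A B C D b a = 0
          · refine Or.inl (Or.inr (mem_filter.2 ⟨mem_univ _, ha0, hb0, ?_, hD⟩))
            rw [hD, mul_zero, add_zero] at e4
            exact e4
          · exact Or.inl (Or.inl (mem_filter.2 ⟨mem_univ _, ha0, hb0, hD, e4⟩))
    · rintro ⟨v, v'⟩ _ ⟨u, u'⟩ _ h
      simp only [Prod.mk.injEq] at h
      obtain ⟨h5, h6⟩ := h
      have hinv : (1 - w)⁻¹ ≠ 0 := inv_ne_zero hw3
      have h7 : v' - w • v = u' - w • u := smul_right_injective _ hinv h5
      have h8 : v - v' = u - u' := smul_right_injective _ hinv h6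
      have h9 : (1 - w) • v = (1 - w) • u := by
        rw [sub_smul, sub_smul, one_smul, one_smul]
        have := congrArg₂ (· + ·) h7 h8
        simp only [sub_add_sub_cancel'] at this
        have e1 : v' - w • v + (v - v') = v - w • v := by abel
        have e2 : u' - w • u + (u - u') = u - w • u := by abel
        rw [← e1, ← e2, h7, h8]
      have h10 : v = u := smul_right_injective _ hw3 h9
      subst h10
      have h11 : v' = u' := by
        have := sub_right_injective h8
        exact this
      rw [h11]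
  have h2 := card_union_le (W1 A B C D w ∪ W0 A B C D) Z
  have h4 := card_union_le (W1 A B C D w) (W0 A B C D)
  have h5 := card_W1 (A := A) (B := B) (C := C) (D := D) w hw2
  have h6 := card_W0 han h3
  omega

/-- The number of cubes. -/
theorem card_cubes (c : F) (hc : c ≠ 0) :
    (Fintype.card F - 1) ≤ 3 * (univ.filter fun r : F => r ≠ 0 ∧ ∃ t, c * r = t ^ 3).card := by
  have h1 : ((univ : Finset F).erase 0).card ≤
      3 * ((univ.filter fun r : F => r ≠ 0 ∧ ∃ t, c * r = t ^ 3)).card := by
    refine card_le_mul_card_image_of_maps_to (f := fun t : F => c⁻¹ * t ^ 3) ?_ 3 ?_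
    · intro t ht
      rw [mem_erase] at ht
      rw [mem_filter]
      refine ⟨mem_univ _, mul_ne_zero (inv_ne_zero hc) (pow_ne_zero 3 ht.1), t, ?_⟩
      rw [← mul_assoc, mul_inv_cancel₀ hc, one_mul]
    · intro r hr
      have h2 : (filter (fun x : F => c⁻¹ * x ^ 3 = r) (univ.erase 0)) ⊆
          (Polynomial.nthRoots 3 (c * r)).toFinset := by
        intro x hx
        rw [mem_filter] at hx
        rw [Multiset.mem_toFinset, Polynomial.mem_nthRoots (by norm_num), ← hx.2]
        field_simp
      calc _ ≤ _ := card_le_card h2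
        _ ≤ _ := Multiset.toFinset_card_le _
        _ ≤ 3 := Polynomial.card_nthRoots 3 _
  rw [card_erase_of_mem (mem_univ _), card_univ] at h1
  omega

/-- An anisotropic binary cubic form over a finite field with at least `16` elements and with the
cube roots of unity represents every class of cubes. -/
theorem bin_cube (hF : 16 ≤ Fintype.card F) (han : ∀ v, gb A B C D v = 0 → v = 0)
    (h3 : (3 : F) ≠ 0) {w : F} (hw : w ^ 2 + w + 1 = 0) (c : F) (hc : c ≠ 0) :
    ∃ v : F × F, v ≠ 0 ∧ ∃ t : F, c * gb A B C D v = t ^ 3 := by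
  by_contra hcon
  push Not at hcon
  set q := Fintype.card F with hq
  set V : Finset (F × F) := univ.erase 0 with hV
  set R : Finset F := univ.filter fun r : F => r ≠ 0 ∧ ¬ ∃ t, c * r = t ^ 3 with hR
  have hVc : V.card = q ^ 2 - 1 := by
    rw [hV, card_erase_of_mem (mem_univ _), card_univ, Fintype.card_prod, sq]
  have hmaps : ∀ v ∈ V, gb A B C D v ∈ R := by
    intro v hv
    rw [hV, mem_erase] at hv
    rw [hR, mem_filter]
    exact ⟨mem_univ _, fun h => hv.1 (han v h), fun ⟨t, ht⟩ => hcon v hv.1 t ht⟩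
  have h1 : V.card = ∑ r ∈ R, (V.filter fun v => gb A B C D v = r).card :=
    card_eq_sum_card_fiberwise hmaps
  have h2 : (V.card : ℤ) ^ 2 ≤ R.card * ∑ r ∈ R,
      (((V.filter fun v => gb A B C D v = r).card : ℤ)) ^ 2 := by
    rw [h1]
    push_cast
    exact sq_sum_le_card_mul_sum_sq
  have h4 : ∑ r ∈ R, ((V.filter fun v => gb A B C D v = r).card) ^ 2 ≤ (MM A B C D).card := by
    have e1 : ∀ r, ((V.filter fun v => gb A B C D v = r).card) ^ 2 =
        ((V.filter fun v => gb A B C D v = r) ×ˢ (V.filter fun v => gb A B C D v = r)).card := by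
      intro r
      rw [card_product, sq]
    simp only [e1]
    rw [← card_sigma]
    refine card_le_card_of_injOn (fun t => t.2) ?_ ?_
    · rintro ⟨r, v, v'⟩ ht
      simp only [coe_sigma, Set.mem_sigma_iff, mem_coe, mem_product, mem_filter, hV,
        mem_erase] at ht
      rw [mem_coe, MM, mem_filter]
      exact ⟨mem_univ _, ht.2.1.1.1, ht.2.1.2.trans ht.2.2.2.symm⟩
    · rintro ⟨r, v, v'⟩ ht ⟨s, u, u'⟩ ht' h
      simp only [coe_sigma, Set.mem_sigma_iff, mem_coe, mem_product, mem_filter, hV,
        mem_erase] at ht ht'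
      have h5 : v = u := congrArg Prod.fst h
      have h7 : v' = u' := congrArg Prod.snd h
      have h6 : r = s := by
        rw [← ht.2.1.2, ← ht'.2.1.2, h5]
      subst h6 h5 h7
      rfl
  have h5 := card_MM han h3 hw
  have h6 := card_cubes c hc
  have h7 : R.card + (univ.filter fun r : F => r ≠ 0 ∧ ∃ t, c * r = t ^ 3).card ≤ q - 1 := by
    rw [← card_union_of_disjoint]
    · have : R ∪ (univ.filter fun r : F => r ≠ 0 ∧ ∃ t, c * r = t ^ 3) ⊆ univ.erase 0 := by
        intro r hr
        rw [mem_union, hR, mem_filter, mem_filter] at hr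
        rw [mem_erase]
        rcases hr with h | h
        · exact ⟨h.2.1, mem_univ _⟩
        · exact ⟨h.2.1, mem_univ _⟩
      have e1 := card_le_card this
      rwa [card_erase_of_mem (mem_univ _), card_univ] at e1
    · rw [disjoint_left]
      intro r h8 h9
      rw [hR, mem_filter] at h8
      rw [mem_filter] at h9
      exact h8.2.2 h9.2.2
  -- the inequality
  have hVz : (V.card : ℤ) = (q : ℤ) ^ 2 - 1 := by
    rw [hVc, Nat.cast_sub (Nat.one_le_pow _ _ (by omega))]
    push_cast
    ring
  have hRz : 3 * (R.card : ℤ) ≤ 2 * (q - 1) := by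
    have : 3 * R.card ≤ 2 * (q - 1) := by omega
    have h8 : (3 * R.card : ℤ) ≤ 2 * ((q - 1 : ℕ) : ℤ) := by exact_mod_cast this
    rw [Nat.cast_sub (by omega)] at h8
    exact_mod_cast h8
  have hMz : ∑ r ∈ R, (((V.filter fun v => gb A B C D v = r).card : ℤ)) ^ 2 ≤
      (q : ℤ) ^ 2 * (q + 1) + 4 * q ^ 2 := by
    have := h4.trans h5
    exact_mod_cast this
  have hqz : (16 : ℤ) ≤ q := by exact_mod_cast hF
  rw [hVz] at h2
  set S := ∑ r ∈ R, (((V.filter fun v => gb A B C D v = r).card : ℤ)) ^ 2 with hS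
  have hS0 : 0 ≤ S := sum_nonneg fun r _ => sq_nonneg _
  have h10 : 3 * ((q : ℤ) ^ 2 - 1) ^ 2 ≤ 2 * (q - 1) * ((q : ℤ) ^ 2 * (q + 1) + 4 * q ^ 2) := by
    have e1 : 3 * ((q : ℤ) ^ 2 - 1) ^ 2 ≤ 3 * (R.card * S) := by linarith
    have e2 : (3 * (R.card : ℤ)) * S ≤ (2 * (q - 1)) * S :=
      mul_le_mul_of_nonneg_right hRz hS0
    have e3 : (2 * ((q : ℤ) - 1)) * S ≤ (2 * (q - 1)) * ((q : ℤ) ^ 2 * (q + 1) + 4 * q ^ 2) :=
      mul_le_mul_of_nonneg_left hMz (by linarith)
    linarith
  have h11 : 3 * ((q : ℤ) - 1) * (q + 1) ^ 2 ≤ 2 * ((q : ℤ) ^ 2 * (q + 1) + 4 * q ^ 2) := by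
    have e1 : (0 : ℤ) < q - 1 := by linarith
    have e2 : ((q : ℤ) - 1) * (3 * ((q : ℤ) - 1) * (q + 1) ^ 2) ≤
        (q - 1) * (2 * ((q : ℤ) ^ 2 * (q + 1) + 4 * q ^ 2)) := by
      linarith
    exact le_of_mul_le_mul_left e2 e1
  nlinarith

end count

end Cu
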