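import Pool.Agent.Lib.MP_f80667_ag.Cu.CuReal

/-! The archimedean places of a number field. -/

open Polynomial Finset Topology ZC NumberField
open scoped LinearAlgebra.Projectivization

namespace Cu

private theorem zero_transfer' {F E R : Type*} [Field F] [Field E] [Algebra F E] [IsAlgClosed E]
    [CommRing R] [IsReduced R] [Algebra F R] {n : ℕ} {ι : Type*} (p : ι → MvPolynomial (Fin n) F)
    (hs : ∀ x : Fin n → E, (∀ i, MvPolynomial.aeval x (p i) = 0) → x = 0) (x : Fin n → R)
    (hx : ∀ i, MvPolynomial.aeval x (p i) = 0) : x = 0 := by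
  funext j
  have h1 : MvPolynomial.X j ∈ MvPolynomial.vanishingIdeal F
      (MvPolynomial.zeroLocus E (Ideal.span (Set.range p))) := by
    rw [MvPolynomial.mem_vanishingIdeal_iff]
    intro y hy
    rw [MvPolynomial.zeroLocus_span] at hy
    have h2 := hs y fun i => hy (p i) ⟨i, rfl⟩
    rw [MvPolynomial.aeval_X, h2, Pi.zero_apply]
  rw [MvPolynomial.vanishingIdeal_zeroLocus_eq_radical] at h1
  obtain ⟨N, hN⟩ := h1
  have h3 : Ideal.span (Set.range p) ≤ RingHom.ker (MvPolynomial.aeval (R := F) x).toRingHom := by
    rw [Ideal.span_le]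
    rintro _ ⟨i, rfl⟩
    exact hx i
  have h4 : MvPolynomial.aeval x (MvPolynomial.X (R := F) j ^ N) = 0 := h3 hN
  rw [map_pow, MvPolynomial.aeval_X] at h4
  exact eq_zero_of_pow_eq_zero h4

/-- The archimedean places of a number field: the archimedean group of a smooth cubic hypersurface
vanishes at the complex places and at the real places where the real points form a connected
set. -/
theorem F1bar_cubic_inf (F : Type) [Field F] [NumberField F] {n : ℕ} (v : InfinitePlace F)
    (f : MvPolynomial (Fin n) F) (hf : f.IsHomogeneous 3) (hn : 4 ≤ n)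
    (hs : ∀ x : Fin n → AlgebraicClosure F, x ≠ 0 →
      ∃ i, MvPolynomial.aeval x (MvPolynomial.pderiv i f) ≠ 0)
    (hconn : v.IsReal → IsPreconnected ((fun (x : Fin n → v.Completion) (i j : Fin n) =>
      x i * x j) '' {x | x ≠ 0 ∧
        Zer (fun _ : Unit => f.map (algebraMap F v.Completion)) v.Completion x})) :
    Subsingleton (F1bar (AlgebraicClosure v.Completion)
      (fun _ : Unit => f.map (algebraMap F v.Completion))) := by
  have : CharZero v.Completion :=
    charZero_of_injective_algebraMap (algebraMap F v.Completion).injective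
  have hf' : (f.map (algebraMap F v.Completion)).IsHomogeneous 3 := hf.map _
  by_cases hc : v.IsComplex
  · have e := InfinitePlace.Completion.ringEquivComplexOfIsComplex hc
    have : IsAlgClosed v.Completion := IsAlgClosed.of_ringEquiv ℂ v.Completion e.symm
    exact F1bar_complex' fun _ => ⟨3, hf'⟩
  · have hr : v.IsReal := InfinitePlace.not_isComplex_iff_isReal.1 hc
    refine F1bar_cubic_conn _ (InfinitePlace.Completion.ringEquivRealOfIsReal hr)
      (InfinitePlace.Completion.isometryEquivRealOfIsReal hr).continuous
      (InfinitePlace.Completion.isometryEquivRealOfIsReal hr).symm.continuous _ hf' hn ?_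
      (hconn hr)
    intro x hx
    by_contra hcon
    push Not at hcon
    apply hx
    refine zero_transfer' (F := F) (E := AlgebraicClosure F)
      (fun i => MvPolynomial.pderiv i f) (fun y hy => ?_) x fun i => ?_
    · by_contra h0
      obtain ⟨i, hi⟩ := hs y h0
      exact hi (hy i)
    · have h2 := hcon i
      rw [MvPolynomial.pderiv_map, MvPolynomial.aeval_map_algebraMap] at h2
      exact h2

end Cu
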