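import Pool.Agent.Lib.MP_f80667_ag.Cu.RealB
import Pool.Agent.Lib.MP_f80667_ag.Cu.ThZ
import Pool.Agent.Lib.MP_f80667_ag.Fa.Orbit

/-! The archimedean places of a cubic hypersurface. -/

open Polynomial Finset Topology ZC
open scoped LinearAlgebra.Projectivization

namespace Cu

universe u

section norm

variable {k Ω : Type u} [Field k] [Field Ω] [Algebra k Ω] [IsAlgClosure k Ω] {n : ℕ}

omit [IsAlgClosure k Ω] in
/-- The trace of a point over an extension isomorphic to `Ω` is a norm. -/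
theorem trPt_norm [FiniteDimensional k Ω] {L : Type u} [Field L] [Algebra k L]
    [FiniteDimensional k L] (h : Module.finrank k L = Module.finrank k Ω) (φ : L →ₐ[k] Ω)
    (y : ℙ L (Fin n → L)) : trPt k Ω y = ∑ᶠ σ : Ω ≃ₐ[k] Ω,
      Finsupp.single (mapPt (σ : Ω →+* Ω) (mapPt (φ : L →+* Ω) y)) 1 := by
  classical
  have hb : Function.Bijective φ := by
    refine ⟨φ.injective, ?_⟩
    have h1 := LinearMap.injective_iff_surjective_of_finrank_eq_finrank (f := φ.toLinearMap) h
    exact h1.1 φ.injective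
  let ψ : L ≃ₐ[k] Ω := AlgEquiv.ofBijective φ hb
  let e : (Ω ≃ₐ[k] Ω) ≃ (L →ₐ[k] Ω) :=
    (algEquivEquivAlgHom k Ω).toEquiv.trans (AlgEquiv.arrowCongr ψ.symm AlgEquiv.refl)
  rw [trPt, finsum_eq_sum_of_fintype]
  symm
  apply Fintype.sum_equiv e
  intro σ
  rw [mapPt_mapPt]
  rfl

theorem norm_mem [FiniteDimensional k Ω] {ι : Type} {f : ι → MvPolynomial (Fin n) k}
    (hf : ∀ i, ∃ d, (f i).IsHomogeneous d) {L : Type u} [Field L] [Algebra k L]
    [FiniteDimensional k L] (h : Module.finrank k L = Module.finrank k Ω)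
    (y : ℙ L (Fin n → L)) (hy : Zer f L y.rep) : trPt k Ω y ∈ normCyc Ω f := by
  have hac : IsAlgClosed Ω := IsAlgClosure.isAlgClosed k
  obtain ⟨φ⟩ : Nonempty (L →ₐ[k] Ω) := ⟨IsAlgClosed.lift⟩
  rw [trPt_norm h φ y]
  exact AddSubgroup.subset_closure ⟨_, ZCTr.zer_mapPt hf φ hy, rfl⟩

omit [IsAlgClosure k Ω] in
theorem zer_of_map {ι : Type} {f : ι → MvPolynomial (Fin n) k}
    (hf : ∀ i, ∃ d, (f i).IsHomogeneous d) (M : IntermediateField k Ω) (P : ℙ M (Fin n → M))
    (h : Zer f Ω (mapPt (algebraMap M Ω) P).rep) : Zer f M P.rep := by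
  obtain ⟨c, hc, h1⟩ := mapPt_rep (algebraMap M Ω) P
  rw [h1] at h
  have h2 : Zer f Ω (fun i => algebraMap M Ω (P.rep i)) := by
    have h3 := ZCTr.zer_smul hf c⁻¹ h
    rwa [smul_smul, inv_mul_cancel₀ hc, one_smul] at h3
  exact (zer_comp M.val P.rep).1 h2

/-- If `Ω = k` the zero-cycles are norms. -/
theorem F1bar_complex' {ι : Type} {f : ι → MvPolynomial (Fin n) k}
    (hf : ∀ i, ∃ d, (f i).IsHomogeneous d) [IsAlgClosed k] : Subsingleton (F1bar Ω f) := by
  have hal : Algebra.IsAlgebraic k Ω := IsAlgClosure.isAlgebraic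
  have hac : IsAlgClosed Ω := IsAlgClosure.isAlgClosed k
  have hb : Function.Bijective (algebraMap k Ω) := IsAlgClosed.algebraMap_bijective_of_isIntegral
  have hfd : FiniteDimensional k Ω :=
    Module.Finite.of_surjective (Algebra.linearMap k Ω) hb.2
  have h1 : Module.finrank k Ω = 1 := by
    have h2 := (LinearEquiv.ofBijective (Algebra.linearMap k Ω) hb).finrank_eq
    rw [← h2, Module.finrank_self]
  rw [QuotientAddGroup.subsingleton_iff, AddSubgroup.addSubgroupOf_eq_top]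
  intro z hz
  obtain ⟨hz1, _⟩ := AddSubgroup.mem_inf.1 hz
  refine AddSubgroup.mem_sup_right (cyc_mem_of_tr (k := k) _ z hz1.2 ?_)
  intro M hM P hP _
  refine norm_mem hf ?_ P (zer_of_map hf M P (hz1.1 _ hP))
  have h3 := Module.finrank_mul_finrank k M Ω
  rw [h1] at h3 ⊢
  exact Nat.eq_one_of_mul_eq_one_right h3

end norm

section main

variable {k : Type u} [Field k] {n : ℕ} (Ω : Type u) [Field Ω] [Algebra k Ω] [IsAlgClosure k Ω]

theorem sm_of_smooth [CharZero k] (f : MvPolynomial (Fin n) k) (T : Tn k n)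
    (hT : ∀ (R : Type u) [CommRing R] [Algebra k R] (x : Fin n → R),
      MvPolynomial.aeval x f = (ex T R).f x)
    (hs : ∀ x : Fin n → Ω, x ≠ 0 → ∃ i, MvPolynomial.aeval x (MvPolynomial.pderiv i f) ≠ 0) :
    Sm T := by
  intro M _ _ _ x hx
  have hac : IsAlgClosed Ω := IsAlgClosure.isAlgClosed k
  have : CharZero M := charZero_of_injective_algebraMap (algebraMap k M).injective
  let φ : M →ₐ[k] Ω := IsAlgClosed.lift
  have hx' : (fun j => φ (x j)) ≠ 0 := by
    intro h
    apply hx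
    funext j
    exact φ.injective ((congrFun h j).trans (map_zero φ).symm)
  obtain ⟨i, hi⟩ := hs _ hx'
  refine ⟨Pi.single i 1, ?_⟩
  rw [tensor_D f T hT]
  rw [Finset.sum_eq_single i (fun j _ hj => by rw [Pi.single_eq_of_ne hj, mul_zero])
    (fun h => absurd (Finset.mem_univ i) h), Pi.single_eq_same, mul_one]
  intro h
  apply hi
  have h1 := MvPolynomial.comp_aeval_apply x φ (MvPolynomial.pderiv i f)
  rw [h, map_zero] at h1
  exact h1.symm

/-- A real place, if the real points of the cubic hypersurface form a connected set. -/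
theorem F1bar_cubic_conn [TopologicalSpace k] (e : k ≃+* ℝ) (he : Continuous e)
    (he' : Continuous e.symm) (f : MvPolynomial (Fin n) k) (hf : f.IsHomogeneous 3)
    (hn : 4 ≤ n)
    (hs : ∀ x : Fin n → Ω, x ≠ 0 → ∃ i, MvPolynomial.aeval x (MvPolynomial.pderiv i f) ≠ 0)
    (hconn : IsPreconnected ((fun (x : Fin n → k) (i j : Fin n) => x i * x j) ''
      {x | x ≠ 0 ∧ Zer (fun _ : Unit => f) k x})) :
    Subsingleton (F1bar Ω (fun _ : Unit => f)) := by
  have hk0 : CharZero k := charZero_of_injective_ringHom (f := e.symm.toRingHom) e.symm.injective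
  have hac : IsAlgClosed Ω := IsAlgClosure.isAlgClosed k
  have hal : Algebra.IsAlgebraic k Ω := IsAlgClosure.isAlgebraic
  have h2 : Module.finrank k Ω = 2 := finrank_two k Ω e
  have hfd : FiniteDimensional k Ω := Module.finite_of_finrank_pos (by omega)
  obtain ⟨T, hT⟩ := exists_tensor f hf
  obtain ⟨C, hC⟩ := exists_th Ω f T hT
  have hom : ∀ _ : Unit, ∃ d, f.IsHomogeneous d := fun _ => ⟨3, hf⟩
  have hsm : Sm T := sm_of_smooth Ω f T hT hs
  have hzer : ∀ {M : Type u} [Field M] [Algebra k M] (x : Fin n → M),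
      Zer (fun _ : Unit => f) M x ↔ (ex T M).f x = 0 := by
    intro M _ _ x
    rw [← hT]
    exact ⟨fun h => h (), fun h _ => h⟩
  obtain ⟨N, hNdef⟩ : ∃ N : AddSubgroup (CHf Ω f), N = (normCyc Ω (fun _ : Unit => f)).map
      (QuotientAddGroup.mk' (ratEq Ω (fun _ : Unit => f))) := ⟨_, rfl⟩
  have hNmem : ∀ z : ℙ Ω (Fin n → Ω) →₀ ℤ, (QuotientAddGroup.mk z : CHf Ω f) ∈ N →
      z ∈ ratEq Ω (fun _ : Unit => f) ⊔ normCyc Ω (fun _ : Unit => f) := by
    intro z hz
    rw [hNdef] at hz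
    obtain ⟨w, hw, hwz⟩ := hz
    have h3 : -w + z ∈ ratEq Ω (fun _ : Unit => f) := QuotientAddGroup.eq.1 hwz
    have h4 := add_mem (AddSubgroup.mem_sup_right (S := ratEq Ω (fun _ : Unit => f)) hw)
      (AddSubgroup.mem_sup_left (T := normCyc Ω (fun _ : Unit => f)) h3)
    rwa [add_neg_cancel_left] at h4
  have hN : ∀ (L : Type u) [Field L] [Algebra k L] [FiniteDimensional k L] (y : Fin n → L),
      Module.finrank k L = 2 → y ≠ 0 → (ex T L).f y = 0 → C.cl L y ∈ N := by
    intro L _ _ _ y hL hy fy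
    rw [hC, clZ, dif_neg hy, hNdef]
    refine ⟨_, norm_mem hom (hL.trans h2.symm) _ ?_, rfl⟩
    exact ZCTr.zer_rep hom hy ((hzer y).2 fy)
  -- a real point
  obtain ⟨P, hP0, fP⟩ : ∃ P : Fin n → k, P ≠ 0 ∧ (ex T k).f P = 0 := by
    obtain ⟨u, _, hu, fu⟩ := exists_zero2 (T.map (e : k →+* ℝ)) ⊤ (by
      rw [finrank_top, Module.finrank_pi, Fintype.card_fin]
      omega)
    refine ⟨fun i => e.symm (u i), ?_, ?_⟩
    · intro h
      apply hu
      rw [← toR_symm e u, h]
      funext i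
      exact map_zero e
    · rw [← EmbeddingLike.map_eq_zero_iff (f := e), ← toR_f, toR_symm]
      exact fu
  have hconn' : IsPreconnected (ZC.sqm '' {x : Fin n → k | x ≠ 0 ∧ (ex T k).f x = 0}) := by
    have h3 : {x : Fin n → k | x ≠ 0 ∧ (ex T k).f x = 0} =
        {x | x ≠ 0 ∧ Zer (fun _ : Unit => f) k x} := by
      ext x
      exact and_congr_right fun _ => (hzer x).symm
    rw [h3]
    exact hconn
  obtain ⟨t, ht⟩ : ∃ t, t = trPt k Ω (Projectivization.mk k P hP0) := ⟨_, rfl⟩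
  have hreal : ∀ Q : ℙ k (Fin n → k), Zer (fun _ : Unit => f) k Q.rep →
      trPt k Ω Q - t ∈ ratEq Ω (fun _ : Unit => f) ⊔ normCyc Ω (fun _ : Unit => f) := by
    intro Q hQ
    have h3 := C.real_conn e he he' hsm hn N hN hconn' Q.rep P Q.rep_nonzero ((hzer _).1 hQ) hP0 fP
    rw [hC, hC, clZ, clZ, dif_neg Q.rep_nonzero, dif_neg hP0, Projectivization.mk_rep, ← ht] at h3
    exact hNmem _ h3
  have htwo : (2 : ℤ) • t ∈ ratEq Ω (fun _ : Unit => f) ⊔ normCyc Ω (fun _ : Unit => f) := by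
    have h3 := hN Ω (up Ω P) h2 (comp_ne (algebraMap k Ω) hP0) (by rw [ex_f, fP, map_zero])
    rw [C.ext k Ω P, h2, hC, clZ, dif_neg hP0, ← ht] at h3
    refine hNmem _ ?_
    have h4 : (QuotientAddGroup.mk ((2 : ℤ) • t) : CHf Ω f) =
        (2 : ℕ) • (QuotientAddGroup.mk t : CHf Ω f) := by
      rw [two_zsmul, two_nsmul]
      rfl
    rw [h4]
    exact h3
  -- all zero-cycles
  let S : AddSubgroup (ℙ Ω (Fin n → Ω) →₀ ℤ) :=
    { carrier := {z | ∃ m c : ℤ, z - m • t ∈ ratEq Ω (fun _ : Unit => f) ⊔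
        normCyc Ω (fun _ : Unit => f) ∧ deg Ω z = m + 2 * c}
      zero_mem' := ⟨0, 0, by simp, by simp⟩
      add_mem' := by
        rintro a b ⟨m, c, ha, ha'⟩ ⟨m', c', hb, hb'⟩
        refine ⟨m + m', c + c', ?_, ?_⟩
        · have h3 := add_mem ha hb
          convert h3 using 1
          rw [add_smul]
          abel
        · rw [map_add, ha', hb']
          ring
      neg_mem' := by
        rintro a ⟨m, c, ha, ha'⟩
        refine ⟨-m, -c, ?_, ?_⟩
        · have h3 := neg_mem ha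
          convert h3 using 1
          rw [neg_smul]
          abel
        · rw [map_neg, ha']
          ring }
  rw [QuotientAddGroup.subsingleton_iff, AddSubgroup.addSubgroupOf_eq_top]
  intro z hz
  obtain ⟨hzc, hz0⟩ := AddSubgroup.mem_inf.1 hz
  rw [AddMonoidHom.mem_ker] at hz0
  have hzS : z ∈ S := by
    refine cyc_mem_of_tr (k := k) S z hzc.2 ?_
    intro K hK y hy _
    have hyz : Zer (fun _ : Unit => f) K y.rep := zer_of_map hom K y (hzc.1 _ hy)
    have h1 := Module.finrank_mul_finrank k K Ω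
    rw [h2] at h1
    have h3 : Module.finrank k K ∣ 2 := ⟨_, h1.symm⟩
    change ∃ m c : ℤ, trPt k Ω y - m • t ∈ ratEq Ω (fun _ : Unit => f) ⊔
        normCyc Ω (fun _ : Unit => f) ∧ deg Ω (trPt k Ω y) = m + 2 * c
    rcases (Nat.dvd_prime Nat.prime_two).1 h3 with h4 | h4
    · obtain ⟨φ, hφ⟩ := trPt_bot (Ω := Ω) K (IntermediateField.finrank_eq_one_iff.1 h4) y
      refine ⟨1, 0, ?_, ?_⟩
      · rw [one_smul, hφ]
        exact hreal _ (ZCTr.zer_mapPt hom φ hyz)
      · rw [deg_trPt, h4]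
        norm_num
    · refine ⟨0, 1, ?_, ?_⟩
      · rw [zero_smul, sub_zero]
        exact AddSubgroup.mem_sup_right (norm_mem hom (h4.trans h2.symm) y hyz)
      · rw [deg_trPt, h4]
        norm_num
  obtain ⟨m, c, h3, h4⟩ := hzS
  rw [hz0] at h4
  have h5 : m = (-c) * 2 := by linarith
  have h6 : m • t ∈ ratEq Ω (fun _ : Unit => f) ⊔ normCyc Ω (fun _ : Unit => f) := by
    rw [h5, mul_smul]
    exact zsmul_mem htwo _
  have h7 := add_mem h3 h6
  rwa [sub_add_cancel] at h7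

end main

end Cu
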