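import Mathlib
import Pool.Agent.Lib.MP_f80667_ag.LF.Basic

/-! Cubic forms with their polarizations, and the formal properties of the classes of points of a
cubic hypersurface which are used in `Cu`. -/

open Polynomial Finset
open scoped Polynomial

namespace Cu

universe u

/-- A cubic form `f` with its polarizations: `D x y` (quadratic in `x`, linear in `y`) and the
trilinear `E`. -/
structure Cb (R V : Type*) [CommRing R] [AddCommGroup V] [Module R V] where
  /-- the form -/
  f : V → R
  /-- the derivative of `f` at `x` in the direction `y` -/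
  D : V → V → R
  /-- the trilinear form -/
  E : V → V → V → R
  f_add : ∀ x y, f (x + y) = f x + D x y + D y x + f y
  f_smul : ∀ (a : R) x, f (a • x) = a ^ 3 * f x
  D_add : ∀ x y z, D x (y + z) = D x y + D x z
  D_smul : ∀ x (a : R) y, D x (a • y) = a * D x y
  add_D : ∀ x y z, D (x + y) z = D x z + E x y z + D y z
  smul_D : ∀ (a : R) x y, D (a • x) y = a ^ 2 * D x y
  E_comm : ∀ x y z, E x y z = E y x z
  E_comm' : ∀ x y z, E x y z = E x z y
  E_add : ∀ x y z w, E x y (z + w) = E x y z + E x y w
  E_smul : ∀ x y (a : R) z, E x y (a • z) = a * E x y z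
  D_self : ∀ x, D x x = 3 * f x
  E_self : ∀ x y, E x x y = 2 * D x y

/-- Tensors. -/
abbrev Tn (R : Type*) (d : ℕ) := Fin d → Fin d → Fin d → R

/-- The cubic form of a tensor. -/
def cb {R : Type*} [CommRing R] {d : ℕ} (T : Tn R d) : Cb R (Fin d → R) where
  f x := ∑ i, ∑ j, ∑ l, T i j l * (x i * x j * x l)
  D x y := ∑ i, ∑ j, ∑ l, T i j l * (x i * x j * y l + x i * y j * x l + y i * x j * x l)
  E x y z := ∑ i, ∑ j, ∑ l, T i j l * (x i * y j * z l + x i * z j * y l + y i * x j * z l +
    y i * z j * x l + z i * x j * y l + z i * y j * x l)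
  f_add x y := by
    simp only [← Finset.sum_add_distrib]
    refine sum_congr rfl fun i _ => sum_congr rfl fun j _ => sum_congr rfl fun l _ => ?_
    simp only [Pi.add_apply]; ring
  f_smul a x := by
    simp only [Finset.mul_sum]
    refine sum_congr rfl fun i _ => sum_congr rfl fun j _ => sum_congr rfl fun l _ => ?_
    simp only [Pi.smul_apply, smul_eq_mul]; ring
  D_add x y z := by
    simp only [← Finset.sum_add_distrib]
    refine sum_congr rfl fun i _ => sum_congr rfl fun j _ => sum_congr rfl fun l _ => ?_
    simp only [Pi.add_apply]; ring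
  D_smul x a y := by
    simp only [Finset.mul_sum]
    refine sum_congr rfl fun i _ => sum_congr rfl fun j _ => sum_congr rfl fun l _ => ?_
    simp only [Pi.smul_apply, smul_eq_mul]; ring
  add_D x y z := by
    simp only [← Finset.sum_add_distrib]
    refine sum_congr rfl fun i _ => sum_congr rfl fun j _ => sum_congr rfl fun l _ => ?_
    simp only [Pi.add_apply]; ring
  smul_D a x y := by
    simp only [Finset.mul_sum]
    refine sum_congr rfl fun i _ => sum_congr rfl fun j _ => sum_congr rfl fun l _ => ?_
    simp only [Pi.smul_apply, smul_eq_mul]; ring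
  E_comm x y z := by
    refine sum_congr rfl fun i _ => sum_congr rfl fun j _ => sum_congr rfl fun l _ => ?_
    ring
  E_comm' x y z := by
    refine sum_congr rfl fun i _ => sum_congr rfl fun j _ => sum_congr rfl fun l _ => ?_
    ring
  E_add x y z w := by
    simp only [← Finset.sum_add_distrib]
    refine sum_congr rfl fun i _ => sum_congr rfl fun j _ => sum_congr rfl fun l _ => ?_
    simp only [Pi.add_apply]; ring
  E_smul x y a z := by
    simp only [Finset.mul_sum]
    refine sum_congr rfl fun i _ => sum_congr rfl fun j _ => sum_congr rfl fun l _ => ?_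
    simp only [Pi.smul_apply, smul_eq_mul]; ring
  D_self x := by
    simp only [Finset.mul_sum]
    refine sum_congr rfl fun i _ => sum_congr rfl fun j _ => sum_congr rfl fun l _ => ?_
    ring
  E_self x y := by
    simp only [Finset.mul_sum]
    refine sum_congr rfl fun i _ => sum_congr rfl fun j _ => sum_congr rfl fun l _ => ?_
    ring

/-- Image of a tensor. -/
def Tn.map {R S : Type*} [CommRing R] [CommRing S] (φ : R →+* S) {d : ℕ} (T : Tn R d) : Tn S d :=
  fun i j l => φ (T i j l)

section map

variable {R S : Type*} [CommRing R] [CommRing S] (φ : R →+* S) {d : ℕ} (T : Tn R d)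

theorem map_f (x : Fin d → R) :
    (cb (T.map φ)).f (fun i => φ (x i)) = φ ((cb T).f x) := by
  simp only [cb, Tn.map, map_sum, map_mul]

theorem map_D (x y : Fin d → R) :
    (cb (T.map φ)).D (fun i => φ (x i)) (fun i => φ (y i)) = φ ((cb T).D x y) := by
  simp only [cb, Tn.map, map_sum, map_mul, map_add]

theorem map_E (x y z : Fin d → R) :
    (cb (T.map φ)).E (fun i => φ (x i)) (fun i => φ (y i)) (fun i => φ (z i)) =
      φ ((cb T).E x y z) := by
  simp only [cb, Tn.map, map_sum, map_mul, map_add]

end map

namespace Cb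

variable {R V : Type*} [CommRing R] [AddCommGroup V] [Module R V] (c : Cb R V)

/-- A multiple of a cubic form. -/
def scale (a : R) : Cb R V where
  f x := a * c.f x
  D x y := a * c.D x y
  E x y z := a * c.E x y z
  f_add x y := by rw [c.f_add]; ring
  f_smul b x := by rw [c.f_smul]; ring
  D_add x y z := by rw [c.D_add]; ring
  D_smul x b y := by rw [c.D_smul]; ring
  add_D x y z := by rw [c.add_D]; ring
  smul_D b x y := by rw [c.smul_D]; ring
  E_comm x y z := by rw [c.E_comm]
  E_comm' x y z := by rw [c.E_comm']
  E_add x y z w := by rw [c.E_add]; ring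
  E_smul x y b z := by rw [c.E_smul]; ring
  D_self x := by rw [c.D_self]; ring
  E_self x y := by rw [c.E_self]; ring

@[simp] theorem f_zero : c.f 0 = 0 := by
  have := c.f_smul 0 0
  simpa using this

@[simp] theorem D_zero (x : V) : c.D x 0 = 0 := by
  have := c.D_smul x 0 0
  simpa using this

@[simp] theorem zero_D (x : V) : c.D 0 x = 0 := by
  have := c.smul_D 0 0 x
  simpa using this

@[simp] theorem E_zero (x y : V) : c.E x y 0 = 0 := by
  have := c.E_smul x y 0 0
  simpa using this

theorem E_add1 (x y z w : V) : c.E (x + y) z w = c.E x z w + c.E y z w := by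
  rw [c.E_comm (x + y), c.E_comm', c.E_add, c.E_comm' z w x, c.E_comm z x w, c.E_comm' z w y,
    c.E_comm z y w]

theorem E_add2 (x y z w : V) : c.E x (y + z) w = c.E x y w + c.E x z w := by
  rw [c.E_comm', c.E_add, c.E_comm' x w y, c.E_comm' x w z]

theorem E_smul1 (a : R) (x y z : V) : c.E (a • x) y z = a * c.E x y z := by
  rw [c.E_comm (a • x), c.E_comm', c.E_smul, c.E_comm' y z x, c.E_comm y x z]

theorem E_smul2 (a : R) (x y z : V) : c.E x (a • y) z = a * c.E x y z := by
  rw [c.E_comm', c.E_smul, c.E_comm' x z y]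

/-- The derivative at `x` as a linear form. -/
def Dl (x : V) : V →ₗ[R] R where
  toFun := c.D x
  map_add' := c.D_add x
  map_smul' a y := by rw [c.D_smul]; rfl

/-- `E x y` as a linear form. -/
def El (x y : V) : V →ₗ[R] R where
  toFun := c.E x y
  map_add' := c.E_add x y
  map_smul' a z := by rw [c.E_smul]; rfl

@[simp] theorem Dl_apply (x y : V) : c.Dl x y = c.D x y := rfl

@[simp] theorem El_apply (x y z : V) : c.El x y z = c.E x y z := rfl

theorem D_neg (x y : V) : c.D x (-y) = - c.D x y := map_neg (c.Dl x) y

theorem D_sub (x y z : V) : c.D x (y - z) = c.D x y - c.D x z := map_sub (c.Dl x) y z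

theorem neg_D (x y : V) : c.D (-x) y = c.D x y := by
  have := c.smul_D (-1) x y
  simpa using this

theorem f_neg (x : V) : c.f (-x) = - c.f x := by
  have := c.f_smul (-1) x
  simpa [pow_succ] using this

end Cb

section ex

variable {k : Type*} [Field k] {n : ℕ} (T : Tn k n)

/-- The form over a `k`-algebra. -/
def ex (R : Type*) [CommRing R] [Algebra k R] : Cb R (Fin n → R) := cb (T.map (algebraMap k R))

/-- Image of a vector. -/
def up {M : Type*} (L : Type*) [CommRing M] [CommRing L] [Algebra M L] (A : Fin n → M) :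
    Fin n → L := fun i => algebraMap M L (A i)

variable {M L : Type*} [CommRing M] [CommRing L] [Algebra k M] [Algebra k L] [Algebra M L]
  [IsScalarTower k M L]

theorem ex_f (x : Fin n → M) : (ex T L).f (up L x) = algebraMap M L ((ex T M).f x) := by
  have h := map_f (algebraMap M L) (T.map (algebraMap k M)) x
  have h2 : (T.map (algebraMap k M)).map (algebraMap M L) = T.map (algebraMap k L) := by
    funext i j l
    exact (IsScalarTower.algebraMap_apply k M L (T i j l)).symm
  rw [h2] at h
  exact h

theorem ex_D (x y : Fin n → M) :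
    (ex T L).D (up L x) (up L y) = algebraMap M L ((ex T M).D x y) := by
  have h := map_D (algebraMap M L) (T.map (algebraMap k M)) x y
  have h2 : (T.map (algebraMap k M)).map (algebraMap M L) = T.map (algebraMap k L) := by
    funext i j l
    exact (IsScalarTower.algebraMap_apply k M L (T i j l)).symm
  rw [h2] at h
  exact h

theorem ex_E (x y z : Fin n → M) :
    (ex T L).E (up L x) (up L y) (up L z) = algebraMap M L ((ex T M).E x y z) := by
  have h := map_E (algebraMap M L) (T.map (algebraMap k M)) x y z
  have h2 : (T.map (algebraMap k M)).map (algebraMap M L) = T.map (algebraMap k L) := by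
    funext i j l
    exact (IsScalarTower.algebraMap_apply k M L (T i j l)).symm
  rw [h2] at h
  exact h

end ex

/-- The fibre of `g` over `a`. -/
noncomputable def fib {M : Type*} [Field M] (a : M) (g : M[X][X]) : M[X] :=
  g.map (evalRingHom a)

/-- The formal properties of the classes `cl M A ∈ G` of the points `A` of a cubic hypersurface over
the finite extensions `M` of `k`, and of the classes `sec M h ψ` of the images of the zeros of
`h ∈ M[Y]` under `ψ ∈ M[Y]^n`. -/
structure Th (k : Type u) [Field k] {n : ℕ} (T : Tn k n) (G : Type u) [AddCommGroup G] where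
  /-- the class of a point -/
  cl : ∀ (M : Type u) [Field M] [Algebra k M] [FiniteDimensional k M], (Fin n → M) → G
  /-- the class of the image of the zeros of a polynomial -/
  sec : ∀ (M : Type u) [Field M] [Algebra k M] [FiniteDimensional k M], M[X] → (Fin n → M[X]) → G
  smul : ∀ (M : Type u) [Field M] [Algebra k M] [FiniteDimensional k M] (a : M) (A : Fin n → M),
    a ≠ 0 → cl M (a • A) = cl M A
  ext : ∀ (M L : Type u) [Field M] [Field L] [Algebra k M] [Algebra k L] [Algebra M L]
    [IsScalarTower k M L] [FiniteDimensional k M] [FiniteDimensional k L] (A : Fin n → M),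
    cl L (up L A) = Module.finrank M L • cl M A
  curve : ∀ (M : Type u) [Field M] [Algebra k M] [FiniteDimensional k M] (N : ℕ)
    (c : ℕ → Fin n → M), c 0 ≠ 0 → c N ≠ 0 →
    (∀ s : M, (ex T M).f (∑ a ∈ range (N + 1), s ^ a • c a) = 0) → cl M (c 0) = cl M (c N)
  sec_lin : ∀ (M : Type u) [Field M] [Algebra k M] [FiniteDimensional k M] (a : M)
    (ψ : Fin n → M[X]), sec M (X - C a) ψ = cl M (fun j => (ψ j).eval a)
  sec_mul : ∀ (M : Type u) [Field M] [Algebra k M] [FiniteDimensional k M] (h₁ h₂ : M[X])
    (ψ : Fin n → M[X]), h₁.Monic → h₂.Monic → IsCoprime h₁ h₂ →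
    sec M (h₁ * h₂) ψ = sec M h₁ ψ + sec M h₂ ψ
  sec_irr : ∀ (M L : Type u) [Field M] [Field L] [Algebra k M] [Algebra k L] [Algebra M L]
    [IsScalarTower k M L] [FiniteDimensional k M] [FiniteDimensional k L] (h : M[X])
    (ψ : Fin n → M[X]) (θ : L), h.Monic → Irreducible h → aeval θ h = 0 →
    Module.finrank M L = h.natDegree → sec M h ψ = cl L (fun j => aeval θ (ψ j))
  sec_congr : ∀ (M : Type u) [Field M] [Algebra k M] [FiniteDimensional k M] (h : M[X])
    (ψ ψ' : Fin n → M[X]), h.Monic → (∀ (L : Type u) [Field L] [Algebra M L] (η : L),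
      aeval η h = 0 → ∃ a : L, a ≠ 0 ∧ ∀ j, aeval η (ψ j) = a * aeval η (ψ' j)) →
    sec M h ψ = sec M h ψ'
  fam : ∀ (M : Type u) [Field M] [Algebra k M] [FiniteDimensional k M] (g : M[X][X])
    (ψ : Fin n → M[X][X]), g.Monic → Irreducible (fib 1 g) → (fib 0 g).Separable →
    g ∣ (ex T M[X][X]).f ψ →
    (∀ a : M, a = 0 ∨ a = 1 → ∀ (L : Type u) [Field L] [Algebra M L] (η : L),
      aeval η (fib a g) = 0 → (fun j => aeval η (fib a (ψ j))) ≠ 0) →
    sec M (fib 0 g) (fun j => fib 0 (ψ j)) = sec M (fib 1 g) (fun j => fib 1 (ψ j))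

/-- The hypersurface is smooth: the derivative at `x ≠ 0` is not zero. -/
def Sm {k : Type u} [Field k] {n : ℕ} (T : Tn k n) : Prop :=
  ∀ (M : Type u) [Field M] [Algebra k M] [FiniteDimensional k M] (x : Fin n → M), x ≠ 0 →
    ∃ y, (ex T M).D x y ≠ 0

/-- `x ∈ π^k O`. -/
def Vg {O K : Type*} [CommRing O] [Field K] [Algebra O K] (π : O) (k : ℤ) (x : K) : Prop :=
  ∃ a : O, x = algebraMap O K π ^ k * algebraMap O K a

/-- `f` has no zero on `W`. -/
def An {K V : Type*} [Field K] [AddCommGroup V] [Module K V] (c : Cb K V) (W : Submodule K V) :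
    Prop := ∀ w ∈ W, c.f w = 0 → w = 0

section unr

open Pool.Agent.Lib.MP_f80667_ag.LF IsLocalRing

variable (k : Type u) [NontriviallyNormedField k] [IsUltrametricDist k] [ProperSpace k]
  (M L : Type u) [Field M] [Field L] [Algebra k M] [Algebra k L] [Algebra M L]
  [IsScalarTower k M L] [FiniteDimensional k M] [FiniteDimensional k L]

/-- The map of rings of integers. -/
noncomputable def oMap : O k M →+* O k L := mapO k (IsScalarTower.toAlgHom k M L)

instance : IsLocalHom (oMap k M L) :=
  inferInstanceAs (IsLocalHom (mapO k (IsScalarTower.toAlgHom k M L)))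

/-- The map of residue fields. -/
noncomputable def rMap : ResidueField (O k M) →+* ResidueField (O k L) :=
  ResidueField.map (oMap k M L)

/-- `L / M` is unramified of degree `d`. -/
structure Unr (d : ℕ) : Prop where
  deg : Module.finrank M L = d
  unif : ∀ π : O k M, Irreducible π → Irreducible (oMap k M L π)
  card : Nat.card (ResidueField (O k L)) = Nat.card (ResidueField (O k M)) ^ d

end unr

end Cu
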