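import Pool.Agent.Lib.MP_f80667_ag.ZC.Rel
import Pool.Agent.Lib.MP_f80667_ag.Cu.Defs

/-! The field of functions of a monic irreducible `g ∈ M[λ][Y]` and its places over simple zeros of
`g(a, Y)`. -/

open Polynomial
open scoped LinearAlgebra.Projectivization

namespace Cu

open ZC

universe u

variable {k M E Ω : Type u} [Field k] [Field M] [Field E] [Field Ω] [Algebra k E] [Algebra k Ω]
  [Algebra k M] [Algebra M E] [IsScalarTower k M E]

/-- `E` is the field of fractions of `M[λ][Y] / (g)`; `φ` is the map `M[λ][Y] → E`. -/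
structure FF (g : M[X][X]) (φ : M[X][X] →+* E) : Prop where
  ker : ∀ p, φ p = 0 ↔ g ∣ p
  frac : ∀ x : E, ∃ (p : M[X][X]) (q : M[X]), q ≠ 0 ∧ x * φ (C q) = φ p
  base : ∀ c : M, φ (C (C c)) = algebraMap M E c

/-- Evaluation at `(a, η)`. -/
noncomputable def ev (ι : M →+* Ω) (a : M) (η : Ω) : M[X][X] →+* Ω :=
  (eval₂RingHom ι η).comp (mapRingHom (evalRingHom a))

theorem ev_apply (ι : M →+* Ω) (a : M) (η : Ω) (p : M[X][X]) :
    ev ι a η p = (fib a p).eval₂ ι η := rfl

end Cu
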