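import Pool.Agent.Lib.MP_f80667_ag.Cu.CycA

open Polynomial

namespace Cu

open ZC

universe u

/-- A finite extension of a function field of one variable is a function field of one variable. -/
theorem isFunField_ext {k F E : Type u} [Field k] [Field F] [Field E] [Algebra k F] [Algebra k E]
    [Algebra F E] [IsScalarTower k F E] [FiniteDimensional F E] (h : IsFunField k F) :
    IsFunField k E := by
  obtain ⟨t, ht, hfin⟩ := h
  let φ : F →ₐ[k] E := IsScalarTower.toAlgHom k F E
  refine ⟨φ t, ?_, ?_⟩
  · intro h
    apply ht
    exact (isAlgebraic_algHom_iff φ φ.injective).1 h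
  · have hmem : ∀ a : IntermediateField.adjoin k {t}, φ a ∈ IntermediateField.adjoin k {φ t} := by
      intro a
      have h1 : φ a ∈ (IntermediateField.adjoin k {t}).map φ := ⟨a, a.2, rfl⟩
      rwa [IntermediateField.adjoin_map, Set.image_singleton] at h1
    have hf : FiniteDimensional (IntermediateField.adjoin k {t}) E :=
      FiniteDimensional.trans _ F E
    obtain ⟨s, hs⟩ := Module.finite_def.1 hf
    refine Module.finite_def.2 ⟨s, ?_⟩
    rw [eq_top_iff]
    intro x _
    have hx : x ∈ Submodule.span (IntermediateField.adjoin k {t}) (s : Set E) := by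
      rw [hs]
      trivial
    induction hx using Submodule.span_induction with
    | mem x hx => exact Submodule.subset_span hx
    | zero => exact Submodule.zero_mem _
    | add x y _ _ hx hy => exact Submodule.add_mem _ (hx trivial) (hy trivial)
    | smul a x _ hx =>
      have h1 : a • x = (⟨φ a, hmem a⟩ : IntermediateField.adjoin k {φ t}) • x := by
        rw [IntermediateField.smul_def, Algebra.smul_def]
        rfl
      rw [h1]
      exact Submodule.smul_mem _ _ (hx trivial)

variable {k M : Type u} [Field k] [Field M] [Algebra k M]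

/-- Take `E = AdjoinRoot (g.map (algebraMap M[X] (RatFunc M)))` (irreducible by
`Polynomial.Monic.irreducible_iff_irreducible_map_fraction_map`), finite over `RatFunc M`, which is
finite over `k(X)` (`isFunField_ratFunc`). `φ` is `eval₂` of `M[X] → RatFunc M → E` at the root. -/
theorem exists_ff [FiniteDimensional k M] (g : M[X][X]) (hg : g.Monic) (hirr : Irreducible g) :
    ∃ (E : Type u) (_ : Field E) (_ : Algebra k E) (_ : Algebra M E) (_ : IsScalarTower k M E)
      (φ : M[X][X] →+* E), IsFunField k E ∧ FF (M := M) (E := E) g φ := by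
  have hK : Irreducible (g.map (algebraMap M[X] (RatFunc M))) :=
    (Polynomial.Monic.irreducible_iff_irreducible_map_fraction_map hg).1 hirr
  have hKm : (g.map (algebraMap M[X] (RatFunc M))).Monic := hg.map _
  generalize hG : g.map (algebraMap M[X] (RatFunc M)) = G at hK hKm
  have : Fact (Irreducible G) := ⟨hK⟩
  have hfin : FiniteDimensional (RatFunc M) (AdjoinRoot G) :=
    (AdjoinRoot.powerBasis hKm.ne_zero).finite
  refine ⟨AdjoinRoot G, inferInstance, inferInstance, inferInstance, inferInstance,
    (AdjoinRoot.mk G).comp (mapRingHom (algebraMap M[X] (RatFunc M))),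
    isFunField_ext (F := RatFunc M) (isFunField_ratFunc k M), ?_, ?_, ?_⟩
  · intro p
    rw [RingHom.comp_apply, AdjoinRoot.mk_eq_zero, coe_mapRingHom, ← hG]
    exact Polynomial.map_dvd_map _ (IsFractionRing.injective M[X] (RatFunc M)) hg
  · intro x
    obtain ⟨P, rfl⟩ := AdjoinRoot.mk_surjective x
    obtain ⟨b, hb⟩ := IsLocalization.integerNormalization_map_to_map (nonZeroDivisors M[X]) P
    refine ⟨IsLocalization.integerNormalization (nonZeroDivisors M[X]) P, b,
      nonZeroDivisors.ne_zero b.2, ?_⟩
    rw [RingHom.comp_apply, RingHom.comp_apply, coe_mapRingHom, hb, map_C, ← map_mul]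
    congr 1
    rw [Algebra.smul_def, mul_comm]
    rfl
  · intro c
    rw [RingHom.comp_apply, coe_mapRingHom, map_C,
      show (C c : M[X]) = algebraMap M M[X] c from rfl, ← IsScalarTower.algebraMap_apply,
      AdjoinRoot.mk_C]
    rfl

end Cu
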