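import Pool.Agent.Lib.MP_f80667_ag.Cu.CycA

open Polynomial

namespace Cu

open ZC

universe u

variable {k M E Ω : Type u} [Field k] [Field M] [Field E] [Field Ω] [Algebra k E] [Algebra k Ω]
  [Algebra k M] [Algebra M E] [IsScalarTower k M E] {g : M[X][X]} {φ : M[X][X] →+* E}

/-- The kernel of the restriction to `λ = a`. -/
theorem dvd_of_fib {M : Type u} [Field M] (a : M) {q : M[X][X]}
    (h : q.map (evalRingHom a) = 0) : C (X - C a) ∣ q := by
  rw [C_dvd_iff_dvd_coeff]
  intro i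
  rw [dvd_iff_isRoot, IsRoot.def]
  have h1 := congrArg (fun p => p.coeff i) h
  simpa [coeff_map] using h1

/-- If `ev p = 0` there is `r` with `ev r ≠ 0` and `(λ - a)` divides `r p` modulo `g`.
Proof: let `h` be the greatest common divisor of `g(a, Y)` and `p(a, Y)`, `g(a, Y) = h r₀` with
`r₀(η) ≠ 0` (simple zero), `p(a, Y) = h s`. Take `r = C`-lift of `r₀` (coefficients constant in `λ`):
`r p - s g` vanishes at `λ = a`. -/
theorem FF.step (ι : M →+* Ω) (a : M) (η : Ω)
    (h1 : ev ι a η g = 0) (h2 : (derivative (fib a g)).eval₂ ι η ≠ 0) (p : M[X][X])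
    (hp : ev ι a η p = 0) :
    ∃ r c s : M[X][X], ev ι a η r ≠ 0 ∧ r * p = C (X - C a) * c + g * s := by
  classical
  rw [ev_apply] at h1 hp
  obtain ⟨r₀, hr⟩ := EuclideanDomain.gcd_dvd_left (fib a g) (fib a p)
  obtain ⟨s₀, hs⟩ := EuclideanDomain.gcd_dvd_right (fib a g) (fib a p)
  have hb := EuclideanDomain.gcd_eq_gcd_ab (fib a g) (fib a p)
  generalize EuclideanDomain.gcd (fib a g) (fib a p) = h at hr hs hb
  have hh : h.eval₂ ι η = 0 := by
    rw [hb, eval₂_add, eval₂_mul, eval₂_mul, h1, hp]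
    ring
  have hr0 : r₀.eval₂ ι η ≠ 0 := by
    intro h0
    apply h2
    rw [hr, derivative_mul, eval₂_add, eval₂_mul, eval₂_mul, hh, h0]
    ring
  have hf : ∀ q : M[X], (q.map (C : M →+* M[X])).map (evalRingHom a) = q := by
    intro q
    rw [Polynomial.map_map]
    have : (evalRingHom a).comp (C : M →+* M[X]) = RingHom.id M := by
      ext x
      simp
    rw [this, Polynomial.map_id]
  have hd : C (X - C a) ∣ r₀.map (C : M →+* M[X]) * p - g * s₀.map (C : M →+* M[X]) := by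
    apply dvd_of_fib
    rw [Polynomial.map_sub, Polynomial.map_mul, Polynomial.map_mul, hf, hf]
    have e1 : g.map (evalRingHom a) = h * r₀ := hr
    have e2 : p.map (evalRingHom a) = h * s₀ := hs
    rw [e1, e2]
    ring
  obtain ⟨c, hc⟩ := hd
  refine ⟨r₀.map C, c, s₀.map C, ?_, ?_⟩
  · rw [ev_apply]
    have : fib a (r₀.map (C : M →+* M[X])) = r₀ := hf r₀
    rw [this]
    exact hr0
  · rw [← hc]
    ring

/-- Proof: by `FF.step` repeatedly `φ (s_j) φ (p) = (λ - a)^j φ (c_j)` with `ev s_j ≠ 0`; it stops: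
`φ (p)⁻¹ = φ (u) / φ (C N)` with `N ∈ M[λ]`, `N = (λ - a)^e N'`, `N'(a) ≠ 0`, so
`s_j N' (λ - a)^e ≡ (λ - a)^j c_j u` mod `g` and `j > e` gives `ev (s_j N') = 0`. -/
theorem FF.ord (H : FF (M := M) (E := E) g φ) (ι : M →+* Ω) (a : M) (η : Ω)
    (h1 : ev ι a η g = 0) (h2 : (derivative (fib a g)).eval₂ ι η ≠ 0) (p : M[X][X])
    (hp : φ p ≠ 0) :
    ∃ (m : ℕ) (s c : M[X][X]), ev ι a η s ≠ 0 ∧ ev ι a η c ≠ 0 ∧
      φ s * φ p = φ (C (X - C a)) ^ m * φ c := by
  by_contra hcon
  push Not at hcon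
  have hg0 : φ g = 0 := (H.ker g).2 dvd_rfl
  have key : ∀ j : ℕ, ∃ s c : M[X][X], ev ι a η s ≠ 0 ∧
      φ s * φ p = φ (C (X - C a)) ^ j * φ c := by
    intro j
    induction j with
    | zero => exact ⟨1, p, by rw [map_one]; exact one_ne_zero, by rw [map_one, pow_zero]⟩
    | succ j ih =>
      obtain ⟨s, c, hs, he⟩ := ih
      have hc : ev ι a η c = 0 := by
        by_contra hc
        exact hcon j s c hs hc he
      obtain ⟨r, c', s', hr, hrc⟩ := FF.step (g := g) ι a η h1 h2 c hc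
      refine ⟨r * s, c', ?_, ?_⟩
      · rw [map_mul]
        exact mul_ne_zero hr hs
      · have e1 : φ r * φ c = φ (C (X - C a)) * φ c' := by
          rw [← map_mul, hrc, map_add, map_mul, map_mul, hg0]
          ring
        calc φ (r * s) * φ p = φ r * (φ s * φ p) := by rw [map_mul]; ring
          _ = φ (C (X - C a)) ^ j * (φ r * φ c) := by rw [he]; ring
          _ = φ (C (X - C a)) ^ (j + 1) * φ c' := by rw [e1]; ring
  have hl : φ (C (X - C a)) ≠ 0 := by
    intro h0
    obtain ⟨t, ht⟩ := (H.ker _).1 h0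
    have hne : (C (X - C a) : M[X][X]) ≠ 0 := by
      rw [Ne, C_eq_zero]
      exact X_sub_C_ne_zero a
    have hgt : g ≠ 0 ∧ t ≠ 0 := by
      rw [ht] at hne
      exact mul_ne_zero_iff.1 hne
    have hd := congrArg natDegree ht
    rw [natDegree_C, natDegree_mul hgt.1 hgt.2] at hd
    have hg' : g.natDegree = 0 := by omega
    apply h2
    have : fib a g = C ((g.coeff 0).eval a) := by
      rw [eq_C_of_natDegree_eq_zero hg', fib]
      simp
    rw [this, derivative_C, eval₂_zero]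
  obtain ⟨u, q, hq, hu⟩ := H.frac ((φ p)⁻¹)
  have hu' : φ (C q) = φ p * φ u := by
    rw [← hu]
    field_simp
  obtain ⟨q', hq', hnd⟩ := exists_eq_pow_rootMultiplicity_mul_and_not_dvd q hq a
  generalize q.rootMultiplicity a = e at hq'
  obtain ⟨s, c, hs, he⟩ := key (e + 1)
  have e2 : φ (C (X - C a)) ^ e * φ (s * C q' - C (X - C a) * (c * u)) = 0 := by
    have e3 : φ s * φ (C q) = φ (C (X - C a)) ^ (e + 1) * (φ c * φ u) := by
      rw [hu', ← mul_assoc, he]
      ring
    have e4 : φ (C q) = φ (C (X - C a)) ^ e * φ (C q') := by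
      conv_lhs => rw [hq']
      rw [C_mul, C_pow, map_mul, map_pow]
    rw [e4] at e3
    generalize (C (X - C a) : M[X][X]) = L at e3 ⊢
    rw [map_sub, map_mul, map_mul, map_mul]
    linear_combination e3
  have e5 : φ (s * C q' - C (X - C a) * (c * u)) = 0 :=
    (mul_eq_zero.1 e2).resolve_left (pow_ne_zero _ hl)
  obtain ⟨t, ht⟩ := (H.ker _).1 e5
  have e6 := congrArg (ev ι a η) ht
  have e7 : ev ι a η (C (X - C a)) = 0 := by
    simp [ev]
  have e8 : ev ι a η (C q') = ι (q'.eval a) := by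
    simp [ev]
  rw [map_sub, map_mul, map_mul, map_mul, map_mul, h1, e7, e8, zero_mul, zero_mul, sub_zero] at e6
  rcases mul_eq_zero.1 e6 with h | h
  · exact hs h
  · apply hnd
    rw [dvd_iff_isRoot, IsRoot.def]
    exact ι.injective (h.trans (map_zero ι).symm)

end Cu
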