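import Pool.Agent.Lib.MP_f80667_ag.Cu.CycC

open Polynomial

namespace Cu

open ZC

universe u

variable {k M E Ω : Type u} [Field k] [Field M] [Field E] [Field Ω] [Algebra k E] [Algebra k Ω]
  [Algebra k M] [Algebra M E] [IsScalarTower k M E] {g : M[X][X]} {φ : M[X][X] →+* E}

section cyD

private theorem cyD_lin (ι : M →+* Ω) (a : M) (η : Ω) : ev ι a η (C (X - C a)) = 0 := by
  simp [ev]

private theorem cyD_CC (ι : M →+* Ω) (a : M) (η : Ω) (c : M) : ev ι a η (C (C c)) = ι c := by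
  simp [ev]

private theorem cyD_ne (H : FF (M := M) (E := E) g φ) (ι : M →+* Ω) (a : M) (η : Ω)
    (h1 : ev ι a η g = 0) {s : M[X][X]} (hs : ev ι a η s ≠ 0) : φ s ≠ 0 := by
  intro h
  obtain ⟨q, rfl⟩ := (H.ker s).1 h
  apply hs
  rw [map_mul, h1, zero_mul]

private theorem cyD_eq (H : FF (M := M) (E := E) g φ) (ι : M →+* Ω) (a : M) (η : Ω)
    (h1 : ev ι a η g = 0) {p q : M[X][X]} (h : φ p = φ q) : ev ι a η p = ev ι a η q := by
  have h2 : φ (p - q) = 0 := by rw [map_sub, h, sub_self]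
  obtain ⟨r, hr⟩ := (H.ker _).1 h2
  have h3 : ev ι a η (p - q) = 0 := by rw [hr, map_mul, h1, zero_mul]
  rw [map_sub] at h3
  exact sub_eq_zero.1 h3

private theorem cyD_C (H : FF (M := M) (E := E) g φ) (ι : M →+* Ω) (a : M) (η : Ω)
    (h2 : (derivative (fib a g)).eval₂ ι η ≠ 0) {q : M[X]} (hq : q ≠ 0) : φ (C q) ≠ 0 := by
  intro h
  obtain ⟨r, hr⟩ := (H.ker _).1 h
  have hd : g.natDegree = 0 := by
    have h3 : g * r ≠ 0 := by
      rw [← hr]
      simpa using hq
    have h4 := natDegree_mul (left_ne_zero_of_mul h3) (right_ne_zero_of_mul h3)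
    rw [← hr, natDegree_C] at h4
    omega
  apply h2
  rw [eq_C_of_natDegree_eq_zero hd]
  simp [fib]

private theorem cyD_L (H : FF (M := M) (E := E) g φ) (ι : M →+* Ω) (a : M) (η : Ω)
    (h2 : (derivative (fib a g)).eval₂ ι η ≠ 0) : φ (C (X - C a)) ≠ 0 :=
  cyD_C H ι a η h2 (X_sub_C_ne_zero a)

/-- Every `x ≠ 0` is a unit times a power of `λ - a`. -/
private theorem cyD_form (H : FF (M := M) (E := E) g φ) (ι : M →+* Ω) (a : M) (η : Ω)
    (h1 : ev ι a η g = 0) (h2 : (derivative (fib a g)).eval₂ ι η ≠ 0) {x : E} (hx : x ≠ 0) :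
    ∃ (j : ℕ) (b s : M[X][X]), ev ι a η b ≠ 0 ∧ ev ι a η s ≠ 0 ∧
      (x * φ s = φ (C (X - C a)) ^ j * φ b ∨ x * φ (C (X - C a)) ^ j * φ s = φ b) := by
  obtain ⟨p, q, hq, hpq⟩ := H.frac x
  have hq' := cyD_C H ι a η h2 hq
  have hp' : φ p ≠ 0 := by
    rw [← hpq]
    exact mul_ne_zero hx hq'
  obtain ⟨m, s, c, hs, hc, e1⟩ := H.ord ι a η h1 h2 p hp'
  obtain ⟨m', s', c', hs', hc', e2⟩ := H.ord ι a η h1 h2 (C q) hq'
  have hL := cyD_L H ι a η h2
  have hφs := cyD_ne H ι a η h1 hs
  have hφs' := cyD_ne H ι a η h1 hs'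
  set L := φ (C (X - C a)) with hLdef
  have key : L ^ m' * (x * φ (s * c')) = L ^ m * φ (c * s') := by
    rw [map_mul, map_mul]
    calc L ^ m' * (x * (φ s * φ c')) = x * φ s * (L ^ m' * φ c') := by ring
      _ = x * φ s * (φ s' * φ (C q)) := by rw [e2]
      _ = φ s * φ s' * (x * φ (C q)) := by ring
      _ = φ s' * (φ s * φ p) := by rw [hpq]; ring
      _ = L ^ m * (φ c * φ s') := by rw [e1]; ring
  rcases le_total m' m with hm | hm
  · refine ⟨m - m', c * s', s * c', ?_, ?_, Or.inl ?_⟩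
    · rw [map_mul]; exact mul_ne_zero hc hs'
    · rw [map_mul]; exact mul_ne_zero hs hc'
    · apply mul_left_cancel₀ (pow_ne_zero m' hL)
      rw [key, ← mul_assoc, ← pow_add]
      congr 3
      omega
  · refine ⟨m' - m, c * s', s * c', ?_, ?_, Or.inr ?_⟩
    · rw [map_mul]; exact mul_ne_zero hc hs'
    · rw [map_mul]; exact mul_ne_zero hs hc'
    · apply mul_left_cancel₀ (pow_ne_zero m hL)
      rw [← key]
      have : m' = m + (m' - m) := by omega
      conv_rhs => rw [this, pow_add]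
      ring

/-- The local ring of the point. -/
private noncomputable def cyD_V (H : FF (M := M) (E := E) g φ) (ι : M →+* Ω) (a : M) (η : Ω)
    (h1 : ev ι a η g = 0) (h2 : (derivative (fib a g)).eval₂ ι η ≠ 0) : ValuationSubring E where
  carrier := {x | ∃ b s : M[X][X], ev ι a η s ≠ 0 ∧ x * φ s = φ b}
  mul_mem' := by
    rintro x y ⟨b, s, hs, e1⟩ ⟨c, t, ht, e2⟩
    refine ⟨b * c, s * t, ?_, ?_⟩
    · rw [map_mul]; exact mul_ne_zero hs ht
    · rw [map_mul, map_mul, ← e1, ← e2]; ring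
  one_mem' := ⟨1, 1, by rw [map_one]; exact one_ne_zero, by rw [map_one, mul_one]⟩
  add_mem' := by
    rintro x y ⟨b, s, hs, e1⟩ ⟨c, t, ht, e2⟩
    refine ⟨b * t + c * s, s * t, ?_, ?_⟩
    · rw [map_mul]; exact mul_ne_zero hs ht
    · rw [map_mul, map_add, map_mul, map_mul, ← e1, ← e2]; ring
  zero_mem' := ⟨0, 1, by rw [map_one]; exact one_ne_zero, by rw [map_zero, zero_mul]⟩
  neg_mem' := by
    rintro x ⟨b, s, hs, e1⟩
    exact ⟨-b, s, hs, by rw [map_neg, ← e1, neg_mul]⟩
  mem_or_inv_mem' := by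
    intro x
    by_cases hx : x = 0
    · left
      rw [hx]
      exact ⟨0, 1, by rw [map_one]; exact one_ne_zero, by rw [map_zero, zero_mul]⟩
    · obtain ⟨j, b, s, hb, hs, h | h⟩ := cyD_form H ι a η h1 h2 hx
      · left
        exact ⟨C (X - C a) ^ j * b, s, hs, by rw [h, map_mul, map_pow]⟩
      · right
        refine ⟨C (X - C a) ^ j * s, b, hb, ?_⟩
        rw [← h, map_mul, map_pow]
        field_simp

private theorem cyD_mem (H : FF (M := M) (E := E) g φ) (ι : M →+* Ω) (a : M) (η : Ω)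
    (h1 : ev ι a η g = 0) (h2 : (derivative (fib a g)).eval₂ ι η ≠ 0) (x : E) :
    x ∈ cyD_V H ι a η h1 h2 ↔ ∃ b s : M[X][X], ev ι a η s ≠ 0 ∧ x * φ s = φ b := Iff.rfl

private theorem cyD_nu (H : FF (M := M) (E := E) g φ) (ι : M →+* Ω) (a : M) (η : Ω)
    (h1 : ev ι a η g = 0) (h2 : (derivative (fib a g)).eval₂ ι η ≠ 0) (x : E) :
    x ∈ (cyD_V H ι a η h1 h2).nonunits ↔
      x / φ (C (X - C a)) ∈ cyD_V H ι a η h1 h2 := by
  have hL := cyD_L H ι a η h2
  have hLV : φ (C (X - C a)) ∈ cyD_V H ι a η h1 h2 :=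
    ⟨C (X - C a), 1, by rw [map_one]; exact one_ne_zero, by rw [map_one, mul_one]⟩
  have hLi : (φ (C (X - C a)))⁻¹ ∉ cyD_V H ι a η h1 h2 := by
    rintro ⟨b, s, hs, e1⟩
    apply hs
    have h3 : φ s = φ (C (X - C a) * b) := by
      rw [map_mul, ← e1]
      field_simp
    rw [cyD_eq H ι a η h1 h3, map_mul, cyD_lin, zero_mul]
  have hnu : ∀ y : E, y ∈ (cyD_V H ι a η h1 h2).nonunits ↔
      y = 0 ∨ y⁻¹ ∉ cyD_V H ι a η h1 h2 := by
    intro y
    rw [ValuationSubring.mem_nonunits_iff, ← (cyD_V H ι a η h1 h2).valuation_le_one_iff, map_inv₀]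
    by_cases hy : y = 0
    · simp [hy]
    · have hv : (cyD_V H ι a η h1 h2).valuation y ≠ 0 := (Valuation.ne_zero_iff _).2 hy
      rw [not_le, one_lt_inv₀ (zero_lt_iff.2 hv)]
      simp [hy]
  rw [hnu]
  constructor
  · rintro (hx | hx)
    · rw [hx, zero_div]
      exact zero_mem _
    · by_cases hx0 : x = 0
      · rw [hx0, zero_div]
        exact zero_mem _
      · obtain ⟨j, b, s, hb, hs, h | h⟩ := cyD_form H ι a η h1 h2 hx0
        · rcases j with _ | j
          · exfalso
            apply hx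
            refine ⟨s, b, hb, ?_⟩
            rw [pow_zero, one_mul] at h
            rw [← h]
            field_simp
          · refine ⟨C (X - C a) ^ j * b, s, hs, ?_⟩
            rw [map_mul, map_pow, div_mul_eq_mul_div, h, pow_succ]
            field_simp
        · exfalso
          apply hx
          refine ⟨C (X - C a) ^ j * s, b, hb, ?_⟩
          rw [← h, map_mul, map_pow]
          field_simp
  · intro hx
    by_cases hx0 : x = 0
    · exact Or.inl hx0
    · right
      intro hxi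
      apply hLi
      have : (φ (C (X - C a)))⁻¹ = x / φ (C (X - C a)) * x⁻¹ := by
        field_simp
      rw [this]
      exact mul_mem hx hxi

private theorem cyD_wd (H : FF (M := M) (E := E) g φ) (ι : M →+* Ω) (a : M) (η : Ω)
    (h1 : ev ι a η g = 0) {x : E} {b s c t : M[X][X]} (hs : ev ι a η s ≠ 0)
    (ht : ev ι a η t ≠ 0) (e1 : x * φ s = φ b) (e2 : x * φ t = φ c) :
    ev ι a η b / ev ι a η s = ev ι a η c / ev ι a η t := by
  have h3 : φ (b * t) = φ (c * s) := by
    rw [map_mul, map_mul, ← e1, ← e2]; ring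
  have h4 := cyD_eq H ι a η h1 h3
  rw [map_mul, map_mul] at h4
  rw [div_eq_div_iff hs ht]
  exact h4

end cyD

/-- The place over the simple zero `η` of `g(a, Y)`: `V = {x : x φ(s) = φ(b), ev s ≠ 0}` (a valuation
ring by `FF.ord`), the residue of `x` is `ev b / ev s`. -/
theorem FF.exists_place (H : FF (M := M) (E := E) g φ) (ι : M →ₐ[k] Ω) (a : M) (η : Ω)
    (h1 : ev (ι : M →+* Ω) a η g = 0) (h2 : (derivative (fib a g)).eval₂ (ι : M →+* Ω) η ≠ 0) :
    ∃ w : Place k E Ω, (∀ x : E, x ∈ w.V ↔ ∃ b s : M[X][X], ev (ι : M →+* Ω) a η s ≠ 0 ∧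
      x * φ s = φ b) ∧ (∀ x : E, x ∈ w.V.nonunits ↔ x / φ (C (X - C a)) ∈ w.V) ∧
      ∀ (p : M[X][X]) (hp : φ p ∈ w.V), w.res ⟨φ p, hp⟩ = ev (ι : M →+* Ω) a η p := by
  set j : M →+* Ω := (ι : M →+* Ω) with hj
  have hch : ∀ x : cyD_V H j a η h1 h2, ∃ b s : M[X][X], ev j a η s ≠ 0 ∧ (x : E) * φ s = φ b :=
    fun x => x.2
  choose B S hS hBS using hch
  have hr : ∀ (x : cyD_V H j a η h1 h2) (b s : M[X][X]), ev j a η s ≠ 0 → (x : E) * φ s = φ b →
      ev j a η (B x) / ev j a η (S x) = ev j a η b / ev j a η s :=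
    fun x b s hs hbs => cyD_wd H j a η h1 (hS x) hs (hBS x) hbs
  let R : cyD_V H j a η h1 h2 →+* Ω :=
    { toFun := fun x => ev j a η (B x) / ev j a η (S x)
      map_one' := by
        rw [hr 1 1 1 (by rw [map_one]; exact one_ne_zero) (by rw [map_one, mul_one]; rfl)]
        rw [map_one, div_one]
      map_zero' := by
        rw [hr 0 0 1 (by rw [map_one]; exact one_ne_zero)
          (by rw [map_zero, map_one, mul_one]; rfl)]
        rw [map_zero, zero_div]
      map_mul' := by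
        intro x y
        rw [hr (x * y) (B x * B y) (S x * S y)
          (by rw [map_mul]; exact mul_ne_zero (hS x) (hS y))
          (by rw [map_mul, map_mul, ← hBS x, ← hBS y]
              change ((x : E) * (y : E)) * _ = _
              ring)]
        rw [map_mul, map_mul, mul_div_mul_comm]
      map_add' := by
        intro x y
        rw [hr (x + y) (B x * S y + B y * S x) (S x * S y)
          (by rw [map_mul]; exact mul_ne_zero (hS x) (hS y))
          (by rw [map_mul, map_add, map_mul, map_mul, ← hBS x, ← hBS y]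
              change ((x : E) + (y : E)) * _ = _
              ring)]
        have := hS x
        have := hS y
        rw [map_add, map_mul, map_mul, map_mul]
        field_simp }
  have hR : ∀ (x : cyD_V H j a η h1 h2) (b s : M[X][X]), ev j a η s ≠ 0 → (x : E) * φ s = φ b →
      R x = ev j a η b / ev j a η s := hr
  have hmem : ∀ c : k, algebraMap k E c ∈ cyD_V H j a η h1 h2 := by
    intro c
    refine ⟨C (C (algebraMap k M c)), 1, by rw [map_one]; exact one_ne_zero, ?_⟩
    rw [map_one, mul_one, H.base, ← IsScalarTower.algebraMap_apply]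
  refine ⟨{ V := cyD_V H j a η h1 h2
            ne_top := ?_
            mem := hmem
            res := R
            res_k := ?_
            res_zero := ?_ }, ?_, ?_, ?_⟩
  · intro htop
    have h3 : (1 : E) ∈ (cyD_V H j a η h1 h2).nonunits := by
      rw [cyD_nu, htop]
      trivial
    rw [ValuationSubring.mem_nonunits_iff, map_one] at h3
    exact lt_irrefl _ h3
  · intro c
    rw [hR _ (C (C (algebraMap k M c))) 1 (by rw [map_one]; exact one_ne_zero)
      (by rw [map_one, mul_one, H.base, ← IsScalarTower.algebraMap_apply])]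
    rw [map_one, div_one, cyD_CC]
    exact ι.commutes c
  · intro x hx
    have h3 : (x : E) ∈ (cyD_V H j a η h1 h2).nonunits := by
      rw [ValuationSubring.coe_mem_nonunits_iff, IsLocalRing.mem_maximalIdeal]
      exact hx
    rw [cyD_nu] at h3
    obtain ⟨b, s, hs, e1⟩ := h3
    have hL := cyD_L H j a η h2
    rw [hR x (C (X - C a) * b) s hs ?_, map_mul, cyD_lin, zero_mul, zero_div]
    rw [map_mul, ← e1]
    field_simp
  · exact fun x => Iff.rfl
  · exact fun x => cyD_nu H j a η h1 h2 x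
  · intro p hp
    change R ⟨φ p, hp⟩ = _
    rw [hR ⟨φ p, hp⟩ p 1 (by rw [map_one]; exact one_ne_zero) (by rw [map_one, mul_one])]
    rw [map_one, div_one]

end Cu
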