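import Pool.Agent.Lib.MP_f80667_ag.Cu.CycA

open Polynomial

namespace Cu

open ZC

universe u

variable {k M E Ω : Type u} [Field k] [Field M] [Field E] [Field Ω] [Algebra k E] [Algebra k Ω]
  [Algebra k M] [Algebra M E] [IsScalarTower k M E] {g : M[X][X]} {φ : M[X][X] →+* E}

private theorem cyE_mul (w : Place k E Ω) {x y z : E} (hx : x ∈ w.V) (hy : y ∈ w.V)
    (hz : z ∈ w.V) (h : x * y = z) : w.res ⟨x, hx⟩ * w.res ⟨y, hy⟩ = w.res ⟨z, hz⟩ := by
  rw [← map_mul]
  congr 1
  exact Subtype.ext h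

private theorem cyE_inv (w : Place k E Ω) {x : E} (hx : x ∈ w.V) (h : w.res ⟨x, hx⟩ ≠ 0) :
    x⁻¹ ∈ w.V := by
  have h2 : IsUnit (⟨x, hx⟩ : w.V) := by
    by_contra hcon
    exact h (w.res_zero _ hcon)
  obtain ⟨v, hv⟩ := h2.exists_right_inv
  have h3 : x * (v : E) = 1 := by
    have := congrArg (Subtype.val) hv
    simpa using this
  rw [← eq_inv_of_mul_eq_one_right h3]
  exact v.2

/-- A place with `λ - a` in the maximal ideal is finite on the image of `φ` (`Y` is integral:
`g` is monic) and induces the evaluation at a zero of `g(a, Y)`. Use `Place.mem_M`, `Place.emb`. -/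
theorem FF.over [Algebra.IsAlgebraic k M] (H : FF (M := M) (E := E) g φ) (hg : g.Monic)
    (w : Place k E Ω) (a : M) (hw : φ (C (X - C a)) ∈ w.V.nonunits) :
    ∃ (ι : M →ₐ[k] Ω) (η : Ω), ev (ι : M →+* Ω) a η g = 0 ∧
      ∃ h : ∀ p, φ p ∈ w.V, ∀ p, w.res ⟨φ p, h p⟩ = ev (ι : M →+* Ω) a η p := by
  have hla : φ (C (X - C a)) ∈ w.V := w.V.nonunits_le hw
  have hla0 : w.res ⟨φ (C (X - C a)), hla⟩ = 0 := by
    apply w.res_zero
    have := (ValuationSubring.coe_mem_nonunits_iff (A := w.V)
      (a := ⟨φ (C (X - C a)), hla⟩)).1 hw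
    rwa [IsLocalRing.mem_maximalIdeal] at this
  have hCC : ∀ c : M, φ (C (C c)) ∈ w.V := by
    intro c
    rw [H.base c]
    exact w.mem_M c
  have hl : φ (C X) ∈ w.V := by
    have h1 : φ (C X) = φ (C (X - C a)) + φ (C (C a)) := by
      rw [← map_add, ← map_add, sub_add_cancel]
    rw [h1]
    exact w.V.add_mem _ _ hla (hCC a)
  have hC : ∀ q : M[X], φ (C q) ∈ w.V := by
    intro q
    induction q using Polynomial.induction_on' with
    | add p q hp hq => rw [map_add, map_add]; exact w.V.add_mem _ _ hp hq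
    | monomial n c =>
      rw [← C_mul_X_pow_eq_monomial, map_mul, map_mul, map_pow, map_pow]
      exact w.V.mul_mem _ _ (hCC c) (pow_mem hl n)
  have hY : φ X ∈ w.V := by
    have h1 : IsIntegral w.V.valuation.integer (φ X) := by
      let ψ : M[X] →+* w.V.valuation.integer :=
        { toFun := fun c => ⟨φ (C c), (w.V.valuation_le_one_iff _).2 (hC c)⟩
          map_one' := by ext; simp
          map_zero' := by ext; simp
          map_mul' := by intro x y; ext; simp
          map_add' := by intro x y; ext; simp }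
      refine ⟨g.map ψ, hg.map ψ, ?_⟩
      rw [Polynomial.eval₂_map]
      have h2 : (algebraMap w.V.valuation.integer E).comp ψ = φ.comp C := by
        ext c <;> rfl
      have h3 : φ g = 0 := (H.ker g).2 dvd_rfl
      rw [h2, ← Polynomial.hom_eval₂, eval₂_C_X, h3]
    have h3 := (Valuation.Integers.mem_of_integral (Valuation.integer.integers w.V.valuation) h1)
    exact (w.V.valuation_le_one_iff _).1 h3
  have hall : ∀ p, φ p ∈ w.V := by
    intro p
    induction p using Polynomial.induction_on' with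
    | add p q hp hq => rw [map_add]; exact w.V.add_mem _ _ hp hq
    | monomial n c =>
      rw [← C_mul_X_pow_eq_monomial, map_mul, map_pow]
      exact w.V.mul_mem _ _ (hC c) (pow_mem hY n)
  let ψ : M[X][X] →+* Ω := w.res.comp (φ.codRestrict w.V.toSubring hall)
  have hψ : ∀ p, ψ p = w.res ⟨φ p, hall p⟩ := fun p => rfl
  have key : ψ = ev (w.emb (M := M) : M →+* Ω) a (w.res ⟨φ X, hY⟩) := by
    refine Polynomial.ringHom_ext' (Polynomial.ringHom_ext' ?_ ?_) ?_
    · ext c
      have h1 : ψ (C (C c)) = w.emb (M := M) c := by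
        rw [hψ, Place.emb_apply]
        congr 1
        exact Subtype.ext (H.base c)
      change ψ (C (C c)) = _
      rw [h1]
      simp [ev]
    · have h1 : ψ (C X) = w.emb (M := M) a := by
        have h2 : ψ (C X) = ψ (C (X - C a)) + ψ (C (C a)) := by
          rw [← map_add, ← map_add, sub_add_cancel]
        have h3 : ψ (C (X - C a)) = 0 := hla0
        have h4 : ψ (C (C a)) = w.emb (M := M) a := by
          rw [hψ, Place.emb_apply]
          congr 1
          exact Subtype.ext (H.base a)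
        rw [h2, h3, h4, zero_add]
      change ψ (C X) = _
      rw [h1]
      simp [ev]
    · rw [hψ]
      simp [ev]
  refine ⟨w.emb, w.res ⟨φ X, hY⟩, ?_, hall, fun p => ?_⟩
  · rw [← key, hψ]
    have h3 : φ g = 0 := (H.ker g).2 dvd_rfl
    have h4 : (⟨φ g, hall g⟩ : w.V) = 0 := Subtype.ext h3
    rw [h4, map_zero]
  · rw [← key, hψ]

omit [Algebra k M] [Algebra M E] [IsScalarTower k M E] in
/-- A place is determined by the values of `φ p`, if its ring is the local ring of the point. -/
theorem FF.place_eq' (ι : M →+* Ω) (a : M) (η : Ω)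
    (w w' : Place k E Ω) (h : ∀ x : E, x ∈ w.V ↔ ∃ b s : M[X][X], ev ι a η s ≠ 0 ∧
      x * φ s = φ b) (hr : ∀ (p : M[X][X]) (hp : φ p ∈ w.V), w.res ⟨φ p, hp⟩ = ev ι a η p)
    (h' : ∀ p, φ p ∈ w'.V) (hr' : ∀ p, w'.res ⟨φ p, h' p⟩ = ev ι a η p) : w = w' := by
  have hall : ∀ p, φ p ∈ w.V := by
    intro p
    rw [h]
    refine ⟨p, 1, ?_, ?_⟩
    · rw [map_one]
      exact one_ne_zero
    · rw [map_one, mul_one]
  have hV : w.V = w'.V := by
    apply ValuationSubring.ext
    intro x
    constructor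
    · intro hx
      obtain ⟨b, s, hs, hxs⟩ := (h x).1 hx
      have h1 : (φ s)⁻¹ ∈ w'.V := cyE_inv w' (h' s) (by rw [hr']; exact hs)
      have h2 : φ s ≠ 0 := by
        intro h0
        apply hs
        rw [← hr' s]
        have : (⟨φ s, h' s⟩ : w'.V) = 0 := Subtype.ext h0
        rw [this, map_zero]
      have h3 : x = φ b * (φ s)⁻¹ := by
        rw [← hxs, mul_assoc, mul_inv_cancel₀ h2, mul_one]
      rw [h3]
      exact w'.V.mul_mem _ _ (h' b) h1
    · intro hx
      by_contra hcon
      have h1 : x⁻¹ ∈ w.V := (w.V.mem_or_inv_mem x).resolve_left hcon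
      have hx0 : x ≠ 0 := by
        rintro rfl
        exact hcon w.V.zero_mem
      have h2 : w.res ⟨x⁻¹, h1⟩ = 0 := by
        by_contra h3
        have := cyE_inv w h1 h3
        rw [inv_inv] at this
        exact hcon this
      obtain ⟨b, s, hs, hxs⟩ := (h x⁻¹).1 h1
      have h4 := cyE_mul w h1 (hall s) (hall b) hxs
      rw [h2, zero_mul, hr] at h4
      have h5 : x * φ b = φ s := by
        rw [← hxs, ← mul_assoc, mul_inv_cancel₀ hx0, one_mul]
      have h6 := cyE_mul w' hx (h' b) (h' s) h5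
      rw [hr', hr', ← h4, mul_zero] at h6
      exact hs h6.symm
  refine Place.ext' hV fun x hx hx' => ?_
  obtain ⟨b, s, hs, hxs⟩ := (h x).1 hx
  have h4 := cyE_mul w hx (hall s) (hall b) hxs
  have h5 := cyE_mul w' hx' (h' s) (h' b) hxs
  rw [hr, hr] at h4
  rw [hr', hr'] at h5
  exact mul_right_cancel₀ hs (h4.trans h5.symm)

omit [Algebra k M] [IsScalarTower k M E] in
/-- A place is determined by the values of `φ p`, if its ring is the local ring of the point. -/
theorem FF.place_eq (H : FF (M := M) (E := E) g φ) (ι : M →+* Ω) (a : M) (η : Ω)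
    (w w' : Place k E Ω) (h : ∀ x : E, x ∈ w.V ↔ ∃ b s : M[X][X], ev ι a η s ≠ 0 ∧
      x * φ s = φ b) (hr : ∀ (p : M[X][X]) (hp : φ p ∈ w.V), w.res ⟨φ p, hp⟩ = ev ι a η p)
    (h' : ∀ p, φ p ∈ w'.V) (hr' : ∀ p, w'.res ⟨φ p, h' p⟩ = ev ι a η p) : w = w' := by
  have _ := H
  exact FF.place_eq' ι a η w w' h hr h' hr'

end Cu
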