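import Pool.Agent.Lib.MP_f80667_ag.Cu.CycB
import Pool.Agent.Lib.MP_f80667_ag.Cu.CycD
import Pool.Agent.Lib.MP_f80667_ag.Cu.CycE

/-! Fibres of a family of zero-cycles over the affine line are rationally equivalent. -/

open Polynomial
open scoped LinearAlgebra.Projectivization

namespace Cu

open ZC

universe u

section push

variable {k E Ω : Type u} [Field k] [Field E] [Field Ω] [Algebra k E] [Algebra k Ω] {n : ℕ}

theorem push_of_family {T : Type*} [Fintype T] [Nonempty T] (W : T → Place k E Ω)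
    (hW : Function.Injective W) (G : E) (p : Fin n → E) (m : T → ℤ) (x : T → ℙ Ω (Fin n → Ω))
    (h1 : ∀ w, (∀ t, W t ≠ w) → G ∈ w.V ∧ G⁻¹ ∈ w.V)
    (h2 : ∀ t, (W t).IsOrd G (m t) ∧ (W t).IsVal p (x t)) :
    IsPush k Ω G p (∑ t, Finsupp.single (x t) (m t)) := by
  classical
  obtain ⟨t0⟩ := ‹Nonempty T›
  refine ⟨Finset.univ.image W, Function.extend W m (fun _ => 0), Function.extend W x
    (fun _ => x t0), ?_, ?_, ?_⟩
  · intro w hw
    apply h1
    intro t ht
    exact hw (Finset.mem_image.2 ⟨t, Finset.mem_univ _, ht⟩)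
  · intro w hw
    obtain ⟨t, -, rfl⟩ := Finset.mem_image.1 hw
    rw [hW.extend_apply, hW.extend_apply]
    exact h2 t
  · rw [Finset.sum_image (fun a _ b _ h => hW h)]
    refine Finset.sum_congr rfl fun t _ => ?_
    rw [hW.extend_apply, hW.extend_apply]

end push

section order

variable {k E Ω : Type u} [Field k] [Field E] [Field Ω] [Algebra k E] [Algebra k Ω]

/-- If `s / (s - 1)` has a zero or a pole at `w` then `s` or `s - 1` is in the maximal ideal. -/
theorem unit_or (w : Place k E Ω) {s : E} (hs : s ≠ 0) (hs1 : s - 1 ≠ 0)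
    (h0 : s ∉ w.V.nonunits) (h1 : s - 1 ∉ w.V.nonunits) :
    s / (s - 1) ∈ w.V ∧ (s / (s - 1))⁻¹ ∈ w.V := by
  have hi0 : s⁻¹ ∈ w.V := by
    by_contra hcon
    exact h0 ((w.V.mem_nonunits_iff_or).2 (Or.inr hcon))
  have hi1 : (s - 1)⁻¹ ∈ w.V := by
    by_contra hcon
    exact h1 ((w.V.mem_nonunits_iff_or).2 (Or.inr hcon))
  constructor
  · have : s / (s - 1) = 1 + (s - 1)⁻¹ := by
      field_simp
      ring
    rw [this]
    exact add_mem (one_mem _) hi1
  · have : (s / (s - 1))⁻¹ = 1 - s⁻¹ := by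
      field_simp
    rw [this]
    exact sub_mem (one_mem _) hi0

end order

section points

variable {k M E Ω : Type u} [Field k] [Field M] [Field E] [Field Ω] [Algebra k E] [Algebra k Ω]
  [Algebra k M] [Algebra M E] [IsScalarTower k M E] {g : M[X][X]} {φ : M[X][X] →+* E}

theorem ev_CC (ι : M →+* Ω) (a : M) (η : Ω) (c : M) : ev ι a η (C (C c)) = ι c := by
  simp [ev]

theorem ev_X (ι : M →+* Ω) (a : M) (η : Ω) : ev ι a η X = η := by
  simp [ev]

theorem ev_CX (ι : M →+* Ω) (a : M) (η : Ω) : ev ι a η (C X) = ι a := by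
  simp [ev]

theorem ev_inj {ι ι' : M →ₐ[k] Ω} {a a' : M} {η η' : Ω}
    (h : ∀ p, ev (ι : M →+* Ω) a η p = ev (ι' : M →+* Ω) a' η' p) : ι = ι' ∧ a = a' ∧ η = η' := by
  have h1 : ι = ι' := by
    ext c
    have := h (C (C c))
    rw [ev_CC, ev_CC] at this
    exact this
  subst h1
  refine ⟨rfl, ?_, ?_⟩
  · have := h (C X)
    rw [ev_CX, ev_CX] at this
    exact (ι : M →+* Ω).injective this
  · have := h X
    rwa [ev_X, ev_X] at this

open Classical in
/-- The zeros of `h` over all embeddings. -/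
abbrev Zs (k Ω : Type u) [Field k] [Field Ω] [Algebra k M] [Algebra k Ω] (h : M[X]) : Type u :=
  Σ ι : M →ₐ[k] Ω, {η : Ω // η ∈ ((h.map (ι : M →+* Ω)).roots).toFinset}

theorem Zs.eval {h : M[X]} (t : Zs k Ω h) : h.eval₂ (t.1 : M →+* Ω) t.2.1 = 0 := by
  classical
  have h1 := t.2.2
  rw [Multiset.mem_toFinset] at h1
  have h2 := isRoot_of_mem_roots h1
  rwa [IsRoot, eval_map] at h2

end points

end Cu
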