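import Pool.Agent.Lib.MP_f80667_ag.Cu.Defs

/-! The fundamental identity `e f = n` for extensions of local fields. -/

open Polynomial IsLocalRing Pool.Agent.Lib.MP_f80667_ag.LF

namespace Cu

universe u

variable {k : Type u} [NontriviallyNormedField k] [IsUltrametricDist k] [ProperSpace k]
  {M L : Type u} [Field M] [Field L] [Algebra k M] [Algebra k L] [Algebra M L]
  [IsScalarTower k M L] [FiniteDimensional k M] [FiniteDimensional k L]

/-- `oMap` is a local homomorphism. -/
theorem oMap_unit' (x : O k M) : IsUnit (oMap k M L x) ↔ IsUnit x :=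
  ⟨fun h => isUnit_of_map_unit (oMap k M L) x h, fun h => h.map _⟩

/-- Elements of `O k L` are integral over `O k M`. -/
theorem integral_of_mem (x : L) (hx : x ∈ O k L) :
    ∃ g : (O k M)[X], g.Monic ∧ eval₂ ((algebraMap M L).comp (algebraMap (O k M) M)) x g = 0 := by
  rw [mem_O] at hx
  have hint : IsIntegral k x := Algebra.IsIntegral.isIntegral x
  have hmon := minpoly.monic hint
  have h1 : spectralValue (minpoly k x) ≤ 1 := hx
  rw [spectralValue_le_one_iff hmon] at h1
  have hk : ∀ a : k, ‖a‖ ≤ 1 → algebraMap k M a ∈ O k M := by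
    intro a ha
    rw [mem_O, spectralNorm_extends]
    exact ha
  -- lift the minimal polynomial to `O k M`
  have hl : (minpoly k x).map (algebraMap k M) ∈ lifts (algebraMap (O k M) M) := by
    rw [lifts_iff_coeff_lifts]
    intro n
    refine ⟨⟨algebraMap k M ((minpoly k x).coeff n), hk _ (h1 n)⟩, ?_⟩
    rw [coeff_map]
    rfl
  obtain ⟨g, hg, -, hgm⟩ := lifts_and_natDegree_eq_and_monic hl (hmon.map _)
  refine ⟨g, hgm, ?_⟩
  rw [← eval₂_map, hg, eval₂_map, ← IsScalarTower.algebraMap_eq, ← aeval_def, minpoly.aeval]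

/-- Integral elements over `O k M` lie in `O k L`. -/
theorem mem_O_of_root' (g : (O k M)[X]) (hg : g.Monic) (θ : L)
    (hθ : eval₂ ((algebraMap M L).comp (algebraMap (O k M) M)) θ g = 0) : θ ∈ O k L := by
  have hint : IsIntegral (O k L) θ := by
    refine ⟨g.map (oMap k M L), hg.map _, ?_⟩
    rw [eval₂_map]
    exact hθ
  obtain ⟨y, hy⟩ := IsIntegrallyClosed.isIntegral_iff.mp hint
  rw [← hy]
  exact y.2

/-- `e f = n`. -/
theorem ef [CharZero k] : ∃ e f : ℕ, e * f = Module.finrank M L ∧ 0 < e ∧ 0 < f ∧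
    (∀ (π : O k M) (ϖ : O k L), Irreducible π → Irreducible ϖ →
      Associated (oMap k M L π) (ϖ ^ e)) ∧
    Nat.card (ResidueField (O k L)) = Nat.card (ResidueField (O k M)) ^ f := by
  let : Algebra (O k M) (O k L) := (oMap k M L).toAlgebra
  let : Algebra (O k M) L := ((algebraMap M L).comp (algebraMap (O k M) M)).toAlgebra
  have h1 : IsScalarTower (O k M) M L := IsScalarTower.of_algebraMap_eq fun x => rfl
  have h2 : IsScalarTower (O k M) (O k L) L := IsScalarTower.of_algebraMap_eq fun x => rfl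
  have hcl : IsIntegralClosure (O k L) (O k M) L := by
    refine ⟨Subtype.val_injective, fun {x} => ⟨fun hx => ?_, fun hx => ?_⟩⟩
    · obtain ⟨g, hg, hgx⟩ := hx
      exact ⟨⟨x, mem_O_of_root' g hg x hgx⟩, rfl⟩
    · obtain ⟨y, rfl⟩ := hx
      obtain ⟨g, hg, hgx⟩ := integral_of_mem (M := M) (y : L) y.2
      exact ⟨g, hg, hgx⟩
  have hch : CharZero M := charZero_of_injective_algebraMap (algebraMap k M).injective
  have hfd : FiniteDimensional M L := Module.Finite.of_restrictScalars_finite k M L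
  have hfin : Module.Finite (O k M) (O k L) := IsIntegralClosure.finite (O k M) M L (O k L)
  obtain ⟨π₀, hπ₀⟩ := IsDiscreteValuationRing.exists_irreducible (O k M)
  obtain ⟨ϖ₀, hϖ₀⟩ := IsDiscreteValuationRing.exists_irreducible (O k L)
  have hne : maximalIdeal (O k M) ≠ ⊥ := IsDiscreteValuationRing.not_a_field _
  have hmap : Ideal.map (algebraMap (O k M) (O k L)) (maximalIdeal (O k M)) =
      Ideal.span {oMap k M L π₀} := by
    rw [hπ₀.maximalIdeal_eq, Ideal.map_span, Set.image_singleton]
    rfl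
  have hlies : (maximalIdeal (O k L)).LiesOver (maximalIdeal (O k M)) := by
    refine ⟨?_⟩
    ext x
    rw [Ideal.mem_comap, mem_maximalIdeal, mem_maximalIdeal, mem_nonunits_iff, mem_nonunits_iff]
    exact not_congr (oMap_unit' (L := L) x).symm
  have hπ₀' : oMap k M L π₀ ≠ 0 := by
    intro h
    have h3 : algebraMap M L (π₀ : M) = 0 := congrArg Subtype.val h
    rw [map_eq_zero] at h3
    exact hπ₀.ne_zero (Subtype.ext h3)
  obtain ⟨e, he⟩ := IsDiscreteValuationRing.associated_pow_irreducible hπ₀' hϖ₀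
  have hmap' : Ideal.map (algebraMap (O k M) (O k L)) (maximalIdeal (O k M)) =
      maximalIdeal (O k L) ^ e := by
    rw [hmap, hϖ₀.maximalIdeal_eq, Ideal.span_singleton_pow, Ideal.span_singleton_eq_span_singleton]
    exact he
  have hram : Ideal.ramificationIdx' (maximalIdeal (O k M)) (maximalIdeal (O k L)) = e := by
    refine Ideal.ramificationIdx'_spec hmap'.le ?_
    rw [hmap']
    intro hle
    have h3 : ϖ₀ ^ e ∈ maximalIdeal (O k L) ^ (e + 1) :=
      hle (Ideal.pow_mem_pow ((mem_maximalIdeal _).2 hϖ₀.not_isUnit) e)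
    rw [hϖ₀.maximalIdeal_eq, Ideal.span_singleton_pow, Ideal.mem_span_singleton] at h3
    exact absurd ((pow_dvd_pow_iff hϖ₀.ne_zero hϖ₀.not_isUnit).1 h3) (by omega)
  have hmul := Ideal.ramificationIdx_mul_inertiaDeg_of_isLocalRing (O k L) M L
    (p := maximalIdeal (O k M)) hne
  rw [hram, Ideal.inertiaDeg'_algebraMap] at hmul
  have hpos : 0 < Module.finrank M L := Module.finrank_pos
  rw [← hmul] at hpos
  refine ⟨e, _, hmul, Nat.pos_of_mul_pos_right hpos, Nat.pos_of_mul_pos_left hpos, ?_, ?_⟩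
  · intro π ϖ hπ hϖ
    have h3 : Associated (oMap k M L π) (oMap k M L π₀) :=
      (IsDiscreteValuationRing.associated_of_irreducible _ hπ hπ₀).map (oMap k M L)
    have h4 : Associated (ϖ₀ ^ e) (ϖ ^ e) :=
      (IsDiscreteValuationRing.associated_of_irreducible _ hϖ₀ hϖ).pow_pow
    exact (h3.trans he).trans h4
  · let : Field (O k M ⧸ maximalIdeal (O k M)) := Ideal.Quotient.field _
    have hf1 : Finite (O k M ⧸ maximalIdeal (O k M)) :=
      inferInstanceAs (Finite (ResidueField (O k M)))
    have hf2 : Finite (O k L ⧸ maximalIdeal (O k L)) :=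
      inferInstanceAs (Finite (ResidueField (O k L)))
    exact Module.natCard_eq_pow_finrank (K := O k M ⧸ maximalIdeal (O k M))
      (V := O k L ⧸ maximalIdeal (O k L))

end Cu
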