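import Pool.Agent.Lib.MP_f80667_ag.Cu.Norm
import Pool.Agent.Lib.MP_f80667_ag.Cu.ExtA
import Pool.Agent.Lib.MP_f80667_ag.LF.GoodN

/-! Extensions of local fields. -/

open Polynomial IsLocalRing Pool.Agent.Lib.MP_f80667_ag.LF

namespace Cu

universe u

variable (k : Type u) [NontriviallyNormedField k] [IsUltrametricDist k] [ProperSpace k]

section tower

variable {k} {M L : Type u} [Field M] [Field L] [Algebra k M] [Algebra k L] [Algebra M L]
  [IsScalarTower k M L] [FiniteDimensional k M] [FiniteDimensional k L]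

theorem oMap_coe (x : O k M) : ((oMap k M L x : O k L) : L) = algebraMap M L (x : M) := rfl

/-- `oMap` is a local homomorphism. -/
theorem oMap_unit (x : O k M) : IsUnit (oMap k M L x) ↔ IsUnit x := oMap_unit' x

theorem oMap_inj : Function.Injective (oMap k M L) := by
  intro x y h
  have h1 : algebraMap M L (x : M) = algebraMap M L (y : M) := congrArg Subtype.val h
  exact Subtype.ext ((algebraMap M L).injective h1)

/-- Integral elements over `O k M` lie in `O k L`. -/
theorem mem_O_of_root (g : (O k M)[X]) (hg : g.Monic) (θ : L)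
    (hθ : eval₂ ((algebraMap M L).comp (algebraMap (O k M) M)) θ g = 0) : θ ∈ O k L :=
  mem_O_of_root' g hg θ hθ

theorem eval₂_oMap (g : (O k M)[X]) (θ : O k L)
    (hθ : eval₂ ((algebraMap M L).comp (algebraMap (O k M) M)) (θ : L) g = 0) :
    eval₂ (oMap k M L) θ g = 0 := by
  have h1 : ((eval₂ (oMap k M L) θ g : O k L) : L) =
      eval₂ ((algebraMap M L).comp (algebraMap (O k M) M)) (θ : L) g :=
    hom_eval₂ g (oMap k M L) (O k L).subtype θ
  apply Subtype.ext
  rw [h1, hθ]
  rfl

theorem eval₂_rMap (g : (O k M)[X]) (θ : O k L) (hθ : eval₂ (oMap k M L) θ g = 0) :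
    eval₂ (rMap k M L) (residue (O k L) θ) (g.map (residue (O k M))) = 0 := by
  have h2 : (rMap k M L).comp (residue (O k M)) = (residue (O k L)).comp (oMap k M L) :=
    ResidueField.map_comp_residue _
  rw [eval₂_map, h2, ← hom_eval₂, hθ, map_zero]

/-- A root of an irreducible polynomial in the residue field. -/
theorem card_le_of_root (g : (ResidueField (O k M))[X]) (hg : Irreducible g)
    (x : ResidueField (O k L)) (hx : eval₂ (rMap k M L) x g = 0) :
    Nat.card (ResidueField (O k M)) ^ g.natDegree ≤ Nat.card (ResidueField (O k L)) := by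
  have : Fact (Irreducible g) := ⟨hg⟩
  let φ : AdjoinRoot g →+* ResidueField (O k L) := AdjoinRoot.lift (rMap k M L) x hx
  have hcard : Nat.card (AdjoinRoot g) = Nat.card (ResidueField (O k M)) ^ g.natDegree := by
    have hfr : Module.finrank (ResidueField (O k M)) (AdjoinRoot g) = g.natDegree := by
      rw [(AdjoinRoot.powerBasis hg.ne_zero).finrank, AdjoinRoot.powerBasis_dim]
    have : Module.Finite (ResidueField (O k M)) (AdjoinRoot g) :=
      (AdjoinRoot.powerBasis hg.ne_zero).finite
    rw [Module.natCard_eq_pow_finrank (K := ResidueField (O k M)), hfr]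
  rw [← hcard]
  exact Nat.card_le_card_of_injective φ φ.injective

variable [CharZero k] in
/-- An extension generated by a root of a polynomial with irreducible reduction is unramified.
Proof: the residue field of `L` contains a root of the reduction, so its degree is at least
`natDegree g = [L : M] = e f`. -/
theorem unr_of_irred (g : (O k M)[X]) (hg : g.Monic)
    (hirr : Irreducible (g.map (residue (O k M)))) (θ : L)
    (hθ : eval₂ ((algebraMap M L).comp (algebraMap (O k M) M)) θ g = 0)
    (hd : Module.finrank M L = g.natDegree) : Unr k M L g.natDegree := by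
  obtain ⟨e, f, hef, he0, hf0, hass, hcard⟩ := ef (k := k) (M := M) (L := L)
  have hθO := mem_O_of_root g hg θ hθ
  have h1 := eval₂_oMap g ⟨θ, hθO⟩ hθ
  have h2 := card_le_of_root _ hirr _ (eval₂_rMap g _ h1)
  rw [hg.natDegree_map, hcard] at h2
  have h3 : g.natDegree ≤ f := (Nat.pow_le_pow_iff_right Finite.one_lt_card).1 h2
  rw [hd] at hef
  have h4 : e = 1 := by
    have h5 : e * f ≤ 1 * f := by rw [hef, one_mul]; exact h3
    have h6 := Nat.le_of_mul_le_mul_right h5 hf0
    omega
  rw [h4, one_mul] at hef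
  refine ⟨hd, fun π hπ => ?_, by rw [hcard, hef]⟩
  obtain ⟨ϖ, hϖ⟩ := IsDiscreteValuationRing.exists_irreducible (O k L)
  have h5 := hass π ϖ hπ hϖ
  rw [h4, pow_one] at h5
  exact h5.symm.irreducible hϖ

end tower

section exist

variable (M : Type u) [Field M] [Algebra k M] [FiniteDimensional k M]

variable [CharZero k] in
/-- Existence of unramified extensions: lift an irreducible polynomial over the residue field,
`L = AdjoinRoot`. -/
theorem exists_unr (d : ℕ) (hd : 0 < d) :
    ∃ (L : Type u) (_ : Field L) (_ : Algebra k L) (_ : Algebra M L) (_ : IsScalarTower k M L)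
      (_ : FiniteDimensional k L), Unr k M L d := by
  obtain ⟨g, hg, hgi, hgm⟩ := exists_irred (ResidueField (O k M)) d hd
  have hsurj : Function.Surjective (residue (O k M)) := residue_surjective
  obtain ⟨f0, hf0, hf0d, hf0m⟩ := lifts_and_natDegree_eq_and_monic
    (f := residue (O k M)) (p := g) (by
      rw [lifts_iff_coeff_lifts]
      intro n
      exact hsurj _) hg
  have hirr0 : Irreducible f0 := Monic.irreducible_of_irreducible_map (residue (O k M)) f0 hf0m
    (by rw [hf0]; exact hgi)
  have hirr : Irreducible (f0.map (algebraMap (O k M) M)) :=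
    (Monic.irreducible_iff_irreducible_map_fraction_map hf0m).mp hirr0
  have hmon : (f0.map (algebraMap (O k M) M)).Monic := hf0m.map _
  have : Fact (Irreducible (f0.map (algebraMap (O k M) M))) := ⟨hirr⟩
  have hfd : FiniteDimensional M (AdjoinRoot (f0.map (algebraMap (O k M) M))) :=
    (AdjoinRoot.powerBasis hirr.ne_zero).finite
  have hfd' : FiniteDimensional k (AdjoinRoot (f0.map (algebraMap (O k M) M))) :=
    FiniteDimensional.trans k M _
  refine ⟨AdjoinRoot (f0.map (algebraMap (O k M) M)), inferInstance, inferInstance, inferInstance,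
    inferInstance, hfd', ?_⟩
  have hdeg : f0.natDegree = d := hf0d.trans hgm
  have h1 := unr_of_irred (k := k) (M := M) (L := AdjoinRoot (f0.map (algebraMap (O k M) M)))
    f0 hf0m (by rw [hf0]; exact hgi) (AdjoinRoot.root _) (by
      rw [← eval₂_map]
      exact AdjoinRoot.eval₂_root _) (by
      rw [(AdjoinRoot.powerBasis hirr.ne_zero).finrank, AdjoinRoot.powerBasis_dim,
        hf0m.natDegree_map])
  rwa [hdeg] at h1

variable [CharZero k] in
/-- Extensions with isotropic quadratic forms in more than `4` variables, of degree prime to `N`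
(`exists_bound`, `exists_unr` with a large prime degree). -/
theorem exists_iso (N : ℕ) (hN : N ≠ 0) :
    ∃ (L : Type u) (_ : Field L) (_ : Algebra k L) (_ : Algebra M L) (_ : IsScalarTower k M L)
      (_ : FiniteDimensional k L), (Module.finrank M L).Coprime N ∧ ZC.Iso L 1 := by
  obtain ⟨C, hC⟩ := exists_bound.{u} 1
  obtain ⟨m, hm, hmp⟩ := Nat.exists_infinite_primes (N + C + 1)
  obtain ⟨L, i1, i2, i3, i4, i5, hu⟩ := exists_unr k M m hmp.pos
  refine ⟨L, i1, i2, i3, i4, i5, ?_, ?_⟩
  · rw [hu.deg]
    exact (Nat.Prime.coprime_iff_not_dvd hmp).2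
      (fun h => absurd (Nat.le_of_dvd (Nat.pos_of_ne_zero hN) h) (by omega))
  · refine hC 1 le_rfl k L ?_
    have h1 : q k L = Nat.card (ResidueField (O k M)) ^ m := hu.card
    have h2 : 2 ≤ Nat.card (ResidueField (O k M)) := Finite.one_lt_card
    have h3 : 2 ^ m ≤ Nat.card (ResidueField (O k M)) ^ m := Nat.pow_le_pow_left h2 m
    have h4 : m < 2 ^ m := Nat.lt_two_pow_self
    rw [h1]
    omega

/-- Extension of degree `2` in which `π` is a square (up to nothing: `η ^ 2 = π`). -/
theorem exists_sqrt (π : O k M) (hπ : Irreducible π) :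
    ∃ (L : Type u) (_ : Field L) (_ : Algebra k L) (_ : Algebra M L) (_ : IsScalarTower k M L)
      (_ : FiniteDimensional k L), Module.finrank M L = 2 ∧
      ∃ η : O k L, η ^ 2 = oMap k M L π := by
  have hns : ∀ b : M, b ^ 2 ≠ (π : M) := by
    intro b hb
    have hint : IsIntegral (O k M) b := by
      refine ⟨X ^ 2 - C π, monic_X_pow_sub_C _ two_ne_zero, ?_⟩
      rw [eval₂_sub, eval₂_pow, eval₂_X, eval₂_C, hb]
      exact sub_self _
    obtain ⟨y, rfl⟩ := IsIntegrallyClosed.isIntegral_iff.mp hint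
    have h1 : y * y = π := by
      apply Subtype.ext
      rw [← hb, pow_two]
      rfl
    rcases hπ.isUnit_or_isUnit h1.symm with h | h <;>
      exact hπ.not_isUnit (h1 ▸ h.mul h)
  have hirr : Irreducible (X ^ 2 - C (π : M) : M[X]) :=
    X_pow_sub_C_irreducible_of_prime Nat.prime_two hns
  have : Fact (Irreducible (X ^ 2 - C (π : M) : M[X])) := ⟨hirr⟩
  have hfd : FiniteDimensional M (AdjoinRoot (X ^ 2 - C (π : M) : M[X])) :=
    (AdjoinRoot.powerBasis hirr.ne_zero).finite
  have hfd' : FiniteDimensional k (AdjoinRoot (X ^ 2 - C (π : M) : M[X])) :=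
    FiniteDimensional.trans k M _
  refine ⟨AdjoinRoot (X ^ 2 - C (π : M) : M[X]), inferInstance, inferInstance, inferInstance,
    inferInstance, hfd', ?_, ?_⟩
  · rw [(AdjoinRoot.powerBasis hirr.ne_zero).finrank, AdjoinRoot.powerBasis_dim,
      natDegree_X_pow_sub_C]
  · have h1 : (AdjoinRoot.root (X ^ 2 - C (π : M) : M[X])) ^ 2 =
        algebraMap M (AdjoinRoot (X ^ 2 - C (π : M) : M[X])) (π : M) := by
      have h2 := AdjoinRoot.eval₂_root (X ^ 2 - C (π : M) : M[X])
      rw [eval₂_sub, eval₂_pow, eval₂_X, eval₂_C, sub_eq_zero] at h2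
      exact h2
    have h3 : AdjoinRoot.root (X ^ 2 - C (π : M) : M[X]) ∈
        O k (AdjoinRoot (X ^ 2 - C (π : M) : M[X])) := by
      refine mem_O_of_root (M := M) (X ^ 2 - C π) (monic_X_pow_sub_C _ two_ne_zero) _ ?_
      rw [eval₂_sub, eval₂_pow, eval₂_X, eval₂_C, sub_eq_zero]
      exact h1
    exact ⟨⟨_, h3⟩, Subtype.ext h1⟩

end exist

section dich

variable {k} {M L : Type u} [Field M] [Field L] [Algebra k M] [Algebra k L] [Algebra M L]
  [IsScalarTower k M L] [FiniteDimensional k M] [FiniteDimensional k L]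

variable [CharZero k] in
/-- An extension of degree `3` is unramified or generated by a root of an Eisenstein polynomial.
Proof: `e f = 3`. If `e = 3` let `ϖ` be a uniformizer of `L`; it is not in `M` and its minimal
polynomial over `O k M` is `X ^ 3 + a X ^ 2 + b X + c`; `c ∈ (ϖ)`, so `c ∈ (π) = (ϖ ^ 3)`, so
`b ∈ (ϖ)`, `b ∈ (π)`, so `a ∈ (ϖ)`, `a ∈ (π)`, and `c = - ϖ ^ 3 (1 + ...)`. -/
theorem unr_or_eis (h3 : Module.finrank M L = 3) :
    Unr k M L 3 ∨ ∃ (π : O k M) (a₁ a₂ u : O k M) (ϖ : L), Irreducible π ∧ IsUnit u ∧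
      ϖ ^ 3 + algebraMap M L ((π * a₁ : O k M) : M) * ϖ ^ 2 +
        algebraMap M L ((π * a₂ : O k M) : M) * ϖ + algebraMap M L ((π * u : O k M) : M) = 0 := by
  obtain ⟨e, f, hef, he0, hf0, hass, hcard⟩ := ef (k := k) (M := M) (L := L)
  rw [h3] at hef
  obtain ⟨π, hπ⟩ := IsDiscreteValuationRing.exists_irreducible (O k M)
  obtain ⟨ϖ, hϖ⟩ := IsDiscreteValuationRing.exists_irreducible (O k L)
  have hdvd : e ∣ 3 := ⟨f, hef.symm⟩
  rcases (Nat.dvd_prime Nat.prime_three).1 hdvd with he | he
  · left
    rw [he, one_mul] at hef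
    refine ⟨h3, fun π hπ => ?_, by rw [hcard, hef]⟩
    have h5 := hass π ϖ hπ hϖ
    rw [he, pow_one] at h5
    exact h5.symm.irreducible hϖ
  · right
    have hπϖ := hass π ϖ hπ hϖ
    rw [he] at hπϖ
    -- an element of `O k M` in `(ϖ)` is in `(π)`
    have key : ∀ a : O k M, ϖ ∣ oMap k M L a → ∃ a', a = π * a' := by
      intro a ha
      have h4 : ¬ IsUnit a := by
        rw [← oMap_unit (L := L)]
        exact fun h => hϖ.not_isUnit (isUnit_of_dvd_unit ha h)
      have h5 : a ∈ maximalIdeal (O k M) := h4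
      rw [hπ.maximalIdeal_eq, Ideal.mem_span_singleton] at h5
      exact h5
    have hrel : ∀ a : O k M, ∃ b : O k L, oMap k M L (π * a) = ϖ ^ 3 * b := by
      intro a
      obtain ⟨w, hw⟩ := hπϖ.symm
      exact ⟨w * oMap k M L a, by rw [map_mul, ← hw]; ring⟩
    -- the minimal polynomial
    let : Algebra (O k M) (O k L) := (oMap k M L).toAlgebra
    let : Algebra (O k M) L := ((algebraMap M L).comp (algebraMap (O k M) M)).toAlgebra
    have i1 : IsScalarTower (O k M) M L := IsScalarTower.of_algebraMap_eq fun x => rfl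
    have hint : IsIntegral (O k M) (ϖ : L) := integral_of_mem (M := M) (ϖ : L) ϖ.2
    have hfd : FiniteDimensional M L := Module.Finite.of_restrictScalars_finite k M L
    have hintM : IsIntegral M (ϖ : L) := Algebra.IsIntegral.isIntegral _
    have hmin := minpoly.isIntegrallyClosed_eq_field_fractions' (K := M) hint
    have hmon := minpoly.monic hint
    have hdeg : (minpoly (O k M) (ϖ : L)).natDegree = 3 := by
      have h4 : (minpoly M (ϖ : L)).natDegree ∣ 3 := by
        rw [← h3]
        exact minpoly.degree_dvd hintM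
      rw [hmin, hmon.natDegree_map] at h4
      rcases (Nat.dvd_prime Nat.prime_three).1 h4 with h5 | h5
      · exfalso
        have h6 : (minpoly M (ϖ : L)).natDegree = 1 := by
          rw [hmin, hmon.natDegree_map, h5]
        rw [minpoly.natDegree_eq_one_iff] at h6
        obtain ⟨x, hx⟩ := h6
        have hxO : x ∈ O k M := by
          rw [← mem_map k (IsScalarTower.toAlgHom k M L)]
          change algebraMap M L x ∈ O k L
          rw [hx]
          exact ϖ.2
        have h7 : oMap k M L ⟨x, hxO⟩ = ϖ := Subtype.ext hx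
        obtain ⟨a, ha⟩ := key ⟨x, hxO⟩ (by rw [h7])
        obtain ⟨b, hb⟩ := hrel a
        rw [← ha, h7] at hb
        have h8 : ϖ * (ϖ ^ 2 * b) = ϖ * 1 := by rw [mul_one]; linear_combination -hb
        have h9 := mul_left_cancel₀ hϖ.ne_zero h8
        exact hϖ.not_isUnit (isUnit_of_dvd_one ⟨ϖ * b, by rw [← h9]; ring⟩)
      · exact h5
    set p := minpoly (O k M) (ϖ : L) with hp
    have hp0 : eval₂ (oMap k M L) ϖ p = 0 := eval₂_oMap p ϖ (minpoly.aeval (O k M) (ϖ : L))
    have hp1 : oMap k M L (p.coeff 0) + oMap k M L (p.coeff 1) * ϖ + oMap k M L (p.coeff 2) * ϖ ^ 2 +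
        ϖ ^ 3 = 0 := by
      rw [eval₂_eq_sum_range, hdeg, Finset.sum_range_succ, Finset.sum_range_succ,
        Finset.sum_range_succ, Finset.sum_range_one] at hp0
      have h4 : p.coeff 3 = 1 := by rw [← hdeg]; exact hmon
      rw [h4, map_one, one_mul, pow_zero, mul_one, pow_one] at hp0
      exact hp0
    have hp10 := hp1
    obtain ⟨c, hc⟩ := key (p.coeff 0) ⟨-(oMap k M L (p.coeff 1) + oMap k M L (p.coeff 2) * ϖ +
        ϖ ^ 2), by linear_combination hp1⟩
    obtain ⟨c', hc'⟩ := hrel c
    rw [hc, hc'] at hp1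
    have hp2 : oMap k M L (p.coeff 1) + ϖ * (ϖ * c' + oMap k M L (p.coeff 2) + ϖ) = 0 := by
      apply mul_left_cancel₀ hϖ.ne_zero
      linear_combination hp1
    obtain ⟨b, hb⟩ := key (p.coeff 1) ⟨-(ϖ * c' + oMap k M L (p.coeff 2) + ϖ), by
      linear_combination hp2⟩
    obtain ⟨b', hb'⟩ := hrel b
    rw [hb, hb'] at hp2
    have hp3 : oMap k M L (p.coeff 2) + ϖ * (ϖ * b' + c' + 1) = 0 := by
      apply mul_left_cancel₀ hϖ.ne_zero
      linear_combination hp2
    obtain ⟨a, ha⟩ := key (p.coeff 2) ⟨-(ϖ * b' + c' + 1), by linear_combination hp3⟩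
    obtain ⟨a', ha'⟩ := hrel a
    rw [ha, ha'] at hp3
    have hp4 : ϖ ^ 2 * a' + (ϖ * b' + c' + 1) = 0 := by
      apply mul_left_cancel₀ hϖ.ne_zero
      linear_combination hp3
    -- `c` is a unit
    have hc'u : IsUnit c' := by
      by_contra hcon
      have h4 : ϖ ∣ c' := by
        have h5 : c' ∈ maximalIdeal (O k L) := hcon
        rw [hϖ.maximalIdeal_eq, Ideal.mem_span_singleton] at h5
        exact h5
      obtain ⟨d, hd⟩ := h4
      apply hϖ.not_isUnit
      refine isUnit_of_dvd_one ⟨-(ϖ * a' + b' + d), ?_⟩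
      rw [hd] at hp4
      linear_combination hp4
    have hcu : IsUnit c := by
      rw [← oMap_unit (L := L)]
      obtain ⟨w, hw⟩ := hπϖ.symm
      rw [map_mul, ← hw] at hc'
      have h4 : ϖ ^ 3 * ((w : O k L) * oMap k M L c) = ϖ ^ 3 * c' := by
        rw [← hc']; ring
      have h5 := mul_left_cancel₀ (pow_ne_zero 3 hϖ.ne_zero) h4
      rw [← h5] at hc'u
      exact isUnit_of_mul_isUnit_right hc'u
    refine ⟨π, a, b, c, ϖ, hπ, hcu, ?_⟩
    rw [hc, hb, ha] at hp10
    have h4 : (algebraMap M L ((π * c : O k M) : M)) + (algebraMap M L ((π * b : O k M) : M)) * ϖ +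
        (algebraMap M L ((π * a : O k M) : M)) * (ϖ : L) ^ 2 + (ϖ : L) ^ 3 = 0 :=
      congrArg Subtype.val hp10
    linear_combination h4

end dich

section fin

/-- A finite extension of degree `d` of a finite field contains the zeros of all irreducible
polynomials of degree dividing `d`. -/
theorem root_of_card {F E : Type u} [Field F] [Finite F] [Field E] [Finite E] (φ : F →+* E) {d : ℕ}
    (hcard : Nat.card E = Nat.card F ^ d) (g : F[X]) (hg : Irreducible g)
    (hd : g.natDegree ∣ d) : ∃ x : E, eval₂ φ x g = 0 := by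
  let : Algebra F E := φ.toAlgebra
  have : Fact (Irreducible g) := ⟨hg⟩
  have hfr : Module.finrank F (AdjoinRoot g) = g.natDegree := by
    rw [(AdjoinRoot.powerBasis hg.ne_zero).finrank, AdjoinRoot.powerBasis_dim]
  have hfin : Module.Finite F (AdjoinRoot g) := (AdjoinRoot.powerBasis hg.ne_zero).finite
  have hfin' : Finite (AdjoinRoot g) := Module.finite_of_finite F
  have hfr' : Module.finrank F E = d := by
    have h1 := Module.natCard_eq_pow_finrank (K := F) (V := E)
    rw [hcard] at h1
    exact (Nat.pow_right_injective Finite.one_lt_card h1).symm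
  obtain ⟨ψ⟩ := FiniteField.nonempty_algHom_of_finrank_dvd (F := F)
    (K := AdjoinRoot g) (L := E) (by rw [hfr, hfr']; exact hd)
  refine ⟨ψ (AdjoinRoot.root g), ?_⟩
  have h1 : aeval (ψ (AdjoinRoot.root g)) g = 0 := by
    rw [aeval_algHom_apply, AdjoinRoot.aeval_eq, AdjoinRoot.mk_self, map_zero]
  exact h1

end fin

section vgmap

variable {k} {M L : Type u} [Field M] [Field L] [Algebra k M] [Algebra k L] [Algebra M L]
  [IsScalarTower k M L] [FiniteDimensional k M] [FiniteDimensional k L]

/-- In an unramified extension the valuation does not change. -/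
theorem Unr.vg {d : ℕ} (h : Unr k M L d) {π : O k M} (hπ : Irreducible π) (i : ℤ) (x : M) :
    Vg (oMap k M L π) i (algebraMap M L x) ↔ Vg π i x := by
  by_cases hx : x = 0
  · subst hx
    rw [map_zero]
    exact ⟨fun _ => Vg.zero i, fun _ => Vg.zero i⟩
  obtain ⟨m, u, hu, hxu⟩ := exists_ord (O := O k M) hπ hx
  have h1 : algebraMap M L x = algebraMap (O k L) L (oMap k M L π) ^ m *
      algebraMap (O k L) L (oMap k M L u) := by
    rw [hxu, map_mul, map_zpow₀]
    rfl
  rw [h1, vg_iff (h.unif π hπ) ((oMap_unit u).2 hu), hxu, vg_iff hπ hu]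

/-- The residue field of an unramified extension of degree `d` contains the zeros of all irreducible
polynomials of degree dividing `d`. -/
theorem Unr.root {d : ℕ} (h : Unr k M L d) (g : (ResidueField (O k M))[X]) (hg : Irreducible g)
    (hd : g.natDegree ∣ d) :
    ∃ x : ResidueField (O k L), eval₂ (rMap k M L) x g = 0 :=
  root_of_card (rMap k M L) h.card g hg hd

end vgmap

end Cu
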