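import Pool.Agent.Lib.MP_f80667_ag.Cu.Defs

/-! Line sections and a family of conics. -/

open Polynomial Finset

namespace Cu

universe u

section cbl

variable {R V : Type*} [CommRing R] [AddCommGroup V] [Module R V] (c : Cb R V)

/-- The form on a plane. -/
theorem Cb.f_lin (x y : R) (A B : V) : c.f (x • A + y • B) =
    x ^ 3 * c.f A + x ^ 2 * y * c.D A B + x * y ^ 2 * c.D B A + y ^ 3 * c.f B := by
  rw [c.f_add, c.f_smul, c.f_smul, c.smul_D, c.smul_D, c.D_smul, c.D_smul]
  ring

/-- The form on the span of two points and a vector `w` in both tangent spaces. -/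
theorem Cb.f_plane (x y : R) (P Q w : V) (hP : c.f P = 0) (hQ : c.f Q = 0) (hPQ : c.D P Q = 1)
    (hQP : c.D Q P = 1) (hPw : c.D P w = 0) (hQw : c.D Q w = 0) (hE : c.E P Q w = 0) :
    c.f (x • P + y • Q + w) = x * y * (x + y) + x * c.D w P + y * c.D w Q + c.f w := by
  rw [c.f_add, c.f_lin, c.D_add, c.D_smul, c.D_smul, c.add_D, c.smul_D, c.smul_D, c.E_smul1,
    c.E_smul2, hP, hQ, hPQ, hQP, hPw, hQw, hE]
  ring

/-- `Cb.f_plane` with a factor `κ` and with `s w` in place of `w`. -/
theorem Cb.f_plane' (κ p q r x y s : R) (P Q w : V) (hP : c.f P = 0) (hQ : c.f Q = 0)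
    (hPQ : c.D P Q = κ) (hQP : c.D Q P = κ) (hPw : c.D P w = 0) (hQw : c.D Q w = 0)
    (hE : c.E P Q w = 0) (hp : c.D w P = κ * p) (hq : c.D w Q = κ * q) (hr : c.f w = κ * r) :
    c.f (x • P + y • Q + s • w) =
      κ * (x * y * (x + y) + s ^ 2 * (p * x + q * y) + s ^ 3 * r) := by
  simp only [c.f_add, c.f_smul, c.D_add, c.D_smul, c.add_D, c.smul_D, c.E_smul1, c.E_smul2,
    hP, hQ, hPQ, hQP, hPw, hQw, hE, hp, hq, hr]
  ring

end cbl

section hom

variable {k : Type*} [Field k] {n : ℕ} (T : Tn k n) {R S : Type*} [CommRing R] [CommRing S]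
  [Algebra k R] [Algebra k S] (φ : R →ₐ[k] S)

private theorem lin_map : (T.map (algebraMap k R)).map (φ : R →+* S) = T.map (algebraMap k S) := by
  funext i j l
  exact φ.commutes (T i j l)

theorem ex_map_f (x : Fin n → R) : (ex T S).f (fun i => φ (x i)) = φ ((ex T R).f x) := by
  have h := map_f (φ : R →+* S) (T.map (algebraMap k R)) x
  rw [lin_map] at h
  exact h

theorem ex_map_D (x y : Fin n → R) :
    (ex T S).D (fun i => φ (x i)) (fun i => φ (y i)) = φ ((ex T R).D x y) := by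
  have h := map_D (φ : R →+* S) (T.map (algebraMap k R)) x y
  rw [lin_map] at h
  exact h

theorem ex_map_E (x y z : Fin n → R) :
    (ex T S).E (fun i => φ (x i)) (fun i => φ (y i)) (fun i => φ (z i)) =
      φ ((ex T R).E x y z) := by
  have h := map_E (φ : R →+* S) (T.map (algebraMap k R)) x y z
  rw [lin_map] at h
  exact h

end hom

/-- a monic cubic -/
noncomputable def cub {R : Type*} [CommRing R] (u v w : R) : R[X] :=
  X ^ 3 + Polynomial.C u * X ^ 2 + Polynomial.C v * X + Polynomial.C w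

section cub

variable {R : Type*} [CommRing R] (u v w : R)

theorem cub_monic [Nontrivial R] : (cub u v w).Monic := by
  unfold cub
  monicity!

theorem cub_natDegree [Nontrivial R] : (cub u v w).natDegree = 3 := by
  unfold cub
  compute_degree!

theorem cub_map {S : Type*} [CommRing S] (φ : R →+* S) :
    (cub u v w).map φ = cub (φ u) (φ v) (φ w) := by
  simp [cub]

theorem cub_aeval {S : Type*} [CommRing S] [Algebra R S] (y : S) :
    aeval y (cub u v w) = y ^ 3 + algebraMap R S u * y ^ 2 + algebraMap R S v * y +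
      algebraMap R S w := by
  simp [cub]

theorem cub_eval (y : R) :
    (cub u v w).eval y = y ^ 3 + u * y ^ 2 + v * y + w := by
  simp [cub]

end cub

variable {k : Type u} [Field k] [CharZero k] {n : ℕ} {T : Tn k n} {G : Type u} [AddCommGroup G]
  (C : Th k T G) {M L : Type u} [Field M] [Field L] [Algebra k M] [Algebra k L] [Algebra M L]
  [IsScalarTower k M L] [FiniteDimensional k M] [FiniteDimensional k L]

/-- a vector `η A + b B` over an extension vanishes only if a vector `y A + b B` does -/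
private theorem lin_ne {L : Type u} [Field L] [Algebra M L] {A B : Fin n → M} (hA : A ≠ 0) (b : M)
    (η : L) (h : (fun j => η * algebraMap M L (A j) + algebraMap M L b * algebraMap M L (B j)) = 0) :
    ∃ y : M, y • A + b • B = 0 := by
  obtain ⟨j, hj⟩ := Function.ne_iff.1 hA
  have hj' : algebraMap M L (A j) ≠ 0 := by
    rw [Ne, map_eq_zero]
    exact hj
  have h1 : η = algebraMap M L (-(b * B j) / A j) := by
    have h2 := congrFun h j
    simp only [Pi.zero_apply] at h2
    rw [map_div₀, map_neg, map_mul, eq_div_iff hj']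
    linear_combination h2
  refine ⟨-(b * B j) / A j, ?_⟩
  funext i
  have h2 := congrFun h i
  simp only [Pi.zero_apply] at h2
  rw [h1, ← map_mul, ← map_mul, ← map_add, map_eq_zero] at h2
  exact h2

omit [CharZero k] [FiniteDimensional k M] in
private theorem lin_evf (t : M) (x : Fin n → M[X]) :
    ((ex T M[X]).f x).eval t = (ex T M).f (fun j => (x j).eval t) := by
  have h := ex_map_f T ((aeval t : M[X] →ₐ[M] M).restrictScalars k) x
  simp only [AlgHom.restrictScalars_apply, coe_aeval_eq_eval] at h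
  exact h.symm

omit [CharZero k] [FiniteDimensional k M] in
private theorem lin_evD (t : M) (x y : Fin n → M[X]) :
    ((ex T M[X]).D x y).eval t =
      (ex T M).D (fun j => (x j).eval t) (fun j => (y j).eval t) := by
  have h := ex_map_D T ((aeval t : M[X] →ₐ[M] M).restrictScalars k) x y
  simp only [AlgHom.restrictScalars_apply, coe_aeval_eq_eval] at h
  exact h.symm

/-- The section of the line `⟨A₀, B₀⟩` is equivalent to the section `θ A₁ + B₁` of the line
`⟨A₁, B₁⟩` (on which `f` has no zero over `M`).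
Proof: `fam` for `A = (1 - λ) A₀ + λ A₁`, `B = (1 - λ) B₀ + λ B₁`, `a = f(A) / f(A₀)`,
`g = Y^3 + Y^2 D(A; B) / f(A₀) + Y a D(B; A) / f(A₀) + a^2 f(B) / f(A₀)`, `ψ = Y A + a B`:
`f(ψ) = a f(A₀) g`; at `λ = 0` this is `h₀` and `Y A₀ + B₀`, at `λ = 1` the zeros are `a(1) θ`. -/
theorem Th.line (A₀ B₀ A₁ B₁ : Fin n → M) (h₀ : M[X]) (hm : h₀.Monic) (hs : h₀.Separable)
    (hA₀ : (ex T M).f A₀ ≠ 0) (hi : LinearIndependent M ![A₀, B₀])
    (hh : ∀ y : M, (ex T M).f (y • A₀ + B₀) = (ex T M).f A₀ * h₀.eval y)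
    (h₁ : ∀ x y : M, (ex T M).f (x • A₁ + y • B₁) = 0 → x = 0 ∧ y = 0) (θ : L)
    (hL : Module.finrank M L = 3) (hθ : (ex T L).f (θ • up L A₁ + up L B₁) = 0) :
    C.sec M h₀ (fun j => X * Polynomial.C (A₀ j) + Polynomial.C (B₀ j)) =
      C.cl L (θ • up L A₁ + up L B₁) := by
  have hchar : CharZero M := charZero_of_injective_algebraMap (algebraMap k M).injective
  have hA1 : (ex T M).f A₁ ≠ 0 := by
    intro h
    have h2 : (ex T M).f ((1 : M) • A₁ + (0 : M) • B₁) = 0 := by
      rw [one_smul, zero_smul, add_zero]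
      exact h
    exact one_ne_zero (h₁ 1 0 h2).1
  have hA0' : A₀ ≠ 0 := by
    rintro rfl
    exact hA₀ (Cb.f_zero _)
  have hA1' : A₁ ≠ 0 := by
    rintro rfl
    exact hA1 (Cb.f_zero _)
  -- the family
  obtain ⟨A, hA⟩ : ∃ A : Fin n → M[X], A = fun j =>
      (1 - X) * Polynomial.C (A₀ j) + X * Polynomial.C (A₁ j) := ⟨_, rfl⟩
  obtain ⟨B, hB⟩ : ∃ B : Fin n → M[X], B = fun j =>
      (1 - X) * Polynomial.C (B₀ j) + X * Polynomial.C (B₁ j) := ⟨_, rfl⟩
  have eA0 : (fun j => (A j).eval 0) = A₀ := by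
    funext j
    simp [hA]
  have eA1 : (fun j => (A j).eval 1) = A₁ := by
    funext j
    simp [hA]
  have eB0 : (fun j => (B j).eval 0) = B₀ := by
    funext j
    simp [hB]
  have eB1 : (fun j => (B j).eval 1) = B₁ := by
    funext j
    simp [hB]
  obtain ⟨f0, hf0⟩ : ∃ f0, f0 = (ex T M).f A₀ := ⟨_, rfl⟩
  have hf0' : f0 ≠ 0 := by rw [hf0]; exact hA₀
  obtain ⟨a, ha⟩ : ∃ a : M[X], a = Polynomial.C f0⁻¹ * (ex T M[X]).f A := ⟨_, rfl⟩
  obtain ⟨u, hu⟩ : ∃ u : M[X], u = Polynomial.C f0⁻¹ * (ex T M[X]).D A B := ⟨_, rfl⟩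
  obtain ⟨v, hv⟩ : ∃ v : M[X], v = Polynomial.C f0⁻¹ * a * (ex T M[X]).D B A := ⟨_, rfl⟩
  obtain ⟨w, hw⟩ : ∃ w : M[X], w = Polynomial.C f0⁻¹ * a ^ 2 * (ex T M[X]).f B := ⟨_, rfl⟩
  have a0 : a.eval 0 = 1 := by
    rw [ha, eval_mul, eval_C, lin_evf, eA0, ← hf0, inv_mul_cancel₀ hf0']
  obtain ⟨a1, ha1⟩ : ∃ a1, a1 = f0⁻¹ * (ex T M).f A₁ := ⟨_, rfl⟩
  have ha1' : a1 ≠ 0 := by
    rw [ha1]
    exact mul_ne_zero (inv_ne_zero hf0') hA1
  have a1e : a.eval 1 = a1 := by
    rw [ha, eval_mul, eval_C, lin_evf, eA1, ha1]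
  obtain ⟨ψ, hψ⟩ : ∃ ψ : Fin n → M[X][X], ψ = (X : M[X][X]) • up M[X][X] A +
      Polynomial.C a • up M[X][X] B := ⟨_, rfl⟩
  have hψj : ∀ j, ψ j = X * Polynomial.C (A j) + Polynomial.C a * Polynomial.C (B j) := by
    intro j
    rw [hψ]
    rfl
  have hfibψ : ∀ (t : M) (j : Fin n), fib t (ψ j) = X * Polynomial.C ((A j).eval t) +
      Polynomial.C (a.eval t) * Polynomial.C ((B j).eval t) := by
    intro t j
    rw [hψj, fib]
    simp
  -- the value of the form
  have hdvd : cub u v w ∣ (ex T M[X][X]).f ψ := by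
    refine ⟨Polynomial.C (Polynomial.C f0 * a), ?_⟩
    have hr : (Polynomial.C f0 : M[X]) * Polynomial.C f0⁻¹ = 1 := by
      rw [← Polynomial.C_mul, mul_inv_cancel₀ hf0', Polynomial.C_1]
    have hfa : (ex T M[X]).f A = Polynomial.C f0 * a := by
      rw [ha]
      linear_combination (-(ex T M[X]).f A) * hr
    have hdu : (ex T M[X]).D A B = Polynomial.C f0 * u := by
      rw [hu]
      linear_combination (-(ex T M[X]).D A B) * hr
    have hdv : a * (ex T M[X]).D B A = Polynomial.C f0 * v := by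
      rw [hv]
      linear_combination (-a * (ex T M[X]).D B A) * hr
    have hdw : a ^ 2 * (ex T M[X]).f B = Polynomial.C f0 * w := by
      rw [hw]
      linear_combination (-a ^ 2 * (ex T M[X]).f B) * hr
    have hdv' := congrArg (Polynomial.C : M[X] → M[X][X]) hdv
    have hdw' := congrArg (Polynomial.C : M[X] → M[X][X]) hdw
    rw [hψ, Cb.f_lin, ex_f, ex_f, ex_D, ex_D, hfa, hdu, cub]
    simp only [Polynomial.algebraMap_eq, Polynomial.C_mul, Polynomial.C_pow] at hdv' hdw' ⊢
    linear_combination (X * Polynomial.C a) * hdv' + Polynomial.C a * hdw'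
  have hfib : ∀ t : M, fib t (cub u v w) = cub (u.eval t) (v.eval t) (w.eval t) := by
    intro t
    rw [fib, cub_map]
    rfl
  -- at zero
  have h0 : fib 0 (cub u v w) = h₀ := by
    apply Polynomial.funext
    intro y
    have e := hh y
    have e1 : y • A₀ + B₀ = y • A₀ + (1 : M) • B₀ := by rw [one_smul]
    rw [e1, Cb.f_lin, ← hf0] at e
    have e2 : h₀.eval y = f0⁻¹ * (f0 * h₀.eval y) := by
      rw [← mul_assoc, inv_mul_cancel₀ hf0', one_mul]
    rw [hfib, cub_eval, e2, ← e, hu, hv, hw]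
    simp only [eval_mul, eval_C, eval_pow, lin_evf, lin_evD, eA0, eB0, a0]
    have e3 : f0⁻¹ * f0 = 1 := inv_mul_cancel₀ hf0'
    linear_combination (-y ^ 3) * e3
  -- at one
  have h1 : ∀ (L' : Type u) [Field L'] [Algebra k L'] [Algebra M L'] [IsScalarTower k M L']
      (y : L'), (ex T L').f (y • up L' A₁ + algebraMap M L' a1 • up L' B₁) =
        algebraMap M L' (a1 * f0) * aeval y (fib 1 (cub u v w)) := by
    intro L' _ _ _ _ y
    rw [Cb.f_lin, ex_f, ex_f, ex_D, ex_D, hfib, cub_aeval, hu, hv, hw]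
    simp only [eval_mul, eval_C, eval_pow, lin_evf, lin_evD, eA1, eB1, a1e]
    have e1 : (ex T M).f A₁ = f0 * a1 := by
      rw [ha1, ← mul_assoc, mul_inv_cancel₀ hf0', one_mul]
    have e3 : algebraMap M L' f0 * algebraMap M L' f0⁻¹ = 1 := by
      rw [← map_mul, mul_inv_cancel₀ hf0', map_one]
    rw [e1]
    simp only [map_mul, map_pow]
    linear_combination (-(algebraMap M L' a1) * y ^ 2 * algebraMap M L' ((ex T M).D A₁ B₁) -
      (algebraMap M L' a1) ^ 2 * y * algebraMap M L' ((ex T M).D B₁ A₁) -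
      (algebraMap M L' a1) ^ 3 * algebraMap M L' ((ex T M).f B₁)) * e3
  have hirr : Irreducible (fib 1 (cub u v w)) := by
    apply irreducible_of_degree_le_three_of_not_isRoot
    · rw [hfib, cub_natDegree]
      decide
    · intro y hy
      have h2 := h1 M y
      have h3 : aeval y (fib 1 (cub u v w)) = 0 := by
        rw [coe_aeval_eq_eval]
        exact hy
      rw [h3, mul_zero] at h2
      exact ha1' (h₁ y a1 h2).2
  have hfam := C.fam M (cub u v w) ψ (cub_monic u v w) hirr (by rw [h0]; exact hs) hdvd (by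
    rintro t (rfl | rfl) L' _ _ η hη hz
    · have h2 : (fun j => η * algebraMap M L' (A₀ j) +
          algebraMap M L' 1 * algebraMap M L' (B₀ j)) = 0 := by
        rw [← hz]
        funext j
        have e1 := congrFun eA0 j
        have e2 := congrFun eB0 j
        rw [hfibψ, e1, e2, a0]
        simp only [map_add, map_mul, aeval_X, aeval_C]
      obtain ⟨y, hy⟩ := lin_ne hA0' 1 η h2
      rw [LinearIndependent.pair_iff] at hi
      exact one_ne_zero (hi y 1 hy).2
    · have h2 : (fun j => η * algebraMap M L' (A₁ j) +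
          algebraMap M L' a1 * algebraMap M L' (B₁ j)) = 0 := by
        rw [← hz]
        funext j
        have e1 := congrFun eA1 j
        have e2 := congrFun eB1 j
        rw [hfibψ, e1, e2, a1e]
        simp only [map_add, map_mul, aeval_X, aeval_C]
      obtain ⟨y, hy⟩ := lin_ne hA1' a1 η h2
      refine ha1' (h₁ y a1 ?_).2
      rw [hy]
      exact Cb.f_zero _)
  have hl : (fun j => fib 0 (ψ j)) = fun j => X * Polynomial.C (A₀ j) + Polynomial.C (B₀ j) := by
    funext j
    have e1 := congrFun eA0 j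
    have e2 := congrFun eB0 j
    rw [hfibψ, e1, e2, a0, Polynomial.C_1, one_mul]
  rw [h0, hl] at hfam
  rw [hfam]
  -- the point over `L`
  have hθ' : aeval (algebraMap M L a1 * θ) (fib 1 (cub u v w)) = 0 := by
    have h2 := h1 L (algebraMap M L a1 * θ)
    have h3 : (algebraMap M L a1 * θ) • up L A₁ + algebraMap M L a1 • up L B₁ =
        algebraMap M L a1 • (θ • up L A₁ + up L B₁) := by
      rw [smul_add, mul_smul]
    rw [h3, Cb.f_smul, hθ, mul_zero] at h2
    have h4 : algebraMap M L (a1 * f0) ≠ 0 := by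
      rw [Ne, map_eq_zero]
      exact mul_ne_zero ha1' hf0'
    exact (mul_eq_zero.1 h2.symm).resolve_left h4
  have hm1 : (fib 1 (cub u v w)).Monic := by
    rw [hfib]
    exact cub_monic _ _ _
  rw [C.sec_irr M L _ _ (algebraMap M L a1 * θ) hm1 hirr hθ' (by rw [hL, hfib, cub_natDegree])]
  have h5 : (fun j => aeval (algebraMap M L a1 * θ) (fib 1 (ψ j))) =
      algebraMap M L a1 • (θ • up L A₁ + up L B₁) := by
    funext j
    have e1 := congrFun eA1 j
    have e2 := congrFun eB1 j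
    rw [hfibψ, e1, e2, a1e]
    simp only [map_add, map_mul, aeval_X, aeval_C, Pi.smul_apply, Pi.add_apply, smul_eq_mul, up]
    ring
  rw [h5, C.smul]
  rw [Ne, map_eq_zero]
  exact ha1'

/-- The polynomial whose zeros are the other intersections of the conic `x (y + e) = -z` with the
curve `x y (x + y) + p x + q y + c = 0`. -/
noncomputable def gze {R : Type*} [CommRing R] (p q c z e : R) : R[X] :=
  Polynomial.C (z ^ 2) * X - Polynomial.C z * (X + Polynomial.C e) * (X ^ 2 + Polynomial.C p) +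
    (Polynomial.C q * X + Polynomial.C c) * (X + Polynomial.C e) ^ 2

/-- a vector `x P + y Q + z w` over an extension is not `0` if `x ≠ 0` -/
private theorem lin_ne3 {L : Type u} [Field L] [Algebra M L] {P Q w : Fin n → M}
    (hi : LinearIndependent M ![P, Q, w]) (x y z : L) (hx : x ≠ 0) :
    (fun j => x * algebraMap M L (P j) + y * algebraMap M L (Q j) +
      z * algebraMap M L (w j)) ≠ 0 := by
  intro h
  have hP : P ∉ Submodule.span M {Q, w} := by
    intro h1
    obtain ⟨a, b, hab⟩ := Submodule.mem_span_pair.1 h1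
    have h2 := Fintype.linearIndependent_iff.1 hi ![1, -a, -b] (by
      rw [Fin.sum_univ_three]
      simp only [Matrix.cons_val_zero, Matrix.cons_val_one, Matrix.cons_val]
      rw [← hab]
      module) 0
    simp at h2
  obtain ⟨φ, hφ, hφ'⟩ := Submodule.exists_dual_map_eq_bot_of_notMem hP inferInstance
  have hz : ∀ v ∈ Submodule.span M {Q, w}, φ v = 0 := by
    intro v hv
    have h2 : φ v ∈ (Submodule.span M {Q, w}).map φ := Submodule.mem_map_of_mem hv
    rw [hφ'] at h2
    exact (Submodule.mem_bot M).1 h2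
  obtain ⟨b, hb⟩ : ∃ b : Fin n → M, b = fun j => φ (fun i => if j = i then 1 else 0) := ⟨_, rfl⟩
  have hsum : ∀ v : Fin n → M, φ v = ∑ j, v j * b j := by
    intro v
    rw [LinearMap.pi_apply_eq_sum_univ φ v, hb]
    rfl
  have h3 : x * algebraMap M L (φ P) + y * algebraMap M L (φ Q) + z * algebraMap M L (φ w) =
      ∑ j, (x * algebraMap M L (P j) + y * algebraMap M L (Q j) +
        z * algebraMap M L (w j)) * algebraMap M L (b j) := by
    rw [hsum P, hsum Q, hsum w, map_sum, map_sum, map_sum, Finset.mul_sum, Finset.mul_sum,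
      Finset.mul_sum, ← Finset.sum_add_distrib, ← Finset.sum_add_distrib]
    refine Finset.sum_congr rfl fun j _ => ?_
    rw [map_mul, map_mul, map_mul]
    ring
  rw [hz Q (Submodule.subset_span (by simp)), hz w (Submodule.subset_span (by simp)), map_zero,
    mul_zero, mul_zero, add_zero, add_zero] at h3
  have h4 : ∑ j, (x * algebraMap M L (P j) + y * algebraMap M L (Q j) +
        z * algebraMap M L (w j)) * algebraMap M L (b j) = 0 := by
    refine Finset.sum_eq_zero fun j _ => ?_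
    have h5 := congrFun h j
    simp only [Pi.zero_apply] at h5
    rw [h5, zero_mul]
  rw [h4] at h3
  rcases mul_eq_zero.1 h3 with h5 | h5
  · exact hx h5
  · rw [map_eq_zero] at h5
    exact hφ h5

/-- The family of conics `x (y + e) = -z`, `e → 0`.
Proof: `fam` for `e = λ e₁`, `g = G / (q - z)`, `ψ = -z P + Y (Y + e) Q + (Y + e) w`:
`f(ψ) = κ (Y + e) G` and `G(Y) = Y (q - z) h₂(Y)` at `e = 0`. -/
theorem Th.conic (κ : M) (hκ : κ ≠ 0) (P Q w : Fin n → M) (hP0 : P ≠ 0)
    (hi : LinearIndependent M ![P, Q, w])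
    (hP : (ex T M).f P = 0) (hQ : (ex T M).f Q = 0) (hPQ : (ex T M).D P Q = κ)
    (hQP : (ex T M).D Q P = κ) (hPw : (ex T M).D P w = 0) (hQw : (ex T M).D Q w = 0)
    (hE : (ex T M).E P Q w = 0) (p q c z e : M) (hp : (ex T M).D w P = κ * p)
    (hq : (ex T M).D w Q = κ * q) (hc : (ex T M).f w = κ * c) (hz : z ≠ 0) (hzq : z ≠ q)
    (hzp : z ≠ p) (hdisc : c ^ 2 ≠ 4 * (q - z) * z * (z - p)) (hirr : Irreducible (gze p q c z e))
    (hL : Module.finrank M L = 3) (θ : L) (hθ : aeval θ (gze p q c z e) = 0) :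
    C.cl M P + C.sec M (X ^ 2 + Polynomial.C (c / (q - z)) * X +
        Polynomial.C (z * (z - p) / (q - z)))
        (fun j => - Polynomial.C (z * P j) + X ^ 2 * Polynomial.C (Q j) +
          X * Polynomial.C (w j)) =
      C.cl L (-(algebraMap M L z) • up L P + (θ * (θ + algebraMap M L e)) • up L Q +
        (θ + algebraMap M L e) • up L w) := by
  have hqz : q - z ≠ 0 := sub_ne_zero.2 (Ne.symm hzq)
  obtain ⟨t, ht⟩ : ∃ t, t = (q - z)⁻¹ := ⟨_, rfl⟩
  have htq : (q - z) * t = 1 := by rw [ht, mul_inv_cancel₀ hqz]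
  have ht0 : t ≠ 0 := by rw [ht]; exact inv_ne_zero hqz
  -- the family
  obtain ⟨E, hEe⟩ : ∃ E : M[X], E = X * Polynomial.C e := ⟨_, rfl⟩
  obtain ⟨a₂, ha₂⟩ : ∃ a₂ : M[X], a₂ = Polynomial.C t *
      (Polynomial.C (2 * q - z) * E + Polynomial.C c) := ⟨_, rfl⟩
  obtain ⟨a₁, ha₁⟩ : ∃ a₁ : M[X], a₁ = Polynomial.C t * (Polynomial.C (z ^ 2 - z * p) +
      Polynomial.C q * E ^ 2 + 2 * Polynomial.C c * E) := ⟨_, rfl⟩
  obtain ⟨a₀, ha₀⟩ : ∃ a₀ : M[X], a₀ = Polynomial.C t *
      (E * (Polynomial.C c * E - Polynomial.C (z * p))) := ⟨_, rfl⟩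
  obtain ⟨P', hP'⟩ : ∃ P' : Fin n → M[X], P' = up M[X] P := ⟨_, rfl⟩
  obtain ⟨Q', hQ'⟩ : ∃ Q' : Fin n → M[X], Q' = up M[X] Q := ⟨_, rfl⟩
  obtain ⟨w', hw'⟩ : ∃ w' : Fin n → M[X], w' = up M[X] w := ⟨_, rfl⟩
  obtain ⟨ψ, hψ⟩ : ∃ ψ : Fin n → M[X][X],
      ψ = (-Polynomial.C (Polynomial.C z)) • up M[X][X] P' +
        (X * (X + Polynomial.C E)) • up M[X][X] Q' + (X + Polynomial.C E) • up M[X][X] w' :=
    ⟨_, rfl⟩
  have hψj : ∀ j, ψ j = -Polynomial.C (Polynomial.C z) * Polynomial.C (Polynomial.C (P j)) +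
      X * (X + Polynomial.C E) * Polynomial.C (Polynomial.C (Q j)) +
      (X + Polynomial.C E) * Polynomial.C (Polynomial.C (w j)) := by
    intro j
    rw [hψ, hP', hQ', hw']
    rfl
  have hfibψ : ∀ (s : M) (j : Fin n), fib s (ψ j) = -Polynomial.C z * Polynomial.C (P j) +
      X * (X + Polynomial.C (s * e)) * Polynomial.C (Q j) +
      (X + Polynomial.C (s * e)) * Polynomial.C (w j) := by
    intro s j
    rw [hψj, fib, hEe]
    simp only [Polynomial.map_add, Polynomial.map_mul, Polynomial.map_neg, Polynomial.map_X,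
      Polynomial.map_C, coe_evalRingHom, eval_mul, eval_X, eval_C]
  have hdvd : cub a₂ a₁ a₀ ∣ (ex T M[X][X]).f ψ := by
    refine ⟨Polynomial.C (Polynomial.C (κ * (q - z))) * (X + Polynomial.C E), ?_⟩
    have hr : (Polynomial.C (Polynomial.C (q - z)) : M[X][X]) * Polynomial.C (Polynomial.C t) =
        1 := by
      rw [← Polynomial.C_mul, ← Polynomial.C_mul, htq, Polynomial.C_1, Polynomial.C_1]
    have e1 := Cb.f_plane' (ex T M[X][X]) (Polynomial.C (Polynomial.C κ))
      (Polynomial.C (Polynomial.C p)) (Polynomial.C (Polynomial.C q))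
      (Polynomial.C (Polynomial.C c)) (-Polynomial.C (Polynomial.C z))
      (X * (X + Polynomial.C E)) (X + Polynomial.C E) (up M[X][X] P') (up M[X][X] Q')
      (up M[X][X] w') (by rw [ex_f, hP', ex_f, hP]; simp) (by rw [ex_f, hQ', ex_f, hQ]; simp)
      (by rw [ex_D, hP', hQ', ex_D, hPQ]; rfl) (by rw [ex_D, hP', hQ', ex_D, hQP]; rfl)
      (by rw [ex_D, hP', hw', ex_D, hPw]; simp) (by rw [ex_D, hQ', hw', ex_D, hQw]; simp)
      (by rw [ex_E, hP', hQ', hw', ex_E, hE]; simp)
      (by rw [ex_D, hP', hw', ex_D, hp, map_mul, map_mul]; rfl)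
      (by rw [ex_D, hQ', hw', ex_D, hq, map_mul, map_mul]; rfl)
      (by rw [ex_f, hw', ex_f, hc, map_mul, map_mul]; rfl)
    rw [hψ, e1, cub, ha₂, ha₁, ha₀]
    simp only [Polynomial.C_mul, Polynomial.C_pow, Polynomial.C_sub, Polynomial.C_add,
      map_ofNat] at hr ⊢
    linear_combination (-(Polynomial.C (Polynomial.C κ)) * (X + Polynomial.C E) *
      ((2 * Polynomial.C (Polynomial.C q) - Polynomial.C (Polynomial.C z)) * Polynomial.C E * X ^ 2 +
        Polynomial.C (Polynomial.C c) * X ^ 2 +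
        ((Polynomial.C (Polynomial.C z)) ^ 2 -
          Polynomial.C (Polynomial.C z) * Polynomial.C (Polynomial.C p) +
          Polynomial.C (Polynomial.C q) * (Polynomial.C E) ^ 2 +
          2 * Polynomial.C (Polynomial.C c) * Polynomial.C E) * X +
        Polynomial.C E * (Polynomial.C (Polynomial.C c) * Polynomial.C E -
          Polynomial.C (Polynomial.C z) * Polynomial.C (Polynomial.C p)))) * hr
  have hfib : ∀ s : M, fib s (cub a₂ a₁ a₀) = cub (t * ((2 * q - z) * (s * e) + c))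
      (t * ((z ^ 2 - z * p) + q * (s * e) ^ 2 + 2 * c * (s * e)))
      (t * ((s * e) * (c * (s * e) - z * p))) := by
    intro s
    rw [fib, cub_map, ha₂, ha₁, ha₀, hEe]
    simp only [coe_evalRingHom, eval_mul, eval_add, eval_sub, eval_pow, eval_C, eval_X,
      eval_ofNat]
  have h1 : gze p q c z e = Polynomial.C (q - z) * fib 1 (cub a₂ a₁ a₀) := by
    rw [hfib, gze, cub, one_mul]
    have hr : (Polynomial.C (q - z) : M[X]) * Polynomial.C t = 1 := by
      rw [← Polynomial.C_mul, htq, Polynomial.C_1]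
    simp only [Polynomial.C_mul, Polynomial.C_pow, Polynomial.C_sub, Polynomial.C_add,
      map_ofNat] at hr ⊢
    linear_combination (-((2 * Polynomial.C q - Polynomial.C z) * Polynomial.C e * X ^ 2 +
        Polynomial.C c * X ^ 2 +
        ((Polynomial.C z) ^ 2 - Polynomial.C z * Polynomial.C p +
          Polynomial.C q * (Polynomial.C e) ^ 2 + 2 * Polynomial.C c * Polynomial.C e) * X +
        Polynomial.C e * (Polynomial.C c * Polynomial.C e -
          Polynomial.C z * Polynomial.C p))) * hr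
  have hirr1 : Irreducible (fib 1 (cub a₂ a₁ a₀)) := by
    rw [h1] at hirr
    have hu : IsUnit (Polynomial.C (q - z)) := by
      rw [Polynomial.isUnit_C]
      exact isUnit_iff_ne_zero.2 hqz
    exact (irreducible_isUnit_mul hu).1 hirr
  obtain ⟨h₂, hh₂⟩ : ∃ h₂ : M[X], h₂ = X ^ 2 + Polynomial.C (c / (q - z)) * X +
        Polynomial.C (z * (z - p) / (q - z)) := ⟨_, rfl⟩
  have hd1 : c / (q - z) = t * c := by rw [ht]; field_simp
  have hd2 : z * (z - p) / (q - z) = t * (z * (z - p)) := by rw [ht]; field_simp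
  have h0 : fib 0 (cub a₂ a₁ a₀) = X * h₂ := by
    rw [hfib, hh₂, cub, hd1, hd2]
    simp only [zero_mul, mul_zero, zero_add, add_zero, ne_eq, OfNat.ofNat_ne_zero,
      not_false_eq_true, zero_pow, Polynomial.C_0]
    have : z ^ 2 - z * p = z * (z - p) := by ring
    rw [this]
    ring
  have hm2 : h₂.Monic := by
    rw [hh₂]
    monicity!
  have hc2 : IsCoprime (X : M[X]) h₂ := by
    refine ⟨-(Polynomial.C (t * (z * (z - p)))⁻¹) * (X + Polynomial.C (t * c)),
      Polynomial.C (t * (z * (z - p)))⁻¹, ?_⟩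
    have hne : t * (z * (z - p)) ≠ 0 := mul_ne_zero ht0 (mul_ne_zero hz (sub_ne_zero.2 hzp))
    have hr : (Polynomial.C (t * (z * (z - p)))⁻¹ : M[X]) *
        Polynomial.C (t * (z * (z - p))) = 1 := by
      rw [← Polynomial.C_mul, inv_mul_cancel₀ hne, Polynomial.C_1]
    rw [hh₂, hd1, hd2]
    linear_combination hr
  have hs2 : h₂.Separable := by
    -- `4 h₂ - (2 X + c t) h₂' = - disc`
    have hdne : (t * c) ^ 2 - 4 * (t * (z * (z - p))) ≠ 0 := by
      intro h
      apply hdisc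
      have e1 : (q - z) ^ 2 * ((t * c) ^ 2 - 4 * (t * (z * (z - p)))) = 0 := by rw [h, mul_zero]
      have e2 : (q - z) ^ 2 * ((t * c) ^ 2 - 4 * (t * (z * (z - p)))) =
          c ^ 2 - 4 * (q - z) * z * (z - p) := by
        linear_combination (c ^ 2 * ((q - z) * t + 1) - 4 * (q - z) * (z * (z - p))) * htq
      rw [e2] at e1
      exact sub_eq_zero.1 e1
    obtain ⟨D, hD⟩ : ∃ D, D = (t * c) ^ 2 - 4 * (t * (z * (z - p))) := ⟨_, rfl⟩
    rw [← hD] at hdne
    have hder : derivative h₂ = 2 * X + Polynomial.C (t * c) := by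
      rw [hh₂, hd1, hd2]
      simp only [derivative_add, derivative_mul, derivative_C, derivative_X, derivative_X_pow,
        zero_mul, zero_add, mul_one, add_zero, Nat.cast_ofNat, map_ofNat]
      ring
    refine ⟨-4 * Polynomial.C D⁻¹, Polynomial.C D⁻¹ * (2 * X + Polynomial.C (t * c)), ?_⟩
    have hr : (Polynomial.C D⁻¹ : M[X]) * Polynomial.C D = 1 := by
      rw [← Polynomial.C_mul, inv_mul_cancel₀ hdne, Polynomial.C_1]
    rw [hder, hh₂, hd1, hd2]
    have hD' := congrArg (Polynomial.C : M → M[X]) hD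
    simp only [Polynomial.C_mul, Polynomial.C_pow, Polynomial.C_sub, map_ofNat] at hD' hr ⊢
    linear_combination hr - (Polynomial.C D⁻¹) * hD'
  have hs0 : (fib 0 (cub a₂ a₁ a₀)).Separable := by
    rw [h0]
    exact separable_X.mul hs2 hc2
  have hfam := C.fam M (cub a₂ a₁ a₀) ψ (cub_monic _ _ _) hirr1 hs0 hdvd (by
    intro s _ L' _ _ η _ hzero
    refine lin_ne3 (L := L') hi (-(algebraMap M L' z)) (η * (η + algebraMap M L' (s * e)))
      (η + algebraMap M L' (s * e)) (neg_ne_zero.2 ?_) ?_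
    · rw [Ne, map_eq_zero]
      exact hz
    · rw [← hzero]
      funext j
      rw [hfibψ]
      simp)
  have hl : (fun j => fib 0 (ψ j)) = fun j => - Polynomial.C (z * P j) +
      X ^ 2 * Polynomial.C (Q j) + X * Polynomial.C (w j) := by
    funext j
    rw [hfibψ, zero_mul, Polynomial.C_0, add_zero, Polynomial.C_mul]
    ring
  rw [h0, hl, C.sec_mul M X h₂ _ monic_X hm2 hc2] at hfam
  have hX : C.sec M X (fun j => - Polynomial.C (z * P j) +
      X ^ 2 * Polynomial.C (Q j) + X * Polynomial.C (w j)) = C.cl M P := by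
    have e1 := C.sec_lin M 0 (fun j => - Polynomial.C (z * P j) +
      X ^ 2 * Polynomial.C (Q j) + X * Polynomial.C (w j))
    rw [Polynomial.C_0, sub_zero] at e1
    rw [e1]
    have e2 : (fun j => eval 0 (- Polynomial.C (z * P j) +
      X ^ 2 * Polynomial.C (Q j) + X * Polynomial.C (w j))) = (-z) • P := by
      funext j
      simp
    rw [e2, C.smul M (-z) P (neg_ne_zero.2 hz)]
  rw [hX] at hfam
  rw [← hh₂, hfam]
  have hθ' : aeval θ (fib 1 (cub a₂ a₁ a₀)) = 0 := by
    rw [h1, map_mul, aeval_C] at hθ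
    refine (mul_eq_zero.1 hθ).resolve_left ?_
    rw [map_eq_zero]
    exact hqz
  have hm1 : (fib 1 (cub a₂ a₁ a₀)).Monic := by
    rw [hfib]
    exact cub_monic _ _ _
  rw [C.sec_irr M L _ _ θ hm1 hirr1 hθ' (by rw [hL, hfib, cub_natDegree])]
  congr 1
  funext j
  rw [hfibψ, one_mul]
  simp only [map_add, map_mul, map_neg, aeval_X, aeval_C, Pi.add_apply, Pi.smul_apply,
    smul_eq_mul, up]

end Cu
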