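import Pool.Agent.Lib.MP_f80667_ag.Cu.Defs

/-! Anisotropic cubic forms over finite fields: the quadratic extension and the derivatives. -/

open Polynomial Finset

namespace Cu

universe u

variable {F : Type u} [Field F] [Finite F]

private theorem line_val {R V : Type*} [CommRing R] [AddCommGroup V] [Module R V] (c : Cb R V)
    (a b : V) (t : R) :
    c.f (a + t • b) = c.f a + t * c.D a b + t ^ 2 * c.D b a + t ^ 3 * c.f b := by
  rw [c.f_add, c.f_smul, c.D_smul, c.smul_D]

private theorem exists_gen {K : Type u} [Field K] [Algebra F K]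
    (hK : Nat.card K = Nat.card F ^ 2) :
    ∃ θ : K, (∀ a : F, algebraMap F K a ≠ θ) ∧
      ∀ x : K, ∃ a b : F, x = algebraMap F K a + algebraMap F K b * θ := by
  classical
  have h1 : 1 < Nat.card F := Finite.one_lt_card
  have hfin : Finite K := by
    refine Nat.finite_of_card_ne_zero ?_
    rw [hK]
    positivity
  have hex : ∃ θ : K, ∀ a : F, algebraMap F K a ≠ θ := by
    by_contra hcon
    push Not at hcon
    have hs : Function.Surjective (algebraMap F K) := hcon
    have := Nat.card_le_card_of_surjective _ hs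
    rw [hK] at this
    nlinarith
  obtain ⟨θ, hθ⟩ := hex
  refine ⟨θ, hθ, ?_⟩
  have hinj : Function.Injective
      (fun p : F × F => algebraMap F K p.1 + algebraMap F K p.2 * θ) := by
    rintro ⟨a, b⟩ ⟨a', b'⟩ hab
    simp only at hab
    have hb : b = b' := by
      by_contra hne
      have hne' : b - b' ≠ 0 := sub_ne_zero.2 hne
      apply hθ ((a' - a) / (b - b'))
      have hne2 : algebraMap F K b - algebraMap F K b' ≠ 0 := by
        rw [← map_sub]
        exact (_root_.map_ne_zero _).2 hne'
      rw [map_div₀, map_sub, map_sub, div_eq_iff hne2]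
      linear_combination -hab
    subst hb
    have ha : algebraMap F K a = algebraMap F K a' := by linear_combination hab
    rw [(algebraMap F K).injective ha]
  have hbij : Function.Bijective
      (fun p : F × F => algebraMap F K p.1 + algebraMap F K p.2 * θ) := by
    have := Fintype.ofFinite F
    have := Fintype.ofFinite K
    rw [Fintype.bijective_iff_injective_and_card]
    refine ⟨hinj, ?_⟩
    rw [Fintype.card_prod, ← Nat.card_eq_fintype_card, ← Nat.card_eq_fintype_card, hK, sq]
  intro x
  obtain ⟨p, hp⟩ := hbij.2 x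
  exact ⟨p.1, p.2, hp.symm⟩

/-- An anisotropic cubic form stays anisotropic over the quadratic extension. -/
theorem aniso_quad {K : Type u} [Field K] [Algebra F K] (hK : Nat.card K = Nat.card F ^ 2) {d : ℕ}
    (T : Tn F d) (h : ∀ x, (cb T).f x = 0 → x = 0) (x : Fin d → K)
    (hx : (cb (T.map (algebraMap F K))).f x = 0) : x = 0 := by
  obtain ⟨θ, hθ, hspan⟩ := exists_gen hK
  choose a b hab using fun i => hspan (x i)
  obtain ⟨u, v, huv⟩ := hspan (θ ^ 2)
  have hindep : ∀ p q : F, algebraMap F K p + algebraMap F K q * θ = 0 → p = 0 ∧ q = 0 := by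
    intro p q hpq
    by_cases hq : q = 0
    · subst hq
      refine ⟨?_, rfl⟩
      rw [map_zero, zero_mul, add_zero] at hpq
      exact (map_eq_zero _).1 hpq
    · exfalso
      apply hθ (-p / q)
      have hq' : algebraMap F K q ≠ 0 := (_root_.map_ne_zero _).2 hq
      rw [map_div₀, map_neg, div_eq_iff hq']
      linear_combination -hpq
  set c := cb (T.map (algebraMap F K)) with hc
  have hx2 : x = (fun i => algebraMap F K (a i)) + θ • (fun i => algebraMap F K (b i)) := by
    funext i
    rw [hab i]
    simp only [Pi.add_apply, Pi.smul_apply, smul_eq_mul]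
    ring
  rw [hx2, line_val, map_f, map_f, map_D, map_D] at hx
  set A := (cb T).f a
  set B := (cb T).D a b
  set C := (cb T).D b a
  set D := (cb T).f b with hD
  have h3 : algebraMap F K (A + C * u + D * (u * v)) +
      algebraMap F K (B + C * v + D * (u + v ^ 2)) * θ = 0 := by
    simp only [map_add, map_mul, map_pow]
    rw [← hx]
    linear_combination (-(algebraMap F K C) - (algebraMap F K D) * θ -
      algebraMap F K D * algebraMap F K v) * huv
  obtain ⟨e1, e2⟩ := hindep _ _ h3
  by_cases hb : b = 0
  · have hD0 : D = 0 := by rw [hD, hb, Cb.f_zero]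
    have hC0 : C = 0 := by
      change (cb T).D b a = 0
      rw [hb, Cb.zero_D]
    have hA : A = 0 := by
      rw [hC0, hD0] at e1
      simpa using e1
    have ha : a = 0 := h a hA
    rw [hx2, ha, hb]
    funext i
    simp
  · exfalso
    have hD0 : D ≠ 0 := fun h0 => hb (h b h0)
    have hz : (cb T).f (a + (-(C + v * D) / D) • b) = 0 := by
      rw [line_val]
      change A + (-(C + v * D) / D) * B + (-(C + v * D) / D) ^ 2 * C +
        (-(C + v * D) / D) ^ 3 * D = 0
      have hA : A = -(C * u + D * (u * v)) := by linear_combination e1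
      have hB : B = -(C * v + D * (u + v ^ 2)) := by linear_combination e2
      rw [hA, hB]
      field_simp
      ring
    have hz2 := h _ hz
    set t := -(C + v * D) / D with ht
    have hxe : x = (θ - algebraMap F K t) • (fun i => algebraMap F K (b i)) := by
      funext i
      have hi := congrFun hz2 i
      simp only [Pi.add_apply, Pi.smul_apply, smul_eq_mul, Pi.zero_apply] at hi
      have hi' := congrArg (algebraMap F K) hi
      rw [map_add, map_mul, map_zero] at hi'
      rw [hab i]
      simp only [Pi.smul_apply, smul_eq_mul]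
      linear_combination hi'
    have hx3 : c.f x = 0 := by
      rw [hx2, line_val, map_f, map_f, map_D, map_D]
      exact hx
    rw [hxe, c.f_smul, map_f] at hx3
    rcases mul_eq_zero.1 hx3 with h0 | h0
    · have := pow_eq_zero_iff (three_ne_zero) |>.1 h0
      exact hθ t (sub_eq_zero.1 this).symm
    · exact hD0 ((map_eq_zero _).1 h0)

/-- Cubing is surjective on a finite field of characteristic `3`. -/
private theorem cube_surj {K : Type*} [Field K] [Finite K] (h3 : (3 : K) = 0) (a : K) :
    ∃ x : K, x ^ 3 = a := by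
  have hinj : Function.Injective (fun x : K => x ^ 3) := by
    intro x y hxy
    simp only at hxy
    have : (x - y) ^ 3 = 0 := by linear_combination hxy - (x ^ 2 * y - x * y ^ 2) * h3
    exact sub_eq_zero.1 (pow_eq_zero_iff three_ne_zero |>.1 this)
  exact Finite.injective_iff_surjective.1 hinj a

/-- In characteristic `3` the derivative of an anisotropic cubic form in at least two variables is
not identically zero. -/
theorem exists_deriv (h3 : (3 : F) = 0) {d : ℕ} (hd : 2 ≤ d) (T : Tn F d)
    (h : ∀ x, (cb T).f x = 0 → x = 0) : ∃ w a : Fin d → F, w ≠ 0 ∧ (cb T).D w a ≠ 0 := by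
  classical
  by_contra hcon
  push Not at hcon
  set e0 : Fin d → F := Pi.single ⟨0, by omega⟩ 1 with he0
  set e1 : Fin d → F := Pi.single ⟨1, by omega⟩ 1 with he1
  have h01 : (⟨0, by omega⟩ : Fin d) ≠ ⟨1, by omega⟩ := by
    intro hh
    have := congrArg Fin.val hh
    simp at this
  have hne0 : e0 ≠ 0 := by
    intro hh
    have := congrFun hh ⟨0, by omega⟩
    simp [he0] at this
  have hne1 : e1 ≠ 0 := by
    intro hh
    have := congrFun hh ⟨1, by omega⟩
    simp [he1] at this
  have hf1 : (cb T).f e1 ≠ 0 := fun hh => hne1 (h _ hh)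
  obtain ⟨t, ht⟩ := cube_surj h3 (-(cb T).f e0 / (cb T).f e1)
  have hz : (cb T).f (e0 + t • e1) = 0 := by
    rw [line_val, hcon e0 e1 hne0, hcon e1 e0 hne1, ht]
    field_simp
    ring
  have := congrFun (h _ hz) ⟨0, by omega⟩
  simp [he0, he1] at this

omit [Finite F] in
/-- Completion of a nonzero vector to a basis. -/
private theorem exists_compl (w : Fin 3 → F) (hw : w ≠ 0) :
    ∃ u v : Fin 3 → F, ∀ (K : Type u) [Field K] [Algebra F K] (x y z : K),
      x • (fun i => algebraMap F K (w i)) + y • (fun i => algebraMap F K (u i)) +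
        z • (fun i => algebraMap F K (v i)) = 0 → x = 0 ∧ y = 0 ∧ z = 0 := by
  obtain ⟨i, hi⟩ := Function.ne_iff.1 hw
  fin_cases i
  · refine ⟨![0, 1, 0], ![0, 0, 1], ?_⟩
    intro K _ _ x y z h
    have h0 := congrFun h 0
    have h1 := congrFun h 1
    have h2 := congrFun h 2
    have hi' : algebraMap F K (w 0) ≠ 0 := (_root_.map_ne_zero _).2 hi
    simp at h0 h1 h2
    have hx : x = 0 := by
      rcases h0 with h0 | h0
      · exact h0
      · exact absurd h0 hi
    subst hx
    simp at h1 h2
    exact ⟨rfl, h1, h2⟩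
  · refine ⟨![1, 0, 0], ![0, 0, 1], ?_⟩
    intro K _ _ x y z h
    have h0 := congrFun h 0
    have h1 := congrFun h 1
    have h2 := congrFun h 2
    have hi' : algebraMap F K (w 1) ≠ 0 := (_root_.map_ne_zero _).2 hi
    simp at h0 h1 h2
    have hx : x = 0 := by
      rcases h1 with h0 | h0
      · exact h0
      · exact absurd h0 hi
    subst hx
    simp at h0 h2
    exact ⟨rfl, h0, h2⟩
  · refine ⟨![1, 0, 0], ![0, 1, 0], ?_⟩
    intro K _ _ x y z h
    have h0 := congrFun h 0
    have h1 := congrFun h 1
    have h2 := congrFun h 2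
    have hi' : algebraMap F K (w 2) ≠ 0 := (_root_.map_ne_zero _).2 hi
    simp at h0 h1 h2
    have hx : x = 0 := by
      rcases h2 with h0 | h0
      · exact h0
      · exact absurd h0 hi
    subst hx
    simp at h0 h1
    exact ⟨rfl, h0, h1⟩

omit [Finite F] in
/-- The contradiction over a finite field of characteristic `3` where the quadratic form has a
zero. -/
private theorem deriv_aux {K : Type u} [Field K] [Finite K] (h3 : (3 : K) = 0) [Algebra F K]
    (T : Tn F 3) (h : ∀ x, (cb (T.map (algebraMap F K))).f x = 0 → x = 0) (w u v : Fin 3 → F)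
    (hli : ∀ x y z : K, x • (fun i => algebraMap F K (w i)) + y • (fun i => algebraMap F K (u i)) +
        z • (fun i => algebraMap F K (v i)) = 0 → x = 0 ∧ y = 0 ∧ z = 0)
    (hD : ∀ a, (cb T).D w a = 0) (s t : K) (hst : s ≠ 0 ∨ t ≠ 0)
    (hq : s ^ 2 * algebraMap F K ((cb T).D u w) + s * t * algebraMap F K ((cb T).E u v w) +
      t ^ 2 * algebraMap F K ((cb T).D v w) = 0) : False := by
  set c := cb (T.map (algebraMap F K)) with hc
  set w' : Fin 3 → K := fun i => algebraMap F K (w i) with hw'
  set u' : Fin 3 → K := fun i => algebraMap F K (u i) with hu'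
  set v' : Fin 3 → K := fun i => algebraMap F K (v i) with hv'
  set y : Fin 3 → K := s • u' + t • v' with hy
  have e1 : c.D w' y = 0 := by
    rw [hy, c.D_add, c.D_smul, c.D_smul, hw', hu', hv', hc, map_D, map_D, hD, hD, map_zero,
      mul_zero, mul_zero, add_zero]
  have e2 : c.D y w' = 0 := by
    rw [hy, c.add_D, c.smul_D, c.smul_D, c.E_smul1, c.E_smul2, hw', hu', hv', hc, map_D, map_D,
      map_E, ← hq]
    ring
  have hy0 : y ≠ 0 := by
    intro hy0
    have := hli 0 s t (by rw [zero_smul, zero_add]; exact hy0)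
    rcases hst with h0 | h0
    · exact h0 this.2.1
    · exact h0 this.2.2
  have hfy : c.f y ≠ 0 := fun hh => hy0 (h y hh)
  obtain ⟨r, hr⟩ := cube_surj h3 (-c.f w' / c.f y)
  have hz : c.f (w' + r • y) = 0 := by
    rw [line_val, e1, e2, hr]
    field_simp
    ring
  have h0 := h _ hz
  have := hli 1 (r * s) (r * t) (by
    rw [← h0, hy, one_smul, smul_add, smul_smul, smul_smul, add_assoc])
  exact one_ne_zero this.1

/-- The derivative of an anisotropic cubic form in `3` variables does not vanish at `w ≠ 0` (in
characteristic `≠ 3` take `a = w`; in characteristic `3` if `D(w; ·) = 0` then `D(·; w)` is a quadratic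
form on `F^3 / F w`, isotropic over the quadratic extension, and `f(x w + y u) = x³ f(w) + y³ f(u)`
has a zero there, since cubing is surjective). -/
theorem deriv_ne (T : Tn F 3) (h : ∀ x, (cb T).f x = 0 → x = 0) (w : Fin 3 → F) (hw : w ≠ 0) :
    ∃ a, (cb T).D w a ≠ 0 := by
  classical
  by_cases h3 : (3 : F) = 0
  swap
  · refine ⟨w, ?_⟩
    rw [Cb.D_self]
    exact mul_ne_zero h3 fun hh => hw (h w hh)
  by_contra hcon
  push Not at hcon
  obtain ⟨u, v, huv⟩ := exists_compl w hw
  by_cases hiso : ∃ s t : F, (s ≠ 0 ∨ t ≠ 0) ∧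
      s ^ 2 * (cb T).D u w + s * t * (cb T).E u v w + t ^ 2 * (cb T).D v w = 0
  · obtain ⟨s, t, hst, hq⟩ := hiso
    exact deriv_aux (K := F) h3 T h w u v (huv F) hcon s t hst hq
  push Not at hiso
  -- the quadratic extension defined by the form itself
  have ha : (cb T).D u w ≠ 0 := by
    have := hiso 1 0 (Or.inl one_ne_zero)
    simpa using this
  set A := (cb T).D u w with hA
  set B := (cb T).E u v w with hB
  set C' := (cb T).D v w with hC
  set p : F[X] := C A * X ^ 2 + C B * X + C C' with hp
  have hdeg : p.natDegree = 2 := natDegree_quadratic ha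
  have hp0 : p ≠ 0 := by
    intro h0
    rw [h0] at hdeg
    simp at hdeg
  have hroots : p.roots = 0 := by
    rw [Multiset.eq_zero_iff_forall_notMem]
    intro s hs
    have h1 : p.eval s = 0 := (mem_roots hp0).1 hs
    apply hiso s 1 (Or.inr one_ne_zero)
    rw [← h1, hp]
    simp
    ring
  have hirr : Irreducible p := by
    rw [irreducible_iff_roots_eq_zero_of_degree_le_three (by omega) (by omega)]
    exact hroots
  have : Fact (Irreducible p) := ⟨hirr⟩
  have hfr : Module.finrank F (AdjoinRoot p) = 2 := by
    rw [(AdjoinRoot.powerBasis hp0).finrank, AdjoinRoot.powerBasis_dim, hdeg]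
  have : Module.Finite F (AdjoinRoot p) := (AdjoinRoot.powerBasis hp0).finite
  have hcard : Nat.card (AdjoinRoot p) = Nat.card F ^ 2 := by
    rw [Module.natCard_eq_pow_finrank (K := F), hfr]
  have : Finite (AdjoinRoot p) := Module.finite_of_finite F
  have h3' : (3 : AdjoinRoot p) = 0 := by
    have h4 := congrArg (algebraMap F (AdjoinRoot p)) h3
    rw [map_zero, map_ofNat] at h4
    exact h4
  refine deriv_aux (K := AdjoinRoot p) h3' T (aniso_quad hcard T h) w u v (huv _) hcon
    (AdjoinRoot.root p) 1 (Or.inr one_ne_zero) ?_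
  have hr : aeval (AdjoinRoot.root p) (C A * X ^ 2 + C B * X + C C') = 0 := by
    change aeval (AdjoinRoot.root p) p = 0
    rw [AdjoinRoot.aeval_eq, AdjoinRoot.mk_self]
  simp only [map_add, map_mul, map_pow, aeval_X, aeval_C] at hr
  rw [← hr]
  ring

end Cu
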