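import Pool.Agent.Lib.MP_f80667_ag.Cu.Basis
import Pool.Agent.Lib.MP_f80667_ag.Cu.Lin
import Pool.Agent.Lib.MP_f80667_ag.Cu.RootA
import Pool.Agent.Lib.MP_f80667_ag.Hens

/-! Eisenstein polynomials are values of an anisotropic cubic form with two vectors in a class and
three vectors in the next class. -/

open IsLocalRing

namespace Cu

section hens

open MvPolynomial Pool.Agent.Lib.MP_f80667_ag

private theorem det3_mem {O : Type*} [CommRing O] (I : Ideal O)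
    (J : Matrix (Fin 3) (Fin 3) O) (d e : O) (h00 : J 0 0 - d ∈ I) (h01 : J 0 1 ∈ I)
    (h02 : J 0 2 ∈ I) (h11 : J 1 1 - d ∈ I) (h12 : J 1 2 ∈ I) (h22 : J 2 2 - e ∈ I) :
    J.det - d * d * e ∈ I := by
  rw [Matrix.det_fin_three]
  have key : J 0 0 * J 1 1 * J 2 2 - J 0 0 * J 1 2 * J 2 1 - J 0 1 * J 1 0 * J 2 2 +
      J 0 1 * J 1 2 * J 2 0 + J 0 2 * J 1 0 * J 2 1 - J 0 2 * J 1 1 * J 2 0 - d * d * e =
      (J 1 1 * J 2 2) * (J 0 0 - d) + (d * J 2 2) * (J 1 1 - d) + (d * d) * (J 2 2 - e) +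
      (-(J 0 0 * J 2 1)) * J 1 2 + (-(J 1 0 * J 2 2) + J 1 2 * J 2 0) * J 0 1 +
      (J 1 0 * J 2 1 - J 1 1 * J 2 0) * J 0 2 := by ring
  rw [key]
  exact I.add_mem (I.add_mem (I.add_mem (I.add_mem (I.add_mem (I.mul_mem_left _ h00)
    (I.mul_mem_left _ h11)) (I.mul_mem_left _ h22)) (I.mul_mem_left _ h12))
    (I.mul_mem_left _ h01)) (I.mul_mem_left _ h02)

/-- Three equations in three unknowns with a triangular Jacobian matrix. -/
private theorem hens_tri {O : Type*} [CommRing O] [IsLocalRing O]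
    [IsAdicComplete (maximalIdeal O) O] (g : Fin 3 → MvPolynomial (Fin 3) O) (a : Fin 3 → O)
    (h0 : ∀ i, eval a (g i) ∈ maximalIdeal O) (d e : O) (hd : IsUnit d) (he : IsUnit e)
    (h00 : eval a (pderiv 0 (g 0)) - d ∈ maximalIdeal O)
    (h01 : eval a (pderiv 1 (g 0)) ∈ maximalIdeal O)
    (h02 : eval a (pderiv 2 (g 0)) ∈ maximalIdeal O)
    (h11 : eval a (pderiv 1 (g 1)) - d ∈ maximalIdeal O)
    (h12 : eval a (pderiv 2 (g 1)) ∈ maximalIdeal O)
    (h22 : eval a (pderiv 2 (g 2)) - e ∈ maximalIdeal O) :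
    ∃ b : Fin 3 → O, ∀ i, eval b (g i) = 0 := by
  set J : Matrix (Fin 3) (Fin 3) O := fun i k => eval a (pderiv k (g i)) with hJ
  have h1 := det3_mem (maximalIdeal O) J d e h00 h01 h02 h11 h12 h22
  have h2 : IsUnit J.det := by
    by_contra h3
    have h4 : J.det ∈ maximalIdeal O := (mem_maximalIdeal _).2 h3
    have h5 : d * d * e ∈ maximalIdeal O := by
      have := (maximalIdeal O).sub_mem h4 h1
      rwa [sub_sub_cancel] at this
    exact (mem_maximalIdeal _).1 h5 ((hd.mul hd).mul he)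
  obtain ⟨b, -, hb⟩ := hensel (maximalIdeal O) g a (fun k j => J⁻¹ k j) h0 (by
    intro i j
    have h3 : J * J⁻¹ = 1 := Matrix.mul_nonsing_inv J h2
    have h4 := congrFun (congrFun h3 i) j
    rw [Matrix.mul_apply, Matrix.one_apply] at h4
    change ∑ k, J i k * J⁻¹ k j - _ ∈ _
    rw [h4, sub_self]
    exact Ideal.zero_mem _)
  exact ⟨b, hb⟩

private theorem hens_eis {O : Type*} [CommRing O] [IsLocalRing O]
    [IsAdicComplete (maximalIdeal O) O] {π : O} (hπ : π ∈ maximalIdeal O)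
    (f0 d00 d00' f0' f1 fa d1a da1 b1 b2 b3 b4 b5 c1 c2 c3 c4 c5 c6 c7 u s a₁ a₂ : O)
    (h1 : f1 = u * f0 + π * s) (hd : IsUnit d1a) (hd0 : IsUnit d00) :
    ∃ ζ η ξ : O,
      f1 + ζ * d1a + ζ ^ 2 * da1 + ζ ^ 3 * fa + π * ξ * (c1 + ζ * c3 + ζ ^ 2 * c2) +
        π ^ 2 * ξ ^ 2 * (c4 + ζ * c5) + π ^ 2 * ξ ^ 3 * f0' -
        u * (f0 + π * (η * b5 + η ^ 2 * b2 + η ^ 3 * fa)) = 0 ∧
      b1 + ζ * b3 + ζ ^ 2 * b2 + π * ξ * (c6 + ζ * c7) + π * ξ ^ 2 * d00' +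
        η * (d1a + 2 * ζ * da1 + 3 * ζ ^ 2 * fa + π * ξ * (c3 + 2 * ζ * c2) +
          π ^ 2 * ξ ^ 2 * c5) - a₂ * (f0 + π * (η * b5 + η ^ 2 * b2 + η ^ 3 * fa)) = 0 ∧
      b4 + ζ * b5 + ξ * d00 + η * (b3 + 2 * ζ * b2 + π * ξ * c7) +
        η ^ 2 * (da1 + 3 * ζ * fa + π * ξ * c2) -
        a₁ * (f0 + π * (η * b5 + η ^ 2 * b2 + η ^ 3 * fa)) = 0 := by
  obtain ⟨d, hdd⟩ := hd
  obtain ⟨e, hee⟩ := hd0
  set η₀ : O := (↑d⁻¹ : O) * (a₂ * f0 - b1) with hη
  set ξ₀ : O := (↑e⁻¹ : O) * (a₁ * f0 - b4 - η₀ * b3 - η₀ ^ 2 * da1) with hξ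
  have e1 : η₀ * d1a = a₂ * f0 - b1 := by
    rw [hη, ← hdd, mul_comm _ (d : O), ← mul_assoc, Units.mul_inv, one_mul]
  have e2 : ξ₀ * d00 = a₁ * f0 - b4 - η₀ * b3 - η₀ ^ 2 * da1 := by
    rw [hξ, ← hee, mul_comm _ (e : O), ← mul_assoc, Units.mul_inv, one_mul]
  have mem : ∀ {x : O} (y : O), x = y * π → x ∈ maximalIdeal O := fun {x} y h => by
    rw [h]
    exact Ideal.mul_mem_left _ _ hπ
  let g : Fin 3 → MvPolynomial (Fin 3) O := ![
    C f1 + X 0 * C d1a + X 0 ^ 2 * C da1 + X 0 ^ 3 * C fa +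
      C π * X 2 * (C c1 + X 0 * C c3 + X 0 ^ 2 * C c2) +
      C (π ^ 2) * X 2 ^ 2 * (C c4 + X 0 * C c5) + C (π ^ 2) * X 2 ^ 3 * C f0' -
      C u * (C f0 + C π * (X 1 * C b5 + X 1 ^ 2 * C b2 + X 1 ^ 3 * C fa)),
    C b1 + X 0 * C b3 + X 0 ^ 2 * C b2 + C π * X 2 * (C c6 + X 0 * C c7) +
      C π * X 2 ^ 2 * C d00' +
      X 1 * (C d1a + C 2 * X 0 * C da1 + C 3 * X 0 ^ 2 * C fa +
        C π * X 2 * (C c3 + C 2 * X 0 * C c2) + C (π ^ 2) * X 2 ^ 2 * C c5) -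
      C a₂ * (C f0 + C π * (X 1 * C b5 + X 1 ^ 2 * C b2 + X 1 ^ 3 * C fa)),
    C b4 + X 0 * C b5 + X 2 * C d00 + X 1 * (C b3 + C 2 * X 0 * C b2 + C π * X 2 * C c7) +
      X 1 ^ 2 * (C da1 + C 3 * X 0 * C fa + C π * X 2 * C c2) -
      C a₁ * (C f0 + C π * (X 1 * C b5 + X 1 ^ 2 * C b2 + X 1 ^ 3 * C fa))]
  obtain ⟨b, hb⟩ := hens_tri g ![0, η₀, ξ₀] (by
    intro i
    fin_cases i
    · refine mem (s + ξ₀ * c1 + π * ξ₀ ^ 2 * c4 + π * ξ₀ ^ 3 * f0' -
        u * (η₀ * b5 + η₀ ^ 2 * b2 + η₀ ^ 3 * fa)) ?_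
      simp [g]
      rw [h1]
      ring
    · refine mem (ξ₀ * c6 + ξ₀ ^ 2 * d00' + η₀ * (ξ₀ * c3 + π * ξ₀ ^ 2 * c5) -
        a₂ * (η₀ * b5 + η₀ ^ 2 * b2 + η₀ ^ 3 * fa)) ?_
      simp [g]
      linear_combination e1
    · refine mem (η₀ * ξ₀ * c7 + η₀ ^ 2 * ξ₀ * c2 -
        a₁ * (η₀ * b5 + η₀ ^ 2 * b2 + η₀ ^ 3 * fa)) ?_
      simp [g]
      linear_combination e2) d1a d00 ⟨d, hdd⟩ ⟨e, hee⟩
    (mem (ξ₀ * c3 + π * ξ₀ ^ 2 * c5) (by simp [g, pderiv_X]; ring))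
    (mem (-u * (b5 + 2 * η₀ * b2 + 3 * η₀ ^ 2 * fa)) (by simp [g, pderiv_X]; ring))
    (mem (c1 + 2 * π * ξ₀ * c4 + 3 * π * ξ₀ ^ 2 * f0') (by simp [g, pderiv_X]; ring))
    (mem (ξ₀ * c3 + π * ξ₀ ^ 2 * c5 - a₂ * (b5 + 2 * η₀ * b2 + 3 * η₀ ^ 2 * fa))
      (by simp [g, pderiv_X]; ring))
    (mem (c6 + 2 * ξ₀ * d00' + η₀ * (c3 + 2 * π * ξ₀ * c5)) (by simp [g, pderiv_X]; ring))
    (mem (η₀ * c7 + η₀ ^ 2 * c2) (by simp [g, pderiv_X]; ring))
  refine ⟨b 0, b 1, b 2, ?_, ?_, ?_⟩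
  · have := hb 0
    simpa [g] using this
  · have := hb 1
    simpa [g] using this
  · have := hb 2
    simpa [g] using this

end hens

universe u

section eis

variable {O K V : Type u} [CommRing O] [IsDomain O] [IsDiscreteValuationRing O]
  [IsAdicComplete (maximalIdeal O) O] [Finite (ResidueField O)] [Field K] [Algebra O K]
  [IsFractionRing O K] [AddCommGroup V] [Module K V] {c : Cb K V} {W : Submodule K V} {π : O}

omit [IsAdicComplete (maximalIdeal O) O] [Finite (ResidueField O)] [IsFractionRing O K] in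
private theorem unit_of (hπ : Irreducible π) {m : ℤ} {x : K} (hp : algebraMap O K π ≠ 0)
    (h : Vg π m x) (h' : ¬ Vg π (m + 1) x) :
    ∃ t : O, IsUnit t ∧ x = algebraMap O K π ^ m * algebraMap O K t := by
  obtain ⟨t, ht⟩ := h
  refine ⟨t, ?_, ht⟩
  by_contra hcon
  have h1 : t ∈ maximalIdeal O := (mem_maximalIdeal _).2 hcon
  rw [hπ.maximalIdeal_eq, Ideal.mem_span_singleton] at h1
  obtain ⟨b, rfl⟩ := h1
  apply h'
  refine ⟨b, ?_⟩
  rw [ht, zpow_add₀ hp, zpow_one, map_mul]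
  ring

private def ten3 (c : Cb K V) (e : Fin 3 → V) : Tn K 3 := fun i j l =>
  if i = j then (if j = l then c.f (e i) else c.D (e i) (e l))
  else if i < j ∧ j < l then c.E (e i) (e j) (e l) else 0

omit [IsDomain O] [IsDiscreteValuationRing O] [IsAdicComplete (maximalIdeal O) O]
  [Finite (ResidueField O)] [Algebra O K] [IsFractionRing O K] in
private theorem ten3_f (c : Cb K V) (e : Fin 3 → V) (x : Fin 3 → K) :
    c.f (∑ i, x i • e i) = (cb (ten3 c e)).f x := by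
  simp only [cb, ten3, Fin.sum_univ_three]
  simp only [c.f_add, c.add_D, c.D_add, c.f_smul, c.smul_D, c.D_smul, c.E_smul, c.E_smul1,
    c.E_smul2]
  simp
  ring

omit [IsDomain O] [IsDiscreteValuationRing O] [IsAdicComplete (maximalIdeal O) O]
  [Finite (ResidueField O)] [Algebra O K] [IsFractionRing O K] in
private theorem E_self' (c : Cb K V) (x y : V) : c.E x y y = 2 * c.D y x := by
  rw [c.E_comm, c.E_comm', c.E_self]

omit [IsDomain O] [IsDiscreteValuationRing O] [IsAdicComplete (maximalIdeal O) O]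
  [Finite (ResidueField O)] [Algebra O K] [IsFractionRing O K] in
private theorem E_self'' (c : Cb K V) (x y : V) : c.E y x y = 2 * c.D y x := by
  rw [c.E_comm', c.E_self]

omit [IsDomain O] [IsDiscreteValuationRing O] [IsAdicComplete (maximalIdeal O) O]
  [Finite (ResidueField O)] [Algebra O K] [IsFractionRing O K] in
private theorem ten3_D (c : Cb K V) (e : Fin 3 → V) (x y : Fin 3 → K) :
    c.D (∑ i, x i • e i) (∑ i, y i • e i) = (cb (ten3 c e)).D x y := by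
  have h1 : c.E (e 0) (e 2) (e 1) = c.E (e 0) (e 1) (e 2) := c.E_comm' _ _ _
  have h2 : c.E (e 1) (e 2) (e 0) = c.E (e 0) (e 1) (e 2) := by
    rw [c.E_comm', c.E_comm]
  simp only [cb, ten3, Fin.sum_univ_three]
  simp only [c.add_D, c.D_add, c.smul_D, c.D_smul, c.E_smul, c.E_smul1, c.E_add,
    c.E_smul2, c.E_add1, c.D_self, c.E_self, E_self', E_self'', h1, h2]
  simp
  ring

private theorem chev4 {F : Type u} [Field F] [Finite F] (T : Tn F 3)
    (h : ∀ x, (cb T).f x = 0 → x = 0) (r : F) : ∃ x : Fin 3 → F, (cb T).f x = r := by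
  let T4 : Tn F 4 := fun i j l => Fin.cases (if j = 0 ∧ l = 0 then -r else 0)
    (fun i' => Fin.cases 0 (fun j' => Fin.cases 0 (fun l' => T i' j' l') l) j) i
  have hT4 : ∀ x, (cb T4).f x = (cb T).f (fun i => x i.succ) - r * x 0 ^ 3 := by
    intro x
    simp only [cb, T4, Fin.sum_univ_succ (n := 3), Fin.cases_zero, Fin.cases_succ, zero_mul,
      Finset.sum_const_zero, zero_add]
    simp
    ring
  obtain ⟨x, hx, hx0⟩ := chev T4
  rw [hT4] at hx0
  by_cases h0 : x 0 = 0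
  · exfalso
    apply hx
    rw [h0] at hx0
    have h1 := h (fun i => x i.succ) (by rw [← hx0]; ring)
    funext i
    refine Fin.cases h0 (fun j => ?_) i
    exact congrFun h1 j
  · refine ⟨(x 0)⁻¹ • (fun i => x i.succ), ?_⟩
    rw [Cb.f_smul]
    have h1 : (cb T).f (fun i => x i.succ) = r * x 0 ^ 3 := by linear_combination hx0
    rw [h1]
    field_simp

private theorem pick3 (hW : An c W) (hπ : Irreducible π) {m : ℤ} {e : Fin 3 → V}
    (he : ∀ i, e i ∈ W) (hs : Sys c π m e) (r : O) (hr : IsUnit r) :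
    ∃ w a : V, w ∈ W ∧ a ∈ W ∧
      (∃ s : O, c.f w = algebraMap O K π ^ m * algebraMap O K (r + π * s)) ∧
      (∃ t : O, IsUnit t ∧ c.D w a = algebraMap O K π ^ m * algebraMap O K t) ∧
      Vg π m (c.f a) := by
  have hv0 : ∀ i, Vg π m (c.f (e i)) := by
    intro i
    have h1 := (hs (Pi.single i 1) ⟨i, by rw [Pi.single_eq_same]; exact isUnit_one⟩).1
    rw [Finset.sum_eq_single i] at h1
    · rwa [Pi.single_eq_same, map_one, one_smul] at h1
    · intro j _ hj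
      rw [Pi.single_eq_of_ne hj, map_zero, zero_smul]
    · intro hi
      exact absurd (Finset.mem_univ i) hi
  have hv : ∀ i j l, Vg π m (ten3 c e i j l) := by
    intro i j l
    unfold ten3
    split_ifs
    · exact hv0 i
    · exact hW.D_le hπ (he i) (he l) (hv0 i) (hv0 l) (by omega)
    · exact hW.E_le hπ (he i) (he j) (he l) (hv0 i) (hv0 j) (hv0 l) (by omega)
    · exact Vg.zero m
  choose T hT using hv
  have hf : ∀ y : Fin 3 → O, c.f (∑ i, algebraMap O K (y i) • e i) =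
      algebraMap O K π ^ m * algebraMap O K ((cb T).f y) := by
    intro y
    rw [ten3_f c e (fun i => algebraMap O K (y i)), ← map_f]
    simp only [cb, Tn.map, Finset.mul_sum]
    refine Finset.sum_congr rfl fun i _ => Finset.sum_congr rfl fun j _ =>
      Finset.sum_congr rfl fun l _ => ?_
    rw [hT i j l]
    ring
  have hD : ∀ y z : Fin 3 → O, c.D (∑ i, algebraMap O K (y i) • e i)
      (∑ i, algebraMap O K (z i) • e i) =
      algebraMap O K π ^ m * algebraMap O K ((cb T).D y z) := by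
    intro y z
    rw [ten3_D c e (fun i => algebraMap O K (y i)) (fun i => algebraMap O K (z i)), ← map_D]
    simp only [cb, Tn.map, Finset.mul_sum]
    refine Finset.sum_congr rfl fun i _ => Finset.sum_congr rfl fun j _ =>
      Finset.sum_congr rfl fun l _ => ?_
    rw [hT i j l]
    ring
  have hsur := residue_surjective (R := O)
  have hani : ∀ x, (cb (Tn.map (residue O) T)).f x = 0 → x = 0 := by
    intro x hx0
    by_contra hx
    choose y hy using fun i => hsur (x i)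
    have hxy : x = fun i => residue O (y i) := funext fun i => (hy i).symm
    obtain ⟨i₀, hi₀⟩ : ∃ i, x i ≠ 0 := by
      by_contra hcon
      push Not at hcon
      exact hx (funext hcon)
    have hu : IsUnit (y i₀) := by
      by_contra h1
      apply hi₀
      rw [← hy i₀]
      exact (residue_eq_zero_iff _).2 ((mem_maximalIdeal _).2 h1)
    apply (hs y ⟨i₀, hu⟩).2
    rw [hxy, map_f] at hx0
    have hmem : (cb T).f y ∈ maximalIdeal O := (residue_eq_zero_iff _).1 hx0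
    rw [hπ.maximalIdeal_eq, Ideal.mem_span_singleton] at hmem
    obtain ⟨b, hb⟩ := hmem
    rw [hf, hb]
    refine ⟨b, ?_⟩
    rw [map_mul, zpow_add₀ (pi_ne hπ), zpow_one]
    ring
  obtain ⟨x, hx⟩ := chev4 _ hani (residue O r)
  have hr' : residue O r ≠ 0 := (residue_ne_zero_iff_isUnit _).2 hr
  have hx0 : x ≠ 0 := by
    rintro rfl
    rw [Cb.f_zero] at hx
    exact hr' hx.symm
  obtain ⟨z, hz⟩ := deriv_ne _ hani x hx0
  choose y hy using fun i => hsur (x i)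
  choose α hα using fun i => hsur (z i)
  have hxy : x = fun i => residue O (y i) := funext fun i => (hy i).symm
  have hzα : z = fun i => residue O (α i) := funext fun i => (hα i).symm
  rw [hxy, hzα, map_D] at hz
  rw [hxy, map_f] at hx
  refine ⟨∑ i, algebraMap O K (y i) • e i, ∑ i, algebraMap O K (α i) • e i,
    W.sum_mem fun i _ => W.smul_mem _ (he i), W.sum_mem fun i _ => W.smul_mem _ (he i), ?_,
    ⟨_, (residue_ne_zero_iff_isUnit _).1 hz, hD y α⟩, ⟨_, hf α⟩⟩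
  have h1 : (cb T).f y - r ∈ maximalIdeal O := by
    rw [← residue_eq_zero_iff, map_sub, hx, sub_self]
  rw [hπ.maximalIdeal_eq, Ideal.mem_span_singleton] at h1
  obtain ⟨s, hs1⟩ := h1
  refine ⟨s, ?_⟩
  rw [hf]
  congr 2
  linear_combination hs1

private theorem cube3 {F : Type*} [Field F] [Finite F] (h3 : (3 : F) = 0) (a : F) :
    ∃ x : F, x ^ 3 = a := by
  have hinj : Function.Injective (fun x : F => x ^ 3) := by
    intro x y hxy
    simp only at hxy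
    have : (x - y) ^ 3 = 0 := by linear_combination hxy - (x ^ 2 * y - x * y ^ 2) * h3
    exact sub_eq_zero.1 (pow_eq_zero_iff three_ne_zero |>.1 this)
  exact Finite.injective_iff_surjective.1 hinj a

private theorem pick2 (hW : An c W) (hπ : Irreducible π) {m : ℤ} {e : Fin 2 → V}
    (he : ∀ i, e i ∈ W) (hs : Sys c π m e) :
    ∃ w w' : V, w ∈ W ∧ w' ∈ W ∧
      (∃ t : O, IsUnit t ∧ c.f w = algebraMap O K π ^ m * algebraMap O K t) ∧
      (∃ t : O, IsUnit t ∧ c.D w w' = algebraMap O K π ^ m * algebraMap O K t) ∧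
      Vg π m (c.f w') := by
  have hp := pi_ne (K := K) hπ
  have hsum : ∀ x : Fin 2 → O, ∑ i, algebraMap O K (x i) • e i =
      algebraMap O K (x 0) • e 0 + algebraMap O K (x 1) • e 1 := fun x =>
    Fin.sum_univ_two _
  have h0 := hs ![1, 0] ⟨0, isUnit_one⟩
  have h1 := hs ![0, 1] ⟨1, isUnit_one⟩
  rw [hsum] at h0 h1
  simp only [Matrix.cons_val_zero, Matrix.cons_val_one, map_one, map_zero, one_smul, zero_smul,
    add_zero, zero_add] at h0 h1
  obtain ⟨t0, ht0, e0⟩ := unit_of hπ hp h0.1 h0.2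
  obtain ⟨t1, ht1, e1⟩ := unit_of hπ hp h1.1 h1.2
  by_cases h3 : IsUnit (3 : O)
  · refine ⟨e 0, e 0, he 0, he 0, ⟨t0, ht0, e0⟩, ⟨3 * t0, h3.mul ht0, ?_⟩, h0.1⟩
    rw [c.D_self, e0, map_mul, map_ofNat]
    ring
  have hb := hW.D_le hπ (he 0) (he 1) h0.1 h1.1 (k := m) (by omega)
  have hc := hW.D_le hπ (he 1) (he 0) h1.1 h0.1 (k := m) (by omega)
  obtain ⟨b, hbe⟩ := hb
  obtain ⟨d, hde⟩ := hc
  by_cases hbu : IsUnit b
  · exact ⟨e 0, e 1, he 0, he 1, ⟨t0, ht0, e0⟩, ⟨b, hbu, hbe⟩, h1.1⟩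
  by_cases hdu : IsUnit d
  · exact ⟨e 1, e 0, he 1, he 0, ⟨t1, ht1, e1⟩, ⟨d, hdu, hde⟩, h0.1⟩
  exfalso
  have h3' : (3 : ResidueField O) = 0 := by
    have h4 : residue O 3 = 0 := (residue_eq_zero_iff _).2 ((mem_maximalIdeal _).2 h3)
    rw [map_ofNat] at h4
    exact h4
  have hb0 : residue O b = 0 := (residue_eq_zero_iff _).2 ((mem_maximalIdeal _).2 hbu)
  have hd0 : residue O d = 0 := (residue_eq_zero_iff _).2 ((mem_maximalIdeal _).2 hdu)
  have ht0' : residue O t0 ≠ 0 := (residue_ne_zero_iff_isUnit _).2 ht0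
  obtain ⟨x, hx⟩ := cube3 h3' (-residue O t1 / residue O t0)
  obtain ⟨y, rfl⟩ := residue_surjective x
  have hmem : t0 * y ^ 3 + y ^ 2 * b + y * d + t1 ∈ maximalIdeal O := by
    rw [← residue_eq_zero_iff]
    simp only [map_add, map_mul, map_pow, hx, hb0, hd0]
    field_simp
    ring
  rw [hπ.maximalIdeal_eq, Ideal.mem_span_singleton] at hmem
  obtain ⟨s, hs1⟩ := hmem
  apply (hs ![y, 1] ⟨1, isUnit_one⟩).2
  rw [hsum]
  simp only [Matrix.cons_val_zero, Matrix.cons_val_one]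
  rw [Cb.f_lin, e0, e1, hbe, hde]
  refine ⟨s, ?_⟩
  have h5 := congrArg (algebraMap O K) hs1
  simp only [map_add, map_mul, map_pow] at h5
  rw [zpow_add₀ hp, zpow_one, map_one]
  linear_combination (algebraMap O K π ^ m) * h5

omit [IsAdicComplete (maximalIdeal O) O] [Finite (ResidueField O)] in
private theorem indep_of (hπ : Irreducible π) {u : O} (hu : IsUnit u) {v₀ v₁ : V}
    (h0 : c.f v₀ ≠ 0) (h1 : c.f v₁ = algebraMap O K (π * u) * c.f v₀) :
    LinearIndependent K ![v₀, v₁] := by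
  rw [LinearIndependent.pair_iff]
  intro s t hst
  have e1 : c.f (s • v₀) = - c.f (t • v₁) := by
    have h2 : s • v₀ = -(t • v₁) := eq_neg_of_add_eq_zero_left hst
    rw [h2, Cb.f_neg]
  rw [c.f_smul, c.f_smul, h1] at e1
  have e2 : s ^ 3 = -(t ^ 3 * algebraMap O K (π * u)) := by
    apply mul_right_cancel₀ h0
    linear_combination e1
  by_cases ht : t = 0
  · subst ht
    refine ⟨?_, rfl⟩
    have h3 : s ^ 3 = 0 := by rw [e2]; ring
    exact pow_eq_zero_iff three_ne_zero |>.1 h3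
  · exfalso
    have hs : s ≠ 0 := by
      rintro rfl
      have h3 : t ^ 3 * algebraMap O K (π * u) = 0 := by linear_combination e2
      rcases mul_eq_zero.1 h3 with h4 | h4
      · exact ht (pow_eq_zero_iff three_ne_zero |>.1 h4)
      · rw [IsFractionRing.to_map_eq_zero_iff] at h4
        rcases mul_eq_zero.1 h4 with h5 | h5
        · exact hπ.ne_zero h5
        · exact hu.ne_zero h5
    obtain ⟨i, α, hα, rfl⟩ := exists_ord (O := O) hπ hs
    obtain ⟨j, β, hβ, rfl⟩ := exists_ord (O := O) hπ ht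
    have hp := pi_ne (K := K) hπ
    have e3 : algebraMap O K π ^ (3 * i) * algebraMap O K (α ^ 3) =
        algebraMap O K π ^ (3 * j + 1) * algebraMap O K (-(β ^ 3 * u)) := by
      have z1 : algebraMap O K π ^ (3 * i) = (algebraMap O K π ^ i) ^ 3 := by
        rw [mul_comm, zpow_mul]
        exact zpow_ofNat _ 3
      have z2 : algebraMap O K π ^ (3 * j) = (algebraMap O K π ^ j) ^ 3 := by
        rw [mul_comm, zpow_mul]
        exact zpow_ofNat _ 3
      rw [zpow_add₀ hp, z1, z2, zpow_one, map_neg, map_mul, map_pow, map_pow]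
      rw [map_mul] at e2
      linear_combination e2
    have k1 := vg_iff (K := K) hπ (k := 3 * i) (i := 3 * j + 1) (hα.pow 3)
    have k2 := vg_iff (K := K) hπ (k := 3 * j + 1) (i := 3 * i) ((hβ.pow 3).mul hu).neg
    have k3 := k1.1 (by rw [e3]; exact (vg_iff hπ ((hβ.pow 3).mul hu).neg).2 le_rfl)
    have k4 := k2.1 (by rw [← e3]; exact (vg_iff hπ (hα.pow 3)).2 le_rfl)
    omega


/-- Eisenstein polynomials `x³ + π a₁ x² + π a₂ x + π u` are `f(x v₀ + v₁) / f(v₀)`.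
Proof. `v₀ = w₀ + η a`, `v₁ = w₁ + ζ a + π ξ w'` with `w₀, w'` in the span of `e` over `O`, and
`w₁, a` in the span of `e'`: `w₀, w'` with `D(w₀; w') / π ^ m` a unit (`w' = w₀` if `3` is a unit;
otherwise one of `D(e₀; e₁)`, `D(e₁; e₀)`); `w₁` with `f(w₁) ≡ π u f(w₀)` modulo
`π ^ (m + 2)` (Chevalley for `f_{m+1}(w) = u f_m(w₀) t³` in `4` variables; `t ≠ 0` by anisotropy,
divide by `t`), `a` with `D(w₁; a) / π ^ (m+1)` a unit
(`deriv_ne`). The three equations, divided by `π ^ (m+1)`, have modulo `π` a triangular Jacobian: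
`f(v₁) = π u f(v₀)` contains only `ζ`, `D(v₁; v₀) = π a₂ f(v₀)` contains `ζ` and `η` (with
coefficient `D(w₁; a)`), `D(v₀; v₁) = π a₁ f(v₀)` contains `ζ`, `η`, `ξ` (with coefficient
`D(w₀; w')`); all by `An.D_le`, `An.E_le`. Hensel (first solve modulo `π` one after the other). -/
theorem eis (hW : An c W) (hπ : Irreducible π) {m : ℤ} {e : Fin 2 → V} {e' : Fin 3 → V}
    (he : ∀ i, e i ∈ W) (he' : ∀ i, e' i ∈ W) (hs : Sys c π m e) (hs' : Sys c π (m + 1) e')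
    (a₁ a₂ u : O) (hu : IsUnit u) :
    ∃ v₀ v₁ : V, LinearIndependent K ![v₀, v₁] ∧
      c.D v₀ v₁ = algebraMap O K (π * a₁) * c.f v₀ ∧
      c.D v₁ v₀ = algebraMap O K (π * a₂) * c.f v₀ ∧
      c.f v₁ = algebraMap O K (π * u) * c.f v₀ := by
  have hp := pi_ne (K := K) hπ
  obtain ⟨w0, w', hw0, hw', ⟨f0, hf0, ef0⟩, ⟨d00, hd00, ed00⟩, vw'⟩ := pick2 hW hπ he hs
  obtain ⟨w1, a, hw1, ha, ⟨s, ef1⟩, ⟨d1a, hd1a, ed1a⟩, va⟩ :=
    pick3 hW hπ he' hs' (u * f0) (hu.mul hf0)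
  have vw0 : Vg π m (c.f w0) := ⟨f0, ef0⟩
  have vw1 : Vg π (m + 1) (c.f w1) := ⟨_, ef1⟩
  obtain ⟨d00', ed00'⟩ := hW.D_le hπ hw' hw0 vw' vw0 (k := m) (by omega)
  obtain ⟨da1, eda1⟩ := hW.D_le hπ ha hw1 va vw1 (k := m + 1) (by omega)
  obtain ⟨b1, eb1⟩ := hW.D_le hπ hw1 hw0 vw1 vw0 (k := m + 1) (by omega)
  obtain ⟨b2, eb2⟩ := hW.D_le hπ ha hw0 va vw0 (k := m + 1) (by omega)
  obtain ⟨b3, eb3⟩ := hW.E_le hπ hw1 ha hw0 vw1 va vw0 (k := m + 1) (by omega)
  obtain ⟨b4, eb4⟩ := hW.D_le hπ hw0 hw1 vw0 vw1 (k := m + 1) (by omega)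
  obtain ⟨b5, eb5⟩ := hW.D_le hπ hw0 ha vw0 va (k := m + 1) (by omega)
  obtain ⟨c1, ec1⟩ := hW.D_le hπ hw1 hw' vw1 vw' (k := m + 1) (by omega)
  obtain ⟨c2, ec2⟩ := hW.D_le hπ ha hw' va vw' (k := m + 1) (by omega)
  obtain ⟨c3, ec3⟩ := hW.E_le hπ hw1 ha hw' vw1 va vw' (k := m + 1) (by omega)
  obtain ⟨c4, ec4⟩ := hW.D_le hπ hw' hw1 vw' vw1 (k := m + 1) (by omega)
  obtain ⟨c5, ec5⟩ := hW.D_le hπ hw' ha vw' va (k := m + 1) (by omega)
  obtain ⟨c6, ec6⟩ := hW.E_le hπ hw1 hw' hw0 vw1 vw' vw0 (k := m + 1) (by omega)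
  obtain ⟨c7, ec7⟩ := hW.E_le hπ ha hw' hw0 va vw' vw0 (k := m + 1) (by omega)
  obtain ⟨f0', ef0'⟩ := vw'
  obtain ⟨fa, efa⟩ := va
  obtain ⟨ζ, η, ξ, g1, g2, g3⟩ := hens_eis (π := π) ((mem_maximalIdeal _).2 hπ.not_isUnit) f0 d00
    d00' f0' (u * f0 + π * s) fa d1a da1 b1 b2 b3 b4 b5 c1 c2 c3 c4 c5 c6 c7 u s a₁ a₂ rfl hd1a
    hd00
  -- the values of the trilinear form in other orders
  have p1 : c.E w0 a w1 = c.E w1 a w0 := by rw [c.E_comm', c.E_comm, c.E_comm']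
  have p2 : c.E w1 w' a = c.E w1 a w' := c.E_comm' _ _ _
  have p3 : c.E w0 a w' = c.E a w' w0 := by rw [c.E_comm, c.E_comm']
  have p4 : c.E w0 a a = 2 * c.D a w0 := E_self' c _ _
  have p5 : c.E w1 a a = 2 * c.D a w1 := E_self' c _ _
  have p6 : c.E a w' a = 2 * c.D a w' := by rw [c.E_comm', c.E_self]
  have z1 : algebraMap O K π ^ (m + 1) = algebraMap O K π ^ m * algebraMap O K π := by
    rw [zpow_add₀ hp, zpow_one]
  rw [z1] at ef1 ed1a eda1 eb1 eb2 eb3 eb4 eb5 ec1 ec2 ec3 ec4 ec5 ec6 ec7 efa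
  rw [eb3] at p1
  rw [ec3] at p2
  rw [ec7] at p3
  rw [eb2] at p4
  rw [eda1] at p5
  rw [ec2] at p6
  have F0 : c.f (w0 + algebraMap O K η • a) = algebraMap O K π ^ m *
      algebraMap O K (f0 + π * (η * b5 + η ^ 2 * b2 + η ^ 3 * fa)) := by
    rw [c.f_add, c.D_smul, c.smul_D, c.f_smul, ef0, eb5, eb2, efa]
    simp only [map_add, map_mul, map_pow]
    ring
  have F1 : c.f (w1 + algebraMap O K ζ • a + algebraMap O K (π * ξ) • w') =
      algebraMap O K π ^ m * algebraMap O K π *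
      algebraMap O K (u * (f0 + π * (η * b5 + η ^ 2 * b2 + η ^ 3 * fa))) := by
    have g1' := sub_eq_zero.1 g1
    rw [← g1']
    simp only [c.f_add, c.add_D, c.D_add, c.f_smul, c.smul_D, c.D_smul, c.E_smul,
      c.E_smul2, ef1, ed1a, eda1, efa, ec1, ec2, ec3, ec4, ec5, ef0']
    simp only [map_add, map_mul, map_pow]
    ring
  have F2 : c.D (w1 + algebraMap O K ζ • a + algebraMap O K (π * ξ) • w')
      (w0 + algebraMap O K η • a) = algebraMap O K π ^ m * algebraMap O K π *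
      algebraMap O K (a₂ * (f0 + π * (η * b5 + η ^ 2 * b2 + η ^ 3 * fa))) := by
    have g2' := sub_eq_zero.1 g2
    rw [← g2']
    simp only [c.add_D, c.D_add, c.smul_D, c.D_smul, c.E_add, c.E_smul, c.E_smul1,
      c.E_smul2, c.E_add1, c.D_self, p2, p5, p6, ed1a, efa, eb1, eb2, eb3, ec5, ec6, ec7, ed00']
    simp only [map_add, map_mul, map_pow, map_ofNat]
    ring
  have F3 : c.D (w0 + algebraMap O K η • a)
      (w1 + algebraMap O K ζ • a + algebraMap O K (π * ξ) • w') =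
      algebraMap O K π ^ m * algebraMap O K π *
      algebraMap O K (a₁ * (f0 + π * (η * b5 + η ^ 2 * b2 + η ^ 3 * fa))) := by
    have g3' := sub_eq_zero.1 g3
    rw [← g3']
    simp only [c.add_D, c.D_add, c.smul_D, c.D_smul, c.E_add, c.E_smul,
      c.E_smul2, c.D_self, p1, p3, p4, eda1, efa, eb4, eb5, ec2, ed00]
    simp only [map_add, map_mul, map_pow, map_ofNat]
    ring
  have hF : IsUnit (f0 + π * (η * b5 + η ^ 2 * b2 + η ^ 3 * fa)) := by
    by_contra hcon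
    have h1 : f0 + π * (η * b5 + η ^ 2 * b2 + η ^ 3 * fa) ∈ maximalIdeal O :=
      (mem_maximalIdeal _).2 hcon
    have h2 : π * (η * b5 + η ^ 2 * b2 + η ^ 3 * fa) ∈ maximalIdeal O :=
      Ideal.mul_mem_right _ _ ((mem_maximalIdeal _).2 hπ.not_isUnit)
    exact (mem_maximalIdeal _).1 ((Ideal.add_mem_iff_left _ h2).1 h1) hf0
  have hne : c.f (w0 + algebraMap O K η • a) ≠ 0 := by
    rw [F0]
    refine mul_ne_zero (zpow_ne_zero _ hp) ?_
    rw [Ne, IsFractionRing.to_map_eq_zero_iff]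
    exact hF.ne_zero
  have hv1 : c.f (w1 + algebraMap O K ζ • a + algebraMap O K (π * ξ) • w') =
      algebraMap O K (π * u) * c.f (w0 + algebraMap O K η • a) := by
    rw [F1, F0, map_mul, map_mul]
    ring
  refine ⟨w0 + algebraMap O K η • a, w1 + algebraMap O K ζ • a + algebraMap O K (π * ξ) • w',
    indep_of hπ hu hne hv1, ?_, ?_, hv1⟩
  · rw [F3, F0, map_mul, map_mul]
    ring
  · rw [F2, F0, map_mul, map_mul]
    ring

end eis

end Cu
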