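import Pool.Agent.Lib.MP_f80667_ag.Cu.Defs
import Pool.Agent.Lib.MP_f80667_ag.Cu.Bin

/-! The simple root over finite fields. -/

open Polynomial Finset

namespace Cu

universe u

/-- A linear form. -/
def lf {R : Type*} [CommRing R] {d : ℕ} (P w : Fin d → R) : R := ∑ i, P i * w i

section lf

variable {R : Type*} [CommRing R] {d : ℕ} (P : Fin d → R)

theorem lf_add (v w : Fin d → R) : lf P (v + w) = lf P v + lf P w := by
  simp only [lf, Pi.add_apply, mul_add, sum_add_distrib]

theorem lf_smul (s : R) (w : Fin d → R) : lf P (s • w) = s * lf P w := by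
  simp only [lf, Pi.smul_apply, smul_eq_mul, mul_sum]
  exact sum_congr rfl fun i _ => by ring

theorem lf_zero : lf P 0 = 0 := by
  simp only [lf, Pi.zero_apply, mul_zero, sum_const_zero]

theorem lf_map {S : Type*} [CommRing S] (φ : R →+* S) (w : Fin d → R) :
    lf (fun i => φ (P i)) (fun i => φ (w i)) = φ (lf P w) := by
  simp only [lf, map_sum, map_mul]

/-- The linear form as a linear map. -/
def lfl : (Fin d → R) →ₗ[R] R where
  toFun := lf P
  map_add' := lf_add P
  map_smul' s w := lf_smul P s w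

end lf

/-- Polynomials of degree at most `2` have roots in the quadratic extension. -/
theorem quad_root {F K : Type u} [Field F] [Finite F] [Field K] [Algebra F K]
    (hK : Nat.card K = Nat.card F ^ 2) (α β γ : F) (h : α ≠ 0 ∨ β ≠ 0) :
    ∃ s : K, algebraMap F K α * s ^ 2 + algebraMap F K β * s + algebraMap F K γ = 0 := by
  classical
  by_cases hα : α = 0
  · have hβ : β ≠ 0 := by
      rcases h with h | h
      · exact absurd hα h
      · exact h
    refine ⟨algebraMap F K (-γ / β), ?_⟩
    rw [hα, map_zero, zero_mul, zero_add, ← map_mul, ← map_add, mul_div_cancel₀ _ hβ,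
      neg_add_cancel, map_zero]
  · set p : F[X] := C α * X ^ 2 + C β * X + C γ with hp
    have hdeg : p.natDegree = 2 := natDegree_quadratic hα
    have hev : ∀ s : K, aeval s p = algebraMap F K α * s ^ 2 + algebraMap F K β * s +
        algebraMap F K γ := by
      intro s
      simp only [hp, map_add, map_mul, map_pow, aeval_C, aeval_X]
    by_cases hr : ∃ x, p.IsRoot x
    · obtain ⟨x, hx⟩ := hr
      refine ⟨algebraMap F K x, ?_⟩
      rw [← hev, aeval_algebraMap_apply, coe_aeval_eq_eval, hx.eq_zero, map_zero]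
    · push Not at hr
      have hirr : Irreducible p := by
        apply irreducible_of_degree_le_three_of_not_isRoot ?_ hr
        rw [hdeg]
        simp
      have hdvd : p ∣ X ^ (Nat.card F) ^ 2 - X :=
        (hirr.natDegree_dvd_iff_dvd_X_pow_card_pow_sub_X).1 (by rw [hdeg])
      have : Finite K := by
        apply Nat.finite_of_card_ne_zero
        rw [hK]
        exact pow_ne_zero 2 Nat.card_pos.ne'
      have := Fintype.ofFinite K
      have hc : 1 < Fintype.card K := Fintype.one_lt_card
      have hs : (X ^ Fintype.card K - X : K[X]).Splits := by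
        rw [splits_iff_card_roots, FiniteField.roots_X_pow_card_sub_X,
          FiniteField.X_pow_card_sub_X_natDegree_eq K hc]
        rfl
      have hdvd2 : p.map (algebraMap F K) ∣ X ^ Fintype.card K - X := by
        have := map_dvd (algebraMap F K) hdvd
        rw [← Nat.card_eq_fintype_card, hK]
        simpa using this
      have hs2 := hs.of_dvd (FiniteField.X_pow_card_sub_X_ne_zero K hc) hdvd2
      obtain ⟨s, hs3⟩ := hs2.exists_eval_eq_zero (by
        intro h0
        have h1 := natDegree_eq_of_degree_eq_some h0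
        rw [natDegree_map, hdeg] at h1
        exact absurd h1 (by norm_num))
      refine ⟨s, ?_⟩
      rw [← hev, aeval_def, ← eval_map]
      exact hs3

/-- Chevalley - Warning for the cubic form of the problem. -/
theorem chev_prod {F : Type*} [Field F] [Finite F] (T : Tn F 3) (P Q : Fin 3 → F) (c : F) :
    ∃ (m : F) (a : Fin 3 → F), (m ≠ 0 ∨ a ≠ 0) ∧
      m * (m + lf P a) * (m + lf Q a) = c * (cb T).f a := by
  classical
  have := Fintype.ofFinite F
  obtain ⟨p, hp⟩ := CharP.exists F
  have hpp : p.Prime := (CharP.char_is_prime_or_zero F p).resolve_right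
    (CharP.char_ne_zero_of_finite F p)
  let g : MvPolynomial (Option (Fin 3)) F :=
    MvPolynomial.X none * (MvPolynomial.X none +
        ∑ i, MvPolynomial.C (P i) * MvPolynomial.X (some i)) *
      (MvPolynomial.X none + ∑ i, MvPolynomial.C (Q i) * MvPolynomial.X (some i)) -
    MvPolynomial.C c * ∑ i, ∑ j, ∑ l, MvPolynomial.C (T i j l) *
      (MvPolynomial.X (some i) * MvPolynomial.X (some j) * MvPolynomial.X (some l))
  have hl : ∀ P : Fin 3 → F, (MvPolynomial.X none +
      ∑ i, MvPolynomial.C (P i) * MvPolynomial.X (some i) :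
      MvPolynomial (Option (Fin 3)) F).IsHomogeneous 1 := by
    intro P
    refine (MvPolynomial.isHomogeneous_X _ _).add (MvPolynomial.IsHomogeneous.sum _ _ _ ?_)
    intro i _
    have := (MvPolynomial.isHomogeneous_C (Option (Fin 3)) (P i)).mul
      (MvPolynomial.isHomogeneous_X F (some i))
    simpa using this
  have hg : g.IsHomogeneous 3 := by
    refine MvPolynomial.IsHomogeneous.sub ?_ ?_
    · exact ((MvPolynomial.isHomogeneous_X _ _).mul (hl P)).mul (hl Q)
    · have h1 : (∑ i, ∑ j, ∑ l, MvPolynomial.C (T i j l) *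
          (MvPolynomial.X (some i) * MvPolynomial.X (some j) * MvPolynomial.X (some l)) :
          MvPolynomial (Option (Fin 3)) F).IsHomogeneous 3 := by
        refine MvPolynomial.IsHomogeneous.sum _ _ _ fun i _ =>
          MvPolynomial.IsHomogeneous.sum _ _ _ fun j _ =>
          MvPolynomial.IsHomogeneous.sum _ _ _ fun l _ => ?_
        have := (MvPolynomial.isHomogeneous_C (Option (Fin 3)) (T i j l)).mul
          (((MvPolynomial.isHomogeneous_X F (some i)).mul
          (MvPolynomial.isHomogeneous_X F (some j))).mul (MvPolynomial.isHomogeneous_X F (some l)))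
        simpa using this
      have := (MvPolynomial.isHomogeneous_C (Option (Fin 3)) c).mul h1
      simpa using this
  have hdeg : g.totalDegree < Fintype.card (Option (Fin 3)) := by
    have := hg.totalDegree_le
    simp only [Fintype.card_option, Fintype.card_fin]
    omega
  have hev : ∀ x : Option (Fin 3) → F, MvPolynomial.eval x g =
      x none * (x none + lf P (fun i => x (some i))) * (x none + lf Q (fun i => x (some i))) -
        c * (cb T).f (fun i => x (some i)) := by
    intro x
    simp only [g, lf, cb, map_sub, map_mul, map_add, map_sum, MvPolynomial.eval_X,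
      MvPolynomial.eval_C]
  have hd := char_dvd_card_solutions p hdeg
  have h0 : MvPolynomial.eval (0 : Option (Fin 3) → F) g = 0 := by
    rw [hev]
    have : (cb T).f (fun i => (0 : Option (Fin 3) → F) (some i)) = 0 := (cb T).f_zero
    rw [this]
    simp
  have h1 : 1 < Fintype.card {x : Option (Fin 3) → F // MvPolynomial.eval x g = 0} := by
    have hpos : 0 < Fintype.card {x : Option (Fin 3) → F // MvPolynomial.eval x g = 0} :=
      Fintype.card_pos_iff.2 ⟨⟨0, h0⟩⟩
    exact lt_of_lt_of_le hpp.one_lt (Nat.le_of_dvd hpos hd)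
  obtain ⟨⟨x, hx⟩, hne⟩ := Fintype.exists_ne_of_one_lt_card h1 ⟨0, h0⟩
  refine ⟨x none, fun i => x (some i), ?_, ?_⟩
  · by_contra hcon
    push Not at hcon
    apply hne
    apply Subtype.ext
    funext o
    cases o with
    | none => exact hcon.1
    | some i => exact congrFun hcon.2 i
  · rw [hev] at hx
    linear_combination hx

/-- One of two zeros of the section by a line is simple unless all are equal. -/
theorem good_of {K : Type*} [Field K] {m p q e : K} (h : m * (m + p) * (m + q) = e)
    (hn : 3 * m + p + q ≠ 0 ∨ 3 * m ^ 2 + 2 * m * (p + q) + p * q ≠ 0) :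
    ∃ m' : K, m' * (m' + p) * (m' + q) = e ∧ 3 * m' ^ 2 + 2 * m' * (p + q) + p * q ≠ 0 := by
  by_cases h1 : 3 * m ^ 2 + 2 * m * (p + q) + p * q = 0
  · have h2 : 3 * m + p + q ≠ 0 := by
      rcases hn with h2 | h2
      · exact h2
      · exact absurd h1 h2
    refine ⟨-(p + q) - 2 * m, ?_, ?_⟩
    · linear_combination h + (-(p + q) - 3 * m) * h1
    · intro h3
      apply h2
      have : (3 * m + p + q) ^ 2 = 0 := by linear_combination h3 - h1
      exact pow_eq_zero_iff (two_ne_zero) |>.1 this
  · exact ⟨m, h, h1⟩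

section core

variable {F K : Type u} [Field F] [Field K] [Algebra F K] (T : Tn F 3) (P Q : Fin 3 → F) (c : F)

/-- The statement. -/
def GoodR (K : Type u) [Field K] [Algebra F K] : Prop :=
  ∃ (w : Fin 3 → K) (m : K), w ≠ 0 ∧
    m * (m + lf (fun i => algebraMap F K (P i)) w) * (m + lf (fun i => algebraMap F K (Q i)) w) =
      algebraMap F K c * (cb (T.map (algebraMap F K))).f w ∧
    3 * m ^ 2 + 2 * m * (lf (fun i => algebraMap F K (P i)) w +
      lf (fun i => algebraMap F K (Q i)) w) +
      lf (fun i => algebraMap F K (P i)) w * lf (fun i => algebraMap F K (Q i)) w ≠ 0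

variable {T P Q c}

/-- A zero which is not bad. -/
theorem good_of_zero (w : Fin 3 → K) (m p q : K) (hp : lf (fun i => algebraMap F K (P i)) w = p)
    (hq : lf (fun i => algebraMap F K (Q i)) w = q)
    (h : m * (m + p) * (m + q) = algebraMap F K c * (cb (T.map (algebraMap F K))).f w)
    (hn : 3 * m + p + q ≠ 0 ∨ 3 * m ^ 2 + 2 * m * (p + q) + p * q ≠ 0) : GoodR T P Q c K := by
  obtain ⟨m', h1, h2⟩ := good_of h hn
  refine ⟨w, m', ?_, ?_, ?_⟩
  · rintro rfl
    rw [lf_zero] at hp hq
    subst hp hq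
    rw [Cb.f_zero, mul_zero] at h
    have hm : m = 0 := by
      have : m ^ 3 = 0 := by linear_combination h
      exact pow_eq_zero_iff (three_ne_zero) |>.1 this
    rcases hn with hn | hn
    · apply hn; rw [hm]; ring
    · apply hn; rw [hm]; ring
  · rw [hp, hq]; exact h1
  · rw [hp, hq]; exact h2

/-- The line through a bad point. -/
theorem line_good (hquad : ∀ α β γ : F, (α ≠ 0 ∨ β ≠ 0) →
      ∃ s : K, algebraMap F K α * s ^ 2 + algebraMap F K β * s + algebraMap F K γ = 0)
    {m₀ A B C : F} {a : Fin 3 → F} (hA : A = m₀) (hB : B = m₀ + lf P a) (hC : C = m₀ + lf Q a)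
    (h0 : A * B * C = c * (cb T).f a) {m : F} {u : Fin 3 → F}
    (hnb : (3 * m + lf P u + lf Q u ≠ 0 ∧ A + B + C = 0) ∨
      ((3 : F) = 0 ∧ lf P u ≠ 0 ∧ lf P a = 0))
    (hno : ¬ GoodR T P Q c K) :
    A * B * (m + lf Q u) + A * (m + lf P u) * C + m * B * C - c * (cb T).D a u = 0 ∧
      A * (m + lf P u) * (m + lf Q u) + m * B * (m + lf Q u) + m * (m + lf P u) * C -
        c * (cb T).D u a = 0 := by
  by_contra hcon
  have hcon' : A * B * (m + lf Q u) + A * (m + lf P u) * C + m * B * C - c * (cb T).D a u ≠ 0 ∨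
      A * (m + lf P u) * (m + lf Q u) + m * B * (m + lf Q u) + m * (m + lf P u) * C -
        c * (cb T).D u a ≠ 0 := by
    by_contra hh
    push Not at hh
    exact hcon hh
  obtain ⟨s, hs⟩ := hquad _ _ (m * (m + lf P u) * (m + lf Q u) - c * (cb T).f u) hcon'
  apply hno
  set φ := algebraMap F K with hφ
  set a' : Fin 3 → K := fun i => φ (a i) with ha'
  set u' : Fin 3 → K := fun i => φ (u i) with hu'
  have hP : lf (fun i => φ (P i)) (s • a' + u') = s * φ (lf P a) + φ (lf P u) := by
    rw [lf_add, lf_smul, ha', hu', lf_map, lf_map]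
  have hQ : lf (fun i => φ (Q i)) (s • a' + u') = s * φ (lf Q a) + φ (lf Q u) := by
    rw [lf_add, lf_smul, ha', hu', lf_map, lf_map]
  have hf : (cb (T.map φ)).f (s • a' + u') = s ^ 3 * φ ((cb T).f a) + s ^ 2 * φ ((cb T).D a u) +
      s * φ ((cb T).D u a) + φ ((cb T).f u) := by
    rw [Cb.f_add, Cb.f_smul, Cb.smul_D, Cb.D_smul, ha', hu', map_f, map_f, map_D, map_D]
  refine good_of_zero (s • a' + u') (s * φ m₀ + φ m) _ _ hP hQ ?_ ?_
  · rw [hf]
    simp only [map_sub, map_add, map_mul] at hs
    have h0' := congrArg φ h0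
    rw [hA, hB, hC] at h0' hs
    simp only [map_add, map_mul] at h0' hs
    linear_combination hs + s ^ 3 * h0'
  · rcases hnb with ⟨h1, h2⟩ | ⟨h30, h1, h2⟩
    · left
      intro h3
      apply h1
      apply (algebraMap F K).injective
      rw [map_zero]
      rw [hA, hB, hC] at h2
      have h2' := congrArg φ h2
      simp only [map_add, map_zero] at h2'
      simp only [map_add, map_mul, map_ofNat]
      linear_combination h3 - s * h2'
    · by_contra hcc
      push Not at hcc
      obtain ⟨h3, h4⟩ := hcc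
      rw [h2, map_zero, mul_zero, zero_add] at h3 h4
      have h3K : (3 : K) = 0 := by
        have h6 : φ (3 : F) = 0 := by rw [h30, map_zero]
        rwa [map_ofNat] at h6
      have h5 : φ (lf P u) ^ 2 = 0 := by
        linear_combination (φ (lf P u) + 2 * (s * φ m₀ + φ m)) * h3 - h4 -
          ((s * φ m₀ + φ m) ^ 2 + φ (lf P u) * (s * φ m₀ + φ m)) * h3K
      exact h1 ((map_eq_zero φ).1 (pow_eq_zero_iff (two_ne_zero) |>.1 h5))

/-- Two independent vectors in the kernel of a linear form. -/
theorem ker_two (hP : P ≠ 0) : ∃ b₁ b₂ : Fin 3 → F, lf P b₁ = 0 ∧ lf P b₂ = 0 ∧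
    ∀ x y : F, x • b₁ + y • b₂ = 0 → x = 0 ∧ y = 0 := by
  obtain ⟨i, hi⟩ := Function.ne_iff.1 hP
  rw [Pi.zero_apply] at hi
  fin_cases i
  · refine ⟨![-P 1, P 0, 0], ![-P 2, 0, P 0], ?_, ?_, fun x y h => ?_⟩
    · simp [lf, Fin.sum_univ_three]; ring
    · simp [lf, Fin.sum_univ_three]; ring
    · have h1 := congrFun h 1
      have h2 := congrFun h 2
      simp at h1 h2
      exact ⟨h1.resolve_right hi, h2.resolve_right hi⟩
  · refine ⟨![P 1, -P 0, 0], ![0, -P 2, P 1], ?_, ?_, fun x y h => ?_⟩
    · simp [lf, Fin.sum_univ_three]; ring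
    · simp [lf, Fin.sum_univ_three]; ring
    · have h1 := congrFun h 0
      have h2 := congrFun h 2
      simp at h1 h2
      exact ⟨h1.resolve_right hi, h2.resolve_right hi⟩
  · refine ⟨![P 2, 0, -P 0], ![0, P 2, -P 1], ?_, ?_, fun x y h => ?_⟩
    · simp [lf, Fin.sum_univ_three]; ring
    · simp [lf, Fin.sum_univ_three]; ring
    · have h1 := congrFun h 0
      have h2 := congrFun h 1
      simp at h1 h2
      exact ⟨h1.resolve_right hi, h2.resolve_right hi⟩

/-- The case of characteristic `≠ 3`. -/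
theorem root_ne3 [Finite F] (hF : 16 ≤ Nat.card F) (hquad : ∀ α β γ : F, (α ≠ 0 ∨ β ≠ 0) →
      ∃ s : K, algebraMap F K α * s ^ 2 + algebraMap F K β * s + algebraMap F K γ = 0)
    (han : ∀ x, (cb T).f x = 0 → x = 0) (hc : c ≠ 0) (h3 : (3 : F) ≠ 0) {A B C : F}
    {a : Fin 3 → F} (ha : a ≠ 0) (hB : B = A + lf P a) (hC : C = A + lf Q a)
    (h0 : A * B * C = c * (cb T).f a) (h1 : A + B + C = 0) (h2 : A * B + B * C + C * A = 0) :
    GoodR T P Q c K := by
  classical
  by_contra hno
  have hfa : (cb T).f a ≠ 0 := fun h => ha (han a h)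
  have hABC : A * B * C ≠ 0 := by rw [h0]; exact mul_ne_zero hc hfa
  have hA0 : A ≠ 0 := fun h => hABC (by rw [h]; ring)
  have hC0 : C ≠ 0 := fun h => hABC (by rw [h]; ring)
  obtain ⟨d, hd0, hd1⟩ : ∃ d : F, d ≠ 0 ∧ d ≠ 1 := by
    have := Fintype.ofFinite F
    rw [Nat.card_eq_fintype_card] at hF
    obtain ⟨d, -, hd⟩ := Finset.exists_mem_notMem_of_card_lt_card
      (s := ({0, 1} : Finset F)) (t := (univ : Finset F)) (by
        have := Finset.card_le_two (a := (0 : F)) (b := 1)
        rw [card_univ]; omega)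
    simp only [mem_insert, mem_singleton, not_or] at hd
    exact ⟨d, hd.1, hd.2⟩
  have key : ∀ u, B * lf P u + C * lf Q u = 0 := by
    intro u
    set m := -(lf P u + lf Q u) / 3 with hm
    have hm3 : 3 * m = -(lf P u + lf Q u) := by rw [hm]; field_simp
    have e1 := (line_good hquad (m₀ := A) rfl hB hC h0 (m := m + 1) (u := u)
      (Or.inl ⟨by
        intro h
        apply h3
        linear_combination h - hm3, h1⟩) hno).2
    have e2 := (line_good hquad (m₀ := A) rfl hB hC h0 (m := m + d) (u := u)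
      (Or.inl ⟨by
        intro h
        have : 3 * d = 0 := by linear_combination h - hm3
        rcases mul_eq_zero.1 this with h | h
        · exact h3 h
        · exact hd0 h, h1⟩) hno).2
    have e3 : (1 - d) * (A * (lf P u + lf Q u) + B * lf Q u + C * lf P u) = 0 := by
      linear_combination e1 - e2 - ((m + 1) ^ 2 - (m + d) ^ 2) * h1
    have e4 := (mul_eq_zero.1 e3).resolve_left (sub_ne_zero.2 hd1.symm)
    linear_combination (lf P u + lf Q u) * h1 - e4
  have hw : (B / A) ^ 2 + B / A + 1 = 0 := by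
    field_simp
    linear_combination (A + B) * h1 - h2
  have hP : P ≠ 0 := by
    rintro rfl
    have e1 : B = A := by rw [hB]; simp [lf]
    have e2 : 3 * A ^ 2 = 0 := by
      rw [e1] at h1 h2
      linear_combination 2 * A * h1 - h2
    rcases mul_eq_zero.1 e2 with h | h
    · exact h3 h
    · exact hA0 (pow_eq_zero_iff (two_ne_zero) |>.1 h)
  obtain ⟨b₁, b₂, hb₁, hb₂, hind⟩ := ker_two hP
  have hgb : ∀ v : F × F, gb ((cb T).f b₁) ((cb T).D b₁ b₂) ((cb T).D b₂ b₁) ((cb T).f b₂) v =
      (cb T).f (v.1 • b₁ + v.2 • b₂) := by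
    intro v
    rw [Cb.f_add, Cb.f_smul, Cb.f_smul, Cb.smul_D, Cb.smul_D, Cb.D_smul, Cb.D_smul, gb]
    ring
  have := Fintype.ofFinite F
  obtain ⟨v, hv, t, ht⟩ := bin_cube (by rwa [Nat.card_eq_fintype_card] at hF) (fun v hv => by
    rw [hgb] at hv
    have e1 := hind _ _ (han _ hv)
    exact Prod.ext e1.1 e1.2) h3 hw c hc
  rw [hgb] at ht
  set w := v.1 • b₁ + v.2 • b₂ with hwd
  have hPw : lf P w = 0 := by
    rw [hwd, lf_add, lf_smul, lf_smul, hb₁, hb₂, mul_zero, mul_zero, add_zero]
  have hQw : lf Q w = 0 := by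
    have := key w
    rw [hPw, mul_zero, zero_add] at this
    exact (mul_eq_zero.1 this).resolve_left hC0
  have hw0 : w ≠ 0 := by
    intro h
    have e1 := hind _ _ h
    exact hv (Prod.ext e1.1 e1.2)
  have ht0 : t ≠ 0 := by
    rintro rfl
    rw [zero_pow three_ne_zero] at ht
    rcases mul_eq_zero.1 ht with h | h
    · exact hc h
    · exact hw0 (han _ h)
  apply hno
  refine good_of_zero (fun i => algebraMap F K (w i)) (algebraMap F K t) 0 0 ?_ ?_ ?_ ?_
  · rw [lf_map, hPw, map_zero]
  · rw [lf_map, hQw, map_zero]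
  · rw [map_f, ← map_mul, ht, add_zero, map_pow]; ring
  · left
    rw [add_zero, add_zero]
    have : algebraMap F K (3 * t) ≠ 0 := by
      rw [Ne, map_eq_zero]
      exact mul_ne_zero h3 ht0
    rwa [map_mul, map_ofNat] at this

/-- Cubing in characteristic `3`. -/
theorem cube_surj [Finite F] (h3 : (3 : F) = 0) (r : F) : ∃ x : F, x ^ 3 = r := by
  have hinj : Function.Injective fun x : F => x ^ 3 := by
    intro x y h
    dsimp only at h
    have : (x - y) ^ 3 = 0 := by
      linear_combination h + (-x ^ 2 * y + x * y ^ 2) * h3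
    exact sub_eq_zero.1 (pow_eq_zero_iff (three_ne_zero) |>.1 this)
  exact (Finite.injective_iff_surjective.1 hinj) r

/-- The case of characteristic `3`. -/
theorem root_eq3 [Finite F] (hquad : ∀ α β γ : F, (α ≠ 0 ∨ β ≠ 0) →
      ∃ s : K, algebraMap F K α * s ^ 2 + algebraMap F K β * s + algebraMap F K γ = 0)
    (han : ∀ x, (cb T).f x = 0 → x = 0) (hc : c ≠ 0) (h3 : (3 : F) = 0) (hP : P ≠ 0) {A B C : F}
    {a : Fin 3 → F} (ha : a ≠ 0) (hB : B = A + lf P a) (hC : C = A + lf Q a)
    (h0 : A * B * C = c * (cb T).f a) (h1 : A + B + C = 0) (h2 : A * B + B * C + C * A = 0) :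
    GoodR T P Q c K := by
  by_contra hno
  have hfa : (cb T).f a ≠ 0 := fun h => ha (han a h)
  have hABC : A * B * C ≠ 0 := by rw [h0]; exact mul_ne_zero hc hfa
  have hA0 : A ≠ 0 := fun h => hABC (by rw [h]; ring)
  have h20 : (2 : F) ≠ 0 := by
    intro h
    apply one_ne_zero (α := F)
    linear_combination h3 - h
  have hPa : lf P a = 0 := by
    have e1 : (lf P a) ^ 2 = 0 := by
      have e2 : B - A = lf P a := by rw [hB]; ring
      rw [← e2]
      linear_combination (A + B) * h1 - h2 - A * B * h3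
    exact pow_eq_zero_iff (two_ne_zero) |>.1 e1
  have hBA : B = A := by rw [hB, hPa, add_zero]
  have hCA : C = A := by
    rw [hBA] at h1
    linear_combination h1 - A * h3
  have key : ∀ u, lf P u ≠ 0 → (cb T).D a u = 0 ∧ c * (cb T).D u a = - A * lf P u ^ 2 := by
    intro u hu
    have e1 := line_good hquad (m₀ := A) rfl hB hC h0 (m := 0) (u := u)
      (Or.inr ⟨h3, hu, hPa⟩) hno
    have e2 := line_good hquad (m₀ := A) rfl hB hC h0 (m := 1) (u := u)
      (Or.inr ⟨h3, hu, hPa⟩) hno
    rw [hBA, hCA] at e1 e2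
    have e3 : 2 * A * (lf P u + lf Q u) = 0 := by
      linear_combination e2.2 - e1.2 - A * h3
    have e4 : lf P u + lf Q u = 0 :=
      (mul_eq_zero.1 e3).resolve_left (mul_ne_zero h20 hA0)
    constructor
    · have e5 : c * (cb T).D a u = 0 := by
        linear_combination A ^ 2 * e4 - e1.1
      exact (mul_eq_zero.1 e5).resolve_left hc
    · linear_combination A * lf P u * e4 - e1.2
  -- a vector outside the kernel
  obtain ⟨v, hv⟩ : ∃ v, lf P v ≠ 0 := by
    obtain ⟨i, hi⟩ := Function.ne_iff.1 hP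
    refine ⟨Pi.single i 1, ?_⟩
    rw [lf, Finset.sum_eq_single i]
    · simpa using hi
    · intro j _ hj
      rw [Pi.single_eq_of_ne hj, mul_zero]
    · intro h
      exact absurd (mem_univ i) h
  -- a vector in the kernel
  obtain ⟨u, hu, hua⟩ : ∃ u : Fin 3 → F, lf P u = 0 ∧ ∀ x : F, x • a + u ≠ 0 := by
    obtain ⟨b₁, b₂, hb₁, hb₂, hind⟩ := ker_two hP
    by_contra hcon
    push Not at hcon
    obtain ⟨x, hx⟩ := hcon b₁ hb₁
    obtain ⟨y, hy⟩ := hcon b₂ hb₂
    have e1 : y • b₁ + (-x) • b₂ = 0 := by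
      have e2 : b₁ = -(x • a) := by rw [eq_neg_iff_add_eq_zero, add_comm]; exact hx
      have e3 : b₂ = -(y • a) := by rw [eq_neg_iff_add_eq_zero, add_comm]; exact hy
      rw [e2, e3]
      module
    have e4 := hind _ _ e1
    have e5 : b₁ = 0 := by
      have := hx
      rw [neg_eq_zero.1 e4.2, zero_smul, zero_add] at this
      exact this
    have e6 := hind 1 0 (by rw [e5, smul_zero, zero_smul, add_zero])
    exact one_ne_zero e6.1
  have hk1 := key v hv
  have hk2 := key (u + v) (by rw [lf_add, hu, zero_add]; exact hv)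
  have hk3 := key (u + -v) (by
    have : lf P (-v) = - lf P v := (lfl P).map_neg v
    rw [lf_add, hu, zero_add, this]
    exact neg_ne_zero.2 hv)
  have hPv : lf P (-v) = - lf P v := (lfl P).map_neg v
  have hDau : (cb T).D a u = 0 := by
    have := hk2.1
    rw [Cb.D_add, hk1.1, add_zero] at this
    exact this
  have hDua : (cb T).D u a = 0 := by
    have e1 := hk2.2
    have e2 := hk3.2
    rw [Cb.add_D, lf_add, hu, zero_add] at e1
    rw [Cb.add_D, lf_add, hu, zero_add, hPv, Cb.neg_D] at e2
    have e3 : (cb T).E u (-v) a = - (cb T).E u v a := by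
      have := (cb T).E_smul2 (-1) u v a
      rw [neg_one_smul] at this
      rw [this]; ring
    rw [e3] at e2
    have e4 : 2 * c * (cb T).D u a = 0 := by
      linear_combination e1 + e2 - 2 * hk1.2
    exact (mul_eq_zero.1 e4).resolve_left (mul_ne_zero h20 hc)
  obtain ⟨x, hx⟩ := cube_surj h3 (-(cb T).f u / (cb T).f a)
  apply hua x
  apply han
  rw [Cb.f_add, Cb.f_smul, Cb.smul_D, Cb.D_smul, hDau, hDua, hx]
  field_simp
  ring

/-- The simple root, from the existence of roots of polynomials of degree `2`. -/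
theorem root_core [Finite F] (hF : 16 ≤ Nat.card F) (hquad : ∀ α β γ : F, (α ≠ 0 ∨ β ≠ 0) →
      ∃ s : K, algebraMap F K α * s ^ 2 + algebraMap F K β * s + algebraMap F K γ = 0)
    (han : ∀ x, (cb T).f x = 0 → x = 0) (hc : c ≠ 0) (h3 : (3 : F) ≠ 0 ∨ P ≠ 0) :
    GoodR T P Q c K := by
  obtain ⟨m₀, a, hne, h0⟩ := chev_prod T P Q c
  have ha : a ≠ 0 := by
    rintro rfl
    rw [lf_zero, lf_zero, Cb.f_zero, mul_zero, add_zero] at h0
    have : m₀ = 0 := by
      have : m₀ ^ 3 = 0 := by linear_combination h0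
      exact pow_eq_zero_iff (three_ne_zero) |>.1 this
    rcases hne with h | h
    · exact h this
    · exact h rfl
  by_cases hbad : 3 * m₀ + lf P a + lf Q a = 0 ∧
      3 * m₀ ^ 2 + 2 * m₀ * (lf P a + lf Q a) + lf P a * lf Q a = 0
  · have h1 : m₀ + (m₀ + lf P a) + (m₀ + lf Q a) = 0 := by linear_combination hbad.1
    have h2 : m₀ * (m₀ + lf P a) + (m₀ + lf P a) * (m₀ + lf Q a) + (m₀ + lf Q a) * m₀ = 0 := by
      linear_combination hbad.2
    by_cases h30 : (3 : F) = 0
    · exact root_eq3 hquad han hc h30 (h3.resolve_left (not_not.2 h30)) ha rfl rfl h0 h1 h2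
    · exact root_ne3 hF hquad han hc h30 ha rfl rfl h0 h1 h2
  · refine good_of_zero (fun i => algebraMap F K (a i)) (algebraMap F K m₀)
      (algebraMap F K (lf P a)) (algebraMap F K (lf Q a)) (lf_map _ _ _) (lf_map _ _ _) ?_ ?_
    · rw [map_f, ← map_mul, ← h0]
      simp only [map_mul, map_add]
    · by_contra hcon
      push Not at hcon
      apply hbad
      constructor
      · apply (algebraMap F K).injective
        rw [map_zero, ← hcon.1]
        simp only [map_add, map_mul, map_ofNat]
      · apply (algebraMap F K).injective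
        rw [map_zero, ← hcon.2]
        simp only [map_add, map_mul, map_ofNat, map_pow]

/-- The statement is symmetric in `P` and `Q`. -/
theorem GoodR.symm (h : GoodR T Q P c K) : GoodR T P Q c K := by
  obtain ⟨w, m, h1, h2, h3⟩ := h
  refine ⟨w, m, h1, ?_, ?_⟩
  · rw [← h2]; ring
  · intro h4
    apply h3
    rw [← h4]; ring

end core

/-- The simple root (see the dnotes 5452 (5), 5571, 5598). -/
theorem root_exists' {F : Type u} [Field F] [Finite F] (hF : 16 ≤ Nat.card F) {K : Type u}
    [Field K] [Algebra F K] (hK : Nat.card K = Nat.card F ^ 2) (T : Tn F 3)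
    (h : ∀ x, (cb T).f x = 0 → x = 0) (P Q : Fin 3 → F) (c : F) (hc : c ≠ 0)
    (h3 : (3 : F) ≠ 0 ∨ P ≠ 0 ∨ Q ≠ 0) :
    ∃ (w : Fin 3 → K) (m : K), w ≠ 0 ∧
      m * (m + ∑ i, algebraMap F K (P i) * w i) * (m + ∑ i, algebraMap F K (Q i) * w i) =
        algebraMap F K c * (cb (T.map (algebraMap F K))).f w ∧
      3 * m ^ 2 + 2 * m * ((∑ i, algebraMap F K (P i) * w i) + ∑ i, algebraMap F K (Q i) * w i) +
        (∑ i, algebraMap F K (P i) * w i) * (∑ i, algebraMap F K (Q i) * w i) ≠ 0 := by
  have hquad : ∀ α β γ : F, (α ≠ 0 ∨ β ≠ 0) →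
      ∃ s : K, algebraMap F K α * s ^ 2 + algebraMap F K β * s + algebraMap F K γ = 0 :=
    fun α β γ h => quad_root hK α β γ h
  rcases h3 with h3 | h3 | h3
  · exact root_core hF hquad h hc (Or.inl h3)
  · exact root_core hF hquad h hc (Or.inr h3)
  · exact (root_core (P := Q) (Q := P) hF hquad h hc (Or.inr h3)).symm

end Cu
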