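import Pool.Agent.Lib.MP_f80667_ag.Cu.RootA
import Pool.Agent.Lib.MP_f80667_ag.Cu.RootB

/-! Simple roots over finite fields. -/

open Polynomial Finset

namespace Cu

universe u

variable {F : Type u} [Field F] [Finite F]

/-- The simple root (see the dnotes 5452 (5), 5571, 5598). -/
theorem root_exists (hF : 16 ≤ Nat.card F) {K : Type u} [Field K] [Algebra F K]
    (hK : Nat.card K = Nat.card F ^ 2) (T : Tn F 3) (h : ∀ x, (cb T).f x = 0 → x = 0)
    (P Q : Fin 3 → F) (c : F) (hc : c ≠ 0) (h3 : (3 : F) ≠ 0 ∨ P ≠ 0 ∨ Q ≠ 0) :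
    ∃ (w : Fin 3 → K) (m : K), w ≠ 0 ∧
      m * (m + ∑ i, algebraMap F K (P i) * w i) * (m + ∑ i, algebraMap F K (Q i) * w i) =
        algebraMap F K c * (cb (T.map (algebraMap F K))).f w ∧
      3 * m ^ 2 + 2 * m * ((∑ i, algebraMap F K (P i) * w i) + ∑ i, algebraMap F K (Q i) * w i) +
        (∑ i, algebraMap F K (P i) * w i) * (∑ i, algebraMap F K (Q i) * w i) ≠ 0 :=
  root_exists' hF hK T h P Q c hc h3

end Cu
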