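import Pool.Agent.Lib.MP_f80667_ag.Cu.Norm

/-! The tensor of a cubic form in given vectors, and its reduction. -/

open Polynomial IsLocalRing Finset

namespace Cu

section tens

variable {R V : Type*} [CommRing R] [AddCommGroup V] [Module R V]

/-- The tensor of `f(∑ x_i e_i)`. -/
def Cb.tens (c : Cb R V) {d : ℕ} (e : Fin d → V) : Tn R d := fun i j l =>
  if i = j then (if j = l then c.f (e i) else c.D (e i) (e l)) else
    if i < j ∧ j < l then c.E (e i) (e j) (e l) else 0

/-- Pull-back along a linear map. -/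
def Cb.comap (c : Cb R V) {U : Type*} [AddCommGroup U] [Module R U] (φ : U →ₗ[R] V) : Cb R U where
  f x := c.f (φ x)
  D x y := c.D (φ x) (φ y)
  E x y z := c.E (φ x) (φ y) (φ z)
  f_add x y := by rw [map_add, c.f_add]
  f_smul b x := by rw [map_smul, c.f_smul]
  D_add x y z := by rw [map_add, c.D_add]
  D_smul x b y := by rw [map_smul, c.D_smul]
  add_D x y z := by rw [map_add, c.add_D]
  smul_D b x y := by rw [map_smul, c.smul_D]
  E_comm x y z := by rw [c.E_comm]
  E_comm' x y z := by rw [c.E_comm']
  E_add x y z w := by rw [map_add, c.E_add]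
  E_smul x y b z := by rw [map_smul, c.E_smul]
  D_self x := by rw [c.D_self]
  E_self x y := by rw [c.E_self]

/-- A cubic form on `R ^ d` is determined by its values on the basis. -/
theorem Cb.eq_of_basis {d : ℕ} (c c' : Cb R (Fin d → R))
    (hf : ∀ i, c.f (Pi.single i 1) = c'.f (Pi.single i 1))
    (hD : ∀ i j, c.D (Pi.single i 1) (Pi.single j 1) = c'.D (Pi.single i 1) (Pi.single j 1))
    (hE : ∀ i j l, c.E (Pi.single i 1) (Pi.single j 1) (Pi.single l 1) =
      c'.E (Pi.single i 1) (Pi.single j 1) (Pi.single l 1)) (x y : Fin d → R) :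
    c.f x = c'.f x ∧ c.D x y = c'.D x y := by
  classical
  have hs : ∀ x : Fin d → R, x = ∑ i, x i • (Pi.single i 1 : Fin d → R) := by
    intro x
    exact pi_eq_sum_univ' x
  -- induction principle
  have ind : ∀ (P : (Fin d → R) → Prop), P 0 → (∀ a b, P a → P b → P (a + b)) →
      (∀ (r : R) a, P a → P (r • a)) → (∀ i, P (Pi.single i 1)) → ∀ x, P x := by
    intro P h0 hadd hsmul hb x
    rw [hs x]
    exact Finset.sum_induction _ P hadd h0 fun i _ => hsmul _ _ (hb i)
  have e1 : ∀ i j z, c.E (Pi.single i 1) (Pi.single j 1) z =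
      c'.E (Pi.single i 1) (Pi.single j 1) z := by
    intro i j
    refine ind _ (by rw [Cb.E_zero, Cb.E_zero]) ?_ ?_ (hE i j)
    · intro a b ha hb
      rw [c.E_add, c'.E_add, ha, hb]
    · intro r a ha
      rw [c.E_smul, c'.E_smul, ha]
  have e2 : ∀ i y z, c.E (Pi.single i 1) y z = c'.E (Pi.single i 1) y z := by
    intro i y z
    revert y
    refine ind _ ?_ ?_ ?_ (fun j => e1 i j z)
    · rw [c.E_comm', c'.E_comm', Cb.E_zero, Cb.E_zero]
    · intro a b ha hb
      rw [c.E_add2, c'.E_add2, ha, hb]
    · intro r a ha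
      rw [c.E_smul2, c'.E_smul2, ha]
  have e3 : ∀ x y z, c.E x y z = c'.E x y z := by
    intro x y z
    revert x
    refine ind _ ?_ ?_ ?_ (fun i => e2 i y z)
    · rw [c.E_comm, c'.E_comm, c.E_comm', c'.E_comm', Cb.E_zero, Cb.E_zero]
    · intro a b ha hb
      rw [c.E_add1, c'.E_add1, ha, hb]
    · intro r a ha
      rw [c.E_smul1, c'.E_smul1, ha]
  have d1 : ∀ i y, c.D (Pi.single i 1) y = c'.D (Pi.single i 1) y := by
    intro i
    refine ind _ (by rw [Cb.D_zero, Cb.D_zero]) ?_ ?_ (hD i)
    · intro a b ha hb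
      rw [c.D_add, c'.D_add, ha, hb]
    · intro r a ha
      rw [c.D_smul, c'.D_smul, ha]
  have d2 : ∀ x y, c.D x y = c'.D x y := by
    intro x y
    revert x
    refine ind _ (by rw [Cb.zero_D, Cb.zero_D]) ?_ ?_ (fun i => d1 i y)
    · intro a b ha hb
      rw [c.add_D, c'.add_D, ha, hb, e3]
    · intro r a ha
      rw [c.smul_D, c'.smul_D, ha]
  refine ⟨?_, d2 x y⟩
  revert x
  refine ind _ (by rw [Cb.f_zero, Cb.f_zero]) ?_ ?_ hf
  · intro a b ha hb
    rw [c.f_add, c'.f_add, ha, hb, d2, d2]
  · intro r a ha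
    rw [c.f_smul, c'.f_smul, ha]

private theorem sum_single {d : ℕ} (T : Tn R d) (i j m : Fin d) :
    ∑ a, ∑ b, ∑ l, T a b l * ((Pi.single i 1 : Fin d → R) a * (Pi.single j 1 : Fin d → R) b *
      (Pi.single m 1 : Fin d → R) l) = T i j m := by
  rw [Finset.sum_eq_single i, Finset.sum_eq_single j, Finset.sum_eq_single m]
  · simp
  · intro b _ hb
    rw [Pi.single_eq_of_ne hb]
    ring
  · intro h
    exact absurd (Finset.mem_univ _) h
  · intro b _ hb
    refine Finset.sum_eq_zero fun l _ => ?_
    rw [Pi.single_eq_of_ne hb]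
    ring
  · intro h
    exact absurd (Finset.mem_univ _) h
  · intro b _ hb
    refine Finset.sum_eq_zero fun l _ => Finset.sum_eq_zero fun l' _ => ?_
    rw [Pi.single_eq_of_ne hb]
    ring
  · intro h
    exact absurd (Finset.mem_univ _) h

private theorem tens_f {d : ℕ} (T : Tn R d) (i : Fin d) :
    (cb T).f (Pi.single i 1) = T i i i := sum_single T i i i

private theorem tens_D {d : ℕ} (T : Tn R d) (i j : Fin d) :
    (cb T).D (Pi.single i 1) (Pi.single j 1) = T i i j + T i j i + T j i i := by
  simp only [cb, mul_add, Finset.sum_add_distrib, sum_single]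

private theorem tens_E {d : ℕ} (T : Tn R d) (i j l : Fin d) :
    (cb T).E (Pi.single i 1) (Pi.single j 1) (Pi.single l 1) =
      T i j l + T i l j + T j i l + T j l i + T l i j + T l j i := by
  simp only [cb, mul_add, Finset.sum_add_distrib, sum_single]

private theorem tens_E' (c : Cb R V) {d : ℕ} (e : Fin d → V) (i j l : Fin d) :
    c.tens e i j l + c.tens e i l j + c.tens e j i l + c.tens e j l i + c.tens e l i j +
      c.tens e l j i = c.E (e i) (e j) (e l) := by
  -- equal indices
  have key : ∀ a b : Fin d, a ≠ b → c.tens e a a b + c.tens e a b a + c.tens e b a a =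
      c.D (e a) (e b) := by
    intro a b hab
    unfold Cb.tens
    rw [if_pos rfl, if_neg hab, if_neg hab, if_neg (fun h => absurd (h.1.trans h.2) (lt_irrefl _)),
      if_neg hab.symm, if_neg (fun h => absurd h.2 (lt_irrefl _))]
    ring
  -- increasing indices
  have key2 : ∀ a b l : Fin d, a < b → b < l →
      c.tens e a b l + c.tens e a l b + c.tens e b a l + c.tens e b l a + c.tens e l a b +
        c.tens e l b a = c.E (e a) (e b) (e l) := by
    intro a b l h1 h2
    have h3 := h1.trans h2
    unfold Cb.tens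
    rw [if_neg h1.ne, if_pos ⟨h1, h2⟩, if_neg h3.ne, if_neg (fun h => absurd h.2 h2.not_gt),
      if_neg h1.ne', if_neg (fun h => absurd h.1 h1.not_gt), if_neg h2.ne,
      if_neg (fun h => absurd h.2 h3.not_gt), if_neg h3.ne', if_neg (fun h => absurd h.1 h3.not_gt),
      if_neg h2.ne', if_neg (fun h => absurd h.1 h2.not_gt)]
    ring
  rcases lt_trichotomy i j with h1 | h1 | h1
  · rcases lt_trichotomy j l with h2 | h2 | h2
    · exact key2 i j l h1 h2
    · subst h2
      have := key j i h1.ne'
      rw [c.E_comm, c.E_comm', c.E_self, ← this]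
      ring
    · rcases lt_trichotomy i l with h3 | h3 | h3
      · rw [c.E_comm', ← key2 i l j h3 h2]
        ring
      · subst h3
        have := key i j h1.ne
        rw [c.E_comm', c.E_self, ← this]
        ring
      · rw [c.E_comm', c.E_comm, ← key2 l i j h3 h1]
        ring
  · subst h1
    rcases eq_or_ne i l with h2 | h2
    · subst h2
      have : c.tens e i i i = c.f (e i) := by
        unfold Cb.tens
        rw [if_pos rfl, if_pos rfl]
      rw [this, c.E_self, c.D_self]
      ring
    · have := key i l h2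
      rw [c.E_self, ← this]
      ring
  · rcases lt_trichotomy i l with h2 | h2 | h2
    · rw [c.E_comm, ← key2 j i l h1 h2]
      ring
    · subst h2
      have := key i j h1.ne'
      rw [c.E_comm', c.E_self, ← this]
      ring
    · rcases lt_trichotomy j l with h3 | h3 | h3
      · rw [c.E_comm, c.E_comm', ← key2 j l i h3 h2]
        ring
      · subst h3
        have := key j i h1.ne
        rw [c.E_comm, c.E_comm', c.E_self, ← this]
        ring
      · rw [c.E_comm, c.E_comm', c.E_comm, ← key2 l j i h3 h1]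
        ring

private theorem tens_both (c : Cb R V) {d : ℕ} (e : Fin d → V) (x y : Fin d → R) :
    c.f (∑ i, x i • e i) = (cb (c.tens e)).f x ∧
      c.D (∑ i, x i • e i) (∑ i, y i • e i) = (cb (c.tens e)).D x y := by
  have hφ : ∀ x : Fin d → R, Fintype.linearCombination R e x = ∑ i, x i • e i := fun x => rfl
  have hφs : ∀ i, Fintype.linearCombination R e (Pi.single i 1) = e i := by
    intro i
    simp [Fintype.linearCombination_apply_single]
  have := Cb.eq_of_basis (c.comap (Fintype.linearCombination R e)) (cb (c.tens e)) ?_ ?_ ?_ x y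
  · exact this
  · intro i
    rw [tens_f]
    show c.f (Fintype.linearCombination R e _) = _
    rw [hφs]
    unfold Cb.tens
    rw [if_pos rfl, if_pos rfl]
  · intro i j
    rw [tens_D]
    show c.D (Fintype.linearCombination R e _) (Fintype.linearCombination R e _) = _
    rw [hφs, hφs]
    unfold Cb.tens
    rcases eq_or_ne i j with h | h
    · subst h
      rw [if_pos rfl, if_pos rfl, c.D_self]
      ring
    · rw [if_pos rfl, if_neg h, if_neg h, if_neg (fun h => absurd (h.1.trans h.2) (lt_irrefl _)),
        if_neg h.symm, if_neg (fun h => absurd h.2 (lt_irrefl _))]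
      ring
  · intro i j l
    rw [tens_E, tens_E']
    show c.E (Fintype.linearCombination R e _) (Fintype.linearCombination R e _)
      (Fintype.linearCombination R e _) = _
    rw [hφs, hφs, hφs]

theorem Cb.f_sum (c : Cb R V) {d : ℕ} (e : Fin d → V) (x : Fin d → R) :
    c.f (∑ i, x i • e i) = (cb (c.tens e)).f x :=
  (tens_both c e x x).1

theorem Cb.D_sum (c : Cb R V) {d : ℕ} (e : Fin d → V) (x y : Fin d → R) :
    c.D (∑ i, x i • e i) (∑ i, y i • e i) = (cb (c.tens e)).D x y :=
  (tens_both c e x y).2

end tens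

section red

variable {O K V : Type*} [CommRing O] [IsDomain O] [IsDiscreteValuationRing O]
  [IsAdicComplete (maximalIdeal O) O] [Field K] [Algebra O K] [IsFractionRing O K]
  [AddCommGroup V] [Module K V] {c : Cb K V} {W : Submodule K V} {π : O}

/-- Integral tensor (`An.D_le`, `An.E_le`). -/
theorem exists_red (h : An c W) (hπ : Irreducible π) {m : ℤ} {d : ℕ} {e : Fin d → V}
    (he : ∀ i, e i ∈ W) (hv : ∀ i, Vg π m (c.f (e i))) :
    ∃ T : Tn O d, ∀ x y : Fin d → K,
      c.f (∑ i, x i • e i) =
        algebraMap O K π ^ m * (cb (T.map (algebraMap O K))).f x ∧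
      c.D (∑ i, x i • e i) (∑ i, y i • e i) =
        algebraMap O K π ^ m * (cb (T.map (algebraMap O K))).D x y := by
  have h1 : ∀ i j l, Vg π m (c.tens e i j l) := by
    intro i j l
    unfold Cb.tens
    split_ifs
    · exact hv i
    · exact h.D_le hπ (he i) (he l) (hv i) (hv l) (by omega)
    · exact h.E_le hπ (he i) (he j) (he l) (hv i) (hv j) (hv l) (by omega)
    · exact Vg.zero m
  choose T hT using h1
  refine ⟨T, fun x y => ⟨?_, ?_⟩⟩
  · rw [c.f_sum e x]
    simp only [cb, Tn.map, hT, Finset.mul_sum]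
    refine sum_congr rfl fun i _ => sum_congr rfl fun j _ => sum_congr rfl fun l _ => ?_
    ring
  · rw [c.D_sum e x y]
    simp only [cb, Tn.map, hT, Finset.mul_sum]
    refine sum_congr rfl fun i _ => sum_congr rfl fun j _ => sum_congr rfl fun l _ => ?_
    ring

omit [IsAdicComplete (maximalIdeal O) O] in
/-- If `v(f(∑ x_i e_i)) = m` for all primitive `x` the reduction has no zero. -/
theorem red_aniso (hπ : Irreducible π) {m : ℤ} {d : ℕ} {e : Fin d → V} {T : Tn O d}
    (hT : ∀ x : Fin d → K, c.f (∑ i, x i • e i) =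
        algebraMap O K π ^ m * (cb (T.map (algebraMap O K))).f x)
    (hs : ∀ x : Fin d → O, (∃ i, IsUnit (x i)) →
      ¬ Vg π (m + 1) (c.f (∑ i, algebraMap O K (x i) • e i)))
    (x : Fin d → ResidueField O) (hx : (cb (T.map (residue O))).f x = 0) : x = 0 := by
  by_contra hne
  obtain ⟨i, hi⟩ := Function.ne_iff.1 hne
  choose X hX using fun i => residue_surjective (x i)
  refine hs X ⟨i, ?_⟩ ?_
  · by_contra hu
    apply hi
    rw [Pi.zero_apply, ← hX i]
    exact (residue_eq_zero_iff _).2 hu
  · rw [hT (fun i => algebraMap O K (X i)), map_f]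
    have h1 : (cb T).f X ∈ maximalIdeal O := by
      rw [← residue_eq_zero_iff, ← map_f (residue O) T X]
      have : (fun i => residue O (X i)) = x := funext hX
      rw [this]
      exact hx
    rw [hπ.maximalIdeal_eq, Ideal.mem_span_singleton] at h1
    obtain ⟨b, hb⟩ := h1
    refine ⟨b, ?_⟩
    rw [hb, map_mul, zpow_add₀ (pi_ne hπ), zpow_one]
    ring

end red

end Cu
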