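import Pool.Agent.Lib.MP_f80667_ag.Cu.KPts
import Pool.Agent.Lib.MP_f80667_ag.Cu.PtlA
import Pool.Agent.Lib.MP_f80667_ag.Cu.Root
import Pool.Agent.Lib.MP_f80667_ag.Cu.Tens

/-! Anisotropic cubic forms in at least `8` variables: zeros over cubic extensions. -/

open Polynomial IsLocalRing Pool.Agent.Lib.MP_f80667_ag.LF

namespace Cu

universe u

variable {k : Type u} [NontriviallyNormedField k] [IsUltrametricDist k] [ProperSpace k]
  [CharZero k] {n : ℕ} {T : Tn k n} {M L : Type u} [Field M] [Field L] [Algebra k M] [Algebra k L]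
  [Algebra M L] [IsScalarTower k M L] [FiniteDimensional k M] [FiniteDimensional k L]

/-- A zero over the cubic extension `L` on a line over `M` (`unr_or_eis`, `kline`, `eis`,
`exists_eight`). -/
theorem ptl (hW : An (ex T M) ⊤) (h8 : 8 ≤ n) (hL : Module.finrank M L = 3) :
    ∃ (e e' : Fin n → M) (θ : L), LinearIndependent M ![e, e'] ∧
      (ex T L).f (θ • up L e + up L e') = 0 := by
  have hn : Module.finrank M (⊤ : Submodule M (Fin n → M)) = n := by
    rw [finrank_top, Module.finrank_fin_fun]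
  rcases unr_or_eis (k := k) (M := M) (L := L) hL with hu | ⟨π, a₁, a₂, u, ϖ, hπ, hu, hϖ⟩
  · obtain ⟨e, e', -, -, hi, h⟩ := kline (T := T) ⊤ hW (by omega)
    obtain ⟨θ, hθ⟩ := h L hu
    exact ⟨e, e', θ, hi, hθ⟩
  · obtain ⟨m, e, e', he, he', hs, hs'⟩ := exists_eight hW hπ (by omega)
    obtain ⟨v₀, v₁, hi, h1, h2, h3⟩ := eis hW hπ he he' hs hs' a₁ a₂ u hu
    refine ⟨v₀, v₁, ϖ, hi, ?_⟩
    have h4 := (ex T L).f_lin ϖ 1 (up L v₀) (up L v₁)
    rw [one_smul] at h4
    have e1 : algebraMap (O k M) M (π * a₁) = ((π * a₁ : O k M) : M) := rfl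
    have e2 : algebraMap (O k M) M (π * a₂) = ((π * a₂ : O k M) : M) := rfl
    have e3 : algebraMap (O k M) M (π * u) = ((π * u : O k M) : M) := rfl
    rw [h4, ex_f, ex_D, ex_D, ex_f, h1, h2, h3, e1, e2, e3]
    simp only [map_mul]
    linear_combination (algebraMap M L ((ex T M).f v₀)) * hϖ

end Cu
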