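import Mathlib

/-! A tower of extensions from Sylow's theorem. -/

namespace Cu

universe u

open Polynomial

private theorem sylow_grp {G : Type*} [Group G] [Finite G] (H : Subgroup G) (h : 3 ∣ H.index) :
    ∃ S S₀ P : Subgroup G, P ≤ S₀ ∧ S₀ ≤ S ∧ P ≤ H ∧ ¬ 3 ∣ S.index ∧
      Nat.card S = 3 * Nat.card S₀ ∧ ¬ 3 ∣ P.relIndex H := by
  have : Fact (Nat.Prime 3) := ⟨Nat.prime_three⟩
  let P₀ : Sylow 3 H := default
  let P : Subgroup G := (P₀ : Subgroup H).map H.subtype
  have hPH : P ≤ H := Subgroup.map_subtype_le _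
  have hP : IsPGroup 3 P := P₀.2.map _
  obtain ⟨S, hPS⟩ := hP.exists_le_sylow
  have hrel : ¬ 3 ∣ P.relIndex H := by
    have h1 : P.subgroupOf H = (P₀ : Subgroup H) :=
      Subgroup.comap_map_eq_self_of_injective H.subtype_injective _
    rw [Subgroup.relIndex, h1]
    exact P₀.not_dvd_index
  have hSi : ¬ 3 ∣ (S : Subgroup G).index := S.not_dvd_index
  obtain ⟨a, ha⟩ := IsPGroup.iff_card.mp hP
  obtain ⟨b, hb⟩ := IsPGroup.iff_card.mp S.2
  have hPi : 3 ∣ P.index := by
    rw [← Subgroup.relIndex_mul_index hPH]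
    exact h.mul_left _
  have hab : a < b := by
    by_contra hle
    have h1 : Nat.card P * P.index = Nat.card (S : Subgroup G) * (S : Subgroup G).index := by
      rw [Subgroup.card_mul_index, Subgroup.card_mul_index]
    have h2 : Nat.card (S : Subgroup G) ∣ Nat.card P := by
      change Nat.card (S : Subgroup G) = 3 ^ b at hb
      rw [hb, ha]
      exact pow_dvd_pow 3 (not_lt.mp hle)
    obtain ⟨c, hc⟩ := h2
    rw [hc, mul_assoc] at h1
    have h3 : c * P.index = (S : Subgroup G).index :=
      Nat.eq_of_mul_eq_mul_left Nat.card_pos h1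
    exact hSi (h3 ▸ hPi.mul_left c)
  have hb' : Nat.card (S : Subgroup G) = 3 ^ b := hb
  have hPS' : Nat.card (P.subgroupOf (S : Subgroup G)) = 3 ^ a := by
    rw [← ha]
    exact Nat.card_congr (Subgroup.subgroupOfEquivOfLe hPS).toEquiv
  obtain ⟨K, hK, hPK⟩ := Sylow.exists_subgroup_card_pow_prime_le (G := (S : Subgroup G)) 3
    (n := a) (m := b - 1) (by
      rw [hb']
      exact pow_dvd_pow 3 (Nat.sub_le b 1)) (P.subgroupOf (S : Subgroup G)) hPS' (by omega)
  refine ⟨S, K.map (S : Subgroup G).subtype, P, ?_, Subgroup.map_subtype_le _, hPH, hSi, ?_, hrel⟩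
  · rw [← Subgroup.map_subgroupOf_eq_of_le hPS]
    exact Subgroup.map_mono hPK
  · rw [hb', Subgroup.card_map_of_injective (Subgroup.subtype_injective _), hK, ← pow_succ']
    congr 1
    omega

private theorem adj (k : Type u) [Field k] (M K₁ : Type u) [Field M] [Field K₁]
    [Algebra k M] [Algebra k K₁] [FiniteDimensional k M] [FiniteDimensional k K₁]
    (pb : PowerBasis k K₁) (q : M[X]) (hq : Irreducible q)
    (hqp : q ∣ (minpoly k pb.gen).map (algebraMap k M)) :
    ∃ (L : Type u) (_ : Field L) (_ : Algebra k L) (_ : Algebra M L) (_ : Algebra K₁ L)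
      (_ : IsScalarTower k M L) (_ : IsScalarTower k K₁ L) (_ : FiniteDimensional k L),
      Module.finrank M L = q.natDegree := by
  have : Fact (Irreducible q) := ⟨hq⟩
  have hroot : aeval (AdjoinRoot.root q) (minpoly k pb.gen) = 0 := by
    have h1 : aeval (AdjoinRoot.root q) ((minpoly k pb.gen).map (algebraMap k M)) = 0 := by
      obtain ⟨r, hr⟩ := hqp
      rw [hr, map_mul, AdjoinRoot.aeval_eq, AdjoinRoot.mk_self, zero_mul]
    rwa [aeval_map_algebraMap] at h1
  let φ : K₁ →ₐ[k] AdjoinRoot q := pb.lift (AdjoinRoot.root q) hroot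
  let : Algebra K₁ (AdjoinRoot q) := φ.toRingHom.toAlgebra
  have : IsScalarTower k K₁ (AdjoinRoot q) := IsScalarTower.of_algebraMap_eq fun x =>
    (φ.commutes x).symm
  have : FiniteDimensional M (AdjoinRoot q) := (AdjoinRoot.powerBasis hq.ne_zero).finite
  refine ⟨AdjoinRoot q, inferInstance, inferInstance, inferInstance, inferInstance, inferInstance,
    inferInstance, Module.Finite.trans M (AdjoinRoot q), ?_⟩
  rw [(AdjoinRoot.powerBasis hq.ne_zero).finrank, AdjoinRoot.powerBasis_dim]

private theorem exists_fac {M : Type*} [Field M] (p : M[X]) (hp : p ≠ 0)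
    (h : ¬ 3 ∣ p.natDegree) : ∃ q : M[X], Irreducible q ∧ q ∣ p ∧ ¬ 3 ∣ q.natDegree := by
  revert hp h
  refine WfDvdMonoid.induction_on_irreducible p ?_ ?_ ?_
  · intro h0
    exact absurd rfl h0
  · intro u hu _ h
    rw [natDegree_eq_zero_of_isUnit hu] at h
    exact absurd (dvd_zero 3) h
  · intro a i ha hi ih _ h
    rw [natDegree_mul hi.ne_zero ha] at h
    by_cases h1 : 3 ∣ i.natDegree
    · obtain ⟨q, hq, hqa, hq3⟩ := ih ha fun h2 => h (dvd_add h1 h2)
      exact ⟨q, hq, hqa.mul_left i, hq3⟩
    · exact ⟨i, hi, dvd_mul_right _ _, h1⟩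

/-- For `[K₁ : k]` prime to `3` there is a common extension `L` of `M` and `K₁` with `[L : M]` prime
to `3`: `K₁ = k(θ)`, an irreducible factor of degree prime to `3` of the minimal polynomial of `θ`
over `M`. -/
theorem common_ext (k : Type u) [Field k] [CharZero k] (M K₁ : Type u) [Field M] [Field K₁]
    [Algebra k M] [Algebra k K₁] [FiniteDimensional k M] [FiniteDimensional k K₁]
    (h : (Module.finrank k K₁).Coprime 3) :
    ∃ (L : Type u) (_ : Field L) (_ : Algebra k L) (_ : Algebra M L) (_ : Algebra K₁ L)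
      (_ : IsScalarTower k M L) (_ : IsScalarTower k K₁ L) (_ : FiniteDimensional k L),
      (Module.finrank M L).Coprime 3 := by
  let pb : PowerBasis k K₁ := Field.powerBasisOfFiniteOfSeparable k K₁
  have hd : (minpoly k pb.gen).natDegree = Module.finrank k K₁ := by
    rw [pb.natDegree_minpoly, pb.finrank]
  have h3 : ¬ 3 ∣ ((minpoly k pb.gen).map (algebraMap k M)).natDegree := by
    rw [natDegree_map, hd]
    intro h1
    exact (Nat.Prime.coprime_iff_not_dvd Nat.prime_three).mp h.symm h1
  obtain ⟨q, hq, hqp, hq3⟩ := exists_fac _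
    (Polynomial.map_ne_zero (minpoly.ne_zero (pb.isIntegral_gen))) h3
  obtain ⟨L, i1, i2, i3, i4, i5, i6, i7, hL⟩ := adj k M K₁ pb q hq hqp
  refine ⟨L, i1, i2, i3, i4, i5, i6, i7, ?_⟩
  rw [hL]
  exact ((Nat.Prime.coprime_iff_not_dvd Nat.prime_three).mpr hq3).symm

/-- For `[K₀ : k] = 3` there is a common extension `L` of `M` and `K₀` with `[L : M] = 1` or `3`. -/
theorem common_ext3 (k : Type u) [Field k] [CharZero k] (M K₀ : Type u) [Field M] [Field K₀]
    [Algebra k M] [Algebra k K₀] [FiniteDimensional k M] [FiniteDimensional k K₀]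
    (h : Module.finrank k K₀ = 3) :
    ∃ (L : Type u) (_ : Field L) (_ : Algebra k L) (_ : Algebra M L) (_ : Algebra K₀ L)
      (_ : IsScalarTower k M L) (_ : IsScalarTower k K₀ L) (_ : FiniteDimensional k L),
      Module.finrank M L = 1 ∨ Module.finrank M L = 3 := by
  let pb : PowerBasis k K₀ := Field.powerBasisOfFiniteOfSeparable k K₀
  have hd : (minpoly k pb.gen).natDegree = 3 := by
    rw [pb.natDegree_minpoly, ← pb.finrank, h]
  have hmon : ((minpoly k pb.gen).map (algebraMap k M)).Monic :=
    (minpoly.monic pb.isIntegral_gen).map _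
  have hd' : ((minpoly k pb.gen).map (algebraMap k M)).natDegree = 3 := by
    rw [natDegree_map, hd]
  by_cases hr : ((minpoly k pb.gen).map (algebraMap k M)).roots = 0
  · have hq : Irreducible ((minpoly k pb.gen).map (algebraMap k M)) :=
      (hmon.irreducible_iff_roots_eq_zero_of_degree_le_three (by omega) (by omega)).mpr hr
    obtain ⟨L, i1, i2, i3, i4, i5, i6, i7, hL⟩ := adj k M K₀ pb _ hq dvd_rfl
    exact ⟨L, i1, i2, i3, i4, i5, i6, i7, Or.inr (hL.trans hd')⟩
  · obtain ⟨a, ha⟩ := Multiset.exists_mem_of_ne_zero hr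
    have hq : Irreducible (X - C a : M[X]) := irreducible_X_sub_C a
    obtain ⟨L, i1, i2, i3, i4, i5, i6, i7, hL⟩ := adj k M K₀ pb _ hq
      (dvd_iff_isRoot.mpr (isRoot_of_mem_roots ha))
    exact ⟨L, i1, i2, i3, i4, i5, i6, i7, Or.inl (hL.trans (natDegree_X_sub_C a))⟩

private theorem tower (k : Type u) [Field k] (M : Type u) [Field M] [Algebra k M]
    [FiniteDimensional k M] (N : Type u) [Field N] [Algebra k N] [FiniteDimensional k N]
    [IsGalois k N] (ι : M →ₐ[k] N) (h : 3 ∣ Module.finrank k M) :
    ∃ (K' M₀ L : Type u) (_ : Field K') (_ : Field M₀) (_ : Field L) (_ : Algebra k K')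
      (_ : Algebra k M₀) (_ : Algebra k L) (_ : Algebra K' M₀) (_ : Algebra M₀ L) (_ : Algebra M L)
      (_ : IsScalarTower k K' M₀) (_ : IsScalarTower k M₀ L) (_ : IsScalarTower k M L)
      (_ : FiniteDimensional k K') (_ : FiniteDimensional k M₀) (_ : FiniteDimensional k L),
      (Module.finrank k K').Coprime 3 ∧ Module.finrank K' M₀ = 3 ∧
      (Module.finrank M L).Coprime 3 := by
  have hidx : ∀ T : Subgroup Gal(N/k), Module.finrank k (IntermediateField.fixedField T) =
      T.index := by
    intro T
    have h1 := Module.finrank_mul_finrank k (IntermediateField.fixedField T) N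
    rw [IntermediateField.finrank_fixedField_eq_card, ← IsGalois.card_aut_eq_finrank k N,
      ← T.card_mul_index, mul_comm] at h1
    exact Nat.eq_of_mul_eq_mul_left Nat.card_pos h1
  have hrk : Module.finrank k ι.fieldRange = Module.finrank k M :=
    (AlgEquiv.ofInjectiveField ι).toLinearEquiv.finrank_eq.symm
  have hH : (ι.fieldRange).fixingSubgroup.index = Module.finrank k M := by
    rw [← hidx, IsGalois.fixedField_fixingSubgroup, hrk]
  obtain ⟨S, S₀, P, hPS₀, hS₀S, hPH, hS, hcard, hrel⟩ :=
    sylow_grp (ι.fieldRange).fixingSubgroup (hH ▸ h)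
  have h1 : IntermediateField.fixedField S ≤ IntermediateField.fixedField S₀ :=
    IntermediateField.fixedField_le hS₀S
  have h2 : IntermediateField.fixedField S₀ ≤ IntermediateField.fixedField P :=
    IntermediateField.fixedField_le hPS₀
  have h3 : ι.fieldRange ≤ IntermediateField.fixedField P :=
    (IntermediateField.le_iff_le _ _).mpr hPH
  let φ : M →ₐ[k] IntermediateField.fixedField P :=
    (IntermediateField.inclusion h3).comp (AlgEquiv.ofInjectiveField ι).toAlgHom
  let a1 : Algebra (IntermediateField.fixedField S) (IntermediateField.fixedField S₀) :=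
    (IntermediateField.inclusion h1).toRingHom.toAlgebra
  let a2 : Algebra (IntermediateField.fixedField S₀) (IntermediateField.fixedField P) :=
    (IntermediateField.inclusion h2).toRingHom.toAlgebra
  let a3 : Algebra M (IntermediateField.fixedField P) := φ.toRingHom.toAlgebra
  have t1 : IsScalarTower k (IntermediateField.fixedField S) (IntermediateField.fixedField S₀) :=
    IsScalarTower.of_algebraMap_eq fun x => ((IntermediateField.inclusion h1).commutes x).symm
  have t2 : IsScalarTower k (IntermediateField.fixedField S₀) (IntermediateField.fixedField P) :=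
    IsScalarTower.of_algebraMap_eq fun x => ((IntermediateField.inclusion h2).commutes x).symm
  have t3 : IsScalarTower k M (IntermediateField.fixedField P) :=
    IsScalarTower.of_algebraMap_eq fun x => (φ.commutes x).symm
  refine ⟨IntermediateField.fixedField S, IntermediateField.fixedField S₀,
    IntermediateField.fixedField P, inferInstance, inferInstance, inferInstance, inferInstance,
    inferInstance, inferInstance, a1, a2, a3, t1, t2, t3, inferInstance, inferInstance,
    inferInstance, ?_, ?_, ?_⟩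
  · rw [hidx]
    exact ((Nat.Prime.coprime_iff_not_dvd Nat.prime_three).mpr hS).symm
  · have h4 := Module.finrank_mul_finrank k (IntermediateField.fixedField S)
      (IntermediateField.fixedField S₀)
    rw [hidx, hidx] at h4
    have h5 : Nat.card S * S.index = Nat.card S₀ * S₀.index := by
      rw [Subgroup.card_mul_index, Subgroup.card_mul_index]
    rw [hcard, ← h4] at h5
    have h6 : 0 < Nat.card S₀ * S.index :=
      Nat.mul_pos Nat.card_pos (Nat.pos_of_ne_zero Subgroup.FiniteIndex.index_ne_zero)
    apply Nat.eq_of_mul_eq_mul_left h6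
    linarith
  · have h4 := Module.finrank_mul_finrank k M (IntermediateField.fixedField P)
    rw [hidx, ← Subgroup.relIndex_mul_index hPH, hH, mul_comm] at h4
    rw [Nat.eq_of_mul_eq_mul_right Module.finrank_pos h4]
    exact ((Nat.Prime.coprime_iff_not_dvd Nat.prime_three).mpr hrel).symm

/-- Let `3 ∣ [M : k]`. There are `k ⊆ K' ⊆ M₀ ⊆ L ⊇ M` with `[K' : k]` and `[L : M]` prime to `3`
and `[M₀ : K'] = 3`.
Proof: `N` = normal closure of `M / k` (Galois, characteristic `0`), `S_M` a Sylow `3`-subgroup of
`Gal(N / M)`, `S ⊇ S_M` a Sylow `3`-subgroup of `Gal(N / k)`; `S_M ≠ S` since `3 ∣ [M : k]`; so there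
is `S_M ≤ S₀ < S` with `[S : S₀] = 3`. `K' = N^S`, `M₀ = N^(S₀)`, `L = N^(S_M)`. -/
theorem sylow_tower (k : Type u) [Field k] [CharZero k] (M : Type u) [Field M] [Algebra k M]
    [FiniteDimensional k M] (h : 3 ∣ Module.finrank k M) :
    ∃ (K' M₀ L : Type u) (_ : Field K') (_ : Field M₀) (_ : Field L) (_ : Algebra k K')
      (_ : Algebra k M₀) (_ : Algebra k L) (_ : Algebra K' M₀) (_ : Algebra M₀ L) (_ : Algebra M L)
      (_ : IsScalarTower k K' M₀) (_ : IsScalarTower k M₀ L) (_ : IsScalarTower k M L)
      (_ : FiniteDimensional k K') (_ : FiniteDimensional k M₀) (_ : FiniteDimensional k L),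
      (Module.finrank k K').Coprime 3 ∧ Module.finrank K' M₀ = 3 ∧
      (Module.finrank M L).Coprime 3 := by
  have : IsAlgClosure k (AlgebraicClosure M) :=
    ⟨inferInstance, Algebra.IsAlgebraic.trans k M (AlgebraicClosure M)⟩
  let N : Type u := IntermediateField.normalClosure k M (AlgebraicClosure M)
  let : Field N := inferInstanceAs (Field (IntermediateField.normalClosure k M (AlgebraicClosure M)))
  let : Algebra k N :=
    inferInstanceAs (Algebra k (IntermediateField.normalClosure k M (AlgebraicClosure M)))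
  have : FiniteDimensional k N := inferInstanceAs
    (FiniteDimensional k (IntermediateField.normalClosure k M (AlgebraicClosure M)))
  have : Normal k N :=
    inferInstanceAs (Normal k (IntermediateField.normalClosure k M (AlgebraicClosure M)))
  have : IsGalois k N := ⟨⟩
  let ι : M →ₐ[k] N :=
    IsScalarTower.toAlgHom k M (IntermediateField.normalClosure k M (AlgebraicClosure M))
  exact tower k M N ι h

end Cu
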