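import Pool.Agent.Lib.MP_f80667_ag.Cu.Main
import Pool.Agent.Lib.MP_f80667_ag.Cu.Ptl
import Pool.Agent.Lib.MP_f80667_ag.Cu.Syl
import Pool.Agent.Lib.MP_f80667_ag.Cu.ThZ

/-! Zero-cycles of degree `0` on smooth cubic hypersurfaces over local fields. -/

open Polynomial IsLocalRing Pool.Agent.Lib.MP_f80667_ag.LF

namespace Cu

universe u

variable {k : Type u} [NontriviallyNormedField k] [IsUltrametricDist k] [ProperSpace k]
  [CharZero k] {n : ℕ} {T : Tn k n} {G : Type u} [AddCommGroup G] (C : Th k T G)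

/-- Points over `M` and over a cubic extension `K₀` of `k` (`common_ext3`, `main` over `L`). -/
theorem pf3 (hsm : Sm T) (h8 : 8 ≤ n) (K₀ M : Type u) [Field K₀] [Field M] [Algebra k K₀]
    [Algebra k M] [FiniteDimensional k K₀] [FiniteDimensional k M]
    (h3 : Module.finrank k K₀ = 3) (S : Fin n → K₀) (hS : S ≠ 0) (fS : (ex T K₀).f S = 0)
    (A : Fin n → M) (hA : A ≠ 0) (fA : (ex T M).f A = 0) :
    3 • C.cl M A = Module.finrank k M • C.cl K₀ S := by
  obtain ⟨L, _, _, _, _, _, _, _, hL⟩ := common_ext3 k M K₀ h3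
  have h4 : C.cl L (up L A) = C.cl L (up L S) :=
    main hsm h8 _ _ (up_ne_zero hA) (up_ne_zero hS) (by rw [ex_f, fA, map_zero])
      (by rw [ex_f, fS, map_zero])
  have h5 : Module.finrank k M * Module.finrank M L = Module.finrank k L :=
    Module.finrank_mul_finrank k M L
  have h6 : Module.finrank k K₀ * Module.finrank K₀ L = Module.finrank k L :=
    Module.finrank_mul_finrank k K₀ L
  rw [C.ext M L A, C.ext K₀ L S] at h4
  rw [h3, ← h5] at h6
  rcases hL with hL | hL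
  · rw [hL, one_smul] at h4
    rw [h4, smul_smul, h6, hL, mul_one]
  · rw [hL] at h4 h6
    rw [h4]
    congr 1
    omega

private theorem glob_kill {x : G} {m : ℕ} (hm : m.Coprime 3) (h3 : 3 • x = 0) (h : m • x = 0) :
    x = 0 := by
  have h1 : addOrderOf x ∣ Nat.gcd m 3 :=
    Nat.dvd_gcd (addOrderOf_dvd_of_nsmul_eq_zero h) (addOrderOf_dvd_of_nsmul_eq_zero h3)
  rw [hm] at h1
  exact AddMonoid.addOrderOf_eq_one_iff.mp (Nat.dvd_one.mp h1)

private theorem glob_grp {c s₀ s₁ : G} {N m₁ l l₁ : ℕ} {a b : ℤ} (hab : a * m₁ + 3 * b = 1)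
    (hN : N * l = m₁ * l₁) (hl : l.Coprime 3) (h1 : 3 • c = N • s₀) (h2 : 3 • s₁ = m₁ • s₀)
    (h3 : l • c = l₁ • s₁) : c = N • (a • s₁ + b • s₀) := by
  rw [← sub_eq_zero]
  apply glob_kill hl
  · have e1 : (3 : ℕ) • (c - N • (a • s₁ + b • s₀)) =
        ((3 : ℕ) • c - N • s₀) - ((N : ℤ) * a) • ((3 : ℕ) • s₁ - m₁ • s₀) -
          ((N : ℤ) * (a * m₁ + 3 * b - 1)) • s₀ := by
      module
    rw [e1, h1, h2, hab]
    simp
  · have e1 : l • (c - N • (a • s₁ + b • s₀)) =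
        (l • c - l₁ • s₁) - ((N * l : ℕ) : ℤ) • (a • s₁ + b • s₀) +
          l₁ • s₁ := by
      push_cast
      module
    have e2 : ((m₁ * l₁ : ℕ) : ℤ) • (a • s₁ + b • s₀) = l₁ • s₁ := by
      have e3 : ((m₁ * l₁ : ℕ) : ℤ) • (a • s₁ + b • s₀) =
          ((l₁ : ℤ) * (a * m₁ + 3 * b)) • s₁ - ((l₁ : ℤ) * b) • ((3 : ℕ) • s₁ - m₁ • s₀) := by
        push_cast
        module
      rw [e3, h2, hab]
      simp
    rw [e1, h3, hN, e2]
    simp

private theorem glob_grp3 {c γ : G} {N l : ℕ} (hl : l.Coprime 3) (h1 : 3 • c = (3 * N) • γ)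
    (h2 : l • c = (l * N) • γ) : c = N • γ := by
  rw [← sub_eq_zero]
  apply glob_kill hl
  · rw [smul_sub, h1, smul_smul, sub_self]
  · rw [smul_sub, h2, smul_smul, sub_self]

omit [IsUltrametricDist k] [ProperSpace k] in
/-- Two independent vectors over `k` and the cubic polynomial on their line. -/
private theorem glob_cub (h8 : 8 ≤ n) (hk : ∀ x : Fin n → k, (ex T k).f x = 0 → x = 0) :
    ∃ (e₀ e₁ : Fin n → k) (h₀ : k[X]), h₀.Monic ∧ h₀.natDegree = 3 ∧ e₀ ≠ 0 ∧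
      LinearIndependent k ![e₀, e₁] ∧ ∀ (M : Type u) [Field M] [Algebra k M] (y : M),
        (ex T M).f (y • up M e₀ + up M e₁) = algebraMap k M ((ex T k).f e₀) * aeval y h₀ := by
  have i0 : (⟨0, by omega⟩ : Fin n) ≠ ⟨1, by omega⟩ := by simp
  obtain ⟨e₀, he₀⟩ : ∃ e : Fin n → k, e = Pi.single ⟨0, by omega⟩ 1 := ⟨_, rfl⟩
  obtain ⟨e₁, he₁⟩ : ∃ e : Fin n → k, e = Pi.single ⟨1, by omega⟩ 1 := ⟨_, rfl⟩
  have a1 : e₀ ⟨0, by omega⟩ = 1 := by rw [he₀, Pi.single_eq_same]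
  have a2 : e₀ ⟨1, by omega⟩ = 0 := by rw [he₀, Pi.single_eq_of_ne i0.symm]
  have a3 : e₁ ⟨0, by omega⟩ = 0 := by rw [he₁, Pi.single_eq_of_ne i0]
  have a4 : e₁ ⟨1, by omega⟩ = 1 := by rw [he₁, Pi.single_eq_same]
  have h0 : e₀ ≠ 0 := by
    intro h
    rw [h, Pi.zero_apply] at a1
    exact zero_ne_one a1
  have hf : (ex T k).f e₀ ≠ 0 := fun h => h0 (hk _ h)
  refine ⟨e₀, e₁, cub ((ex T k).D e₀ e₁ / (ex T k).f e₀) ((ex T k).D e₁ e₀ / (ex T k).f e₀)
    ((ex T k).f e₁ / (ex T k).f e₀), cub_monic _ _ _, cub_natDegree _ _ _, h0, ?_, ?_⟩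
  · rw [LinearIndependent.pair_iff]
    intro s t hst
    have b1 := congrFun hst ⟨0, by omega⟩
    have b2 := congrFun hst ⟨1, by omega⟩
    simp only [Pi.add_apply, Pi.smul_apply, smul_eq_mul, a1, a2, a3, a4, Pi.zero_apply, mul_one,
      mul_zero, add_zero, zero_add] at b1 b2
    exact ⟨b1, b2⟩
  · intro M _ _ y
    have h1 := (ex T M).f_lin y 1 (up M e₀) (up M e₁)
    rw [one_smul] at h1
    have hf' : algebraMap k M ((ex T k).f e₀) ≠ 0 := by
      rw [Ne, map_eq_zero]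
      exact hf
    rw [h1, ex_f, ex_D, ex_D, ex_f, cub_aeval]
    simp only [map_div₀]
    field_simp
    
private theorem glob_pair {M L : Type u} [Field M] [Field L] [Algebra k M] [Algebra k L]
    [Algebra M L] [IsScalarTower k M L] [FiniteDimensional k M] [FiniteDimensional k L]
    {e₀ e₁ : Fin n → M} (hi : LinearIndependent M ![e₀, e₁]) :
    LinearIndependent L ![up L e₀, up L e₁] := by
  have hi' := up_indep (L := L) hi
  convert hi' using 1
  funext i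
  fin_cases i <;> rfl

private theorem glob_ne {M L : Type u} [Field M] [Field L] [Algebra k M] [Algebra k L]
    [Algebra M L] [IsScalarTower k M L] [FiniteDimensional k M] [FiniteDimensional k L]
    {e₀ e₁ : Fin n → M} (hi : LinearIndependent M ![e₀, e₁]) (a : L) :
    a • up L e₀ + up L e₁ ≠ 0 := by
  intro h
  have h4 := glob_pair (k := k) (L := L) hi
  rw [LinearIndependent.pair_iff] at h4
  exact one_ne_zero (h4 a 1 (by rw [one_smul]; exact h)).2

private theorem glob_irr {e₀ e₁ : Fin n → k} {h₀ : k[X]} (hm : h₀.Monic) (hd : h₀.natDegree = 3)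
    (hi : LinearIndependent k ![e₀, e₁]) {M : Type u} [Field M] [Algebra k M]
    [FiniteDimensional k M] (hW : ∀ x : Fin n → M, (ex T M).f x = 0 → x = 0)
    (hh : ∀ y : M, (ex T M).f (y • up M e₀ + up M e₁) =
      algebraMap k M ((ex T k).f e₀) * aeval y h₀) : Irreducible (h₀.map (algebraMap k M)) := by
  have hd' : (h₀.map (algebraMap k M)).natDegree = 3 := by rw [natDegree_map, hd]
  rw [((hm.map _).irreducible_iff_roots_eq_zero_of_degree_le_three (by omega) (by omega))]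
  by_contra hr
  obtain ⟨a, ha⟩ := Multiset.exists_mem_of_ne_zero hr
  have h1 : aeval a h₀ = 0 := by
    rw [aeval_def, ← eval_map]
    exact isRoot_of_mem_roots ha
  have h2 := hh a
  rw [h1, mul_zero] at h2
  exact glob_ne (k := k) hi a (hW _ h2)

omit [IsUltrametricDist k] [ProperSpace k] [CharZero k] in
/-- The cubic extension `k(θ₀)`. -/
private theorem glob_K0 {h₀ : k[X]} (hm : h₀.Monic) (hd : h₀.natDegree = 3)
    (hirr : Irreducible h₀) :
    ∃ (K₀ : Type u) (_ : Field K₀) (_ : Algebra k K₀) (_ : FiniteDimensional k K₀) (θ₀ : K₀),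
      Module.finrank k K₀ = 3 ∧ aeval θ₀ h₀ = 0 := by
  have : Fact (Irreducible h₀) := ⟨hirr⟩
  have hfin : FiniteDimensional k (AdjoinRoot h₀) := (AdjoinRoot.powerBasis' hm).finite
  refine ⟨AdjoinRoot h₀, inferInstance, inferInstance, hfin, AdjoinRoot.root h₀, ?_, ?_⟩
  · rw [(AdjoinRoot.powerBasis' hm).finrank, AdjoinRoot.powerBasis'_dim, hd]
  · rw [AdjoinRoot.aeval_eq, AdjoinRoot.mk_self]

/-- The class of the cubic point on a line over `K'`, where `[K' : k]` is prime to `3` and there are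
no points over extensions of degree prime to `3`. -/
private theorem glob_line
    (hc : ∀ (K₁ : Type u) [Field K₁] [Algebra k K₁] [FiniteDimensional k K₁],
      (Module.finrank k K₁).Coprime 3 → ∀ S₁ : Fin n → K₁, (ex T K₁).f S₁ = 0 → S₁ = 0)
    {e₀ e₁ : Fin n → k} {h₀ : k[X]} (hm : h₀.Monic) (hd : h₀.natDegree = 3) (h0 : e₀ ≠ 0)
    (hi : LinearIndependent k ![e₀, e₁])
    (hh : ∀ (M : Type u) [Field M] [Algebra k M] (y : M),
        (ex T M).f (y • up M e₀ + up M e₁) = algebraMap k M ((ex T k).f e₀) * aeval y h₀)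
    {K₀ : Type u} [Field K₀] [Algebra k K₀] [FiniteDimensional k K₀] (θ₀ : K₀)
    (hK₀ : Module.finrank k K₀ = 3) (hθ₀ : aeval θ₀ h₀ = 0)
    {K' M₀ : Type u} [Field K'] [Field M₀] [Algebra k K'] [Algebra k M₀] [Algebra K' M₀]
    [IsScalarTower k K' M₀] [FiniteDimensional k K'] [FiniteDimensional k M₀]
    (hK' : (Module.finrank k K').Coprime 3) (hM₀ : Module.finrank K' M₀ = 3)
    {e e' : Fin n → K'} {θ : M₀} (hee : LinearIndependent K' ![e, e'])
    (hθ : (ex T M₀).f (θ • up M₀ e + up M₀ e') = 0) :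
    C.cl M₀ (θ • up M₀ e + up M₀ e') =
      Module.finrank k K' • C.cl K₀ (θ₀ • up K₀ e₀ + up K₀ e₁) := by
  have hW := hc K' hK'
  have hfe : (ex T k).f e₀ ≠ 0 := by
    intro h
    have hk1 : (Module.finrank k k).Coprime 3 := by rw [Module.finrank_self]; norm_num
    exact h0 (hc k hk1 e₀ h)
  have hirr := glob_irr hm hd hi hW (hh K')
  have hchar : CharZero K' := charZero_of_injective_algebraMap (algebraMap k K').injective
  have h1 := C.line (up K' e₀) (up K' e₁) e e' (h₀.map (algebraMap k K')) (hm.map _)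
    hirr.separable (by
      rw [ex_f, Ne, map_eq_zero]
      exact hfe) (glob_pair (k := k) hi) (by
      intro y
      rw [hh K' y, ex_f, eval_map, aeval_def]) (by
      intro x y hxy
      rw [LinearIndependent.pair_iff] at hee
      exact hee x y (hW _ hxy)) θ hM₀ hθ
  rw [← h1]
  obtain ⟨L', _, _, _, _, _, _, _, hL'⟩ := common_ext3 k K' K₀ hK₀
  have hS₀ : θ₀ • up K₀ e₀ + up K₀ e₁ ≠ 0 := glob_ne (k := k) hi θ₀
  have fS₀ : (ex T K₀).f (θ₀ • up K₀ e₀ + up K₀ e₁) = 0 := by rw [hh K₀, hθ₀, mul_zero]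
  have h5 := Module.finrank_mul_finrank k K' L'
  have h6 := Module.finrank_mul_finrank k K₀ L'
  rcases hL' with hL' | hL'
  · exfalso
    rw [hL', mul_one] at h5
    refine up_ne_zero (L := L') hS₀ (hc L' ?_ _ ?_)
    · rw [← h5]
      exact hK'
    · rw [ex_f, fS₀, map_zero]
  · have h7 : Module.finrank K₀ L' = Module.finrank k K' := by
      rw [hK₀, ← h5, hL'] at h6
      omega
    rw [← h7, ← C.ext K₀ L']
    rw [C.sec_irr K' L' (h₀.map (algebraMap k K')) _ (algebraMap K₀ L' θ₀) (hm.map _) hirr (by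
      rw [aeval_map_algebraMap, aeval_algebraMap_apply, hθ₀, map_zero]) (by
      rw [natDegree_map, hd, hL'])]
    congr 1
    funext j
    simp only [up, map_add, map_mul, aeval_X, aeval_C, Pi.add_apply, Pi.smul_apply, smul_eq_mul,
      ← IsScalarTower.algebraMap_apply]

/-- The classes of all points are the obvious multiples of one class.
Proof. (i) `X(k) ≠ ∅`: `I = 1`, `γ = cl k A₀` (`main`). Otherwise let `e₀, e₀'` be two unit vectors,
`K₀ = k(θ₀)` with `f(θ₀ e₀ + e₀') = 0`, `[K₀ : k] = 3`, `S₀ = θ₀ e₀ + e₀'`.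
(ii) There is a point `S₁` over `K₁` with `m₁ = [K₁ : k]` prime to `3`: `I = 1`,
`γ = a cl K₁ S₁ + b cl K₀ S₀`, `a m₁ + 3 b = 1`. For `A ∈ X(M)` let `L` be as in `common_ext`:
`[L : M] cl M A = [L : K₁] cl K₁ S₁` (`main` over `L`), `3 cl M A = [M : k] cl K₀ S₀` and
`m₁ cl K₀ S₀ = 3 cl K₁ S₁` (`pf3`), so `cl M A - [M : k] γ` is killed by `3` and by `[L : M]`.
(iii) No such point: `I = 3`, `γ = cl K₀ S₀`. For `A ∈ X(M)`: `3 ∣ [M : k]`,
`x = cl M A - ([M : k] / 3) γ` is killed by `3` (`pf3`). `sylow_tower`: `f` is anisotropic over `K'`,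
`ptl` gives `θ ∈ M₀` and a line over `K'`, `Th.line` over `K'` (and `sec_irr`) for the lines
`⟨e₀, e₀'⟩` and `⟨e, e'⟩` gives `cl M₀ (θ e + e') = cl K₀' (θ₀ e₀ + e₀') = [K' : k] γ`,
`K₀' = K'(θ₀) ⊇ K₀`, and `main` over `L` gives
`[L : M] cl M A = [L : M₀] [K' : k] γ = [L : M] ([M : k] / 3) γ`. -/
theorem exists_gamma (hsm : Sm T) (h8 : 8 ≤ n) :
    ∃ (I : ℕ) (γ : G), I ≠ 0 ∧ ∀ (M : Type u) [Field M] [Algebra k M] [FiniteDimensional k M]
      (A : Fin n → M), A ≠ 0 → (ex T M).f A = 0 →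
      I ∣ Module.finrank k M ∧ C.cl M A = (Module.finrank k M / I) • γ := by
  by_cases hk : ∀ x : Fin n → k, (ex T k).f x = 0 → x = 0
  swap
  · push Not at hk
    obtain ⟨A₀, fA₀, hA₀⟩ := hk
    refine ⟨1, C.cl k A₀, one_ne_zero, fun M _ _ _ A hA fA => ⟨one_dvd _, ?_⟩⟩
    rw [Nat.div_one, ← C.ext k M A₀]
    exact main hsm h8 _ _ hA (up_ne_zero hA₀) fA (by rw [ex_f, fA₀, map_zero])
  obtain ⟨e₀, e₁, h₀, hm, hd, h0, hi, hh⟩ := glob_cub h8 hk
  have hirr : Irreducible h₀ := by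
    have := glob_irr hm hd hi hk (hh k)
    rwa [Algebra.algebraMap_self, Polynomial.map_id] at this
  obtain ⟨K₀, _, _, _, θ₀, hK₀, hθ₀⟩ := glob_K0 hm hd hirr
  have hS₀ : θ₀ • up K₀ e₀ + up K₀ e₁ ≠ 0 := glob_ne (k := k) hi θ₀
  have fS₀ : (ex T K₀).f (θ₀ • up K₀ e₀ + up K₀ e₁) = 0 := by rw [hh K₀, hθ₀, mul_zero]
  by_cases hc : ∃ (K₁ : Type u) (_ : Field K₁) (_ : Algebra k K₁) (_ : FiniteDimensional k K₁)
      (S₁ : Fin n → K₁), (Module.finrank k K₁).Coprime 3 ∧ S₁ ≠ 0 ∧ (ex T K₁).f S₁ = 0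
  · obtain ⟨K₁, _, _, _, S₁, hK₁, hS₁, fS₁⟩ := hc
    obtain ⟨a, b, hab⟩ : ∃ a b : ℤ, a * (Module.finrank k K₁ : ℤ) + 3 * b = 1 := by
      obtain ⟨a, b, h⟩ := Nat.isCoprime_iff_coprime.mpr hK₁
      exact ⟨a, b, by rw [← h]; push_cast; ring⟩
    refine ⟨1, a • C.cl K₁ S₁ + b • C.cl K₀ (θ₀ • up K₀ e₀ + up K₀ e₁), one_ne_zero,
      fun M _ _ _ A hA fA => ⟨one_dvd _, ?_⟩⟩
    rw [Nat.div_one]
    obtain ⟨L, _, _, _, _, _, _, _, hL⟩ := common_ext k M K₁ hK₁
    have h4 : C.cl L (up L A) = C.cl L (up L S₁) :=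
      main hsm h8 _ _ (up_ne_zero hA) (up_ne_zero hS₁) (by rw [ex_f, fA, map_zero])
        (by rw [ex_f, fS₁, map_zero])
    rw [C.ext M L A, C.ext K₁ L S₁] at h4
    exact glob_grp hab
      ((Module.finrank_mul_finrank k M L).trans (Module.finrank_mul_finrank k K₁ L).symm) hL
      (pf3 C hsm h8 K₀ M hK₀ _ hS₀ fS₀ A hA fA) (pf3 C hsm h8 K₀ K₁ hK₀ _ hS₀ fS₀ S₁ hS₁ fS₁) h4
  · have hc' : ∀ (K₁ : Type u) [Field K₁] [Algebra k K₁] [FiniteDimensional k K₁],
        (Module.finrank k K₁).Coprime 3 → ∀ S₁ : Fin n → K₁, (ex T K₁).f S₁ = 0 → S₁ = 0 := by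
      intro K₁ _ _ _ h S₁ hS
      by_contra h1
      exact hc ⟨K₁, inferInstance, inferInstance, inferInstance, S₁, h, h1, hS⟩
    refine ⟨3, C.cl K₀ (θ₀ • up K₀ e₀ + up K₀ e₁), by norm_num, fun M _ _ _ A hA fA => ?_⟩
    have h3M : 3 ∣ Module.finrank k M := by
      by_contra h
      exact hA (hc' M ((Nat.Prime.coprime_iff_not_dvd Nat.prime_three).mpr h).symm A fA)
    refine ⟨h3M, ?_⟩
    obtain ⟨K', M₀, L, _, _, _, _, _, _, _, _, _, _, _, _, _, _, _, hK', hM₀, hL⟩ :=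
      sylow_tower k M h3M
    obtain ⟨N, hN⟩ := h3M
    rw [hN, Nat.mul_div_cancel_left _ (by norm_num)]
    obtain ⟨e, e', θ, hee, hθ⟩ := ptl (M := K') (L := M₀) (fun w _ hw => hc' K' hK' w hw) h8 hM₀
    have h1 := glob_line C hc' hm hd h0 hi hh θ₀ hK₀ hθ₀ hK' hM₀ hee hθ
    have h4 : C.cl L (up L A) = C.cl L (up L (θ • up M₀ e + up M₀ e')) :=
      main hsm h8 _ _ (up_ne_zero hA) (up_ne_zero (glob_ne (k := k) hee θ))
        (by rw [ex_f, fA, map_zero]) (by rw [ex_f, hθ, map_zero])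
    rw [C.ext M L A, C.ext M₀ L, h1, smul_smul] at h4
    have h5 := Module.finrank_mul_finrank k M L
    have h6 := Module.finrank_mul_finrank k M₀ L
    have h7 := Module.finrank_mul_finrank k K' M₀
    have h8' : Module.finrank M₀ L * Module.finrank k K' = Module.finrank M L * N := by
      rw [← h6, ← h7, hM₀, hN] at h5
      have : 3 * (Module.finrank M₀ L * Module.finrank k K') = 3 * (Module.finrank M L * N) := by
        linarith
      omega
    rw [h8'] at h4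
    refine glob_grp3 hL ?_ h4
    rw [← hN]
    exact pf3 C hsm h8 K₀ M hK₀ _ hS₀ fS₀ A hA fA

end Cu
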