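import Mathlib

/-!
The finite field lemma: on a plane cubic `x y (x + y) + p x + q y + c = 0` over a large finite field
there is a conic `x (y + e) = -z` whose three residual points are conjugate over the cubic extension.
-/

namespace Cu

open Finset

section quad

variable {F : Type*} [Field F] [Fintype F] [DecidableEq F]

/-- A polynomial of degree at most two which is not zero has at most two roots. -/
theorem quad_card {a b c : F} (h : a ≠ 0 ∨ b ≠ 0 ∨ c ≠ 0) :
    (univ.filter fun x : F => a * x ^ 2 + b * x + c = 0).card ≤ 2 := by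
  classical
  open Polynomial in
  set P : F[X] := C a * X ^ 2 + C b * X + C c with hP
  have h0 : P ≠ 0 := by
    intro hz
    have h2 : P.coeff 2 = a := by simp [hP]
    have h1 : P.coeff 1 = b := by simp [hP, Polynomial.coeff_C]
    have h3 : P.coeff 0 = c := by simp [hP]
    rw [hz, Polynomial.coeff_zero] at h1 h2 h3
    rcases h with h | h | h
    · exact h h2.symm
    · exact h h1.symm
    · exact h h3.symm
  have hd : P.natDegree ≤ 2 := Polynomial.natDegree_quadratic_le
  calc (univ.filter fun x : F => a * x ^ 2 + b * x + c = 0).card ≤ P.roots.toFinset.card := by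
        apply card_le_card
        intro x hx
        rw [mem_filter] at hx
        rw [Multiset.mem_toFinset, Polynomial.mem_roots h0, Polynomial.IsRoot.def]
        simpa [hP] using hx.2
    _ ≤ Multiset.card P.roots := Multiset.toFinset_card_le _
    _ ≤ P.natDegree := Polynomial.card_roots' P
    _ ≤ 2 := hd

theorem cubic_card {a b c d : F} (h : a ≠ 0) :
    (univ.filter fun x : F => a * x ^ 3 + b * x ^ 2 + c * x + d = 0).card ≤ 3 := by
  classical
  open Polynomial in
  set P : F[X] := C a * X ^ 3 + C b * X ^ 2 + C c * X + C d with hP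
  have hd : P.natDegree = 3 := Polynomial.natDegree_cubic h
  have h0 : P ≠ 0 := by
    intro hz
    rw [hz] at hd
    simp at hd
  calc (univ.filter fun x : F => a * x ^ 3 + b * x ^ 2 + c * x + d = 0).card
      ≤ P.roots.toFinset.card := by
        apply card_le_card
        intro x hx
        rw [mem_filter] at hx
        rw [Multiset.mem_toFinset, Polynomial.mem_roots h0, Polynomial.IsRoot.def]
        simpa [hP] using hx.2
    _ ≤ Multiset.card P.roots := Multiset.toFinset_card_le _
    _ ≤ P.natDegree := Polynomial.card_roots' P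
    _ = 3 := hd

end quad

section count

variable {F : Type*} [Field F] [Fintype F] [DecidableEq F]

/-- The residual cubic polynomial. -/
def G (p q c z e y : F) : F := z ^ 2 * y - z * (y + e) * (y ^ 2 + p) + (q * y + c) * (y + e) ^ 2

/-- The plane cubic. -/
def Fc (p q c x y : F) : F := x * y * (x + y) + p * x + q * y + c

omit [Fintype F] [DecidableEq F] in
theorem G_eq (p q c x y e : F) : G p q c (-(x * (y + e))) e y = (y + e) ^ 2 * Fc p q c x y := by
  simp only [G, Fc]; ring

/-- Points with `x ≠ 0`. -/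
def Cx (p q c : F) : Finset (F × F) := univ.filter fun v => v.1 ≠ 0 ∧ Fc p q c v.1 v.2 = 0

/-- The parameters of the conics. -/
def Sx (q : F) : Finset (F × F) := univ.filter fun s => s.1 ≠ 0 ∧ s.1 ≠ q ∧ s.2 ≠ 0

/-- The roots. -/
def Rx (p q c : F) (s : F × F) : Finset F := univ.filter fun y => G p q c s.1 s.2 y = 0

theorem card_Sx (q : F) : (Fintype.card F - 2) * (Fintype.card F - 1) ≤ (Sx q).card := by
  have h1 : Sx q = (univ.erase 0 |>.erase q) ×ˢ (univ.erase (0 : F)) := by
    ext s
    simp only [Sx, mem_filter, mem_univ, true_and, mem_product, mem_erase, and_true]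
    tauto
  rw [h1, card_product]
  apply Nat.mul_le_mul
  · have h2 := pred_card_le_card_erase (s := (univ : Finset F).erase 0) (a := q)
    have h3 := pred_card_le_card_erase (s := (univ : Finset F)) (a := (0 : F))
    rw [card_univ] at h3
    omega
  · have h3 := pred_card_le_card_erase (s := (univ : Finset F)) (a := (0 : F))
    rw [card_univ] at h3
    omega

theorem card_Rx (p q c : F) {s : F × F} (hs : s ∈ Sx q) : (Rx p q c s).card ≤ 3 := by
  rw [Sx, mem_filter] at hs
  have h1 : q - s.1 ≠ 0 := sub_ne_zero.2 (Ne.symm hs.2.2.1)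
  have h2 := cubic_card (b := (2 * q - s.1) * s.2 + c)
    (c := s.1 ^ 2 - s.1 * p + q * s.2 ^ 2 + 2 * c * s.2) (d := s.2 * (c * s.2 - s.1 * p)) h1
  have h3 : Rx p q c s = univ.filter fun x : F => (q - s.1) * x ^ 3 +
      ((2 * q - s.1) * s.2 + c) * x ^ 2 + (s.1 ^ 2 - s.1 * p + q * s.2 ^ 2 + 2 * c * s.2) * x +
      s.2 * (c * s.2 - s.1 * p) = 0 := by
    apply filter_congr
    intro y _
    have : G p q c s.1 s.2 y = (q - s.1) * y ^ 3 +
      ((2 * q - s.1) * s.2 + c) * y ^ 2 + (s.1 ^ 2 - s.1 * p + q * s.2 ^ 2 + 2 * c * s.2) * y +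
      s.2 * (c * s.2 - s.1 * p) := by simp only [G]; ring
    rw [this]
  rw [h3]
  exact h2

omit [Fintype F] [DecidableEq F] in
/-- A root gives a point. -/
theorem root_pt {p q c z e y : F} (hz : z ≠ 0) (he : e ≠ 0) (hy : G p q c z e y = 0) :
    y + e ≠ 0 ∧ -z / (y + e) ≠ 0 ∧ Fc p q c (-z / (y + e)) y = 0 := by
  have h1 : y + e ≠ 0 := by
    intro h
    have h2 : y = -e := eq_neg_of_add_eq_zero_left h
    rw [h2] at hy
    simp only [G] at hy
    have h3 : -(z ^ 2 * e) = 0 := by linear_combination hy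
    exact mul_ne_zero (pow_ne_zero 2 hz) he (neg_eq_zero.1 h3)
  refine ⟨h1, div_ne_zero (neg_ne_zero.2 hz) h1, ?_⟩
  have h2 : -(-z / (y + e) * (y + e)) = z := by
    field_simp
  have h3 := G_eq p q c (-z / (y + e)) y e
  rw [h2, hy] at h3
  rcases mul_eq_zero.1 h3.symm with h4 | h4
  · exact absurd (pow_eq_zero_iff (two_ne_zero) |>.1 h4) h1
  · exact h4

/-- Sum of the numbers of roots. -/
theorem sum_roots (p q c : F) :
    ∑ s ∈ Sx q, (Rx p q c s).card ≤ (Cx p q c).card * Fintype.card F := by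
  rw [← card_sigma, ← card_univ, ← card_product]
  refine card_le_card_of_injOn
    (fun t : (_ : F × F) × F => ((-t.1.1 / (t.2 + t.1.2), t.2), t.1.2)) ?_ ?_
  · rintro ⟨⟨z, e⟩, y⟩ ht
    rw [mem_coe, mem_sigma, Sx, Rx, mem_filter, mem_filter] at ht
    obtain ⟨⟨-, hz, -, he⟩, -, hy⟩ := ht
    obtain ⟨-, h2, h3⟩ := root_pt hz he hy
    rw [mem_coe, mem_product, Cx, mem_filter]
    exact ⟨⟨mem_univ _, h2, h3⟩, mem_univ _⟩
  · rintro ⟨⟨z, e⟩, y⟩ ht ⟨⟨z', e'⟩, y'⟩ ht' h
    rw [mem_coe, mem_sigma, Sx, Rx, mem_filter, mem_filter] at ht ht'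
    obtain ⟨⟨-, hz, -, he⟩, -, hy⟩ := ht
    obtain ⟨⟨-, hz', -, he'⟩, -, hy'⟩ := ht'
    simp only [Prod.mk.injEq] at h
    obtain ⟨⟨h1, h2⟩, h3⟩ := h
    subst h2 h3
    obtain ⟨h4, -, -⟩ := root_pt hz he hy
    rw [div_left_inj' h4, neg_inj] at h1
    rw [h1]

/-- the conic through two points -/
def eP (v w : F × F) : F := (w.1 * w.2 - v.1 * v.2) / (v.1 - w.1)

/-- the conic through two points -/
def zP (v w : F × F) : F := -(v.1 * (v.2 + eP v w))

omit [Fintype F] [DecidableEq F] in
theorem zP_eq {v w : F × F} (h : v.1 ≠ w.1) : zP v w = -(w.1 * (w.2 + eP v w)) := by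
  have h1 : v.1 - w.1 ≠ 0 := sub_ne_zero.2 h
  simp only [zP, eP]
  field_simp
  ring

omit [Fintype F] [DecidableEq F] in
theorem zP_ne {v w : F × F} (h : v.1 ≠ w.1) (hv : v.1 ≠ 0) (hw : w.1 ≠ 0) (hy : v.2 ≠ w.2) :
    zP v w ≠ 0 := by
  have h1 : v.1 - w.1 ≠ 0 := sub_ne_zero.2 h
  have h2 : zP v w = v.1 * w.1 * (v.2 - w.2) / (v.1 - w.1) := by
    simp only [zP, eP]
    field_simp
    ring
  rw [h2]
  exact div_ne_zero (mul_ne_zero (mul_ne_zero hv hw) (sub_ne_zero.2 hy)) h1

/-- the good pairs of points -/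
def Good (q : F) (v w : F × F) : Prop := v.1 ≠ w.1 ∧ v.2 ≠ w.2 ∧ eP v w ≠ 0 ∧ zP v w ≠ q

instance (q : F) (v w : F × F) : Decidable (Good q v w) := by unfold Good; infer_instance

theorem good_le (p q c : F) :
    ((Cx p q c ×ˢ Cx p q c).filter fun t => Good q t.1 t.2).card ≤
      ∑ s ∈ Sx q, ((Rx p q c s).card * (Rx p q c s).card - (Rx p q c s).card) := by
  have h1 : ∀ s : F × F, (Rx p q c s).card * (Rx p q c s).card - (Rx p q c s).card =
      (Rx p q c s).offDiag.card := fun s => (offDiag_card _).symm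
  simp only [h1]
  rw [← card_sigma]
  refine card_le_card_of_injOn (fun t : (F × F) × (F × F) =>
    (⟨(zP t.1 t.2, eP t.1 t.2), (t.1.2, t.2.2)⟩ : (_ : F × F) × (F × F))) ?_ ?_
  · rintro ⟨v, w⟩ ht
    rw [mem_coe, mem_filter, mem_product, Cx, mem_filter, mem_filter] at ht
    obtain ⟨⟨⟨-, hv0, hv⟩, -, hw0, hw⟩, h1, h2, h3, h4⟩ := ht
    rw [mem_coe, mem_sigma, Sx, mem_filter, mem_offDiag, Rx, mem_filter, mem_filter]
    refine ⟨⟨mem_univ _, zP_ne h1 hv0 hw0 h2, h4, h3⟩, ⟨mem_univ _, ?_⟩, ⟨mem_univ _, ?_⟩, h2⟩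
    · change G p q c (zP v w) (eP v w) v.2 = 0
      rw [zP, G_eq, hv, mul_zero]
    · change G p q c (zP v w) (eP v w) w.2 = 0
      rw [zP_eq h1, G_eq, hw, mul_zero]
  · rintro ⟨v, w⟩ ht ⟨v', w'⟩ ht' h
    rw [mem_coe, mem_filter, mem_product, Cx, mem_filter, mem_filter] at ht ht'
    obtain ⟨⟨⟨-, hv0, hv⟩, -, hw0, hw⟩, h1, h2, h3, h4⟩ := ht
    obtain ⟨⟨⟨-, hv0', hv'⟩, -, hw0', hw'⟩, h1', h2', h3', h4'⟩ := ht'
    simp only [Sigma.mk.injEq, Prod.mk.injEq, heq_eq_eq] at h
    obtain ⟨⟨h5, h6⟩, h7, h8⟩ := h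
    have hz := zP_ne h1 hv0 hw0 h2
    have h9 : v.2 + eP v w ≠ 0 := by
      intro h0
      apply hz
      rw [zP, h0, mul_zero, neg_zero]
    have h10 : w.2 + eP v w ≠ 0 := by
      intro h0
      apply hz
      rw [zP_eq h1, h0, mul_zero, neg_zero]
    have h11 : v.1 = v'.1 := by
      have h12 : v.1 * (v.2 + eP v w) = v'.1 * (v.2 + eP v w) := by
        have := h5
        rw [zP, zP, neg_inj, ← h6, ← h7] at this
        exact this
      exact mul_right_cancel₀ h9 h12
    have h13 : w.1 = w'.1 := by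
      have h12 : w.1 * (w.2 + eP v w) = w'.1 * (w.2 + eP v w) := by
        have := h5
        rw [zP_eq h1, zP_eq h1', neg_inj, ← h6, ← h8] at this
        exact this
      exact mul_right_cancel₀ h10 h12
    exact Prod.ext (Prod.ext h11 h7) (Prod.ext h13 h8)

/-- For each point there are at most eight bad second points. -/
theorem bad_le {p q c : F} (h : c ≠ 0 ∨ (p ≠ 0 ∧ p ≠ q)) {v : F × F} (hv : v ∈ Cx p q c) :
    ((Cx p q c).filter fun w => ¬ Good q v w).card ≤ 8 := by
  rw [Cx, mem_filter] at hv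
  obtain ⟨-, hv0, hvF⟩ := hv
  have hpc : p ≠ 0 ∨ c ≠ 0 := by
    rcases h with h | h
    · exact Or.inr h
    · exact Or.inl h.1
  -- same first coordinate
  have h1 : ((Cx p q c).filter fun w => v.1 = w.1).card ≤ 2 := by
    have h2 := quad_card (a := v.1) (b := v.1 ^ 2 + q) (c := p * v.1 + c) (Or.inl hv0)
    refine le_trans (card_le_card_of_injOn (fun w : F × F => w.2) ?_ ?_) h2
    · intro w hw
      rw [mem_coe, mem_filter, Cx, mem_filter] at hw
      obtain ⟨⟨-, -, hwF⟩, hw1⟩ := hw
      rw [mem_coe, mem_filter]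
      refine ⟨mem_univ _, ?_⟩
      rw [Fc, ← hw1] at hwF
      linear_combination hwF
    · intro w hw w' hw' hww
      rw [mem_coe, mem_filter] at hw hw'
      exact Prod.ext (hw.2.symm.trans hw'.2) hww
  -- same second coordinate
  have h2 : ((Cx p q c).filter fun w => v.2 = w.2).card ≤ 2 := by
    have h3 : v.2 ≠ 0 ∨ v.2 ^ 2 + p ≠ 0 ∨ q * v.2 + c ≠ 0 := by
      by_contra hcon
      push Not at hcon
      obtain ⟨a1, a2, a3⟩ := hcon
      rw [a1] at a2 a3
      rcases hpc with h4 | h4
      · apply h4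
        linear_combination a2
      · apply h4
        linear_combination a3
    have h2 := quad_card h3
    refine le_trans (card_le_card_of_injOn (fun w : F × F => w.1) ?_ ?_) h2
    · intro w hw
      rw [mem_coe, mem_filter, Cx, mem_filter] at hw
      obtain ⟨⟨-, -, hwF⟩, hw1⟩ := hw
      rw [mem_coe, mem_filter]
      refine ⟨mem_univ _, ?_⟩
      rw [Fc, ← hw1] at hwF
      linear_combination hwF
    · intro w hw w' hw' hww
      rw [mem_coe, mem_filter] at hw hw'
      exact Prod.ext hww (hw.2.symm.trans hw'.2)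
  -- e = 0
  have h3 : ((Cx p q c).filter fun w => v.2 ≠ w.2 ∧ w.1 * w.2 = v.1 * v.2).card ≤ 2 := by
    set g := v.1 * v.2 with hg
    by_cases hg0 : g = 0
    · have h4 : ((Cx p q c).filter fun w => v.2 ≠ w.2 ∧ w.1 * w.2 = g) = ∅ := by
        apply filter_eq_empty_iff.2
        intro w hw hcon
        rw [Cx, mem_filter] at hw
        have h5 : v.2 = 0 := by
          rcases mul_eq_zero.1 (hg ▸ hg0) with h6 | h6
          · exact absurd h6 hv0
          · exact h6
        have h7 : w.2 = 0 := by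
          rcases mul_eq_zero.1 (hcon.2.trans hg0) with h6 | h6
          · exact absurd h6 hw.2.1
          · exact h6
        exact hcon.1 (h5.trans h7.symm)
      rw [h4]
      simp
    · have h4 : g + q ≠ 0 ∨ c ≠ 0 ∨ g ^ 2 + p * g ≠ 0 := by
        by_contra hcon
        push Not at hcon
        obtain ⟨a1, a2, a3⟩ := hcon
        rcases h with h | h
        · exact h a2
        · apply h.2
          have h5 : g * (g + p) = 0 := by linear_combination a3
          rcases mul_eq_zero.1 h5 with h6 | h6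
          · exact absurd h6 hg0
          · linear_combination h6 - a1
      have h5 := quad_card h4
      refine le_trans (card_le_card_of_injOn (fun w : F × F => w.2) ?_ ?_) h5
      · intro w hw
        rw [mem_coe, mem_filter, Cx, mem_filter] at hw
        obtain ⟨⟨-, -, hwF⟩, -, hw1⟩ := hw
        rw [mem_coe, mem_filter]
        refine ⟨mem_univ _, ?_⟩
        rw [Fc] at hwF
        change (g + q) * w.2 ^ 2 + c * w.2 + (g ^ 2 + p * g) = 0
        rw [← hw1]
        linear_combination w.2 * hwF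
      · intro w hw w' hw' hww
        rw [mem_coe, mem_filter] at hw hw'
        have h6 : w.2 ≠ 0 := by
          intro h0
          apply hg0
          rw [← hw.2.2, h0, mul_zero]
        refine Prod.ext ?_ hww
        have h7 : w.1 * w.2 = w'.1 * w.2 := by
          rw [hw.2.2]
          change w.2 = w'.2 at hww
          rw [hww, hw'.2.2]
        exact mul_right_cancel₀ h6 h7
  -- z = q
  have h4 : ((Cx p q c).filter fun w => v.1 ≠ w.1 ∧ v.2 ≠ w.2 ∧ zP v w = q).card ≤ 2 := by
    by_cases hq0 : q = 0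
    · have h4 : ((Cx p q c).filter fun w => v.1 ≠ w.1 ∧ v.2 ≠ w.2 ∧ zP v w = q) = ∅ := by
        apply filter_eq_empty_iff.2
        intro w hw hcon
        rw [Cx, mem_filter] at hw
        exact zP_ne hcon.1 hv0 hw.2.1 hcon.2.1 (hcon.2.2.trans hq0)
      rw [h4]
      simp
    · set e := -q / v.1 - v.2 with he
      have h5 : q * e + c ≠ 0 ∨ q ^ 2 - q * p + q * e ^ 2 + 2 * c * e ≠ 0 ∨
          e * (c * e - q * p) ≠ 0 := by
        by_contra hcon
        push Not at hcon
        obtain ⟨a1, a2, a3⟩ := hcon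
        have b1 : c = -(q * e) := by linear_combination a1
        rw [b1] at a2 a3
        have b2 : q * (q - p - e ^ 2) = 0 := by linear_combination a2
        have b3 : q - p - e ^ 2 = 0 := by
          rcases mul_eq_zero.1 b2 with h6 | h6
          · exact absurd h6 hq0
          · exact h6
        have b4 : q * (e * (e ^ 2 + p)) = 0 := by linear_combination -a3
        rcases mul_eq_zero.1 b4 with h6 | h6
        · exact hq0 h6
        · rcases mul_eq_zero.1 h6 with h7 | h7
          · rw [h7] at b1 b3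
            rcases h with h | h
            · apply h
              rw [b1]
              ring
            · apply h.2
              linear_combination -b3
          · apply hq0
            linear_combination b3 + h7
      have h6 := quad_card h5
      have key : ∀ w : F × F, v.1 ≠ w.1 → zP v w = q → eP v w = e := by
        intro w hw1 hw2
        rw [zP] at hw2
        rw [he]
        field_simp
        linear_combination -hw2
      refine le_trans (card_le_card_of_injOn (fun w : F × F => w.2) ?_ ?_) h6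
      · intro w hw
        rw [mem_coe, mem_filter, Cx, mem_filter] at hw
        obtain ⟨⟨-, hw0, hwF⟩, hw1, hw2, hw3⟩ := hw
        rw [mem_coe, mem_filter]
        refine ⟨mem_univ _, ?_⟩
        have h7 := key w hw1 hw3
        have h8 := G_eq p q c w.1 w.2 e
        rw [hwF, mul_zero] at h8
        have h9 := zP_eq hw1
        rw [h7, hw3] at h9
        rw [← h9] at h8
        rw [G] at h8
        linear_combination h8
      · intro w hw w' hw' hww
        rw [mem_coe, mem_filter] at hw hw'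
        obtain ⟨-, hw1, hw2, hw3⟩ := hw
        obtain ⟨-, hw1', hw2', hw3'⟩ := hw'
        change w.2 = w'.2 at hww
        have h7 := key w hw1 hw3
        have h7' := key w' hw1' hw3'
        have h9 := zP_eq hw1
        have h9' := zP_eq hw1'
        rw [h7, hw3] at h9
        rw [h7', hw3', ← hww] at h9'
        have h10 : w.2 + e ≠ 0 := by
          intro h0
          rw [h0, mul_zero, neg_zero] at h9
          exact hq0 h9
        refine Prod.ext ?_ hww
        have h11 : w.1 * (w.2 + e) = w'.1 * (w.2 + e) := by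
          rw [h9] at h9'
          exact neg_inj.1 h9'
        exact mul_right_cancel₀ h10 h11
  have hsub : ((Cx p q c).filter fun w => ¬ Good q v w) ⊆
      ((((Cx p q c).filter fun w => v.1 = w.1) ∪ ((Cx p q c).filter fun w => v.2 = w.2)) ∪
      ((Cx p q c).filter fun w => v.2 ≠ w.2 ∧ w.1 * w.2 = v.1 * v.2)) ∪
      ((Cx p q c).filter fun w => v.1 ≠ w.1 ∧ v.2 ≠ w.2 ∧ zP v w = q) := by
    intro w hw
    rw [mem_filter] at hw
    obtain ⟨hwC, hwG⟩ := hw
    rw [mem_union, mem_union, mem_union, mem_filter, mem_filter, mem_filter, mem_filter]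
    by_cases c1 : v.1 = w.1
    · exact Or.inl (Or.inl (Or.inl ⟨hwC, c1⟩))
    · by_cases c2 : v.2 = w.2
      · exact Or.inl (Or.inl (Or.inr ⟨hwC, c2⟩))
      · by_cases c3 : w.1 * w.2 = v.1 * v.2
        · exact Or.inl (Or.inr ⟨hwC, c2, c3⟩)
        · refine Or.inr ⟨hwC, c1, c2, ?_⟩
          by_contra c4
          exact hwG ⟨c1, c2, div_ne_zero (sub_ne_zero.2 c3) (sub_ne_zero.2 c1), c4⟩
  have h5 := card_le_card hsub
  have h6 := card_union_le ((((Cx p q c).filter fun w => v.1 = w.1) ∪
    ((Cx p q c).filter fun w => v.2 = w.2)) ∪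
      ((Cx p q c).filter fun w => v.2 ≠ w.2 ∧ w.1 * w.2 = v.1 * v.2))
      ((Cx p q c).filter fun w => v.1 ≠ w.1 ∧ v.2 ≠ w.2 ∧ zP v w = q)
  have h7 := card_union_le (((Cx p q c).filter fun w => v.1 = w.1) ∪
    ((Cx p q c).filter fun w => v.2 = w.2))
      ((Cx p q c).filter fun w => v.2 ≠ w.2 ∧ w.1 * w.2 = v.1 * v.2)
  have h8 := card_union_le ((Cx p q c).filter fun w => v.1 = w.1)
    ((Cx p q c).filter fun w => v.2 = w.2)
  omega

theorem card_Cx (p q c : F) : (Cx p q c).card ≤ 2 * Fintype.card F := by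
  have h1 : (Cx p q c).card = ∑ x : F, ((Cx p q c).filter fun v => v.1 = x).card :=
    card_eq_sum_card_fiberwise (fun v _ => mem_univ _)
  rw [h1, mul_comm, ← card_univ, ← smul_eq_mul, ← sum_const]
  refine sum_le_sum fun x _ => ?_
  by_cases hx : x = 0
  · have h2 : ((Cx p q c).filter fun v => v.1 = x) = ∅ := by
      apply filter_eq_empty_iff.2
      intro w hw hcon
      rw [Cx, mem_filter] at hw
      exact hw.2.1 (hcon.trans hx)
    rw [h2]
    simp
  · have h2 := quad_card (a := x) (b := x ^ 2 + q) (c := p * x + c) (Or.inl hx)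
    refine le_trans (card_le_card_of_injOn (fun w : F × F => w.2) ?_ ?_) h2
    · intro w hw
      rw [mem_coe, mem_filter, Cx, mem_filter] at hw
      obtain ⟨⟨-, -, hwF⟩, hw1⟩ := hw
      rw [mem_coe, mem_filter]
      refine ⟨mem_univ _, ?_⟩
      rw [Fc, hw1] at hwF
      linear_combination hwF
    · intro w hw w' hw' hww
      rw [mem_coe, mem_filter] at hw hw'
      exact Prod.ext (hw.2.trans hw'.2.symm) hww

private theorem three_aux (r : ℕ) (h1 : 1 ≤ r) (h2 : r ≤ 3) : 3 + (r * r - r) ≤ 3 * r := by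
  interval_cases r <;> norm_num

private theorem arith_aux (a N S R P g b : ℕ) (h1 : (a + 32) * (a + 33) ≤ S)
    (h2 : R ≤ N * (a + 34)) (h3 : g ≤ P) (h4 : b ≤ 8 * N) (h5 : g + b = N * N)
    (h6 : N ≤ 2 * (a + 34)) (h7 : 3 * S + P ≤ 3 * R) : False := by
  zify at *
  have ha0 : (0 : ℤ) ≤ a := Int.natCast_nonneg a
  nlinarith [sq_nonneg (2 * (N : ℤ) - 3 * (a + 34))]

/-- The finite field lemma, without roots. -/
theorem exists_noroot (hF : 34 ≤ Fintype.card F) {p q c : F} (h : c ≠ 0 ∨ (p ≠ 0 ∧ p ≠ q)) :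
    ∃ z e : F, z ≠ 0 ∧ z ≠ q ∧ ∀ y : F, G p q c z e y ≠ 0 := by
  by_contra hcon
  push Not at hcon
  have hr : ∀ s ∈ Sx q, 1 ≤ (Rx p q c s).card := by
    intro s hs
    rw [Sx, mem_filter] at hs
    obtain ⟨y, hy⟩ := hcon s.1 s.2 hs.2.1 hs.2.2.1
    exact card_pos.2 ⟨y, mem_filter.2 ⟨mem_univ _, hy⟩⟩
  have h1 := card_Sx q
  have h2 := sum_roots p q c
  have h3 := good_le p q c
  have h4 : ((Cx p q c ×ˢ Cx p q c).filter fun t => ¬ Good q t.1 t.2).card ≤
      8 * (Cx p q c).card := by
    have h5 : ((Cx p q c ×ˢ Cx p q c).filter fun t => ¬ Good q t.1 t.2).card =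
        ∑ v ∈ Cx p q c, ((Cx p q c).filter fun w => ¬ Good q v w).card := by
      rw [← card_sigma]
      refine card_bij (fun t _ => (⟨t.1, t.2⟩ : (_ : F × F) × (F × F))) ?_ ?_ ?_
      · rintro ⟨v, w⟩ ht
        rw [mem_filter, mem_product] at ht
        rw [mem_sigma, mem_filter]
        exact ⟨ht.1.1, ht.1.2, ht.2⟩
      · rintro ⟨v, w⟩ _ ⟨v', w'⟩ _ h
        simp only [Sigma.mk.injEq, heq_eq_eq] at h
        exact Prod.ext h.1 h.2
      · rintro ⟨v, w⟩ ht
        rw [mem_sigma, mem_filter] at ht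
        exact ⟨(v, w), mem_filter.2 ⟨mem_product.2 ⟨ht.1, ht.2.1⟩, ht.2.2⟩, rfl⟩
    rw [h5, mul_comm, ← smul_eq_mul, ← sum_const]
    exact sum_le_sum fun v hv => bad_le h hv
  have h5 : ((Cx p q c ×ˢ Cx p q c).filter fun t => Good q t.1 t.2).card +
      ((Cx p q c ×ˢ Cx p q c).filter fun t => ¬ Good q t.1 t.2).card =
      (Cx p q c).card * (Cx p q c).card := by
    rw [card_filter_add_card_filter_not, card_product]
  have h6 := card_Cx p q c
  -- the inequality for each parameter
  have h7 : 3 * (Sx q).card + ∑ s ∈ Sx q, ((Rx p q c s).card * (Rx p q c s).card -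
      (Rx p q c s).card) ≤ 3 * ∑ s ∈ Sx q, (Rx p q c s).card := by
    rw [mul_comm, ← smul_eq_mul, ← sum_const, ← sum_add_distrib, mul_sum]
    refine sum_le_sum fun s hs => ?_
    exact three_aux _ (hr s hs) (card_Rx p q c hs)
  have h8 : (Fintype.card F - 34 + 32) * (Fintype.card F - 34 + 33) ≤ (Sx q).card := by
    have e1 : Fintype.card F - 34 + 32 = Fintype.card F - 2 := by omega
    have e2 : Fintype.card F - 34 + 33 = Fintype.card F - 1 := by omega
    rw [e1, e2]
    exact h1
  have e3 : Fintype.card F - 34 + 34 = Fintype.card F := by omega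
  rw [← e3] at h2 h6
  exact arith_aux _ _ _ _ _ _ _ h8 h2 h3 h4 h5 h6 h7

end count

section poly

open Polynomial

variable {F : Type*} [Field F]

/-- The residual cubic polynomial. -/
noncomputable def Gp (p q c z e : F) : F[X] :=
  C (z ^ 2) * X - C z * (X + C e) * (X ^ 2 + C p) + (C q * X + C c) * (X + C e) ^ 2

theorem Gp_eval (p q c z e y : F) : (Gp p q c z e).eval y = G p q c z e y := by
  simp [Gp, G]

theorem Gp_eq (p q c z e : F) : Gp p q c z e = C (q - z) * X ^ 3 +
    C ((2 * q - z) * e + c) * X ^ 2 + C (z ^ 2 - z * p + q * e ^ 2 + 2 * c * e) * X +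
    C (e * (c * e - z * p)) := by
  simp only [Gp, C_sub, C_add, C_mul, C_pow]
  have h2 : (C (2 : F) : F[X]) = 2 := map_ofNat C 2
  rw [h2]
  ring

/-- The finite field lemma: over a finite field with at least `34` elements there is a conic for
which the residual cubic polynomial is irreducible of degree `3`. -/
theorem exists_irr [Finite F] (hF : 34 ≤ Nat.card F) {p q c : F}
    (h : c ≠ 0 ∨ (p ≠ 0 ∧ p ≠ q)) :
    ∃ z e : F, z ≠ 0 ∧ z ≠ q ∧ (Gp p q c z e).natDegree = 3 ∧ Irreducible (Gp p q c z e) := by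
  classical
  have := Fintype.ofFinite F
  rw [Nat.card_eq_fintype_card] at hF
  obtain ⟨z, e, hz, hzq, hy⟩ := exists_noroot hF h
  have hd : (Gp p q c z e).natDegree = 3 := by
    rw [Gp_eq]
    exact natDegree_cubic (sub_ne_zero.2 hzq.symm)
  refine ⟨z, e, hz, hzq, hd, ?_⟩
  rw [Polynomial.irreducible_iff_roots_eq_zero_of_degree_le_three (by omega) (by omega)]
  rw [Multiset.eq_zero_iff_forall_notMem]
  intro y hy'
  rw [mem_roots', IsRoot.def, Gp_eval] at hy'
  exact hy y hy'.2

end poly

end Cu
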