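import Pool.Agent.Lib.MP_f80667_ag.Cu.Basis
import Pool.Agent.Lib.MP_f80667_ag.Cu.Ext
import Pool.Agent.Lib.MP_f80667_ag.Cu.Lin

/-! Zeros over the unramified cubic extension. -/

open Polynomial IsLocalRing Pool.Agent.Lib.MP_f80667_ag.LF

namespace Cu

universe u

variable {k : Type u} [NontriviallyNormedField k] [IsUltrametricDist k] [ProperSpace k]
  [CharZero k] {n : ℕ} {T : Tn k n} {M L : Type u} [Field M] [Field L] [Algebra k M] [Algebra k L]
  [Algebra M L] [IsScalarTower k M L] [FiniteDimensional k M] [FiniteDimensional k L]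

/-- Independent vectors stay independent. -/
theorem up_indep {ι : Type*} {e : ι → Fin n → M} (h : LinearIndependent M e) :
    LinearIndependent L (fun i => up L (e i)) := by
  classical
  rw [linearIndependent_iff']
  intro s c hc i hi
  let b := Module.Free.chooseBasis M L
  apply b.repr.injective
  rw [map_zero]
  ext t
  have h2 : ∑ i ∈ s, b.coord t (c i) • e i = 0 := by
    funext j
    have h3 := congrFun hc j
    have h4 := congrArg (b.coord t) h3
    simp only [Finset.sum_apply, Pi.smul_apply, smul_eq_mul, Pi.zero_apply, map_zero, map_sum,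
      up] at h4 ⊢
    rw [← h4]
    refine Finset.sum_congr rfl fun i _ => ?_
    rw [mul_comm (c i), ← Algebra.smul_def, map_smul, smul_eq_mul, mul_comm]
  exact linearIndependent_iff'.mp h s _ h2 i hi

/-! ### Hensel's lemma -/

omit [CharZero k] in
private theorem hens {d : ℕ} (hL : Unr k M L d) (g : (ResidueField (O k M))[X])
    (hg : Irreducible g) (hd : g.natDegree ∣ d) (H : (O k L)[X]) (hH : H.Monic)
    (hHg : H.map (residue (O k L)) = g.map (rMap k M L)) : ∃ θ : O k L, H.eval θ = 0 := by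
  obtain ⟨x, hx⟩ := hL.root g hg hd
  obtain ⟨x₀, rfl⟩ := residue_surjective x
  have hsep : g.Separable := PerfectField.separable_of_irreducible hg
  have hder := hsep.eval₂_derivative_ne_zero (rMap k M L) hx
  obtain ⟨θ, hθ, -⟩ := HenselianRing.is_henselian (I := maximalIdeal (O k L)) H hH x₀
    (by
      rw [← residue_eq_zero_iff]
      have h1 : residue (O k L) (H.eval x₀) =
          (H.map (residue (O k L))).eval (residue (O k L) x₀) := by
        rw [eval_map, eval₂_hom]
      rw [h1, hHg, eval_map]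
      exact hx)
    (by
      refine IsUnit.map _ ((residue_ne_zero_iff_isUnit _).mp ?_)
      have h1 : residue (O k L) (H.derivative.eval x₀) =
          (H.map (residue (O k L))).derivative.eval (residue (O k L) x₀) := by
        rw [derivative_map, eval_map, eval₂_hom]
      rw [h1, hHg, derivative_map, eval_map]
      exact hder)
  exact ⟨θ, hθ⟩

omit [CharZero k] in
private theorem hens3 (hL : Unr k M L 3) (a b c d : O k M)
    (h : ∀ x y : O k M, IsUnit x ∨ IsUnit y →
      IsUnit (a * x ^ 3 + b * x ^ 2 * y + c * x * y ^ 2 + d * y ^ 3))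
    (a' b' c' d' : O k L) (ha : residue (O k L) a' = rMap k M L (residue (O k M) a))
    (hb : residue (O k L) b' = rMap k M L (residue (O k M) b))
    (hc : residue (O k L) c' = rMap k M L (residue (O k M) c))
    (hd : residue (O k L) d' = rMap k M L (residue (O k M) d)) :
    ∃ θ : O k L, a' * θ ^ 3 + b' * θ ^ 2 + c' * θ + d' = 0 := by
  have hau : IsUnit a := by
    have := h 1 0 (Or.inl isUnit_one)
    simpa using this
  have hra : residue (O k M) a ≠ 0 := (residue_ne_zero_iff_isUnit _).mpr hau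
  have hra' : residue (O k L) a' ≠ 0 := by
    rw [ha]
    exact (_root_.map_ne_zero _).mpr hra
  have hau' : IsUnit a' := (residue_ne_zero_iff_isUnit _).mp hra'
  obtain ⟨u, hu⟩ := hau
  obtain ⟨u', hu'⟩ := hau'
  -- normalized polynomials
  let g0 : (O k M)[X] := X ^ 3 + C ((↑u⁻¹ : O k M) * b) * X ^ 2 + C ((↑u⁻¹ : O k M) * c) * X +
    C ((↑u⁻¹ : O k M) * d)
  let H : (O k L)[X] := X ^ 3 + C ((↑u'⁻¹ : O k L) * b') * X ^ 2 + C ((↑u'⁻¹ : O k L) * c') * X +
    C ((↑u'⁻¹ : O k L) * d')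
  have hH : H.Monic := by
    simp only [H]
    monicity!
  have hg0 : g0.Monic := by
    simp only [g0]
    monicity!
  have hdeg : g0.natDegree = 3 := by
    simp only [g0]
    compute_degree!
  have hui : rMap k M L (residue (O k M) (↑u⁻¹ : O k M)) = residue (O k L) (↑u'⁻¹ : O k L) := by
    have h1 : residue (O k M) (↑u⁻¹ : O k M) * residue (O k M) a = 1 := by
      rw [← hu, ← map_mul, Units.inv_mul, map_one]
    have h2 : residue (O k L) (↑u'⁻¹ : O k L) * residue (O k L) a' = 1 := by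
      rw [← hu', ← map_mul, Units.inv_mul, map_one]
    have h3 := congrArg (rMap k M L) h1
    rw [map_mul, map_one, ← ha] at h3
    exact mul_right_cancel₀ hra' (h3.trans h2.symm)
  have hgd : (g0.map (residue (O k M))).natDegree = 3 := by
    rw [hg0.natDegree_map, hdeg]
  have hirr : Irreducible (g0.map (residue (O k M))) := by
    refine (Polynomial.irreducible_iff_roots_eq_zero_of_degree_le_three (by omega)
      (by omega)).mpr ?_
    rw [Multiset.eq_zero_iff_forall_notMem]
    intro x hx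
    have hx2 := (mem_roots'.mp hx).2
    obtain ⟨x₀, rfl⟩ := residue_surjective x
    have h1 : residue (O k M) (a * x₀ ^ 3 + b * x₀ ^ 2 * 1 + c * x₀ * 1 ^ 2 + d * 1 ^ 3) = 0 := by
      have h2 : a * x₀ ^ 3 + b * x₀ ^ 2 * 1 + c * x₀ * 1 ^ 2 + d * 1 ^ 3 = a * g0.eval x₀ := by
        have h3 : a * (↑u⁻¹ : O k M) = 1 := by rw [← hu, Units.mul_inv]
        simp only [g0, eval_add, eval_mul, eval_pow, eval_X, eval_C]
        linear_combination (-b * x₀ ^ 2 - c * x₀ - d) * h3
      rw [h2, map_mul]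
      have h4 : residue (O k M) (g0.eval x₀) = 0 := by
        have h5 : residue (O k M) (g0.eval x₀) =
            (g0.map (residue (O k M))).eval (residue (O k M) x₀) := by
          rw [eval_map, eval₂_hom]
        rw [h5]
        exact hx2
      rw [h4, mul_zero]
    exact (residue_ne_zero_iff_isUnit _).mpr (h x₀ 1 (Or.inr isUnit_one)) h1
  obtain ⟨θ, hθ⟩ := hens hL (g0.map (residue (O k M))) hirr (by rw [hgd]) H hH (by
    simp only [H, g0, Polynomial.map_add, Polynomial.map_mul, Polynomial.map_pow, map_X, map_C,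
      map_mul, hb, hc, hd, hui])
  refine ⟨θ, ?_⟩
  have h3 : a' * (↑u'⁻¹ : O k L) = 1 := by rw [← hu', Units.mul_inv]
  simp only [H, eval_add, eval_mul, eval_pow, eval_X, eval_C] at hθ
  linear_combination a' * hθ + (-b' * θ ^ 2 - c' * θ - d') * h3

/-! ### Valuations -/

omit [CharZero k] in
private theorem lead {π : O k M} (m : ℤ) {x : L} {z : M} (a : O k M)
    (hz : z = algebraMap (O k M) M π ^ m * algebraMap (O k M) M a)
    (hϖ : Irreducible (oMap k M L π))
    (hx : Vg (oMap k M L π) (m + 1) (x - algebraMap M L z)) :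
    ∃ a' : O k L, x = algebraMap (O k L) L (oMap k M L π) ^ m * algebraMap (O k L) L a' ∧
      residue (O k L) a' = rMap k M L (residue (O k M) a) := by
  obtain ⟨r, hr⟩ := hx
  refine ⟨oMap k M L a + oMap k M L π * r, ?_, ?_⟩
  · have h1 : algebraMap M L z = algebraMap (O k L) L (oMap k M L π) ^ m *
        algebraMap (O k L) L (oMap k M L a) := by
      rw [hz, map_mul, map_zpow₀]
      rfl
    rw [h1, zpow_add₀ (pi_ne hϖ), zpow_one] at hr
    rw [map_add, map_mul]
    linear_combination hr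
  · rw [map_add, map_mul]
    have h1 : residue (O k L) (oMap k M L π) = 0 := by
      rw [residue_eq_zero_iff]
      exact hϖ.not_isUnit
    rw [h1, zero_mul, add_zero]
    rfl

variable {W : Submodule M (Fin n → M)} {π : O k M}

omit [CharZero k] in
private theorem vg_up {d : ℕ} (hL : Unr k M L d) (hπ : Irreducible π) {i : ℤ} {x : M}
    (h : Vg π i x) : Vg (oMap k M L π) i (algebraMap M L x) := (hL.vg hπ i x).mpr h

omit [CharZero k] in
private theorem rem_f (hL : Unr k M L 3) (hW : An (ex T M) W) (hπ : Irreducible π)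
    {m m' N : ℤ} {x w : Fin n → M} (hx : x ∈ W) (hw : w ∈ W) (h0 : Vg π m ((ex T M).f x))
    (hwm : Vg π m' ((ex T M).f w)) {γ : L} (hγ : Vg (oMap k M L π) N γ) (hN : m < m' + 3 * N) :
    Vg (oMap k M L π) (m + 1) ((ex T L).f (up L x + γ • up L w) -
      algebraMap M L ((ex T M).f x)) := by
  have hϖ := hL.unif π hπ
  have h1 := vg_up (L := L) hL hπ
    (hW.D_le hπ hx hw h0 hwm (k := (2 * m + m' + 2) / 3) (by omega))
  have h2 := vg_up (L := L) hL hπ
    (hW.D_le hπ hw hx hwm h0 (k := (2 * m' + m + 2) / 3) (by omega))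
  have h3 := vg_up (L := L) hL hπ hwm
  have e : (ex T L).f (up L x + γ • up L w) - algebraMap M L ((ex T M).f x) =
      γ * algebraMap M L ((ex T M).D x w) + γ * γ * algebraMap M L ((ex T M).D w x) +
        γ * γ * γ * algebraMap M L ((ex T M).f w) := by
    rw [(ex T L).f_add, (ex T L).D_smul, (ex T L).smul_D, (ex T L).f_smul, ex_f, ex_f, ex_D, ex_D]
    ring
  rw [e]
  refine Vg.add (Vg.add ?_ ?_) ?_
  · exact (hγ.mul hϖ h1).mono hϖ (by omega)
  · exact ((hγ.mul hϖ hγ).mul hϖ h2).mono hϖ (by omega)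
  · exact (((hγ.mul hϖ hγ).mul hϖ hγ).mul hϖ h3).mono hϖ (by omega)

omit [CharZero k] in
private theorem rem_D (hL : Unr k M L 3) (hW : An (ex T M) W) (hπ : Irreducible π)
    {m m' N : ℤ} {x y w : Fin n → M} (hx : x ∈ W) (hy : y ∈ W) (hw : w ∈ W)
    (h0 : Vg π m ((ex T M).f x)) (h1 : Vg π m ((ex T M).f y))
    (hwm : Vg π m' ((ex T M).f w)) {γ δ : L} (hγ : Vg (oMap k M L π) N γ)
    (hδ : Vg (oMap k M L π) N δ) (hN : m < m' + 3 * N) :
    Vg (oMap k M L π) (m + 1) ((ex T L).D (up L x + γ • up L w) (up L y + δ • up L w) -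
      algebraMap M L ((ex T M).D x y)) := by
  have hϖ := hL.unif π hπ
  have h2 := vg_up (L := L) hL hπ
    (hW.D_le hπ hx hw h0 hwm (k := (2 * m + m' + 2) / 3) (by omega))
  have h3 := vg_up (L := L) hL hπ
    (hW.D_le hπ hw hx hwm h0 (k := (2 * m' + m + 2) / 3) (by omega))
  have h4 := vg_up (L := L) hL hπ
    (hW.D_le hπ hw hy hwm h1 (k := (2 * m' + m + 2) / 3) (by omega))
  have h5 := vg_up (L := L) hL hπ
    (hW.E_le hπ hx hw hy h0 hwm h1 (k := (m + m' + m + 2) / 3) (by omega))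
  have h6 := vg_up (L := L) hL hπ hwm
  have h7 : Vg (oMap k M L π) 0 (2 : L) := ⟨2, by rw [zpow_zero, one_mul, map_ofNat]⟩
  have h8 : Vg (oMap k M L π) 0 (3 : L) := ⟨3, by rw [zpow_zero, one_mul, map_ofNat]⟩
  have e : (ex T L).D (up L x + γ • up L w) (up L y + δ • up L w) -
      algebraMap M L ((ex T M).D x y) =
      δ * algebraMap M L ((ex T M).D x w) + γ * algebraMap M L ((ex T M).E x w y) +
        2 * (γ * δ * algebraMap M L ((ex T M).D w x)) +
        γ * γ * algebraMap M L ((ex T M).D w y) +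
        3 * (γ * γ * δ * algebraMap M L ((ex T M).f w)) := by
    have e1 : (ex T L).E (up L x) (up L w) (up L w) = 2 * algebraMap M L ((ex T M).D w x) := by
      rw [(ex T L).E_comm, (ex T L).E_comm', (ex T L).E_self, ex_D]
    rw [(ex T L).add_D, (ex T L).D_add, (ex T L).D_add, (ex T L).D_smul, (ex T L).D_smul,
      (ex T L).smul_D, (ex T L).smul_D, (ex T L).E_smul2, (ex T L).E_add, (ex T L).E_smul, e1,
      (ex T L).D_self, ex_D, ex_D, ex_E, ex_D, ex_f]
    ring
  rw [e]
  refine Vg.add (Vg.add (Vg.add (Vg.add ?_ ?_) ?_) ?_) ?_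
  · exact (hδ.mul hϖ h2).mono hϖ (by omega)
  · exact (hγ.mul hϖ h5).mono hϖ (by omega)
  · exact (h7.mul hϖ ((hγ.mul hϖ hδ).mul hϖ h3)).mono hϖ (by omega)
  · exact ((hγ.mul hϖ hγ).mul hϖ h4).mono hϖ (by omega)
  · exact (h8.mul hϖ (((hγ.mul hϖ hγ).mul hϖ hδ).mul hϖ h6)).mono hϖ (by omega)

/-! ### The main lemma -/

omit [CharZero k] in
private theorem kmain (hL : Unr k M L 3) (hW : An (ex T M) W) (hπ : Irreducible π)
    {m m' N : ℤ} {e : Fin 2 → Fin n → M} (he : ∀ i, e i ∈ W) (hs : Sys (ex T M) π m e)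
    {w : Fin n → M} (hw : w ∈ W) (hwm : Vg π m' ((ex T M).f w)) {γ : Fin 2 → L}
    (hγ : ∀ i, Vg (oMap k M L π) N (γ i)) (hN : m < m' + 3 * N) :
    ∃ θ : L, (ex T L).f (θ • (up L (e 0) + γ 0 • up L w) + (up L (e 1) + γ 1 • up L w)) = 0 := by
  have hϖ := hL.unif π hπ
  have hsum : ∀ x : Fin 2 → O k M, ∑ i, algebraMap (O k M) M (x i) • e i =
      algebraMap (O k M) M (x 0) • e 0 + algebraMap (O k M) M (x 1) • e 1 := fun x =>
    Fin.sum_univ_two _
  have ha : Vg π m ((ex T M).f (e 0)) := by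
    have h1 := (hs ![1, 0] ⟨0, isUnit_one⟩).1
    rw [hsum] at h1
    simpa using h1
  have hd : Vg π m ((ex T M).f (e 1)) := by
    have h1 := (hs ![0, 1] ⟨1, isUnit_one⟩).1
    rw [hsum] at h1
    simpa using h1
  have hb := hW.D_le hπ (he 0) (he 1) ha hd (k := m) (by omega)
  have hc := hW.D_le hπ (he 1) (he 0) hd ha (k := m) (by omega)
  obtain ⟨a, hae⟩ := ha
  obtain ⟨b, hbe⟩ := hb
  obtain ⟨c, hce⟩ := hc
  obtain ⟨d, hde⟩ := hd
  have hunit : ∀ x y : O k M, IsUnit x ∨ IsUnit y →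
      IsUnit (a * x ^ 3 + b * x ^ 2 * y + c * x * y ^ 2 + d * y ^ 3) := by
    intro x y hxy
    by_contra hcon
    have h1 : a * x ^ 3 + b * x ^ 2 * y + c * x * y ^ 2 + d * y ^ 3 ∈ maximalIdeal (O k M) :=
      hcon
    rw [hπ.maximalIdeal_eq, Ideal.mem_span_singleton'] at h1
    obtain ⟨r, hr⟩ := h1
    refine (hs ![x, y] ?_).2 ⟨r, ?_⟩
    · rcases hxy with h | h
      · exact ⟨0, h⟩
      · exact ⟨1, h⟩
    · rw [hsum]
      have h2 := congrArg (algebraMap (O k M) M) hr
      simp only [map_mul, map_add, map_pow] at h2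
      simp only [Matrix.cons_val_zero, Matrix.cons_val_one]
      rw [Cb.f_lin, hae, hbe, hce, hde, zpow_add₀ (pi_ne hπ), zpow_one]
      linear_combination (-(algebraMap (O k M) M π ^ m)) * h2
  obtain ⟨a', ha', ra⟩ := lead m a hae hϖ
    (rem_f hL hW hπ (he 0) hw ⟨a, hae⟩ hwm (hγ 0) hN)
  obtain ⟨d', hd', rd⟩ := lead m d hde hϖ
    (rem_f hL hW hπ (he 1) hw ⟨d, hde⟩ hwm (hγ 1) hN)
  obtain ⟨b', hb', rb⟩ := lead m b hbe hϖ
    (rem_D hL hW hπ (he 0) (he 1) hw ⟨a, hae⟩ ⟨d, hde⟩ hwm (hγ 0) (hγ 1) hN)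
  obtain ⟨c', hc', rc⟩ := lead m c hce hϖ
    (rem_D hL hW hπ (he 1) (he 0) hw ⟨d, hde⟩ ⟨a, hae⟩ hwm (hγ 1) (hγ 0) hN)
  obtain ⟨θ, hθ⟩ := hens3 hL a b c d hunit a' b' c' d' ra rb rc rd
  refine ⟨(θ : L), ?_⟩
  have h2 := congrArg (algebraMap (O k L) L) hθ
  simp only [map_mul, map_add, map_pow, map_zero] at h2
  have h3 := (ex T L).f_lin (θ : L) 1 (up L (e 0) + γ 0 • up L w) (up L (e 1) + γ 1 • up L w)
  rw [one_smul] at h3
  rw [h3, ha', hb', hc', hd']
  have h4 : algebraMap (O k L) L θ = (θ : L) := rfl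
  rw [h4] at h2
  linear_combination (algebraMap (O k L) L (oMap k M L π) ^ m) * h2

omit [CharZero k] in
private theorem exists_unif : ∃ π : O k M, Irreducible π :=
  IsDiscreteValuationRing.exists_irreducible (O k M)

/-- Anisotropic forms have a line `⟨e, e'⟩` on which there is a zero over every unramified cubic
extension (two vectors of the same class, `exists_basis`; the reduction of
`π ^ (-m) f(x e + y e')` is an irreducible binary cubic form; `Unr.root`, Hensel). -/
theorem kline (W : Submodule M (Fin n → M)) (hW : An (ex T M) W)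
    (h4 : 4 ≤ Module.finrank M W) :
    ∃ e e' : Fin n → M, e ∈ W ∧ e' ∈ W ∧ LinearIndependent M ![e, e'] ∧
      ∀ (L : Type u) [Field L] [Algebra k L] [Algebra M L] [IsScalarTower k M L]
        [FiniteDimensional k L], Unr k M L 3 →
        ∃ θ : L, (ex T L).f (θ • up L e + up L e') = 0 := by
  obtain ⟨π, hπ⟩ := exists_unif (k := k) (M := M)
  obtain ⟨d, e, he, hsum, hind, hsys⟩ := exists_basis hW hπ
  obtain ⟨m, hm⟩ : ∃ m : Fin 3, 2 ≤ d m := by
    by_contra hcon
    push Not at hcon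
    rw [Fin.sum_univ_three] at hsum
    have h0 := hcon 0
    have h1 := hcon 1
    have h2 := hcon 2
    omega
  let j : Fin 2 → Fin (d m) := fun i => ⟨(i : ℕ), by omega⟩
  have hj : Function.Injective j := by
    intro a b hab
    have := congrArg Fin.val hab
    exact Fin.ext this
  have hs2 : Sys (ex T M) π ((m : ℕ) : ℤ) (fun i => e m (j i)) := by
    intro x hx
    let y : Fin (d m) → O k M := fun t => if h : (t : ℕ) < 2 then x ⟨t, h⟩ else 0
    have hyj : ∀ i, y (j i) = x i := by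
      intro i
      have h1 : ((j i : Fin (d m)) : ℕ) < 2 := i.2
      simp only [y, dif_pos h1]
      rfl
    have h1 := hsys m y (by
      obtain ⟨i, hi⟩ := hx
      exact ⟨j i, by rw [hyj]; exact hi⟩)
    have h2 : ∑ t, algebraMap (O k M) M (y t) • e m t =
        ∑ i, algebraMap (O k M) M (x i) • e m (j i) := by
      symm
      have h3 : ∑ i, algebraMap (O k M) M (x i) • e m (j i) =
          ∑ i, algebraMap (O k M) M (y (j i)) • e m (j i) :=
        Finset.sum_congr rfl fun i _ => by rw [hyj]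
      rw [h3]
      have h4 : ∑ i, algebraMap (O k M) M (y (j i)) • e m (j i) =
          ∑ t ∈ Finset.univ.map ⟨j, hj⟩, algebraMap (O k M) M (y t) • e m t := by
        rw [Finset.sum_map]
        rfl
      rw [h4]
      refine Finset.sum_subset (Finset.subset_univ _) fun t _ ht => ?_
      have h5 : ¬ (t : ℕ) < 2 := by
        intro h
        exact ht (Finset.mem_map.mpr ⟨⟨t, h⟩, Finset.mem_univ _, rfl⟩)
      simp only [y, dif_neg h5, map_zero, zero_smul]
    rw [h2] at h1
    exact h1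
  refine ⟨e m (j 0), e m (j 1), he _ _, he _ _, ?_, ?_⟩
  · have h1 : LinearIndependent M (fun i => e m (j i)) := by
      have h2 : Function.Injective (fun i : Fin 2 => (⟨m, j i⟩ : Σ m, Fin (d m))) := by
        intro a b hab
        apply hj
        simpa using hab
      exact hind.comp _ h2
    convert h1 using 1
    funext i
    fin_cases i <;> rfl
  · intro L _ _ _ _ _ hL
    obtain ⟨θ, hθ⟩ := kmain (m' := ((m : ℕ) : ℤ)) (N := 1) (γ := fun _ => 0) hL hW hπ
      (fun i => he m (j i)) hs2 W.zero_mem (by rw [Cb.f_zero]; exact Vg.zero _)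
      (fun _ => Vg.zero _) (by omega)
    refine ⟨θ, ?_⟩
    simpa using hθ

omit [CharZero k] in
private theorem minval (hL : Unr k M L 3) (hπ : Irreducible π) (x : Fin 2 → L) :
    (∀ i, x i = 0) ∨ ∃ (j : Fin 2) (N : ℤ) (u : O k L), IsUnit u ∧
      x j = algebraMap (O k L) L (oMap k M L π) ^ N * algebraMap (O k L) L u ∧
      ∀ i, Vg (oMap k M L π) N (x i) := by
  have hϖ := hL.unif π hπ
  by_cases h0 : x 0 = 0
  · by_cases h1 : x 1 = 0
    · left
      intro i
      fin_cases i
      · exact h0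
      · exact h1
    · obtain ⟨N, u, hu, he⟩ := exists_ord hϖ h1
      refine Or.inr ⟨1, N, u, hu, he, fun i => ?_⟩
      fin_cases i
      · change Vg _ _ (x 0)
        rw [h0]
        exact Vg.zero _
      · exact ⟨u, he⟩
  · obtain ⟨N, u, hu, he⟩ := exists_ord hϖ h0
    by_cases h1 : x 1 = 0
    · refine Or.inr ⟨0, N, u, hu, he, fun i => ?_⟩
      fin_cases i
      · exact ⟨u, he⟩
      · change Vg _ _ (x 1)
        rw [h1]
        exact Vg.zero _
    · obtain ⟨N', u', hu', he'⟩ := exists_ord hϖ h1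
      rcases le_total N N' with h | h
      · refine Or.inr ⟨0, N, u, hu, he, fun i => ?_⟩
        fin_cases i
        · exact ⟨u, he⟩
        · exact Vg.mono hϖ ⟨u', he'⟩ h
      · refine Or.inr ⟨1, N', u', hu', he', fun i => ?_⟩
        fin_cases i
        · exact Vg.mono hϖ ⟨u, he⟩ h
        · exact ⟨u', he'⟩

omit [CharZero k] in
private theorem khalf (hL : Unr k M L 3) (hW : An (ex T M) W) (hπ : Irreducible π)
    {m m' N : ℤ} {e : Fin 2 → Fin n → M} (he : ∀ i, e i ∈ W) (hs : Sys (ex T M) π m e)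
    {w : Fin n → M} (hw : w ∈ W) (hwm : Vg π m' ((ex T M).f w)) {γ : Fin 2 → L}
    (hγ : ∀ i, Vg (oMap k M L π) N (γ i)) (hN : m < m' + 3 * N)
    (l : (Fin n → L) →ₗ[L] L) (hl : ∀ i, l (up L (e i) + γ i • up L w) = 0)
    (hne : ∀ θ a : L, θ • up L (e 0) + up L (e 1) + a • up L w ≠ 0) :
    ∃ S ∈ Submodule.span L (up L '' (W : Set (Fin n → M))), S ≠ 0 ∧ l S = 0 ∧
      (ex T L).f S = 0 := by
  obtain ⟨θ, hθ⟩ := kmain hL hW hπ he hs hw hwm hγ hN
  have hmem : ∀ x ∈ W, up L x ∈ Submodule.span L (up L '' (W : Set (Fin n → M))) := fun x hx =>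
    Submodule.subset_span ⟨x, hx, rfl⟩
  refine ⟨_, ?_, ?_, ?_, hθ⟩
  · refine add_mem (Submodule.smul_mem _ _ (add_mem (hmem _ (he 0))
      (Submodule.smul_mem _ _ (hmem _ hw)))) (add_mem (hmem _ (he 1))
      (Submodule.smul_mem _ _ (hmem _ hw)))
  · have h1 := hne θ (θ * γ 0 + γ 1)
    intro h2
    apply h1
    rw [← h2]
    module
  · rw [map_add, map_smul, hl, hl, smul_zero, add_zero]

/-- For every linear form `l` over the unramified cubic extension there is a zero `S` of `f` and `l`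
in the span of `W`.
Proof: `e₁`, `e₂` as in `exists_two`, `U_i` the spans over `L`. If `l` is `0` on `U₂` or on `U₁` use
the zero of the reduction. Otherwise `min_j v(l(e_i j)) - m_i / 3`, `i = 1, 2`, are different (orders
over `L` are integers since `π` stays a uniformizer). Let it be smaller for `i = 1`, attained at
`e = e₁ j`. For `u ∈ U₂` put `γ(u) = -l(u) / l(e)`, then `3 v(γ(u)) > m₂ - m₁` for `u` with
coordinates in `O`, so `f(u + γ(u) e) ≡ f(u)` modulo `π ^ (m₂ + 1)` (coefficients!), and the binary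
cubic form `π ^ (-m₂) f(u + γ(u) e)` has an irreducible reduction over the residue field of `M`, hence
a simple zero over the residue field of `L`; Hensel. -/
theorem kpts (hL : Unr k M L 3) (W : Submodule M (Fin n → M)) (hW : An (ex T M) W)
    (h6 : 6 ≤ Module.finrank M W) (l : (Fin n → L) →ₗ[L] L) :
    ∃ S ∈ Submodule.span L (up L '' (W : Set (Fin n → M))), S ≠ 0 ∧ l S = 0 ∧
      (ex T L).f S = 0 := by
  obtain ⟨π, hπ⟩ := exists_unif (k := k) (M := M)
  have hϖ := hL.unif π hπ
  obtain ⟨m₁, m₂, e₁, e₂, hm, he₁, he₂, hs₁, hs₂, hind⟩ := exists_two hW hπ h6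
  have hind' := up_indep (L := L) hind
  have hne : ∀ (a : Fin 2 → L) (b : Fin 2 → L), (∑ i, a i • up L (e₁ i)) +
      (∑ i, b i • up L (e₂ i)) = 0 → (∀ i, a i = 0) ∧ ∀ i, b i = 0 := by
    intro a b hab
    have h1 := (Fintype.linearIndependent_iff.mp hind') (Sum.elim a b) (by
      rw [Fintype.sum_sum_type]
      exact hab)
    exact ⟨fun i => h1 (Sum.inl i), fun i => h1 (Sum.inr i)⟩
  have hne₁ : ∀ (j : Fin 2) (θ a : L),
      θ • up L (e₁ 0) + up L (e₁ 1) + a • up L (e₂ j) ≠ 0 := by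
    intro j θ a h
    have h1 := hne ![θ, 1] (fun i => if i = j then a else 0) (by
      rw [← h, Fin.sum_univ_two]
      simp only [Matrix.cons_val_zero, Matrix.cons_val_one, one_smul, ite_smul, zero_smul,
        Finset.sum_ite_eq', Finset.mem_univ, if_true])
    exact one_ne_zero (h1.1 1)
  have hne₂ : ∀ (j : Fin 2) (θ a : L),
      θ • up L (e₂ 0) + up L (e₂ 1) + a • up L (e₁ j) ≠ 0 := by
    intro j θ a h
    have h1 := hne (fun i => if i = j then a else 0) ![θ, 1] (by
      rw [← h, Fin.sum_univ_two (fun i => (![θ, 1] : Fin 2 → L) i • up L (e₂ i))]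
      simp only [Matrix.cons_val_zero, Matrix.cons_val_one, one_smul, ite_smul, zero_smul,
        Finset.sum_ite_eq', Finset.mem_univ, if_true]
      rw [add_comm])
    exact one_ne_zero (h1.2 1)
  -- the trivial cases
  have htriv : ∀ (m : ℤ) (e e' : Fin 2 → Fin n → M), (∀ i, e i ∈ W) → Sys (ex T M) π m e →
      (∀ i, l (up L (e i)) = 0) → (∀ (j : Fin 2) (θ a : L),
        θ • up L (e 0) + up L (e 1) + a • up L (e' j) ≠ 0) →
      ∃ S ∈ Submodule.span L (up L '' (W : Set (Fin n → M))), S ≠ 0 ∧ l S = 0 ∧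
        (ex T L).f S = 0 := by
    intro m e e' he hs h0 h1
    refine khalf (m' := m) (N := 1) (γ := fun _ => 0) hL hW hπ he hs W.zero_mem
      (by rw [Cb.f_zero]; exact Vg.zero _) (fun _ => Vg.zero _) (by omega) l
      (fun i => by rw [zero_smul, add_zero]; exact h0 i) fun θ a h2 => h1 0 θ 0 ?_
    rw [← h2]
    have h3 : up L (0 : Fin n → M) = 0 := by
      funext i
      simp [up]
    rw [h3, smul_zero, zero_smul]
  -- the general case
  have hgen : ∀ (m m' N N' : ℤ) (e e' : Fin 2 → Fin n → M) (j : Fin 2) (u : O k L),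
      (∀ i, e i ∈ W) → (∀ i, e' i ∈ W) → Sys (ex T M) π m e → Sys (ex T M) π m' e' →
      IsUnit u → l (up L (e' j)) = algebraMap (O k L) L (oMap k M L π) ^ N' *
        algebraMap (O k L) L u → (∀ i, Vg (oMap k M L π) N (l (up L (e i)))) →
      3 * N' - m' < 3 * N - m → (∀ (θ a : L),
        θ • up L (e 0) + up L (e 1) + a • up L (e' j) ≠ 0) →
      ∃ S ∈ Submodule.span L (up L '' (W : Set (Fin n → M))), S ≠ 0 ∧ l S = 0 ∧
        (ex T L).f S = 0 := by
    intro m m' N N' e e' j u he he' hs hs' hu hlj hle hN h1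
    have hfj : Vg π m' ((ex T M).f (e' j)) := by
      have h2 := (hs' (fun i => if i = j then 1 else 0) ⟨j, by rw [if_pos rfl]; exact isUnit_one⟩).1
      have h3 : ∑ i, algebraMap (O k M) M (if i = j then 1 else 0) • e' i = e' j := by
        have h4 : ∀ i, algebraMap (O k M) M (if i = j then 1 else 0) • e' i =
            if i = j then e' i else 0 := by
          intro i
          split_ifs
          · rw [map_one, one_smul]
          · rw [map_zero, zero_smul]
        rw [Finset.sum_congr rfl fun i _ => h4 i, Finset.sum_ite_eq', if_pos (Finset.mem_univ _)]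
      rw [h3] at h2
      exact h2
    obtain ⟨v, rfl⟩ := hu
    have hP := pi_ne (K := L) hϖ
    have hv : algebraMap (O k L) L (↑v⁻¹ : O k L) * algebraMap (O k L) L (v : O k L) = 1 := by
      rw [← map_mul, Units.inv_mul, map_one]
    have hv0 : algebraMap (O k L) L (v : O k L) ≠ 0 := by
      intro h
      rw [h, mul_zero] at hv
      exact zero_ne_one hv
    have hlj0 : l (up L (e' j)) ≠ 0 := by
      rw [hlj]
      exact mul_ne_zero (zpow_ne_zero _ hP) hv0
    have hinv : Vg (oMap k M L π) (-N') ((l (up L (e' j)))⁻¹) := by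
      refine ⟨(↑v⁻¹ : O k L), ?_⟩
      rw [hlj, mul_inv, ← zpow_neg]
      congr 1
      exact (eq_inv_of_mul_eq_one_left hv).symm
    refine khalf (m' := m') (N := N + -N') (γ := fun i => -(l (up L (e i)) * (l (up L (e' j)))⁻¹))
      hL hW hπ he hs (he' j) hfj (fun i => ((hle i).mul hϖ hinv).neg) (by omega) l
      (fun i => ?_) h1
    rw [map_add, map_smul, smul_eq_mul]
    field_simp
    ring
  rcases minval hL hπ (fun i => l (up L (e₁ i))) with h1 | ⟨j₁, N₁, u₁, hu₁, hl₁, hv₁⟩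
  · exact htriv _ e₁ e₂ he₁ hs₁ h1 hne₁
  rcases minval hL hπ (fun i => l (up L (e₂ i))) with h2 | ⟨j₂, N₂, u₂, hu₂, hl₂, hv₂⟩
  · exact htriv _ e₂ e₁ he₂ hs₂ h2 hne₂
  have hm' : (m₁ : ℕ) ≠ (m₂ : ℕ) := fun h => hm (Fin.ext h)
  have hlt₁ := m₁.2
  have hlt₂ := m₂.2
  rcases lt_or_ge (3 * N₁ - ((m₁ : ℕ) : ℤ)) (3 * N₂ - ((m₂ : ℕ) : ℤ)) with h | h
  · exact hgen _ _ N₂ N₁ e₂ e₁ j₁ u₁ he₂ he₁ hs₂ hs₁ hu₁ hl₁ hv₂ h (hne₂ j₁)
  · exact hgen _ _ N₁ N₂ e₁ e₂ j₂ u₂ he₁ he₂ hs₁ hs₂ hu₂ hl₂ hv₁ (by omega) (hne₁ j₂)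

end Cu
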