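import Pool.Agent.Lib.MP_f80667_ag.Cu.MainC

/-! All points over a finite extension are equivalent. -/

open Polynomial IsLocalRing Pool.Agent.Lib.MP_f80667_ag.LF Finset

namespace Cu

universe u

variable {k : Type u} [NontriviallyNormedField k] [IsUltrametricDist k] [ProperSpace k]
  [CharZero k] {n : ℕ} {T : Tn k n} {G : Type u} [AddCommGroup G] {C : Th k T G}
  {M : Type u} [Field M] [Algebra k M] [FiniteDimensional k M] {κ : M} {P Q : Fin n → M}

/-- Contradiction if the residue field has at least `16` elements. -/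
theorem NP.false16 (hsm : Sm T) (h8 : 8 ≤ n) (h : NP C M κ P Q)
    (h16 : 16 ≤ Nat.card (ResidueField (O k M))) : False := by
  obtain ⟨π, hπ⟩ := IsDiscreteValuationRing.exists_irreducible (O k M)
  have hW := h.an hsm h8
  have h5 : 5 ≤ Module.finrank M (WR (ex T M) P Q) := by
    have := finrank_WR (ex T M) P Q
    omega
  obtain ⟨m₁, m₂, e, e', hm, he, he', hs, hs'⟩ := exists_five hW hπ h5 (by
    intro w hw hw0 i hi
    by_contra hcon
    exact (h.claim hsm h8 hw hπ hi hcon).1 ⟨i, rfl⟩)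
  have hb1 : ∀ i j, Vg π 1 (((ex T M).scale κ⁻¹).E (e i) (e' j) P) ∧
      Vg π 1 (((ex T M).scale κ⁻¹).E (e i) (e' j) Q) := by
    intro i j
    refine h.bdE hsm h8 hπ (Or.inl rfl) (he i) (he' j) ?_ ?_
    · exact (hs.vg i).1.mono hπ (by omega)
    · exact (hs'.vg j).1.mono hπ (by omega)
  choose p hp using fun i j => (hb1 i j).1.one'
  choose q hq using fun i j => (hb1 i j).2.one'
  by_cases h3 : (3 : ResidueField (O k M)) = 0
  · by_cases hz : ∀ i j, residue (O k M) (p i j) = 0 ∧ residue (O k M) (q i j) = 0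
    · refine h.caseB hsm h8 hπ h3 hm e he hs e' he' hs' ?_
      have key : ∀ a : O k M, residue (O k M) a = 0 →
          Vg π 2 (algebraMap (O k M) M (π * a)) := by
        intro a ha
        rw [residue_eq_zero_iff, hπ.maximalIdeal_eq, Ideal.mem_span_singleton] at ha
        obtain ⟨b, rfl⟩ := ha
        exact vg_two (a := b) (by rw [← mul_assoc, pow_two])
      intro i j
      rw [hp, hq]
      exact ⟨key _ (hz i j).1, key _ (hz i j).2⟩
    · push Not at hz
      obtain ⟨i, j, hij⟩ := hz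
      refine h.caseA hsm h8 h16 hπ hm e he hs (e' j) (he' j) (hs'.vg j).1 (hs'.vg j).2
        (fun i => p i j) (fun i => q i j) (fun i => hp i j) (fun i => hq i j) ?_
      by_cases hpz : residue (O k M) (p i j) = 0
      · exact Or.inr (Or.inr ⟨i, hij hpz⟩)
      · exact Or.inr (Or.inl ⟨i, hpz⟩)
  · exact h.caseA hsm h8 h16 hπ hm e he hs (e' 0) (he' 0) (hs'.vg 0).1 (hs'.vg 0).2
      (fun i => p i 0) (fun i => q i 0) (fun i => hp i 0) (fun i => hq i 0) (Or.inl h3)

/-- All points over `M` are equivalent. -/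
theorem main (hsm : Sm T) (h8 : 8 ≤ n) (P Q : Fin n → M) (hP : P ≠ 0) (hQ : Q ≠ 0)
    (fP : (ex T M).f P = 0) (fQ : (ex T M).f Q = 0) : C.cl M P = C.cl M Q := by
  by_contra hne
  obtain ⟨a, κ, ha, h⟩ := exists_np (C := C) hsm (by omega) (hiso_k k) hP hQ fP fQ hne
  obtain ⟨L, _, _, _, _, _, hL⟩ := exists_unr k M 4 (by norm_num)
  have hup : NP C L (algebraMap M L κ) (up L (a • P)) (up L Q) :=
    h.up hsm h8 (by rw [hL.deg]; norm_num)
  refine hup.false16 hsm h8 ?_
  rw [hL.card]
  have h2 : 1 < Nat.card (ResidueField (O k M)) := Finite.one_lt_card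
  calc 16 = 2 ^ 4 := by norm_num
    _ ≤ _ := Nat.pow_le_pow_left h2 4

end Cu
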