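import Pool.Agent.Lib.MP_f80667_ag.Cu.Norm
import Pool.Agent.Lib.MP_f80667_ag.Cu.Lin

/-! Twisted cubics through two points. -/

open IsLocalRing Finset

namespace Cu

section hens

variable {R τ : Type*} [CommRing R] [Fintype τ]

/-- The derivative of a polynomial at `a` in the direction `v`. -/
noncomputable def dv (a v : τ → R) (p : MvPolynomial τ R) : R :=
  ∑ k, MvPolynomial.eval a (MvPolynomial.pderiv k p) * v k

theorem dv_add (a v : τ → R) (p q : MvPolynomial τ R) : dv a v (p + q) = dv a v p + dv a v q := by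
  simp only [dv, map_add, add_mul, sum_add_distrib]

theorem dv_mul (a v : τ → R) (p q : MvPolynomial τ R) :
    dv a v (p * q) = MvPolynomial.eval a p * dv a v q + MvPolynomial.eval a q * dv a v p := by
  simp only [dv, mul_sum, ← sum_add_distrib]
  refine sum_congr rfl fun k _ => ?_
  rw [Derivation.leibniz]
  simp only [smul_eq_mul, map_add, map_mul]
  ring

theorem dv_C (a v : τ → R) (r : R) : dv a v (MvPolynomial.C r) = 0 := by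
  simp [dv]

theorem dv_X (a v : τ → R) (i : τ) : dv a v (MvPolynomial.X i) = v i := by
  classical
  simp only [dv, MvPolynomial.pderiv_X]
  rw [Finset.sum_eq_single i]
  · simp
  · intro b _ hb
    simp [hb.symm]
  · intro h
    exact absurd (mem_univ i) h

end hens

/-- Hensel's lemma with as many unknowns as equations. -/
theorem hensel_sq {O : Type*} [CommRing O] [IsLocalRing O] [IsAdicComplete (maximalIdeal O) O]
    {n : ℕ} (g : Fin n → MvPolynomial (Fin n) O) (a : Fin n → O)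
    (h0 : ∀ i, MvPolynomial.eval a (g i) ∈ maximalIdeal O)
    (hinj : ∀ v : Fin n → O, (∀ i, dv a v (g i) ∈ maximalIdeal O) →
      ∀ k, v k ∈ maximalIdeal O) :
    ∃ b : Fin n → O, (∀ k, b k - a k ∈ maximalIdeal O) ∧
      ∀ i, MvPolynomial.eval b (g i) = 0 := by
  classical
  let J : Matrix (Fin n) (Fin n) O :=
    fun i k => MvPolynomial.eval a (MvPolynomial.pderiv k (g i))
  have hdet : IsUnit J.det := by
    by_contra hno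
    have h1 : (J.map (residue O)).det = 0 := by
      have h2 : (J.map (residue O)).det = residue O J.det :=
        ((residue O).map_det J).symm
      rw [h2, residue_eq_zero_iff, mem_maximalIdeal, mem_nonunits_iff]
      exact hno
    obtain ⟨v, hv, hv0⟩ := Matrix.exists_mulVec_eq_zero_iff.mpr h1
    choose w hw using fun k => residue_surjective (R := O) (v k)
    apply hv
    funext k
    rw [← hw k, Pi.zero_apply, residue_eq_zero_iff]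
    refine hinj w (fun i => ?_) k
    rw [← residue_eq_zero_iff]
    have h3 := congrFun hv0 i
    simp only [Matrix.mulVec, dotProduct, Matrix.map_apply, Pi.zero_apply] at h3
    simp only [dv, map_sum, map_mul]
    rw [← h3]
    refine sum_congr rfl fun k _ => ?_
    rw [hw]
  refine Pool.Agent.Lib.MP_f80667_ag.hensel (maximalIdeal O) g a (fun k j => J⁻¹ k j) h0 ?_
  intro i j
  have h2 : (J * J⁻¹) i j = (1 : Matrix (Fin n) (Fin n) O) i j := by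
    rw [Matrix.mul_nonsing_inv J hdet]
  rw [Matrix.mul_apply, Matrix.one_apply] at h2
  have h3 : ∑ k, MvPolynomial.eval a (MvPolynomial.pderiv k (g i)) * J⁻¹ k j =
      if i = j then 1 else 0 := h2
  rw [h3, sub_self]
  exact zero_mem _

section poly

open MvPolynomial (C X)

variable {O : Type*} [CommRing O] (π A₁ A₂ A₃ A₄ B₁ B₂ B₃ C₁ C₂ C₃ : O)

/-- The six equations; the unknowns are `α, β, ξ₁, ξ₂, x, y`. -/
noncomputable def twg : Fin 6 → MvPolynomial (Fin 6) O :=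
  ![X 0 * X 5 + (C B₁ + X 3 * C B₂ + C π * (X 3 * X 3) * C B₃),
    X 1 * X 4 + (C C₃ + X 2 * C C₂ + C π * (X 2 * X 2) * C C₁),
    X 0 * X 0 * X 1 + C (2 * π) * (X 0 * X 4 * X 5) +
      X 0 * (C B₂ * (C 1 + C π * (X 2 * X 3)) + C (2 * π * B₁) * X 2 + C (2 * π * B₃) * X 3) +
      C π * X 4 * (C B₁ + X 3 * C B₂ + C π * (X 3 * X 3) * C B₃) +
      (C A₁ + C (π * A₂) * X 3 + C (π * A₃) * (X 3 * X 3) + C (π * A₄) * (X 3 * X 3 * X 3)),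
    X 0 * (X 5 * X 5) + C 2 * (X 0 * X 1 * X 4) + C π * (X 4 * X 4 * X 5) +
      X 0 * (C B₃ + X 2 * C B₂ + C π * (X 2 * X 2) * C B₁) +
      X 4 * (C B₂ * (C 1 + C π * (X 2 * X 3)) + C (2 * π * B₁) * X 2 + C (2 * π * B₃) * X 3) +
      X 5 * (C C₁ + X 3 * C C₂ + C π * (X 3 * X 3) * C C₃) +
      (C A₂ + C (2 * A₃) * X 3 + C (3 * A₄) * (X 3 * X 3) +
        X 2 * (C (3 * A₁) + C (2 * π * A₂) * X 3 + C (π * A₃) * (X 3 * X 3))),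
    C 2 * (X 0 * X 1 * X 5) + C π * (X 4 * (X 5 * X 5)) + C π * (X 1 * (X 4 * X 4)) +
      C π * X 4 * (C B₃ + X 2 * C B₂ + C π * (X 2 * X 2) * C B₁) +
      X 1 * (C C₁ + X 3 * C C₂ + C π * (X 3 * X 3) * C C₃) +
      X 5 * (C C₂ * (C 1 + C π * (X 2 * X 3)) + C (2 * π * C₁) * X 2 + C (2 * π * C₃) * X 3) +
      (C A₃ + C (2 * π * A₂) * X 2 + C (3 * π * A₁) * (X 2 * X 2) +
        X 3 * (C (3 * A₄) + C (2 * π * A₃) * X 2 + C (π ^ 2 * A₂) * (X 2 * X 2))),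
    X 0 * (X 1 * X 1) + C (2 * π) * (X 1 * X 4 * X 5) +
      X 1 * (C C₂ * (C 1 + C π * (X 2 * X 3)) + C (2 * π * C₁) * X 2 + C (2 * π * C₃) * X 3) +
      C π * X 5 * (C C₃ + X 2 * C C₂ + C π * (X 2 * X 2) * C C₁) +
      (C A₄ + C (π * A₃) * X 2 + C (π ^ 2 * A₂) * (X 2 * X 2) + C (π ^ 2 * A₁) * (X 2 * X 2 * X 2))]

variable (b v : Fin 6 → O)

theorem twg_eval0 : MvPolynomial.eval b (twg π A₁ A₂ A₃ A₄ B₁ B₂ B₃ C₁ C₂ C₃ 0) =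
    b 0 * b 5 + (B₁ + b 3 * B₂ + π * (b 3) ^ 2 * B₃) := by
  simp only [twg, Matrix.cons_val_zero, map_add, map_mul, MvPolynomial.eval_X, MvPolynomial.eval_C]
  ring

theorem twg_eval1 : MvPolynomial.eval b (twg π A₁ A₂ A₃ A₄ B₁ B₂ B₃ C₁ C₂ C₃ 1) =
    b 1 * b 4 + (C₃ + b 2 * C₂ + π * (b 2) ^ 2 * C₁) := by
  simp only [twg, Matrix.cons_val_one, Matrix.cons_val_zero, map_add, map_mul, MvPolynomial.eval_X,
    MvPolynomial.eval_C]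
  ring

theorem twg_eval2 : MvPolynomial.eval b (twg π A₁ A₂ A₃ A₄ B₁ B₂ B₃ C₁ C₂ C₃ 2) =
    (b 0) ^ 2 * b 1 + 2 * π * b 0 * b 4 * b 5 +
      b 0 * (B₂ * (1 + π * b 2 * b 3) + 2 * π * b 2 * B₁ + 2 * π * b 3 * B₃) +
      π * b 4 * (B₁ + b 3 * B₂ + π * (b 3) ^ 2 * B₃) +
      (A₁ + π * b 3 * A₂ + π * (b 3) ^ 2 * A₃ + π * (b 3) ^ 3 * A₄) := by
  simp only [twg, Matrix.cons_val, map_add, map_mul, MvPolynomial.eval_X, MvPolynomial.eval_C]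
  ring

theorem twg_eval3 : MvPolynomial.eval b (twg π A₁ A₂ A₃ A₄ B₁ B₂ B₃ C₁ C₂ C₃ 3) =
    b 0 * (b 5) ^ 2 + 2 * b 0 * b 1 * b 4 + π * (b 4) ^ 2 * b 5 +
      b 0 * (B₃ + b 2 * B₂ + π * (b 2) ^ 2 * B₁) +
      b 4 * (B₂ * (1 + π * b 2 * b 3) + 2 * π * b 2 * B₁ + 2 * π * b 3 * B₃) +
      b 5 * (C₁ + b 3 * C₂ + π * (b 3) ^ 2 * C₃) +
      (A₂ + 2 * b 3 * A₃ + 3 * (b 3) ^ 2 * A₄ +
        b 2 * (3 * A₁ + 2 * π * b 3 * A₂ + π * (b 3) ^ 2 * A₃)) := by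
  simp only [twg, Matrix.cons_val, map_add, map_mul, MvPolynomial.eval_X, MvPolynomial.eval_C]
  ring

theorem twg_eval4 : MvPolynomial.eval b (twg π A₁ A₂ A₃ A₄ B₁ B₂ B₃ C₁ C₂ C₃ 4) =
    2 * b 0 * b 1 * b 5 + π * b 4 * (b 5) ^ 2 + π * b 1 * (b 4) ^ 2 +
      π * b 4 * (B₃ + b 2 * B₂ + π * (b 2) ^ 2 * B₁) +
      b 1 * (C₁ + b 3 * C₂ + π * (b 3) ^ 2 * C₃) +
      b 5 * (C₂ * (1 + π * b 2 * b 3) + 2 * π * b 2 * C₁ + 2 * π * b 3 * C₃) +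
      (A₃ + 2 * π * b 2 * A₂ + 3 * π * (b 2) ^ 2 * A₁ +
        b 3 * (3 * A₄ + 2 * π * b 2 * A₃ + π ^ 2 * (b 2) ^ 2 * A₂)) := by
  simp only [twg, Matrix.cons_val, map_add, map_mul, MvPolynomial.eval_X, MvPolynomial.eval_C]
  ring

theorem twg_eval5 : MvPolynomial.eval b (twg π A₁ A₂ A₃ A₄ B₁ B₂ B₃ C₁ C₂ C₃ 5) =
    b 0 * (b 1) ^ 2 + 2 * π * b 1 * b 4 * b 5 +
      b 1 * (C₂ * (1 + π * b 2 * b 3) + 2 * π * b 2 * C₁ + 2 * π * b 3 * C₃) +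
      π * b 5 * (C₃ + b 2 * C₂ + π * (b 2) ^ 2 * C₁) +
      (A₄ + π * b 2 * A₃ + π ^ 2 * (b 2) ^ 2 * A₂ + π ^ 2 * (b 2) ^ 3 * A₁) := by
  simp only [twg, Matrix.cons_val, map_add, map_mul, MvPolynomial.eval_X, MvPolynomial.eval_C]
  ring

variable {κ : Type*} [CommRing κ] (ρ : O →+* κ) (hπ : ρ π = 0)

include hπ

theorem twg_d0 : ρ (dv b v (twg π A₁ A₂ A₃ A₄ B₁ B₂ B₃ C₁ C₂ C₃ 0)) =
    ρ (b 0) * ρ (v 5) + ρ (b 5) * ρ (v 0) + ρ B₂ * ρ (v 3) := by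
  simp only [twg, Matrix.cons_val, dv_add, dv_mul, dv_C, dv_X]
  simp only [map_add, map_mul, MvPolynomial.eval_X, MvPolynomial.eval_C, hπ, map_zero]
  ring

theorem twg_d1 : ρ (dv b v (twg π A₁ A₂ A₃ A₄ B₁ B₂ B₃ C₁ C₂ C₃ 1)) =
    ρ (b 1) * ρ (v 4) + ρ (b 4) * ρ (v 1) + ρ C₂ * ρ (v 2) := by
  simp only [twg, Matrix.cons_val, dv_add, dv_mul, dv_C, dv_X]
  simp only [map_add, map_mul, MvPolynomial.eval_X, MvPolynomial.eval_C, hπ, map_zero]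
  ring

theorem twg_d2 : ρ (dv b v (twg π A₁ A₂ A₃ A₄ B₁ B₂ B₃ C₁ C₂ C₃ 2)) =
   
    (2 * ρ (b 0) * ρ (b 1) + ρ B₂) * ρ (v 0) + ρ (b 0) ^ 2 * ρ (v 1) := by
  simp only [twg, Matrix.cons_val, dv_add, dv_mul, dv_C, dv_X]
  simp only [map_add, map_mul, MvPolynomial.eval_X, MvPolynomial.eval_C, hπ, map_zero, map_ofNat,
    map_one]
  ring

theorem twg_d3 : ρ (dv b v (twg π A₁ A₂ A₃ A₄ B₁ B₂ B₃ C₁ C₂ C₃ 3)) =
   
    (2 * ρ (b 0) * ρ (b 1) + ρ B₂) * ρ (v 4) + (ρ (b 0) * ρ B₂ + 3 * ρ A₁) * ρ (v 2) +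
      (2 * ρ (b 0) * ρ (b 5) + ρ C₁ + ρ (b 3) * ρ C₂) * ρ (v 5) +
      (ρ (b 5) * ρ C₂ + 2 * ρ A₃ + 6 * ρ (b 3) * ρ A₄) * ρ (v 3) +
      (ρ (b 5) ^ 2 + 2 * ρ (b 1) * ρ (b 4) + ρ B₃ + ρ (b 2) * ρ B₂) * ρ (v 0) +
      2 * ρ (b 0) * ρ (b 4) * ρ (v 1) := by
  simp only [twg, Matrix.cons_val, dv_add, dv_mul, dv_C, dv_X]
  simp only [map_add, map_mul, MvPolynomial.eval_X, MvPolynomial.eval_C, hπ, map_zero, map_ofNat,
    map_one]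
  ring

theorem twg_d4 : ρ (dv b v (twg π A₁ A₂ A₃ A₄ B₁ B₂ B₃ C₁ C₂ C₃ 4)) =
   
    (2 * ρ (b 0) * ρ (b 1) + ρ C₂) * ρ (v 5) + (ρ (b 1) * ρ C₂ + 3 * ρ A₄) * ρ (v 3) +
      2 * ρ (b 1) * ρ (b 5) * ρ (v 0) +
      (2 * ρ (b 0) * ρ (b 5) + ρ C₁ + ρ (b 3) * ρ C₂) * ρ (v 1) := by
  simp only [twg, Matrix.cons_val, dv_add, dv_mul, dv_C, dv_X]
  simp only [map_add, map_mul, MvPolynomial.eval_X, MvPolynomial.eval_C, hπ, map_zero, map_ofNat,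
    map_one, map_pow]
  ring

theorem twg_d5 : ρ (dv b v (twg π A₁ A₂ A₃ A₄ B₁ B₂ B₃ C₁ C₂ C₃ 5)) =
   
    ρ (b 1) ^ 2 * ρ (v 0) + (2 * ρ (b 0) * ρ (b 1) + ρ C₂) * ρ (v 1) := by
  simp only [twg, Matrix.cons_val, dv_add, dv_mul, dv_C, dv_X]
  simp only [map_add, map_mul, MvPolynomial.eval_X, MvPolynomial.eval_C, hπ, map_zero, map_ofNat,
    map_one, map_pow]
  ring

end poly

/-- Solution of the six equations. -/
theorem twg_solve {O : Type*} [CommRing O] [IsDomain O] [IsDiscreteValuationRing O]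
    [IsAdicComplete (maximalIdeal O) O] {π : O} (hπ : Irreducible π)
    (A₁ A₂ A₃ A₄ B₁ B₂ B₃ C₁ C₂ C₃ m : O) (u₁ : IsUnit A₁) (u₄ : IsUnit A₄)
    (h : m * (m + B₂) * (m + C₂) - A₁ * A₄ ∈ maximalIdeal O)
    (h' : IsUnit (3 * m ^ 2 + 2 * m * (B₂ + C₂) + B₂ * C₂)) :
    ∃ b : Fin 6 → O, IsUnit (b 0) ∧ IsUnit (b 1) ∧
      ∀ i, MvPolynomial.eval b (twg π A₁ A₂ A₃ A₄ B₁ B₂ B₃ C₁ C₂ C₃ i) = 0 := by
  set ρ := residue O with hρ
  have hπ0 : ρ π = 0 := by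
    rw [hρ, residue_eq_zero_iff, mem_maximalIdeal, mem_nonunits_iff]
    exact hπ.not_isUnit
  have hun : ∀ x : O, IsUnit x ↔ ρ x ≠ 0 := by
    intro x
    rw [Ne, hρ, residue_eq_zero_iff, mem_maximalIdeal, mem_nonunits_iff, not_not]
  have n₁ : ρ A₁ ≠ 0 := (hun _).1 u₁
  have n₄ : ρ A₄ ≠ 0 := (hun _).1 u₄
  have hH : ρ m * (ρ m + ρ B₂) * (ρ m + ρ C₂) = ρ A₁ * ρ A₄ := by
    have := (residue_eq_zero_iff _).2 h
    rw [← hρ] at this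
    simp only [map_sub, map_mul, map_add] at this
    exact sub_eq_zero.1 this
  have hH' : 3 * ρ m ^ 2 + 2 * ρ m * (ρ B₂ + ρ C₂) + ρ B₂ * ρ C₂ ≠ 0 := by
    have := (hun _).1 h'
    simpa only [map_add, map_mul, map_pow, map_ofNat] using this
  have nA : ρ A₁ * ρ A₄ ≠ 0 := mul_ne_zero n₁ n₄
  rw [← hH] at nA
  have nm : ρ m ≠ 0 := left_ne_zero_of_mul (left_ne_zero_of_mul nA)
  have nB : ρ m + ρ B₂ ≠ 0 := right_ne_zero_of_mul (left_ne_zero_of_mul nA)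
  have nC : ρ m + ρ C₂ ≠ 0 := right_ne_zero_of_mul nA
  set H := 3 * ρ m ^ 2 + 2 * ρ m * (ρ B₂ + ρ C₂) + ρ B₂ * ρ C₂ with hHdef
  set α := -ρ A₁ / (ρ m + ρ B₂) with hα
  set β := -ρ A₄ / (ρ m + ρ C₂) with hβ
  have eα : α * (ρ m + ρ B₂) = -ρ A₁ := div_mul_cancel₀ _ nB
  have eβ : β * (ρ m + ρ C₂) = -ρ A₄ := div_mul_cancel₀ _ nC
  have eαβ : α * β = ρ m := by
    have h1 : (α * β) * ((ρ m + ρ B₂) * (ρ m + ρ C₂)) =
        ρ m * ((ρ m + ρ B₂) * (ρ m + ρ C₂)) := by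
      calc (α * β) * ((ρ m + ρ B₂) * (ρ m + ρ C₂))
          = (α * (ρ m + ρ B₂)) * (β * (ρ m + ρ C₂)) := by ring
        _ = ρ A₁ * ρ A₄ := by rw [eα, eβ]; ring
        _ = _ := by rw [← hH]; ring
    exact mul_right_cancel₀ (mul_ne_zero nB nC) h1
  have nα : α ≠ 0 := div_ne_zero (neg_ne_zero.2 n₁) nB
  have nβ : β ≠ 0 := div_ne_zero (neg_ne_zero.2 n₄) nC
  have eA₁ : ρ A₁ = -(α * (ρ m + ρ B₂)) := by rw [eα, neg_neg]
  have eA₄ : ρ A₄ = -(β * (ρ m + ρ C₂)) := by rw [eβ, neg_neg]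
  -- the linear systems
  have key : ∀ a₁ a₂ c₁ c₂ r s : ResidueField O, a₁ * c₂ - a₂ * c₁ ≠ 0 →
      ∃ X Y, a₁ * X + a₂ * Y = r ∧ c₁ * X + c₂ * Y = s := by
    intro a₁ a₂ c₁ c₂ r s hd
    obtain ⟨d, hd'⟩ : ∃ d, d = a₁ * c₂ - a₂ * c₁ := ⟨_, rfl⟩
    rw [← hd'] at hd
    refine ⟨(r * c₂ - a₂ * s) / d, (a₁ * s - c₁ * r) / d, ?_, ?_⟩
    · have h1 : a₁ * ((r * c₂ - a₂ * s) / d) + a₂ * ((a₁ * s - c₁ * r) / d) = r * (d / d) := by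
        rw [hd']
        ring
      rw [h1, div_self hd, mul_one]
    · have h1 : c₁ * ((r * c₂ - a₂ * s) / d) + c₂ * ((a₁ * s - c₁ * r) / d) = s * (d / d) := by
        rw [hd']
        ring
      rw [h1, div_self hd, mul_one]
  have det1 : α * (β * ρ C₂ + 3 * ρ A₄) - ρ B₂ * (2 * α * β + ρ C₂) = -H := by
    rw [eA₄, hHdef]
    linear_combination (-3 * (ρ m + ρ C₂) + ρ C₂ - 2 * ρ B₂) * eαβ
  have det2 : β * (α * ρ B₂ + 3 * ρ A₁) - ρ C₂ * (2 * α * β + ρ B₂) = -H := by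
    rw [eA₁, hHdef]
    linear_combination (-3 * (ρ m + ρ B₂) + ρ B₂ - 2 * ρ C₂) * eαβ
  have det3 : (2 * α * β + ρ B₂) * (2 * α * β + ρ C₂) - α ^ 2 * β ^ 2 = H := by
    rw [hHdef]
    linear_combination (3 * (α * β + ρ m) + 2 * (ρ B₂ + ρ C₂)) * eαβ
  obtain ⟨y, ξ₂, hy1, hy2⟩ := key α (ρ B₂) (2 * α * β + ρ C₂) (β * ρ C₂ + 3 * ρ A₄)
    (-ρ B₁) (-(β * ρ C₁ + ρ A₃)) (by rw [det1]; exact neg_ne_zero.2 hH')
  obtain ⟨x, ξ₁, hx1, hx2⟩ := key β (ρ C₂) (2 * α * β + ρ B₂) (α * ρ B₂ + 3 * ρ A₁)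
    (-ρ C₃) (-(α * y ^ 2 + α * ρ B₃ + y * (ρ C₁ + ξ₂ * ρ C₂) + ρ A₂ + 2 * ξ₂ * ρ A₃ +
      3 * ξ₂ ^ 2 * ρ A₄)) (by rw [det2]; exact neg_ne_zero.2 hH')
  choose li hli using residue_surjective (R := O)
  let a : Fin 6 → O := ![li α, li β, li ξ₁, li ξ₂, li x, li y]
  have a0 : ρ (a 0) = α := hli _
  have a1 : ρ (a 1) = β := hli _
  have a2 : ρ (a 2) = ξ₁ := hli _
  have a3 : ρ (a 3) = ξ₂ := hli _
  have a4 : ρ (a 4) = x := hli _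
  have a5 : ρ (a 5) = y := hli _
  obtain ⟨b, hb, hb0⟩ := hensel_sq (twg π A₁ A₂ A₃ A₄ B₁ B₂ B₃ C₁ C₂ C₃) a (by
    intro i
    rw [← residue_eq_zero_iff, ← hρ]
    fin_cases i
    · change ρ (MvPolynomial.eval a (twg π A₁ A₂ A₃ A₄ B₁ B₂ B₃ C₁ C₂ C₃ 0)) = 0
      rw [twg_eval0]
      simp only [map_add, map_mul, map_pow, hπ0, a0, a5, a3]
      linear_combination hy1
    · change ρ (MvPolynomial.eval a (twg π A₁ A₂ A₃ A₄ B₁ B₂ B₃ C₁ C₂ C₃ 1)) = 0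
      rw [twg_eval1]
      simp only [map_add, map_mul, map_pow, hπ0, a1, a4, a2]
      linear_combination hx1
    · change ρ (MvPolynomial.eval a (twg π A₁ A₂ A₃ A₄ B₁ B₂ B₃ C₁ C₂ C₃ 2)) = 0
      rw [twg_eval2]
      simp only [map_add, map_mul, map_pow, hπ0, a0, a1, a2, a3, a4, a5, map_ofNat, map_one]
      linear_combination α * eαβ + eα
    · change ρ (MvPolynomial.eval a (twg π A₁ A₂ A₃ A₄ B₁ B₂ B₃ C₁ C₂ C₃ 3)) = 0
      rw [twg_eval3]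
      simp only [map_add, map_mul, map_pow, hπ0, a0, a1, a2, a3, a4, a5, map_ofNat, map_one]
      linear_combination hx2
    · change ρ (MvPolynomial.eval a (twg π A₁ A₂ A₃ A₄ B₁ B₂ B₃ C₁ C₂ C₃ 4)) = 0
      rw [twg_eval4]
      simp only [map_add, map_mul, map_pow, hπ0, a0, a1, a2, a3, a4, a5, map_ofNat, map_one]
      linear_combination hy2
    · change ρ (MvPolynomial.eval a (twg π A₁ A₂ A₃ A₄ B₁ B₂ B₃ C₁ C₂ C₃ 5)) = 0
      rw [twg_eval5]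
      simp only [map_add, map_mul, map_pow, hπ0, a0, a1, a2, a3, a4, a5, map_ofNat, map_one]
      linear_combination β * eαβ + eβ) (by
    intro v hv
    have e0 := (residue_eq_zero_iff _).2 (hv 0)
    have e1 := (residue_eq_zero_iff _).2 (hv 1)
    have e2 := (residue_eq_zero_iff _).2 (hv 2)
    have e3 := (residue_eq_zero_iff _).2 (hv 3)
    have e4 := (residue_eq_zero_iff _).2 (hv 4)
    have e5 := (residue_eq_zero_iff _).2 (hv 5)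
    rw [← hρ] at e0 e1 e2 e3 e4 e5
    rw [twg_d0 (hπ := hπ0)] at e0
    rw [twg_d1 (hπ := hπ0)] at e1
    rw [twg_d2 (hπ := hπ0)] at e2
    rw [twg_d3 (hπ := hπ0)] at e3
    rw [twg_d4 (hπ := hπ0)] at e4
    rw [twg_d5 (hπ := hπ0)] at e5
    simp only [a0, a1, a2, a3, a4, a5] at e0 e1 e2 e3 e4 e5
    have key2 : ∀ a₁ a₂ c₁ c₂ X Y : ResidueField O, a₁ * c₂ - a₂ * c₁ ≠ 0 →
        a₁ * X + a₂ * Y = 0 → c₁ * X + c₂ * Y = 0 → X = 0 ∧ Y = 0 := by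
      intro a₁ a₂ c₁ c₂ X Y hd h1 h2
      constructor
      · have : (a₁ * c₂ - a₂ * c₁) * X = 0 := by linear_combination c₂ * h1 - a₂ * h2
        exact (mul_eq_zero.1 this).resolve_left hd
      · have : (a₁ * c₂ - a₂ * c₁) * Y = 0 := by linear_combination a₁ * h2 - c₁ * h1
        exact (mul_eq_zero.1 this).resolve_left hd
    obtain ⟨v0, v1⟩ := key2 (2 * α * β + ρ B₂) (α ^ 2) (β ^ 2) (2 * α * β + ρ C₂) (ρ (v 0))
      (ρ (v 1)) (by rw [det3]; exact hH') e2 e5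
    simp only [v0, v1] at e0 e1 e3 e4
    obtain ⟨v5, v3⟩ := key2 α (ρ B₂) (2 * α * β + ρ C₂) (β * ρ C₂ + 3 * ρ A₄) (ρ (v 5))
      (ρ (v 3)) (by rw [det1]; exact neg_ne_zero.2 hH') (by linear_combination e0)
      (by linear_combination e4)
    simp only [v5, v3] at e3
    obtain ⟨v4, v2⟩ := key2 β (ρ C₂) (2 * α * β + ρ B₂) (α * ρ B₂ + 3 * ρ A₁) (ρ (v 4))
      (ρ (v 2)) (by rw [det2]; exact neg_ne_zero.2 hH') (by linear_combination e1)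
      (by linear_combination e3)
    intro k
    rw [← residue_eq_zero_iff, ← hρ]
    fin_cases k
    · exact v0
    · exact v1
    · exact v2
    · exact v3
    · exact v4
    · exact v5)
  refine ⟨b, ?_, ?_, hb0⟩
  · rw [hun]
    have h1 := (residue_eq_zero_iff _).2 (hb 0)
    rw [← hρ, map_sub, sub_eq_zero, a0] at h1
    rw [h1]
    exact nα
  · rw [hun]
    have h1 := (residue_eq_zero_iff _).2 (hb 1)
    rw [← hρ, map_sub, sub_eq_zero, a1] at h1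
    rw [h1]
    exact nβ

variable {O K V : Type*} [CommRing O] [IsDomain O] [IsDiscreteValuationRing O]
  [IsAdicComplete (maximalIdeal O) O] [Field K] [Algebra O K] [IsFractionRing O K]
  [AddCommGroup V] [Module K V] {π : O}

/-- Twisted cubics, general case.
Curve: `α s³ P + π β t³ Q + s² t (x₁ P + u₁) + s t² (y₂ Q + u₂)`, `u₁ = w₁ + ξ₂ w₂`,
`u₂ = w₂ + π ξ₁ w₁`, `x₁ = π x`, `y₂ = π y`; unknowns `α, β, ξ₁, ξ₂, x, y ∈ O` (`t = 1`).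
With `p(w) = D(w; P)`, `q(w) = D(w; Q)`, `b_p(u₁, u₂) = E(u₁, u₂, P)` the equations are
`α y₂ + p(u₁) = 0`, `π β x₁ + q(u₂) = 0`,
`α² π β + 2 α x₁ y₂ + α b_p(u₁, u₂) + x₁ p(u₁) + f(u₁) = 0`,
`2 α π β x₁ + x₁² y₂ + α y₂² + α p(u₂) + x₁ b_p + y₂ q(u₁) + D(u₁; u₂) = 0`,
`π β x₁² + 2 α π β y₂ + x₁ y₂² + x₁ p(u₂) + y₂ b_q + π β q(u₁) + D(u₂; u₁) = 0`,
`α π² β² + 2 π β x₁ y₂ + y₂ q(u₂) + π β b_q + f(u₂) = 0`;
divide them by `π, π², π, π², π², π²` and use `hensel` at `α = -A₁ / (m + B₂)`,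
`β = -A₄ / (m + C₂)`, `α β = m`; modulo `π` the system is triangular with the diagonal
`α`, `β`, (`H'(m)` for `(α, β)`), `Λ₂(w₁) = -(α / m) H'(m)`, `Λ₃(w₂) = -(β / m) H'(m)`, where
`H'(m) = 3 m² + 2 m (B₂ + C₂) + B₂ C₂`. -/
theorem tw (hπ : Irreducible π) (c : Cb K V) (P Q w₁ w₂ : V) (hP : c.f P = 0) (hQ : c.f Q = 0)
    (hPQ : c.D P Q = 1) (hQP : c.D Q P = 1) (h1P : c.D P w₁ = 0) (h2P : c.D P w₂ = 0)
    (h1Q : c.D Q w₁ = 0) (h2Q : c.D Q w₂ = 0) (h1E : c.E P Q w₁ = 0) (h2E : c.E P Q w₂ = 0)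
    (A₁ A₂ A₃ A₄ B₁ B₂ B₃ C₁ C₂ C₃ m : O)
    (hA₁ : c.f w₁ = algebraMap O K (π * A₁)) (hA₂ : c.D w₁ w₂ = algebraMap O K (π ^ 2 * A₂))
    (hA₃ : c.D w₂ w₁ = algebraMap O K (π ^ 2 * A₃)) (hA₄ : c.f w₂ = algebraMap O K (π ^ 2 * A₄))
    (hB₁ : c.D w₁ P = algebraMap O K (π * B₁)) (hB₂ : c.E w₁ w₂ P = algebraMap O K (π * B₂))
    (hB₃ : c.D w₂ P = algebraMap O K (π ^ 2 * B₃)) (hC₁ : c.D w₁ Q = algebraMap O K (π * C₁))
    (hC₂ : c.E w₁ w₂ Q = algebraMap O K (π * C₂)) (hC₃ : c.D w₂ Q = algebraMap O K (π ^ 2 * C₃))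
    (u₁ : IsUnit A₁) (u₄ : IsUnit A₄)
    (h : m * (m + B₂) * (m + C₂) - A₁ * A₄ ∈ maximalIdeal O)
    (h' : IsUnit (3 * m ^ 2 + 2 * m * (B₂ + C₂) + B₂ * C₂)) :
    ∃ d : ℕ → V, (∃ a : K, a ≠ 0 ∧ d 0 = a • Q) ∧ (∃ a : K, a ≠ 0 ∧ d 3 = a • P) ∧
      ∀ s : K, c.f (∑ i ∈ range 4, s ^ i • d i) = 0 := by
  obtain ⟨b, v0, v1, hb⟩ := twg_solve hπ A₁ A₂ A₃ A₄ B₁ B₂ B₃ C₁ C₂ C₃ m u₁ u₄ h h'
  have hp0 : algebraMap O K π ≠ 0 := pi_ne hπ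
  have n0 : algebraMap O K (b 0) ≠ 0 := (v0.map (algebraMap O K)).ne_zero
  have n1 : algebraMap O K (b 1) ≠ 0 := (v1.map (algebraMap O K)).ne_zero
  have e0 := congrArg (algebraMap O K) (hb 0)
  have e1 := congrArg (algebraMap O K) (hb 1)
  have e2 := congrArg (algebraMap O K) (hb 2)
  have e3 := congrArg (algebraMap O K) (hb 3)
  have e4 := congrArg (algebraMap O K) (hb 4)
  have e5 := congrArg (algebraMap O K) (hb 5)
  rw [twg_eval0] at e0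
  rw [twg_eval1] at e1
  rw [twg_eval2] at e2
  rw [twg_eval3] at e3
  rw [twg_eval4] at e4
  rw [twg_eval5] at e5
  simp only [map_add, map_mul, map_pow, map_zero, map_ofNat, map_one] at e0 e1 e2 e3 e4 e5
  simp only [map_mul, map_pow] at hA₁ hA₂ hA₃ hA₄ hB₁ hB₂ hB₃ hC₁ hC₂ hC₃
  generalize algebraMap O K π = p at *
  generalize algebraMap O K (b 0) = α at *
  generalize algebraMap O K (b 1) = β at *
  generalize algebraMap O K (b 2) = ξ₁ at *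
  generalize algebraMap O K (b 3) = ξ₂ at *
  generalize algebraMap O K (b 4) = x at *
  generalize algebraMap O K (b 5) = y at *
  generalize algebraMap O K A₁ = a₁ at *
  generalize algebraMap O K A₂ = a₂ at *
  generalize algebraMap O K A₃ = a₃ at *
  generalize algebraMap O K A₄ = a₄ at *
  generalize algebraMap O K B₁ = b₁ at *
  generalize algebraMap O K B₂ = b₂ at *
  generalize algebraMap O K B₃ = b₃ at *
  generalize algebraMap O K C₁ = c₁ at *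
  generalize algebraMap O K C₂ = c₂ at *
  generalize algebraMap O K C₃ = c₃ at *
  refine ⟨fun i => if i = 0 then (p * β) • Q else if i = 1 then (p * y) • Q + w₂ + (p * ξ₁) • w₁
    else if i = 2 then (p * x) • P + w₁ + ξ₂ • w₂ else α • P, ⟨p * β, mul_ne_zero hp0 n1, rfl⟩,
    ⟨α, n0, rfl⟩, fun s => ?_⟩
  have hs : ∑ i ∈ range 4, s ^ i • (if i = 0 then (p * β) • Q else
      if i = 1 then (p * y) • Q + w₂ + (p * ξ₁) • w₁
      else if i = 2 then (p * x) • P + w₁ + ξ₂ • w₂ else α • P) =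
      (s ^ 3 * α + s ^ 2 * p * x) • P + (p * β + s * p * y) • Q +
        ((s ^ 2 + s * p * ξ₁) • w₁ + (s ^ 2 * ξ₂ + s) • w₂) := by
    have h0 : ∀ g : ℕ → V, ∑ i ∈ range 4, s ^ i • g i =
        g 0 + s • g 1 + s ^ 2 • g 2 + s ^ 3 • g 3 := by
      intro g
      simp [sum_range_succ]
    rw [h0]
    change (p * β) • Q + s • ((p * y) • Q + w₂ + (p * ξ₁) • w₁) +
      s ^ 2 • ((p * x) • P + w₁ + ξ₂ • w₂) + s ^ 3 • (α • P) = _
    module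
  rw [hs, c.f_plane _ _ _ _ _ hP hQ hPQ hQP (by rw [c.D_add, c.D_smul, c.D_smul, h1P, h2P]; ring)
    (by rw [c.D_add, c.D_smul, c.D_smul, h1Q, h2Q]; ring)
    (by rw [c.E_add, c.E_smul, c.E_smul, h1E, h2E]; ring), c.add_D, c.add_D, c.smul_D, c.smul_D,
    c.smul_D, c.smul_D, c.E_smul1, c.E_smul2, c.E_smul1, c.E_smul2, c.f_lin, hA₁, hA₂, hA₃, hA₄,
    hB₁, hB₂, hB₃, hC₁, hC₂, hC₃]
  linear_combination s ^ 7 * α * p * e0 + s ^ 6 * p * e2 + s ^ 5 * p ^ 2 * e3 +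
    s ^ 4 * p ^ 2 * e4 + s ^ 3 * p ^ 2 * e5 + s ^ 2 * p ^ 3 * β * e1

end Cu
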