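import Pool.Agent.Lib.MP_f80667_ag.Cu.Norm
import Pool.Agent.Lib.MP_f80667_ag.Cu.Lin

/-! Twisted cubics through two points, special case in residue characteristic `3`. -/

open Polynomial IsLocalRing Finset

namespace Cu

namespace Tw3

section blocks

variable {R S : Type*} [CommRing R] [CommRing S]

/-- `f(u₁) / π` -/
def f1 (z : ℕ → R) (x : Fin 4 → R) : R :=
  z 5 + x 0 * z 6 + x 0 ^ 2 * z 7 + x 0 ^ 3 * z 8 +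
    z 0 * (x 2 * (z 14 + x 0 * z 18 + x 0 ^ 2 * z 16) + x 2 ^ 2 * (z 21 + x 0 * z 22) +
      x 2 ^ 3 * z 12)

/-- `f(u₂) / π²` -/
def f2 (z : ℕ → R) (x : Fin 4 → R) : R :=
  z 9 + x 1 * z 10 + x 1 ^ 2 * z 11 + x 1 ^ 3 * z 12 +
    z 0 * (x 3 * (z 20 + x 1 * z 24 + x 1 ^ 2 * z 22) + z 0 * x 3 ^ 2 * (z 15 + x 1 * z 16) +
      z 0 * x 3 ^ 3 * z 8)

/-- `p(u₁) / π` -/
def p1 (z : ℕ → R) (x : Fin 4 → R) : R :=
  z 25 + x 0 * z 26 + x 0 ^ 2 * z 27 + z 0 * (x 2 * (z 32 + x 0 * z 34) + x 2 ^ 2 * z 30)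

/-- `q(u₁) / π` -/
def q1 (z : ℕ → R) (x : Fin 4 → R) : R :=
  z 35 + x 0 * z 36 + x 0 ^ 2 * z 37 + z 0 * (x 2 * (z 42 + x 0 * z 44) + x 2 ^ 2 * z 40)

/-- `p(u₂) / π²` -/
def p2 (z : ℕ → R) (x : Fin 4 → R) : R :=
  z 28 + x 1 * z 29 + x 1 ^ 2 * z 30 + z 0 * (x 3 * (z 33 + x 1 * z 34) + x 3 ^ 2 * z 27)

/-- `q(u₂) / π²` -/
def q2 (z : ℕ → R) (x : Fin 4 → R) : R :=
  z 38 + x 1 * z 39 + x 1 ^ 2 * z 40 + z 0 * (x 3 * (z 43 + x 1 * z 44) + x 3 ^ 2 * z 37)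

/-- `E(u₁, u₂, P) / π²` -/
def bp (z : ℕ → R) (x : Fin 4 → R) : R :=
  z 31 + x 1 * z 32 + x 3 * z 26 + x 0 * (z 33 + x 1 * z 34 + 2 * x 3 * z 27) +
    x 2 * (z 29 + 2 * x 1 * z 30 + z 0 * x 3 * z 34)

/-- `E(u₁, u₂, Q) / π²` -/
def bq (z : ℕ → R) (x : Fin 4 → R) : R :=
  z 41 + x 1 * z 42 + x 3 * z 36 + x 0 * (z 43 + x 1 * z 44 + 2 * x 3 * z 37) +
    x 2 * (z 39 + 2 * x 1 * z 40 + z 0 * x 3 * z 44)

/-- `D(u₁; u₂) / π²` -/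
def d12 (z : ℕ → R) (x : Fin 4 → R) : R :=
  (z 13 + x 0 * z 17 + x 0 ^ 2 * z 15 + x 2 * z 23 + x 0 * x 2 * z 24 + x 2 ^ 2 * z 11) +
    x 1 * (z 14 + x 0 * z 18 + x 0 ^ 2 * z 16 + 2 * x 2 * z 21 + 2 * x 0 * x 2 * z 22 +
      3 * x 2 ^ 2 * z 12) +
    x 3 * (z 6 + 2 * x 0 * z 7 + 3 * x 0 ^ 2 * z 8 +
      z 0 * (x 2 * z 18 + 2 * x 0 * x 2 * z 16 + x 2 ^ 2 * z 22))

/-- `D(u₂; u₁) / π²` -/
def d21 (z : ℕ → R) (x : Fin 4 → R) : R :=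
  (z 19 + x 1 * z 23 + x 1 ^ 2 * z 21 + z 0 * (x 3 * z 17 + x 1 * x 3 * z 18 + x 3 ^ 2 * z 7)) +
    x 0 * (z 20 + x 1 * z 24 + x 1 ^ 2 * z 22 +
      z 0 * (2 * x 3 * z 15 + 2 * x 1 * x 3 * z 16 + 3 * x 3 ^ 2 * z 8)) +
    x 2 * (z 10 + 2 * x 1 * z 11 + 3 * x 1 ^ 2 * z 12 +
      z 0 * (x 3 * z 24 + 2 * x 1 * x 3 * z 22 + z 0 * x 3 ^ 2 * z 16))

/-- `y₂ / π` -/
def yy (z : ℕ → R) (x : Fin 4 → R) : R := -(z 3 * p1 z x)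

/-- `x₁ / π` -/
def xx (z : ℕ → R) (x : Fin 4 → R) : R := -(z 4 * q2 z x)

/-- The four equations. -/
def G (z : ℕ → R) (x : Fin 4 → R) : Fin 4 → R :=
  ![z 1 ^ 2 * z 2 + f1 z x + z 0 * (2 * z 1 * xx z x * yy z x + z 1 * bp z x + xx z x * p1 z x),
    z 1 * z 2 ^ 2 + f2 z x + z 0 * (2 * z 2 * xx z x * yy z x + z 2 * bq z x + yy z x * q2 z x),
    2 * z 1 * z 2 * yy z x + z 2 * q1 z x + d21 z x +
      z 0 * (z 2 * xx z x ^ 2 + xx z x * yy z x ^ 2 + xx z x * p2 z x + yy z x * bq z x),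
    2 * z 1 * z 2 * xx z x + z 1 * yy z x ^ 2 + z 1 * p2 z x + yy z x * q1 z x + d12 z x +
      z 0 * (xx z x ^ 2 * yy z x + xx z x * bp z x)]

theorem map_G (φ : R →+* S) (z : ℕ → R) (x : Fin 4 → R) (i : Fin 4) :
    φ (G z x i) = G (fun k => φ (z k)) (fun k => φ (x k)) i := by
  have h2 : φ 2 = 2 := map_ofNat φ 2
  have h3 : φ 3 = 3 := map_ofNat φ 3
  fin_cases i <;>
    simp [G, f1, f2, p1, q1, p2, q2, bp, bq, d12, d21, yy, xx, h2, h3]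

end blocks

section exp

variable {R V : Type*} [CommRing R] [AddCommGroup V] [Module R V] (c : Cb R V)

theorem f3 (w v v' : V) (x y : R) : c.f (w + x • v + y • v') =
    c.f w + x * c.D w v + x ^ 2 * c.D v w + x ^ 3 * c.f v +
      y * (c.D w v' + x * c.E w v v' + x ^ 2 * c.D v v') +
      y ^ 2 * (c.D v' w + x * c.D v' v) + y ^ 3 * c.f v' := by
  rw [c.f_add, c.f_add, c.f_smul, c.f_smul, c.smul_D, c.smul_D, c.D_smul, c.D_smul, c.D_add,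
    c.D_smul, c.add_D, c.smul_D, c.E_smul2]

theorem D3 (w v v' z : V) (x y : R) : c.D (w + x • v + y • v') z =
    c.D w z + x * c.E w v z + x ^ 2 * c.D v z + y * (c.E w v' z + x * c.E v v' z) +
      y ^ 2 * c.D v' z := by
  rw [c.add_D, c.add_D, c.smul_D, c.smul_D, c.E_smul2, c.E_smul2, c.E_add1, c.E_smul1]

theorem D3r (u w v v' : V) (x y : R) : c.D u (w + x • v + y • v') =
    c.D u w + x * c.D u v + y * c.D u v' := by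
  rw [c.D_add, c.D_add, c.D_smul, c.D_smul]

theorem E3 (w v v' u z : V) (x y : R) : c.E (w + x • v + y • v') u z =
    c.E w u z + x * c.E v u z + y * c.E v' u z := by
  rw [c.E_add1, c.E_add1, c.E_smul1, c.E_smul1]

theorem E3m (u w v v' z : V) (x y : R) : c.E u (w + x • v + y • v') z =
    c.E u w z + x * c.E u v z + y * c.E u v' z := by
  rw [c.E_add2, c.E_add2, c.E_smul2, c.E_smul2]

end exp

section jac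

open MvPolynomial

variable {F : Type*} [Field F]

/-- The system as polynomials. -/
noncomputable def Gp {R : Type*} [CommRing R] (z : ℕ → R) (i : Fin 4) : MvPolynomial (Fin 4) R :=
  G (fun k => MvPolynomial.C (z k)) MvPolynomial.X i

theorem eval_Gp {R : Type*} [CommRing R] (z : ℕ → R) (i : Fin 4) (b : Fin 4 → R) :
    eval b (Gp z i) = G z b i := by
  rw [Gp, map_G]
  simp

theorem map_Gp {R S : Type*} [CommRing R] [CommRing S] (φ : R →+* S) (z : ℕ → R) (i : Fin 4) :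
    MvPolynomial.map φ (Gp z i) = Gp (fun k => φ (z k)) i := by
  rw [Gp, map_G]
  simp [Gp]

theorem jac0 (z : ℕ → F) (hz : z 0 = 0) (b : Fin 4 → F) (h0 : b 0 = 0) :
    eval b (pderiv 0 (Gp z 0)) = z 6 ∧ eval b (pderiv 1 (Gp z 0)) = 0 ∧
    eval b (pderiv 2 (Gp z 0)) = 0 ∧ eval b (pderiv 3 (Gp z 0)) = 0 := by
  have e : Gp z 0 = MvPolynomial.C (z 1) ^ 2 * MvPolynomial.C (z 2) +
      (MvPolynomial.C (z 5) + X 0 * MvPolynomial.C (z 6) + X 0 ^ 2 * MvPolynomial.C (z 7) +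
        X 0 ^ 3 * MvPolynomial.C (z 8)) := by
    simp [Gp, G, f1, hz]
  rw [e]
  simp [pderiv_X, h0, Derivation.leibniz_pow]

theorem jac1 (z : ℕ → F) (hz : z 0 = 0) (b : Fin 4 → F) (h1 : b 1 = 0) :
    eval b (pderiv 1 (Gp z 1)) = z 10 ∧
    eval b (pderiv 2 (Gp z 1)) = 0 ∧ eval b (pderiv 3 (Gp z 1)) = 0 := by
  have e : Gp z 1 = MvPolynomial.C (z 1) * MvPolynomial.C (z 2) ^ 2 +
      (MvPolynomial.C (z 9) + X 1 * MvPolynomial.C (z 10) + X 1 ^ 2 * MvPolynomial.C (z 11) +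
        X 1 ^ 3 * MvPolynomial.C (z 12)) := by
    simp [Gp, G, f2, hz]
  rw [e]
  simp [pderiv_X, h1, Derivation.leibniz_pow]

theorem pd2 {R : Type*} [CommRing R] (i : Fin 4) : pderiv i (2 : MvPolynomial (Fin 4) R) = 0 := by
  have h := Derivation.map_natCast (pderiv (R := R) i) 2
  rwa [Nat.cast_ofNat] at h

theorem pd3 {R : Type*} [CommRing R] (i : Fin 4) : pderiv i (3 : MvPolynomial (Fin 4) R) = 0 := by
  have h := Derivation.map_natCast (pderiv (R := R) i) 3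
  rwa [Nat.cast_ofNat] at h

theorem jac2 (z : ℕ → F) (hz : z 0 = 0) (b : Fin 4 → F) (h1 : b 1 = 0) :
    eval b (pderiv 2 (Gp z 2)) = z 10 ∧ eval b (pderiv 3 (Gp z 2)) = 0 := by
  simp only [Gp, G, q1, d21, yy, p1, hz, map_zero, zero_mul, add_zero, Matrix.cons_val]
  simp [pderiv_X, h1, Derivation.leibniz_pow, pd2, pd3]

theorem jac3 (z : ℕ → F) (hz : z 0 = 0) (b : Fin 4 → F) (h0 : b 0 = 0) :
    eval b (pderiv 3 (Gp z 3)) = z 6 := by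
  simp only [Gp, G, q1, q2, p2, d12, yy, xx, p1, hz, map_zero, zero_mul, add_zero,
    Matrix.cons_val]
  simp [pderiv_X, h0, Derivation.leibniz_pow, pd2, pd3]

theorem val2 {R : Type*} [CommRing R] (z : ℕ → R) (hz : z 0 = 0) (x y : R) :
    G z ![0, 0, x, y] 2 = G z ![0, 0, 0, 0] 2 + x * z 10 := by
  simp only [G, q1, d21, yy, p1, hz, zero_mul, add_zero, Matrix.cons_val]
  ring

theorem val3 {R : Type*} [CommRing R] (z : ℕ → R) (hz : z 0 = 0) (x y : R) :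
    G z ![0, 0, x, y] 3 = G z ![0, 0, x, 0] 3 + y * z 6 := by
  simp only [G, q1, q2, p2, d12, yy, xx, p1, hz, zero_mul, add_zero, Matrix.cons_val]
  ring

theorem val0 {R : Type*} [CommRing R] (z : ℕ → R) (hz : z 0 = 0) (x y : R) :
    G z ![0, 0, x, y] 0 = z 1 ^ 2 * z 2 + z 5 := by
  simp only [G, f1, hz, zero_mul, add_zero, Matrix.cons_val]
  ring

theorem val1 {R : Type*} [CommRing R] (z : ℕ → R) (hz : z 0 = 0) (x y : R) :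
    G z ![0, 0, x, y] 1 = z 1 * z 2 ^ 2 + z 9 := by
  simp only [G, f2, hz, zero_mul, add_zero, Matrix.cons_val]
  ring

theorem det4 {R : Type*} [CommRing R] (M : Matrix (Fin 4) (Fin 4) R) (h01 : M 0 1 = 0)
    (h02 : M 0 2 = 0) (h03 : M 0 3 = 0) (h12 : M 1 2 = 0) (h13 : M 1 3 = 0) (h23 : M 2 3 = 0) :
    M.det = M 0 0 * M 1 1 * M 2 2 * M 3 3 := by
  rw [Matrix.det_of_isLowerTriangular, Fin.prod_univ_four]
  intro i j hij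
  have hij' : i < j := hij
  clear hij
  fin_cases i <;> fin_cases j <;> first
    | exact absurd hij' (by decide)
    | exact h01
    | exact h02
    | exact h03
    | exact h12
    | exact h13
    | exact h23

theorem solve {O : Type*} [CommRing O] [IsLocalRing O] [IsAdicComplete (maximalIdeal O) O]
    (z : ℕ → O) (hz : z 0 ∈ maximalIdeal O) (h6 : IsUnit (z 6)) (h10 : IsUnit (z 10))
    (hA : z 1 ^ 2 * z 2 + z 5 ∈ maximalIdeal O) (hB : z 1 * z 2 ^ 2 + z 9 ∈ maximalIdeal O) :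
    ∃ x : Fin 4 → O, ∀ i, G z x i = 0 := by
  classical
  obtain ⟨u6, hu6⟩ := h6.exists_right_inv
  obtain ⟨u10, hu10⟩ := h10.exists_right_inv
  set ρ := residue O with hρ
  have hmem : ∀ x : O, x ∈ maximalIdeal O ↔ ρ x = 0 := fun x => (residue_eq_zero_iff x).symm
  have hz0 : ρ (z 0) = 0 := (hmem _).1 hz
  set zb : ℕ → ResidueField O := fun k => ρ (z k) with hzb
  obtain ⟨b2, hb2⟩ : ∃ b2 : O, b2 = -(u10 * G z ![0, 0, 0, 0] 2) := ⟨_, rfl⟩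
  obtain ⟨b3, hb3⟩ : ∃ b3 : O, b3 = -(u6 * G z ![0, 0, b2, 0] 3) := ⟨_, rfl⟩
  have hco : ∀ x y : O, (fun k => ρ ((![0, 0, x, y] : Fin 4 → O) k)) = ![0, 0, ρ x, ρ y] := by
    intro x y
    funext k
    fin_cases k <;> simp
  have hG : ∀ (x y : O) (i : Fin 4), ρ (G z ![0, 0, x, y] i) = G zb ![0, 0, ρ x, ρ y] i := by
    intro x y i
    rw [map_G, hco]
  have hzb0 : zb 0 = 0 := hz0
  set a : Fin 4 → O := ![0, 0, b2, b3] with ha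
  have hk6 : ρ u6 * zb 6 = 1 := by rw [hzb, ← map_mul, mul_comm, hu6, map_one]
  have hk10 : ρ u10 * zb 10 = 1 := by rw [hzb, ← map_mul, mul_comm, hu10, map_one]
  have h0 : ∀ i, eval a (Gp z i) ∈ maximalIdeal O := by
    intro i
    rw [eval_Gp, hmem, ha, hG]
    fin_cases i
    · change G zb ![0, 0, ρ b2, ρ b3] 0 = 0
      rw [val0 zb hzb0]
      have := (hmem _).1 hA
      rw [map_add, map_mul, map_pow] at this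
      exact this
    · change G zb ![0, 0, ρ b2, ρ b3] 1 = 0
      rw [val1 zb hzb0]
      have := (hmem _).1 hB
      rw [map_add, map_mul, map_pow] at this
      exact this
    · change G zb ![0, 0, ρ b2, ρ b3] 2 = 0
      rw [val2 zb hzb0, hb2, map_neg, map_mul, hG, map_zero]
      linear_combination (-(G zb ![0, 0, 0, 0] 2)) * hk10
    · change G zb ![0, 0, ρ b2, ρ b3] 3 = 0
      rw [val3 zb hzb0, hb3, map_neg, map_mul, hG, map_zero]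
      linear_combination (-(G zb ![0, 0, ρ b2, 0] 3)) * hk6
  have hpd : ∀ i k, ρ (eval a (pderiv k (Gp z i))) =
      eval (fun k => ρ (a k)) (pderiv k (Gp zb i)) := by
    intro i k
    rw [MvPolynomial.eval₂_comp, ← map_Gp ρ z i, pderiv_map, MvPolynomial.eval_map]
    rfl
  set J : Matrix (Fin 4) (Fin 4) O := Matrix.of fun i k => eval a (pderiv k (Gp z i)) with hJ
  have hJ0 : ∀ i k, ρ (J i k) = eval (fun k => ρ (a k)) (pderiv k (Gp zb i)) := hpd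
  have ha0 : ρ (a 0) = 0 := by simp [ha]
  have ha1 : ρ (a 1) = 0 := by simp [ha]
  obtain ⟨j00, j01, j02, j03⟩ := jac0 zb hzb0 (fun k => ρ (a k)) ha0
  obtain ⟨j11, j12, j13⟩ := jac1 zb hzb0 (fun k => ρ (a k)) ha1
  obtain ⟨j22, j23⟩ := jac2 zb hzb0 (fun k => ρ (a k)) ha1
  have j33 := jac3 zb hzb0 (fun k => ρ (a k)) ha0
  have hdet : IsUnit J.det := by
    rw [← residue_ne_zero_iff_isUnit, ← hρ, RingHom.map_det]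
    have : (ρ.mapMatrix J).det = zb 6 * zb 10 * zb 10 * zb 6 := by
      rw [det4 (ρ.mapMatrix J) ((hJ0 0 1).trans j01) ((hJ0 0 2).trans j02) ((hJ0 0 3).trans j03)
        ((hJ0 1 2).trans j12) ((hJ0 1 3).trans j13) ((hJ0 2 3).trans j23)]
      simp only [RingHom.mapMatrix_apply, Matrix.map_apply, hJ0]
      rw [j00, j11, j22, j33]
    rw [this]
    have n6 : zb 6 ≠ 0 := fun h => by rw [h, mul_zero] at hk6; exact zero_ne_one hk6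
    have n10 : zb 10 ≠ 0 := fun h => by rw [h, mul_zero] at hk10; exact zero_ne_one hk10
    exact mul_ne_zero (mul_ne_zero (mul_ne_zero n6 n10) n10) n6
  obtain ⟨b, _, hb⟩ := Pool.Agent.Lib.MP_f80667_ag.hensel (maximalIdeal O) (Gp z) a
    (fun k j => J⁻¹ k j) h0 (by
      intro i j
      have h1 : (J * J⁻¹) i j = (1 : Matrix (Fin 4) (Fin 4) O) i j := by
        rw [Matrix.mul_nonsing_inv J hdet]
      rw [Matrix.mul_apply, Matrix.one_apply] at h1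
      have h2 : ∑ k, eval a (pderiv k (Gp z i)) * J⁻¹ k j = if i = j then 1 else 0 := h1
      rw [h2, sub_self]
      exact zero_mem _)
  exact ⟨b, fun i => by rw [← eval_Gp]; exact hb i⟩

end jac

section curve

variable {R V : Type*} [CommRing R] [AddCommGroup V] [Module R V]

/-- The values of the form and its polarizations in terms of the parameters. -/
structure Vals (c : Cb R V) (Z : ℕ → R) (P Q w₁ a₁ w₂ a₂ : V) : Prop where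
  e5 : c.f w₁ = Z 0 * Z 5
  e6 : c.D w₁ a₁ = Z 0 * Z 6
  e7 : c.D a₁ w₁ = Z 0 * Z 7
  e8 : c.f a₁ = Z 0 * Z 8
  e9 : c.f w₂ = Z 0 ^ 2 * Z 9
  e10 : c.D w₂ a₂ = Z 0 ^ 2 * Z 10
  e11 : c.D a₂ w₂ = Z 0 ^ 2 * Z 11
  e12 : c.f a₂ = Z 0 ^ 2 * Z 12
  e13 : c.D w₁ w₂ = Z 0 ^ 2 * Z 13
  e14 : c.D w₁ a₂ = Z 0 ^ 2 * Z 14
  e15 : c.D a₁ w₂ = Z 0 ^ 2 * Z 15
  e16 : c.D a₁ a₂ = Z 0 ^ 2 * Z 16
  e17 : c.E w₁ a₁ w₂ = Z 0 ^ 2 * Z 17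
  e18 : c.E w₁ a₁ a₂ = Z 0 ^ 2 * Z 18
  e19 : c.D w₂ w₁ = Z 0 ^ 2 * Z 19
  e20 : c.D w₂ a₁ = Z 0 ^ 2 * Z 20
  e21 : c.D a₂ w₁ = Z 0 ^ 2 * Z 21
  e22 : c.D a₂ a₁ = Z 0 ^ 2 * Z 22
  e23 : c.E w₂ a₂ w₁ = Z 0 ^ 2 * Z 23
  e24 : c.E w₂ a₂ a₁ = Z 0 ^ 2 * Z 24
  e25 : c.D w₁ P = Z 0 * Z 25
  e26 : c.E w₁ a₁ P = Z 0 * Z 26
  e27 : c.D a₁ P = Z 0 * Z 27
  e28 : c.D w₂ P = Z 0 ^ 2 * Z 28
  e29 : c.E w₂ a₂ P = Z 0 ^ 2 * Z 29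
  e30 : c.D a₂ P = Z 0 ^ 2 * Z 30
  e31 : c.E w₁ w₂ P = Z 0 ^ 2 * Z 31
  e32 : c.E w₁ a₂ P = Z 0 ^ 2 * Z 32
  e33 : c.E a₁ w₂ P = Z 0 ^ 2 * Z 33
  e34 : c.E a₁ a₂ P = Z 0 ^ 2 * Z 34
  e35 : c.D w₁ Q = Z 0 * Z 35
  e36 : c.E w₁ a₁ Q = Z 0 * Z 36
  e37 : c.D a₁ Q = Z 0 * Z 37
  e38 : c.D w₂ Q = Z 0 ^ 2 * Z 38
  e39 : c.E w₂ a₂ Q = Z 0 ^ 2 * Z 39
  e40 : c.D a₂ Q = Z 0 ^ 2 * Z 40
  e41 : c.E w₁ w₂ Q = Z 0 ^ 2 * Z 41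
  e42 : c.E w₁ a₂ Q = Z 0 ^ 2 * Z 42
  e43 : c.E a₁ w₂ Q = Z 0 ^ 2 * Z 43
  e44 : c.E a₁ a₂ Q = Z 0 ^ 2 * Z 44

variable {c : Cb R V} {Z : ℕ → R} {P Q w₁ a₁ w₂ a₂ : V}

theorem Vals.F1 (h : Vals c Z P Q w₁ a₁ w₂ a₂) (X : Fin 4 → R) :
    c.f (w₁ + X 0 • a₁ + X 2 • a₂) = Z 0 * f1 Z X := by
  rw [f3, h.e5, h.e6, h.e7, h.e8, h.e14, h.e18, h.e16, h.e21, h.e22, h.e12, f1]
  ring

theorem Vals.F2 (h : Vals c Z P Q w₁ a₁ w₂ a₂) (X : Fin 4 → R) :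
    c.f (w₂ + X 1 • a₂ + (Z 0 * X 3) • a₁) = Z 0 ^ 2 * f2 Z X := by
  rw [f3, h.e9, h.e10, h.e11, h.e12, h.e20, h.e24, h.e22, h.e15, h.e16, h.e8, f2]
  ring

theorem Vals.P1 (h : Vals c Z P Q w₁ a₁ w₂ a₂) (X : Fin 4 → R) :
    c.D (w₁ + X 0 • a₁ + X 2 • a₂) P = Z 0 * p1 Z X := by
  rw [D3, h.e25, h.e26, h.e27, h.e32, h.e34, h.e30, p1]
  ring

theorem Vals.P2 (h : Vals c Z P Q w₁ a₁ w₂ a₂) (X : Fin 4 → R) :
    c.D (w₂ + X 1 • a₂ + (Z 0 * X 3) • a₁) P = Z 0 ^ 2 * p2 Z X := by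
  rw [D3, h.e28, h.e29, h.e30, c.E_comm w₂ a₁, c.E_comm a₂ a₁, h.e33, h.e34,
    h.e27, p2]
  ring

theorem Vals.BP (h : Vals c Z P Q w₁ a₁ w₂ a₂) (X : Fin 4 → R) :
    c.E (w₁ + X 0 • a₁ + X 2 • a₂) (w₂ + X 1 • a₂ + (Z 0 * X 3) • a₁) P =
      Z 0 ^ 2 * bp Z X := by
  rw [E3, E3m, E3m, E3m, h.e31, h.e32, h.e26, h.e33, h.e34, c.E_self a₁,
    h.e27, c.E_comm a₂ w₂, h.e29, c.E_self a₂, h.e30, c.E_comm a₂ a₁, h.e34, bp]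
  ring

theorem Vals.Q1 (h : Vals c Z P Q w₁ a₁ w₂ a₂) (X : Fin 4 → R) :
    c.D (w₁ + X 0 • a₁ + X 2 • a₂) Q = Z 0 * q1 Z X := by
  rw [D3, h.e35, h.e36, h.e37, h.e42, h.e44, h.e40, q1]
  ring

theorem Vals.Q2 (h : Vals c Z P Q w₁ a₁ w₂ a₂) (X : Fin 4 → R) :
    c.D (w₂ + X 1 • a₂ + (Z 0 * X 3) • a₁) Q = Z 0 ^ 2 * q2 Z X := by
  rw [D3, h.e38, h.e39, h.e40, c.E_comm w₂ a₁, c.E_comm a₂ a₁, h.e43, h.e44,
    h.e37, q2]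
  ring

theorem Vals.BQ (h : Vals c Z P Q w₁ a₁ w₂ a₂) (X : Fin 4 → R) :
    c.E (w₁ + X 0 • a₁ + X 2 • a₂) (w₂ + X 1 • a₂ + (Z 0 * X 3) • a₁) Q =
      Z 0 ^ 2 * bq Z X := by
  rw [E3, E3m, E3m, E3m, h.e41, h.e42, h.e36, h.e43, h.e44, c.E_self a₁,
    h.e37, c.E_comm a₂ w₂, h.e39, c.E_self a₂, h.e40, c.E_comm a₂ a₁, h.e44, bq]
  ring

theorem Vals.DD (h : Vals c Z P Q w₁ a₁ w₂ a₂) (X : Fin 4 → R) :
    c.D (w₁ + X 0 • a₁ + X 2 • a₂) (w₂ + X 1 • a₂ + (Z 0 * X 3) • a₁) =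
      Z 0 ^ 2 * d12 Z X := by
  have k1 : c.E w₁ a₂ w₂ = c.E w₂ a₂ w₁ := by rw [c.E_comm', c.E_comm, c.E_comm']
  have k2 : c.E a₁ a₂ w₂ = c.E w₂ a₂ a₁ := by rw [c.E_comm', c.E_comm, c.E_comm']
  have k3 : c.E w₁ a₂ a₂ = 2 * c.D a₂ w₁ := by rw [← c.E_self, c.E_comm, c.E_comm']
  have k4 : c.E a₁ a₂ a₂ = 2 * c.D a₂ a₁ := by rw [← c.E_self, c.E_comm, c.E_comm']
  have k5 : c.E w₁ a₁ a₁ = 2 * c.D a₁ w₁ := by rw [← c.E_self, c.E_comm, c.E_comm']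
  have k6 : c.E w₁ a₂ a₁ = c.E w₁ a₁ a₂ := c.E_comm' _ _ _
  have k7 : c.E a₁ a₂ a₁ = 2 * c.D a₁ a₂ := by rw [← c.E_self, c.E_comm']
  rw [D3r, D3, D3, D3, k1, k2, k3, k4, k5, k6, k7, c.D_self a₂, c.D_self a₁, h.e13, h.e17, h.e15,
    h.e23, h.e24, h.e11, h.e14, h.e18, h.e16, h.e21, h.e22, h.e12, h.e6, h.e7, h.e8, d12]
  ring

theorem Vals.DD' (h : Vals c Z P Q w₁ a₁ w₂ a₂) (X : Fin 4 → R) :
    c.D (w₂ + X 1 • a₂ + (Z 0 * X 3) • a₁) (w₁ + X 0 • a₁ + X 2 • a₂) =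
      Z 0 ^ 2 * d21 Z X := by
  have k1 : c.E w₂ a₁ w₁ = c.E w₁ a₁ w₂ := by rw [c.E_comm', c.E_comm, c.E_comm']
  have k2 : c.E a₂ a₁ w₁ = c.E w₁ a₁ a₂ := by rw [c.E_comm', c.E_comm, c.E_comm']
  have k3 : c.E w₂ a₁ a₁ = 2 * c.D a₁ w₂ := by rw [← c.E_self, c.E_comm, c.E_comm']
  have k4 : c.E a₂ a₁ a₁ = 2 * c.D a₁ a₂ := by rw [← c.E_self, c.E_comm, c.E_comm']
  have k5 : c.E w₂ a₂ a₂ = 2 * c.D a₂ w₂ := by rw [← c.E_self, c.E_comm, c.E_comm']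
  have k6 : c.E w₂ a₁ a₂ = c.E w₂ a₂ a₁ := c.E_comm' _ _ _
  have k7 : c.E a₂ a₁ a₂ = 2 * c.D a₂ a₁ := by rw [← c.E_self, c.E_comm']
  rw [D3r, D3, D3, D3, k1, k2, k3, k4, k5, k6, k7, c.D_self a₂, c.D_self a₁, h.e19, h.e23, h.e21,
    h.e17, h.e18, h.e7, h.e20, h.e24, h.e22, h.e15, h.e16, h.e8, h.e10, h.e11, h.e12, d21]
  ring

/-- The curve. -/
def dd (Z : ℕ → R) (X : Fin 4 → R) (P Q w₁ a₁ w₂ a₂ : V) (i : ℕ) : V :=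
  if i = 0 then (Z 0 * Z 2) • Q else
  if i = 1 then (Z 0 * yy Z X) • Q + (w₂ + X 1 • a₂ + (Z 0 * X 3) • a₁) else
  if i = 2 then (Z 0 * xx Z X) • P + (w₁ + X 0 • a₁ + X 2 • a₂) else Z 1 • P

theorem Vals.curve (h : Vals c Z P Q w₁ a₁ w₂ a₂) (X : Fin 4 → R) (W : Submodule R V)
    (hP : c.f P = 0) (hQ : c.f Q = 0) (hPQ : c.D P Q = 1) (hQP : c.D Q P = 1)
    (hWP : ∀ w ∈ W, c.D P w = 0) (hWQ : ∀ w ∈ W, c.D Q w = 0) (hWE : ∀ w ∈ W, c.E P Q w = 0)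
    (hw₁ : w₁ ∈ W) (ha₁ : a₁ ∈ W) (hw₂ : w₂ ∈ W) (ha₂ : a₂ ∈ W) (h13 : Z 1 * Z 3 = 1)
    (h24 : Z 2 * Z 4 = 1) (hG : ∀ i, G Z X i = 0) (s : R) :
    c.f (∑ i ∈ range 4, s ^ i • dd Z X P Q w₁ a₁ w₂ a₂ i) = 0 := by
  have hu₁ : w₁ + X 0 • a₁ + X 2 • a₂ ∈ W :=
    W.add_mem (W.add_mem hw₁ (W.smul_mem _ ha₁)) (W.smul_mem _ ha₂)
  have hu₂ : w₂ + X 1 • a₂ + (Z 0 * X 3) • a₁ ∈ W :=
    W.add_mem (W.add_mem hw₂ (W.smul_mem _ ha₂)) (W.smul_mem _ ha₁)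
  have F1 := h.F1 X
  have F2 := h.F2 X
  have P1 := h.P1 X
  have P2 := h.P2 X
  have Q1 := h.Q1 X
  have Q2 := h.Q2 X
  have BP := h.BP X
  have BQ := h.BQ X
  have DD := h.DD X
  have DD' := h.DD' X
  have e : ∑ i ∈ range 4, s ^ i • dd Z X P Q w₁ a₁ w₂ a₂ i =
      (Z 1 * s ^ 3 + Z 0 * xx Z X * s ^ 2) • P + (Z 0 * yy Z X * s + Z 0 * Z 2) • Q +
        (s ^ 2 • (w₁ + X 0 • a₁ + X 2 • a₂) + s • (w₂ + X 1 • a₂ + (Z 0 * X 3) • a₁)) := by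
    rw [Finset.sum_range_succ, Finset.sum_range_succ, Finset.sum_range_succ,
      Finset.sum_range_succ, Finset.sum_range_zero]
    simp only [dd, if_true, one_ne_zero, if_false, OfNat.ofNat_ne_zero, OfNat.ofNat_ne_one]
    norm_num
    module
  generalize w₁ + X 0 • a₁ + X 2 • a₂ = u₁ at *
  generalize w₂ + X 1 • a₂ + (Z 0 * X 3) • a₁ = u₂ at *
  have hu : s ^ 2 • u₁ + s • u₂ ∈ W := W.add_mem (W.smul_mem _ hu₁) (W.smul_mem _ hu₂)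
  rw [e, c.f_plane _ _ P Q _ hP hQ hPQ hQP (hWP _ hu) (hWQ _ hu) (hWE _ hu), c.f_lin, c.add_D,
    c.add_D, c.smul_D, c.smul_D, c.smul_D, c.smul_D, c.E_smul1, c.E_smul1, c.E_smul2, c.E_smul2,
    F1, F2, P1, P2, Q1, Q2, BP, BQ, DD, DD']
  have hY : Z 1 * yy Z X + p1 Z X = 0 := by
    rw [yy]
    linear_combination (-(p1 Z X)) * h13
  have hX : Z 2 * xx Z X + q2 Z X = 0 := by
    rw [xx]
    linear_combination (-(q2 Z X)) * h24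
  have g0 := hG 0
  have g1 := hG 1
  have g2 := hG 2
  have g3 := hG 3
  simp only [G, Matrix.cons_val] at g0 g1 g2 g3
  linear_combination (s ^ 6 * Z 0) * g0 + (s ^ 3 * Z 0 ^ 2) * g1 + (s ^ 4 * Z 0 ^ 2) * g2 +
    (s ^ 5 * Z 0 ^ 2) * g3 + (s ^ 7 * Z 1 * Z 0) * hY + (s ^ 2 * Z 2 * Z 0 ^ 3) * hX

end curve

end Tw3

variable {O K V : Type*} [CommRing O] [IsDomain O] [IsDiscreteValuationRing O]
  [IsAdicComplete (maximalIdeal O) O] [Field K] [Algebra O K] [IsFractionRing O K]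
  [AddCommGroup V] [Module K V] {π : O}

/-- Twisted cubics, the case where `E(w₁, w₂, P)`, `E(w₁, w₂, Q)` are divisible by `π²`
(used in residue characteristic `3`). The curve is the same with `u₁ = w₁ + η₁ a₁ + ξ₂ a₂`,
`u₂ = w₂ + η₂ a₂ + π ξ₁ a₁`, fixed units `α = -f(w₁) / (π m)`, `β = -f(w₂) / (π² m)`,
`x₁ = -q(u₂) / (π β)`, `y₂ = -p(u₁) / α`; the unknowns are `η₁, η₂, ξ₁, ξ₂ ∈ O` (first approximation
`0` for `η₁, η₂`); modulo `π` the four remaining equations have the diagonal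
`D(w₁; a₁) / π`, `D(w₂; a₂) / π²`, `D(w₁; a₁) / π`, `D(w₂; a₂) / π²`. All bounds follow from
`An.D_le`, `An.E_le` on `W` and `hp1`, `hp2` (which give bounds for `E(u, v, P)` too). -/
theorem tw3 (hπ : Irreducible π) (c : Cb K V) (W : Submodule K V) (hW : An c W) (P Q : V)
    (hP : c.f P = 0) (hQ : c.f Q = 0) (hPQ : c.D P Q = 1) (hQP : c.D Q P = 1)
    (hWP : ∀ w ∈ W, c.D P w = 0) (hWQ : ∀ w ∈ W, c.D Q w = 0) (hWE : ∀ w ∈ W, c.E P Q w = 0)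
    (hp1 : ∀ w ∈ W, Vg π 1 (c.f w) → Vg π 1 (c.D w P) ∧ Vg π 1 (c.D w Q))
    (hp2 : ∀ w ∈ W, Vg π 2 (c.f w) → Vg π 2 (c.D w P) ∧ Vg π 2 (c.D w Q))
    (w₁ a₁ w₂ a₂ : V) (hw₁ : w₁ ∈ W) (ha₁ : a₁ ∈ W) (hw₂ : w₂ ∈ W) (ha₂ : a₂ ∈ W)
    (vw₁ : Vg π 1 (c.f w₁)) (va₁ : Vg π 1 (c.f a₁)) (vw₂ : Vg π 2 (c.f w₂))
    (va₂ : Vg π 2 (c.f a₂))
    (hs : ∀ u v : V, (u = w₁ ∨ u = a₁) → (v = w₂ ∨ v = a₂) →
      Vg π 2 (c.E u v P) ∧ Vg π 2 (c.E u v Q))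
    (m : O) (hm : IsUnit m)
    (hm3 : Vg π 4 (algebraMap O K (π ^ 3 * m ^ 3) - c.f w₁ * c.f w₂))
    (hd₁ : ¬ Vg π 2 (c.D w₁ a₁)) (hd₂ : ¬ Vg π 3 (c.D w₂ a₂)) :
    ∃ d : ℕ → V, (∃ a : K, a ≠ 0 ∧ d 0 = a • Q) ∧ (∃ a : K, a ≠ 0 ∧ d 3 = a • P) ∧
      ∀ s : K, c.f (∑ i ∈ range 4, s ^ i • d i) = 0 := by
  have A1 : ∀ x : K, Vg π 1 x → ∃ a : O, x = algebraMap O K π * algebraMap O K a := by
    rintro x ⟨a, ha⟩
    exact ⟨a, by rw [ha, zpow_one]⟩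
  have A2 : ∀ x : K, Vg π 2 x → ∃ a : O, x = algebraMap O K π ^ 2 * algebraMap O K a := by
    rintro x ⟨a, ha⟩
    exact ⟨a, by rw [ha, zpow_ofNat]⟩
  have EP : ∀ u v R : V, c.E u v R = c.D (u + v) R + -c.D u R + -c.D v R := by
    intro u v R
    rw [c.add_D]
    ring
  have s1 := hp1 _ (W.add_mem hw₁ ha₁) (hW.f_add hπ hw₁ ha₁ vw₁ va₁)
  have s2 := hp2 _ (W.add_mem hw₂ ha₂) (hW.f_add hπ hw₂ ha₂ vw₂ va₂)
  have v26 : Vg π 1 (c.E w₁ a₁ P) := by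
    rw [EP]
    exact (s1.1.add (hp1 _ hw₁ vw₁).1.neg).add (hp1 _ ha₁ va₁).1.neg
  have v36 : Vg π 1 (c.E w₁ a₁ Q) := by
    rw [EP]
    exact (s1.2.add (hp1 _ hw₁ vw₁).2.neg).add (hp1 _ ha₁ va₁).2.neg
  have v29 : Vg π 2 (c.E w₂ a₂ P) := by
    rw [EP]
    exact (s2.1.add (hp2 _ hw₂ vw₂).1.neg).add (hp2 _ ha₂ va₂).1.neg
  have v39 : Vg π 2 (c.E w₂ a₂ Q) := by
    rw [EP]
    exact (s2.2.add (hp2 _ hw₂ vw₂).2.neg).add (hp2 _ ha₂ va₂).2.neg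
  have v6 : Vg π 1 (c.D w₁ a₁) := hW.D_le hπ hw₁ ha₁ vw₁ va₁ (by norm_num)
  have v10 : Vg π 2 (c.D w₂ a₂) := hW.D_le hπ hw₂ ha₂ vw₂ va₂ (by norm_num)
  obtain ⟨r5, h5⟩ := A1 (c.f w₁) (vw₁)
  obtain ⟨r6, h6⟩ := A1 (c.D w₁ a₁) (v6)
  obtain ⟨r7, h7⟩ := A1 (c.D a₁ w₁) (hW.D_le hπ ha₁ hw₁ va₁ vw₁ (by norm_num))
  obtain ⟨r8, h8⟩ := A1 (c.f a₁) (va₁)
  obtain ⟨r9, h9⟩ := A2 (c.f w₂) (vw₂)
  obtain ⟨r10, h10⟩ := A2 (c.D w₂ a₂) (v10)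
  obtain ⟨r11, h11⟩ := A2 (c.D a₂ w₂) (hW.D_le hπ ha₂ hw₂ va₂ vw₂ (by norm_num))
  obtain ⟨r12, h12⟩ := A2 (c.f a₂) (va₂)
  obtain ⟨r13, h13⟩ := A2 (c.D w₁ w₂) (hW.D_le hπ hw₁ hw₂ vw₁ vw₂ (by norm_num))
  obtain ⟨r14, h14⟩ := A2 (c.D w₁ a₂) (hW.D_le hπ hw₁ ha₂ vw₁ va₂ (by norm_num))
  obtain ⟨r15, h15⟩ := A2 (c.D a₁ w₂) (hW.D_le hπ ha₁ hw₂ va₁ vw₂ (by norm_num))
  obtain ⟨r16, h16⟩ := A2 (c.D a₁ a₂) (hW.D_le hπ ha₁ ha₂ va₁ va₂ (by norm_num))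
  obtain ⟨r17, h17⟩ := A2 (c.E w₁ a₁ w₂) (hW.E_le hπ hw₁ ha₁ hw₂ vw₁ va₁ vw₂ (by norm_num))
  obtain ⟨r18, h18⟩ := A2 (c.E w₁ a₁ a₂) (hW.E_le hπ hw₁ ha₁ ha₂ vw₁ va₁ va₂ (by norm_num))
  obtain ⟨r19, h19⟩ := A2 (c.D w₂ w₁) (hW.D_le hπ hw₂ hw₁ vw₂ vw₁ (by norm_num))
  obtain ⟨r20, h20⟩ := A2 (c.D w₂ a₁) (hW.D_le hπ hw₂ ha₁ vw₂ va₁ (by norm_num))
  obtain ⟨r21, h21⟩ := A2 (c.D a₂ w₁) (hW.D_le hπ ha₂ hw₁ va₂ vw₁ (by norm_num))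
  obtain ⟨r22, h22⟩ := A2 (c.D a₂ a₁) (hW.D_le hπ ha₂ ha₁ va₂ va₁ (by norm_num))
  obtain ⟨r23, h23⟩ := A2 (c.E w₂ a₂ w₁) (hW.E_le hπ hw₂ ha₂ hw₁ vw₂ va₂ vw₁ (by norm_num))
  obtain ⟨r24, h24⟩ := A2 (c.E w₂ a₂ a₁) (hW.E_le hπ hw₂ ha₂ ha₁ vw₂ va₂ va₁ (by norm_num))
  obtain ⟨r25, h25⟩ := A1 (c.D w₁ P) ((hp1 _ hw₁ vw₁).1)
  obtain ⟨r26, h26⟩ := A1 (c.E w₁ a₁ P) (v26)
  obtain ⟨r27, h27⟩ := A1 (c.D a₁ P) ((hp1 _ ha₁ va₁).1)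
  obtain ⟨r28, h28⟩ := A2 (c.D w₂ P) ((hp2 _ hw₂ vw₂).1)
  obtain ⟨r29, h29⟩ := A2 (c.E w₂ a₂ P) (v29)
  obtain ⟨r30, h30⟩ := A2 (c.D a₂ P) ((hp2 _ ha₂ va₂).1)
  obtain ⟨r31, h31⟩ := A2 (c.E w₁ w₂ P) ((hs w₁ w₂ (Or.inl rfl) (Or.inl rfl)).1)
  obtain ⟨r32, h32⟩ := A2 (c.E w₁ a₂ P) ((hs w₁ a₂ (Or.inl rfl) (Or.inr rfl)).1)
  obtain ⟨r33, h33⟩ := A2 (c.E a₁ w₂ P) ((hs a₁ w₂ (Or.inr rfl) (Or.inl rfl)).1)
  obtain ⟨r34, h34⟩ := A2 (c.E a₁ a₂ P) ((hs a₁ a₂ (Or.inr rfl) (Or.inr rfl)).1)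
  obtain ⟨r35, h35⟩ := A1 (c.D w₁ Q) ((hp1 _ hw₁ vw₁).2)
  obtain ⟨r36, h36⟩ := A1 (c.E w₁ a₁ Q) (v36)
  obtain ⟨r37, h37⟩ := A1 (c.D a₁ Q) ((hp1 _ ha₁ va₁).2)
  obtain ⟨r38, h38⟩ := A2 (c.D w₂ Q) ((hp2 _ hw₂ vw₂).2)
  obtain ⟨r39, h39⟩ := A2 (c.E w₂ a₂ Q) (v39)
  obtain ⟨r40, h40⟩ := A2 (c.D a₂ Q) ((hp2 _ ha₂ va₂).2)
  obtain ⟨r41, h41⟩ := A2 (c.E w₁ w₂ Q) ((hs w₁ w₂ (Or.inl rfl) (Or.inl rfl)).2)
  obtain ⟨r42, h42⟩ := A2 (c.E w₁ a₂ Q) ((hs w₁ a₂ (Or.inl rfl) (Or.inr rfl)).2)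
  obtain ⟨r43, h43⟩ := A2 (c.E a₁ w₂ Q) ((hs a₁ w₂ (Or.inr rfl) (Or.inl rfl)).2)
  obtain ⟨r44, h44⟩ := A2 (c.E a₁ a₂ Q) ((hs a₁ a₂ (Or.inr rfl) (Or.inr rfl)).2)
  have hp0 : algebraMap O K π ≠ 0 := pi_ne hπ
  have hinj : Function.Injective (algebraMap O K) := IsFractionRing.injective O K
  have hmax : ∀ x : O, x ∈ maximalIdeal O ↔ ∃ y, x = π * y := by
    intro x
    rw [hπ.maximalIdeal_eq, Ideal.mem_span_singleton]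
    rfl
  have hπm : π ∈ maximalIdeal O := (hmax _).2 ⟨1, (mul_one _).symm⟩
  have u6 : IsUnit r6 := by
    by_contra hu
    obtain ⟨y, hy⟩ := (hmax r6).1 ((mem_maximalIdeal _).2 hu)
    refine hd₁ ⟨y, ?_⟩
    rw [h6, hy, map_mul]
    rw [zpow_ofNat]
    ring
  have u10 : IsUnit r10 := by
    by_contra hu
    obtain ⟨y, hy⟩ := (hmax r10).1 ((mem_maximalIdeal _).2 hu)
    refine hd₂ ⟨y, ?_⟩
    rw [h10, hy, map_mul]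
    rw [zpow_ofNat]
    ring
  obtain ⟨e, he⟩ := hm3
  have hAB : m ^ 3 - r5 * r9 = π * e := by
    apply hinj
    apply mul_left_cancel₀ (pow_ne_zero 3 hp0)
    have he' : algebraMap O K (π ^ 3 * m ^ 3) - c.f w₁ * c.f w₂ =
      algebraMap O K π ^ 4 * algebraMap O K e := by rw [he, zpow_ofNat]
    rw [h5, h9, map_mul, map_pow, map_pow] at he'
    rw [map_sub, map_mul, map_mul, map_pow]
    linear_combination he'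
  have hu : IsUnit (r5 * r9) := by
    by_contra hu
    have h1 : r5 * r9 ∈ maximalIdeal O := (mem_maximalIdeal _).2 hu
    have h2 : m ^ 3 ∈ maximalIdeal O := by
      have : m ^ 3 = r5 * r9 + π * e := by linear_combination hAB
      rw [this]
      exact add_mem h1 (Ideal.mul_mem_right _ _ hπm)
    exact (mem_maximalIdeal _).1 h2 (hm.pow 3)
  obtain ⟨mi, hmi⟩ := hm.exists_right_inv
  obtain ⟨Ai, hAi⟩ := (isUnit_of_mul_isUnit_left hu).exists_right_inv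
  obtain ⟨Bi, hBi⟩ := (isUnit_of_mul_isUnit_right hu).exists_right_inv
  obtain ⟨z, hz⟩ : ∃ z : ℕ → O, z = fun k => List.getD [π, -(r5 * mi), -(r9 * mi), -(m * Ai),
    -(m * Bi), r5, r6, r7, r8, r9, r10, r11, r12, r13, r14, r15, r16, r17, r18, r19, r20, r21, r22, r23, r24, r25, r26, r27, r28, r29, r30, r31, r32, r33, r34, r35, r36, r37, r38, r39, r40, r41, r42, r43, r44] k 0 := ⟨_, rfl⟩
  have z0 : z 0 = π := by rw [hz]; rfl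
  have z1 : z 1 = -(r5 * mi) := by rw [hz]; rfl
  have z2 : z 2 = -(r9 * mi) := by rw [hz]; rfl
  have z3 : z 3 = -(m * Ai) := by rw [hz]; rfl
  have z4 : z 4 = -(m * Bi) := by rw [hz]; rfl
  have z5 : z 5 = r5 := by rw [hz]; rfl
  have z6 : z 6 = r6 := by rw [hz]; rfl
  have z9 : z 9 = r9 := by rw [hz]; rfl
  have z10 : z 10 = r10 := by rw [hz]; rfl
  have hm3i : m ^ 3 * mi ^ 3 = 1 := by rw [← mul_pow, hmi, one_pow]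
  obtain ⟨x, hx⟩ := Tw3.solve z (by rw [z0]; exact hπm) (by rw [z6]; exact u6)
    (by rw [z10]; exact u10)
    (by
      rw [hmax, z1, z2, z5]
      refine ⟨r5 * e * mi ^ 3, ?_⟩
      linear_combination (r5 * mi ^ 3) * hAB - r5 * hm3i)
    (by
      rw [hmax, z1, z2, z9]
      refine ⟨r9 * e * mi ^ 3, ?_⟩
      linear_combination (r9 * mi ^ 3) * hAB - r9 * hm3i)
  set Z : ℕ → K := fun k => algebraMap O K (z k) with hZ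
  set X : Fin 4 → K := fun k => algebraMap O K (x k) with hX
  have hv : Tw3.Vals c Z P Q w₁ a₁ w₂ a₂ := by
    rw [hZ, hz]
    exact ⟨h5, h6, h7, h8, h9, h10, h11, h12, h13, h14, h15, h16, h17, h18, h19, h20, h21, h22, h23, h24, h25, h26, h27, h28, h29, h30, h31, h32, h33, h34, h35, h36, h37, h38, h39, h40, h41, h42, h43, h44⟩
  have h13 : Z 1 * Z 3 = 1 := by
    rw [hZ]
    simp only
    rw [← map_mul, z1, z3, ← map_one (algebraMap O K)]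
    congr 1
    linear_combination (r5 * Ai) * hmi + hAi
  have h24 : Z 2 * Z 4 = 1 := by
    rw [hZ]
    simp only
    rw [← map_mul, z2, z4, ← map_one (algebraMap O K)]
    congr 1
    linear_combination (r9 * Bi) * hmi + hBi
  have hGK : ∀ i, Tw3.G Z X i = 0 := by
    intro i
    rw [hZ, hX, ← Tw3.map_G, hx, map_zero]
  refine ⟨Tw3.dd Z X P Q w₁ a₁ w₂ a₂, ⟨Z 0 * Z 2, mul_ne_zero ?_ ?_, rfl⟩, ⟨Z 1, ?_, rfl⟩,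
    fun s => hv.curve X W hP hQ hPQ hQP hWP hWQ hWE hw₁ ha₁ hw₂ ha₂ h13 h24 hGK s⟩
  · rw [hZ]
    simp only
    rw [z0]
    exact hp0
  · intro h0
    rw [h0, zero_mul] at h24
    exact zero_ne_one h24
  · intro h0
    rw [h0, zero_mul] at h13
    exact zero_ne_one h13

end Cu
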