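import Pool.Agent.Lib.MP_f80667_ag.Cu.Plane
import Pool.Agent.Lib.MP_f80667_ag.Cu.Root
import Pool.Agent.Lib.MP_f80667_ag.Cu.Tens
import Pool.Agent.Lib.MP_f80667_ag.Cu.Tw
import Pool.Agent.Lib.MP_f80667_ag.Cu.Tw3

/-! Preparations for the assembly. -/

open Polynomial IsLocalRing Pool.Agent.Lib.MP_f80667_ag.LF Finset

namespace Cu

universe u

section red

variable {O K V : Type*} [CommRing O] [IsDomain O] [IsDiscreteValuationRing O]
  [IsAdicComplete (maximalIdeal O) O] [Field K] [Algebra O K] [IsFractionRing O K]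
  [AddCommGroup V] [Module K V] {c : Cb K V} {W : Submodule K V} {π : O}

theorem exists_tens (h : An c W) (hπ : Irreducible π) {m : ℤ} {d : ℕ} {e : Fin d → V}
    (he : ∀ i, e i ∈ W) (hv : ∀ i, Vg π m (c.f (e i))) :
    ∃ T : Tn O d, ∀ i j l, c.tens e i j l = algebraMap O K π ^ m * algebraMap O K (T i j l) := by
  have h1 : ∀ i j l, Vg π m (c.tens e i j l) := by
    intro i j l
    unfold Cb.tens
    split_ifs
    · exact hv i
    · exact h.D_le hπ (he i) (he l) (hv i) (hv l) (by omega)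
    · exact h.E_le hπ (he i) (he j) (he l) (hv i) (hv j) (hv l) (by omega)
    · exact Vg.zero m
  choose T hT using h1
  exact ⟨T, hT⟩

omit [IsDomain O] [IsDiscreteValuationRing O] [IsAdicComplete (maximalIdeal O) O]
  [IsFractionRing O K] in
theorem f_of_tens {m : ℤ} {d : ℕ} {e : Fin d → V} {T : Tn O d}
    (hT : ∀ i j l, c.tens e i j l = algebraMap O K π ^ m * algebraMap O K (T i j l))
    (x : Fin d → K) : c.f (∑ i, x i • e i) =
      algebraMap O K π ^ m * (cb (T.map (algebraMap O K))).f x := by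
  rw [c.f_sum e x]
  simp only [cb, Tn.map, hT, Finset.mul_sum]
  refine sum_congr rfl fun i _ => sum_congr rfl fun j _ => sum_congr rfl fun l _ => ?_
  ring

omit [IsDomain O] [IsDiscreteValuationRing O] [IsAdicComplete (maximalIdeal O) O]
  [IsFractionRing O K] in
theorem D_of_tens {m : ℤ} {d : ℕ} {e : Fin d → V} {T : Tn O d}
    (hT : ∀ i j l, c.tens e i j l = algebraMap O K π ^ m * algebraMap O K (T i j l))
    (x y : Fin d → K) : c.D (∑ i, x i • e i) (∑ i, y i • e i) =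
      algebraMap O K π ^ m * (cb (T.map (algebraMap O K))).D x y := by
  rw [c.D_sum e x y]
  simp only [cb, Tn.map, hT, Finset.mul_sum]
  refine sum_congr rfl fun i _ => sum_congr rfl fun j _ => sum_congr rfl fun l _ => ?_
  ring

omit [IsAdicComplete (maximalIdeal O) O] in
theorem Sys.vg {m : ℤ} {d : ℕ} {e : Fin d → V} (hs : Sys c π m e) (i : Fin d) :
    Vg π m (c.f (e i)) ∧ ¬ Vg π (m + 1) (c.f (e i)) := by
  classical
  have h := hs (Pi.single i 1) ⟨i, by simp⟩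
  have h1 : ∑ j, algebraMap O K ((Pi.single i 1 : Fin d → O) j) • e j = e i := by
    rw [Finset.sum_eq_single i]
    · simp
    · intro j _ hj
      simp [Pi.single_eq_of_ne hj]
    · intro hh
      exact absurd (Finset.mem_univ _) hh
  rw [h1] at h
  exact h

end red

variable {k : Type u} [NontriviallyNormedField k] [IsUltrametricDist k] [ProperSpace k]
  [CharZero k] {n : ℕ} {T : Tn k n} {G : Type u} [AddCommGroup G] {C : Th k T G}
  {M L : Type u} [Field M] [Field L] [Algebra k M] [Algebra k L]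
  [Algebra M L] [IsScalarTower k M L] [FiniteDimensional k M] [FiniteDimensional k L]
  {κ : M} {P Q : Fin n → M}

/-- A curve of degree `3` through `P` and `Q` (from `tw` or `tw3` for `κ⁻¹ f`) is impossible. -/
theorem NP.no_curve (h : NP C M κ P Q) (d : ℕ → Fin n → M) (h0 : ∃ a : M, a ≠ 0 ∧ d 0 = a • Q)
    (h3 : ∃ a : M, a ≠ 0 ∧ d 3 = a • P)
    (hd : ∀ s : M, ((ex T M).scale κ⁻¹).f (∑ i ∈ range 4, s ^ i • d i) = 0) : False := by
  obtain ⟨a, ha, hda⟩ := h0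
  obtain ⟨b, hb, hdb⟩ := h3
  apply h.ne
  have h1 := C.curve M 3 d (by rw [hda]; exact smul_ne_zero ha h.Q0)
    (by rw [hdb]; exact smul_ne_zero hb h.P0) (by
      intro s
      have h2 : κ⁻¹ * (ex T M).f (∑ i ∈ range 4, s ^ i • d i) = 0 := hd s
      exact (mul_eq_zero.1 h2).resolve_left (inv_ne_zero h.hκ))
  rw [hda, hdb, C.smul M a Q ha, C.smul M b P hb] at h1
  exact h1.symm

/-- The scaled form is anisotropic. -/
theorem NP.an (hsm : Sm T) (h8 : 8 ≤ n) (h : NP C M κ P Q) :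
    An ((ex T M).scale κ⁻¹) (WR (ex T M) P Q) := by
  intro w hw hf
  have h1 := (ne_props (C := C) hsm (by omega) (hiso_k k) h.P0 h.Q0 h.fP h.fQ h.ne).2.2
  have h2 : κ⁻¹ * (ex T M).f w = 0 := hf
  exact h1 w hw.1 ((mul_eq_zero.1 h2).resolve_left (inv_ne_zero h.hκ))

/-- Bounds for the quadratic forms `D(w; P)`, `D(w; Q)`. -/
theorem NP.bd (hsm : Sm T) (h8 : 8 ≤ n) (h : NP C M κ P Q) {π : O k M} (hπ : Irreducible π)
    {j : ℤ} (hj : j = 1 ∨ j = 2) {w : Fin n → M} (hw : w ∈ WR (ex T M) P Q)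
    (hv : Vg π j (((ex T M).scale κ⁻¹).f w)) :
    Vg π j (((ex T M).scale κ⁻¹).D w P) ∧ Vg π j (((ex T M).scale κ⁻¹).D w Q) := by
  by_cases hw0 : w = 0
  · subst hw0
    rw [Cb.zero_D, Cb.zero_D]
    exact ⟨Vg.zero _, Vg.zero _⟩
  have hf : ((ex T M).scale κ⁻¹).f w ≠ 0 := fun hf => hw0 (h.an hsm h8 w hw hf)
  obtain ⟨i, u, hu, hi⟩ := exists_ord hπ hf
  have h1 : Vg π i (((ex T M).scale κ⁻¹).f w) := ⟨u, hi⟩
  have h2 : ¬ Vg π (i + 1) (((ex T M).scale κ⁻¹).f w) := by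
    rw [hi, vg_iff hπ hu]
    omega
  rw [hi, vg_iff hπ hu] at hv
  exact (h.claim hsm h8 hw hπ h1 h2).2 j (by omega)

theorem scale_add_D {R V : Type*} [CommRing R] [AddCommGroup V] [Module R V] (c : Cb R V)
    (x y z : V) : c.E x y z = c.D (x + y) z - c.D x z - c.D y z := by
  rw [c.add_D]; ring

/-- Bounds for `E(u, v, P)`. -/
theorem NP.bdE (hsm : Sm T) (h8 : 8 ≤ n) (h : NP C M κ P Q) {π : O k M} (hπ : Irreducible π)
    {j : ℤ} (hj : j = 1 ∨ j = 2) {u v : Fin n → M} (hu : u ∈ WR (ex T M) P Q)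
    (hv : v ∈ WR (ex T M) P Q) (vu : Vg π j (((ex T M).scale κ⁻¹).f u))
    (vv : Vg π j (((ex T M).scale κ⁻¹).f v)) :
    Vg π j (((ex T M).scale κ⁻¹).E u v P) ∧ Vg π j (((ex T M).scale κ⁻¹).E u v Q) := by
  have h1 := (h.an hsm h8).f_add hπ hu hv vu vv
  have h2 := h.bd hsm h8 hπ hj (Submodule.add_mem _ hu hv) h1
  have h3 := h.bd hsm h8 hπ hj hu vu
  have h4 := h.bd hsm h8 hπ hj hv vv
  rw [scale_add_D, scale_add_D _ u v Q]
  refine ⟨?_, ?_⟩
  · rw [sub_eq_add_neg, sub_eq_add_neg]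
    exact (h2.1.add h3.1.neg).add h4.1.neg
  · rw [sub_eq_add_neg, sub_eq_add_neg]
    exact (h2.2.add h3.2.neg).add h4.2.neg

/-- The formal properties of the scaled form. -/
theorem NP.form (h : NP C M κ P Q) :
    ((ex T M).scale κ⁻¹).f P = 0 ∧ ((ex T M).scale κ⁻¹).f Q = 0 ∧
    ((ex T M).scale κ⁻¹).D P Q = 1 ∧ ((ex T M).scale κ⁻¹).D Q P = 1 ∧
    ∀ w ∈ WR (ex T M) P Q, ((ex T M).scale κ⁻¹).D P w = 0 ∧ ((ex T M).scale κ⁻¹).D Q w = 0 ∧
      ((ex T M).scale κ⁻¹).E P Q w = 0 := by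
  refine ⟨?_, ?_, ?_, ?_, ?_⟩
  · show κ⁻¹ * (ex T M).f P = 0
    rw [h.fP, mul_zero]
  · show κ⁻¹ * (ex T M).f Q = 0
    rw [h.fQ, mul_zero]
  · show κ⁻¹ * (ex T M).D P Q = 1
    rw [h.PQ, inv_mul_cancel₀ h.hκ]
  · show κ⁻¹ * (ex T M).D Q P = 1
    rw [h.QP, inv_mul_cancel₀ h.hκ]
  · rintro w ⟨⟨h1, h2⟩, h3⟩
    rw [SetLike.mem_coe, LinearMap.mem_ker] at h1 h2 h3
    refine ⟨?_, ?_, ?_⟩
    · show κ⁻¹ * (ex T M).D P w = 0
      rw [show (ex T M).D P w = 0 from h1, mul_zero]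
    · show κ⁻¹ * (ex T M).D Q w = 0
      rw [show (ex T M).D Q w = 0 from h2, mul_zero]
    · show κ⁻¹ * (ex T M).E P Q w = 0
      rw [show (ex T M).E P Q w = 0 from h3, mul_zero]

/-- Base change of the scaled form. -/
theorem sc_f (x : Fin n → M) : ((ex T L).scale (algebraMap M L κ)⁻¹).f (up L x) =
    algebraMap M L (((ex T M).scale κ⁻¹).f x) := by
  show (algebraMap M L κ)⁻¹ * (ex T L).f (up L x) = algebraMap M L (κ⁻¹ * (ex T M).f x)
  rw [ex_f, map_mul, map_inv₀]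

theorem sc_D (x y : Fin n → M) : ((ex T L).scale (algebraMap M L κ)⁻¹).D (up L x) (up L y) =
    algebraMap M L (((ex T M).scale κ⁻¹).D x y) := by
  show (algebraMap M L κ)⁻¹ * (ex T L).D (up L x) (up L y) = algebraMap M L (κ⁻¹ * (ex T M).D x y)
  rw [ex_D, map_mul, map_inv₀]

theorem sc_E (x y z : Fin n → M) :
    ((ex T L).scale (algebraMap M L κ)⁻¹).E (up L x) (up L y) (up L z) =
    algebraMap M L (((ex T M).scale κ⁻¹).E x y z) := by
  show (algebraMap M L κ)⁻¹ * (ex T L).E (up L x) (up L y) (up L z) =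
    algebraMap M L (κ⁻¹ * (ex T M).E x y z)
  rw [ex_E, map_mul, map_inv₀]

theorem sc_tens {d : ℕ} (e : Fin d → Fin n → M) (i j l : Fin d) :
    ((ex T L).scale (algebraMap M L κ)⁻¹).tens (fun i => up L (e i)) i j l =
      algebraMap M L (((ex T M).scale κ⁻¹).tens e i j l) := by
  unfold Cb.tens
  split_ifs
  · exact sc_f _
  · exact sc_D _ _
  · exact sc_E _ _ _
  · rw [map_zero]

theorem up_WR {w : Fin n → M} (hw : w ∈ WR (ex T M) P Q) :
    up L w ∈ WR (ex T L) (up L P) (up L Q) := by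
  obtain ⟨⟨h1, h2⟩, h3⟩ := hw
  rw [SetLike.mem_coe, LinearMap.mem_ker] at h1 h2 h3
  refine ⟨⟨?_, ?_⟩, ?_⟩
  · rw [SetLike.mem_coe, LinearMap.mem_ker]
    show (ex T L).D (up L P) (up L w) = 0
    rw [ex_D, show (ex T M).D P w = 0 from h1, map_zero]
  · rw [SetLike.mem_coe, LinearMap.mem_ker]
    show (ex T L).D (up L Q) (up L w) = 0
    rw [ex_D, show (ex T M).D Q w = 0 from h2, map_zero]
  · rw [SetLike.mem_coe, LinearMap.mem_ker]
    show (ex T L).E (up L P) (up L Q) (up L w) = 0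
    rw [ex_E, show (ex T M).E P Q w = 0 from h3, map_zero]

end Cu
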