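import Pool.Agent.Lib.MP_f80667_ag.Cu.MainA

/-! The contradiction if there is a simple root. -/

open Polynomial IsLocalRing Pool.Agent.Lib.MP_f80667_ag.LF Finset

namespace Cu

universe u

section vg

variable {O K : Type*} [CommRing O] [Field K] [Algebra O K] {π : O}

theorem Vg.one' {x : K} (h : Vg π 1 x) : ∃ a : O, x = algebraMap O K (π * a) := by
  obtain ⟨a, ha⟩ := h
  exact ⟨a, by rw [ha, zpow_one, map_mul]⟩

theorem Vg.two' {x : K} (h : Vg π 2 x) : ∃ a : O, x = algebraMap O K (π ^ 2 * a) := by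
  obtain ⟨a, ha⟩ := h
  refine ⟨a, ?_⟩
  rw [ha, map_mul, map_pow]
  norm_cast

theorem vg_one {x : K} {a : O} (h : x = algebraMap O K (π * a)) : Vg π 1 x :=
  ⟨a, by rw [h, zpow_one, map_mul]⟩

theorem vg_two {x : K} {a : O} (h : x = algebraMap O K (π ^ 2 * a)) : Vg π 2 x := by
  refine ⟨a, ?_⟩
  rw [h, map_mul, map_pow]
  norm_cast

end vg

variable {k : Type u} [NontriviallyNormedField k] [IsUltrametricDist k] [ProperSpace k]
  [CharZero k] {n : ℕ} {T : Tn k n} {G : Type u} [AddCommGroup G] {C : Th k T G}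
  {M L : Type u} [Field M] [Field L] [Algebra k M] [Algebra k L]
  [Algebra M L] [IsScalarTower k M L] [FiniteDimensional k M] [FiniteDimensional k L]
  {κ : M} {P Q : Fin n → M}

/-- `tw` with the bounds of `NP`. -/
theorem NP.tw_false (hsm : Sm T) (h8 : 8 ≤ n) (h : NP C M κ P Q) {π : O k M}
    (hπ : Irreducible π) (w₁ w₂ : Fin n → M) (hw₁ : w₁ ∈ WR (ex T M) P Q)
    (hw₂ : w₂ ∈ WR (ex T M) P Q) (A₁ A₄ B₂ C₂ m : O k M)
    (hA₁ : ((ex T M).scale κ⁻¹).f w₁ = algebraMap (O k M) M (π * A₁))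
    (hA₄ : ((ex T M).scale κ⁻¹).f w₂ = algebraMap (O k M) M (π ^ 2 * A₄))
    (hB₂ : ((ex T M).scale κ⁻¹).E w₁ w₂ P = algebraMap (O k M) M (π * B₂))
    (hC₂ : ((ex T M).scale κ⁻¹).E w₁ w₂ Q = algebraMap (O k M) M (π * C₂))
    (u₁ : IsUnit A₁) (u₄ : IsUnit A₄)
    (hH : m * (m + B₂) * (m + C₂) - A₁ * A₄ ∈ maximalIdeal (O k M))
    (hH' : IsUnit (3 * m ^ 2 + 2 * m * (B₂ + C₂) + B₂ * C₂)) : False := by
  have hW := h.an hsm h8
  have v1 := vg_one hA₁
  have v2 := vg_two hA₄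
  obtain ⟨f1, f2, f3, f4, f5⟩ := h.form
  obtain ⟨A₂, hA₂⟩ := (hW.D_le hπ hw₁ hw₂ v1 v2 (k := 2) (by norm_num)).two'
  obtain ⟨A₃, hA₃⟩ := (hW.D_le hπ hw₂ hw₁ v2 v1 (k := 2) (by norm_num)).two'
  have b1 := h.bd hsm h8 hπ (Or.inl rfl) hw₁ v1
  have b2 := h.bd hsm h8 hπ (Or.inr rfl) hw₂ v2
  obtain ⟨B₁, hB₁⟩ := b1.1.one'
  obtain ⟨C₁, hC₁⟩ := b1.2.one'
  obtain ⟨B₃, hB₃⟩ := b2.1.two'
  obtain ⟨C₃, hC₃⟩ := b2.2.two'
  obtain ⟨d, hd0, hd3, hd⟩ := tw hπ ((ex T M).scale κ⁻¹) P Q w₁ w₂ f1 f2 f3 f4 (f5 w₁ hw₁).1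
    (f5 w₂ hw₂).1 (f5 w₁ hw₁).2.1 (f5 w₂ hw₂).2.1 (f5 w₁ hw₁).2.2 (f5 w₂ hw₂).2.2
    A₁ A₂ A₃ A₄ B₁ B₂ B₃ C₁ C₂ C₃ m hA₁ hA₂ hA₃ hA₄ hB₁ hB₂ hB₃ hC₁ hC₂ hC₃ u₁ u₄ hH hH'
  exact h.no_curve d hd0 hd3 hd

/-- The case where `root_exists` applies. -/
theorem NP.caseA (hsm : Sm T) (h8 : 8 ≤ n) (h : NP C M κ P Q)
    (h16 : 16 ≤ Nat.card (ResidueField (O k M))) {π : O k M} (hπ : Irreducible π)
    {m₁ m₂ : ℕ} (hm : m₁ = 1 ∧ m₂ = 2 ∨ m₁ = 2 ∧ m₂ = 1) (e : Fin 3 → Fin n → M)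
    (he : ∀ i, e i ∈ WR (ex T M) P Q) (hs : Sys ((ex T M).scale κ⁻¹) π (m₁ : ℤ) e)
    (w' : Fin n → M) (hw' : w' ∈ WR (ex T M) P Q)
    (hv' : Vg π (m₂ : ℤ) (((ex T M).scale κ⁻¹).f w'))
    (hv'' : ¬ Vg π ((m₂ : ℤ) + 1) (((ex T M).scale κ⁻¹).f w')) (p q : Fin 3 → O k M)
    (hp : ∀ i, ((ex T M).scale κ⁻¹).E (e i) w' P = algebraMap (O k M) M (π * p i))
    (hq : ∀ i, ((ex T M).scale κ⁻¹).E (e i) w' Q = algebraMap (O k M) M (π * q i))
    (h3 : (3 : ResidueField (O k M)) ≠ 0 ∨ (∃ i, residue (O k M) (p i) ≠ 0) ∨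
      ∃ i, residue (O k M) (q i) ≠ 0) : False := by
  obtain ⟨T₁, hT₁⟩ := exists_tens (h.an hsm h8) hπ he (fun i => (hs.vg i).1)
  have han : ∀ x, (cb (T₁.map (residue (O k M)))).f x = 0 → x = 0 :=
    red_aniso hπ (fun x => f_of_tens hT₁ x) (fun x hx => (hs x hx).2)
  obtain ⟨c₀, hc₀⟩ := hv'
  have uc₀ : IsUnit c₀ := vg_unit hπ hc₀ hv''
  obtain ⟨L, _, _, _, _, _, hL⟩ := exists_unr k M 2 (by norm_num)
  let alg : Algebra (ResidueField (O k M)) (ResidueField (O k L)) := (rMap k M L).toAlgebra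
  have halg : algebraMap (ResidueField (O k M)) (ResidueField (O k L)) = rMap k M L := rfl
  have hres : ∀ x : O k M, rMap k M L (residue (O k M) x) = residue (O k L) (oMap k M L x) :=
    fun x => rfl
  obtain ⟨wb, mb, hwb, hH, hH'⟩ := root_exists h16 hL.card (T₁.map (residue (O k M))) han
    (fun i => residue (O k M) (p i)) (fun i => residue (O k M) (q i)) (residue (O k M) c₀)
    (by rw [Ne, residue_eq_zero_iff]; exact fun hh => hh uc₀) (by
      rcases h3 with h3 | ⟨i, h3⟩ | ⟨i, h3⟩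
      · exact Or.inl h3
      · exact Or.inr (Or.inl fun hh => h3 (congrFun hh i))
      · exact Or.inr (Or.inr fun hh => h3 (congrFun hh i)))
  have hfw : (cb ((T₁.map (residue (O k M))).map (rMap k M L))).f wb ≠ 0 := fun hh =>
    hwb (aniso_quad hL.card (T₁.map (residue (O k M))) han wb hh)
  choose x hx using fun i => residue_surjective (R := O k L) (wb i)
  obtain ⟨m, hmb⟩ := residue_surjective (R := O k L) mb
  have hup : NP C L (algebraMap M L κ) (Cu.up L P) (Cu.up L Q) := h.up hsm h8 (by rw [hL.deg]; norm_num)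
  have hπL : Irreducible (oMap k M L π) := hL.unif π hπ
  obtain ⟨cL, hcL⟩ : ∃ cL, cL = (ex T L).scale (algebraMap M L κ)⁻¹ := ⟨_, rfl⟩
  have hcoe : ∀ y : O k M, algebraMap M L (algebraMap (O k M) M y) =
      algebraMap (O k L) L (oMap k M L y) := fun y => rfl
  -- the tensor over `L`
  have hTL : ∀ i j l, cL.tens (fun i => Cu.up L (e i)) i j l =
      algebraMap (O k L) L (oMap k M L π) ^ (m₁ : ℤ) *
        algebraMap (O k L) L ((T₁.map (oMap k M L)) i j l) := by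
    intro i j l
    rw [hcL, sc_tens, hT₁, map_mul, map_zpow₀, hcoe, hcoe]
    rfl
  obtain ⟨v, hv⟩ : ∃ v : Fin n → L, v = ∑ i, algebraMap (O k L) L (x i) • Cu.up L (e i) := ⟨_, rfl⟩
  have hvW : v ∈ WR (ex T L) (Cu.up L P) (Cu.up L Q) := by
    rw [hv]
    exact Submodule.sum_mem _ fun i _ => Submodule.smul_mem _ _ (up_WR (he i))
  have hfv : cL.f v = algebraMap (O k L) L (oMap k M L π ^ m₁ *
      (cb (T₁.map (oMap k M L))).f x) := by
    rw [hv, f_of_tens hTL, map_f, map_mul, map_pow, zpow_natCast]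
  have hfw' : cL.f (Cu.up L w') = algebraMap (O k L) L (oMap k M L π ^ m₂ * oMap k M L c₀) := by
    rw [hcL, sc_f, hc₀, map_mul, map_zpow₀, hcoe, hcoe, zpow_natCast, map_mul, map_pow]
  have hEl : ∀ R : Fin n → M, ∀ r : Fin 3 → O k M,
      (∀ i, ((ex T M).scale κ⁻¹).E (e i) w' R = algebraMap (O k M) M (π * r i)) →
      cL.E v (Cu.up L w') (Cu.up L R) = algebraMap (O k L) L (oMap k M L π *
        ∑ i, oMap k M L (r i) * x i) := by
    intro R r hr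
    have h1 : cL.E v (Cu.up L w') (Cu.up L R) = cL.El (Cu.up L w') (Cu.up L R) v := by
      rw [Cb.El_apply, cL.E_comm v, cL.E_comm']
    rw [h1, hv, map_sum, map_mul, map_sum, Finset.mul_sum]
    refine Finset.sum_congr rfl fun i _ => ?_
    rw [map_smul, smul_eq_mul, Cb.El_apply, cL.E_comm', cL.E_comm, hcL, sc_E, hr, hcoe, map_mul,
      map_mul, map_mul]
    ring
  have hresA : residue (O k L) ((cb (T₁.map (oMap k M L))).f x) =
      (cb ((T₁.map (residue (O k M))).map (rMap k M L))).f wb := by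
    rw [← map_f (residue (O k L))]
    congr 1
    exact funext hx
  have uA : IsUnit ((cb (T₁.map (oMap k M L))).f x) := by
    by_contra hcon
    exact hfw (by rw [← hresA]; exact (residue_eq_zero_iff _).2 hcon)
  have uc : IsUnit (oMap k M L c₀) := uc₀.map _
  have hH1 : m * (m + ∑ i, oMap k M L (p i) * x i) * (m + ∑ i, oMap k M L (q i) * x i) -
      (cb (T₁.map (oMap k M L))).f x * oMap k M L c₀ ∈ maximalIdeal (O k L) := by
    rw [← residue_eq_zero_iff, map_sub, map_mul, map_mul, map_mul, map_add, map_add, map_sum,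
      map_sum, hresA, hmb]
    simp only [map_mul, hx, ← hres]
    rw [sub_eq_zero]
    rw [halg] at hH
    rw [hH, mul_comm]
  have hH2 : IsUnit (3 * m ^ 2 + 2 * m * ((∑ i, oMap k M L (p i) * x i) +
      ∑ i, oMap k M L (q i) * x i) + (∑ i, oMap k M L (p i) * x i) *
      ∑ i, oMap k M L (q i) * x i) := by
    by_contra hcon
    apply hH'
    have h1 := (residue_eq_zero_iff _).2 hcon
    rw [map_add, map_add, map_mul, map_mul, map_mul, map_mul, map_pow, map_add, map_sum, map_sum,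
      hmb, map_ofNat, map_ofNat] at h1
    simp only [map_mul, hx, ← hres] at h1
    rw [halg]
    exact h1
  rcases hm with ⟨rfl, rfl⟩ | ⟨rfl, rfl⟩
  · rw [pow_one] at hfv
    exact hup.tw_false hsm h8 hπL v (Cu.up L w') hvW (up_WR hw') _ _ _ _ m (by rw [← hcL]; exact hfv)
      (by rw [← hcL]; exact hfw') (by rw [← hcL]; exact hEl P p hp)
      (by rw [← hcL]; exact hEl Q q hq) uA uc hH1 hH2
  · rw [pow_one] at hfw'
    exact hup.tw_false hsm h8 hπL (Cu.up L w') v (up_WR hw') hvW _ _ _ _ m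
      (by rw [← hcL]; exact hfw') (by rw [← hcL]; exact hfv)
      (by rw [← hcL, cL.E_comm]; exact hEl P p hp) (by rw [← hcL, cL.E_comm]; exact hEl Q q hq)
      uc uA (by rw [mul_comm (oMap k M L c₀)]; exact hH1) hH2

end Cu
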