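import Pool.Agent.Lib.MP_f80667_ag.Cu.MainB

/-! The contradiction in residue characteristic `3` if the mixed forms vanish. -/

open Polynomial IsLocalRing Pool.Agent.Lib.MP_f80667_ag.LF Finset

namespace Cu

universe u

theorem cube_surj' {K : Type*} [Field K] [Finite K] (h3 : (3 : K) = 0) (a : K) :
    ∃ x : K, x ^ 3 = a := by
  have hinj : Function.Injective (fun x : K => x ^ 3) := by
    intro x y hxy
    simp only at hxy
    have : (x - y) ^ 3 = 0 := by linear_combination hxy - (x ^ 2 * y - x * y ^ 2) * h3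
    exact sub_eq_zero.1 (pow_eq_zero_iff three_ne_zero |>.1 this)
  exact Finite.injective_iff_surjective.1 hinj a

section vgs

variable {O K : Type*} [CommRing O] [IsDomain O] [IsDiscreteValuationRing O] [Field K]
  [Algebra O K] [IsFractionRing O K] {π : O}

theorem Vg.sum {ι : Type*} (s : Finset ι) {j : ℤ} {x : ι → K} (h : ∀ i ∈ s, Vg π j (x i)) :
    Vg π j (∑ i ∈ s, x i) :=
  Finset.sum_induction _ (fun y => Vg π j y) (fun _ _ ha hb => ha.add hb) (Vg.zero j) h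

theorem Vg.smul {j : ℤ} {x : K} (h : Vg π j x) (a : O) : Vg π j (algebraMap O K a * x) := by
  obtain ⟨b, rfl⟩ := h
  exact ⟨a * b, by rw [map_mul]; ring⟩

end vgs

variable {k : Type u} [NontriviallyNormedField k] [IsUltrametricDist k] [ProperSpace k]
  [CharZero k] {n : ℕ} {T : Tn k n} {G : Type u} [AddCommGroup G] {C : Th k T G}
  {M L : Type u} [Field M] [Field L] [Algebra k M] [Algebra k L]
  [Algebra M L] [IsScalarTower k M L] [FiniteDimensional k M] [FiniteDimensional k L]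
  {κ : M} {P Q : Fin n → M}

/-- The bilinear bound. -/
theorem bil_vg {O K V : Type*} [CommRing O] [IsDomain O] [IsDiscreteValuationRing O]
    [Field K] [Algebra O K] [IsFractionRing O K] [AddCommGroup V] [Module K V] (c : Cb K V) {π : O}
    {j : ℤ} {a b : ℕ} (e : Fin a → V) (e' : Fin b → V) (R : V)
    (h : ∀ i j', Vg π j (c.E (e i) (e' j') R)) (x : Fin a → O) (y : Fin b → O) :
    Vg π j (c.E (∑ i, algebraMap O K (x i) • e i) (∑ i, algebraMap O K (y i) • e' i) R) := by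
  have h1 : ∀ (v u : V), c.E v u R = c.El u R v := by
    intro v u
    rw [Cb.El_apply, c.E_comm v, c.E_comm']
  have h2 : ∀ (v u : V), c.E v u R = c.El v R u := by
    intro v u
    rw [Cb.El_apply, c.E_comm']
  rw [h1, map_sum]
  refine Vg.sum _ fun i _ => ?_
  rw [map_smul, smul_eq_mul, ← h1, h2, map_sum]
  refine Vg.smul (Vg.sum _ fun i' _ => ?_) _
  rw [map_smul, smul_eq_mul, ← h2]
  exact Vg.smul (h i i') _

/-- The case where `tw3` applies. -/
theorem NP.caseB (hsm : Sm T) (h8 : 8 ≤ n) (h : NP C M κ P Q) {π : O k M} (hπ : Irreducible π)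
    (h3 : (3 : ResidueField (O k M)) = 0)
    {m₁ m₂ : ℕ} (hm : m₁ = 1 ∧ m₂ = 2 ∨ m₁ = 2 ∧ m₂ = 1) (e : Fin 3 → Fin n → M)
    (he : ∀ i, e i ∈ WR (ex T M) P Q) (hs : Sys ((ex T M).scale κ⁻¹) π (m₁ : ℤ) e)
    (e' : Fin 2 → Fin n → M) (he' : ∀ i, e' i ∈ WR (ex T M) P Q)
    (hs' : Sys ((ex T M).scale κ⁻¹) π (m₂ : ℤ) e')
    (hE : ∀ i j, Vg π 2 (((ex T M).scale κ⁻¹).E (e i) (e' j) P) ∧
      Vg π 2 (((ex T M).scale κ⁻¹).E (e i) (e' j) Q)) : False := by
  have hW := h.an hsm h8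
  obtain ⟨c, hc⟩ : ∃ c, c = (ex T M).scale κ⁻¹ := ⟨_, rfl⟩
  rw [← hc] at hs hs' hE
  obtain ⟨T₁, hT₁⟩ := exists_tens hW hπ he (fun i => by rw [← hc]; exact (hs.vg i).1)
  obtain ⟨T₂, hT₂⟩ := exists_tens hW hπ he' (fun i => by rw [← hc]; exact (hs'.vg i).1)
  rw [← hc] at hT₁ hT₂
  have han₁ : ∀ x, (cb (T₁.map (residue (O k M)))).f x = 0 → x = 0 :=
    red_aniso hπ (fun x => f_of_tens hT₁ x) (fun x hx => (hs x hx).2)
  have han₂ : ∀ x, (cb (T₂.map (residue (O k M)))).f x = 0 → x = 0 :=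
    red_aniso hπ (fun x => f_of_tens hT₂ x) (fun x hx => (hs' x hx).2)
  obtain ⟨wb, ab, hwb, hD₁⟩ := exists_deriv h3 (by norm_num) _ han₁
  obtain ⟨wb', ab', hwb', hD₂⟩ := exists_deriv h3 (by norm_num) _ han₂
  obtain ⟨mb, hmb⟩ := cube_surj' h3 ((cb (T₁.map (residue (O k M)))).f wb *
    (cb (T₂.map (residue (O k M)))).f wb')
  choose x hx using fun i => residue_surjective (R := O k M) (wb i)
  choose y hy using fun i => residue_surjective (R := O k M) (ab i)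
  choose x' hx' using fun i => residue_surjective (R := O k M) (wb' i)
  choose y' hy' using fun i => residue_surjective (R := O k M) (ab' i)
  obtain ⟨m, hmm⟩ := residue_surjective (R := O k M) mb
  have rf₁ : residue (O k M) ((cb T₁).f x) = (cb (T₁.map (residue (O k M)))).f wb := by
    rw [← map_f]; congr 1; exact funext hx
  have rf₂ : residue (O k M) ((cb T₂).f x') = (cb (T₂.map (residue (O k M)))).f wb' := by
    rw [← map_f]; congr 1; exact funext hx'
  have rD₁ : residue (O k M) ((cb T₁).D x y) = (cb (T₁.map (residue (O k M)))).D wb ab := by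
    rw [← map_D]; congr 1
    · exact funext hx
    · exact funext hy
  have rD₂ : residue (O k M) ((cb T₂).D x' y') = (cb (T₂.map (residue (O k M)))).D wb' ab' := by
    rw [← map_D]; congr 1
    · exact funext hx'
    · exact funext hy'
  have unit_of : ∀ a : O k M, residue (O k M) a ≠ 0 → IsUnit a := by
    intro a ha
    by_contra hcon
    exact ha ((residue_eq_zero_iff _).2 hcon)
  have uD₁ : IsUnit ((cb T₁).D x y) := unit_of _ (by rw [rD₁]; exact hD₁)
  have uD₂ : IsUnit ((cb T₂).D x' y') := unit_of _ (by rw [rD₂]; exact hD₂)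
  have um : IsUnit m := by
    apply unit_of
    rw [hmm]
    intro h0
    rw [h0, zero_pow three_ne_zero] at hmb
    rcases mul_eq_zero.1 hmb.symm with h1 | h1
    · exact hwb (han₁ _ h1)
    · exact hwb' (han₂ _ h1)
  obtain ⟨w, hw⟩ : ∃ w : Fin n → M, w = ∑ i, algebraMap (O k M) M (x i) • e i := ⟨_, rfl⟩
  obtain ⟨a, ha⟩ : ∃ a : Fin n → M, a = ∑ i, algebraMap (O k M) M (y i) • e i := ⟨_, rfl⟩
  obtain ⟨w', hw'⟩ : ∃ w : Fin n → M, w = ∑ i, algebraMap (O k M) M (x' i) • e' i := ⟨_, rfl⟩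
  obtain ⟨a', ha'⟩ : ∃ a : Fin n → M, a = ∑ i, algebraMap (O k M) M (y' i) • e' i := ⟨_, rfl⟩
  have fw : c.f w = algebraMap (O k M) M π ^ (m₁ : ℤ) * algebraMap (O k M) M ((cb T₁).f x) := by
    rw [hw, f_of_tens hT₁, map_f]
  have fa : c.f a = algebraMap (O k M) M π ^ (m₁ : ℤ) * algebraMap (O k M) M ((cb T₁).f y) := by
    rw [ha, f_of_tens hT₁, map_f]
  have fw' : c.f w' = algebraMap (O k M) M π ^ (m₂ : ℤ) * algebraMap (O k M) M ((cb T₂).f x') := by
    rw [hw', f_of_tens hT₂, map_f]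
  have fa' : c.f a' = algebraMap (O k M) M π ^ (m₂ : ℤ) * algebraMap (O k M) M ((cb T₂).f y') := by
    rw [ha', f_of_tens hT₂, map_f]
  have dwa : c.D w a = algebraMap (O k M) M π ^ (m₁ : ℤ) *
      algebraMap (O k M) M ((cb T₁).D x y) := by
    rw [hw, ha, D_of_tens hT₁, map_D]
  have dwa' : c.D w' a' = algebraMap (O k M) M π ^ (m₂ : ℤ) *
      algebraMap (O k M) M ((cb T₂).D x' y') := by
    rw [hw', ha', D_of_tens hT₂, map_D]
  have mw : w ∈ WR (ex T M) P Q := by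
    rw [hw]; exact Submodule.sum_mem _ fun i _ => Submodule.smul_mem _ _ (he i)
  have ma : a ∈ WR (ex T M) P Q := by
    rw [ha]; exact Submodule.sum_mem _ fun i _ => Submodule.smul_mem _ _ (he i)
  have mw' : w' ∈ WR (ex T M) P Q := by
    rw [hw']; exact Submodule.sum_mem _ fun i _ => Submodule.smul_mem _ _ (he' i)
  have ma' : a' ∈ WR (ex T M) P Q := by
    rw [ha']; exact Submodule.sum_mem _ fun i _ => Submodule.smul_mem _ _ (he' i)
  have hEb : ∀ u v : Fin n → M, (u = w ∨ u = a) → (v = w' ∨ v = a') →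
      Vg π 2 (c.E u v P) ∧ Vg π 2 (c.E u v Q) := by
    intro u v hu hv
    rcases hu with rfl | rfl <;> rcases hv with rfl | rfl
    · rw [hw, hw']
      exact ⟨bil_vg c e e' P (fun i j => (hE i j).1) _ _, bil_vg c e e' Q (fun i j => (hE i j).2) _ _⟩
    · rw [hw, ha']
      exact ⟨bil_vg c e e' P (fun i j => (hE i j).1) _ _, bil_vg c e e' Q (fun i j => (hE i j).2) _ _⟩
    · rw [ha, hw']
      exact ⟨bil_vg c e e' P (fun i j => (hE i j).1) _ _, bil_vg c e e' Q (fun i j => (hE i j).2) _ _⟩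
    · rw [ha, ha']
      exact ⟨bil_vg c e e' P (fun i j => (hE i j).1) _ _, bil_vg c e e' Q (fun i j => (hE i j).2) _ _⟩
  have hm3 : Vg π 4 (algebraMap (O k M) M (π ^ 3 * m ^ 3) - c.f w * c.f w') := by
    have h1 : m ^ 3 - (cb T₁).f x * (cb T₂).f x' ∈ maximalIdeal (O k M) := by
      rw [← residue_eq_zero_iff, map_sub, map_mul, map_pow, rf₁, rf₂, hmm, hmb, sub_self]
    rw [hπ.maximalIdeal_eq, Ideal.mem_span_singleton] at h1
    obtain ⟨b, hb⟩ := h1
    refine ⟨b, ?_⟩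
    have h2 : (m₁ : ℤ) + m₂ = 3 := by omega
    have h4 : c.f w * c.f w' = algebraMap (O k M) M π ^ (3 : ℤ) *
        algebraMap (O k M) M ((cb T₁).f x * (cb T₂).f x') := by
      rw [fw, fw', ← h2, zpow_add₀ (pi_ne hπ), map_mul]
      ring
    have h5 : algebraMap (O k M) M (π ^ 3 * m ^ 3) = algebraMap (O k M) M π ^ (3 : ℤ) *
        algebraMap (O k M) M (m ^ 3) := by
      rw [map_mul, map_pow]
      norm_cast
    rw [h4, h5, ← mul_sub, ← map_sub, hb, map_mul, ← mul_assoc]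
    congr 1
    rw [show (4 : ℤ) = 3 + 1 by norm_num, zpow_add₀ (pi_ne hπ), zpow_one]
  obtain ⟨f1, f2, f3, f4, f5⟩ := h.form
  rw [← hc] at f1 f2 f3 f4 f5 hW
  have hbd := fun (j : ℤ) (hj : j = 1 ∨ j = 2) (w : Fin n → M) (hw : w ∈ WR (ex T M) P Q) =>
    h.bd hsm h8 hπ hj hw
  rw [← hc] at hbd
  rcases hm with ⟨rfl, rfl⟩ | ⟨rfl, rfl⟩
  · obtain ⟨d, hd0, hd3, hd⟩ := tw3 hπ c (WR (ex T M) P Q) hW P Q f1 f2 f3 f4
      (fun w hw => (f5 w hw).1) (fun w hw => (f5 w hw).2.1) (fun w hw => (f5 w hw).2.2)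
      (fun w hw hv => hbd 1 (Or.inl rfl) w hw hv) (fun w hw hv => hbd 2 (Or.inr rfl) w hw hv)
      w a w' a' mw ma mw' ma' ⟨_, fw⟩ ⟨_, fa⟩ ⟨_, fw'⟩ ⟨_, fa'⟩ hEb m um hm3
      (by rw [dwa, vg_iff hπ uD₁]; norm_num) (by rw [dwa', vg_iff hπ uD₂]; norm_num)
    exact h.no_curve d hd0 hd3 (by rw [← hc]; exact hd)
  · obtain ⟨d, hd0, hd3, hd⟩ := tw3 hπ c (WR (ex T M) P Q) hW P Q f1 f2 f3 f4
      (fun w hw => (f5 w hw).1) (fun w hw => (f5 w hw).2.1) (fun w hw => (f5 w hw).2.2)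
      (fun w hw hv => hbd 1 (Or.inl rfl) w hw hv) (fun w hw hv => hbd 2 (Or.inr rfl) w hw hv)
      w' a' w a mw' ma' mw ma ⟨_, fw'⟩ ⟨_, fa'⟩ ⟨_, fw⟩ ⟨_, fa⟩
      (fun u v hu hv => by
        rw [c.E_comm u v P, c.E_comm u v Q]
        exact hEb v u hv hu) m um (by rw [mul_comm (c.f w')]; exact hm3)
      (by rw [dwa', vg_iff hπ uD₂]; norm_num) (by rw [dwa, vg_iff hπ uD₁]; norm_num)
    exact h.no_curve d hd0 hd3 (by rw [← hc]; exact hd)

end Cu
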