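import Pool.Agent.Lib.MP_f80667_ag.Cu.Defs
import Pool.Agent.Lib.MP_f80667_ag.Hens

/-! An anisotropic cubic form over a complete discretely valued field: `|f|^(1/3)` is a norm. -/

open Polynomial IsLocalRing

namespace Cu

section vg

variable {O K : Type*} [CommRing O] [IsDomain O] [IsDiscreteValuationRing O] [Field K]
  [Algebra O K] [IsFractionRing O K] {π : O}

theorem Vg.add {k : ℤ} {x y : K} (hx : Vg π k x) (hy : Vg π k y) : Vg π k (x + y) := by
  obtain ⟨a, rfl⟩ := hx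
  obtain ⟨b, rfl⟩ := hy
  exact ⟨a + b, by rw [map_add]; ring⟩

theorem Vg.neg {k : ℤ} {x : K} (hx : Vg π k x) : Vg π k (-x) := by
  obtain ⟨a, rfl⟩ := hx
  exact ⟨-a, by rw [map_neg]; ring⟩

theorem Vg.zero (k : ℤ) : Vg π k (0 : K) := ⟨0, by simp⟩

theorem pi_ne (hπ : Irreducible π) : algebraMap O K π ≠ 0 := by
  rw [Ne, IsFractionRing.to_map_eq_zero_iff]
  exact hπ.ne_zero

theorem Vg.mul (hπ : Irreducible π) {i j : ℤ} {x y : K} (hx : Vg π i x) (hy : Vg π j y) :
    Vg π (i + j) (x * y) := by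
  obtain ⟨a, rfl⟩ := hx
  obtain ⟨b, rfl⟩ := hy
  exact ⟨a * b, by rw [map_mul, zpow_add₀ (pi_ne hπ)]; ring⟩

theorem Vg.mono (hπ : Irreducible π) {i j : ℤ} {x : K} (hx : Vg π j x) (h : i ≤ j) :
    Vg π i x := by
  obtain ⟨a, rfl⟩ := hx
  obtain ⟨m, rfl⟩ := Int.le.dest h
  refine ⟨π ^ m * a, ?_⟩
  rw [map_mul, map_pow, zpow_add₀ (pi_ne hπ), zpow_natCast]
  ring

/-- Every `x ≠ 0` is `u π ^ k` with a unit `u`. -/
theorem exists_ord (hπ : Irreducible π) {x : K} (hx : x ≠ 0) :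
    ∃ (k : ℤ) (u : O), IsUnit u ∧ x = algebraMap O K π ^ k * algebraMap O K u := by
  obtain ⟨a, b, hb, rfl⟩ := IsFractionRing.div_surjective (A := O) x
  have hb0 : b ≠ 0 := nonZeroDivisors.ne_zero hb
  have ha0 : a ≠ 0 := by
    rintro rfl
    simp at hx
  obtain ⟨m, u, hu⟩ := IsDiscreteValuationRing.eq_unit_mul_pow_irreducible ha0 hπ
  obtain ⟨n, v, hv⟩ := IsDiscreteValuationRing.eq_unit_mul_pow_irreducible hb0 hπ
  refine ⟨(m : ℤ) - n, u * ((v⁻¹ : Oˣ) : O), (u * v⁻¹).isUnit, ?_⟩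
  have hP := pi_ne (K := K) hπ
  have hv0 : algebraMap O K v ≠ 0 := by
    rw [Ne, IsFractionRing.to_map_eq_zero_iff]
    exact v.ne_zero
  have e : algebraMap O K v * algebraMap O K ((v⁻¹ : Oˣ) : O) = 1 := by
    rw [← map_mul, Units.mul_inv, map_one]
  rw [hu, hv, map_mul, map_mul, map_mul, map_pow, map_pow, zpow_sub₀ hP, zpow_natCast,
    zpow_natCast, div_eq_iff (mul_ne_zero hv0 (pow_ne_zero _ hP))]
  field_simp
  linear_combination -e

/-- For a unit `u` the order of `u π ^ k` is `k`. -/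
theorem vg_iff (hπ : Irreducible π) {k i : ℤ} {u : O} (hu : IsUnit u) :
    Vg π i (algebraMap O K π ^ k * algebraMap O K u) ↔ i ≤ k := by
  refine ⟨fun h => ?_, fun h => Vg.mono hπ ⟨u, rfl⟩ h⟩
  by_contra hlt
  obtain ⟨a, ha⟩ := h
  obtain ⟨m, hm⟩ := Int.le.dest (show k + 1 ≤ i by omega)
  have hP := pi_ne (K := K) hπ
  have e : algebraMap O K u = algebraMap O K (π ^ (m + 1) * a) := by
    have h1 : algebraMap O K π ^ i = algebraMap O K π ^ k * algebraMap O K π ^ (m + 1) := by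
      rw [← zpow_natCast, ← zpow_add₀ hP]
      congr 1
      push_cast
      omega
    rw [h1, mul_assoc] at ha
    have h2 := mul_left_cancel₀ (zpow_ne_zero k hP) ha
    rw [h2, map_mul, map_pow]
  have e2 := IsFractionRing.injective O K e
  apply hπ.not_isUnit
  rw [e2, pow_succ, mul_assoc, mul_comm (π ^ m), mul_assoc] at hu
  exact isUnit_of_mul_isUnit_left hu

theorem Vg.div (hπ : Irreducible π) {m n : ℤ} {x : K} (hx : Vg π m x) {u : O} (hu : IsUnit u) :
    Vg π (m - n) (x / (algebraMap O K π ^ n * algebraMap O K u)) := by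
  obtain ⟨a, rfl⟩ := hx
  obtain ⟨v, hv⟩ := hu.exists_right_inv
  have hP := pi_ne (K := K) hπ
  have hu0 : algebraMap O K u ≠ 0 := by
    rw [Ne, IsFractionRing.to_map_eq_zero_iff]
    exact hu.ne_zero
  have e : algebraMap O K u * algebraMap O K v = 1 := by rw [← map_mul, hv, map_one]
  refine ⟨a * v, ?_⟩
  rw [div_eq_iff (mul_ne_zero (zpow_ne_zero _ hP) hu0), map_mul, zpow_sub₀ hP]
  have h1 := zpow_ne_zero n hP
  field_simp
  linear_combination (-(algebraMap O K a)) * e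

theorem ord_pow {k : ℤ} {u : O} (m : ℕ) :
    (algebraMap O K π ^ k * algebraMap O K u) ^ m =
      algebraMap O K π ^ (k * m) * algebraMap O K (u ^ m) := by
  rw [mul_pow, map_pow, ← zpow_natCast, ← zpow_mul]

theorem Vg.one (hπ : Irreducible π) {x : K} {k : ℤ} (hx : Vg π k x) (h : 1 ≤ k) :
    ∃ s : O, s ∈ maximalIdeal O ∧ algebraMap O K s = x := by
  obtain ⟨a, rfl⟩ := hx.mono hπ h
  refine ⟨π * a, ?_, ?_⟩
  · exact Ideal.mul_mem_right _ _ ((mem_maximalIdeal _).2 hπ.not_isUnit)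
  · rw [map_mul, zpow_one]

end vg

variable {O K V : Type*} [CommRing O] [IsDomain O] [IsDiscreteValuationRing O]
  [IsAdicComplete (maximalIdeal O) O] [Field K] [Algebra O K] [IsFractionRing O K]
  [AddCommGroup V] [Module K V] {c : Cb K V} {W : Submodule K V} {π : O}

omit [IsDomain O] [IsDiscreteValuationRing O] in
theorem key_root [IsLocalRing O] [IsAdicComplete (maximalIdeal O) O] {s t : O}
    (hs : s ∈ maximalIdeal O) (ht : t ∈ maximalIdeal O) :
    ∃ y : O, IsUnit y ∧ y ^ 3 + y ^ 2 + s * y + t = 0 := by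
  have H : HenselianRing O (maximalIdeal O) := inferInstance
  have hdeg : (X ^ 3 + (X ^ 2 + C s * X + C t) : O[X]).Monic := by
    refine monic_X_pow_add (lt_of_le_of_lt (b := ((2 : ℕ) : WithBot ℕ)) ?_ (by norm_num))
    refine (degree_add_le _ _).trans (max_le ((degree_add_le _ _).trans (max_le ?_ ?_)) ?_)
    · exact degree_X_pow_le 2
    · exact (degree_C_mul_X_le s).trans (by norm_num)
    · exact degree_C_le.trans (by norm_num)
  obtain ⟨y, hy, hy2⟩ := H.is_henselian (X ^ 3 + (X ^ 2 + C s * X + C t)) hdeg (-1) (by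
    have : (X ^ 3 + (X ^ 2 + C s * X + C t) : O[X]).eval (-1) = t - s := by
      simp
      ring
    rw [this]
    exact Ideal.sub_mem _ ht hs) (by
    have : (derivative (X ^ 3 + (X ^ 2 + C s * X + C t) : O[X])).eval (-1) = 1 + s := by
      simp
      ring
    rw [this, map_add, map_one, Ideal.Quotient.eq_zero_iff_mem.2 hs, add_zero]
    exact isUnit_one)
  refine ⟨y, ?_, ?_⟩
  · by_contra hu
    have h1 : y ∈ maximalIdeal O := (mem_maximalIdeal _).2 hu
    have h2 := Ideal.sub_mem _ h1 hy2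
    have h3 : (-1 : O) ∈ maximalIdeal O := by
      have : y - (y - -1) = -1 := by ring
      rwa [this] at h2
    exact (mem_maximalIdeal _).1 h3 (isUnit_one.neg)
  · have := hy.eq_zero
    simp at this
    linear_combination this

/-- A binary cubic form `a x^3 + b x^2 y + c x y^2 + d y^3` without zero satisfies
`3 v(b) ≥ 2 v(a) + v(d)`.
Proof. Suppose `3 v(b) < 2 v(a) + v(d)`. If `2 v(c) ≥ v(b) + v(d)` substitute `x = (b/a) X y`: the
form is `(b^3/a^2) (X^3 + X^2 + (ac/b^2) X + a^2 d/b^3)` and the last two coefficients are in the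
maximal ideal; Hensel at `X = -1`. Otherwise substitute `x = (d/c) X y`: the form is
`d ((a d^2/c^3) X^3 + (b d/c^2) X^2 + X + 1)` and the first two coefficients are in the maximal
ideal; Hensel at `X = -1`. -/
theorem binary_bound (hπ : Irreducible π) {a b c d : K} (ha : a ≠ 0)
    (h : ∀ x : K, a * x ^ 3 + b * x ^ 2 + c * x + d ≠ 0) {i j k : ℤ} (hi : Vg π i a)
    (hj : Vg π j d) (hk : 3 * k ≤ 2 * i + j + 2) : Vg π k b := by
  by_cases hb : b = 0
  · rw [hb]
    exact Vg.zero k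
  have hd : d ≠ 0 := by
    have := h 0
    simpa using this
  obtain ⟨α, ua, hua, ea⟩ := exists_ord (K := K) hπ ha
  obtain ⟨β, ub, hub, eb⟩ := exists_ord (K := K) hπ hb
  obtain ⟨δ, ud, hud, ed⟩ := exists_ord (K := K) hπ hd
  have hiα : i ≤ α := by rw [ea] at hi; exact (vg_iff hπ hua).1 hi
  have hjδ : j ≤ δ := by rw [ed] at hj; exact (vg_iff hπ hud).1 hj
  rw [eb, vg_iff hπ hub]
  by_contra hlt
  have hva : Vg π α a := ⟨ua, ea⟩
  have hvb : Vg π β b := ⟨ub, eb⟩
  have hvd : Vg π δ d := ⟨ud, ed⟩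
  by_cases hc : c = 0 ∨ ∃ γ : ℤ, Vg π γ c ∧ β + δ ≤ 2 * γ
  · have hs : ∃ s : O, s ∈ maximalIdeal O ∧ algebraMap O K s = a * c / b ^ 2 := by
      rcases hc with rfl | ⟨γ, hγ, hle⟩
      · exact ⟨0, Ideal.zero_mem _, by simp⟩
      · have h1 := Vg.div hπ (n := β * (2 : ℕ)) (hva.mul hπ hγ) (hub.pow 2)
        rw [← ord_pow, ← eb] at h1
        exact h1.one hπ (by push_cast; omega)
    have ht : ∃ t : O, t ∈ maximalIdeal O ∧ algebraMap O K t = a * a * d / b ^ 3 := by
      have h1 := Vg.div hπ (n := β * (3 : ℕ)) ((hva.mul hπ hva).mul hπ hvd) (hub.pow 3)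
      rw [← ord_pow, ← eb] at h1
      exact h1.one hπ (by push_cast; omega)
    obtain ⟨s, hs, es⟩ := hs
    obtain ⟨t, ht, et⟩ := ht
    obtain ⟨y, -, hy⟩ := key_root hs ht
    apply h (b / a * algebraMap O K y)
    have hy' := congrArg (algebraMap O K) hy
    simp only [map_add, map_mul, map_pow, map_zero, es, et] at hy'
    field_simp at hy' ⊢
    linear_combination hy'
  · push Not at hc
    obtain ⟨hc0, hc⟩ := hc
    obtain ⟨γ, uc, huc, ec⟩ := exists_ord (K := K) hπ hc0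
    have hvc : Vg π γ c := ⟨uc, ec⟩
    have hγ := hc γ hvc
    have hs : ∃ s : O, s ∈ maximalIdeal O ∧ algebraMap O K s = b * d / c ^ 2 := by
      have h1 := Vg.div hπ (n := γ * (2 : ℕ)) (hvb.mul hπ hvd) (huc.pow 2)
      rw [← ord_pow, ← ec] at h1
      exact h1.one hπ (by push_cast; omega)
    have ht : ∃ t : O, t ∈ maximalIdeal O ∧ algebraMap O K t = a * d * d / c ^ 3 := by
      have h1 := Vg.div hπ (n := γ * (3 : ℕ)) ((hva.mul hπ hvd).mul hπ hvd) (huc.pow 3)
      rw [← ord_pow, ← ec] at h1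
      exact h1.one hπ (by push_cast; omega)
    obtain ⟨s, hs, es⟩ := hs
    obtain ⟨t, ht, et⟩ := ht
    obtain ⟨y, hyu, hy⟩ := key_root hs ht
    have hy0 : algebraMap O K y ≠ 0 := by
      rw [Ne, IsFractionRing.to_map_eq_zero_iff]
      exact hyu.ne_zero
    apply h (d / (c * algebraMap O K y))
    have hy' := congrArg (algebraMap O K) hy
    simp only [map_add, map_mul, map_pow, map_zero, es, et] at hy'
    field_simp at hy' ⊢
    linear_combination d * hy'

/-- `3 v(D(u; w)) ≥ 2 v(f(u)) + v(f(w))` (if `u`, `w` are dependent this is trivial). -/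
theorem An.D_le (h : An c W) (hπ : Irreducible π) {u w : V} (hu : u ∈ W) (hw : w ∈ W)
    {i j k : ℤ} (hi : Vg π i (c.f u)) (hj : Vg π j (c.f w)) (hk : 3 * k ≤ 2 * i + j + 2) :
    Vg π k (c.D u w) := by
  by_cases hfu : c.f u = 0
  · rw [h u hu hfu, c.zero_D]
    exact Vg.zero k
  by_cases hx : ∃ x : K, c.f (x • u + w) = 0
  · obtain ⟨x, hx⟩ := hx
    have h0 := h _ (W.add_mem (W.smul_mem x hu) hw) hx
    have ew : w = (-x) • u := by
      rw [neg_smul]
      exact eq_neg_of_add_eq_zero_right h0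
    by_cases hx0 : x = 0
    · rw [ew, hx0]
      simp [Vg.zero k]
    obtain ⟨ξ, ux, hux, ex⟩ := exists_ord (K := K) hπ (neg_ne_zero.2 hx0)
    obtain ⟨φ, uf, huf, ef⟩ := exists_ord (K := K) hπ hfu
    have e1 : c.D u w = 3 * ((-x) * c.f u) := by
      rw [ew, c.D_smul, c.D_self]
      ring
    have e2 : c.f w = (-x) ^ 3 * c.f u := by rw [ew, c.f_smul]
    have h1 : i ≤ φ := by rw [ef] at hi; exact (vg_iff hπ huf).1 hi
    have h2 : j ≤ ξ * (3 : ℕ) + φ := by
      rw [e2, ex, ord_pow, ef] at hj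
      have e3 : algebraMap O K π ^ (ξ * (3 : ℕ)) * algebraMap O K (ux ^ 3) *
          (algebraMap O K π ^ φ * algebraMap O K uf) =
          algebraMap O K π ^ (ξ * (3 : ℕ) + φ) * algebraMap O K (ux ^ 3 * uf) := by
        rw [zpow_add₀ (pi_ne hπ), map_mul]
        ring
      rw [e3] at hj
      exact (vg_iff hπ ((hux.pow 3).mul huf)).1 hj
    push_cast at h2
    rw [e1]
    have h3 : Vg π (0 + (ξ + φ)) ((3 : K) * ((-x) * c.f u)) :=
      Vg.mul hπ ⟨3, by rw [zpow_zero, one_mul, map_ofNat]⟩ (Vg.mul hπ ⟨ux, ex⟩ ⟨uf, ef⟩)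
    exact h3.mono hπ (by omega)
  · push Not at hx
    refine binary_bound hπ (a := c.f u) (c := c.D w u) (d := c.f w) hfu (fun x => ?_) hi hj hk
    have := hx x
    rw [c.f_add, c.f_smul, c.smul_D, c.D_smul] at this
    intro h0
    apply this
    linear_combination h0

/-- `v(f(u + w)) ≥ min`. -/
theorem An.f_add (h : An c W) (hπ : Irreducible π) {u w : V} (hu : u ∈ W) (hw : w ∈ W)
    {i : ℤ} (hi : Vg π i (c.f u)) (hj : Vg π i (c.f w)) : Vg π i (c.f (u + w)) := by
  rw [c.f_add]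
  exact ((hi.add (h.D_le hπ hu hw hi hj (by omega))).add
    (h.D_le hπ hw hu hj hi (by omega))).add hj

/-- `E` after multiplication of `u` by `π ^ m`. -/
theorem An.E_core (h : An c W) (hπ : Irreducible π) {u w z : V} (hu : u ∈ W) (hw : w ∈ W)
    (hz : z ∈ W) {p q r k m μ : ℤ} (hp : Vg π p (c.f u)) (hq : Vg π q (c.f w))
    (hr : Vg π r (c.f z)) (h1 : μ ≤ p + 3 * m) (h2 : μ ≤ q) (h3 : 3 * (k + m) ≤ 2 * μ + r + 2) :
    Vg π k (c.E u w z) := by
  have hP := pi_ne (K := K) hπ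
  have hu' : algebraMap O K π ^ m • u ∈ W := W.smul_mem _ hu
  have hfu : Vg π μ (c.f (algebraMap O K π ^ m • u)) := by
    rw [c.f_smul, ← zpow_natCast, ← zpow_mul]
    obtain ⟨a, ha⟩ := hp
    refine Vg.mono hπ (j := p + 3 * m) ⟨a, ?_⟩ h1
    rw [ha, zpow_add₀ hP]
    push_cast
    rw [mul_comm m 3]
    ring
  have hfw := hq.mono hπ h2
  have a1 := h.D_le hπ (W.add_mem hu' hw) hz (h.f_add hπ hu' hw hfu hfw) hr h3
  have a2 := h.D_le hπ hu' hz hfu hr h3
  have a3 := h.D_le hπ hw hz hfw hr h3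
  have e : c.E u w z = (c.D (algebraMap O K π ^ m • u + w) z +
      -(c.D (algebraMap O K π ^ m • u) z) + -(c.D w z)) /
        (algebraMap O K π ^ m * algebraMap O K 1) := by
    rw [c.add_D, c.E_smul1, map_one, mul_one, eq_div_iff (zpow_ne_zero _ hP)]
    ring
  rw [e]
  have := Vg.div hπ (n := m) ((a1.add a2.neg).add a3.neg) (u := (1 : O)) isUnit_one
  rwa [add_sub_cancel_right] at this

/-- `3 v(E(u, w, z)) ≥ v(f(u)) + v(f(w)) + v(f(z))`.
Proof: `E(u, w, z) = D(u + w; z) - D(u; z) - D(w; z)`. If `v(f(u)) ≡ v(f(w))` mod `3` multiply `u`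
by a power of `π` to have equality; if the three values are different mod `3` their sum is divisible
by `3`; multiply `u` by a power of `π` such that `v(f(w)) = v(f(u)) ± 1` and use integrality
(`E` is symmetric; if the sum is `1` mod `3` two of the values are congruent). -/
theorem An.E_le (h : An c W) (hπ : Irreducible π) {u w z : V} (hu : u ∈ W) (hw : w ∈ W)
    (hz : z ∈ W) {i j l k : ℤ} (hi : Vg π i (c.f u)) (hj : Vg π j (c.f w))
    (hl : Vg π l (c.f z)) (hk : 3 * k ≤ i + j + l + 2) : Vg π k (c.E u w z) := by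
  by_cases h1 : (j - i) % 3 = 0
  · exact h.E_core hπ hu hw hz (m := (j - i) / 3) (μ := j) hi hj hl (by omega) (by omega)
      (by omega)
  by_cases h2 : (l - i) % 3 = 0
  · rw [c.E_comm']
    exact h.E_core hπ hu hz hw (m := (l - i) / 3) (μ := l) hi hl hj (by omega) (by omega)
      (by omega)
  by_cases h3 : (l - j) % 3 = 0
  · rw [c.E_comm, c.E_comm']
    exact h.E_core hπ hw hz hu (m := (l - j) / 3) (μ := l) hj hl hi (by omega) (by omega)
      (by omega)
  by_cases h4 : (j + 1 - i) % 3 = 0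
  · exact h.E_core hπ hu hw hz (m := (j + 1 - i) / 3) (μ := j) hi hj hl (by omega) (by omega)
      (by omega)
  · exact h.E_core hπ hu hw hz (m := (j - 1 - i) / 3) (μ := j - 1) hi hj hl (by omega) (by omega)
      (by omega)

/-- `v(f(u + w)) = v(f(u))` if `v(f(u)) < v(f(w))`. -/
theorem An.f_add_lt (h : An c W) (hπ : Irreducible π) {u w : V} (hu : u ∈ W) (hw : w ∈ W)
    {i : ℤ} (hi : Vg π i (c.f u)) (hi' : ¬ Vg π (i + 1) (c.f u)) (hj : Vg π (i + 1) (c.f w)) :
    ¬ Vg π (i + 1) (c.f (u + w)) := by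
  intro h0
  apply hi'
  have e : c.f u = c.f (u + w) + -(c.D u w) + -(c.D w u) + -(c.f w) := by
    rw [c.f_add]
    ring
  rw [e]
  exact ((h0.add (h.D_le hπ hu hw hi hj (by omega)).neg).add
    (h.D_le hπ hw hu hj hi (by omega)).neg).add hj.neg

end Cu
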