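import Pool.Agent.Lib.MP_f80667_ag.Cu.Defs
import Pool.Agent.Lib.MP_f80667_ag.Hens

open Polynomial IsLocalRing

namespace CuX
open Cu

variable {O K : Type*} [CommRing O] [IsDomain O] [IsDiscreteValuationRing O] [Field K]
  [Algebra O K] [IsFractionRing O K] {π : O}

theorem pi_ne (hπ : Irreducible π) : algebraMap O K π ≠ 0 := by
  rw [Ne, IsFractionRing.to_map_eq_zero_iff]
  exact hπ.ne_zero

theorem exists_ord (hπ : Irreducible π) {x : K} (hx : x ≠ 0) :
    ∃ (k : ℤ) (u : O), IsUnit u ∧ x = algebraMap O K π ^ k * algebraMap O K u := by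
  obtain ⟨a, b, hb, rfl⟩ := IsFractionRing.div_surjective (A := O) x
  have hb0 : b ≠ 0 := nonZeroDivisors.ne_zero hb
  have ha0 : a ≠ 0 := by
    rintro rfl
    simp at hx
  obtain ⟨i, u, hu⟩ := IsDiscreteValuationRing.eq_unit_mul_pow_irreducible ha0 hπ
  obtain ⟨j, v, hv⟩ := IsDiscreteValuationRing.eq_unit_mul_pow_irreducible hb0 hπ
  refine ⟨(i : ℤ) - j, ((v⁻¹ : Oˣ) : O) * u, (v⁻¹).isUnit.mul u.isUnit, ?_⟩
  have hp := pi_ne (K := K) hπ
  have hv0 : algebraMap O K (v : O) ≠ 0 := by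
    rw [Ne, IsFractionRing.to_map_eq_zero_iff]
    exact v.ne_zero
  have hvv : algebraMap O K ((v⁻¹ : Oˣ) : O) * algebraMap O K (v : O) = 1 := by
    rw [← map_mul, Units.inv_mul, map_one]
  rw [hu, hv, map_mul, map_mul, map_pow, map_pow, zpow_sub₀ hp, zpow_natCast, zpow_natCast, map_mul]
  rw [div_eq_iff (mul_ne_zero hv0 (pow_ne_zero _ hp))]
  field_simp
  rw [hvv]

theorem vg_iff (hπ : Irreducible π) {k i : ℤ} {u : O} (hu : IsUnit u) :
    Vg π i (algebraMap O K π ^ k * algebraMap O K u) ↔ i ≤ k := by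
  have hp := pi_ne (K := K) hπ
  constructor
  · rintro ⟨a, ha⟩
    by_contra hlt
    push Not at hlt
    obtain ⟨m, hm⟩ := Int.le.dest hlt.le
    have hm0 : m ≠ 0 := by
      rintro rfl
      simp at hm
      omega
    have h1 : algebraMap O K u = algebraMap O K (π ^ m * a) := by
      apply mul_left_cancel₀ (zpow_ne_zero k hp)
      rw [ha, map_mul, map_pow, ← hm, zpow_add₀ hp, zpow_natCast]
      ring
    have h2 : u = π ^ m * a := IsFractionRing.injective O K h1
    rw [h2] at hu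
    have h3 : IsUnit (π ^ m) := isUnit_of_mul_isUnit_left hu
    exact hπ.not_isUnit ((isUnit_pow_iff hm0).1 h3)
  · intro h
    obtain ⟨m, rfl⟩ := Int.le.dest h
    refine ⟨π ^ m * u, ?_⟩
    rw [map_mul, map_pow, zpow_add₀ hp, zpow_natCast]
    ring

end CuX
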