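import Pool.Agent.Lib.MP_f80667_ag.Cu.Defs

/-! A cubic polynomial without zero over a complete discretely valued field. -/

open Polynomial IsLocalRing

namespace Cu

section nb

variable {O K : Type*} [CommRing O] [IsDomain O] [IsDiscreteValuationRing O] [Field K]
  [Algebra O K] [IsFractionRing O K] {π : O}

/-- Every `x ≠ 0` is `u π ^ k` with a unit `u`. -/
theorem nb_ord (hπ : Irreducible π) {x : K} (hx : x ≠ 0) :
    ∃ (k : ℤ) (u : Oˣ), x = algebraMap O K π ^ k * algebraMap O K u := by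
  have hπ0 : algebraMap O K π ≠ 0 := by
    rw [Ne, IsFractionRing.to_map_eq_zero_iff]
    exact hπ.ne_zero
  obtain ⟨a, b, hb, rfl⟩ := IsFractionRing.div_surjective (A := O) x
  have hb0 : b ≠ 0 := nonZeroDivisors.ne_zero hb
  have ha0 : a ≠ 0 := by
    rintro rfl
    exact hx (by rw [map_zero, zero_div])
  obtain ⟨m, u, hu⟩ := IsDiscreteValuationRing.eq_unit_mul_pow_irreducible ha0 hπ
  obtain ⟨n, w, hw⟩ := IsDiscreteValuationRing.eq_unit_mul_pow_irreducible hb0 hπ
  refine ⟨(m : ℤ) - n, u * w⁻¹, ?_⟩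
  have hw0 : algebraMap O K (w : O) ≠ 0 := by
    rw [Ne, IsFractionRing.to_map_eq_zero_iff]
    exact w.ne_zero
  have hwi : algebraMap O K ((w⁻¹ : Oˣ) : O) = (algebraMap O K (w : O))⁻¹ := by
    exact eq_inv_of_mul_eq_one_left (by rw [← map_mul, Units.inv_mul, map_one])
  rw [hu, hw, zpow_sub₀ hπ0, zpow_natCast, zpow_natCast, Units.val_mul, map_mul, map_mul, map_mul,
    map_pow, map_pow, hwi]
  field_simp

/-- An element of order at least `1`. -/
theorem nb_mem (hπ : Irreducible π) {e : ℤ} (he : 1 ≤ e) (u : Oˣ) :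
    ∃ p : O, p ∈ maximalIdeal O ∧ algebraMap O K p =
      algebraMap O K π ^ e * algebraMap O K u := by
  obtain ⟨n, rfl⟩ := Int.eq_ofNat_of_zero_le (by omega : 0 ≤ e)
  refine ⟨π ^ n * u, ?_, ?_⟩
  · apply Ideal.mul_mem_right
    have hn : n ≠ 0 := by omega
    obtain ⟨m, rfl⟩ := Nat.exists_eq_succ_of_ne_zero hn
    rw [pow_succ]
    apply Ideal.mul_mem_left
    rw [mem_maximalIdeal]
    exact hπ.not_isUnit
  · rw [map_mul, map_pow, zpow_natCast]

variable [IsAdicComplete (maximalIdeal O) O]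

/-- Hensel. -/
theorem nb_hens {p r : O} (hp : p ∈ maximalIdeal O) (hr : r ∈ maximalIdeal O) :
    ∃ x : O, IsUnit x ∧ x ^ 3 + x ^ 2 + p * x + r = 0 := by
  have hev : ∀ y : O, (X ^ 3 + X ^ 2 + C p * X + C r : O[X]).eval y =
      y ^ 3 + y ^ 2 + p * y + r := by
    intro y
    simp only [eval_add, eval_mul, eval_pow, eval_X, eval_C]
  obtain ⟨x, hx, hx1⟩ := HenselianRing.is_henselian (I := maximalIdeal O)
    (X ^ 3 + X ^ 2 + C p * X + C r) (by monicity!) (-1) (by
      rw [hev]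
      have e : (-1 : O) ^ 3 + (-1) ^ 2 + p * (-1) + r = r - p := by ring
      rw [e]
      exact Ideal.sub_mem _ hr hp) (by
      have e : (derivative (X ^ 3 + X ^ 2 + C p * X + C r : O[X])).eval (-1) = 1 + p := by
        simp only [derivative_add, derivative_X_pow, derivative_C_mul, derivative_X, derivative_C,
          eval_add, eval_mul, eval_pow, eval_X, eval_C, eval_one, eval_zero]
        push_cast
        ring
      rw [e, map_add, Ideal.Quotient.eq_zero_iff_mem.2 hp, map_one, add_zero]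
      exact isUnit_one)
  rw [IsRoot, hev] at hx
  refine ⟨x, ?_, hx⟩
  by_contra hu
  have h1 : x ∈ maximalIdeal O := (mem_maximalIdeal _).2 hu
  have h2 : (1 : O) ∈ maximalIdeal O := by
    have := Ideal.sub_mem _ hx1 h1
    have e : x - -1 - x = (1 : O) := by ring
    rwa [e] at this
  exact (Ideal.ne_top_iff_one _).1 (Ideal.IsPrime.ne_top inferInstance) h2

/-- A cubic polynomial `a x^3 + b x^2 + c x + d` without zero satisfies `3 v(b) ≥ 2 v(a) + v(d)`. -/
theorem nb_bound (hπ : Irreducible π) {a b c d : K} (ha : a ≠ 0)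
    (h : ∀ x : K, a * x ^ 3 + b * x ^ 2 + c * x + d ≠ 0) {α β δ : ℤ} {ua ub ud : Oˣ}
    (ea : a = algebraMap O K π ^ α * algebraMap O K ua)
    (eb : b = algebraMap O K π ^ β * algebraMap O K ub)
    (ed : d = algebraMap O K π ^ δ * algebraMap O K ud) : 2 * α + δ ≤ 3 * β := by
  by_contra hlt
  push Not at hlt
  have hπ0 : algebraMap O K π ≠ 0 := by
    rw [Ne, IsFractionRing.to_map_eq_zero_iff]
    exact hπ.ne_zero
  have hu : ∀ u : Oˣ, algebraMap O K (u : O) ≠ 0 := by
    intro u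
    rw [Ne, IsFractionRing.to_map_eq_zero_iff]
    exact u.ne_zero
  have hui : ∀ u : Oˣ, algebraMap O K ((u⁻¹ : Oˣ) : O) = (algebraMap O K (u : O))⁻¹ := by
    intro u
    exact eq_inv_of_mul_eq_one_left (by rw [← map_mul, Units.inv_mul, map_one])
  have hb : b ≠ 0 := by rw [eb]; exact mul_ne_zero (zpow_ne_zero _ hπ0) (hu _)
  have hd : d ≠ 0 := by rw [ed]; exact mul_ne_zero (zpow_ne_zero _ hπ0) (hu _)
  -- the last coefficient in the first case
  have case1 : (∃ p : O, p ∈ maximalIdeal O ∧ algebraMap O K p = a * c / b ^ 2) → False := by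
    rintro ⟨p, hp, hpe⟩
    obtain ⟨r, hr, hre⟩ := nb_mem (K := K) hπ (e := 2 * α + δ - 3 * β) (by omega)
      (ua ^ 2 * ud * (ub⁻¹) ^ 3)
    have hre' : algebraMap O K r = a ^ 2 * d / b ^ 3 := by
      rw [hre, ea, ed, eb, zpow_sub₀ hπ0, zpow_add₀ hπ0, mul_comm 2 α, mul_comm 3 β, zpow_mul,
        zpow_mul]
      simp only [Units.val_mul, Units.val_pow_eq_pow_val, map_mul, map_pow, hui]
      have := hu ub
      have h5 : (algebraMap O K π) ^ β ≠ 0 := zpow_ne_zero _ hπ0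
      field_simp
    obtain ⟨x, -, hx⟩ := nb_hens hp hr
    apply h (b / a * algebraMap O K x)
    have hx' := congrArg (algebraMap O K) hx
    simp only [map_add, map_mul, map_pow, map_zero, hpe, hre'] at hx'
    field_simp at hx' ⊢
    linear_combination hx'
  by_cases hc : c = 0
  · exact case1 ⟨0, Ideal.zero_mem _, by rw [hc, map_zero, mul_zero, zero_div]⟩
  obtain ⟨γ, uc, ec⟩ := nb_ord (O := O) hπ hc
  by_cases hcase : β + δ ≤ 2 * γ
  · apply case1
    obtain ⟨p, hp, hpe⟩ := nb_mem (K := K) hπ (e := α + γ - 2 * β) (by omega)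
      (ua * uc * (ub⁻¹) ^ 2)
    refine ⟨p, hp, ?_⟩
    rw [hpe, ea, ec, eb, zpow_sub₀ hπ0, zpow_add₀ hπ0, mul_comm 2 β, zpow_mul]
    simp only [Units.val_mul, Units.val_pow_eq_pow_val, map_mul, map_pow, hui]
    have := hu ub
    have h5 : (algebraMap O K π) ^ β ≠ 0 := zpow_ne_zero _ hπ0
    field_simp
  · push Not at hcase
    obtain ⟨p, hp, hpe⟩ := nb_mem (K := K) hπ (e := β + δ - 2 * γ) (by omega)
      (ub * ud * (uc⁻¹) ^ 2)
    obtain ⟨r, hr, hre⟩ := nb_mem (K := K) hπ (e := α + 2 * δ - 3 * γ) (by omega)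
      (ua * ud ^ 2 * (uc⁻¹) ^ 3)
    have h5 : (algebraMap O K π) ^ γ ≠ 0 := zpow_ne_zero _ hπ0
    have h6 := hu uc
    have hpe' : algebraMap O K p = b * d / c ^ 2 := by
      rw [hpe, eb, ed, ec, zpow_sub₀ hπ0, zpow_add₀ hπ0, mul_comm 2 γ, zpow_mul]
      simp only [Units.val_mul, Units.val_pow_eq_pow_val, map_mul, map_pow, hui]
      field_simp
    have hre' : algebraMap O K r = a * d ^ 2 / c ^ 3 := by
      rw [hre, ea, ed, ec, zpow_sub₀ hπ0, zpow_add₀ hπ0, mul_comm 2 δ, mul_comm 3 γ, zpow_mul,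
        zpow_mul]
      simp only [Units.val_mul, Units.val_pow_eq_pow_val, map_mul, map_pow, hui]
      field_simp
    obtain ⟨x, hxu, hx⟩ := nb_hens hp hr
    have hx0 : algebraMap O K x ≠ 0 := by
      obtain ⟨w, rfl⟩ := hxu
      exact hu w
    apply h (d / c * (algebraMap O K x)⁻¹)
    have hx' := congrArg (algebraMap O K) hx
    simp only [map_add, map_mul, map_pow, map_zero, hpe', hre'] at hx'
    field_simp at hx' ⊢
    linear_combination d * hx'

omit [IsAdicComplete (maximalIdeal O) O] in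
/-- The order of `π ^ k u`. -/
theorem nb_le (hπ : Irreducible π) {i k : ℤ} {u : Oˣ}
    (h : Vg π i (algebraMap O K π ^ k * algebraMap O K u)) : i ≤ k := by
  by_contra hlt
  push Not at hlt
  have hπ0 : algebraMap O K π ≠ 0 := by
    rw [Ne, IsFractionRing.to_map_eq_zero_iff]
    exact hπ.ne_zero
  obtain ⟨a, ha⟩ := h
  obtain ⟨n, hn⟩ := Int.eq_ofNat_of_zero_le (by omega : 0 ≤ i - k)
  have e1 : algebraMap O K (u : O) = algebraMap O K (π ^ n * a) := by
    have h5 : (algebraMap O K π) ^ k ≠ 0 := zpow_ne_zero _ hπ0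
    apply mul_left_cancel₀ h5
    rw [ha, map_mul, map_pow, ← zpow_natCast, ← hn, ← mul_assoc, ← zpow_add₀ hπ0]
    congr 2
    omega
  have e2 : (u : O) = π ^ n * a := IsFractionRing.injective O K e1
  have hn0 : n ≠ 0 := by omega
  have e3 : π ∣ (u : O) := by
    rw [e2]
    exact (dvd_pow_self π hn0).mul_right a
  exact hπ.not_isUnit (isUnit_of_dvd_unit e3 u.isUnit)

/-- A binary cubic form `a x^3 + b x^2 y + c x y^2 + d y^3` without zero satisfies
`3 v(b) ≥ 2 v(a) + v(d)`. -/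
theorem binary_bound' (hπ : Irreducible π) {a b c d : K} (ha : a ≠ 0)
    (h : ∀ x : K, a * x ^ 3 + b * x ^ 2 + c * x + d ≠ 0) {i j k : ℤ} (hi : Vg π i a)
    (hj : Vg π j d) (hk : 3 * k ≤ 2 * i + j + 2) : Vg π k b := by
  have hπ0 : algebraMap O K π ≠ 0 := by
    rw [Ne, IsFractionRing.to_map_eq_zero_iff]
    exact hπ.ne_zero
  have hd : d ≠ 0 := by
    have := h 0
    intro h0
    apply this
    rw [h0]; ring
  by_cases hb : b = 0
  · exact ⟨0, by rw [hb, map_zero, mul_zero]⟩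
  obtain ⟨α, ua, ea⟩ := nb_ord (O := O) hπ ha
  obtain ⟨β, ub, eb⟩ := nb_ord (O := O) hπ hb
  obtain ⟨δ, ud, ed⟩ := nb_ord (O := O) hπ hd
  have h1 : i ≤ α := by rw [ea] at hi; exact nb_le hπ hi
  have h2 : j ≤ δ := by rw [ed] at hj; exact nb_le hπ hj
  have h3 := nb_bound hπ ha h ea eb ed
  obtain ⟨n, hn⟩ := Int.eq_ofNat_of_zero_le (by omega : 0 ≤ β - k)
  refine ⟨π ^ n * ub, ?_⟩
  rw [eb, map_mul, map_pow, ← zpow_natCast, ← mul_assoc, ← zpow_add₀ hπ0]
  congr 2
  omega

end nb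

end Cu
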