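import Pool.Agent.Lib.MP_f80667_ag.Cu.PlaneA

/-! Plane sections through two inequivalent points. -/

open Polynomial IsLocalRing Pool.Agent.Lib.MP_f80667_ag.LF

namespace Cu

universe u

variable {k : Type u} [NontriviallyNormedField k] [IsUltrametricDist k] [ProperSpace k]
  [CharZero k] {n : ℕ} {T : Tn k n} {G : Type u} [AddCommGroup G] {C : Th k T G}
  {M L : Type u} [Field M] [Field L] [Algebra k M] [Algebra k L]
  [Algebra M L] [IsScalarTower k M L] [FiniteDimensional k M] [FiniteDimensional k L]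
  {κ : M} {P Q : Fin n → M}

/-- `WR` is invariant under the permutation of the three points. -/
theorem WR_rot {K V : Type*} [Field K] [AddCommGroup V] [Module K V] {c : Cb K V} {P Q w : V}
    (h : w ∈ WR c P Q) : w ∈ WR c (-Q) (P - Q) := by
  obtain ⟨⟨h1, h2⟩, h3⟩ := h
  rw [SetLike.mem_coe, LinearMap.mem_ker, Cb.Dl_apply] at h1 h2
  rw [SetLike.mem_coe, LinearMap.mem_ker, Cb.El_apply] at h3
  have hE : ∀ x y : V, c.E x (-y) w = - c.E x y w := by
    intro x y
    have := c.E_smul2 (-1) x y w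
    simpa using this
  have hE1 : ∀ x y : V, c.E (-x) y w = - c.E x y w := by
    intro x y
    have := c.E_smul1 (-1) x y w
    simpa using this
  refine ⟨⟨?_, ?_⟩, ?_⟩
  · rw [SetLike.mem_coe, LinearMap.mem_ker, Cb.Dl_apply, Cb.neg_D, h2]
  · rw [SetLike.mem_coe, LinearMap.mem_ker, Cb.Dl_apply, sub_eq_add_neg, c.add_D, Cb.neg_D, h1, h2,
      hE, h3]
    ring
  · rw [SetLike.mem_coe, LinearMap.mem_ker, Cb.El_apply, sub_eq_add_neg, Cb.E_add2, hE, hE1, hE1,
      c.E_comm Q P, h3, c.E_self, h2]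
    ring

/-- The same for all vectors such that not all of `p, q, c` are in the maximal ideal.
Proof: `core` for `(P, Q)`, `(-Q, P - Q)`, `(Q - P, -P)` (`NP.rot` twice): `(p, q)` becomes
`(-q, p - q)`, `(q - p, -p)`; `WR` does not change. -/
theorem NP.core' (hsm : Sm T) (h8 : 8 ≤ n) (h : NP C M κ P Q) (w : Fin n → M)
    (hw : w ∈ WR (ex T M) P Q) (hw0 : w ≠ 0) (p q c : O k M)
    (hp : (ex T M).D w P = κ * (p : M)) (hq : (ex T M).D w Q = κ * (q : M))
    (hc : (ex T M).f w = κ * (c : M)) (hu : IsUnit c ∨ IsUnit p ∨ IsUnit q) : False := by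
  by_cases huc : IsUnit c
  · exact h.core hsm h8 w hw hw0 p q c hp hq hc (Or.inl huc)
  have hpq := hu.resolve_left huc
  have hw1 := WR_rot hw
  have hp1 : (ex T M).D w (-Q) = κ * ((-q : O k M) : M) := by
    rw [Cb.D_neg, hq]
    push_cast
    ring
  have hq1 : (ex T M).D w (P - Q) = κ * ((p - q : O k M) : M) := by
    rw [Cb.D_sub, hp, hq]
    push_cast
    ring
  by_cases hup : IsUnit p
  · by_cases huq : IsUnit q
    · refine (h.rot hsm h8).core hsm h8 w hw1 hw0 (-q) (p - q) c hp1 hq1 hc (Or.inr ⟨huq.neg, ?_⟩)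
      have h1 : -q - (p - q) = -p := by ring
      rw [h1]
      exact hup.neg
    · refine h.core hsm h8 w hw hw0 p q c hp hq hc (Or.inr ⟨hup, ?_⟩)
      by_contra hcon
      have h1 : p - q ∈ maximalIdeal (O k M) := hcon
      have h2 : q ∈ maximalIdeal (O k M) := huq
      have h3 := add_mem h1 h2
      rw [sub_add_cancel] at h3
      exact h3 hup
  · have huq := hpq.resolve_left hup
    have h1 : IsUnit (p - q) := by
      by_contra hcon
      have h1 : p - q ∈ maximalIdeal (O k M) := hcon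
      have h2 : p ∈ maximalIdeal (O k M) := hup
      have h3 := sub_mem h2 h1
      rw [sub_sub_cancel] at h3
      exact h3 huq
    have hp2 : (ex T M).D w (-(P - Q)) = κ * ((-(p - q) : O k M) : M) := by
      rw [Cb.D_neg, hq1]
      push_cast
      ring
    have hq2 : (ex T M).D w (-Q - (P - Q)) = κ * ((-q - (p - q) : O k M) : M) := by
      rw [Cb.D_sub, hp1, hq1]
      push_cast
      ring
    refine ((h.rot hsm h8).rot hsm h8).core hsm h8 w (WR_rot hw1) hw0 _ _ c hp2 hq2 hc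
      (Or.inr ⟨h1.neg, ?_⟩)
    have h2 : -(p - q) - (-q - (p - q)) = q := by ring
    rw [h2]
    exact huq

theorem vg_unit {O K : Type*} [CommRing O] [IsDomain O] [IsDiscreteValuationRing O] [Field K]
    [Algebra O K] [IsFractionRing O K] {π : O} (hπ : Irreducible π) {i : ℤ} {x : K} {a : O}
    (hx : x = algebraMap O K π ^ i * algebraMap O K a) (h : ¬ Vg π (i + 1) x) : IsUnit a := by
  by_contra hcon
  have h1 : a ∈ maximalIdeal O := hcon
  rw [hπ.maximalIdeal_eq, Ideal.mem_span_singleton] at h1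
  obtain ⟨b, rfl⟩ := h1
  refine h ⟨b, ?_⟩
  rw [hx, zpow_add_one₀ (pi_ne hπ), map_mul]
  ring

/-- The scaling exponent. -/
theorem exists_exp {O K : Type*} [CommRing O] [IsDomain O] [IsDiscreteValuationRing O] [Field K]
    [Algebra O K] [IsFractionRing O K] {π : O} (hπ : Irreducible π) (y z : K) (i : ℤ)
    (hcon : (3 : ℤ) ∣ i ∨ ∃ j : ℤ, 3 * j ≤ 2 * i + 3 ∧ (¬ Vg π j y ∨ ¬ Vg π j z)) :
    ∃ t : ℤ, 3 * t ≤ 2 * i ∧ Vg π t y ∧ Vg π t z ∧
      (3 * t = 2 * i ∨ ¬ Vg π (t + 1) y ∨ ¬ Vg π (t + 1) z) := by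
  have hex : ∀ x : K, ∃ b : ℤ, Vg π b x := by
    intro x
    by_cases hx : x = 0
    · rw [hx]
      exact ⟨0, Vg.zero 0⟩
    · obtain ⟨b, u, _, hb⟩ := exists_ord (O := O) hπ hx
      exact ⟨b, u, hb⟩
  obtain ⟨b1, hb1⟩ := hex y
  obtain ⟨b2, hb2⟩ := hex z
  obtain ⟨t, ⟨h1, h2, h3⟩, ht⟩ := Int.exists_greatest_of_bdd
    (P := fun t : ℤ => 3 * t ≤ 2 * i ∧ Vg π t y ∧ Vg π t z) ⟨|i|, fun t ht => by
      have := abs_nonneg i
      have h4 := le_abs_self i
      have h5 := ht.1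
      omega⟩ ⟨min (min b1 b2) (-|i|), by
        have h4 := neg_abs_le i
        have h5 := abs_nonneg i
        have h6 := min_le_right (min b1 b2) (-|i|)
        omega, hb1.mono hπ ((min_le_left _ _).trans (min_le_left _ _)),
        hb2.mono hπ ((min_le_left _ _).trans (min_le_right _ _))⟩
  refine ⟨t, h1, h2, h3, ?_⟩
  by_contra hc
  push Not at hc
  obtain ⟨h4, h5, h6⟩ := hc
  have h7 : ¬ 3 * (t + 1) ≤ 2 * i := by
    intro h7
    have := ht (t + 1) ⟨h7, h5, h6⟩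
    omega
  rcases hcon with ⟨a, rfl⟩ | ⟨j, hj, hj'⟩
  · omega
  · have h8 : t + 1 < j := by
      by_contra h9
      rcases hj' with h | h
      · exact h (h5.mono hπ (by omega))
      · exact h (h6.mono hπ (by omega))
    omega

/-- Orders of the values on `WR`.
Proof: let `i`, `v_p`, `v_q` be the orders of `κ⁻¹ f(w)`, `κ⁻¹ D(w; P)`, `κ⁻¹ D(w; Q)`. Suppose
`3 ∣ i` or `3 v_p ≤ 2 i` or `3 v_q ≤ 2 i`; then `μ = min (i / 3, v_p / 2, v_q / 2)` is in `ℤ` or in
`ℤ / 2`. Over the extension of `exists_sqrt` (degree `2`, the orders are multiplied by an even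
number `e`) `e μ` is an integer; multiply `w` by the power `- e μ` of the uniformizer and use
`core'`. -/
theorem NP.claim (hsm : Sm T) (h8 : 8 ≤ n) (h : NP C M κ P Q) {w : Fin n → M}
    (hw : w ∈ WR (ex T M) P Q) {π : O k M} (hπ : Irreducible π) {i : ℤ}
    (hi : Vg π i (κ⁻¹ * (ex T M).f w)) (hi' : ¬ Vg π (i + 1) (κ⁻¹ * (ex T M).f w)) :
    ¬ (3 : ℤ) ∣ i ∧ ∀ j : ℤ, 3 * j ≤ 2 * i + 3 →
      Vg π j (κ⁻¹ * (ex T M).D w P) ∧ Vg π j (κ⁻¹ * (ex T M).D w Q) := by
  by_contra hcon0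
  have hcon : (3 : ℤ) ∣ i ∨ ∃ j : ℤ, 3 * j ≤ 2 * i + 3 ∧
      (¬ Vg π j (κ⁻¹ * (ex T M).D w P) ∨ ¬ Vg π j (κ⁻¹ * (ex T M).D w Q)) := by
    by_contra hc
    push Not at hc
    exact hcon0 ⟨hc.1, hc.2⟩
  obtain ⟨t, ht1, ⟨y0, hy0⟩, ⟨z0, hz0⟩, ht2⟩ := exists_exp hπ _ _ i hcon
  obtain ⟨u, hu⟩ := hi
  have hunit := vg_unit hπ hu hi'
  have hw0 : w ≠ 0 := by
    rintro rfl
    apply hi'
    rw [Cb.f_zero, mul_zero]
    exact Vg.zero _
  obtain ⟨L, iL1, iL2, iL3, iL4, iL5, hdeg, η, hη⟩ := exists_sqrt k M π hπ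
  have hNP : NP C L (algebraMap M L κ) (Cu.up L P) (Cu.up L Q) := h.up hsm h8 (by rw [hdeg]; decide)
  have hη' : (η : L) ^ 2 = algebraMap M L (π : M) := congrArg Subtype.val hη
  have hη0 : (η : L) ≠ 0 := by
    intro h0
    rw [h0, zero_pow two_ne_zero] at hη'
    have h1 : (π : M) = 0 := (map_eq_zero (algebraMap M L)).1 hη'.symm
    exact hπ.ne_zero (Subtype.ext h1)
  have hκL : algebraMap M L κ ≠ 0 := (_root_.map_ne_zero _).2 h.hκ
  have hπL : ∀ m : ℤ, algebraMap M L ((π : M) ^ m) = (η : L) ^ (2 * m) := by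
    intro m
    rw [map_zpow₀, ← hη', zpow_mul]
    norm_cast
  have hκx : ∀ x : M, algebraMap M L x = algebraMap M L κ * algebraMap M L (κ⁻¹ * x) := by
    intro x
    rw [← map_mul, mul_inv_cancel_left₀ h.hκ]
  set s : L := (η : L) ^ (-t) with hs
  obtain ⟨d, hd⟩ := Int.eq_ofNat_of_zero_le (show 0 ≤ 2 * i - 3 * t by omega)
  have hw' : s • Cu.up L w ∈ WR (ex T L) (Cu.up L P) (Cu.up L Q) := by
    obtain ⟨⟨h1, h2⟩, h3⟩ := hw
    rw [SetLike.mem_coe, LinearMap.mem_ker, Cb.Dl_apply] at h1 h2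
    rw [SetLike.mem_coe, LinearMap.mem_ker, Cb.El_apply] at h3
    refine Submodule.smul_mem _ _ ⟨⟨?_, ?_⟩, ?_⟩
    · rw [SetLike.mem_coe, LinearMap.mem_ker, Cb.Dl_apply, ex_D, h1, map_zero]
    · rw [SetLike.mem_coe, LinearMap.mem_ker, Cb.Dl_apply, ex_D, h2, map_zero]
    · rw [SetLike.mem_coe, LinearMap.mem_ker, Cb.El_apply, ex_E, h3, map_zero]
  have hw0' : s • Cu.up L w ≠ 0 := by
    refine smul_ne_zero (zpow_ne_zero _ hη0) ?_
    intro h0
    apply hw0
    funext j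
    have h1 : algebraMap M L (w j) = 0 := congrFun h0 j
    exact (map_eq_zero _).1 h1
  have hD : ∀ (A : Fin n → M) (a : O k M),
      κ⁻¹ * (ex T M).D w A = algebraMap (O k M) M π ^ t * algebraMap (O k M) M a →
      (ex T L).D (s • Cu.up L w) (Cu.up L A) = algebraMap M L κ * ((oMap k M L a : O k L) : L) := by
    intro A a hA
    rw [Cb.smul_D, ex_D, hκx, hA, map_mul]
    have h1 : algebraMap M L (algebraMap (O k M) M π ^ t) = (η : L) ^ (2 * t) := hπL t
    rw [h1, hs]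
    have h2 : ((η : L) ^ (-t)) ^ 2 * (η : L) ^ (2 * t) = 1 := by
      rw [← zpow_natCast, ← zpow_mul, ← zpow_add₀ hη0]
      have h3 : -t * ((2 : ℕ) : ℤ) + 2 * t = 0 := by push_cast; ring
      rw [h3, zpow_zero]
    have h4 : ((oMap k M L a : O k L) : L) = algebraMap M L (algebraMap (O k M) M a) := rfl
    rw [h4]
    linear_combination (algebraMap M L κ * algebraMap M L (algebraMap (O k M) M a)) * h2
  refine hNP.core' hsm h8 (s • Cu.up L w) hw' hw0' (oMap k M L y0) (oMap k M L z0)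
    (η ^ d * oMap k M L u) (hD P y0 hy0) (hD Q z0 hz0) ?_ ?_
  · rw [Cb.f_smul, ex_f, hκx, hu, map_mul]
    have h1 : algebraMap M L (algebraMap (O k M) M π ^ i) = (η : L) ^ (2 * i) := hπL i
    rw [h1, hs]
    have h2 : ((η : L) ^ (-t)) ^ 3 * (η : L) ^ (2 * i) = (η : L) ^ d := by
      rw [← zpow_natCast, ← zpow_mul, ← zpow_add₀ hη0, ← zpow_natCast]
      congr 1
      push_cast
      linarith
    have h4 : ((oMap k M L u : O k L) : L) = algebraMap M L (algebraMap (O k M) M u) := rfl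
    push_cast
    rw [h4]
    linear_combination (algebraMap M L κ * algebraMap M L (algebraMap (O k M) M u)) * h2
  · rcases ht2 with h1 | h1 | h1
    · left
      have hd0 : d = 0 := by omega
      rw [hd0, pow_zero, one_mul, oMap_unit]
      exact hunit
    · right; left
      rw [oMap_unit]
      exact vg_unit hπ hy0 h1
    · right; right
      rw [oMap_unit]
      exact vg_unit hπ hz0 h1

end Cu
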