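import Pool.Agent.Lib.MP_f80667_ag.Cu.Pts
import Pool.Agent.Lib.MP_f80667_ag.Cu.Irr

/-! Plane sections through two inequivalent points: the main case. -/

open Polynomial IsLocalRing Pool.Agent.Lib.MP_f80667_ag.LF

namespace Cu

universe u

/-- The intersection of the tangent spaces of `P`, `Q`, `P - Q`. -/
def WR {K V : Type*} [Field K] [AddCommGroup V] [Module K V] (c : Cb K V) (P Q : V) :
    Submodule K V := WT c P Q ⊓ LinearMap.ker (c.El P Q)

section dim

variable {K : Type*} [Field K] {n : ℕ}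

theorem finrank_WR (c : Cb K (Fin n → K)) (P Q : Fin n → K) :
    n ≤ Module.finrank K (WR c P Q) + 3 := by
  have h1 : WR c P Q = LinearMap.ker ((c.Dl P).prod ((c.Dl Q).prod (c.El P Q))) := by
    rw [LinearMap.ker_prod, LinearMap.ker_prod, WR, WT, inf_assoc]
  have h2 := LinearMap.finrank_range_add_finrank_ker ((c.Dl P).prod ((c.Dl Q).prod (c.El P Q)))
  have h3 := Submodule.finrank_le (LinearMap.range ((c.Dl P).prod ((c.Dl Q).prod (c.El P Q))))
  rw [Module.finrank_fin_fun] at h2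
  simp only [Module.finrank_prod, Module.finrank_self] at h3
  rw [h1]
  omega

end dim

section alg

variable {R V : Type*} [CommRing R] [AddCommGroup V] [Module R V] (c : Cb R V)

/-- The form on the span of `P`, `Q`, `w`. -/
private theorem Cb.f_pl (κ x y t : R) (P Q w : V) (hP : c.f P = 0) (hQ : c.f Q = 0)
    (hPQ : c.D P Q = κ) (hQP : c.D Q P = κ) (hPw : c.D P w = 0) (hQw : c.D Q w = 0)
    (hE : c.E P Q w = 0) :
    c.f (x • P + y • Q + t • w) = κ * (x * y * (x + y)) +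
      t ^ 2 * (x * c.D w P + y * c.D w Q) + t ^ 3 * c.f w := by
  rw [c.f_add, c.f_lin, c.D_smul, c.add_D, c.smul_D, c.smul_D, c.E_smul1, c.E_smul2,
    c.smul_D t w, c.D_add, c.D_smul, c.D_smul, c.f_smul, hP, hQ, hPQ, hQP, hPw, hQw, hE]
  ring

/-- The derivative at `Q` on the span of `P`, `Q`, `w`. -/
private theorem Cb.D_pl (κ x y t : R) (P Q w : V) (hQ : c.f Q = 0) (hQP : c.D Q P = κ)
    (hQw : c.D Q w = 0) : c.D Q (x • P + y • Q + t • w) = x * κ := by
  rw [c.D_add, c.D_add, c.D_smul, c.D_smul, c.D_smul, hQP, hQw, c.D_self, hQ]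
  ring

/-- The derivative at `P - Q`. -/
private theorem Cb.D_sub_pl (κ x y t : R) (P Q w : V) (hP : c.f P = 0) (hQ : c.f Q = 0)
    (hPQ : c.D P Q = κ) (hQP : c.D Q P = κ) (hPw : c.D P w = 0) (hQw : c.D Q w = 0)
    (hE : c.E P Q w = 0) :
    c.D (P - Q) (x • P + y • Q + t • w) = - (x + y) * κ := by
  have e1 : P - Q = P + (-1 : R) • Q := by rw [neg_one_smul, sub_eq_add_neg]
  have e2 : c.E P Q P = 2 * κ := by rw [c.E_comm', c.E_self, hPQ]
  have e3 : c.E P Q Q = 2 * κ := by rw [c.E_comm, c.E_comm', c.E_self, hQP]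
  rw [e1, c.add_D, c.smul_D, c.E_smul2, c.D_add, c.D_add, c.D_smul, c.D_smul, c.D_smul,
    c.D_add, c.D_add, c.D_smul, c.D_smul, c.D_smul, c.E_add, c.E_add, c.E_smul, c.E_smul,
    c.E_smul, c.D_self, c.D_self, hP, hQ, hPQ, hQP, hPw, hQw, hE, e2, e3]
  ring

end alg

section lin

variable {K V : Type*} [Field K] [AddCommGroup V] [Module K V] {c : Cb K V} {κ : K} {P Q w : V}

private theorem indep3 (hκ : κ ≠ 0) (hw0 : w ≠ 0) (hP : c.f P = 0) (hQ : c.f Q = 0)
    (hPQ : c.D P Q = κ) (hQP : c.D Q P = κ) (hPw : c.D P w = 0) (hQw : c.D Q w = 0) {x y t : K}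
    (h : x • P + y • Q + t • w = 0) : x = 0 ∧ y = 0 ∧ t = 0 := by
  have h1 := c.D_pl κ x y t P Q w hQ hQP hQw
  rw [h, c.D_zero] at h1
  have hx : x = 0 := by
    rcases mul_eq_zero.1 h1.symm with h2 | h2
    · exact h2
    · exact absurd h2 hκ
  have h3 := c.D_pl κ y x t Q P w hP hPQ hPw
  have h4 : y • Q + x • P + t • w = 0 := by rw [← h]; abel
  rw [h4, c.D_zero] at h3
  have hy : y = 0 := by
    rcases mul_eq_zero.1 h3.symm with h2 | h2
    · exact h2
    · exact absurd h2 hκ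
  rw [hx, hy, zero_smul, zero_smul, zero_add, zero_add] at h
  exact ⟨hx, hy, (smul_eq_zero.1 h).resolve_right hw0⟩

end lin

section poly

variable {K : Type*} [Field K]

private theorem sep_quad [CharZero K] {b d : K} (h : b ^ 2 ≠ 4 * d) :
    (X ^ 2 + C b * X + C d : K[X]).Separable := by
  have h1 : 4 * d - b ^ 2 ≠ 0 := sub_ne_zero.2 (Ne.symm h)
  rw [Polynomial.separable_def]
  refine ⟨C (4 / (4 * d - b ^ 2)), - C (1 / (4 * d - b ^ 2)) * (2 * X + C b), ?_⟩
  have h2 : derivative (X ^ 2 + C b * X + C d : K[X]) = 2 * X + C b := by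
    simp
    norm_num
  rw [h2]
  have h3 : C (4 / (4 * d - b ^ 2)) = 4 * C (1 / (4 * d - b ^ 2)) := by
    have : (4 : K[X]) = C 4 := (map_ofNat C 4).symm
    rw [this, ← C_mul]
    congr 1
    ring
  have h4 : C (1 / (4 * d - b ^ 2)) * (4 * C d - C b ^ 2) = 1 := by
    have : (4 : K[X]) = C 4 := (map_ofNat C 4).symm
    rw [this, ← C_mul, ← C_pow, ← C_sub, ← C_mul, one_div_mul_cancel h1, C_1]
  rw [h3]
  linear_combination h4

private theorem exists_nonroot {R : Type*} [CommRing R] [IsDomain R] [CharZero R] (z₀ π : R)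
    (hπ : π ≠ 0) (P : R[X]) (hP : P ≠ 0) : ∃ t : ℕ, P.eval (z₀ + π * t) ≠ 0 := by
  by_contra hcon
  push Not at hcon
  apply hP
  apply Polynomial.eq_zero_of_infinite_isRoot
  refine Set.infinite_of_injective_forall_mem (f := fun t : ℕ => z₀ + π * (t : R)) ?_ hcon
  intro a b hab
  have h1 := mul_left_cancel₀ hπ (add_left_cancel hab)
  exact_mod_cast h1

private theorem gze_map {R S : Type*} [CommRing R] [CommRing S] (φ : R →+* S) (p q c z e : R) :
    (gze p q c z e).map φ = gze (φ p) (φ q) (φ c) (φ z) (φ e) := by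
  simp [gze]

private theorem gze_eq {R : Type*} [CommRing R] (p q c z e : R) :
    gze p q c z e = C (q - z) * X ^ 3 + C ((2 * q - z) * e + c) * X ^ 2 + C (z ^ 2 - z * p + q * e ^ 2 + 2 * c * e) * X +
    C (e * (c * e - z * p)) := by
  simp only [gze, C_sub, C_add, C_mul, C_pow]
  have h2 : (C (2 : R) : R[X]) = 2 := map_ofNat C 2
  rw [h2]
  ring

end poly

variable {k : Type u} [NontriviallyNormedField k] [IsUltrametricDist k] [ProperSpace k]
  [CharZero k] {n : ℕ} {T : Tn k n} {G : Type u} [AddCommGroup G] {C : Th k T G}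
  {M L : Type u} [Field M] [Field L] [Algebra k M] [Algebra k L]
  [Algebra M L] [IsScalarTower k M L] [FiniteDimensional k M] [FiniteDimensional k L]
  {κ : M} {P Q : Fin n → M}

omit [IsUltrametricDist k] [ProperSpace k] [CharZero k] [FiniteDimensional k M]
  [FiniteDimensional k L] in
/-- The point on the conic is in the hypersurface. -/
private theorem conic_pt (hκ : κ ≠ 0) {w : Fin n → M} (hP : (ex T M).f P = 0)
    (hQ : (ex T M).f Q = 0) (hPQ : (ex T M).D P Q = κ) (hQP : (ex T M).D Q P = κ)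
    (hPw : (ex T M).D P w = 0) (hQw : (ex T M).D Q w = 0) (hE : (ex T M).E P Q w = 0)
    {p q c z e : M} (hp : (ex T M).D w P = κ * p) (hq : (ex T M).D w Q = κ * q)
    (hc : (ex T M).f w = κ * c) (hz : z ≠ 0) (θ : L) (hθ : aeval θ (gze p q c z e) = 0) :
    (ex T L).f (-(algebraMap M L z) • up L P + (θ * (θ + algebraMap M L e)) • up L Q +
        (θ + algebraMap M L e) • up L w) = 0 ∧
      -(algebraMap M L z) • up L P + (θ * (θ + algebraMap M L e)) • up L Q +
        (θ + algebraMap M L e) • up L w ≠ 0 := by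
  have hP' : (ex T L).f (up L P) = 0 := by rw [ex_f, hP, map_zero]
  have hQ' : (ex T L).f (up L Q) = 0 := by rw [ex_f, hQ, map_zero]
  have hPQ' : (ex T L).D (up L P) (up L Q) = algebraMap M L κ := by rw [ex_D, hPQ]
  have hQP' : (ex T L).D (up L Q) (up L P) = algebraMap M L κ := by rw [ex_D, hQP]
  have hPw' : (ex T L).D (up L P) (up L w) = 0 := by rw [ex_D, hPw, map_zero]
  have hQw' : (ex T L).D (up L Q) (up L w) = 0 := by rw [ex_D, hQw, map_zero]
  have hE' : (ex T L).E (up L P) (up L Q) (up L w) = 0 := by rw [ex_E, hE, map_zero]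
  constructor
  · rw [(ex T L).f_pl _ _ _ _ _ _ _ hP' hQ' hPQ' hQP' hPw' hQw' hE', ex_D, ex_D, ex_f, hp, hq, hc,
      map_mul, map_mul, map_mul]
    simp only [gze, map_add, map_sub, map_mul, map_pow, aeval_X, aeval_C] at hθ
    linear_combination (algebraMap M L κ * (θ + algebraMap M L e)) * hθ
  · intro h0
    have h1 := (ex T L).D_pl _ (-(algebraMap M L z)) (θ * (θ + algebraMap M L e))
      (θ + algebraMap M L e) _ _ _ hQ' hQP' hQw'
    rw [h0, Cb.D_zero] at h1
    have h2 : algebraMap M L κ ≠ 0 := (_root_.map_ne_zero _).2 hκ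
    have h3 : algebraMap M L z ≠ 0 := (_root_.map_ne_zero _).2 hz
    exact mul_ne_zero (neg_ne_zero.2 h3) h2 h1.symm

/-- The main computation. -/
private theorem NP.core_alg (hsm : Sm T) (h8 : 8 ≤ n) (h : NP C M κ P Q) (w : Fin n → M)
    (hw : w ∈ WR (ex T M) P Q) (hw0 : w ≠ 0) (p q c z e : M)
    (hp : (ex T M).D w P = κ * p) (hq : (ex T M).D w Q = κ * q)
    (hc : (ex T M).f w = κ * c) (hz : z ≠ 0) (hzq : z ≠ q) (hzp : z ≠ p)
    (hdisc : c ^ 2 ≠ 4 * (q - z) * z * (z - p)) (hy : c ^ 2 ≠ z * (q - p) ^ 2)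
    (hirr : Irreducible (gze p q c z e)) (hL : Unr k M L 3) (θ : L)
    (hθ : aeval θ (gze p q c z e) = 0) : False := by
  have hchar : CharZero M := charZero_of_injective_algebraMap (algebraMap k M).injective
  obtain ⟨hwT, hE⟩ := hw
  have hwT' := hwT
  obtain ⟨hPw, hQw⟩ := hwT
  rw [SetLike.mem_coe, LinearMap.mem_ker, Cb.Dl_apply] at hPw hQw
  rw [SetLike.mem_coe, LinearMap.mem_ker, Cb.El_apply] at hE
  obtain ⟨-, -, han⟩ := ne_props (C := C) hsm (by omega) (hiso_k k) h.P0 h.Q0 h.fP h.fQ h.ne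
  have hf0 : (ex T M).f w ≠ 0 := fun h0 => hw0 (han w hwT' h0)
  have hc0 : c ≠ 0 := by
    rintro rfl
    exact hf0 (by rw [hc, mul_zero])
  have hqz : q - z ≠ 0 := sub_ne_zero.2 (Ne.symm hzq)
  have hκ := h.hκ
  have hind : ∀ {x y t : M}, x • P + y • Q + t • w = 0 → x = 0 ∧ y = 0 ∧ t = 0 := fun hh =>
    indep3 h.hκ hw0 h.fP h.fQ h.PQ h.QP hPw hQw hh
  have hf : ∀ x y t : M, (ex T M).f (x • P + y • Q + t • w) =
      κ * (x * y * (x + y) + t ^ 2 * (x * p + y * q) + t ^ 3 * c) := by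
    intro x y t
    rw [(ex T M).f_pl κ x y t P Q w h.fP h.fQ h.PQ h.QP hPw hQw hE, hp, hq, hc]
    ring
  -- the conic
  have hli : LinearIndependent M ![P, Q, w] := by
    rw [Fintype.linearIndependent_iff]
    intro g hg
    rw [Fin.sum_univ_three] at hg
    obtain ⟨h1, h2, h3⟩ := hind hg
    intro i
    fin_cases i
    · exact h1
    · exact h2
    · exact h3
  have hcon := C.conic κ hκ P Q w h.P0 hli h.fP h.fQ h.PQ h.QP hPw hQw hE p q c z e hp hq hc
    hz hzq hzp hdisc hirr hL.deg θ hθ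
  obtain ⟨hpt, hpt0⟩ := conic_pt (T := T) (L := L) hκ h.fP h.fQ h.PQ h.QP hPw hQw hE hp hq hc hz θ
    hθ
  rw [h.cl_unr hsm h8 hL _ hpt0 hpt] at hcon
  -- the line
  obtain ⟨A₀, hA₀⟩ : ∃ A : Fin n → M, A = (-c) • Q + (q - z) • w := ⟨_, rfl⟩
  obtain ⟨B₀, hB₀⟩ : ∃ B : Fin n → M, B = (-(z * (q - z))) • P + (-(z * (z - p))) • Q := ⟨_, rfl⟩
  obtain ⟨y₃, hy₃⟩ : ∃ y : M, y = z * (p - q) / c := ⟨_, rfl⟩
  have hAB : ∀ x y : M, x • A₀ + y • B₀ = (-(y * (z * (q - z)))) • P +
      (-(c * x) - y * (z * (z - p))) • Q + (x * (q - z)) • w := by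
    intro x y
    rw [hA₀, hB₀]
    module
  have hAB1 : ∀ x : M, x • A₀ + B₀ = (-(z * (q - z))) • P +
      (-(c * x) - z * (z - p)) • Q + (x * (q - z)) • w := by
    intro x
    have := hAB x 1
    rw [one_smul, one_mul, one_mul] at this
    exact this
  have hfA : (ex T M).f A₀ = -(κ * c * z * (q - z) ^ 2) := by
    have h1 := hAB 1 0
    rw [one_smul, zero_smul, add_zero] at h1
    rw [h1, hf]
    ring
  have hfA0 : (ex T M).f A₀ ≠ 0 := by
    rw [hfA]
    exact neg_ne_zero.2 (mul_ne_zero (mul_ne_zero (mul_ne_zero hκ hc0) hz) (pow_ne_zero 2 hqz))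
  have hi : LinearIndependent M ![A₀, B₀] := by
    rw [LinearIndependent.pair_iff]
    intro x y hxy
    rw [hAB] at hxy
    obtain ⟨h1, h2, h3⟩ := hind hxy
    have hx : x = 0 := (mul_eq_zero.1 h3).resolve_right hqz
    have hy : y = 0 := (mul_eq_zero.1 (neg_eq_zero.1 h1)).resolve_right (mul_ne_zero hz hqz)
    exact ⟨hx, hy⟩
  obtain ⟨h₂, hh₂⟩ : ∃ h₂ : M[X], h₂ = X ^ 2 + Polynomial.C (c / (q - z)) * X +
    Polynomial.C (z * (z - p) / (q - z)) := ⟨_, rfl⟩
  have hm₂ : h₂.Monic := by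
    rw [hh₂]
    monicity!
  have hs₂ : h₂.Separable := by
    rw [hh₂]
    apply sep_quad
    intro hcon2
    apply hdisc
    field_simp at hcon2
    linear_combination hcon2
  have hev₂ : ∀ y : M, h₂.eval y = y ^ 2 + c / (q - z) * y + z * (z - p) / (q - z) := by
    intro y
    rw [hh₂]
    simp
  have hy₂ : h₂.eval y₃ ≠ 0 := by
    have h1 : h₂.eval y₃ = z * (z * (q - p) ^ 2 - c ^ 2) / c ^ 2 := by
      rw [hev₂, hy₃]
      field_simp
      ring
    rw [h1]
    exact div_ne_zero (mul_ne_zero hz (sub_ne_zero.2 (Ne.symm hy))) (pow_ne_zero 2 hc0)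
  have hcop : IsCoprime (X - Polynomial.C y₃) h₂ := by
    rw [(irreducible_X_sub_C y₃).coprime_iff_not_dvd, dvd_iff_isRoot]
    exact hy₂
  have hsep : ((X - Polynomial.C y₃) * h₂).Separable := separable_X_sub_C.mul hs₂ hcop
  have hmon : ((X - Polynomial.C y₃) * h₂).Monic := (monic_X_sub_C y₃).mul hm₂
  have hh : ∀ y : M, (ex T M).f (y • A₀ + B₀) = (ex T M).f A₀ *
      ((X - Polynomial.C y₃) * h₂).eval y := by
    intro y
    rw [hAB1, hf, hfA, eval_mul, eval_sub, eval_X, eval_C, hev₂, hy₃]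
    field_simp
    ring
  obtain ⟨e₁, e₂, he₁, he₂, hei, hkl⟩ := kline (k := k) (T := T) (WT (ex T M) P Q) han (by
    have := finrank_WT (ex T M) P Q
    omega)
  obtain ⟨η, hη⟩ := hkl L hL
  have hlin := C.line A₀ B₀ e₁ e₂ ((X - Polynomial.C y₃) * h₂) hmon hsep hfA0 hi hh (by
    intro x y hxy
    have h1 := han _ (Submodule.add_mem _ (Submodule.smul_mem _ x he₁)
      (Submodule.smul_mem _ y he₂)) hxy
    rw [LinearIndependent.pair_iff] at hei
    exact hei x y h1) η hL.deg hη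
  have hS0 : η • Cu.up L e₁ + Cu.up L e₂ ≠ 0 := by
    have h1 : LinearIndependent L ![Cu.up L e₁, Cu.up L e₂] := by
      have h2 := up_indep (L := L) hei
      convert h2 using 1
      funext i
      fin_cases i <;> rfl
    rw [LinearIndependent.pair_iff] at h1
    intro h2
    have h3 := h1 η 1 (by rw [one_smul]; exact h2)
    exact one_ne_zero h3.2
  rw [h.cl_unr hsm h8 hL _ hS0 hη, C.sec_mul M _ _ _ (monic_X_sub_C y₃) hm₂ hcop,
    C.sec_lin] at hlin
  have hSR : (fun j => (X * Polynomial.C (A₀ j) + Polynomial.C (B₀ j) : M[X]).eval y₃) =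
      y₃ • A₀ + B₀ := by
    funext j
    rw [eval_add, eval_mul, eval_X, eval_C, eval_C]
    rfl
  rw [hSR] at hlin
  -- comparison of the quadratic sections
  have hcong : C.sec M h₂ (fun j => X * Polynomial.C (A₀ j) + Polynomial.C (B₀ j)) =
      C.sec M h₂ (fun j => - Polynomial.C (z * P j) + X ^ 2 * Polynomial.C (Q j) +
          X * Polynomial.C (w j)) := by
    apply C.sec_congr M h₂ _ _ hm₂
    intro K _ _ ζ hζ
    refine ⟨algebraMap M K (q - z), (_root_.map_ne_zero _).2 hqz, fun j => ?_⟩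
    have h1 : algebraMap M K (q - z) * ζ ^ 2 + algebraMap M K c * ζ +
        algebraMap M K (z * (z - p)) = 0 := by
      have h2 : algebraMap M K (q - z) * aeval ζ h₂ = 0 := by rw [hζ, mul_zero]
      rw [hh₂] at h2
      simp only [map_add, map_mul, map_pow, aeval_X, aeval_C] at h2
      rw [mul_add, mul_add, ← mul_assoc] at h2
      have h3 : algebraMap M K (q - z) * algebraMap M K (c / (q - z)) = algebraMap M K c := by
        rw [← map_mul, mul_div_cancel₀ _ hqz]
      have h4 : algebraMap M K (q - z) * algebraMap M K (z * (z - p) / (q - z)) =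
          algebraMap M K (z * (z - p)) := by
        rw [← map_mul, mul_div_cancel₀ _ hqz]
      rw [h3, h4] at h2
      linear_combination h2
    have h5 : A₀ j = -c * Q j + (q - z) * w j := by
      rw [hA₀]
      simp
    have h6 : B₀ j = -(z * (q - z)) * P j + (-(z * (z - p))) * Q j := by
      rw [hB₀]
      simp
    simp only [map_add, map_neg, map_mul, map_pow, aeval_X, aeval_C, h5, h6]
    simp only [map_mul, map_sub] at h1 ⊢
    linear_combination (- algebraMap M K (Q j)) * h1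
  rw [hcong] at hlin
  rw [← hh₂] at hcon
  have hSP : C.cl M (y₃ • A₀ + B₀) = C.cl M P := by
    have h1 := hlin.trans hcon.symm
    exact add_right_cancel h1
  -- the tangent
  have hfS : (ex T M).f (y₃ • A₀ + B₀) = 0 := by
    rw [hh, eval_mul, eval_sub, eval_X, eval_C, sub_self, zero_mul, mul_zero]
  have hS0' : y₃ • A₀ + B₀ ≠ 0 := by
    intro h0
    rw [hAB1] at h0
    exact mul_ne_zero hz hqz (neg_eq_zero.1 (hind h0).1)
  have hPQe : P - Q = (1 : M) • P + (-1 : M) • Q + (0 : M) • w := by module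
  have hPQ0 : P - Q ≠ 0 := by
    intro h0
    rw [hPQe] at h0
    exact one_ne_zero (hind h0).1
  have hfPQ : (ex T M).f (P - Q) = 0 := by
    rw [hPQe, hf]
    ring
  have hDPQ : (ex T M).D (P - Q) (y₃ • A₀ + B₀) = 0 := by
    rw [hAB1, (ex T M).D_sub_pl κ _ _ _ P Q w h.fP h.fQ h.PQ h.QP hPw hQw hE, hy₃]
    field_simp
    ring
  have htan := C.tang hsm (by omega) (hiso_k k) (P - Q) (y₃ • A₀ + B₀) hPQ0 hS0' hfPQ hfS hDPQ
  have hsum := h.sum hsm h8
  rw [htan, hSP] at hsum
  apply h.ne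
  have h1 : (3 : ℕ) • C.cl M P = C.cl M P + C.cl M P + C.cl M P := by
    rw [succ_nsmul, two_nsmul]
  rw [h1] at hsum
  have h2 := add_right_cancel hsum
  exact (add_left_cancel h2).symm

omit [CharZero k] in
private theorem exists_z [CharZero M] (z₀ p q c : O k M) (hc : (c : M) ≠ 0) :
    ∃ z : O k M, residue (O k M) z = residue (O k M) z₀ ∧ (z : M) ≠ p ∧
      (c : M) ^ 2 ≠ 4 * ((q : M) - z) * z * ((z : M) - p) ∧
      (c : M) ^ 2 ≠ (z : M) * ((q : M) - p) ^ 2 := by
  obtain ⟨π, hπ⟩ := IsDiscreteValuationRing.exists_irreducible (O k M)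
  have hch : CharZero (O k M) := ⟨fun a b hab => by
    have h1 := congrArg (fun x : O k M => (x : M)) hab
    simpa using h1⟩
  have hc' : c ≠ 0 := by
    rintro rfl
    exact hc rfl
  have hP : ((X - C p) * (4 * (C q - X) * X * (X - C p) - C c ^ 2) *
      (X * (C q - C p) ^ 2 - C c ^ 2) : (O k M)[X]) ≠ 0 := by
    refine mul_ne_zero (mul_ne_zero (X_sub_C_ne_zero p) ?_) ?_
    · intro h0
      have h1 := congrArg (eval 0) h0
      simp at h1
      exact hc' h1
    · intro h0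
      have h1 := congrArg (eval 0) h0
      simp at h1
      exact hc' h1
  obtain ⟨t, ht⟩ := exists_nonroot z₀ π hπ.ne_zero _ hP
  have h4 : (4 : (O k M)[X]) = C 4 := (map_ofNat C 4).symm
  rw [eval_mul, eval_mul, h4] at ht
  simp only [eval_sub, eval_mul, eval_X, eval_C, eval_pow] at ht
  obtain ⟨ht1, ht3⟩ := mul_ne_zero_iff.1 ht
  obtain ⟨ht1, ht2⟩ := mul_ne_zero_iff.1 ht1
  refine ⟨z₀ + π * (t : O k M), ?_, ?_, ?_, ?_⟩
  · have h1 : residue (O k M) π = 0 := by
      rw [residue_eq_zero_iff]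
      exact hπ.not_isUnit
    rw [map_add, map_mul, h1, zero_mul, add_zero]
  · intro h0
    apply ht1
    rw [sub_eq_zero]
    exact Subtype.ext h0
  · intro h0
    apply ht2
    rw [sub_eq_zero]
    exact Subtype.ext h0.symm
  · intro h0
    apply ht3
    rw [sub_eq_zero]
    exact Subtype.ext h0.symm

/-- The main case over a large residue field. -/
private theorem NP.core_large (hsm : Sm T) (h8 : 8 ≤ n) (h : NP C M κ P Q)
    (hcard : 34 ≤ Nat.card (ResidueField (O k M))) (w : Fin n → M)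
    (hw : w ∈ WR (ex T M) P Q) (hw0 : w ≠ 0) (p q c : O k M)
    (hp : (ex T M).D w P = κ * (p : M)) (hq : (ex T M).D w Q = κ * (q : M))
    (hc : (ex T M).f w = κ * (c : M)) (hu : IsUnit c ∨ (IsUnit p ∧ IsUnit (p - q))) : False := by
  have hchar : CharZero M := charZero_of_injective_algebraMap (algebraMap k M).injective
  have hc0 : (c : M) ≠ 0 := by
    intro h0
    rw [h0, mul_zero] at hc
    obtain ⟨-, -, han⟩ := ne_props (C := C) hsm (by omega) (hiso_k k) h.P0 h.Q0 h.fP h.fQ h.ne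
    exact hw0 (han w hw.1 hc)
  have hu' : residue (O k M) c ≠ 0 ∨
      (residue (O k M) p ≠ 0 ∧ residue (O k M) p ≠ residue (O k M) q) := by
    rcases hu with hu | ⟨hu1, hu2⟩
    · exact Or.inl ((residue_ne_zero_iff_isUnit _).2 hu)
    · refine Or.inr ⟨(residue_ne_zero_iff_isUnit _).2 hu1, ?_⟩
      have h1 := (residue_ne_zero_iff_isUnit _).2 hu2
      rw [map_sub, sub_ne_zero] at h1
      exact h1
  obtain ⟨zr, er, hz0, hzq, hdeg, hirr⟩ := exists_irr hcard hu'
  obtain ⟨z₀, rfl⟩ := residue_surjective zr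
  obtain ⟨e, rfl⟩ := residue_surjective er
  obtain ⟨z, hz, hzp, hdisc, hy⟩ := exists_z z₀ p q c hc0
  rw [← hz] at hz0 hzq hdeg hirr
  have hzu : IsUnit z := (residue_ne_zero_iff_isUnit _).1 hz0
  have hqzu : IsUnit (q - z) := by
    rw [← residue_ne_zero_iff_isUnit, map_sub, sub_ne_zero]
    exact hzq.symm
  obtain ⟨u, hu1⟩ := hqzu
  obtain ⟨g, hg⟩ : ∃ g : (O k M)[X], g = Polynomial.C (↑u⁻¹ : O k M) * gze p q c z e := ⟨_, rfl⟩
  have hue : (↑u⁻¹ : O k M) * (q - z) = 1 := by rw [← hu1, Units.inv_mul]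
  have hgm : g = X ^ 3 + Polynomial.C ((↑u⁻¹ : O k M) * ((2 * q - z) * e + c)) * X ^ 2 +
      Polynomial.C ((↑u⁻¹ : O k M) * (z ^ 2 - z * p + q * e ^ 2 + 2 * c * e)) * X +
      Polynomial.C ((↑u⁻¹ : O k M) * (e * (c * e - z * p))) := by
    rw [hg, gze_eq]
    have h1 : Polynomial.C (↑u⁻¹ : O k M) * Polynomial.C (q - z) = 1 := by
      rw [← Polynomial.C_mul, hue, Polynomial.C_1]
    simp only [Polynomial.C_mul (a := (↑u⁻¹ : O k M))]
    linear_combination (X ^ 3 : (O k M)[X]) * h1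
  have hmonic : g.Monic := by
    rw [hgm]
    monicity!
  have hnd : g.natDegree = 3 := by
    rw [hgm]
    compute_degree!
  have hgr : g.map (residue (O k M)) = Polynomial.C (residue (O k M) (↑u⁻¹ : O k M)) *
      Gp (residue (O k M) p) (residue (O k M) q) (residue (O k M) c) (residue (O k M) z)
        (residue (O k M) e) := by
    rw [hg, Polynomial.map_mul, map_C, gze_map]
    rfl
  have hgi : Irreducible (g.map (residue (O k M))) := by
    rw [hgr, irreducible_isUnit_mul]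
    · exact hirr
    · rw [isUnit_C]
      exact (Units.isUnit u⁻¹).map _
  have hirr0 : Irreducible g := Monic.irreducible_of_irreducible_map (residue (O k M)) g hmonic hgi
  have hirr1 : Irreducible (g.map (algebraMap (O k M) M)) :=
    (Monic.irreducible_iff_irreducible_map_fraction_map hmonic).mp hirr0
  have hgM : g.map (algebraMap (O k M) M) = Polynomial.C (algebraMap (O k M) M (↑u⁻¹ : O k M)) *
      gze (p : M) (q : M) (c : M) (z : M) (e : M) := by
    rw [hg, Polynomial.map_mul, map_C, gze_map]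
    rfl
  have hmon : (g.map (algebraMap (O k M) M)).Monic := hmonic.map _
  have hfact : Fact (Irreducible (g.map (algebraMap (O k M) M))) := ⟨hirr1⟩
  have hfd : FiniteDimensional M (AdjoinRoot (g.map (algebraMap (O k M) M))) :=
    (AdjoinRoot.powerBasis hirr1.ne_zero).finite
  have hfd' : FiniteDimensional k (AdjoinRoot (g.map (algebraMap (O k M) M))) :=
    FiniteDimensional.trans k M _
  have hunr := unr_of_irred (k := k) (M := M) (L := AdjoinRoot (g.map (algebraMap (O k M) M)))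
    g hmonic hgi (AdjoinRoot.root _) (by
      rw [← eval₂_map]
      exact AdjoinRoot.eval₂_root _) (by
      rw [(AdjoinRoot.powerBasis hirr1.ne_zero).finrank, AdjoinRoot.powerBasis_dim,
        hmonic.natDegree_map])
  rw [hnd] at hunr
  have hui : IsUnit (Polynomial.C (algebraMap (O k M) M (↑u⁻¹ : O k M))) := by
    rw [isUnit_C]
    exact (Units.isUnit u⁻¹).map _
  have hirr2 : Irreducible (gze (p : M) (q : M) (c : M) (z : M) (e : M)) := by
    rw [hgM, irreducible_isUnit_mul hui] at hirr1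
    exact hirr1
  refine NP.core_alg (L := AdjoinRoot (g.map (algebraMap (O k M) M))) hsm h8 h w hw hw0 p q c z e
    hp hq hc ?_ ?_ hzp hdisc hy hirr2 hunr (AdjoinRoot.root _) ?_
  · intro h0
    have h1 : z = 0 := Subtype.ext h0
    rw [h1] at hzu
    exact not_isUnit_zero hzu
  · intro h0
    have h1 : z = q := Subtype.ext h0
    apply hzq
    rw [h1]
  · have h1 : aeval (AdjoinRoot.root (g.map (algebraMap (O k M) M)))
        (g.map (algebraMap (O k M) M)) = 0 := by
      rw [aeval_def]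
      exact AdjoinRoot.eval₂_root _
    obtain ⟨v, hv⟩ := hui
    have h2 : gze (p : M) (q : M) (c : M) (z : M) (e : M) =
        (↑v⁻¹ : M[X]) * g.map (algebraMap (O k M) M) := by
      rw [hgM, ← mul_assoc, ← hv, Units.inv_mul, one_mul]
    rw [h2, map_mul, h1, mul_zero]

/-- Vectors with integral `p, q, c`, main case.
Proof. Replace `M` by an unramified extension of degree `8` (`exists_unr`, `NP.up`). Take `z, e` from
`exists_irr` for the reductions and lift them to `O`; the lift of `z` can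
be chosen (infinitely many) with `z ≠ p`, `c ^ 2 ≠ 4 (q - z) z (z - p)` (`c ≠ 0` as `f` is
anisotropic) and `y₃ = z (p - q) / c` not a root of `h₂ = Y² + c/(q - z) Y + z (z - p)/(q - z)`
(equivalently `c ^ 2 ≠ z (q - p) ^ 2`). Let `L` be the extension by a root of `gze p q c z e`:
unramified cubic (`unr_of_irred`). `Th.conic` and `cl_unr` give `cl P + S₂ = 3 cl P`, where
`S₂ = sec h₂ (-z P + Y² Q + Y w)`. `Th.line` for
`A₀ = -c Q + (q - z) w`, `B₀ = -z (q - z) P - z (z - p) Q`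
(`f(y A₀ + B₀) = f(A₀) (y - y₃) h₂(y)`, `f(A₀) = -κ c z (q - z)²`) and a line of
`kline` gives `cl S_R + S₂' = 3 cl P`, `S₂' = sec h₂ (Y A₀ + B₀)`, `S_R = y₃ A₀ + B₀`, a multiple of
`c (P - Q) + (q - p) w`; `S₂' = S₂` by `sec_congr` (on the zeros of `h₂` one has
`(q - z) (-z P + Y² Q + Y w) = Y A₀ + B₀`), `cl S_R = cl (P - Q)` by `Th.tang` (`D(P - Q; S_R) = 0`).
So `cl (P - Q) = cl P`, and `NP.sum` gives `cl Q = cl P`. -/
theorem NP.core (hsm : Sm T) (h8 : 8 ≤ n) (h : NP C M κ P Q) (w : Fin n → M)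
    (hw : w ∈ WR (ex T M) P Q) (hw0 : w ≠ 0) (p q c : O k M)
    (hp : (ex T M).D w P = κ * (p : M)) (hq : (ex T M).D w Q = κ * (q : M))
    (hc : (ex T M).f w = κ * (c : M)) (hu : IsUnit c ∨ (IsUnit p ∧ IsUnit (p - q))) : False := by
  obtain ⟨L, i1, i2, i3, i4, i5, hL⟩ := exists_unr k M 8 (by norm_num)
  have h' := h.up (L := L) hsm h8 (by rw [hL.deg]; norm_num)
  have hcard : 34 ≤ Nat.card (ResidueField (O k L)) := by
    rw [hL.card]
    have h1 : 2 ≤ Nat.card (ResidueField (O k M)) := Finite.one_lt_card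
    calc 34 ≤ 2 ^ 8 := by norm_num
      _ ≤ _ := Nat.pow_le_pow_left h1 8
  obtain ⟨⟨hPw, hQw⟩, hE⟩ := hw
  rw [SetLike.mem_coe, LinearMap.mem_ker, Cb.Dl_apply] at hPw hQw
  rw [SetLike.mem_coe, LinearMap.mem_ker, Cb.El_apply] at hE
  refine h'.core_large hsm h8 hcard (Cu.up L w) ⟨⟨?_, ?_⟩, ?_⟩ ?_ (oMap k M L p) (oMap k M L q)
    (oMap k M L c) ?_ ?_ ?_ ?_
  · rw [SetLike.mem_coe, LinearMap.mem_ker, Cb.Dl_apply, ex_D, hPw, map_zero]
  · rw [SetLike.mem_coe, LinearMap.mem_ker, Cb.Dl_apply, ex_D, hQw, map_zero]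
  · rw [SetLike.mem_coe, LinearMap.mem_ker, Cb.El_apply, ex_E, hE, map_zero]
  · intro h0
    apply hw0
    funext j
    exact (algebraMap M L).injective ((congrFun h0 j).trans (map_zero _).symm)
  · rw [ex_D, hp, map_mul, oMap_coe]
  · rw [ex_D, hq, map_mul, oMap_coe]
  · rw [ex_f, hc, map_mul, oMap_coe]
  · rw [← map_sub, oMap_unit, oMap_unit, oMap_unit]
    exact hu

end Cu
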