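import Pool.Agent.Lib.MP_f80667_ag.Cu.Tang
import Pool.Agent.Lib.MP_f80667_ag.Cu.KPts

/-! Inequivalent points. -/

open Polynomial IsLocalRing Pool.Agent.Lib.MP_f80667_ag.LF

namespace Cu

universe u

/-- The intersection of the tangent spaces of two points. -/
def WT {K V : Type*} [Field K] [AddCommGroup V] [Module K V] (c : Cb K V) (P Q : V) :
    Submodule K V := LinearMap.ker (c.Dl P) ⊓ LinearMap.ker (c.Dl Q)

theorem mem_WT {K V : Type*} [Field K] [AddCommGroup V] [Module K V] {c : Cb K V} {P Q w : V} :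
    w ∈ WT c P Q ↔ c.D P w = 0 ∧ c.D Q w = 0 := Iff.rfl

section base

variable {k : Type u} [Field k] [CharZero k] {n : ℕ} {T : Tn k n} {G : Type u} [AddCommGroup G]
  (C : Th k T G)

/-- Normalized pairs of inequivalent points. -/
structure NP (M : Type u) [Field M] [Algebra k M] [FiniteDimensional k M] (κ : M)
    (P Q : Fin n → M) : Prop where
  hκ : κ ≠ 0
  P0 : P ≠ 0
  Q0 : Q ≠ 0
  fP : (ex T M).f P = 0
  fQ : (ex T M).f Q = 0
  PQ : (ex T M).D P Q = κ
  QP : (ex T M).D Q P = κ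
  ne : C.cl M P ≠ C.cl M Q

variable {C} {M : Type u} [Field M] [Algebra k M] [FiniteDimensional k M] {κ : M}
  {P Q : Fin n → M}

/-- Interchange the points. -/
theorem NP.swap (h : NP C M κ P Q) : NP C M κ Q P :=
  ⟨h.hκ, h.Q0, h.P0, h.fQ, h.fP, h.QP, h.PQ, h.ne.symm⟩

/-- The dimension of `T_P ∩ T_Q`. -/
theorem finrank_WT (c : Cb M (Fin n → M)) (P Q : Fin n → M) :
    n ≤ Module.finrank M (WT c P Q) + 2 := by
  have h1 := LinearMap.finrank_range_add_finrank_ker ((c.Dl P).prod (c.Dl Q))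
  rw [LinearMap.ker_prod, Module.finrank_fin_fun] at h1
  have h2 := Submodule.finrank_le (LinearMap.range ((c.Dl P).prod (c.Dl Q)))
  rw [Module.finrank_prod, Module.finrank_self] at h2
  change _ + Module.finrank M (WT c P Q) = n at h1
  omega

/-- Inequivalent points: tangent spaces. From `Th.tang` (a nonzero zero `S` of `f` in
`T_P ∩ T_Q` is equivalent to `P` and to `Q`). -/
theorem ne_props (hsm : Sm T) (h7 : 7 ≤ n) (hiso : HIso k) (hP : P ≠ 0) (hQ : Q ≠ 0)
    (fP : (ex T M).f P = 0) (fQ : (ex T M).f Q = 0) (hne : C.cl M P ≠ C.cl M Q) :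
    (ex T M).D P Q ≠ 0 ∧ (ex T M).D Q P ≠ 0 ∧ An (ex T M) (WT (ex T M) P Q) := by
  refine ⟨fun h => hne (C.tang hsm h7 hiso P Q hP hQ fP fQ h),
    fun h => hne (C.tang hsm h7 hiso Q P hQ hP fQ fP h).symm, fun w hw hfw => ?_⟩
  by_contra hw0
  obtain ⟨h1, h2⟩ := mem_WT.1 hw
  exact hne ((C.tang hsm h7 hiso P w hP hw0 fP hfw h1).trans
    (C.tang hsm h7 hiso Q w hQ hw0 fQ hfw h2).symm)

/-- Normalization: multiply `P` by `D(Q; P) / D(P; Q)`. -/
theorem exists_np (hsm : Sm T) (h7 : 7 ≤ n) (hiso : HIso k) (hP : P ≠ 0) (hQ : Q ≠ 0)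
    (fP : (ex T M).f P = 0) (fQ : (ex T M).f Q = 0) (hne : C.cl M P ≠ C.cl M Q) :
    ∃ (a κ : M), a ≠ 0 ∧ NP C M κ (a • P) Q := by
  obtain ⟨h1, h2, -⟩ := ne_props hsm h7 hiso hP hQ fP fQ hne
  have ha : (ex T M).D Q P / (ex T M).D P Q ≠ 0 := div_ne_zero h2 h1
  refine ⟨(ex T M).D Q P / (ex T M).D P Q, (ex T M).D Q P ^ 2 / (ex T M).D P Q, ha, ?_⟩
  exact
    { hκ := div_ne_zero (pow_ne_zero 2 h2) h1
      P0 := smul_ne_zero ha hP
      Q0 := hQ
      fP := by rw [Cb.f_smul, fP, mul_zero]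
      fQ := fQ
      PQ := by rw [Cb.smul_D]; field_simp
      QP := by rw [Cb.D_smul]; ring
      ne := by rw [C.smul M _ P ha]; exact hne }

/-- The points of a normalized pair are independent. -/
theorem NP.indep (h : NP C M κ P Q) : LinearIndependent M ![P, Q] := by
  rw [LinearIndependent.pair_iff]
  intro s t hst
  have h1 : (ex T M).D Q (s • P + t • Q) = s * κ := by
    rw [Cb.D_add, Cb.D_smul, Cb.D_smul, Cb.D_self, h.fQ, h.QP]; ring
  have h2 : (ex T M).D P (s • P + t • Q) = t * κ := by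
    rw [Cb.D_add, Cb.D_smul, Cb.D_smul, Cb.D_self, h.fP, h.PQ]; ring
  rw [hst, Cb.D_zero] at h1 h2
  exact ⟨(mul_eq_zero.1 h1.symm).resolve_right h.hκ, (mul_eq_zero.1 h2.symm).resolve_right h.hκ⟩

end base

section up0

variable {n : ℕ} {M L : Type*} [Field M] [Field L] [Algebra M L]

theorem up_ne_zero {P : Fin n → M} (hP : P ≠ 0) : up L P ≠ 0 := by
  intro h
  apply hP
  funext i
  have h1 := congrFun h i
  exact (map_eq_zero (algebraMap M L)).1 h1

end up0

/-- Multiples by coprime integers. -/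
theorem eq_of_smul_eq {G : Type*} [AddCommGroup G] {x y : G} {a b : ℕ} (h : a.Coprime b)
    (ha : a • x = a • y) (hb : b • x = b • y) : x = y := by
  rw [← sub_eq_zero]
  have h1 : a • (x - y) = 0 := by rw [smul_sub, ha, sub_self]
  have h2 : b • (x - y) = 0 := by rw [smul_sub, hb, sub_self]
  have h3 : addOrderOf (x - y) ∣ a := addOrderOf_dvd_iff_nsmul_eq_zero.2 h1
  have h4 : addOrderOf (x - y) ∣ b := addOrderOf_dvd_iff_nsmul_eq_zero.2 h2
  have h5 : addOrderOf (x - y) ∣ 1 := by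
    have := Nat.dvd_gcd h3 h4
    rwa [h] at this
  have h6 := addOrderOf_dvd_iff_nsmul_eq_zero.1 h5
  rwa [one_smul] at h6

variable {k : Type u} [NontriviallyNormedField k] [IsUltrametricDist k] [ProperSpace k]
  [CharZero k] {n : ℕ} {T : Tn k n} {G : Type u} [AddCommGroup G] {C : Th k T G}
  {M L : Type u} [Field M] [Field L] [Algebra k M] [Algebra k L]
  [Algebra M L] [IsScalarTower k M L] [FiniteDimensional k M] [FiniteDimensional k L]
  {κ : M} {P Q : Fin n → M}

variable (k) in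
/-- `exists_iso`. -/
theorem hiso_k : HIso k := by
  intro M _ _ _ N hN
  exact exists_iso k M N hN

/-- A combination of two independent vectors. -/
theorem comb_ne_zero {e e' : Fin n → M} (h : LinearIndependent M ![e, e']) (θ : L) :
    θ • up L e + up L e' ≠ 0 := by
  intro h0
  have h1 := up_indep (L := L) h
  have h2 : (fun i => up L ((![e, e'] : Fin 2 → Fin n → M) i)) = ![up L e, up L e'] := by
    funext i
    fin_cases i <;> rfl
  rw [h2, LinearIndependent.pair_iff] at h1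
  have h3 := (h1 θ 1 (by rw [one_smul]; exact h0)).2
  exact one_ne_zero h3

/-- `D(P; ·)` at a combination. -/
theorem D_comb (A : Fin n → M) {e e' : Fin n → M} (h : (ex T M).D A e = 0)
    (h' : (ex T M).D A e' = 0) (θ : L) :
    (ex T L).D (up L A) (θ • up L e + up L e') = 0 := by
  rw [Cb.D_add, Cb.D_smul, ex_D, ex_D, h, h', map_zero, mul_zero, add_zero]

/-- For any two points `3 cl P = 3 cl Q`.
Proof: assume `cl P ≠ cl Q`; `ne_props`, `kline` for `W = T_P ∩ T_Q` and the unramified cubic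
extension `L` (`exists_unr`): the point `S = θ e + e'` is equivalent over `L` to `P` and `Q`
(`Th.tang` over `L`), and `cl L (up P) = 3 cl M P` (`ext`). -/
theorem three (hsm : Sm T) (h8 : 8 ≤ n) (hP : P ≠ 0) (hQ : Q ≠ 0)
    (fP : (ex T M).f P = 0) (fQ : (ex T M).f Q = 0) : 3 • C.cl M P = 3 • C.cl M Q := by
  by_cases hne : C.cl M P = C.cl M Q
  · rw [hne]
  have hiso := hiso_k k
  obtain ⟨-, -, hW⟩ := ne_props hsm (by omega) hiso hP hQ fP fQ hne
  have h6 : 6 ≤ Module.finrank M (WT (ex T M) P Q) := by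
    have := finrank_WT (ex T M) P Q
    omega
  obtain ⟨e, e', he, he', hi, hL⟩ := kline (k := k) (WT (ex T M) P Q) hW (by omega)
  obtain ⟨L, _, _, _, _, _, hU⟩ := exists_unr k M 3 (by norm_num)
  obtain ⟨θ, hθ⟩ := hL L hU
  have hS0 : θ • up L e + up L e' ≠ 0 := comb_ne_zero hi θ
  obtain ⟨h1, h2⟩ := mem_WT.1 he
  obtain ⟨h1', h2'⟩ := mem_WT.1 he'
  have h3 := C.tang hsm (by omega) hiso (up L P) _ (up_ne_zero hP) hS0
    (by rw [ex_f, fP, map_zero]) hθ (D_comb P h1 h1' θ)
  have h4 := C.tang hsm (by omega) hiso (up L Q) _ (up_ne_zero hQ) hS0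
    (by rw [ex_f, fQ, map_zero]) hθ (D_comb Q h2 h2' θ)
  have h5 := C.ext M L P
  have h6 := C.ext M L Q
  rw [hU.deg] at h5 h6
  rw [← h5, ← h6, h3, h4]

/-- Extensions of degree prime to `3`. -/
theorem NP.up (hsm : Sm T) (h8 : 8 ≤ n) (h : NP C M κ P Q)
    (hd : (Module.finrank M L).Coprime 3) :
    NP C L (algebraMap M L κ) (up L P) (up L Q) := by
  exact
    { hκ := by
        intro h0
        exact h.hκ ((map_eq_zero (algebraMap M L)).1 h0)
      P0 := up_ne_zero h.P0
      Q0 := up_ne_zero h.Q0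
      fP := by rw [ex_f, h.fP, map_zero]
      fQ := by rw [ex_f, h.fQ, map_zero]
      PQ := by rw [ex_D, h.PQ]
      QP := by rw [ex_D, h.QP]
      ne := by
        intro h0
        rw [C.ext M L P, C.ext M L Q] at h0
        exact h.ne (eq_of_smul_eq hd h0 (three hsm h8 h.P0 h.Q0 h.fP h.fQ)) }

/-- All points over the unramified cubic extension `L` have the class `3 cl M P` (`kpts` for the
linear form `D(S; ·)`, `Th.tang` over `L`). -/
theorem NP.cl_unr (hsm : Sm T) (h8 : 8 ≤ n) (h : NP C M κ P Q) (hL : Unr k M L 3)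
    (S : Fin n → L) (hS : S ≠ 0) (fS : (ex T L).f S = 0) : C.cl L S = 3 • C.cl M P := by
  have hiso := hiso_k k
  obtain ⟨-, -, hW⟩ := ne_props hsm (by omega) hiso h.P0 h.Q0 h.fP h.fQ h.ne
  have h6 : 6 ≤ Module.finrank M (WT (ex T M) P Q) := by
    have := finrank_WT (ex T M) P Q
    omega
  obtain ⟨S', hS', h0, h1, h2⟩ := kpts (k := k) hL (WT (ex T M) P Q) hW h6 ((ex T L).Dl S)
  have h3 : (ex T L).D (Cu.up L P) S' = 0 := by
    have h4 : Submodule.span L (Cu.up L '' (WT (ex T M) P Q : Set (Fin n → M))) ≤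
        LinearMap.ker ((ex T L).Dl (Cu.up L P)) := by
      rw [Submodule.span_le]
      rintro _ ⟨w, hw, rfl⟩
      change (ex T L).D (Cu.up L P) (Cu.up L w) = 0
      rw [ex_D, (mem_WT.1 hw).1, map_zero]
    exact h4 hS'
  have h5 := C.tang hsm (by omega) hiso (Cu.up L P) S' (up_ne_zero h.P0) h0
    (by rw [ex_f, h.fP, map_zero]) h2 h3
  have h7 := C.tang hsm (by omega) hiso S S' hS h0 fS h2 h1
  have h8 := C.ext M L P
  rw [hL.deg] at h8
  rw [h7, ← h5, h8]

/-- `P`, `Q`, `R = P - Q` are on a line: `cl P + cl Q + cl R = 3 cl P`.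
Proof: `Th.line` with `A₀ = P + Q`, `B₀ = Q`, `f(y A₀ + B₀) = κ y (y + 1) (2 y + 1)`,
`h₀ = X (X + 1) (X + 1/2)`, `A₁ = e`, `B₁ = e'` from `kline`; `cl_unr`. -/
theorem NP.sum (hsm : Sm T) (h8 : 8 ≤ n) (h : NP C M κ P Q) :
    C.cl M P + C.cl M Q + C.cl M (P - Q) = 3 • C.cl M P := by
  have hiso := hiso_k k
  have hc : CharZero M := charZero_of_injective_algebraMap (algebraMap k M).injective
  obtain ⟨-, -, hW⟩ := ne_props hsm (by omega) hiso h.P0 h.Q0 h.fP h.fQ h.ne
  have h6 : 6 ≤ Module.finrank M (WT (ex T M) P Q) := by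
    have := finrank_WT (ex T M) P Q
    omega
  obtain ⟨e, e', he, he', hi, hL⟩ := kline (k := k) (WT (ex T M) P Q) hW (by omega)
  obtain ⟨L, _, _, _, _, _, hU⟩ := exists_unr k M 3 (by norm_num)
  obtain ⟨θ, hθ⟩ := hL L hU
  have hS0 : θ • Cu.up L e + Cu.up L e' ≠ 0 := comb_ne_zero hi θ
  have hcl := h.cl_unr hsm h8 hU _ hS0 hθ
  have hfA : (ex T M).f (P + Q) = 2 * κ := by
    rw [Cb.f_add, h.fP, h.fQ, h.PQ, h.QP]; ring
  have h20 : (2 : M) ≠ 0 := two_ne_zero
  have e1 : (X - Polynomial.C (0 : M)) * ((X - Polynomial.C (-1 : M)) *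
      (X - Polynomial.C (-(1 / 2) : M))) = X * ((X + 1) * (X + Polynomial.C (1 / 2 : M))) := by
    simp only [map_neg, map_zero, map_one]
    ring
  have cop1 : IsCoprime (X - Polynomial.C (-1 : M)) (X - Polynomial.C (-(1 / 2) : M)) := by
    apply isCoprime_X_sub_C_of_isUnit_sub
    rw [isUnit_iff_ne_zero]
    intro h0
    have : (-1 : M) - -(1 / 2) = -(1 / 2) := by ring
    rw [this, neg_eq_zero] at h0
    exact one_div_ne_zero h20 h0
  have cop2 : IsCoprime (X - Polynomial.C (0 : M)) ((X - Polynomial.C (-1 : M)) *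
      (X - Polynomial.C (-(1 / 2) : M))) := by
    apply IsCoprime.mul_right
    · apply isCoprime_X_sub_C_of_isUnit_sub
      rw [isUnit_iff_ne_zero]
      norm_num
    · apply isCoprime_X_sub_C_of_isUnit_sub
      rw [isUnit_iff_ne_zero]
      norm_num
  have hm1 : (X - Polynomial.C (0 : M)).Monic := monic_X_sub_C _
  have hm2 : (X - Polynomial.C (-1 : M)).Monic := monic_X_sub_C _
  have hm3 : (X - Polynomial.C (-(1 / 2) : M)).Monic := monic_X_sub_C _
  have hsep : ((X - Polynomial.C (0 : M)) * ((X - Polynomial.C (-1 : M)) *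
      (X - Polynomial.C (-(1 / 2) : M)))).Separable := by
    apply Separable.mul (separable_X_sub_C) _ cop2
    exact Separable.mul (separable_X_sub_C) (separable_X_sub_C) cop1
  have hind := h.indep
  rw [LinearIndependent.pair_iff] at hind
  have hA0 : (ex T M).f (P + Q) ≠ 0 := by
    rw [hfA]
    exact mul_ne_zero h20 h.hκ
  have hline := C.line (P + Q) Q e e' _ (hm1.mul (hm2.mul hm3)) hsep hA0
    (by
      rw [LinearIndependent.pair_iff]
      intro s t hst
      have h1 : s • P + (s + t) • Q = 0 := by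
        rw [← hst]; module
      obtain ⟨h2, h3⟩ := hind _ _ h1
      refine ⟨h2, ?_⟩
      rw [h2, zero_add] at h3
      exact h3)
    (by
      intro y
      have h1 : y • (P + Q) + Q = y • P + (y + 1) • Q := by module
      rw [h1, Cb.f_lin, h.fP, h.fQ, h.PQ, h.QP, hfA]
      simp only [eval_mul, eval_sub, eval_X, eval_C]
      field_simp
      ring)
    (by
      intro x y hxy
      have h1 := hW (x • e + y • e') (Submodule.add_mem _ (Submodule.smul_mem _ _ he)
        (Submodule.smul_mem _ _ he')) hxy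
      rw [LinearIndependent.pair_iff] at hi
      exact hi _ _ h1)
    θ hU.deg hθ
  rw [C.sec_mul M _ _ _ hm1 (hm2.mul hm3) cop2, C.sec_mul M _ _ _ hm2 hm3 cop1,
    C.sec_lin, C.sec_lin, C.sec_lin, hcl] at hline
  have s1 : (fun j => (X * Polynomial.C ((P + Q) j) + Polynomial.C (Q j)).eval (0 : M)) = Q := by
    funext j
    simp
  have s2 : (fun j => (X * Polynomial.C ((P + Q) j) + Polynomial.C (Q j)).eval (-1 : M)) =
      (-1 : M) • P := by
    funext j
    simp
  have s3 : (fun j => (X * Polynomial.C ((P + Q) j) + Polynomial.C (Q j)).eval (-(1 / 2) : M)) =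
      (-(1 / 2) : M) • (P - Q) := by
    funext j
    simp only [eval_add, eval_mul, eval_X, eval_C, Pi.add_apply, Pi.smul_apply, Pi.sub_apply,
      smul_eq_mul]
    ring
  rw [s1, s2, s3, C.smul M (-1) P (neg_ne_zero.2 one_ne_zero),
    C.smul M (-(1 / 2)) (P - Q) (neg_ne_zero.2 (one_div_ne_zero h20))] at hline
  rw [← hline]
  abel

/-- Permutation of `P`, `Q`, `R`. -/
theorem NP.rot (hsm : Sm T) (h8 : 8 ≤ n) (h : NP C M κ P Q) : NP C M κ (-Q) (P - Q) := by
  have hsum := h.sum hsm h8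
  have h3 := three hsm h8 h.P0 h.Q0 h.fP h.fQ (C := C)
  have hDE : (ex T M).E P Q Q = 2 * κ := by
    rw [Cb.E_comm, Cb.E_comm', Cb.E_self, h.QP]
  exact
    { hκ := h.hκ
      P0 := neg_ne_zero.2 h.Q0
      Q0 := by
        intro h0
        exact h.ne (by rw [sub_eq_zero.1 h0])
      fP := by rw [Cb.f_neg, h.fQ, neg_zero]
      fQ := by
        rw [sub_eq_add_neg, Cb.f_add, Cb.D_neg, Cb.neg_D, Cb.f_neg, h.fP, h.fQ, h.PQ, h.QP]
        ring
      PQ := by
        rw [Cb.neg_D, Cb.D_sub, Cb.D_self, h.QP, h.fQ]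
        ring
      QP := by
        have h1 : P - Q = P + (-1 : M) • Q := by module
        rw [Cb.D_neg, h1, Cb.add_D, Cb.E_smul2, hDE, Cb.smul_D, Cb.D_self, h.fQ, h.PQ]
        ring
      ne := by
        have h1 : C.cl M (-Q) = C.cl M Q := by
          have := C.smul M (-1) Q (neg_ne_zero.2 one_ne_zero)
          rwa [neg_one_smul] at this
        rw [h1]
        intro h2
        rw [← h2] at hsum
        have h4 : 2 • C.cl M P = 2 • C.cl M Q := by
          have h5 : 3 • C.cl M P = C.cl M P + 2 • C.cl M P := by abel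
          rw [h5, add_assoc] at hsum
          rw [← add_left_cancel hsum]
          abel
        exact h.ne (eq_of_smul_eq (by norm_num) h4 h3) }

end Cu
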