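import Pool.Agent.Lib.MP_f80667_ag.Cu.Lin

/-! Real points of a cubic hypersurface: every point is on a line with an odd point. -/

open Topology Finset

namespace Cu

section gen

variable {R V : Type*} [CommRing R] [AddCommGroup V] [Module R V] (c : Cb R V)

/-- The discriminant of the residual pair of points on the line through the zero `P` and `x`. -/
def dsc (P x : V) : R := c.D x P ^ 2 - 4 * c.D P x * c.f x

theorem dsc_smul (a : R) (P x : V) : dsc c (a • P) x = a ^ 2 * dsc c P x := by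
  simp only [dsc, c.D_smul, c.smul_D]
  ring

/-- The third point on the line through two zeros. -/
def thd (A B : V) : V := c.D B A • A + (-c.D A B) • B

theorem thd_f {A B : V} (hA : c.f A = 0) (hB : c.f B = 0) : c.f (thd c A B) = 0 := by
  rw [thd, c.f_lin, hA, hB]
  ring

theorem D_thd1 {A B : V} (hA : c.f A = 0) : c.D A (thd c A B) = -c.D A B ^ 2 := by
  rw [thd, c.D_add, c.D_smul, c.D_smul, c.D_self, hA]
  ring

theorem D_thd2 {A B : V} (hA : c.f A = 0) :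
    c.D (thd c A B) A = -c.D B A * c.D A B ^ 2 := by
  rw [thd, c.add_D, c.smul_D, c.smul_D, c.E_smul1, c.E_smul2, c.D_self, c.E_comm', c.E_self, hA]
  ring

theorem thd_thd {A P : V} (hA : c.f A = 0) :
    thd c A (thd c A P) = (-c.D A P ^ 3) • P := by
  have h1 := D_thd1 c (B := P) hA
  have h2 := D_thd2 c (B := P) hA
  rw [thd, h1, h2, thd]
  module

end gen

section real

variable {n : ℕ} (T : Tn ℝ n)

theorem cont_f : Continuous (cb T).f := by
  unfold cb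
  fun_prop

theorem cont_D : Continuous fun p : (Fin n → ℝ) × (Fin n → ℝ) => (cb T).D p.1 p.2 := by
  unfold cb
  fun_prop

theorem cont_D' {X : Type*} [TopologicalSpace X] {g h : X → Fin n → ℝ} (hg : Continuous g)
    (hh : Continuous h) : Continuous fun x => (cb T).D (g x) (h x) := by
  have h1 : Continuous fun x => (g x, h x) := hg.prodMk hh
  have h2 := (cont_D T).comp h1
  exact h2

theorem cont_dsc {X : Type*} [TopologicalSpace X] {g h : X → Fin n → ℝ} (hg : Continuous g)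
    (hh : Continuous h) : Continuous fun x => dsc (cb T) (g x) (h x) := by
  unfold dsc
  exact ((cont_D' T hh hg).pow 2).sub
    ((continuous_const.mul (cont_D' T hg hh)).mul ((cont_f T).comp hh))

theorem exists_pos (b : ℝ → ℝ) (hb : Continuous b) (h0 : b 0 < 0) : ∃ ε : ℝ, 0 < ε ∧ b ε < 0 := by
  have h1 : ∀ᶠ ε in 𝓝 (0 : ℝ), b ε < 0 := hb.continuousAt.eventually_lt_const h0
  obtain ⟨δ, hδ, h2⟩ := Metric.eventually_nhds_iff.1 h1
  refine ⟨δ / 2, by positivity, h2 ?_⟩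
  rw [Real.dist_eq, sub_zero, abs_of_pos (by positivity)]
  linarith

theorem exists_neg (b : ℝ → ℝ) (hb : Continuous b) (h0 : b 0 ≠ 0) : ∃ ε : ℝ, ε * b ε < 0 := by
  rcases lt_or_gt_of_ne h0 with h | h
  · obtain ⟨ε, h1, h2⟩ := exists_pos b hb h
    exact ⟨ε, mul_neg_of_pos_of_neg h1 h2⟩
  · obtain ⟨ε, h1, h2⟩ := exists_pos (fun t => -b (-t)) (hb.comp continuous_neg).neg
      (by simpa using h)
    refine ⟨-ε, ?_⟩
    have h3 : 0 < b (-ε) := by linarith
    nlinarith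

/-- Zeros near a smooth zero. -/
theorem exists_near (P₀ v z : Fin n → ℝ) (f0 : (cb T).f P₀ = 0) (hv : (cb T).D P₀ v ≠ 0)
    (U : Set (Fin n → ℝ)) (hU : U ∈ 𝓝 P₀) : ∃ η τ : ℝ, η ≠ 0 ∧ P₀ + η • z + τ • v ∈ U ∧
      (cb T).f (P₀ + η • z + τ • v) = 0 := by
  set d := (cb T).D P₀ v with hd
  obtain ⟨δ, hδ, h1⟩ : ∃ δ : ℝ, 0 < δ ∧ ∀ η τ : ℝ, |η| < δ → |τ| < δ →
      P₀ + η • z + τ • v ∈ U := by
    have hc : Continuous fun p : ℝ × ℝ => P₀ + p.1 • z + p.2 • v := by fun_prop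
    have h2 : ∀ᶠ p in 𝓝 ((0, 0) : ℝ × ℝ), P₀ + p.1 • z + p.2 • v ∈ U := by
      refine hc.continuousAt.eventually_mem ?_
      simpa using hU
    obtain ⟨δ, hδ, h3⟩ := Metric.eventually_nhds_iff.1 h2
    refine ⟨δ, hδ, fun η τ hη hτ => h3 (y := (η, τ)) ?_⟩
    rw [Prod.dist_eq, Real.dist_eq, Real.dist_eq, sub_zero, sub_zero]
    exact max_lt hη hτ
  obtain ⟨δ₂, hδ₂, h2⟩ : ∃ δ₂ : ℝ, 0 < δ₂ ∧ ∀ τ : ℝ, |τ| < δ₂ →
      0 < d * (d + τ * (cb T).D v P₀ + τ ^ 2 * (cb T).f v) := by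
    have hc : Continuous fun τ : ℝ => d * (d + τ * (cb T).D v P₀ + τ ^ 2 * (cb T).f v) := by
      fun_prop
    have h3 : ∀ᶠ τ in 𝓝 (0 : ℝ), 0 < d * (d + τ * (cb T).D v P₀ + τ ^ 2 * (cb T).f v) := by
      refine hc.continuousAt.eventually_const_lt ?_
      have : 0 < d * d := mul_self_pos.2 hv
      simpa using this
    obtain ⟨δ, hδ, h4⟩ := Metric.eventually_nhds_iff.1 h3
    refine ⟨δ, hδ, fun τ hτ => h4 (y := τ) ?_⟩
    rwa [Real.dist_eq, sub_zero]
  obtain ⟨τ₀, hτ₀⟩ : ∃ τ₀, τ₀ = min δ δ₂ / 2 := ⟨_, rfl⟩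
  have hτ0 : 0 < τ₀ := by rw [hτ₀]; positivity
  have hτ1 : τ₀ < δ := by
    rw [hτ₀]
    have := min_le_left δ δ₂
    linarith
  have hτ2 : τ₀ < δ₂ := by
    rw [hτ₀]
    have := min_le_right δ δ₂
    linarith
  have hval : ∀ τ : ℝ, (cb T).f (P₀ + (0 : ℝ) • z + τ • v) =
      τ * (d + τ * (cb T).D v P₀ + τ ^ 2 * (cb T).f v) := by
    intro τ
    have h3 : P₀ + (0 : ℝ) • z + τ • v = (1 : ℝ) • P₀ + τ • v := by module
    rw [h3, (cb T).f_lin, f0, ← hd]
    ring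
  have hcf : ∀ τ : ℝ, Continuous fun η : ℝ => d * (cb T).f (P₀ + η • z + τ • v) := by
    intro τ
    exact continuous_const.mul ((cont_f T).comp (by fun_prop))
  have e1 : ∀ᶠ η in 𝓝 (0 : ℝ), 0 < d * (cb T).f (P₀ + η • z + τ₀ • v) := by
    refine (hcf τ₀).continuousAt.eventually_const_lt ?_
    change 0 < d * (cb T).f (P₀ + (0 : ℝ) • z + τ₀ • v)
    rw [hval]
    have := h2 τ₀ (by rwa [abs_of_pos hτ0])
    nlinarith
  have e2 : ∀ᶠ η in 𝓝 (0 : ℝ), d * (cb T).f (P₀ + η • z + (-τ₀) • v) < 0 := by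
    refine (hcf (-τ₀)).continuousAt.eventually_lt_const ?_
    change d * (cb T).f (P₀ + (0 : ℝ) • z + (-τ₀) • v) < 0
    rw [hval]
    have := h2 (-τ₀) (by rwa [abs_neg, abs_of_pos hτ0])
    nlinarith
  obtain ⟨δ₃, hδ₃, h3⟩ := Metric.eventually_nhds_iff.1 (e1.and e2)
  obtain ⟨η, hη⟩ : ∃ η, η = min δ δ₃ / 2 := ⟨_, rfl⟩
  have hη0 : 0 < η := by rw [hη]; positivity
  have hη1 : η < δ := by
    rw [hη]
    have := min_le_left δ δ₃
    linarith
  have hη2 : η < δ₃ := by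
    rw [hη]
    have := min_le_right δ δ₃
    linarith
  obtain ⟨h4, h5⟩ := h3 (y := η) (by rwa [Real.dist_eq, sub_zero, abs_of_pos hη0])
  have hcτ : Continuous fun τ : ℝ => d * (cb T).f (P₀ + η • z + τ • v) :=
    continuous_const.mul ((cont_f T).comp (by fun_prop))
  obtain ⟨τ, hτ, h6⟩ := intermediate_value_Icc (a := -τ₀) (b := τ₀) (by linarith)
    hcτ.continuousOn ⟨h5.le, h4.le⟩
  refine ⟨η, τ, hη0.ne', h1 η τ ?_ ?_, (mul_eq_zero.1 h6).resolve_left hv⟩
  · rwa [abs_of_pos hη0]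
  · exact lt_of_le_of_lt (abs_le.2 ⟨hτ.1, hτ.2⟩) hτ1

/-- A cubic form has a zero on every plane. -/
theorem exists_zero2 (W : Submodule ℝ (Fin n → ℝ)) (h2 : 2 ≤ Module.finrank ℝ W) :
    ∃ u ∈ W, u ≠ 0 ∧ (cb T).f u = 0 := by
  have hnt : Nontrivial W := Module.nontrivial_of_finrank_pos (R := ℝ) (by omega)
  obtain ⟨x, hx⟩ := exists_ne (0 : W)
  obtain ⟨y, hy⟩ := exists_linearIndependent_pair_of_one_lt_finrank (R := ℝ) (by omega) hx
  rw [LinearIndependent.pair_iff] at hy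
  have hc : Continuous fun t : ℝ => (cb T).f (Real.cos t • (x : Fin n → ℝ) +
      Real.sin t • (y : Fin n → ℝ)) :=
    (cont_f T).comp (by fun_prop)
  have h0 : (cb T).f (Real.cos 0 • (x : Fin n → ℝ) + Real.sin 0 • (y : Fin n → ℝ)) =
      (cb T).f x := by simp
  have h1 : (cb T).f (Real.cos Real.pi • (x : Fin n → ℝ) + Real.sin Real.pi • (y : Fin n → ℝ)) =
      - (cb T).f x := by
    rw [Real.cos_pi, Real.sin_pi, zero_smul, add_zero, neg_one_smul, Cb.f_neg]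
  have h3 : (0 : ℝ) ∈ Set.uIcc
      ((cb T).f (Real.cos 0 • (x : Fin n → ℝ) + Real.sin 0 • (y : Fin n → ℝ)))
      ((cb T).f (Real.cos Real.pi • (x : Fin n → ℝ) + Real.sin Real.pi • (y : Fin n → ℝ))) := by
    rw [h0, h1, Set.mem_uIcc]
    rcases le_total ((cb T).f x) 0 with h | h
    · left
      exact ⟨h, by linarith⟩
    · right
      exact ⟨by linarith, h⟩
  obtain ⟨t, _, ht⟩ := intermediate_value_uIcc hc.continuousOn h3
  refine ⟨_, add_mem (W.smul_mem (Real.cos t) x.2) (W.smul_mem (Real.sin t) y.2), ?_, ht⟩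
  intro h
  obtain ⟨h4, h5⟩ := hy (Real.cos t) (Real.sin t) (Subtype.ext h)
  have h6 := Real.sin_sq_add_cos_sq t
  rw [h4, h5] at h6
  norm_num at h6

/-- The first case: a point `u ≠ A` of the tangent hyperplane of `A` with `D(u; A) ≠ 0`. -/
theorem real_case1 (A u w : Fin n → ℝ) (fA : (cb T).f A = 0) (Aw : (cb T).D A w = 1)
    (fu : (cb T).f u = 0) (Au : (cb T).D A u = 0) (uA : (cb T).D u A ≠ 0) :
    ∃ P x, (cb T).f P = 0 ∧ (cb T).D A P ≠ 0 ∧ (cb T).D P A ≠ 0 ∧ dsc (cb T) P x < 0 := by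
  obtain ⟨ε, hε⟩ := exists_neg (fun ε => ε * ((cb T).E A w u + ε * (cb T).D w u) ^ 2 -
    4 * ((cb T).D u A + ε * (cb T).D u w) *
      (1 + ε * (cb T).D w A + ε ^ 2 * (cb T).f w)) (by fun_prop) (by simpa using uA)
  have hx : dsc (cb T) u (A + ε • w) < 0 := by
    have h1 : dsc (cb T) u (A + ε • w) = ε * (ε * ((cb T).E A w u + ε * (cb T).D w u) ^ 2 -
        4 * ((cb T).D u A + ε * (cb T).D u w) *
          (1 + ε * (cb T).D w A + ε ^ 2 * (cb T).f w)) := by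
      simp only [dsc, (cb T).add_D, (cb T).smul_D, (cb T).E_smul2, (cb T).D_add, (cb T).D_smul,
        (cb T).f_add, (cb T).f_smul, fA, Aw, Au]
      ring
    rw [h1]
    exact hε
  have hU : {P | dsc (cb T) P (A + ε • w) < 0 ∧ (cb T).D P A ≠ 0} ∈ 𝓝 u := by
    refine Filter.Eventually.and ?_ ?_
    · exact (cont_dsc T continuous_id continuous_const).continuousAt.eventually_lt_const hx
    · exact (cont_D' T continuous_id continuous_const).continuousAt.eventually_ne uA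
  obtain ⟨η, τ, hη, ⟨h1, h2⟩, h3⟩ := exists_near T u A w fu uA _ hU
  refine ⟨_, _, h3, ?_, h2, h1⟩
  rw [(cb T).D_add, (cb T).D_add, (cb T).D_smul, (cb T).D_smul, (cb T).D_self, Au, Aw, fA]
  simpa using hη

/-- The second case: `D(u; A) = 0` on the tangent hyperplane of `A`. -/
theorem real_case2 (A : Fin n → ℝ) (fA : (cb T).f A = 0) (hn : 4 ≤ n)
    (h1 : ∃ y, (cb T).D A y ≠ 0)
    (h2 : ∀ (u : Fin n → ℝ) (r : ℝ), (∀ s : ℝ, u ≠ s • A) → (∀ y, (cb T).E A u y = 0) →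
      ∃ y, (cb T).D u y ≠ r * (cb T).D A y)
    (hQ : ∀ u, (cb T).D A u = 0 → (cb T).D u A = 0) :
    ∃ P x, (cb T).f P = 0 ∧ (cb T).D A P ≠ 0 ∧ (cb T).D P A ≠ 0 ∧ dsc (cb T) P x < 0 := by
  have hAA : (cb T).D A A = 0 := by rw [(cb T).D_self, fA, mul_zero]
  -- the vector `w`
  obtain ⟨w, Aw, wA⟩ : ∃ w, (cb T).D A w = 1 ∧ (cb T).D w A = 1 := by
    obtain ⟨y, hy⟩ := h1
    obtain ⟨w₀, hw₀⟩ : ∃ w₀, w₀ = ((cb T).D A y)⁻¹ • y := ⟨_, rfl⟩
    have h3 : (cb T).D A w₀ = 1 := by rw [hw₀, (cb T).D_smul, inv_mul_cancel₀ hy]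
    refine ⟨w₀ + ((1 - (cb T).D w₀ A) / 2) • A, ?_, ?_⟩
    · rw [(cb T).D_add, (cb T).D_smul, hAA, h3]
      ring
    · rw [(cb T).add_D, (cb T).smul_D, (cb T).E_smul2, hAA, (cb T).E_comm, (cb T).E_comm',
        (cb T).E_self, h3]
      ring
  have hE : ∀ x y, (cb T).D A x = 0 → (cb T).D A y = 0 → (cb T).E x y A = 0 := by
    intro x y hx hy
    have h3 := (cb T).add_D x y A
    rw [hQ x hx, hQ y hy, hQ (x + y) (by rw [(cb T).D_add, hx, hy, add_zero])] at h3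
    linarith
  have hEAw : (cb T).E A w A = 2 := by
    rw [(cb T).E_comm', (cb T).E_self, Aw, mul_one]
  -- the point `u`
  obtain ⟨u, hu, hu0, fu⟩ := exists_zero2 T
    (LinearMap.ker ((cb T).Dl A) ⊓ LinearMap.ker ((cb T).El A w)) (by
      have h3 := Submodule.finrank_sup_add_finrank_inf_eq (LinearMap.ker ((cb T).Dl A))
        (LinearMap.ker ((cb T).El A w))
      have h4 := LinearMap.finrank_range_add_finrank_ker ((cb T).Dl A)
      have h5 := LinearMap.finrank_range_add_finrank_ker ((cb T).El A w)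
      have h6 : Module.finrank ℝ (LinearMap.range ((cb T).Dl A)) ≤ 1 := by
        simpa using Submodule.finrank_le (LinearMap.range ((cb T).Dl A))
      have h7 : Module.finrank ℝ (LinearMap.range ((cb T).El A w)) ≤ 1 := by
        simpa using Submodule.finrank_le (LinearMap.range ((cb T).El A w))
      have h8 := Submodule.finrank_le (LinearMap.ker ((cb T).Dl A) ⊔
        LinearMap.ker ((cb T).El A w))
      simp only [Module.finrank_pi, Fintype.card_fin] at h4 h5 h8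
      omega)
  obtain ⟨Au, Eu⟩ := Submodule.mem_inf.1 hu
  rw [LinearMap.mem_ker, Cb.Dl_apply] at Au
  rw [LinearMap.mem_ker, Cb.El_apply] at Eu
  have uA : (cb T).D u A = 0 := hQ u Au
  have hus : ∀ s : ℝ, u ≠ s • A := by
    intro s hs
    rw [hs, (cb T).E_smul, hEAw] at Eu
    have h3 : s = 0 := by linarith
    rw [h3, zero_smul] at hs
    exact hu0 hs
  have hEu : ∀ y, (cb T).E A u y = 0 := by
    intro y
    have h3 : y = (y - (cb T).D A y • w) + (cb T).D A y • w := by module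
    have h4 : (cb T).D A (y - (cb T).D A y • w) = 0 := by
      rw [Cb.D_sub, (cb T).D_smul, Aw, mul_one, sub_self]
    rw [h3, (cb T).E_add, (cb T).E_smul, (cb T).E_comm' A u w, Eu, mul_zero, add_zero,
      (cb T).E_comm, (cb T).E_comm', hE u _ Au h4]
  -- the vector `v`
  obtain ⟨v, Av, Ev, uv⟩ : ∃ v, (cb T).D A v = 0 ∧ (cb T).E A w v = 0 ∧ (cb T).D u v = 1 := by
    obtain ⟨y, hy⟩ := h2 u ((cb T).D u w) hus hEu
    obtain ⟨v₀, hv₀⟩ : ∃ v₀, v₀ = y - (cb T).D A y • w := ⟨_, rfl⟩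
    have h3 : (cb T).D A v₀ = 0 := by
      rw [hv₀, Cb.D_sub, (cb T).D_smul, Aw, mul_one, sub_self]
    have h4 : (cb T).D u v₀ ≠ 0 := by
      rw [hv₀, Cb.D_sub, (cb T).D_smul]
      intro h5
      apply hy
      linarith
    refine ⟨((cb T).D u v₀)⁻¹ • (v₀ + (-(cb T).E A w v₀ / 2) • A), ?_, ?_, ?_⟩
    · rw [(cb T).D_smul, (cb T).D_add, (cb T).D_smul, hAA, h3]
      ring
    · rw [(cb T).E_smul, (cb T).E_add, (cb T).E_smul, hEAw]
      ring
    · rw [(cb T).D_smul, (cb T).D_add, (cb T).D_smul, uA, mul_zero, add_zero,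
        inv_mul_cancel₀ h4]
  -- `u` is odd
  obtain ⟨z, hz⟩ : ∃ z, z = w + (1 - (cb T).D u w) • v := ⟨_, rfl⟩
  have Az : (cb T).D A z = 1 := by
    rw [hz, (cb T).D_add, (cb T).D_smul, Av, Aw]
    ring
  have uz : (cb T).D u z = 1 := by
    rw [hz, (cb T).D_add, (cb T).D_smul, uv]
    ring
  have Ez : (cb T).E A z u = 0 := by rw [(cb T).E_comm', hEu]
  obtain ⟨ε, hε0, hε⟩ := exists_pos (fun ε => ε ^ 2 * (cb T).D z u ^ 2 -
    4 * (1 + ε * (cb T).D z A + ε ^ 2 * (cb T).f z)) (by fun_prop) (by norm_num)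
  have hx : dsc (cb T) u (A + ε • z) < 0 := by
    have h3 : dsc (cb T) u (A + ε • z) = ε ^ 2 * (ε ^ 2 * (cb T).D z u ^ 2 -
        4 * (1 + ε * (cb T).D z A + ε ^ 2 * (cb T).f z)) := by
      simp only [dsc, (cb T).add_D, (cb T).smul_D, (cb T).E_smul2, (cb T).D_add, (cb T).D_smul,
        (cb T).f_add, (cb T).f_smul, fA, Az, Au, uA, uz, Ez]
      ring
    rw [h3]
    exact mul_neg_of_pos_of_neg (by positivity) hε
  have hU : {P | dsc (cb T) P (A + ε • z) < 0} ∈ 𝓝 u :=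
    (cont_dsc T continuous_id continuous_const).continuousAt.eventually_lt_const hx
  obtain ⟨η, τ, hη, h3, h4⟩ := exists_near T u v w fu (by rw [uv]; exact one_ne_zero) _ hU
  refine ⟨_, _, h4, ?_, ?_, h3⟩
  · rw [(cb T).D_add, (cb T).D_add, (cb T).D_smul, (cb T).D_smul, Au, Aw, Av]
    simpa using hη
  · have h5 : u + η • w + τ • v = (u + τ • v) + η • w := by module
    have h6 : (cb T).D (u + τ • v) A = 0 := by
      refine hQ _ ?_
      rw [(cb T).D_add, (cb T).D_smul, Au, Av, mul_zero, add_zero]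
    have h7 : (cb T).E (u + τ • v) w A = 0 := by
      rw [Cb.E_add1, Cb.E_smul1, (cb T).E_comm u, (cb T).E_comm' w, (cb T).E_comm w, Eu,
        (cb T).E_comm v, (cb T).E_comm' w, (cb T).E_comm w, Ev]
      ring
    rw [h5, (cb T).add_D, (cb T).E_smul2, (cb T).smul_D, h6, h7, wA]
    simpa using hη

/-- Every real point `A` is on a line whose two other points `B`, `P` are such that `P` is on a
line without further real points. -/
theorem real_pair (A : Fin n → ℝ) (fA : (cb T).f A = 0) (hn : 4 ≤ n)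
    (h1 : ∃ y, (cb T).D A y ≠ 0)
    (h2 : ∀ (u : Fin n → ℝ) (r : ℝ), (∀ s : ℝ, u ≠ s • A) → (∀ y, (cb T).E A u y = 0) →
      ∃ y, (cb T).D u y ≠ r * (cb T).D A y) :
    ∃ B x, (cb T).f B = 0 ∧ ∀ᶠ Q in 𝓝 A, (cb T).D Q B ≠ 0 ∧ (cb T).D B Q ≠ 0 ∧
      dsc (cb T) (thd (cb T) Q B) x < 0 := by
  have hAA : (cb T).D A A = 0 := by rw [(cb T).D_self, fA, mul_zero]
  obtain ⟨P, x, fP, AP, PA, hP⟩ : ∃ P x, (cb T).f P = 0 ∧ (cb T).D A P ≠ 0 ∧
      (cb T).D P A ≠ 0 ∧ dsc (cb T) P x < 0 := by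
    by_cases hQ : ∀ u, (cb T).D A u = 0 → (cb T).D u A = 0
    · exact real_case2 T A fA hn h1 h2 hQ
    · push Not at hQ
      obtain ⟨u₁, Au₁, uA₁⟩ := hQ
      obtain ⟨y, hy⟩ := h1
      refine real_case1 T A (u₁ + (-(cb T).f u₁ / (cb T).D u₁ A) • A) (((cb T).D A y)⁻¹ • y) fA
        (by rw [(cb T).D_smul, inv_mul_cancel₀ hy]) ?_ ?_ ?_
      · rw [(cb T).f_add, (cb T).f_smul, (cb T).D_smul, (cb T).smul_D, Au₁, fA]
        field_simp
        ring
      · rw [(cb T).D_add, (cb T).D_smul, Au₁, hAA]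
        ring
      · rw [(cb T).add_D, (cb T).E_smul2, (cb T).smul_D, hAA, (cb T).E_comm, (cb T).E_comm',
          (cb T).E_self, Au₁]
        simpa using uA₁
  refine ⟨thd (cb T) A P, x, thd_f _ fA fP, ?_⟩
  have e1 : (cb T).D A (thd (cb T) A P) ≠ 0 := by
    rw [D_thd1 _ fA]
    exact neg_ne_zero.2 (pow_ne_zero 2 AP)
  have e2 : (cb T).D (thd (cb T) A P) A ≠ 0 := by
    rw [D_thd2 _ fA]
    exact mul_ne_zero (neg_ne_zero.2 PA) (pow_ne_zero 2 AP)
  have e3 : dsc (cb T) (thd (cb T) A (thd (cb T) A P)) x < 0 := by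
    rw [thd_thd _ fA, dsc_smul]
    refine mul_neg_of_pos_of_neg ?_ hP
    have := neg_ne_zero.2 (pow_ne_zero 3 AP)
    positivity
  refine ((cont_D' T continuous_id continuous_const).continuousAt.eventually_ne e1).and
    (((cont_D' T continuous_const continuous_id).continuousAt.eventually_ne e2).and ?_)
  refine (cont_dsc T ?_ continuous_const).continuousAt.eventually_lt_const e3
  unfold thd
  exact ((cont_D' T continuous_const continuous_id).smul continuous_id).add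
    ((cont_D' T continuous_id continuous_const).neg.smul continuous_const)

end real

end Cu
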