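import Pool.Agent.Lib.MP_f80667_ag.Cu.RealA
import Pool.Agent.Lib.MP_f80667_ag.ZC.Conn

/-! Real points of a cubic hypersurface: the family of the lines through a point. -/

open Polynomial Finset Topology

namespace Cu

universe u

section qdp

/-- A monic polynomial of degree two. -/
noncomputable def qdp {R : Type*} [CommRing R] (b c : R) : R[X] :=
  X ^ 2 + Polynomial.C b * X + Polynomial.C c

variable {R : Type*} [CommRing R] (b c : R)

theorem qdp_monic [Nontrivial R] : (qdp b c).Monic := by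
  unfold qdp
  monicity!

theorem qdp_natDegree [Nontrivial R] : (qdp b c).natDegree = 2 := by
  unfold qdp
  compute_degree!

theorem qdp_map {S : Type*} [CommRing S] (φ : R →+* S) :
    (qdp b c).map φ = qdp (φ b) (φ c) := by
  simp [qdp]

theorem qdp_aeval {S : Type*} [CommRing S] [Algebra R S] (y : S) :
    aeval y (qdp b c) = y ^ 2 + algebraMap R S b * y + algebraMap R S c := by
  simp [qdp]

theorem qdp_irr {K : Type*} [Field K] {b c : K} (h : ¬ IsSquare (b ^ 2 - 4 * c)) :
    Irreducible (qdp b c) := by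
  apply irreducible_of_degree_le_three_of_not_isRoot
  · rw [qdp_natDegree]
    decide
  · intro y hy
    apply h
    refine ⟨2 * y + b, ?_⟩
    have h1 : y ^ 2 + b * y + c = 0 := by
      have h2 := qdp_aeval b c y
      rw [coe_aeval_eq_eval] at h2
      rw [IsRoot.def] at hy
      rw [hy] at h2
      exact h2.symm
    linear_combination (-4) * h1

end qdp

variable {k : Type u} [Field k] {n : ℕ} {T : Tn k n} {G : Type u} [AddCommGroup G] (C : Th k T G)

theorem real_evf (t : k) (x : Fin n → k[X]) :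
    ((ex T k[X]).f x).eval t = (ex T k).f (fun j => (x j).eval t) := by
  have h := ex_map_f T (aeval t : k[X] →ₐ[k] k) x
  simp only [coe_aeval_eq_eval] at h
  exact h.symm

theorem real_evD (t : k) (x y : Fin n → k[X]) :
    ((ex T k[X]).D x y).eval t = (ex T k).D (fun j => (x j).eval t) (fun j => (y j).eval t) := by
  have h := ex_map_D T (aeval t : k[X] →ₐ[k] k) x y
  simp only [coe_aeval_eq_eval] at h
  exact h.symm

theorem real_ne {P V : Fin n → k} (fP : (ex T k).f P = 0) (hV : (ex T k).D P V ≠ 0)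
    {L : Type u} [Field L] [Algebra k L] (η : L) :
    (fun j => η * algebraMap k L (P j) +
      algebraMap k L ((ex T k).D P V) * algebraMap k L (V j)) ≠ 0 := by
  intro h
  have h1 : η • up L P + algebraMap k L ((ex T k).D P V) • up L V = 0 := h
  have h2 := congrArg ((ex T L).D (up L P)) h1
  rw [Cb.D_zero, (ex T L).D_add, (ex T L).D_smul, (ex T L).D_smul, (ex T L).D_self, ex_f, ex_D,
    fP, map_zero, mul_zero, mul_zero, zero_add, mul_self_eq_zero, map_eq_zero] at h2
  exact hV h2

/-- If `P` is on a line whose two other points are conjugate, the two other points `A`, `B` of any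
line through `P` are equivalent to a pair of conjugate points. -/
theorem Th.odd_pair (A B x : Fin n → k) (fA : (ex T k).f A = 0)
    (fB : (ex T k).f B = 0)
    (hAB : (ex T k).D A B ≠ 0) (hBA : (ex T k).D B A ≠ 0)
    (hx : ¬ IsSquare (dsc (ex T k) (thd (ex T k) A B) x)) :
    ∃ (L : Type u) (_ : Field L) (_ : Algebra k L) (_ : FiniteDimensional k L) (y : Fin n → L),
      Module.finrank k L = 2 ∧ y ≠ 0 ∧ (ex T L).f y = 0 ∧ C.cl k A + C.cl k B = C.cl L y := by
  obtain ⟨P, hP⟩ : ∃ P, P = thd (ex T k) A B := ⟨_, rfl⟩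
  have fP : (ex T k).f P = 0 := by
    rw [hP]
    exact thd_f _ fA fB
  have AP : (ex T k).D A P = -(ex T k).D A B ^ 2 := by
    rw [hP]
    exact D_thd1 _ fA
  have PA : (ex T k).D P A = -(ex T k).D B A * (ex T k).D A B ^ 2 := by
    rw [hP]
    exact D_thd2 _ fA
  rw [← hP] at hx
  have hPA0 : (ex T k).D P A ≠ 0 := by
    rw [PA]
    exact mul_ne_zero (neg_ne_zero.2 hBA) (pow_ne_zero 2 hAB)
  have hPx0 : (ex T k).D P x ≠ 0 := by
    intro h
    apply hx
    rw [dsc, h, mul_zero, zero_mul, sub_zero, sq]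
    exact ⟨_, rfl⟩
  -- the family
  obtain ⟨U, hU⟩ : ∃ U : Fin n → k[X], U = fun j =>
      (1 - X) * Polynomial.C (A j) + X * Polynomial.C (x j) := ⟨_, rfl⟩
  have eU0 : (fun j => (U j).eval 0) = A := by
    funext j
    simp [hU]
  have eU1 : (fun j => (U j).eval 1) = x := by
    funext j
    simp [hU]
  obtain ⟨P', hP'⟩ : ∃ P' : Fin n → k[X], P' = up k[X] P := ⟨_, rfl⟩
  have eP : ∀ t : k, (fun j => (P' j).eval t) = P := by
    intro t
    funext j
    rw [hP']
    simp [up]
  obtain ⟨a, ha⟩ : ∃ a : k[X], a = (ex T k[X]).D P' U := ⟨_, rfl⟩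
  obtain ⟨b, hb⟩ : ∃ b : k[X], b = (ex T k[X]).D U P' := ⟨_, rfl⟩
  obtain ⟨q, hq⟩ : ∃ q : k[X], q = (ex T k[X]).f U := ⟨_, rfl⟩
  have a0 : a.eval 0 = (ex T k).D P A := by rw [ha, real_evD, eP, eU0]
  have a1 : a.eval 1 = (ex T k).D P x := by rw [ha, real_evD, eP, eU1]
  have b0 : b.eval 0 = (ex T k).D A P := by rw [hb, real_evD, eP, eU0]
  have b1 : b.eval 1 = (ex T k).D x P := by rw [hb, real_evD, eP, eU1]
  have q0 : q.eval 0 = 0 := by rw [hq, real_evf, eU0, fA]
  have q1 : q.eval 1 = (ex T k).f x := by rw [hq, real_evf, eU1]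
  obtain ⟨ψ, hψ⟩ : ∃ ψ : Fin n → k[X][X], ψ = (X : k[X][X]) • up k[X][X] P' +
      Polynomial.C a • up k[X][X] U := ⟨_, rfl⟩
  have hψj : ∀ j, ψ j = X * Polynomial.C (P' j) + Polynomial.C a * Polynomial.C (U j) := by
    intro j
    rw [hψ]
    rfl
  have hfibψ : ∀ (t : k) (j : Fin n), fib t (ψ j) = X * Polynomial.C (P j) +
      Polynomial.C (a.eval t) * Polynomial.C ((U j).eval t) := by
    intro t j
    have e := congrFun (eP t) j
    rw [hψj, fib, ← e]
    simp
  have hdvd : qdp b (a * q) ∣ (ex T k[X][X]).f ψ := by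
    refine ⟨Polynomial.C a ^ 2, ?_⟩
    have h1 : (ex T k[X]).f P' = 0 := by rw [hP', ex_f, fP, map_zero]
    rw [hψ, Cb.f_lin, ex_f, ex_f, ex_D, ex_D, h1, ← ha, ← hb, ← hq, qdp]
    simp only [Polynomial.algebraMap_eq, Polynomial.C_mul, map_zero]
    ring
  have hfib : ∀ t : k, fib t (qdp b (a * q)) = qdp (b.eval t) (a.eval t * q.eval t) := by
    intro t
    rw [fib, qdp_map]
    simp
  have hirr : Irreducible (fib 1 (qdp b (a * q))) := by
    rw [hfib]
    apply qdp_irr
    rw [a1, b1, q1, ← mul_assoc]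
    exact hx
  have hβ : (ex T k).D A B ^ 2 ≠ 0 := pow_ne_zero 2 hAB
  have h0 : fib 0 (qdp b (a * q)) = (X - Polynomial.C 0) * (X - Polynomial.C ((ex T k).D A B ^ 2)) := by
    rw [hfib, b0, q0, AP, qdp]
    simp only [map_neg, map_zero, mul_zero]
    ring
  have hcop : IsCoprime (X - Polynomial.C 0 : k[X]) (X - Polynomial.C ((ex T k).D A B ^ 2)) :=
    isCoprime_X_sub_C_of_isUnit_sub (by
      rw [zero_sub]
      exact (neg_ne_zero.2 hβ).isUnit)
  have hsep : (fib 0 (qdp b (a * q))).Separable := by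
    rw [h0]
    exact (separable_X_sub_C).mul (separable_X_sub_C) hcop
  have hfam := C.fam k (qdp b (a * q)) ψ (qdp_monic _ _) hirr hsep hdvd (by
    rintro t (rfl | rfl) L' _ _ η hη hz
    · refine real_ne fP hPA0 η ?_
      rw [← hz]
      funext j
      have e := congrFun eU0 j
      rw [hfibψ, a0, e]
      simp only [map_add, map_mul, aeval_X, aeval_C]
    · refine real_ne fP hPx0 η ?_
      rw [← hz]
      funext j
      have e := congrFun eU1 j
      rw [hfibψ, a1, e]
      simp only [map_add, map_mul, aeval_X, aeval_C])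
  have hl : C.sec k (fib 0 (qdp b (a * q))) (fun j => fib 0 (ψ j)) = C.cl k A + C.cl k B := by
    rw [h0, C.sec_mul k _ _ _ (monic_X_sub_C _) (monic_X_sub_C _) hcop, C.sec_lin, C.sec_lin]
    congr 1
    · have h1 : (fun j => eval 0 (fib 0 (ψ j))) = (ex T k).D P A • A := by
        funext j
        have e := congrFun eU0 j
        rw [hfibψ, a0, e]
        simp
      rw [h1, C.smul k _ _ hPA0]
    · have h1 : (fun j => eval ((ex T k).D A B ^ 2) (fib 0 (ψ j))) =
          (-(ex T k).D A B ^ 3) • B := by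
        funext j
        have e := congrFun eU0 j
        rw [hfibψ, a0, e, PA, hP, thd]
        simp only [eval_add, eval_mul, eval_X, eval_C, Pi.add_apply, Pi.smul_apply, smul_eq_mul]
        ring
      rw [h1, C.smul k _ _ (neg_ne_zero.2 (pow_ne_zero 3 hAB))]
  rw [hl] at hfam
  -- the pair of conjugate points
  have hm1 : (fib 1 (qdp b (a * q))).Monic := by
    rw [hfib]
    exact qdp_monic _ _
  have hd1 : (fib 1 (qdp b (a * q))).natDegree = 2 := by rw [hfib, qdp_natDegree]
  obtain ⟨L, iL, iA, iF, θ, hrk, hθ0⟩ : ∃ (L : Type u) (_ : Field L) (_ : Algebra k L)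
      (_ : FiniteDimensional k L) (θ : L), Module.finrank k L = 2 ∧
      aeval θ (fib 1 (qdp b (a * q))) = 0 := by
    have hfact : Fact (Irreducible (fib 1 (qdp b (a * q)))) := ⟨hirr⟩
    refine ⟨AdjoinRoot (fib 1 (qdp b (a * q))), inferInstance, inferInstance,
      hm1.finite_adjoinRoot, AdjoinRoot.root _, ?_, ?_⟩
    · rw [← hd1]
      exact (AdjoinRoot.powerBasis hm1.ne_zero).finrank
    · rw [AdjoinRoot.aeval_eq, AdjoinRoot.mk_self]
  have hy : (fun j => aeval θ (fib 1 (ψ j))) =
      θ • up L P + algebraMap k L ((ex T k).D P x) • up L x := by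
    funext j
    have e := congrFun eU1 j
    rw [hfibψ, a1, e]
    simp only [map_add, map_mul, aeval_X, aeval_C]
    rfl
  refine ⟨L, iL, iA, iF, fun j => aeval θ (fib 1 (ψ j)), hrk, ?_, ?_, ?_⟩
  · rw [hy]
    exact real_ne fP hPx0 θ
  · have h2 := hθ0
    rw [hfib, qdp_aeval, a1, b1, q1] at h2
    rw [hy, Cb.f_lin, ex_f, ex_f, ex_D, ex_D, fP]
    simp only [map_mul, map_zero] at h2 ⊢
    linear_combination (algebraMap k L ((ex T k).D P x)) ^ 2 * h2
  · rw [hfam]
    exact C.sec_irr k L _ _ θ hm1 hirr hθ0 (by rw [hrk, hd1])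

theorem exists_sqrt_ext (r : k) : ∃ (L : Type u) (_ : Field L) (_ : Algebra k L)
    (_ : FiniteDimensional k L) (s : L), s ^ 2 = -algebraMap k L r := by
  have h1 : (qdp 0 r).natDegree ≠ 0 := by rw [qdp_natDegree]; decide
  have hf : Fact (Irreducible (qdp 0 r).factor) := fact_irreducible_factor _
  have h2 : (qdp 0 r).factor ≠ 0 := hf.out.ne_zero
  refine ⟨AdjoinRoot (qdp 0 r).factor, inferInstance, inferInstance,
    (AdjoinRoot.powerBasis h2).finite, AdjoinRoot.root _, ?_⟩
  have h3 : aeval (AdjoinRoot.root (qdp 0 r).factor) (qdp 0 r) = 0 := by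
    rw [AdjoinRoot.aeval_eq, AdjoinRoot.mk_eq_zero]
    exact factor_dvd_of_natDegree_ne_zero h1
  rw [qdp_aeval] at h3
  simp only [map_zero, zero_mul, add_zero] at h3
  exact eq_neg_of_add_eq_zero_left h3

/-- On a line the derivatives are not all proportional to one linear form. -/
theorem sm_line (hsm : Sm T) (A u : Fin n → k) (r : k) (hA : A ≠ 0) (hu : ∀ s : k, u ≠ s • A)
    (hE : ∀ y, (ex T k).E A u y = 0) : ∃ y, (ex T k).D u y ≠ r * (ex T k).D A y := by
  by_contra hcon
  push Not at hcon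
  obtain ⟨L, iL, iA, iF, s, hs⟩ := exists_sqrt_ext r
  obtain ⟨z, hz⟩ : ∃ z, z = up L u + s • up L A := ⟨_, rfl⟩
  have hz0 : z ≠ 0 := by
    intro h
    obtain ⟨i, hi⟩ := Function.ne_iff.1 hA
    have hi' : algebraMap k L (A i) ≠ 0 := by
      rw [Ne, map_eq_zero]
      exact hi
    have h1 : ∀ j, algebraMap k L (u j) + s * algebraMap k L (A j) = 0 := by
      intro j
      have h2 := congrFun h j
      rw [hz] at h2
      exact h2
    apply hu (u i / A i)
    funext j
    have h3 : algebraMap k L (u j) = algebraMap k L (u i / A i * A j) := by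
      have h4 := h1 i
      have h5 := h1 j
      rw [map_mul, map_div₀]
      field_simp
      linear_combination (algebraMap k L (A i)) * h5 - (algebraMap k L (A j)) * h4
    rw [Pi.smul_apply, smul_eq_mul]
    exact (algebraMap k L).injective h3
  have h1 : ∀ y : Fin n → k, (ex T L).D z (up L y) = 0 := by
    intro y
    rw [hz, (ex T L).add_D, (ex T L).smul_D, (ex T L).E_smul2, ex_D, ex_D, ex_E, hcon, hs,
      (ex T k).E_comm, hE]
    simp only [map_mul, map_zero]
    ring
  obtain ⟨y, hy⟩ := hsm L z hz0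
  apply hy
  have h2 := LinearMap.pi_apply_eq_sum_univ ((ex T L).Dl z) y
  rw [Cb.Dl_apply] at h2
  rw [h2]
  refine Finset.sum_eq_zero fun j _ => ?_
  have h3 : (fun i => if j = i then (1 : L) else 0) = up L (fun i => if j = i then (1 : k) else 0) := by
    funext i
    change (if j = i then (1 : L) else 0) = algebraMap k L (if j = i then (1 : k) else 0)
    split_ifs
    · rw [map_one]
    · rw [map_zero]
  rw [h3, Cb.Dl_apply, h1, smul_zero]

section transfer

variable (e : k ≃+* ℝ)

/-- The vector over `ℝ`. -/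
def toR (x : Fin n → k) : Fin n → ℝ := fun i => e (x i)

theorem toR_f (x : Fin n → k) : (cb (T.map (e : k →+* ℝ))).f (toR e x) = e ((ex T k).f x) :=
  map_f (e : k →+* ℝ) T x

theorem toR_D (x y : Fin n → k) :
    (cb (T.map (e : k →+* ℝ))).D (toR e x) (toR e y) = e ((ex T k).D x y) :=
  map_D (e : k →+* ℝ) T x y

theorem toR_E (x y z : Fin n → k) :
    (cb (T.map (e : k →+* ℝ))).E (toR e x) (toR e y) (toR e z) = e ((ex T k).E x y z) :=
  map_E (e : k →+* ℝ) T x y z

theorem toR_thd (x y : Fin n → k) :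
    thd (cb (T.map (e : k →+* ℝ))) (toR e x) (toR e y) = toR e (thd (ex T k) x y) := by
  funext i
  rw [thd, toR_D, toR_D, thd]
  simp only [toR, Pi.add_apply, Pi.smul_apply, smul_eq_mul, map_add, map_mul, map_neg]

theorem toR_dsc (x y : Fin n → k) :
    dsc (cb (T.map (e : k →+* ℝ))) (toR e x) (toR e y) = e (dsc (ex T k) x y) := by
  rw [dsc, toR_D, toR_D, toR_f, dsc]
  simp only [map_sub, map_mul, map_pow, map_ofNat]

theorem toR_symm (y : Fin n → ℝ) : toR e (fun i => e.symm (y i)) = y := by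
  funext i
  exact e.apply_symm_apply (y i)

theorem real_local [TopologicalSpace k] (he : Continuous e) (hsm : Sm T) (hn : 4 ≤ n)
    (A : Fin n → k) (hA : A ≠ 0) (fA : (ex T k).f A = 0) : ∃ B x : Fin n → k,
      (ex T k).f B = 0 ∧ ∀ᶠ Q in 𝓝 A, (ex T k).D Q B ≠ 0 ∧ (ex T k).D B Q ≠ 0 ∧
        ¬ IsSquare (dsc (ex T k) (thd (ex T k) Q B) x) := by
  obtain ⟨B', x', fB', hev⟩ := real_pair (T.map (e : k →+* ℝ)) (toR e A)
    (by rw [toR_f, fA, map_zero]) hn (by
      obtain ⟨y, hy⟩ := hsm k A hA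
      refine ⟨toR e y, ?_⟩
      rw [toR_D, Ne, EmbeddingLike.map_eq_zero_iff]
      exact hy) (by
      intro u r hu hE
      obtain ⟨y, hy⟩ := sm_line hsm A (fun i => e.symm (u i)) (e.symm r) hA (by
        intro s hs
        apply hu (e s)
        have h1 := congrArg (toR e) hs
        rw [toR_symm] at h1
        rw [h1]
        funext i
        simp only [toR, Pi.smul_apply, smul_eq_mul, map_mul]) (by
        intro y
        have h1 := hE (toR e y)
        rw [← toR_symm e u, toR_E, EmbeddingLike.map_eq_zero_iff] at h1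
        exact h1)
      refine ⟨toR e y, ?_⟩
      intro h1
      apply hy
      rw [← toR_symm e u, toR_D, toR_D] at h1
      apply e.injective
      rw [h1, map_mul, e.apply_symm_apply])
  refine ⟨fun i => e.symm (B' i), fun i => e.symm (x' i), ?_, ?_⟩
  · rw [← EmbeddingLike.map_eq_zero_iff (f := e), ← toR_f, toR_symm]
    exact fB'
  · have hc : Continuous (toR e : (Fin n → k) → Fin n → ℝ) :=
      continuous_pi fun i => he.comp (continuous_apply i)
    have h1 := (hc.continuousAt (x := A)).eventually hev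
    filter_upwards [h1] with Q hQ
    rw [← toR_symm e B', ← toR_symm e x', toR_D, toR_D, toR_thd, toR_dsc] at hQ
    obtain ⟨h2, h3, h4⟩ := hQ
    refine ⟨fun h => h2 (by rw [h, map_zero]), fun h => h3 (by rw [h, map_zero]), ?_⟩
    rintro ⟨s, hs⟩
    rw [hs, map_mul] at h4
    exact absurd h4 (not_lt.2 (mul_self_nonneg _))

end transfer

/-- If the real points form a connected set, they are equivalent modulo the classes of the pairs of
conjugate points. -/
theorem Th.real_conn [TopologicalSpace k] (e : k ≃+* ℝ) (he : Continuous e)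
    (he' : Continuous e.symm) (hsm : Sm T) (hn : 4 ≤ n) (N : AddSubgroup G)
    (hN : ∀ (L : Type u) [Field L] [Algebra k L] [FiniteDimensional k L] (y : Fin n → L),
      Module.finrank k L = 2 → y ≠ 0 → (ex T L).f y = 0 → C.cl L y ∈ N)
    (hconn : IsPreconnected (ZC.sqm '' {x : Fin n → k | x ≠ 0 ∧ (ex T k).f x = 0}))
    (A B : Fin n → k) (hA : A ≠ 0) (fA : (ex T k).f A = 0) (hB : B ≠ 0)
    (fB : (ex T k).f B = 0) : C.cl k A - C.cl k B ∈ N := by
  refine ZC.rel_of_conn e he he' {x : Fin n → k | x ≠ 0 ∧ (ex T k).f x = 0}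
    (fun x y => C.cl k x - C.cl k y ∈ N) ⟨?_, ?_, ?_⟩ ?_ (fun x hx => hx.1) ?_ ?_ hconn A B
    ⟨hA, fA⟩ ⟨hB, fB⟩
  · intro x
    rw [sub_self]
    exact zero_mem _
  · intro x y h
    rw [← neg_sub]
    exact neg_mem h
  · intro x y z h h'
    have h1 := add_mem h h'
    rwa [sub_add_sub_cancel] at h1
  · intro x
    rw [C.smul k _ _ (neg_ne_zero.2 one_ne_zero), sub_self]
    exact zero_mem _
  · rintro x ⟨hx, fx⟩
    refine ⟨smul_ne_zero (neg_ne_zero.2 one_ne_zero) hx, ?_⟩
    rw [(ex T k).f_smul, fx, mul_zero]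
  · rintro x ⟨hx, fx⟩
    obtain ⟨D, z, fD, hev⟩ := real_local e he hsm hn x hx fx
    have key : ∀ Q : Fin n → k, (ex T k).f Q = 0 → ((ex T k).D Q D ≠ 0 ∧ (ex T k).D D Q ≠ 0 ∧
        ¬ IsSquare (dsc (ex T k) (thd (ex T k) Q D) z)) → C.cl k Q + C.cl k D ∈ N := by
      rintro Q fQ ⟨h1, h2, h3⟩
      obtain ⟨L, iL, iA, iF, y, h4, h5, h6, h7⟩ := C.odd_pair Q D z fQ fD h1 h2 h3
      rw [h7]
      exact hN L y h4 h5 h6
    have hx' := key x fx hev.self_of_nhds
    filter_upwards [hev] with Q hQ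
    rintro ⟨_, fQ⟩
    have h1 := sub_mem hx' (key Q fQ hQ)
    rwa [add_sub_add_right_eq_sub] at h1

end Cu
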