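import Pool.Agent.Lib.MP_f80667_ag.Cu.Lin
import Pool.Agent.Lib.MP_f80667_ag.ZC.Good

/-! Points in a tangent hyperplane. -/

open Polynomial Finset

namespace Cu

universe u

/-- Every finite extension `M` of `k` has extensions `L` of degree prime to `N` over which quadratic
forms in more than `4` variables are isotropic. -/
def HIso (k : Type u) [Field k] : Prop :=
  ∀ (M : Type u) [Field M] [Algebra k M] [FiniteDimensional k M] (N : ℕ), N ≠ 0 →
    ∃ (L : Type u) (_ : Field L) (_ : Algebra k L) (_ : Algebra M L) (_ : IsScalarTower k M L)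
      (_ : FiniteDimensional k L), (Module.finrank M L).Coprime N ∧ ZC.Iso L 1

section tang_cb

variable {R V : Type*} [CommRing R] [AddCommGroup V] [Module R V] (c : Cb R V)

/-- The residual point of the line through `A` and `u`. -/
def tgB (A u : V) : V := -(c.f u) • A + c.D u A • u

theorem tgB_f {A u : V} (hA : c.f A = 0) (hu : c.D A u = 0) : c.f (tgB c A u) = 0 := by
  unfold tgB
  rw [c.f_lin, hA, hu]
  ring

theorem tg_line (s : R) (u w : V) :
    c.f (u + s • w) = c.f u + s * c.D u w + s ^ 2 * c.D w u + s ^ 3 * c.f w := by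
  rw [c.f_add, c.f_smul, c.D_smul, c.smul_D]

theorem tg_lineD (s : R) (u w A : V) :
    c.D (u + s • w) A = c.D u A + s * c.E u w A + s ^ 2 * c.D w A := by
  rw [c.add_D, c.smul_D, c.E_smul2]

/-- The curve `s ↦ tgB (u + s w)`. -/
theorem tgB_expand (A u w : V) (s : R) : tgB c A (u + s • w) =
    tgB c A u + s • (-(c.D u w) • A + c.D u A • w + c.E u w A • u) +
      s ^ 2 • (-(c.D w u) • A + c.D w A • u + c.E u w A • w) + s ^ 3 • tgB c A w := by
  unfold tgB
  rw [tg_line, tg_lineD]
  module

theorem tg_f_span {A u : V} (hA : c.f A = 0) (hu : c.f u = 0) (h : c.D A u = 0)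
    (h' : c.D u A = 0) (x y : R) : c.f (x • A + y • u) = 0 := by
  rw [c.f_lin, hA, hu, h, h']
  ring

end tang_cb

variable {k : Type u} [Field k] [CharZero k] {n : ℕ} {T : Tn k n} {G : Type u} [AddCommGroup G]
  (C : Th k T G) {M : Type u} [Field M] [Algebra k M] [FiniteDimensional k M]

/-- Two points on a line in the hypersurface are equivalent (`curve` with `N = 1`). -/
theorem Th.line_in (A B : Fin n → M) (hA : A ≠ 0) (hB : B ≠ 0)
    (h : ∀ s : M, (ex T M).f (A + s • B) = 0) : C.cl M A = C.cl M B := by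
  have := C.curve M 1 (fun a => if a = 0 then A else B) (by simpa using hA) (by simpa using hB)
    (fun s => by simpa [Finset.sum_range_succ] using h s)
  simpa using this

omit [CharZero k] in
/-- The curve of degree `3`. -/
theorem Th.tg_curve3 (A u w : Fin n → M) (hA : (ex T M).f A = 0) (hu : (ex T M).D A u = 0)
    (hw : (ex T M).D A w = 0) (h0 : tgB (ex T M) A u ≠ 0) (h3 : tgB (ex T M) A w ≠ 0) :
    C.cl M (tgB (ex T M) A u) = C.cl M (tgB (ex T M) A w) := by
  obtain ⟨c, hc⟩ : ∃ c : Cb M (Fin n → M), c = ex T M := ⟨_, rfl⟩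
  rw [← hc] at hA hu hw h0 h3 ⊢
  have := C.curve M 3 (fun a => match a with
    | 0 => tgB c A u
    | 1 => -(c.D u w) • A + c.D u A • w + c.E u w A • u
    | 2 => -(c.D w u) • A + c.D w A • u + c.E u w A • w
    | _ => tgB c A w) h0 h3 (fun s => by
      have e := tgB_expand c A u w s
      have f := tgB_f c hA (u := u + s • w) (by rw [c.D_add, c.D_smul, hu, hw]; ring)
      rw [e] at f
      rw [← hc]
      simpa [Finset.sum_range_succ] using f)
  exact this

omit [CharZero k] in
/-- The curve of degree `2`. -/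
theorem Th.tg_curve2 (A u v : Fin n → M) (hA : (ex T M).f A = 0) (hu : (ex T M).D A u = 0)
    (hv : (ex T M).D A v = 0) (hfu : (ex T M).f u = 0) (hDu : (ex T M).D u A = 0)
    (h0 : -((ex T M).D u v) • A + (ex T M).E u v A • u ≠ 0) (h2 : tgB (ex T M) A v ≠ 0) :
    C.cl M (-((ex T M).D u v) • A + (ex T M).E u v A • u) = C.cl M (tgB (ex T M) A v) := by
  obtain ⟨c, hc⟩ : ∃ c : Cb M (Fin n → M), c = ex T M := ⟨_, rfl⟩
  rw [← hc] at hA hu hv hfu hDu h0 h2 ⊢
  have := C.curve M 2 (fun a => match a with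
    | 0 => -(c.D u v) • A + c.E u v A • u
    | 1 => -(c.D v u) • A + c.D v A • u + c.E u v A • v
    | _ => tgB c A v) h0 h2 (fun s => by
      rw [← hc]
      by_cases hs : s = 0
      · subst hs
        have := tg_f_span c hA hfu hu hDu (-(c.D u v)) (c.E u v A)
        simpa [Finset.sum_range_succ] using this
      · have e := tgB_expand c A u v s
        have f := tgB_f c hA (u := u + s • v) (by rw [c.D_add, c.D_smul, hu, hv]; ring)
        have e2 : tgB c A (u + s • v) = s • ((-(c.D u v) • A + c.E u v A • u) +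
            s • (-(c.D v u) • A + c.D v A • u + c.E u v A • v) + s ^ 2 • tgB c A v) := by
          rw [e, hDu]
          have : tgB c A u = 0 := by
            unfold tgB
            rw [hfu, hDu]
            simp
          rw [this]
          module
        rw [e2, c.f_smul] at f
        have := (mul_eq_zero.1 f).resolve_left (pow_ne_zero 3 hs)
        simpa [Finset.sum_range_succ] using this)
  exact this

/-- A basis of a complement of `A` in the tangent space. -/
theorem exists_tg_basis (c : Cb M (Fin n → M)) (h7 : 7 ≤ n) (A : Fin n → M) (hA : A ≠ 0) :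
    ∃ (Q : Submodule M (Fin n → M)) (m : ℕ) (e : Fin m → Fin n → M),
      Disjoint (Submodule.span M {A}) Q ∧ 4 * 1 < m ∧ LinearIndependent M e ∧
      (∀ i, e i ∈ Q) ∧ ∀ i, c.D A (e i) = 0 := by
  obtain ⟨Q, hQ⟩ := Submodule.exists_isCompl (Submodule.span M {A})
  have d1 := Submodule.finrank_add_eq_of_isCompl hQ
  rw [finrank_span_singleton hA, Module.finrank_fin_fun] at d1
  have d2 := LinearMap.finrank_range_add_finrank_ker (c.Dl A)
  rw [Module.finrank_fin_fun] at d2
  have d3 : Module.finrank M (LinearMap.range (c.Dl A)) ≤ 1 := by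
    have := Submodule.finrank_le (LinearMap.range (c.Dl A))
    rwa [Module.finrank_self] at this
  have d4 := Submodule.finrank_sup_add_finrank_inf_eq Q (LinearMap.ker (c.Dl A))
  have d5 := Submodule.finrank_le (Q ⊔ LinearMap.ker (c.Dl A))
  rw [Module.finrank_fin_fun] at d5
  let b := Module.finBasis M ↥(Q ⊓ LinearMap.ker (c.Dl A))
  refine ⟨Q, _, fun i => (b i : Fin n → M), hQ.disjoint, by omega, ?_, fun i => (b i).2.1,
    fun i => (b i).2.2⟩
  exact b.linearIndependent.map' (Submodule.subtype _) (Submodule.ker_subtype _)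

/-- An isotropic vector in the tangent space. -/
theorem exists_tg_vec (c : Cb M (Fin n → M)) (h7 : 7 ≤ n) (hI : ZC.Iso M 1) (A : Fin n → M)
    (hA : A ≠ 0) (h2 : (2 : M) ≠ 0) :
    ∃ u : Fin n → M, LinearIndependent M ![A, u] ∧ c.D A u = 0 ∧ c.D u A = 0 := by
  obtain ⟨Q, m, e, hQ, hm, he, heQ, heA⟩ := exists_tg_basis c h7 A hA
  obtain ⟨x, hx, h⟩ := hI m hm (fun _ => Matrix.of fun i j => c.E (e i) (e j) A)
  have h := h 0
  obtain ⟨u, hu⟩ : ∃ u : Fin n → M, u = ∑ i, x i • e i := ⟨_, rfl⟩
  have hu0 : u ≠ 0 := by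
    intro h0
    apply hx
    have := Fintype.linearIndependent_iff.1 he x (by rw [← hu, h0])
    exact funext this
  have huQ : u ∈ Q := by
    rw [hu]
    exact Q.sum_mem fun i _ => Q.smul_mem _ (heQ i)
  refine ⟨u, ?_, ?_, ?_⟩
  · rw [LinearIndependent.pair_iff]
    intro s t hst
    have ht : t • u = 0 := by
      have m1 : t • u ∈ Q := Q.smul_mem t huQ
      have m2 : t • u ∈ Submodule.span M {A} := by
        rw [Submodule.mem_span_singleton]
        exact ⟨-s, by rw [neg_smul]; exact (eq_neg_of_add_eq_zero_right hst).symm⟩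
      exact Submodule.disjoint_def.1 hQ _ m2 m1
    have ht0 : t = 0 := (smul_eq_zero.1 ht).resolve_right hu0
    rw [ht0, zero_smul, add_zero] at hst
    exact ⟨(smul_eq_zero.1 hst).resolve_right hA, ht0⟩
  · have : c.Dl A u = 0 := by
      rw [hu, map_sum]
      refine sum_eq_zero fun i _ => ?_
      rw [map_smul, Cb.Dl_apply, heA, smul_zero]
    exact this
  · have e0 : c.E u u A = 0 := by
      have e1 : c.E u u A = c.El A u u := by rw [Cb.El_apply, c.E_comm A, c.E_comm' u A]
      have e2 : ∀ z, c.El A z u = ∑ i, x i * c.E (e i) z A := by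
        intro z
        rw [hu, map_sum]
        refine sum_congr rfl fun i _ => ?_
        rw [map_smul, smul_eq_mul, Cb.El_apply, c.E_comm A z, c.E_comm' z A, c.E_comm z]
      rw [e1, e2]
      have e3 : ∀ i, c.E (e i) u A = ∑ j, c.E (e i) (e j) A * x j := by
        intro i
        have : c.E (e i) u A = c.El A (e i) u := by
          rw [Cb.El_apply, c.E_comm A, c.E_comm' _ A]
        rw [this, e2]
        refine sum_congr rfl fun j _ => ?_
        rw [c.E_comm (e j), mul_comm]
      simp only [e3]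
      simpa [dotProduct, Matrix.mulVec] using h
    rw [c.E_self] at e0
    exact (mul_eq_zero.1 e0).resolve_left h2

omit [CharZero k] in
/-- The use of the smoothness. -/
theorem exists_tg_v (hsm : Sm T) (A u : Fin n → M) (hi : LinearIndependent M ![A, u]) :
    ∃ v : Fin n → M, (ex T M).D A v = 0 ∧
      ¬ ((ex T M).D u v = 0 ∧ (ex T M).E u v A = 0) := by
  by_contra hcon
  push Not at hcon
  rw [LinearIndependent.pair_iff] at hi
  have hA : A ≠ 0 := by
    rintro rfl
    have := (hi 1 0 (by simp)).1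
    exact one_ne_zero this
  obtain ⟨w, hw⟩ := hsm M A hA
  have key : ∀ y, (ex T M).D u y = (ex T M).D u w / (ex T M).D A w * (ex T M).D A y ∧
      (ex T M).E u y A = (ex T M).E u w A / (ex T M).D A w * (ex T M).D A y := by
    intro y
    have h1 : (ex T M).D A (y + (-((ex T M).D A y / (ex T M).D A w)) • w) = 0 := by
      rw [Cb.D_add, Cb.D_smul]
      field_simp
      ring
    have h2 := (hcon _ h1).1
    have h3 := (hcon _ h1).2
    rw [Cb.D_add, Cb.D_smul] at h2
    rw [Cb.E_add2, Cb.E_smul2] at h3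
    constructor
    · rw [div_mul_eq_mul_div, eq_div_iff hw]
      field_simp at h2
      linear_combination h2
    · rw [div_mul_eq_mul_div, eq_div_iff hw]
      field_simp at h3
      linear_combination h3
  obtain ⟨δ, hδ⟩ : ∃ δ, δ = (ex T M).D u w / (ex T M).D A w := ⟨_, rfl⟩
  obtain ⟨ε, hε⟩ : ∃ ε, ε = (ex T M).E u w A / (ex T M).D A w := ⟨_, rfl⟩
  rw [← hδ, ← hε] at key
  have hdeg : (X ^ 2 + Polynomial.C ε * X + Polynomial.C δ : M[X]).degree = 2 := by
    compute_degree!
  let L := (X ^ 2 + Polynomial.C ε * X + Polynomial.C δ : M[X]).SplittingField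
  have hfin : FiniteDimensional k L := FiniteDimensional.trans k M L
  have hsp : ((X ^ 2 + Polynomial.C ε * X + Polynomial.C δ : M[X]).map (algebraMap M L)).Splits :=
    Polynomial.SplittingField.splits _
  obtain ⟨θ, hθ⟩ := hsp.exists_eval_eq_zero (by
    rw [degree_map, hdeg]
    decide)
  simp only [Polynomial.map_add, Polynomial.map_mul, Polynomial.map_pow, map_X, map_C, eval_add,
    eval_mul, eval_pow, eval_X, eval_C] at hθ
  have hx0 : θ • up L A + up L u ≠ 0 := by
    intro h0
    have h1 : ∀ i, θ * algebraMap M L (A i) + algebraMap M L (u i) = 0 := fun i =>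
      congrFun h0 i
    obtain ⟨i, hi0⟩ := Function.ne_iff.1 hA
    have hAi : algebraMap M L (A i) ≠ 0 := by
      rw [Ne, FaithfulSMul.algebraMap_eq_zero_iff]
      exact hi0
    have hth : θ = algebraMap M L (-(u i) / A i) := by
      rw [map_div₀, map_neg, eq_div_iff hAi]
      linear_combination h1 i
    have h2 := (hi (-(u i) / A i) 1 (by
      funext j
      have := h1 j
      rw [hth, ← map_mul, ← map_add, FaithfulSMul.algebraMap_eq_zero_iff] at this
      simpa using this)).2
    exact one_ne_zero h2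
  obtain ⟨y, hy⟩ := hsm L _ hx0
  apply hy
  have hlin : (ex T L).Dl (θ • up L A + up L u) = 0 := by
    refine LinearMap.pi_ext' fun i => LinearMap.ext_ring ?_
    simp only [LinearMap.comp_apply, LinearMap.zero_apply, LinearMap.single_apply, Cb.Dl_apply]
    have e : (Pi.single i (1 : L) : Fin n → L) = up L (Pi.single i (1 : M)) := by
      funext j
      unfold up
      by_cases h : j = i
      · subst h
        simp
      · simp [h]
    obtain ⟨k1, k2⟩ := key (Pi.single i 1)
    rw [e, Cb.add_D, Cb.smul_D, Cb.E_smul1, ex_D, ex_D, ex_E, Cb.E_comm, Cb.E_comm', k1, k2,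
      map_mul, map_mul]
    linear_combination algebraMap M L ((ex T M).D A (Pi.single i 1)) * hθ
  have := congrArg (fun l => l y) hlin
  simpa using this

/-- The statement over a field with isotropic quadratic forms. -/
theorem Th.tang_iso (hsm : Sm T) (h7 : 7 ≤ n) (hI : ZC.Iso M 1) (A B : Fin n → M) (hA : A ≠ 0)
    (hB : B ≠ 0) (hfA : (ex T M).f A = 0) (hfB : (ex T M).f B = 0) (hD : (ex T M).D A B = 0) :
    C.cl M A = C.cl M B := by
  have hz : CharZero M := charZero_of_injective_algebraMap (algebraMap k M).injective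
  by_cases hBA : (ex T M).D B A = 0
  · refine C.line_in A B hA hB fun s => ?_
    rw [tg_line, hfA, hD, hBA, hfB]
    ring
  have bB : tgB (ex T M) A B = (ex T M).D B A • B := by
    unfold tgB
    rw [hfB]
    simp
  have bB0 : tgB (ex T M) A B ≠ 0 := by
    rw [bB]
    exact smul_ne_zero hBA hB
  have clB : C.cl M (tgB (ex T M) A B) = C.cl M B := by
    rw [bB]
    exact C.smul M _ B hBA
  obtain ⟨u, hi, hu, hDu⟩ := exists_tg_vec (ex T M) h7 hI A hA two_ne_zero
  have hi' := LinearIndependent.pair_iff.1 hi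
  by_cases hfu : (ex T M).f u = 0
  · -- the line through `A` and `u` is in the hypersurface
    have hu0 : u ≠ 0 := by
      rintro rfl
      exact one_ne_zero (hi' 0 1 (by simp)).2
    obtain ⟨v, hv, hne, hbv⟩ : ∃ v : Fin n → M, (ex T M).D A v = 0 ∧
        ¬ ((ex T M).D u v = 0 ∧ (ex T M).E u v A = 0) ∧ tgB (ex T M) A v ≠ 0 := by
      by_cases hBu : (ex T M).D u B = 0 ∧ (ex T M).E u B A = 0
      · obtain ⟨v, hv, hne⟩ := exists_tg_v hsm A u hi
        by_contra hcon
        push Not at hcon
        have h1 : ∀ t : M, tgB (ex T M) A (v + t • B) = 0 := by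
          intro t
          refine hcon _ ?_ ?_
          · rw [Cb.D_add, Cb.D_smul, hv, hD]
            ring
          · rw [Cb.D_add, Cb.D_smul, hBu.1, Cb.E_add2, Cb.E_smul2, hBu.2, mul_zero, add_zero,
              add_zero]
            exact fun h h' => hne ⟨h, h'⟩
        have e0 := h1 0
        have e1 := h1 1
        have e2 := h1 2
        have e3 := h1 3
        rw [tgB_expand] at e0 e1 e2 e3
        obtain ⟨c1, hc1⟩ : ∃ c1, c1 = -((ex T M).D v B) • A + (ex T M).D v A • B +
          (ex T M).E v B A • v := ⟨_, rfl⟩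
        obtain ⟨c2, hc2⟩ : ∃ c2, c2 = -((ex T M).D B v) • A + (ex T M).D B A • v +
          (ex T M).E v B A • B := ⟨_, rfl⟩
        rw [← hc1, ← hc2] at e0 e1 e2 e3
        have e : (6 : M) • tgB (ex T M) A B =
            (tgB (ex T M) A v + (3 : M) • c1 + (3 : M) ^ 2 • c2 + (3 : M) ^ 3 • tgB (ex T M) A B) -
            (3 : M) • (tgB (ex T M) A v + (2 : M) • c1 + (2 : M) ^ 2 • c2 +
              (2 : M) ^ 3 • tgB (ex T M) A B) +
            (3 : M) • (tgB (ex T M) A v + (1 : M) • c1 + (1 : M) ^ 2 • c2 +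
              (1 : M) ^ 3 • tgB (ex T M) A B) -
            (tgB (ex T M) A v + (0 : M) • c1 + (0 : M) ^ 2 • c2 +
              (0 : M) ^ 3 • tgB (ex T M) A B) := by module
        rw [e3, e2, e1, e0, smul_zero, sub_zero, add_zero, sub_zero] at e
        exact bB0 ((smul_eq_zero.1 e).resolve_left (by norm_num))
      · exact ⟨B, hD, hBu, bB0⟩
    have hc0 : -((ex T M).D u v) • A + (ex T M).E u v A • u ≠ 0 := by
      intro h0
      obtain ⟨h1, h2⟩ := hi' _ _ h0
      exact hne ⟨neg_eq_zero.1 h1, h2⟩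
    have s1 : C.cl M A = C.cl M (-((ex T M).D u v) • A + (ex T M).E u v A • u) := by
      refine C.line_in A _ hA hc0 fun s => ?_
      have : A + s • (-((ex T M).D u v) • A + (ex T M).E u v A • u) =
          (1 - s * (ex T M).D u v) • A + (s * (ex T M).E u v A) • u := by module
      rw [this]
      exact tg_f_span (ex T M) hfA hfu hu hDu _ _
    have s2 := C.tg_curve2 A u v hfA hu hv hfu hDu hc0 hbv
    have s3 := C.tg_curve3 A v B hfA hv hD hbv bB0
    rw [s1, s2, s3, clB]
  · have bu : tgB (ex T M) A u = -((ex T M).f u) • A := by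
      unfold tgB
      rw [hDu]
      simp
    have hfu' : -((ex T M).f u) ≠ 0 := neg_ne_zero.2 hfu
    have bu0 : tgB (ex T M) A u ≠ 0 := by
      rw [bu]
      exact smul_ne_zero hfu' hA
    have s3 := C.tg_curve3 A u B hfA hu hD bu0 bB0
    rw [bu, C.smul M _ A hfu', clB] at s3
    exact s3

/-- `B ∈ T_A ∩ X(M)` is equivalent to `A`.
Proof. It is enough to prove it over two extensions `L / M` of coprime degrees (`ext`), so we may
assume `Iso M 1`. We may assume that `A`, `B` are independent. If `D(B; A) = 0` the line `⟨A, B⟩` is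
in `X`. Otherwise put `β(u) = -f(u) A + D(u; A) u` for `u ∈ T_A = ker D(A; ·)`; then `f(β(u)) = 0`
and `β(B) = D(B; A) B`. Let `u₀ ∈ T_A`, `u₀ ∉ M A`, `D(u₀; A) = 0` (the quadratic form `D(·; A)` on
`T_A / M A` has `n - 2 ≥ 5` variables). If `f(u₀) ≠ 0` the curve `s ↦ β(u₀ + s B)` goes from
`-f(u₀) A` to `β(B)` (`N = 3`). If `f(u₀) = 0` the line `⟨A, u₀⟩` is in `X`. By smoothness (over the
extension of `M` by a root of `x^2 + ε x + δ`) there is `v ∈ T_A` with
`(D(u₀; v), E(u₀, v, A)) ≠ (0, 0)`: otherwise `D(u₀; ·) = δ D(A; ·)`, `E(u₀, A, ·) = ε D(A; ·)` and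
the derivative at `x A + u₀` is `(x^2 + ε x + δ) D(A; ·)`. Replace `v` by `v + t B` with
`β(v + t B) ≠ 0` (`t ↦ β(v + t B)` has the leading coefficient `β(B) ≠ 0`, and `D(u₀; B)`,
`E(u₀, B, A)` may be added: if `(D(u₀; B), E(u₀, B, A)) ≠ 0` take `v = B`, otherwise the two values
do not change). The curve `s ↦ β(u₀ + s v) / s` (`N = 2`) goes from
`-D(u₀; v) A + E(u₀, v, A) u₀`, on the line `⟨A, u₀⟩`, to `β(v)`, and the curve
`s ↦ β(v + s B)` (`N = 3`) goes from `β(v)` to `β(B)`. -/
theorem Th.tang (hsm : Sm T) (h7 : 7 ≤ n) (hiso : HIso k) (A B : Fin n → M) (hA : A ≠ 0)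
    (hB : B ≠ 0) (hfA : (ex T M).f A = 0) (hfB : (ex T M).f B = 0) (hD : (ex T M).D A B = 0) :
    C.cl M A = C.cl M B := by
  have up0 : ∀ (L : Type u) [Field L] [Algebra M L] (x : Fin n → M), x ≠ 0 → up L x ≠ 0 := by
    intro L _ _ x hx h0
    apply hx
    funext i
    have := congrFun h0 i
    unfold up at this
    rw [Pi.zero_apply, FaithfulSMul.algebraMap_eq_zero_iff] at this
    exact this
  have key : ∀ (N : ℕ), N ≠ 0 → ∃ d : ℕ, d ≠ 0 ∧ d.Coprime N ∧
      d • C.cl M A = d • C.cl M B := by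
    intro N hN
    obtain ⟨L, _, _, _, _, _, hco, hI⟩ := hiso M N hN
    have hML : FiniteDimensional M L := FiniteDimensional.right k M L
    refine ⟨Module.finrank M L, Module.finrank_pos.ne', hco, ?_⟩
    rw [← C.ext M L A, ← C.ext M L B]
    refine C.tang_iso hsm h7 hI _ _ (up0 L A hA) (up0 L B hB) ?_ ?_ ?_
    · rw [ex_f, hfA, map_zero]
    · rw [ex_f, hfB, map_zero]
    · rw [ex_D, hD, map_zero]
  obtain ⟨d, hd, -, e1⟩ := key 1 one_ne_zero
  obtain ⟨d', -, hco, e2⟩ := key d hd
  have h1 : d • (C.cl M A - C.cl M B) = 0 := by rw [smul_sub, e1, sub_self]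
  have h2 : d' • (C.cl M A - C.cl M B) = 0 := by rw [smul_sub, e2, sub_self]
  have h3 : addOrderOf (C.cl M A - C.cl M B) ∣ 1 := by
    rw [← hco]
    exact Nat.dvd_gcd (addOrderOf_dvd_of_nsmul_eq_zero h2) (addOrderOf_dvd_of_nsmul_eq_zero h1)
  have h4 : C.cl M A - C.cl M B = 0 := by
    rw [← AddMonoid.addOrderOf_eq_one_iff]
    exact Nat.dvd_one.1 h3
  exact sub_eq_zero.1 h4

end Cu
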